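import Pool.Agent.Lib.MP_bb98d0_co.Core1

/-!
Structural lemmas limiting the expensive edges at a payer.
-/

namespace Pool.Agent.Lib.MP_bb98d0_co
open Finset Classical

noncomputable section

variable {X : Type*} [Fintype X]

namespace St

def AO (c : St X) (x q : X) : Prop := c.T q ∧ c.Out x q ∧ c.TA q

variable {c : St X}

lemma rate_W_cases {x q : X} (hx : c.W x) (hs : ¬ c.Sad q) :
    c.rate x q = 0 ∨ (c.T q ∧ c.rate x q = c.rW x q) := by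
  by_cases hT : c.T q
  · exact Or.inr ⟨hT, rate_W hT hx⟩
  · exact Or.inl (rate_zero hs hT)

lemma rate_le_ra {x q : X} (hx : c.W x) (hs : ¬ c.Sad q) : c.rate x q ≤ ra c.t := by
  have := rb_ge c.ht; have := rb_le_ra (t := c.t)
  rcases rate_W_cases hx hs with h | ⟨-, h⟩ <;> rw [h]
  · linarith
  · unfold rW; split_ifs <;> linarith

lemma rate_le_rb {x q : X} (hx : c.W x) (hs : ¬ c.Sad q) (ha : ¬ c.AO x q) :
    c.rate x q ≤ rb c.t := by
  have := rb_ge c.ht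
  rcases rate_W_cases hx hs with h | ⟨hT, h⟩ <;> rw [h]
  · linarith
  · unfold rW
    split_ifs with h1 h2
    · exact absurd ⟨hT, h1, h2⟩ ha
    all_goals linarith

lemma rate_le_one {x q : X} (hx : c.W x) (hs : ¬ c.Sad q) (ha : ¬ (c.T q ∧ c.Out x q)) :
    c.rate x q ≤ 1 := by
  rcases rate_W_cases hx hs with h | ⟨hT, h⟩ <;> rw [h]
  · linarith
  · unfold rW
    rw [if_neg fun ho => ha ⟨hT, ho⟩]
    split_ifs <;> linarith

lemma rate_le_712 {x q : X} (hx : c.W x) (hs : ¬ c.Sad q) (ha : ¬ (c.T q ∧ c.Out x q))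
    (hj : ¬ (c.T q ∧ c.jj q = 1)) : c.rate x q ≤ 7 / 12 := by
  rcases rate_W_cases hx hs with h | ⟨hT, h⟩ <;> rw [h]
  · linarith
  · unfold rW
    rw [if_neg fun ho => ha ⟨hT, ho⟩, if_neg fun ho => hj ⟨hT, ho⟩]
    split_ifs <;> linarith

lemma rate_le_half {x q : X} (hx : c.W x) (hs : ¬ c.Sad q) (ha : ¬ (c.T q ∧ c.Out x q))
    (hj : ¬ (c.T q ∧ c.jj q = 1)) (hh : ¬ (c.T q ∧ c.Hlp q)) : c.rate x q ≤ 1 / 2 := by
  rcases rate_W_cases hx hs with h | ⟨hT, h⟩ <;> rw [h]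
  · linarith
  · unfold rW
    rw [if_neg fun ho => ha ⟨hT, ho⟩, if_neg fun ho => hj ⟨hT, ho⟩, if_neg fun ho => hh ⟨hT, ho⟩]

lemma paid_ord {x : X} (hx : x ∈ c.O) : c.paid x = ∑ q ∈ c.Nc x, c.rate x q := by
  refine Finset.sum_congr rfl fun q hq => ?_
  rw [mem_Nc] at hq
  by_cases hs : c.Sad q
  · rw [hs.low.w_one hx hq]; simp
  by_cases hT : c.T q
  · rw [hT.low.w_one hx hq]; simp
  · rw [rate_zero hs hT]; simp

lemma paid_le {x : X} {M : ℚ} (h : ∀ q, c.C x q → c.rate x q ≤ M) : c.paid x ≤ M * c.cr x := by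
  unfold paid cr
  push_cast
  rw [Finset.mul_sum]
  refine Finset.sum_le_sum fun q hq => ?_
  rw [mul_comm]
  exact mul_le_mul_of_nonneg_right (h q (mem_Nc.1 hq)) (Nat.cast_nonneg _)

lemma out_nonadj {x q : X} (hx : x ∈ c.O ∨ c.sm x = 0) (ho : c.Out x q) (hc : c.C x q) :
    ∃ u, c.Deep u ∧ c.C u q ∧ c.w x u = 0 := by
  obtain ⟨u, hu, hn⟩ := ho
  rw [mem_D] at hu
  refine ⟨u, hu.2, hu.1.symm, ?_⟩
  by_contra hw
  rcases hx with hx | hx
  · exact hn ⟨hx, Nat.pos_of_ne_zero hw⟩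
  · have := w_le_sm (hc.symm.toS hu.1 (Nat.pos_of_ne_zero hw))
    omega

lemma out_of {x q u : X} (hu : c.Deep u) (hc : c.C u q) (hw : c.w x u = 0) : c.Out x q :=
  ⟨u, mem_D.2 ⟨hc.symm, hu⟩, fun h => by omega⟩

lemma comp_w_zero {K : Finset X} (hK : c.Comp K) {q z : X} (hq : q ∈ K) (hz : z ∉ K)
    (hI : z ∉ c.I) (hs : c.s q = c.s z) : c.w q z = 0 := by
  by_contra hw
  exact hz (hK.mem_of_S hq ⟨(hK.2 q hq).2.1, hI, hs, Nat.pos_of_ne_zero hw⟩)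

lemma w_zero_of_not_C {u z : X} (hu : u ∉ c.I) (hz : z ∉ c.I) (hs : c.s u ≠ c.s z)
    (h : ¬ c.C u z) : c.w u z = 0 := by
  by_contra hw
  exact h ⟨hu, hz, hs, Nat.pos_of_ne_zero hw⟩

lemma Opt2.out_sad (h : c.Opt2) {x q b : X} (hx : c.Sl x) (hW : c.W x)
    (hx' : x ∈ c.O ∨ c.sm x = 0) (hq : c.T q) (ho : c.Out x q) (hc : c.C x q) (hb : c.Sad b)
    (hc' : c.C x b) : False := by
  obtain ⟨u, hu, hc2, hw⟩ := out_nonadj hx' ho hc
  refine h.swap_sad hx hq hu.1 hb hc2.symm hc.symm hc'.symm hw (fun e => hu.1.not_W (e ▸ hW)) ?_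
  exact comp_w_zero hu.2.1 (mem_Nc.2 hc2) (fun hh => hb.1 (hu.2.1.2 b hh).1) hb.2.1
    (hc.same hc')

lemma TA_card {u q : X} (hu : c.Deep u) (hc : c.C u q) (hA : c.TA q) :
    (c.RR u).card + 1 = c.t := by
  rw [← D_RR hu hc]; exact hA.1

lemma TA_T {u q z : X} (hu : c.Deep u) (hc : c.C u q) (hq : c.T q) (hA : c.TA q)
    (hz : c.C u z) : c.T z := by
  by_cases e : q = z
  · exact e ▸ hq
  · exact hA.2 z ((hu.2.1.2 q (mem_Nc.2 hc)).2.2.2 z (mem_Nc.2 hz) e)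

lemma Opt2.ext_Ns (h : c.Opt2) {u0 u a : X} (h0 : c.Deep u0) (hr : (c.RR u0).card + 1 = c.t)
    (hu : u ∈ c.RR u0) (ha : c.S u a) (ha' : a ∉ c.RR u0) :
    c.Ns u = insert a ((c.RR u0).erase u) := by
  refine Ns_eq ?_ ?_
  · intro y hy
    rcases mem_insert.1 hy with rfl | hy
    · exact mem_Ns.2 ha
    · rw [mem_erase] at hy
      exact mem_Ns.2 (h.RR_clique h0 u hu y hy.2 hy.1.symm)
  · rw [card_insert_of_notMem (fun hh => ha' (mem_of_mem_erase hh)), card_erase_of_mem hu]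
    have := (RR_T hu).2.2.2
    have := c.ht
    omega

lemma Opt2.ext_uniq (h : c.Opt2) {u0 u a b : X} (h0 : c.Deep u0) (hr : (c.RR u0).card + 1 = c.t)
    (hu : u ∈ c.RR u0) (ha : c.S u a) (ha' : a ∉ c.RR u0) (hb : c.S u b) (hb' : b ∉ c.RR u0) :
    b = a := by
  have := mem_Ns.2 hb
  rw [h.ext_Ns h0 hr hu ha ha'] at this
  exact (mem_insert.1 this).resolve_right fun hh => hb' (mem_of_mem_erase hh)

lemma TA_Nc {u0 z x : X} (hr : (c.RR u0).card + 1 = c.t) (hz : c.C u0 z) (hT : c.T z)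
    (hx : c.C z x) (hx' : x ∉ c.RR u0) : c.Nc z = insert x (c.RR u0) := by
  refine Nc_eq ?_ (by rw [card_insert_of_notMem hx', hT.2.2.1]; omega)
  intro y hy
  rcases mem_insert.1 hy with rfl | hy
  exacts [mem_Nc.2 hx, mem_Nc.2 (RR_C hy hz)]

lemma Good.AO_same (G : c.Good) {x q q' : X} (hx : c.Sl x) (hW : c.W x)
    (hx' : x ∈ c.O ∨ c.sm x = 0) (ha : c.AO x q) (hc : c.C x q) (hc' : c.C x q')
    (hS : c.S q q') : False := by
  have h := G.opt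
  obtain ⟨u, hu, hc2, hw⟩ := out_nonadj hx' ha.2.1 hc
  have hr := TA_card hu hc2 ha.2.2
  have hc3 : c.C u q' := mem_Nc.1 (hu.2.1.mem_of_S (mem_Nc.2 hc2) hS)
  have hT' : c.T q' := ha.2.2.2 q' hS
  have hxR : x ∉ c.RR u := fun hh => (RR_T hh).not_W hW
  by_cases h2 : ∃ u' ∈ c.RR u, u' ≠ u ∧ c.w x u' = 0
  · obtain ⟨u', hu', hne, hw'⟩ := h2
    refine h.swap_swap hx ha.1 hu.1 hT' (RR_T hu') hc2.symm (RR_C hu' hc3) hc.symm hc'.symm hw hw'
      hS.ne hne.symm (fun e => hu.1.not_W (e ▸ hW)) (fun e => hxR (e ▸ hu')) ?_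
    rw [w_one ha.1.1 hT'.1 hS.pos,
      w_one hu.1.1 (RR_T hu').1 (h.RR_clique hu u (self_RR hu) u' hu' hne.symm).pos,
      w_one ha.1.1 (RR_T hu').1 (RR_C hu' hc2).pos, w_one hT'.1 hu.1.1 hc3.symm.pos]
  push Not at h2
  have hadj : ∀ u' ∈ (c.RR u).erase u, c.S u' x := fun u' hu' => by
    rw [mem_erase] at hu'
    exact (hc.symm.toS (RR_C hu'.2 hc2) (Nat.pos_of_ne_zero (h2 u' hu'.2 hu'.1))).symm
  have ht := c.ht
  have hxO : x ∈ c.O := by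
    refine hx'.resolve_right fun hs => ?_
    obtain ⟨u', hu', hne⟩ := exists_mem_ne (s := c.RR u) (by omega) u
    have h1 := (hadj u' (mem_erase.2 ⟨hne, hu'⟩)).symm
    have := w_le_sm h1; have := h1.pos
    omega
  have := G.TW (K := c.Nc u) (L := insert x (c.RR u)) (A := {q, q'}) (B := (c.RR u).erase u)
    (fun z hz => by
      simp only [mem_insert, mem_singleton] at hz
      rcases hz with rfl | rfl
      · exact ⟨ha.1, (hu.2.1.eq_insert (mem_Nc.2 hc2)).symm, TA_Nc hr hc2 ha.1 hc.symm hxR⟩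
      · exact ⟨hT', (hu.2.1.eq_insert (mem_Nc.2 hc3)).symm, TA_Nc hr hc3 hT' hc'.symm hxR⟩)
    (fun z hz => by
      have hz' := mem_of_mem_erase hz
      refine ⟨RR_T hz', ?_, (mem_RR.1 hz').2⟩
      rw [h.ext_Ns hu hr hz' (hadj z hz) hxR, insert_comm, insert_erase hz'])
    (fun y hy => (hu.2.1.2 y hy).1)
    (fun y hy => by
      rcases mem_insert.1 hy with rfl | hy
      exacts [hxO, (RR_T hy).1])
    (z0 := q) (by simp) (mem_insert_of_mem (self_RR hu)) hu.1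
  rw [card_pair hS.ne, card_erase_of_mem (self_RR hu)] at this
  omega

lemma RR_disj {u u' y : X} (hne : c.Nc u ≠ c.Nc u') (h1 : y ∈ c.RR u) (h2 : y ∈ c.RR u') :
    False := hne ((mem_RR.1 h1).2.symm.trans (mem_RR.1 h2).2)

lemma Opt2.sel2 (h : c.Opt2) {u0 u : X} (h0 : c.Deep u0) (hr : (c.RR u0).card + 1 = c.t)
    (hu : u ∈ c.RR u0) {A : Finset X} (hA : 2 ≤ A.card)
    (hA' : ∀ a ∈ A, a ∉ c.RR u0 ∧ a ∉ c.I ∧ c.s u = c.s a) : ∃ a ∈ A, c.w u a = 0 := by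
  by_contra hn
  push Not at hn
  obtain ⟨a, ha, b, hb, hne⟩ := one_lt_card.1 hA
  have hI := (RR_T hu).2.1
  exact hne (h.ext_uniq h0 hr hu
    ⟨hI, (hA' b hb).2.1, (hA' b hb).2.2, Nat.pos_of_ne_zero (hn b hb)⟩ (hA' b hb).1
    ⟨hI, (hA' a ha).2.1, (hA' a ha).2.2, Nat.pos_of_ne_zero (hn a ha)⟩ (hA' a ha).1)

lemma diff_core {u u' q q' : X} (hu : c.Deep u) (hc : c.C u q) (hc' : c.C u' q') (hne : q ≠ q')
    (hS : ¬ c.S q q') : c.Nc u ≠ c.Nc u' := fun e =>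
  hS ((hu.2.1.2 q (mem_Nc.2 hc)).2.2.2 q' (e ▸ mem_Nc.2 hc') hne)

/-- swaps in two different cores are independent -/
lemma Opt2.two_cores (h : c.Opt2) {x q q' u u' : X} (hx : c.Sl x) (hW : c.W x) (hq : c.T q)
    (hq' : c.T q') (hu : c.Deep u) (hu' : c.Deep u') (hc : c.C x q) (hc' : c.C x q')
    (h1 : c.C u q) (h2 : c.C u' q') (hne : c.Nc u ≠ c.Nc u') (w1 : c.w x u = 0)
    (w2 : c.w x u' = 0) (w3 : c.w u u' = 0) : False := by
  have n1 : q' ∉ c.Nc u := fun hh => hne (hu.2.1.unique hu'.2.1 hh (mem_Nc.2 h2))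
  have n2 : q ∉ c.Nc u' := fun hh => hne (hu.2.1.unique hu'.2.1 (mem_Nc.2 h1) hh)
  refine h.swap_swap hx hq hu.1 hq' hu'.1 h1.symm h2.symm hc.symm hc'.symm w1 w2
    (fun e => n1 (e ▸ mem_Nc.2 h1)) (fun e => hne (by rw [e])) (fun e => hu.1.not_W (e ▸ hW))
    (fun e => hu'.1.not_W (e ▸ hW)) ?_
  rw [w3, comp_w_zero hu.2.1 (mem_Nc.2 h1) n1 hc'.r (hc.same hc'), c.symm q u', c.symm q' u,
    w_zero_of_not_C h2.l hc.r (by rw [hc.same hc']; exact h2.side) (fun hh => n2 (mem_Nc.2 hh)),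
    w_zero_of_not_C h1.l hc'.r (by rw [← hc.same hc']; exact h1.side)
      (fun hh => n1 (mem_Nc.2 hh))]

lemma Good.AO_unique (G : c.Good) {x q q' : X} (hx : c.Sl x) (hW : c.W x)
    (hx' : x ∈ c.O ∨ c.sm x = 0) (hsm : c.sm x + 2 ≤ c.t) (ha : c.AO x q) (ha' : c.AO x q')
    (hc : c.C x q) (hc' : c.C x q') : q = q' := by
  have h := G.opt
  by_contra hne
  by_cases hS : c.S q q'
  · exact G.AO_same hx hW hx' ha hc hc' hS
  obtain ⟨u, hu, h1, w1⟩ := out_nonadj hx' ha.2.1 hc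
  obtain ⟨u', hu', h2, w2⟩ := out_nonadj hx' ha'.2.1 hc'
  have hK := diff_core hu h1 h2 hne hS
  have hr := TA_card hu h1 ha.2.2
  have hr' := TA_card hu' h2 ha'.2.2
  have hsx : ∀ y ∈ c.RR u, c.s x = c.s y := fun y hy => hc.symm.same (RR_C hy h1)
  have hsx' : ∀ y ∈ c.RR u', c.s x = c.s y := fun y hy => hc'.symm.same (RR_C hy h2)
  by_cases h3 : 2 ≤ ((c.RR u).filter fun y => c.w x y = 0).card
  · obtain ⟨a, ha2, hw⟩ := h.sel2 hu' hr' (self_RR hu') h3 (fun a ha => by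
      rw [mem_filter] at ha
      exact ⟨fun hh => RR_disj hK ha.1 hh, (RR_T ha.1).2.1,
        (hsx' _ (self_RR hu')).symm.trans (hsx a ha.1)⟩)
    rw [mem_filter] at ha2
    exact h.two_cores hx hW ha.1 ha'.1 (mem_RR.1 ha2.1).1 hu' hc hc' (RR_C ha2.1 h1).symm h2
      (by rw [(mem_RR.1 ha2.1).2]; exact hK) ha2.2 w2 (by rw [c.symm]; exact hw)
  by_cases h4 : 2 ≤ ((c.RR u').filter fun y => c.w x y = 0).card
  · obtain ⟨a, ha2, hw⟩ := h.sel2 hu hr (self_RR hu) h4 (fun a ha => by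
      rw [mem_filter] at ha
      exact ⟨fun hh => RR_disj hK hh ha.1, (RR_T ha.1).2.1,
        (hsx _ (self_RR hu)).symm.trans (hsx' a ha.1)⟩)
    rw [mem_filter] at ha2
    exact h.two_cores hx hW ha.1 ha'.1 hu (mem_RR.1 ha2.1).1 hc hc' h1 (RR_C ha2.1 h2).symm
      (by rw [(mem_RR.1 ha2.1).2]; exact hK) w1 ha2.2 hw
  have a1 := Finset.card_filter_add_card_filter_not (s := c.RR u) (fun y => c.w x y = 0)
  have a2 := Finset.card_filter_add_card_filter_not (s := c.RR u') (fun y => c.w x y = 0)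
  have a3 : ((c.RR u).filter fun y => ¬ c.w x y = 0) ∪ ((c.RR u').filter fun y => ¬ c.w x y = 0)
      ⊆ c.Ns x := by
    intro y hy
    rcases mem_union.1 hy with hy | hy <;> rw [mem_filter] at hy
    · exact mem_Ns.2 ⟨hc.l, (RR_T hy.1).2.1, hsx y hy.1, Nat.pos_of_ne_zero hy.2⟩
    · exact mem_Ns.2 ⟨hc.l, (RR_T hy.1).2.1, hsx' y hy.1, Nat.pos_of_ne_zero hy.2⟩
  have a4 := card_le_sm a3
  rw [card_union_of_disjoint (Finset.disjoint_left.2 fun y h1 h2 =>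
    RR_disj hK (mem_filter.1 h1).1 (mem_filter.1 h2).1)] at a4
  have := c.ht
  omega

lemma Good.one_big (G : c.Good) {x : X} (hO : x ∈ c.O) (hx : c.Sl x) (hW : c.W x)
    (hsm : c.sm x + 2 ≤ c.t) : ((c.Nc x).filter fun q => c.Sad q ∨ c.AO x q).card ≤ 1 := by
  rw [card_le_one]
  intro q hq q' hq'
  rw [mem_filter, mem_Nc] at hq hq'
  rcases hq.2 with h1 | h1 <;> rcases hq'.2 with h2 | h2
  · exact G.sad_sad hO hx h1 h2 hq.1 hq'.1
  · exact (G.opt.out_sad hx hW (Or.inl hO) h2.1 h2.2.1 hq'.1 h1 hq.1).elim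
  · exact (G.opt.out_sad hx hW (Or.inl hO) h1.1 h1.2.1 hq.1 h2 hq'.1).elim
  · exact G.AO_unique hx hW (Or.inl hO) hsm h1 h2 hq.1 hq'.1

end St

end

end Pool.Agent.Lib.MP_bb98d0_co
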