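import Pool.Agent.Lib.MP_bb98d0_co.Afford1

/-!
Affordability for ordinary payers with `t + 1` cross and `t - 2` same side neighbours.
-/

namespace Pool.Agent.Lib.MP_bb98d0_co
open Finset Classical

noncomputable section

variable {X : Type*} [Fintype X]

namespace St

def W1 (c : St X) (x : X) : Prop := x ∈ c.O ∧ x ∉ c.I ∧ c.cr x = c.t + 1 ∧ c.sm x + 2 = c.t

variable {c : St X} {x : X}

lemma W1.W (h : c.W1 x) : c.W x :=
  ⟨⟨h.2.1, fun _ => h.2.2.1.ge, fun h' => absurd h.1 h'⟩, fun hH => by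
    have := hH.2.2.2; have := h.2.2.2; omega⟩
lemma W1.gm (h : c.W1 x) : c.gm x ≤ 2 + c.e := by
  have := gm_ord h.1 h.2.1; have := h.2.2.1; omega
lemma W1.gp (h : c.W1 x) : c.gp x ≤ 4 - c.e := by
  have := gp_ord h.1 h.2.1; have := h.2.2.2; omega
lemma W1.sl (h : c.W1 x) : c.Sl x := Or.inl (by have := h.gm; have := c.he; omega)
lemma W1.ne_low (h : c.W1 x) {y : X} (hy : c.Low y) : x ≠ y := fun e => hy.not_pay (e ▸ h.W.1)
lemma W1.card (h : c.W1 x) : (c.Nc x).card ≤ c.t + 1 :=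
  h.2.2.1 ▸ card_le_cr (Finset.Subset.refl _)

lemma Hlp.nonadj {u : X} (hu : c.Hlp u) (hW : c.W x) (hc : c.C x u) :
    ∃ q y, c.T q ∧ c.C u q ∧ c.w x q = 0 ∧ c.S x y ∧ c.Pay y := by
  obtain ⟨-, q, y1, y2, e, hq, p1, p2, hS, w1, w2⟩ := hu
  have h1 := mem_Nc.2 hc.symm
  have h2 : c.C u q := mem_Nc.1 (by rw [e]; simp)
  rw [e] at h1
  simp only [mem_insert, mem_singleton] at h1
  rcases h1 with h1 | h1 | h1
  · exact absurd (h1 ▸ hW) hq.not_W
  · exact ⟨q, y2, hq, h2, h1 ▸ w1, h1 ▸ hS, p2⟩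
  · exact ⟨q, y1, hq, h2, h1 ▸ w2, h1 ▸ hS.symm, p1⟩

lemma Good.W1_sad (G : c.Good) (hx : c.W1 x) {b : X} (hb : c.Sad b) (hc : c.C x b) :
    c.paid x ≤ 3 * (c.t : ℚ) / 2 - 1 := by
  have h := G.opt
  have ht := c.ht
  rw [paid_ord hx.1, ← Finset.add_sum_erase _ _ (mem_Nc.2 hc), rate_sad hb]
  have hns : ∀ q ∈ (c.Nc x).erase b, ¬ c.Sad q := fun q hq hs =>
    (mem_erase.1 hq).1 (G.sad_sad hx.1 hx.sl hs hb (mem_Nc.1 (mem_of_mem_erase hq)) hc)
  have hno : ∀ q ∈ (c.Nc x).erase b, ¬ (c.T q ∧ c.Out x q) := fun q hq ho =>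
    h.out_sad hx.sl hx.W (Or.inl hx.1) ho.1 ho.2 (mem_Nc.1 (mem_of_mem_erase hq)) hb hc
  have key := sum_two_level ((c.Nc x).erase b) (fun q => c.rate x q) (fun q => c.S b q)
    (m := 1 / 2) (M := 1) (a := c.t) (n := 1) (by norm_num) (by norm_num)
    (by rw [card_erase_of_mem (mem_Nc.2 hc)]; have := hx.card; omega)
    (by
      rw [← hb.2.2.2]
      exact card_le_sm fun y hy => mem_Ns.2 (mem_filter.1 hy).2)
    (fun q hq => rate_le_one hx.W (hns q hq) (hno q hq))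
    (fun q hq hS => by
      have hcq := mem_Nc.1 (mem_of_mem_erase hq)
      have hw : c.w b q = 0 := by
        by_contra hw
        exact hS (hc.toS hcq (Nat.pos_of_ne_zero hw))
      have hall : c.T q → ∀ u, c.Low u → c.C q u → 0 < c.w x u := fun hT u hu hqu =>
        h.Fsad hx.gm hb hT hu hc.symm hcq.symm hqu (hx.ne_low hu) hw
      refine rate_le_half hx.W (hns q hq) (hno q hq) (fun hj => ?_) (fun hh => ?_)
      · have h1 := h.Lo_card hj.1
        have h2 : (c.Lo q).card ≤ c.sm x := card_le_sm fun y hy =>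
          mem_Ns.2 (hcq.symm.toS (mem_Lo.1 hy).1 (hall hj.1 y (mem_Lo.1 hy).2 (mem_Lo.1 hy).1))
        have := hx.2.2.2; have := hj.2
        omega
      · obtain ⟨q', y, h1, h2, h3, -⟩ := hh.2.nonadj hx.W hcq
        have := hall hh.1 q' h1.low h2
        omega)
  have : (3 : ℚ) ≤ c.t := by exact_mod_cast ht
  push_cast at key
  linarith

lemma Opt2.out_clique (h : c.Opt2) (hx : c.W1 x) {q u : X} (hq : c.T q) (hc : c.C x q)
    (hu : c.Deep u) (hc2 : c.C u q) (hw : c.w x u = 0) :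
    ∀ z ∈ ((c.Nc x).filter c.T).erase q, ∀ z' ∈ ((c.Nc x).filter c.T).erase q,
      z ≠ z' → c.S z z' := by
  have hle : ∀ z, c.T z → c.C x z → c.w q z ≤ c.w u z := by
    intro z hz hcz
    by_cases h0 : c.w q z = 0
    · omega
    · have h1 := hu.2.1.mem_of_S (mem_Nc.2 hc2) (hc.toS hcz (Nat.pos_of_ne_zero h0))
      have := (mem_Nc.1 h1).pos
      have := c.simple q hq.1 z hz.1
      omega
  intro z hz z' hz' hne
  simp only [mem_erase, mem_filter, mem_Nc] at hz hz'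
  exact h.Fout hx.gp hu.1 hq hz.2.2 hz'.2.2 hc hz.2.1 hz'.2.1 hc2 (hx.ne_low hu.1.low) hw
    hz.1.symm hz'.1.symm hne (hle z hz.2.2 hz.2.1) (hle z' hz'.2.2 hz'.2.1)

lemma Opt2.F5u (h : c.Opt2) (hx : c.W1 x) {q u z y v : X} (hq : c.T q) (hc : c.C x q)
    (hu : c.Deep u) (hc2 : c.C u q) (hz : c.T z) (hcz : c.C x z) (hzK : z ∉ c.Nc u)
    (hy : y ∈ c.Lo z) (hv : v ∈ c.RR u) : 0 < c.w x y ∨ 0 < c.w x v ∨ 0 < c.w y v := by
  rw [mem_Lo] at hy
  refine h.F5 hx.gm hz hq hy.2 (RR_T hv).low hcz.symm hc.symm hy.1 (RR_C hv hc2)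
    (fun e => hzK (e ▸ mem_Nc.2 hc2)) (hx.ne_low hy.2) (hx.ne_low (RR_T hv).low) (fun e => ?_) ?_
  · exact hzK (by rw [← (mem_RR.1 hv).2, ← e]; exact mem_Nc.2 hy.1.symm)
  · rw [c.symm]
    exact comp_w_zero hu.2.1 (mem_Nc.2 hc2) hzK hcz.r (hc.same hcz)

lemma Lo_not_RR {u z y : X} (hzK : z ∉ c.Nc u) (hy : y ∈ c.Lo z) : y ∉ c.RR u := fun hv =>
  hzK (by rw [← (mem_RR.1 hv).2]; exact mem_Nc.2 (mem_Lo.1 hy).1.symm)

lemma Opt2.ex_nonadj (h : c.Opt2) (hx : c.W1 x) {z : X} (hz : c.T z) (hcz : c.C x z)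
    (hj : c.jj z = 1) : ∃ y ∈ c.Lo z, c.w x y = 0 := by
  by_contra hn
  push Not at hn
  have h1 := h.Lo_card hz
  have h2 : (c.Lo z).card ≤ c.sm x := card_le_sm fun y hy =>
    mem_Ns.2 (hcz.symm.toS (mem_Lo.1 hy).1 (Nat.pos_of_ne_zero (hn y hy)))
  have := hx.2.2.2
  omega

lemma Opt2.typeA_j (h : c.Opt2) (hx : c.W1 x) {q u z : X} (hq : c.T q) (hc : c.C x q)
    (hu : c.Deep u) (hc2 : c.C u q) (hw : c.w x u = 0) (hA : c.TA q) (hz : c.T z)
    (hcz : c.C x z) (hzK : z ∉ c.Nc u) (hj : c.jj z = 1) : False := by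
  have hr := TA_card hu hc2 hA
  obtain ⟨y0, hy0, hw0⟩ := h.ex_nonadj hx hz hcz hj
  have hside : ∀ y ∈ c.Lo z, ∀ v ∈ c.RR u, 0 < c.w y v → c.S v y := fun y hy v hv hp =>
    ⟨(RR_T hv).2.1, (mem_Lo.1 hy).2.1,
      ((RR_C hv hc2).same hc.symm).trans (hcz.symm.same (mem_Lo.1 hy).1),
      by rw [c.symm]; exact hp⟩
  have hadj : ∀ y ∈ c.Lo z, c.w x y = 0 → c.S u y := fun y hy hw' => by
    have := h.F5u hx hq hc hu hc2 hz hcz hzK hy (self_RR hu)
    exact hside y hy u (self_RR hu) (by omega)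
  have h1 : (c.Lo z).erase y0 ⊆ c.Ns x := by
    intro y hy
    rw [mem_erase] at hy
    refine mem_Ns.2 (hcz.symm.toS (mem_Lo.1 hy.2).1 (Nat.pos_of_ne_zero fun hw' => hy.1 ?_))
    exact h.ext_uniq hu hr (self_RR hu) (hadj y0 hy0 hw0) (Lo_not_RR hzK hy0) (hadj y hy.2 hw')
      (Lo_not_RR hzK hy.2)
  have h2 := h.Lo_card hz
  have h3 : c.Ns x = (c.Lo z).erase y0 :=
    Ns_eq h1 (by rw [card_erase_of_mem hy0]; have := hx.2.2.2; omega)
  have h4 : c.RR u ∪ (c.Lo z).erase y0 ⊆ c.Ns y0 := by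
    intro v hv
    rcases mem_union.1 hv with hv | hv
    · have a1 : c.w x v = 0 := by
        by_contra hn
        have : v ∈ c.Ns x := mem_Ns.2 (hc.symm.toS (RR_C hv hc2) (Nat.pos_of_ne_zero hn))
        rw [h3] at this
        exact Lo_not_RR hzK (mem_of_mem_erase this) hv
      have := h.F5u hx hq hc hu hc2 hz hcz hzK hy0 hv
      exact mem_Ns.2 (hside y0 hy0 v hv (by omega)).symm
    · rw [mem_erase] at hv
      exact mem_Ns.2 (h.Lo_clique hz y0 hy0 v hv.2 hv.1.symm)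
  have h5 := card_le_sm h4
  rw [card_union_of_disjoint (Finset.disjoint_left.2 fun v h1 h2 =>
    Lo_not_RR hzK (mem_of_mem_erase h2) h1), card_erase_of_mem hy0] at h5
  have := h.low_sm (mem_Lo.1 hy0).2
  have := c.ht
  omega

lemma Opt2.adj_xu (h : c.Opt2) (hx : c.W1 x) {q u z y : X} (hq : c.T q) (hc : c.C x q)
    (hu : c.Deep u) (hc2 : c.C u q) (hw : c.w x u = 0) (hz : c.T z)
    (hcz : c.C x z) (hzK : z ∉ c.Nc u) (hy : y ∈ c.Lo z) : c.S x y ∨ c.S u y := by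
  have := h.F5u hx hq hc hu hc2 hz hcz hzK hy (self_RR hu)
  by_cases h1 : 0 < c.w x y
  · exact Or.inl (hcz.symm.toS (mem_Lo.1 hy).1 h1)
  · exact Or.inr ⟨hu.1.2.1, (mem_Lo.1 hy).2.1,
      (hc2.symm.same hc.symm).trans (hcz.symm.same (mem_Lo.1 hy).1), by rw [c.symm]; omega⟩

lemma Opt2.equal_Lo (h : c.Opt2) (hx : c.W1 x) {q u z z' : X} (hq : c.T q) (hc : c.C x q)
    (hu : c.Deep u) (hc2 : c.C u q) (hw : c.w x u = 0) (hz : c.T z)
    (hcz : c.C x z) (hzK : z ∉ c.Nc u) (hj : c.jj z = 1) (hz' : c.T z')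
    (hcz' : c.C x z') (hzK' : z' ∉ c.Nc u) (hj' : c.jj z' = 1) : c.Lo z = c.Lo z' := by
  have a1 := h.Lo_card hz
  have a2 := h.Lo_card hz'
  have a3 : c.Lo z ∪ c.Lo z' ⊆ c.Ns x ∪ c.Ns u := by
    intro y hy
    rw [mem_union, mem_Ns, mem_Ns]
    rcases mem_union.1 hy with hy | hy
    · exact h.adj_xu hx hq hc hu hc2 hw hz hcz hzK hy
    · exact h.adj_xu hx hq hc hu hc2 hw hz' hcz' hzK' hy
  have a4 := (card_le_card a3).trans (card_union_le _ _)
  have a5 := card_le_sm (c := c) (x := x) (Finset.Subset.refl _)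
  have a6 := card_le_sm (c := c) (x := u) (Finset.Subset.refl _)
  have a7 := card_union_add_card_inter (c.Lo z) (c.Lo z')
  have := hx.2.2.2; have := hu.1.2.2.2
  obtain ⟨y, hy⟩ := card_pos.1 (by omega : 0 < (c.Lo z ∩ c.Lo z').card)
  rw [mem_inter] at hy
  obtain ⟨p, hp1, hp2⟩ : ∃ p, c.S y p ∧ p ∉ c.Lo z ∪ c.Lo z' := by
    rcases h.adj_xu hx hq hc hu hc2 hw hz hcz hzK hy.1 with h1 | h1
    · refine ⟨x, h1.symm, fun hh => ?_⟩
      rcases mem_union.1 hh with hh | hh <;> exact hx.ne_low (mem_Lo.1 hh).2 rfl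
    · refine ⟨u, h1.symm, fun hh => ?_⟩
      rcases mem_union.1 hh with hh | hh
      exacts [Lo_not_RR hzK hh (self_RR hu), Lo_not_RR hzK' hh (self_RR hu)]
  have b1 : insert p ((c.Lo z ∪ c.Lo z').erase y) ⊆ c.Ns y := by
    intro v hv
    rcases mem_insert.1 hv with rfl | hv
    · exact mem_Ns.2 hp1
    · rw [mem_erase] at hv
      rcases mem_union.1 hv.2 with h1 | h1
      · exact mem_Ns.2 (h.Lo_clique hz y hy.1 v h1 hv.1.symm)
      · exact mem_Ns.2 (h.Lo_clique hz' y hy.2 v h1 hv.1.symm)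
  have b2 := card_le_sm b1
  rw [card_insert_of_notMem (fun hh => hp2 (mem_of_mem_erase hh)),
    card_erase_of_mem (mem_union_left _ hy.1)] at b2
  have b3 := h.low_sm (mem_Lo.1 hy.1).2
  have b4 := eq_of_subset_of_card_le (subset_union_left (s₁ := c.Lo z) (s₂ := c.Lo z'))
    (by omega)
  have b5 := eq_of_subset_of_card_le (subset_union_right (s₁ := c.Lo z) (s₂ := c.Lo z'))
    (by omega)
  exact b4.trans b5.symm

lemma Opt2.star_T (h : c.Opt2) (hx : c.W1 x) {q u z y : X} (hq : c.T q) (hc : c.C x q)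
    (hu : c.Deep u) (hc2 : c.C u q) (hw : c.w x u = 0) (hz : c.T z)
    (hcz : c.C x z) (hzK : z ∉ c.Nc u) (hj : c.jj z = 1) (hy : y ∈ c.Lo z) (hw0 : c.w x y = 0) :
    c.T y := by
  have h1 := (h.adj_xu hx hq hc hu hc2 hw hz hcz hzK hy).resolve_left
    (fun hh => by have := hh.pos; omega)
  have hO := h.Lo_ord hz hj.le y hy
  refine (h.T_or_V (mem_Lo.1 hy).2 hO).resolve_right fun hV => ?_
  have b1 : insert u ((c.Lo z).erase y) ⊆ c.Ns y := by
    intro v hv
    rcases mem_insert.1 hv with rfl | hv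
    · exact mem_Ns.2 h1.symm
    · rw [mem_erase] at hv
      exact mem_Ns.2 (h.Lo_clique hz y hy v hv.2 hv.1.symm)
  have b2 := card_le_sm b1
  rw [card_insert_of_notMem (fun hh => Lo_not_RR hzK (mem_of_mem_erase hh) (self_RR hu)),
    card_erase_of_mem hy] at b2
  have := h.Lo_card hz; have := hV.2.2.2; have := c.ht
  omega

lemma deep_of_full {K : Finset X} (hK : c.Comp K) (hT : ∀ z ∈ K, c.T z) {y : X} (hy : c.T y)
    (e : c.Nc y = K) : c.Deep y := by
  refine ⟨hy, e ▸ hK, ?_⟩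
  rw [e, Finset.filter_false_of_mem fun z hz hH => (hT z hz).not_H hH]
  simp

lemma Good.W1_b (G : c.Good) (hx : c.W1 x) {q u : X} (hq : c.T q) (hc : c.C x q)
    (hu : c.Deep u) (hc2 : c.C u q) (hw : c.w x u = 0) {K : Finset X} (hK : c.Comp K)
    (hK' : ∀ z ∈ K, c.T z ∧ c.C x z ∧ z ∉ c.Nc u ∧ ¬ c.Out x z) :
    (K.filter fun z => c.jj z = 1).card + 1 ≤ c.t ∧
      (c.t = 3 → (K.filter fun z => c.jj z = 1).card ≤ 1) := by
  have h := G.opt
  have ht := c.ht
  have heq : ∀ z ∈ K, ∀ z' ∈ K, c.jj z = 1 → c.jj z' = 1 → c.Lo z = c.Lo z' :=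
    fun z hz z' hz' j j' => h.equal_Lo hx hq hc hu hc2 hw (hK' z hz).1 (hK' z hz).2.1
      (hK' z hz).2.2.1 j (hK' z' hz').1 (hK' z' hz').2.1 (hK' z' hz').2.2.1 j'
  have hstar : ∀ z ∈ K, c.jj z = 1 → ∃ y ∈ c.Lo z, c.w x y = 0 ∧ c.T y ∧ c.Nc y ≠ K := by
    intro z hz j
    obtain ⟨y, hy, hw0⟩ := h.ex_nonadj hx (hK' z hz).1 (hK' z hz).2.1 j
    have hT := h.star_T hx hq hc hu hc2 hw (hK' z hz).1 (hK' z hz).2.1 (hK' z hz).2.2.1 j hy hw0
    exact ⟨y, hy, hw0, hT, fun e => (hK' z hz).2.2.2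
      (out_of (deep_of_full hK (fun z hz => (hK' z hz).1) hT e) (mem_Lo.1 hy).1.symm hw0)⟩
  constructor
  · by_contra hn
    have e1 : (K.filter fun z => c.jj z = 1) = K :=
      eq_of_subset_of_card_le (filter_subset _ _) (by rw [hK.1]; omega)
    have hall : ∀ z ∈ K, c.jj z = 1 := fun z hz => by
      rw [← e1] at hz; exact (mem_filter.1 hz).2
    obtain ⟨z, hz⟩ := card_pos.1 (by rw [hK.1]; omega : 0 < K.card)
    obtain ⟨y, hy, -, hT, hne⟩ := hstar z hz (hall z hz)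
    refine hne (Nc_eq (fun z' hz' => ?_) (by rw [hK.1, hT.2.2.1]))
    rw [heq z hz z' hz' (hall z hz) (hall z' hz')] at hy
    exact mem_Nc.2 (mem_Lo.1 hy).1.symm
  · intro ht3
    rw [card_le_one]
    intro z hz z' hz'
    by_contra hne
    rw [mem_filter] at hz hz'
    obtain ⟨y, hy, hw0, hT, hnf⟩ := hstar z hz.1 hz.2
    have e1 := heq z hz.1 z' hz'.1 hz.2 hz'.2
    obtain ⟨hzT, hcz, -, -⟩ := hK' z hz.1
    obtain ⟨hzT', hcz', -, -⟩ := hK' z' hz'.1
    have a1 := h.Lo_card hzT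
    obtain ⟨y', hy', hyy⟩ := exists_mem_ne (s := c.Lo z) (by omega) y
    have c1 := (mem_Lo.1 hy).1
    have c2 := (mem_Lo.1 hy').1
    have c3 := (mem_Lo.1 (e1 ▸ hy)).1
    have c4 := (mem_Lo.1 (e1 ▸ hy')).1
    have hN := (G.bigy hK hz.1 hzT hT c1 hz'.1 (Ne.symm hne) c3.symm hnf).1
    have s1 := h.Lo_clique hzT y' hy' y hy hyy
    have hO' := h.Lo_ord hzT hz.2.le y' hy'
    have s2 : c.S y' x := c2.toS hcz.symm
      ((hN y' c2 hyy).2.2 x hcz.symm (hx.ne_low hT.low) (hx.ne_low (mem_Lo.1 hy').2).symm)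
    have hT' : c.T y' := by
      refine ⟨hO', c2.r, (mem_Lo.1 hy').2.2.1 hO', ?_⟩
      have := (hN y' c2 hyy).2.1
      have := w_one hO' hT.1 s1.pos
      omega
    have hfull : c.Nc y' = K := by
      by_contra hnf'
      have hN' := (G.bigy hK hz.1 hzT hT' c2 hz'.1 (Ne.symm hne) c4.symm hnf').1
      have := (hN' x hcz.symm (hx.ne_low hT'.low)).2.2 y c1 hyy.symm (hx.ne_low hT.low)
      omega
    have hxy := hx.ne_low hT.low
    have hxy' := hx.ne_low hT'.low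
    have hL : ∀ v, c.T v → c.C v x → c.C v y → c.C v y' → c.Nc v = {y', x, y} := by
      intro v hv d1 d2 d3
      refine Nc_eq ?_ (by
        rw [card_insert_of_notMem (by simp [hxy'.symm, hyy]), card_pair hxy, hv.2.2.1]; omega)
      intro a ha
      simp only [mem_insert, mem_singleton] at ha
      rcases ha with rfl | rfl | rfl <;> simpa
    have := G.TW (K := K) (L := {y', x, y}) (A := {z, z'}) (B := {y'})
      (fun v hv => by
        simp only [mem_insert, mem_singleton] at hv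
        rcases hv with rfl | rfl
        · exact ⟨hzT, (hK.eq_insert hz.1).symm, hL _ hzT hcz.symm c1 c2⟩
        · exact ⟨hzT', (hK.eq_insert hz'.1).symm, hL _ hzT' hcz'.symm c3 c4⟩)
      (fun v hv => by
        rw [mem_singleton] at hv
        subst hv
        refine ⟨hT', ?_, hfull⟩
        rw [Ns_eq (A := {x, y}) ?_ (by rw [card_pair hxy]; have := hT'.2.2.2; omega)]
        intro a ha
        simp only [mem_insert, mem_singleton] at ha
        rcases ha with rfl | rfl <;> simpa)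
      (fun v hv => (hK.2 v hv).1)
      (fun v hv => by
        simp only [mem_insert, mem_singleton] at hv
        rcases hv with rfl | rfl | rfl
        exacts [hO', hx.1, hT.1])
      (z0 := z) (p := y) (by simp) (by simp) hT
    rw [card_pair hne, card_singleton] at this
    omega

lemma paid_T (hO : x ∈ c.O) (hns : ∀ q, c.C x q → ¬ c.Sad q) :
    c.paid x = ∑ q ∈ (c.Nc x).filter c.T, c.rate x q := by
  rw [paid_ord hO, Finset.sum_filter]
  refine Finset.sum_congr rfl fun q hq => ?_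
  split_ifs with hT
  · rfl
  · exact rate_zero (hns q (mem_Nc.1 hq)) hT

omit [Fintype X] in
lemma sum_le_card {A : Finset X} {f : X → ℚ} {τ : ℚ} {n : ℕ} (h : ∀ x ∈ A, f x ≤ τ) (h0 : 0 ≤ τ)
    (hn : A.card ≤ n) : ∑ x ∈ A, f x ≤ τ * n := by
  have h1 : ∑ x ∈ A, f x ≤ (A.card : ℚ) * τ := by
    rw [← nsmul_eq_mul, ← Finset.sum_const]
    exact Finset.sum_le_sum h
  have h2 : (A.card : ℚ) ≤ n := by exact_mod_cast hn
  nlinarith

lemma Good.W1_out (G : c.Good) (hx : c.W1 x) {q : X} (hq : c.T q) (hc : c.C x q)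
    (ho : c.Out x q) : c.paid x ≤ 3 * (c.t : ℚ) / 2 - 1 := by
  have h := G.opt
  have ht := c.ht
  have ht' : (3 : ℚ) ≤ c.t := by exact_mod_cast ht
  have hns : ∀ b, c.C x b → ¬ c.Sad b := fun b hb hs =>
    h.out_sad hx.sl hx.W (Or.inl hx.1) hq ho hc hs hb
  rw [paid_T hx.1 hns]
  obtain ⟨u, hu, hc2, hw⟩ := out_nonadj (Or.inl hx.1) ho hc
  have hcl := h.out_clique hx hq hc hu hc2 hw
  set A := (c.Nc x).filter c.T with hA
  have hqA : q ∈ A := by simp [hA, hq, hc]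
  have hmem : ∀ z ∈ A, c.C x z ∧ c.T z := fun z hz => by simpa [hA] using hz
  have b1 := rb_ge ht
  have b2 := t_rb ht
  have b3 := inv_le ht
  have b4 := inv_pos' ht
  by_cases h1 : ∃ z ∈ A.erase q, z ∈ c.Nc u
  · obtain ⟨z, hz, hzK⟩ := h1
    have hsub : A ⊆ c.Nc u := by
      intro y hy
      by_cases e1 : y = q
      · rw [e1]; exact mem_Nc.2 hc2
      by_cases e2 : z = y
      · rw [← e2]; exact hzK
      exact hu.2.1.mem_of_S hzK (hcl z hz y (mem_erase.2 ⟨e1, hy⟩) e2)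
    have := sum_le_card (A := A) (f := fun y => c.rate x y) (τ := rb c.t) (n := c.t)
      (fun y hy => rate_le_rb hx.W (hns y (hmem y hy).1) fun ha => by
        obtain ⟨y', hy', hne⟩ : ∃ y' ∈ A, y ≠ y' := by
          by_cases e : y = q
          · exact ⟨z, mem_of_mem_erase hz, by rw [e]; exact (mem_erase.1 hz).1.symm⟩
          · exact ⟨q, hqA, e⟩
        exact G.AO_same hx.sl hx.W (Or.inl hx.1) ha (hmem y hy).1 (hmem y' hy').1
          ((hu.2.1.2 y (hsub hy)).2.2.2 y' (hsub hy') hne))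
      (by linarith) (hu.2.1.1 ▸ card_le_card hsub)
    linarith
  push Not at h1
  by_cases h2 : ∃ q' ∈ A.erase q, c.Out x q'
  · obtain ⟨q', hq', ho'⟩ := h2
    have hq'' := hmem q' (mem_of_mem_erase hq')
    obtain ⟨u', hu', hc2', hw'⟩ := out_nonadj (Or.inl hx.1) ho' hq''.1
    have hcl' := h.out_clique hx hq''.2 hq''.1 hu' hc2' hw'
    have hsub : A ⊆ {q, q'} := by
      intro y hy
      by_contra hn
      simp only [mem_insert, mem_singleton, not_or] at hn
      exact h1 y (mem_erase.2 ⟨hn.1, hy⟩) (hu.2.1.mem_of_S (mem_Nc.2 hc2)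
        (hcl' q (mem_erase.2 ⟨(mem_erase.1 hq').1.symm, hqA⟩) y (mem_erase.2 ⟨hn.2, hy⟩)
          (Ne.symm hn.1)))
    have := sum_le_card (A := A) (f := fun y => c.rate x y) (τ := ra c.t) (n := 2)
      (fun y hy => rate_le_ra hx.W (hns y (hmem y hy).1))
      (by have := rb_le_ra (t := c.t); linarith) ((card_le_card hsub).trans card_le_two)
    rcases Nat.lt_or_ge c.t 4 with h4 | h4
    · have e3 : c.t = 3 := by omega
      rw [e3] at this ⊢
      rw [ra3] at this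
      norm_num at this ⊢
      linarith
    · have : (4 : ℚ) ≤ c.t := by exact_mod_cast h4
      have := ra_le ht
      push_cast at *
      linarith
  push Not at h2
  rw [← Finset.add_sum_erase _ _ hqA]
  have hcard : (A.erase q).card ≤ c.t := by
    rw [card_erase_of_mem hqA]
    have : A.card ≤ (c.Nc x).card := card_le_card (filter_subset c.T (c.Nc x))
    have := hx.card
    omega
  have r1 : ∀ z ∈ A.erase q, c.rate x z ≤ 1 := fun z hz =>
    rate_le_one hx.W (hns z (hmem z (mem_of_mem_erase hz)).1) fun hh => h2 z hz hh.2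
  have r2 : ∀ z ∈ A.erase q, ¬ c.jj z = 1 → c.rate x z ≤ 7 / 12 := fun z hz hj =>
    rate_le_712 hx.W (hns z (hmem z (mem_of_mem_erase hz)).1) (fun hh => h2 z hz hh.2)
      fun hh => hj hh.2
  by_cases hA' : c.TA q
  · have := sum_le_card (A := A.erase q) (f := fun y => c.rate x y) (τ := 7 / 12) (n := c.t)
      (fun z hz => r2 z hz fun hj => h.typeA_j hx hq hc hu hc2 hw hA'
        (hmem z (mem_of_mem_erase hz)).2 (hmem z (mem_of_mem_erase hz)).1 (h1 z hz) hj)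
      (by norm_num) hcard
    have r3 := rate_le_ra hx.W (hns q hc)
    rcases Nat.lt_or_ge c.t 4 with h4 | h4
    · have e3 : c.t = 3 := by omega
      rw [e3] at this r3 ⊢
      rw [ra3] at r3
      norm_num at this ⊢
      linarith
    · have : (4 : ℚ) ≤ c.t := by exact_mod_cast h4
      have := ra_le ht
      linarith
  have r3 := rate_le_rb hx.W (hns q hc) fun hh => hA' hh.2.2
  have r4 : rb c.t = 3 / 2 - 1 / c.t := rfl
  by_cases h3 : (A.erase q).card + 1 ≤ c.t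
  · obtain ⟨n, hn⟩ : ∃ n, c.t = n + 1 := ⟨c.t - 1, by omega⟩
    have := sum_le_card (A := A.erase q) (f := fun y => c.rate x y) (τ := 1) (n := n) r1
      (by norm_num) (by omega)
    have e : (c.t : ℚ) = n + 1 := by exact_mod_cast hn
    linarith
  have hK : c.Comp (A.erase q) := h.comp_of_clique (by omega)
    (fun z hz => (hmem z (mem_of_mem_erase hz)).2.1)
    (fun z hz => (hmem z (mem_of_mem_erase hz)).2.2.1) hcl
  obtain ⟨g1, g2⟩ := G.W1_b hx hq hc hu hc2 hw hK fun z hz =>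
    ⟨(hmem z (mem_of_mem_erase hz)).2, (hmem z (mem_of_mem_erase hz)).1, h1 z hz, h2 z hz⟩
  rcases Nat.lt_or_ge c.t 4 with h4 | h4
  · have e3 : c.t = 3 := by omega
    have := sum_two_level (A.erase q) (fun y => c.rate x y) (fun z => c.jj z = 1)
      (m := 7 / 12) (M := 1) (a := 3) (n := 1) (by norm_num) (by norm_num) (by omega) (g2 e3) r1 r2
    rw [e3] at r3 ⊢
    rw [rb3] at r3
    norm_num at this ⊢
    linarith
  · obtain ⟨n, hn⟩ : ∃ n, c.t = n + 1 := ⟨c.t - 1, by omega⟩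
    have := sum_two_level (A.erase q) (fun y => c.rate x y) (fun z => c.jj z = 1)
      (m := 7 / 12) (M := 1) (a := c.t) (n := n) (by norm_num) (by norm_num) hcard (by omega) r1 r2
    have e : (c.t : ℚ) = n + 1 := by exact_mod_cast hn
    rcases Nat.lt_or_ge c.t 5 with h5 | h5
    · have e4 : (c.t : ℚ) = 4 := by exact_mod_cast (by omega : c.t = 4)
      rw [e4] at r4
      linarith
    · have : (5 : ℚ) ≤ c.t := by exact_mod_cast h5
      linarith

lemma Opt2.J_aux (h : c.Opt2) (hx : c.W1 x) (ht : c.t = 3) {z z' : X} (hz : c.T z) (hz' : c.T z')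
    (hc : c.C x z) (hc' : c.C x z') (hj : c.jj z = 1) (hj' : c.jj z' = 1) (hne : z ≠ z')
    (hw : c.w z z' = 0) (hd : Disjoint (c.Lo z) (c.Lo z')) (hn : ∀ y ∈ c.Lo z', c.w x y = 0) :
    False := by
  obtain ⟨a, ha, hwa⟩ := h.ex_nonadj hx hz hc hj
  have h1 : (c.Lo z).erase a ∪ c.Lo z' ⊆ c.Ns a := by
    intro y hy
    rcases mem_union.1 hy with hy | hy
    · rw [mem_erase] at hy
      exact mem_Ns.2 (h.Lo_clique hz a ha y hy.2 hy.1.symm)
    · have := h.F5 hx.gm hz hz' (mem_Lo.1 ha).2 (mem_Lo.1 hy).2 hc.symm hc'.symm (mem_Lo.1 ha).1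
        (mem_Lo.1 hy).1 hne (hx.ne_low (mem_Lo.1 ha).2) (hx.ne_low (mem_Lo.1 hy).2)
        (fun e => Finset.disjoint_left.1 hd ha (e ▸ hy)) hw
      have := hn y hy
      exact mem_Ns.2 ⟨(mem_Lo.1 ha).2.1, (mem_Lo.1 hy).2.1,
        ((mem_Lo.1 ha).1.same hc.symm).trans (hc'.symm.same (mem_Lo.1 hy).1), by omega⟩
  have h2 := card_le_sm h1
  rw [card_union_of_disjoint (Finset.disjoint_of_subset_left (erase_subset _ _) hd),
    card_erase_of_mem ha] at h2
  have := h.Lo_card hz; have := h.Lo_card hz'; have := h.low_sm (mem_Lo.1 ha).2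
  omega

lemma Opt2.J_clique (h : c.Opt2) (hx : c.W1 x) (ht : c.t = 3) {z z' : X} (hz : c.T z)
    (hz' : c.T z') (hc : c.C x z) (hc' : c.C x z') (hj : c.jj z = 1) (hj' : c.jj z' = 1)
    (hne : z ≠ z') : c.S z z' := by
  refine hc.toS hc' (Nat.pos_of_ne_zero fun hw => ?_)
  have a1 := h.Lo_card hz
  have a2 := h.Lo_card hz'
  have a3 := hx.2.2.2
  have hF4 : ∀ y ∈ c.Lo z, y ∈ c.Lo z' → c.S x y := fun y hy hy' =>
    hc.symm.toS (mem_Lo.1 hy).1 (h.F4 hx.gm hz hz' (mem_Lo.1 hy).2 hc.symm hc'.symm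
      (mem_Lo.1 hy).1 (mem_Lo.1 hy').1 hne (hx.ne_low (mem_Lo.1 hy).2) hw)
  by_cases hd : Disjoint (c.Lo z) (c.Lo z')
  · by_cases hn : ∀ y ∈ c.Lo z', c.w x y = 0
    · exact h.J_aux hx ht hz hz' hc hc' hj hj' hne hw hd hn
    · push Not at hn
      obtain ⟨y', hy', hw'⟩ := hn
      refine h.J_aux hx ht hz' hz hc' hc hj' hj hne.symm (by rw [c.symm]; exact hw) hd.symm ?_
      intro y hy
      by_contra hw''
      have h1 : ({y, y'} : Finset X) ⊆ c.Ns x := by
        intro a ha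
        simp only [mem_insert, mem_singleton] at ha
        rcases ha with rfl | rfl
        · exact mem_Ns.2 (hc.symm.toS (mem_Lo.1 hy).1 (Nat.pos_of_ne_zero hw''))
        · exact mem_Ns.2 (hc'.symm.toS (mem_Lo.1 hy').1 (Nat.pos_of_ne_zero hw'))
      have h2 := card_le_sm h1
      have hyy : y ≠ y' := fun e => Finset.disjoint_left.1 hd hy (by rw [e]; exact hy')
      rw [card_pair hyy] at h2
      omega
  · rw [Finset.not_disjoint_iff] at hd
    obtain ⟨y, hy, hy'⟩ := hd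
    have b1 : insert x ((c.Lo z ∪ c.Lo z').erase y) ⊆ c.Ns y := by
      intro v hv
      rcases mem_insert.1 hv with rfl | hv
      · exact mem_Ns.2 (hF4 y hy hy').symm
      · rw [mem_erase] at hv
        rcases mem_union.1 hv.2 with h1 | h1
        · exact mem_Ns.2 (h.Lo_clique hz y hy v h1 hv.1.symm)
        · exact mem_Ns.2 (h.Lo_clique hz' y hy' v h1 hv.1.symm)
    have b2 := card_le_sm b1
    rw [card_insert_of_notMem (fun hh => by
      rcases mem_union.1 (mem_of_mem_erase hh) with hh | hh <;>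
        exact hx.ne_low (mem_Lo.1 hh).2 rfl),
      card_erase_of_mem (mem_union_left _ hy)] at b2
    have b3 := h.low_sm (mem_Lo.1 hy).2
    have b4 := eq_of_subset_of_card_le (subset_union_left (s₁ := c.Lo z) (s₂ := c.Lo z'))
      (by omega)
    have b5 := eq_of_subset_of_card_le (subset_union_right (s₁ := c.Lo z) (s₂ := c.Lo z'))
      (by omega)
    have b6 : (c.Lo z).card ≤ c.sm x := card_le_sm fun v hv =>
      mem_Ns.2 (hF4 v hv (by rw [b5, ← b4]; exact hv))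
    omega

lemma Good.W1_none (G : c.Good) (hx : c.W1 x) (hns : ∀ b, c.C x b → ¬ c.Sad b)
    (hno : ∀ q, c.C x q → ¬ (c.T q ∧ c.Out x q)) : c.paid x ≤ 3 * (c.t : ℚ) / 2 - 1 := by
  have h := G.opt
  have ht := c.ht
  rw [paid_ord hx.1]
  have r1 : ∀ z ∈ c.Nc x, c.rate x z ≤ 1 := fun z hz =>
    rate_le_one hx.W (hns z (mem_Nc.1 hz)) (hno z (mem_Nc.1 hz))
  rcases Nat.lt_or_ge c.t 4 with h4 | h4
  swap
  · have := sum_le_card r1 (by norm_num) hx.card
    have : (4 : ℚ) ≤ c.t := by exact_mod_cast h4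
    push_cast at *
    linarith
  have e3 : c.t = 3 := by omega
  have hcard : (c.Nc x).card ≤ 4 := by have := hx.card; omega
  set J := (c.Nc x).filter fun z => c.T z ∧ c.jj z = 1 with hJ
  have hmem : ∀ z ∈ J, c.C x z ∧ c.T z ∧ c.jj z = 1 := fun z hz => by simpa [hJ] using hz
  have hcl : ∀ z ∈ J, ∀ z' ∈ J, z ≠ z' → c.S z z' := fun z hz z' hz' hne =>
    h.J_clique hx e3 (hmem z hz).2.1 (hmem z' hz').2.1 (hmem z hz).1 (hmem z' hz').1
      (hmem z hz).2.2 (hmem z' hz').2.2 hne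
  by_cases h2 : J.card ≤ 2
  · have := sum_two_level (c.Nc x) (fun y => c.rate x y) (fun z => c.T z ∧ c.jj z = 1)
      (m := 7 / 12) (M := 1) (by norm_num) (by norm_num) hcard h2 r1
      (fun z hz hj => rate_le_712 hx.W (hns z (mem_Nc.1 hz)) (hno z (mem_Nc.1 hz)) hj)
    rw [e3]
    norm_num at this ⊢
    linarith
  obtain ⟨z0, hz0⟩ := card_pos.1 (by omega : 0 < J.card)
  have hJ3 : J.card = 3 := by
    have := clique_card hcl hz0
    have := (hmem z0 hz0).2.1.2.2.2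
    omega
  have hK : c.Comp J := h.comp_of_clique (by omega) (fun z hz => (hmem z hz).2.1.1)
    (fun z hz => (hmem z hz).2.1.2.1) hcl
  have := sum_two_level (c.Nc x) (fun y => c.rate x y) (fun z => c.T z ∧ c.jj z = 1)
    (m := 1 / 2) (M := 1) (by norm_num) (by norm_num) hcard hJ3.le r1
    (fun u hu hj => rate_le_half hx.W (hns u (mem_Nc.1 hu)) (hno u (mem_Nc.1 hu)) hj fun hh => by
      rw [mem_Nc] at hu
      obtain ⟨q, y, hq, hcq, hwq, hS, hy⟩ := hh.2.nonadj hx.W hu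
      have eN : c.Ns x = {y} := Ns_eq (by simpa using hS) (by
        have := hx.2.2.2; rw [card_singleton]; omega)
      have hlow : ∀ a, c.Low a → c.s x = c.s a → c.w x a = 0 := fun a ha hs => by
        by_contra hw
        have : a ∈ c.Ns x := mem_Ns.2 ⟨hx.2.1, ha.1, hs, Nat.pos_of_ne_zero hw⟩
        rw [eN, mem_singleton] at this
        exact ha.not_pay (this ▸ hy)
      have huJ : u ∉ J := fun hh' => hj (hmem u hh').2
      have hLo : ∀ z ∈ J, c.Ns q = c.Lo z := by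
        intro z hz
        obtain ⟨g1, g2, g3⟩ := hmem z hz
        have hzu : z ≠ u := fun e => huJ (e ▸ hz)
        have hw : c.w z u = 0 := comp_w_zero hK hz huJ hu.r (g1.same hu)
        refine Ns_eq (fun a ha => ?_) (by have := h.Lo_card g2; have := hq.2.2.2; omega)
        rw [mem_Lo] at ha
        have haq : a ≠ q := fun e => by
          have := h.F4 hx.gm g2 hh.1 hq.low g1.symm hu.symm (e ▸ ha.1) hcq hzu (hx.ne_low hq.low)
            hw
          omega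
        have := h.F5 hx.gm g2 hh.1 ha.2 hq.low g1.symm hu.symm ha.1 hcq hzu (hx.ne_low ha.2)
          (hx.ne_low hq.low) haq hw
        have := hlow a ha.2 (g1.symm.same ha.1)
        exact mem_Ns.2 ⟨hq.2.1, ha.2.1, (hcq.same hu.symm).trans (g1.symm.same ha.1),
          by rw [c.symm]; omega⟩
      obtain ⟨g1, g2, g3⟩ := hmem z0 hz0
      have a1 := h.Lo_card g2
      obtain ⟨q1, hq1, q2, hq2, hne⟩ := one_lt_card.1 (by omega : 1 < (c.Lo z0).card)
      have hO := h.Lo_ord g2 g3.le q1 hq1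
      have s1 : c.S q q1 := mem_Ns.1 (hLo z0 hz0 ▸ hq1)
      have s2 : c.S q q2 := mem_Ns.1 (hLo z0 hz0 ▸ hq2)
      have hT1 : c.T q1 := by
        refine (h.T_or_V (mem_Lo.1 hq1).2 hO).resolve_right fun hV => ?_
        have b1 : ({q, q2} : Finset X) ⊆ c.Ns q1 := by
          intro a ha
          simp only [mem_insert, mem_singleton] at ha
          rcases ha with rfl | rfl
          exacts [mem_Ns.2 s1.symm, mem_Ns.2 (h.Lo_clique g2 q1 hq1 _ hq2 hne)]
        have b2 := card_le_sm b1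
        rw [card_pair s2.ne] at b2
        have := hV.2.2.2
        omega
      have hfull : c.Nc q1 = J := Nc_eq (fun z hz => by
        have := mem_Ns.2 s1
        rw [hLo z hz] at this
        exact mem_Nc.2 (mem_Lo.1 this).1.symm) (by rw [hT1.2.2.1]; omega)
      exact hno z0 g1 ⟨g2, out_of (deep_of_full hK (fun z hz => (hmem z hz).2.1) hT1 hfull)
        (mem_Lo.1 hq1).1.symm (hlow q1 hT1.low (g1.symm.same (mem_Lo.1 hq1).1))⟩)
  rw [e3]
  norm_num at this ⊢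
  linarith

theorem Good.W1_paid (G : c.Good) (hx : c.W1 x) : c.paid x ≤ 3 * (c.t : ℚ) / 2 - 1 := by
  by_cases h1 : ∃ b, c.C x b ∧ c.Sad b
  · obtain ⟨b, hb, hs⟩ := h1
    exact G.W1_sad hx hs hb
  by_cases h2 : ∃ q, c.C x q ∧ c.T q ∧ c.Out x q
  · obtain ⟨q, g1, g2, g3⟩ := h2
    exact G.W1_out hx g2 g1 g3
  exact G.W1_none hx (fun b hb hs => h1 ⟨b, hb, hs⟩) (fun q hq hh => h2 ⟨q, hq, hh⟩)

end St

end

end Pool.Agent.Lib.MP_bb98d0_co
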