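import Pool.Agent.Lib.MP_bb98d0_co.Afford2

/-!
Affordability of the discharging rules for all atoms.
-/

namespace Pool.Agent.Lib.MP_bb98d0_co
open Finset Classical

noncomputable section

variable {X : Type*} [Fintype X]

namespace St

def BB (c : St X) (x : X) : ℚ :=
  if x ∈ c.O then 3 * (c.t : ℚ) * (c.cr x - c.t) / 2 - 1 + (c.ia x + c.e - 1) * gam c.t
  else if c.mu x = 0 then 0 else 3 * (c.t : ℚ) * c.cr x / 2 - 2 * c.t + c.ia x * gam c.t

variable {c : St X} {x : X}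

lemma Opt2.U33 (h : c.Opt2) {a1 a2 a3 b1 b2 b3 : X} (ha1 : a1 ∉ c.I) (ha2 : a2 ∉ c.I)
    (ha3 : a3 ∉ c.I) (hb1 : b1 ∉ c.I) (hb2 : b2 ∉ c.I) (hb3 : b3 ∉ c.I) (hs1 : c.s a1 ≠ c.s b1)
    (hs2 : c.s a2 ≠ c.s b1) (hs5 : c.s a3 ≠ c.s b1) (hs3 : c.s b2 = c.s b1)
    (hs4 : c.s b3 = c.s b1) (g12 : a1 ≠ a2) (g13 : a1 ≠ a3) (g23 : a2 ≠ a3)
    (h12 : b1 ≠ b2) (h13 : b1 ≠ b3) (h23 : b2 ≠ b3) :
    2 * ((c.w a1 b1 : ℤ) + c.w a1 b2 + c.w a1 b3 + c.w a2 b1 + c.w a2 b2 + c.w a2 b3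
      + c.w a3 b1 + c.w a3 b2 + c.w a3 b3) ≤
      c.gp a1 + c.gp a2 + c.gp a3 + c.gm b1 + c.gm b2 + c.gm b3
        + 2 * (c.w a1 a2 + c.w a1 a3 + c.w a2 a3)
        + 2 * (c.w b1 b2 + c.w b1 b3 + c.w b2 b3) := by
  have := h.U (A := {a1, a2, a3}) (B := {b1, b2, b3}) (β := c.s b1)
    (by simp [ha1, ha2, ha3, hs1, hs2, hs5]) (by simp [hb1, hb2, hb3, hs3, hs4])
  simp only [sum_three _ g12 g13 g23, sum_three _ h12 h13 h23, c.diag, c.symm b2 b1, c.symm a2 a1,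
    c.symm b3 b1, c.symm b3 b2, c.symm a3 a1, c.symm a3 a2] at this
  push_cast at this
  linarith

lemma Opt2.U34 (h : c.Opt2) {a1 a2 a3 b1 b2 b3 b4 : X} (ha1 : a1 ∉ c.I) (ha2 : a2 ∉ c.I)
    (ha3 : a3 ∉ c.I) (hb1 : b1 ∉ c.I) (hb2 : b2 ∉ c.I) (hb3 : b3 ∉ c.I) (hb4 : b4 ∉ c.I)
    (hs1 : c.s a1 ≠ c.s b1) (hs2 : c.s a2 ≠ c.s b1) (hs5 : c.s a3 ≠ c.s b1)
    (hs3 : c.s b2 = c.s b1) (hs4 : c.s b3 = c.s b1) (hs6 : c.s b4 = c.s b1)
    (g12 : a1 ≠ a2) (g13 : a1 ≠ a3) (g23 : a2 ≠ a3)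
    (h12 : b1 ≠ b2) (h13 : b1 ≠ b3) (h14 : b1 ≠ b4) (h23 : b2 ≠ b3) (h24 : b2 ≠ b4)
    (h34 : b3 ≠ b4) :
    2 * ((c.w a1 b1 : ℤ) + c.w a1 b2 + c.w a2 b1 + c.w a2 b3 + c.w a3 b1 + c.w a3 b4) ≤
      c.gp a1 + c.gp a2 + c.gp a3 + c.gm b1 + c.gm b2 + c.gm b3 + c.gm b4
        + 2 * (c.w a1 a2 + c.w a1 a3 + c.w a2 a3)
        + 2 * (c.w b1 b2 + c.w b1 b3 + c.w b1 b4 + c.w b2 b3 + c.w b2 b4 + c.w b3 b4) := by
  have := h.U (A := {a1, a2, a3}) (B := {b1, b2, b3, b4}) (β := c.s b1)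
    (by simp [ha1, ha2, ha3, hs1, hs2, hs5]) (by simp [hb1, hb2, hb3, hb4, hs3, hs4, hs6])
  simp only [sum_three _ g12 g13 g23, sum_four _ h12 h13 h14 h23 h24 h34, c.diag, c.symm b2 b1,
    c.symm a2 a1, c.symm b3 b1, c.symm b3 b2, c.symm a3 a1, c.symm a3 a2, c.symm b4 b1,
    c.symm b4 b2, c.symm b4 b3] at this
  omega

lemma Good.AO_core_card (G : c.Good) (hO : x ∈ c.O) (hW : c.W x) {q u : X} (ha : c.AO x q)
    (hu : c.Deep u) (hc : c.C u q) (hx : c.C x q) {A : Finset X}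
    (hA : ∀ z ∈ A, c.C x z) : (A ∩ c.Nc u).card + 1 ≤ c.t := by
  have hr := TA_card hu hc ha.2.2
  have hxR : x ∉ c.RR u := fun hh => (RR_T hh).not_W hW
  rcases (A ∩ c.Nc u).eq_empty_or_nonempty with e | ⟨z0, hz0⟩
  · rw [e]; have := c.ht; simp; omega
  have := G.TW (K := c.Nc u) (L := insert x (c.RR u)) (A := A ∩ c.Nc u) (B := ∅)
    (fun z hz => by
      rw [mem_inter] at hz
      have hT := TA_T hu hc ha.1 ha.2.2 (mem_Nc.1 hz.2)
      exact ⟨hT, (hu.2.1.eq_insert hz.2).symm,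
        TA_Nc hr (mem_Nc.1 hz.2) hT (hA z hz.1).symm hxR⟩)
    (by simp) (fun y hy => (hu.2.1.2 y hy).1)
    (fun y hy => by
      rcases mem_insert.1 hy with rfl | hy
      exacts [hO, (RR_T hy).1])
    hz0 (mem_insert_of_mem (self_RR hu)) hu.1
  simpa using this

lemma Good.W2_paid (G : c.Good) (ht : c.t = 3) (hO : x ∈ c.O) (hI : x ∉ c.I) (hcr : c.cr x = 5)
    (hsm : c.sm x = 0) : c.paid x ≤ 8 := by
  have h := G.opt
  have hW : c.W x := ⟨⟨hI, fun _ => by omega, fun h' => absurd hO h'⟩, fun hH => by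
    have := hH.2.2.1; omega⟩
  have hgm : c.gm x = 4 + c.e := by have := gm_ord hO hI; omega
  have hcard : (c.Nc x).card ≤ 5 := hcr ▸ card_le_cr (Finset.Subset.refl _)
  have he := c.he
  rw [paid_ord hO]
  have r1 : ∀ q ∈ c.Nc x, c.rate x q ≤ 5 / 3 := fun q _ => by
    by_cases hs : c.Sad q
    · rw [rate_sad hs, ht]; norm_num
    · have := rate_le_ra hW hs; rwa [ht, ra3] at this
  set A := (c.Nc x).filter (c.AO x) with hA
  have hmem : ∀ z ∈ A, c.C x z ∧ c.AO x z := fun z hz => by simpa [hA] using hz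
  by_cases h3 : A.card ≤ 3
  · have := sum_two_level (c.Nc x) (fun q => c.rate x q) (c.AO x) (m := 3 / 2) (M := 5 / 3)
      (by norm_num) (by norm_num) hcard h3 r1 (fun q _ ha => by
        by_cases hs : c.Sad q
        · rw [rate_sad hs, ht]; norm_num
        · have := rate_le_rb hW hs ha; rw [ht, rb3] at this; linarith)
    norm_num at this
    exact this
  have hz : ∀ {q y : X}, c.C x q → c.C y q → c.w x y = 0 := fun g1 g2 => by
    by_contra hw
    have := w_le_sm (g1.symm.toS g2.symm (Nat.pos_of_ne_zero hw))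
    omega
  have hex : ∀ q ∈ A, ∃ u, c.Deep u ∧ c.C u q ∧ (c.RR u).card + 1 = c.t ∧
      (A ∩ c.Nc u).card ≤ 2 := fun q hq => by
    obtain ⟨u, hu, hc, -⟩ := out_nonadj (Or.inl hO) (hmem q hq).2.2.1 (hmem q hq).1
    refine ⟨u, hu, hc, TA_card hu hc (hmem q hq).2.2.2, ?_⟩
    have := G.AO_core_card hO hW (hmem q hq).2 hu hc (hmem q hq).1 (fun z hz => (hmem z hz).1)
    omega
  obtain ⟨q1, hq1⟩ := card_pos.1 (by omega : 0 < A.card)
  obtain ⟨u1, d1, c1, k1, n1⟩ := hex q1 hq1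
  have m1 := card_sdiff_add_card_inter A (c.Nc u1)
  obtain ⟨q2, hq2⟩ := card_pos.1 (by omega : 0 < (A \ c.Nc u1).card)
  rw [mem_sdiff] at hq2
  obtain ⟨u2, d2, c2, k2, n2⟩ := hex q2 hq2.1
  have K12 : c.Nc u1 ≠ c.Nc u2 := fun e => hq2.2 (e ▸ mem_Nc.2 c2)
  obtain ⟨x1, t1, -, -⟩ := hmem q1 hq1
  obtain ⟨x2, t2, -, -⟩ := hmem q2 hq2.1
  have sd : ∀ {u q y : X}, c.C x q → c.C u q → y ∈ c.RR u → c.s y = c.s x := fun g1 g2 hy =>
    (RR_C hy g2).same g1.symm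
  have sel : ∀ {u q u' q' y : X}, c.Deep u → (c.RR u).card + 1 = c.t → c.C x q → c.C u q →
      (c.RR u').card + 1 = c.t → c.C x q' → c.C u' q' → c.Nc u ≠ c.Nc u' → y ∈ c.RR u →
      ∃ a ∈ c.RR u', c.w y a = 0 := fun g1 g2 g3 g4 g5 g6 g7 g8 hy =>
    h.sel2 g1 g2 hy (by omega) fun a ha =>
      ⟨fun hh => RR_disj g8 hh ha, (RR_T ha).2.1, (sd g3 g4 hy).trans (sd g6 g7 ha).symm⟩
  have q12 : q1 ≠ q2 := fun e => hq2.2 (e ▸ mem_Nc.2 c1)
  have w12 : c.w q1 q2 = 0 := comp_w_zero d1.2.1 (mem_Nc.2 c1) hq2.2 x2.r (x1.same x2)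
  have hne : ∀ {u y : X}, y ∈ c.RR u → x ≠ y := fun hy e => (RR_T hy).not_W (e ▸ hW)
  have hns : ∀ b ∈ c.Nc x, ¬ c.Sad b := by
    intro b hb hs
    rw [mem_Nc] at hb
    obtain ⟨a, ha, wa⟩ := sel d1 k1 x1 c1 k2 x2 c2 K12 (self_RR d1)
    have := h.U33 x1.r x2.r hb.r hI c1.l (RR_T ha).2.1 x1.side.symm x2.side.symm hb.side.symm
      (sd x1 c1 (self_RR d1)) (sd x2 c2 ha) q12 (fun e => hs.1 (e ▸ t1.1))
      (fun e => hs.1 (e ▸ t2.1)) (hne (self_RR d1)) (hne ha)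
      (fun e => RR_disj K12 (self_RR d1) (e ▸ ha))
    have := comp_w_zero d1.2.1 (mem_Nc.2 c1) (fun hh => hs.1 (d1.2.1.2 b hh).1) hb.r (x1.same hb)
    have := comp_w_zero d2.2.1 (mem_Nc.2 c2) (fun hh => hs.1 (d2.2.1.2 b hh).1) hb.r (x2.same hb)
    have := hz x1 c1; have := hz x2 (RR_C ha c2).symm
    have := t1.gp_eq; have := t2.gp_eq; have := hs.gp_eq h
    have := d1.1.gm_eq; have := (RR_T ha).gm_eq
    have := x1.symm.pos; have := x2.symm.pos; have := hb.symm.pos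
    have := c1.symm.pos; have := (RR_C ha c2).pos
    omega
  have h4 : A.card ≤ 4 := by
    by_contra h5
    have m2 : ((A \ c.Nc u1) \ c.Nc u2).card + 2 ≥ (A \ c.Nc u1).card := by
      have a1 := card_sdiff_add_card_inter (A \ c.Nc u1) (c.Nc u2)
      have a2 : ((A \ c.Nc u1) ∩ c.Nc u2).card ≤ (A ∩ c.Nc u2).card :=
        card_le_card (inter_subset_inter_right sdiff_subset)
      omega
    obtain ⟨q3, hq3⟩ := card_pos.1 (by omega : 0 < ((A \ c.Nc u1) \ c.Nc u2).card)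
    rw [mem_sdiff, mem_sdiff] at hq3
    obtain ⟨u3, d3, c3, k3, -⟩ := hex q3 hq3.1.1
    obtain ⟨x3, t3, -, -⟩ := hmem q3 hq3.1.1
    have K13 : c.Nc u1 ≠ c.Nc u3 := fun e => hq3.1.2 (e ▸ mem_Nc.2 c3)
    have K23 : c.Nc u2 ≠ c.Nc u3 := fun e => hq3.2 (e ▸ mem_Nc.2 c3)
    obtain ⟨a, ha, b, hb, wa, wb, wab⟩ : ∃ a ∈ c.RR u2, ∃ b ∈ c.RR u3,
        c.w u1 a = 0 ∧ c.w u1 b = 0 ∧ c.w a b = 0 := by
      by_cases hp : ∃ p ∈ c.RR u2, 0 < c.w u1 p
      · obtain ⟨p, hp, wp⟩ := hp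
        obtain ⟨a, ha, wa⟩ := sel d1 k1 x1 c1 k2 x2 c2 K12 (self_RR d1)
        obtain ⟨b, hb, wb⟩ := sel d2 k2 x2 c2 k3 x3 c3 K23 ha
        refine ⟨a, ha, b, hb, wa, ?_, wb⟩
        by_contra hw
        have := h.ext_uniq d1 k1 (self_RR d1)
          ⟨c1.l, (RR_T hp).2.1, (sd x1 c1 (self_RR d1)).trans (sd x2 c2 hp).symm, wp⟩
          (fun hh => RR_disj K12 hh hp)
          ⟨c1.l, (RR_T hb).2.1, (sd x1 c1 (self_RR d1)).trans (sd x3 c3 hb).symm,
            Nat.pos_of_ne_zero hw⟩ (fun hh => RR_disj K13 hh hb)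
        exact RR_disj K23 hp (this ▸ hb)
      · push Not at hp
        obtain ⟨b, hb, wb⟩ := sel d1 k1 x1 c1 k3 x3 c3 K13 (self_RR d1)
        obtain ⟨a, ha, wa⟩ := sel d3 k3 x3 c3 k2 x2 c2 K23.symm hb
        exact ⟨a, ha, b, hb, by have := hp a ha; omega, wb, by rw [c.symm]; exact wa⟩
    have := h.U34 x1.r x2.r x3.r hI c1.l (RR_T ha).2.1 (RR_T hb).2.1 x1.side.symm x2.side.symm
      x3.side.symm (sd x1 c1 (self_RR d1)) (sd x2 c2 ha) (sd x3 c3 hb) q12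
      (fun e => hq3.1.2 (e ▸ mem_Nc.2 c1)) (fun e => hq3.2 (e ▸ mem_Nc.2 c2))
      (hne (self_RR d1)) (hne ha) (hne hb) (fun e => RR_disj K12 (self_RR d1) (e ▸ ha))
      (fun e => RR_disj K13 (self_RR d1) (e ▸ hb)) (fun e => RR_disj K23 ha (e ▸ hb))
    have := comp_w_zero d1.2.1 (mem_Nc.2 c1) hq3.1.2 x3.r (x1.same x3)
    have := comp_w_zero d2.2.1 (mem_Nc.2 c2) hq3.2 x3.r (x2.same x3)
    have := hz x1 c1; have := hz x2 (RR_C ha c2).symm; have := hz x3 (RR_C hb c3).symm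
    have := t1.gp_eq; have := t2.gp_eq; have := t3.gp_eq
    have := d1.1.gm_eq; have := (RR_T ha).gm_eq; have := (RR_T hb).gm_eq
    have := x1.symm.pos; have := x2.symm.pos; have := x3.symm.pos
    have := c1.symm.pos; have := (RR_C ha c2).pos; have := (RR_C hb c3).pos
    omega
  have := sum_two_level (c.Nc x) (fun q => c.rate x q) (c.AO x) (m := 7 / 6) (M := 5 / 3)
    (by norm_num) (by norm_num) hcard h4 r1 (fun q hq ha => by
      have := rate_le_rb hW (hns q hq) ha; rwa [ht, rb3] at this)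
  norm_num at this
  linarith

lemma rate_le_max (hW : c.W x) {M : ℚ} (h1 : (c.t : ℚ) / 2 ≤ M) (h2 : ra c.t ≤ M) (q : X) :
    c.rate x q ≤ M := by
  by_cases hs : c.Sad q
  · rw [rate_sad hs]; exact h1
  · exact (rate_le_ra hW hs).trans h2

lemma Good.one_big_paid (G : c.Good) (hO : x ∈ c.O) (hx : c.Sl x) (hW : c.W x)
    (hsm : c.sm x + 2 ≤ c.t) {M : ℚ} (h1 : (c.t : ℚ) / 2 ≤ M) (h2 : ra c.t ≤ M) :
    c.paid x ≤ rb c.t * c.cr x + (M - rb c.t) := by
  rw [paid_ord hO]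
  have := sum_two_level (c.Nc x) (fun q => c.rate x q) (fun q => c.Sad q ∨ c.AO x q)
    (m := rb c.t) (M := M) (by have := rb_ge c.ht; linarith) (rb_le_ra.trans h2)
    (card_le_cr (Finset.Subset.refl _)) (G.one_big hO hx hW hsm)
    (fun q _ => rate_le_max hW h1 h2 q)
    (fun q _ hq => rate_le_rb hW (fun hs => hq (Or.inl hs)) (fun hs => hq (Or.inr hs)))
  simpa using this

lemma Good.W20_paid (G : c.Good) (ht : c.t = 3) (hO : x ∈ c.O) (hI : x ∉ c.I) (hcr : c.cr x = 5)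
    (hi : c.ia x + c.e = 0) : c.paid x ≤ 37 / 6 := by
  have h := G.opt
  have hW : c.W x := ⟨⟨hI, fun _ => by omega, fun h' => absurd hO h'⟩, fun hH => by
    have := hH.2.2.1; omega⟩
  have hx : c.Sl x := Or.inr ⟨hO, hi, by omega⟩
  have hsm : c.sm x + 2 ≤ c.t := by have := degO' hO hI; omega
  have hcard : (c.Nc x).card ≤ 5 := hcr ▸ card_le_cr (Finset.Subset.refl _)
  have hone := G.one_big hO hx hW hsm
  have r2 : ∀ q, ¬ (c.Sad q ∨ c.AO x q) → c.rate x q ≤ 7 / 6 := fun q hq => by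
    have := rate_le_rb hW (fun hs => hq (Or.inl hs)) (fun hs => hq (Or.inr hs))
    rwa [ht, rb3] at this
  have r1 : ∀ q, c.rate x q ≤ 5 / 3 :=
    rate_le_max hW (by rw [ht]; norm_num) (by rw [ht, ra3])
  rw [paid_ord hO]
  by_cases hA : ∀ q ∈ c.Nc x, ¬ c.AO x q
  · have := sum_two_level (c.Nc x) (fun q => c.rate x q) (fun q => c.Sad q ∨ c.AO x q)
      (m := 7 / 6) (M := 3 / 2) (by norm_num) (by norm_num) hcard hone
      (fun q hq => by
        by_cases hs : c.Sad q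
        · rw [rate_sad hs, ht]; norm_num
        · have := r2 q (fun hh => hh.elim hs (hA q hq)); linarith)
      (fun q _ hq => r2 q hq)
    norm_num at this
    linarith
  push Not at hA
  obtain ⟨q1, hq1, ha⟩ := hA
  rw [mem_Nc] at hq1
  have hfour : ∀ A ⊆ c.Nc x, A.card ≤ 4 → ∑ q ∈ A, c.rate x q ≤ 31 / 6 := fun A hA hc => by
    have := sum_two_level A (fun q => c.rate x q) (fun q => c.Sad q ∨ c.AO x q)
      (m := 7 / 6) (M := 5 / 3) (by norm_num) (by norm_num) hc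
      ((card_le_card (filter_subset_filter _ hA)).trans hone) (fun q _ => r1 q)
      (fun q _ hq => r2 q hq)
    norm_num at this
    linarith
  by_cases h1 : ∃ q0 ∈ c.Nc x, c.rate x q0 ≤ 1
  · obtain ⟨q0, hq0, hr⟩ := h1
    rw [← Finset.add_sum_erase _ _ hq0]
    have := hfour _ (erase_subset q0 _) (by rw [card_erase_of_mem hq0]; omega)
    linarith
  push Not at h1
  have hall : ∀ q ∈ c.Nc x, c.T q ∧ c.Out x q := fun q hq => by
    by_contra hn
    have := rate_le_one hW (fun hs => h.out_sad hx hW (Or.inl hO) ha.1 ha.2.1 hq1 hs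
      (mem_Nc.1 hq)) hn
    linarith [h1 q hq]
  obtain ⟨u1, d1, c1, w1⟩ := out_nonadj (Or.inl hO) ha.2.1 hq1
  have k1 := TA_card d1 c1 ha.2.2
  have hpart : ∀ q ∈ (c.Nc x).erase q1, ∃ u, c.Deep u ∧ c.C u q ∧ c.S u1 u ∧ u ∉ c.RR u1 := by
    intro q hq
    rw [mem_erase] at hq
    have hc := mem_Nc.1 hq.2
    obtain ⟨u, d, c2, w2⟩ := out_nonadj (Or.inl hO) (hall q hq.2).2 hc
    have hK := diff_core d1 c1 c2 hq.1.symm (G.AO_same hx hW (Or.inl hO) ha hq1 hc)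
    refine ⟨u, d, c2, ⟨c1.l, c2.l, (c1.symm.same hq1.symm).trans (hc.symm.same c2.symm), ?_⟩,
      fun hh => RR_disj hK hh (self_RR d)⟩
    by_contra hw
    exact h.two_cores hx hW ha.1 (hall q hq.2).1 d1 d hq1 hc c1 c2 hK w1 w2 (by omega)
  have hc4 : (c.Nc x).card ≤ 4 := by
    have e1 := card_erase_add_one (mem_Nc.2 hq1)
    rcases ((c.Nc x).erase q1).eq_empty_or_nonempty with e | ⟨q2, hq2⟩
    · rw [e] at e1; simp at e1; omega
    · obtain ⟨u2, d2, -, s2, n2⟩ := hpart q2 hq2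
      have : ((c.Nc x).erase q1).card ≤ c.cr u2 := card_le_cr fun q hq => by
        obtain ⟨u, -, c2, s, n⟩ := hpart q hq
        rw [← h.ext_uniq d1 k1 (self_RR d1) s2 n2 s n]
        exact mem_Nc.2 c2
      have := d2.1.2.2.1
      omega
  have := hfour _ (Finset.Subset.refl _) hc4
  linarith

lemma Good.big_paid (G : c.Good) (ht : 4 ≤ c.t) (hO : x ∈ c.O) (hW : c.W x) {σ : ℕ}
    (hσ : c.cr x = c.t + σ) : c.paid x ≤ 2 * c.t - 1 + c.t * σ / 2 := by
  have h4 : (4 : ℚ) ≤ c.t := by exact_mod_cast ht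
  have h1 := ra_le c.ht
  have h2 := G.sad_card hO hW.1.1
  rw [paid_ord hO]
  have := sum_two_level (c.Nc x) (fun q => c.rate x q) c.Sad (m := ra c.t) (M := c.t / 2)
    (a := c.t + σ) (n := σ) (by have := rb_ge c.ht; have := rb_le_ra (t := c.t); linarith)
    (by linarith) (hσ ▸ card_le_cr (Finset.Subset.refl _)) (by omega)
    (fun q _ => rate_le_max hW le_rfl (by linarith) q) (fun q _ hq => rate_le_ra hW hq)
  have := t_ra c.ht
  push_cast at *
  nlinarith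

lemma Good.afford_W (G : c.Good) (hO : x ∈ c.O) (hW : c.W x) : c.paid x ≤ c.BB x := by
  have h := G.opt
  have ht := c.ht
  have hI := hW.1.1
  have h3 : (3 : ℚ) ≤ c.t := by exact_mod_cast ht
  have hd := degO' hO hI
  have hsm := h.sm_le hO hI
  obtain ⟨σ, hσ⟩ : ∃ σ, c.cr x = c.t + σ := ⟨c.cr x - c.t, by have := hW.1.2.1 hO; omega⟩
  have hσ1 : 1 ≤ σ := by have := hW.1.2.1 hO; omega
  obtain ⟨i, hi⟩ : ∃ i, c.ia x + c.e = i := ⟨_, rfl⟩
  have eB : c.BB x = 3 * c.t * σ / 2 - 1 + (i - 1) * gam c.t := by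
    unfold BB
    rw [if_pos hO, hσ, ← hi]
    push_cast; ring
  rw [eB]
  have g1 := half_le_gam ht
  have g2 := gam_hi ht
  have g3 := t_rb ht
  by_cases s1 : σ = 1
  · have hi0 : i ≠ 0 := fun e => hW.2 ⟨hO, hI, by omega, by omega⟩
    by_cases i1 : i = 1
    · have := G.W1_paid ⟨hO, hI, by omega, by omega⟩
      rw [s1, i1]; push_cast; linarith
    · have := G.one_big_paid hO (Or.inl (by have := gm_ord hO hI; have := c.he; omega)) hW
        (by omega) g1 (ra_le_gam ht)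
      rw [hσ, s1] at this
      rw [s1]
      have i2 : (2 : ℚ) ≤ i := by exact_mod_cast (by omega : 2 ≤ i)
      push_cast at this ⊢
      nlinarith
  have s2 : (2 : ℚ) ≤ σ := by exact_mod_cast (by omega : 2 ≤ σ)
  rcases Nat.lt_or_ge c.t 4 with h4 | h4
  · have e3 : c.t = 3 := by omega
    by_cases s3 : σ = 2
    · by_cases i0 : i = 0
      · have := G.W20_paid e3 hO hI (by omega) (by omega)
        rw [e3, s3, i0, gam3]; norm_num; linarith
      · have := G.W2_paid e3 hO hI (by omega) (by omega)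
        rw [e3, s3, (by omega : i = 1)]; norm_num; linarith
    · have := paid_le (c := c) (x := x) (M := 5 / 3) fun q _ =>
        rate_le_max hW (by rw [e3]; norm_num) (by rw [e3, ra3]) q
      rw [hσ, e3, (by omega : σ = 3)] at this
      rw [e3, (by omega : σ = 3), (by omega : i = 0), gam3]
      norm_num at this ⊢
      linarith
  have h4' : (4 : ℚ) ≤ c.t := by exact_mod_cast h4
  by_cases i0 : i = 0
  · rw [i0]
    by_cases s3 : σ = 2
    · have := G.one_big_paid hO (Or.inr ⟨hO, by omega, by omega⟩) hW (by omega) le_rfl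
        (by have := ra_le ht; linarith)
      rw [hσ, s3] at this
      rw [s3]
      have r4 : rb c.t = 3 / 2 - 1 / c.t := rfl
      push_cast at this ⊢
      rcases Nat.lt_or_ge c.t 5 with h5 | h5
      · have e4 : (c.t : ℚ) = 4 := by exact_mod_cast (by omega : c.t = 4)
        rw [e4] at r4 this g2 ⊢
        linarith
      · have : (5 : ℚ) ≤ c.t := by exact_mod_cast h5
        have := inv_pos' ht
        nlinarith
    · have := G.big_paid h4 hO hW hσ
      have s4 : (3 : ℚ) ≤ σ := by exact_mod_cast (by omega : 3 ≤ σ)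
      push_cast
      nlinarith
  · have := G.big_paid h4 hO hW hσ
    have i1 : (1 : ℚ) ≤ i := by exact_mod_cast (by omega : 1 ≤ i)
    nlinarith

lemma paid_zero (h : ∀ q, c.C x q → c.rate x q = 0) : c.paid x = 0 :=
  Finset.sum_eq_zero fun q hq => by rw [h q (mem_Nc.1 hq)]; simp

lemma Opt2.paid_low (h : c.Opt2) (hx : c.Low x) (hV : ¬ c.V x) : c.paid x = 0 :=
  paid_zero fun _ hq => rate_low (fun hs => h.low_sad hs hx hq.symm) hx hV

lemma Good.afford_sup (G : c.Good) (hO : x ∉ c.O) (hI : x ∉ c.I) (hs : ¬ c.Sad x) :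
    c.paid x ≤ c.BB x := by
  have h := G.opt
  have ht := c.ht
  have h3 : (3 : ℚ) ≤ c.t := by exact_mod_cast ht
  have hd := degS' hO hI
  have hg := h.gm_nonneg hI
  rw [gm_sup hO hI] at hg
  have g1 := half_le_gam ht
  unfold BB
  rw [if_neg hO]
  by_cases m0 : c.mu x = 0
  · rw [if_pos m0, paid_zero fun q hq => by have := w_le_cr hq; have := hq.pos; omega]
  rw [if_neg m0]
  by_cases c1 : c.cr x = 1
  · have hl : c.Low x := ⟨hI, fun h' => absurd h' hO, fun _ => c1⟩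
    have := h.low_sup hl hO
    have i1 : c.ia x = 1 := by
      by_contra hn
      exact hs ⟨hO, hI, c1, by omega⟩
    rw [h.paid_low hl (fun hV => hO hV.1), c1, i1]
    push_cast; linarith
  have hW : c.W x := ⟨⟨hI, fun h' => absurd h' hO, fun _ => by omega⟩, fun hH => hO hH.1⟩
  have c2 : (2 : ℚ) ≤ c.cr x := by exact_mod_cast (by omega : 2 ≤ c.cr x)
  have i0 : (0 : ℚ) ≤ c.ia x * gam c.t := mul_nonneg (Nat.cast_nonneg _) (by linarith)
  rcases Nat.lt_or_ge c.t 4 with h4 | h4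
  swap
  · have h4' : (4 : ℚ) ≤ c.t := by exact_mod_cast h4
    have := paid_le (c := c) (x := x) fun q _ =>
      rate_le_max hW le_rfl (by have := ra_le ht; linarith) q
    nlinarith
  have e3 : c.t = 3 := by omega
  have p1 := paid_le (c := c) (x := x) (M := 5 / 3) fun q _ =>
    rate_le_max hW (by rw [e3]; norm_num) (by rw [e3, ra3]) q
  rw [e3] at i0 ⊢
  by_cases c3 : 3 ≤ c.cr x
  · have : (3 : ℚ) ≤ c.cr x := by exact_mod_cast c3
    push_cast; linarith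
  have c4 : c.cr x = 2 := by omega
  rw [c4] at p1 ⊢
  by_cases i1 : 1 ≤ c.ia x
  · have : (1 : ℚ) ≤ c.ia x := by exact_mod_cast i1
    rw [gam3]; push_cast at p1 ⊢; linarith
  suffices c.paid x ≤ 3 by push_cast; linarith
  by_cases m2 : c.mu x = 2
  · have hgp : c.gp x = 0 := by have := gp_sup hO hI; omega
    rw [paid_zero fun q hq => rate_zero (fun hh => h.low_gp0 hgp hh.low hq)
      (fun hh => h.low_gp0 hgp hh.low hq)]
    norm_num
  have sm0 : c.sm x = 0 := by omega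
  have hx : c.Sl x := Or.inl (by have := gm_sup hO hI; omega)
  by_cases hA : ∀ q, c.C x q → ¬ c.AO x q
  · have := paid_le (c := c) (x := x) (M := 3 / 2) fun q hq => by
      by_cases hs : c.Sad q
      · rw [rate_sad hs, e3]; norm_num
      · have := rate_le_rb hW hs (hA q hq); rw [e3, rb3] at this; linarith
    rw [c4] at this
    push_cast at this
    linarith
  push Not at hA
  obtain ⟨q, hq, ha⟩ := hA
  obtain ⟨u, d, cu, -⟩ := out_nonadj (Or.inr sm0) ha.2.1 hq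
  have k1 := TA_card d cu ha.2.2
  have w1 : c.w x q = 1 := by
    have hxR : x ∉ c.RR u := fun hh => hO (RR_T hh).1
    have e1 := TA_Nc k1 cu ha.1 hq.symm hxR
    have e2 := ha.1.2.2.1
    unfold cr at e2
    rw [e1, Finset.sum_insert hxR] at e2
    have : (c.RR u).card ≤ ∑ y ∈ c.RR u, c.w q y := by
      rw [Finset.card_eq_sum_ones]
      exact Finset.sum_le_sum fun y hy => (RR_C hy cu).pos
    have := hq.pos
    rw [c.symm q x] at e2
    omega
  have e1 : ∑ y ∈ (c.Nc x).erase q, c.w x y = 1 := by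
    have := Finset.add_sum_erase _ (fun y => c.w x y) (mem_Nc.2 hq)
    unfold cr at c4
    omega
  unfold paid
  rw [← Finset.add_sum_erase _ _ (mem_Nc.2 hq), w1]
  have r1 := rate_le_ra hW ha.1.not_sad
  rw [e3, ra3] at r1
  have r2 : ∑ y ∈ (c.Nc x).erase q, (c.w x y : ℚ) * c.rate x y
      ≤ ∑ y ∈ (c.Nc x).erase q, (c.w x y : ℚ) * (7 / 6) := by
    refine Finset.sum_le_sum fun y hy => mul_le_mul_of_nonneg_left ?_ (Nat.cast_nonneg _)
    rw [mem_erase, mem_Nc] at hy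
    have := rate_le_rb hW (fun hs => h.out_sad hx hW (Or.inr sm0) ha.1 ha.2.1 hq hs hy.2)
      (fun hh => hy.1 (G.AO_unique hx hW (Or.inr sm0) (by omega) hh ha hy.2 hq))
    rwa [e3, rb3] at this
  rw [← Finset.sum_mul, ← Nat.cast_sum, e1] at r2
  push_cast at r2 ⊢
  linarith

theorem Good.afford (G : c.Good) (hI : x ∉ c.I) (hT : ¬ c.T x) (hs : ¬ c.Sad x) :
    c.paid x ≤ c.BB x := by
  have h := G.opt
  have ht := c.ht
  by_cases hO : x ∈ c.O
  swap
  · exact G.afford_sup hO hI hs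
  have hd := degO' hO hI
  have h1 := h.cr_ge hO hI
  have h2 := h.sm_le hO hI
  by_cases c1 : c.cr x = c.t
  · have hV : c.V x := ⟨hO, hI, c1, by
      by_contra hn
      exact hT ⟨hO, hI, c1, by omega⟩⟩
    have := paid_le (c := c) (x := x) (M := bb c.t) fun q hq => by
      by_cases hq' : c.T q
      · rw [rate_V hq' hV]
      · rw [rate_zero (fun hh => h.low_sad hh hV.low hq.symm) hq']
        have := bb_ge ht; linarith
    have b1 := bb_mul ht
    have b2 : (2 : ℚ) ≤ c.ia x + c.e := by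
      have := hV.2.2.2
      exact_mod_cast (by omega : 2 ≤ c.ia x + c.e)
    have b3 := half_le_gam ht
    have h3 : (3 : ℚ) ≤ c.t := by exact_mod_cast ht
    unfold BB
    rw [if_pos hO, c1]
    rw [c1] at this
    nlinarith
  have hp : c.Pay x := ⟨hI, fun _ => by omega, fun h' => absurd hO h'⟩
  by_cases hH : c.H x
  swap
  · exact G.afford_W hO ⟨hp, hH⟩
  rw [paid_T hO fun q hq hh => h.Hsad hH hh hq.symm]
  rw [Finset.sum_congr rfl fun q hq => rate_H (mem_filter.1 hq).2 hH, Finset.sum_const,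
    nsmul_eq_mul]
  have b1 : (c.ia x : ℚ) + c.e = 0 := by exact_mod_cast hH.i_zero
  have b2 : c.BB x = bH c.t := by
    unfold BB bH
    rw [if_pos hO, hH.2.2.1, b1]
    push_cast; ring
  rw [b2]
  have b3 := bH_pos ht
  show (c.nT x : ℚ) * (bH c.t / c.nT x) ≤ bH c.t
  by_cases n0 : (c.nT x : ℚ) = 0
  · rw [n0]; linarith
  · rw [mul_div_cancel₀ _ n0]

end St

end

end Pool.Agent.Lib.MP_bb98d0_co
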