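import Mathlib

/-!
Brooks' theorem for maximum degree at least three, following the proof of M. Zajac.
-/

namespace Pool.Agent.Lib.MP_bb98d0_co
open Finset Classical

noncomputable section

variable {V : Type*} {A : V → V → Prop} {k : ℕ}

def Col (A : V → V → Prop) (U : Finset V) (c : V → Fin k) : Prop :=
  ∀ x ∈ U, ∀ y ∈ U, A x y → c x ≠ c y

lemma col_insert (hs : ∀ x y, A x y → A y x) (hi : ∀ x, ¬ A x x) {S : Finset V} {c : V → Fin k}
    (hc : Col A S c) {v : V} (hv : v ∉ S) {a : Fin k} (ha : ∀ y ∈ S, A v y → c y ≠ a) :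
    Col A (insert v S) (Function.update c v a) := by
  intro x hx y hy hxy
  rcases mem_insert.1 hx with hx | hx <;> rcases mem_insert.1 hy with hy | hy
  · rw [hx, hy] at hxy; exact absurd hxy (hi v)
  · have : y ≠ v := fun e => hv (e ▸ hy)
    rw [hx, Function.update_self, Function.update_of_ne this]
    exact (ha y hy (hx ▸ hxy)).symm
  · have : x ≠ v := fun e => hv (e ▸ hx)
    rw [hy, Function.update_self, Function.update_of_ne this]
    exact ha x hx (hs _ _ (hy ▸ hxy))
  · have h1 : x ≠ v := fun e => hv (e ▸ hx)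
    have h2 : y ≠ v := fun e => hv (e ▸ hy)
    rw [Function.update_of_ne h1, Function.update_of_ne h2]
    exact hc x hx y hy hxy

lemma free_colour {B : Finset V} (c : V → Fin k) (h : B.card < k) : ∃ a, ∀ y ∈ B, c y ≠ a := by
  have h1 : (B.image c).card < (univ : Finset (Fin k)).card := by
    rw [card_univ, Fintype.card_fin]; exact card_image_le.trans_lt h
  obtain ⟨a, -, ha⟩ := exists_mem_notMem_of_card_lt_card h1
  exact ⟨a, fun y hy e => ha (e ▸ mem_image_of_mem c hy)⟩

lemma greedy (hs : ∀ x y, A x y → A y x) (hi : ∀ x, ¬ A x x)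
    (hd : ∀ (v : V) (B : Finset V), (∀ y ∈ B, A v y) → B.card ≤ k) (d : V → ℕ) {z a b : V}
    (hab : a ≠ b) (hza : A z a) (hzb : A z b) :
    ∀ (n : ℕ) (T S : Finset V) (c : V → Fin k), T.card = n → Disjoint S T → z ∈ T → a ∈ S →
      b ∈ S → c a = c b → Col A S c → (∀ v ∈ T, v ≠ z → ∃ u ∈ T, A v u ∧ d u < d v) →
      ∃ c' : V → Fin k, Col A (S ∪ T) c' := by
  intro n
  induction n with
  | zero => intro T S c h _ hz; rw [card_eq_zero] at h; simp [h] at hz
  | succ n ih =>
    intro T S c hT hST hz ha hb hc hS hr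
    rcases (T.erase z).eq_empty_or_nonempty with e | e
    · have eT : T = {z} := by rw [← insert_erase hz, e]; rfl
      have h1 := hd z (S.filter (A z)) fun y hy => (mem_filter.1 hy).2
      have hb' : b ∈ S.filter (A z) := mem_filter.2 ⟨hb, hzb⟩
      have h2 := card_erase_add_one hb'
      obtain ⟨col, hcol⟩ := free_colour (B := (S.filter (A z)).erase b) c (by omega)
      refine ⟨Function.update c z col, ?_⟩
      rw [eT, union_comm, ← insert_eq]
      refine col_insert hs hi hS (Finset.disjoint_right.1 hST hz) fun y hy hzy => ?_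
      by_cases e : y = b
      · rw [e, ← hc]; exact hcol a (mem_erase.2 ⟨hab, mem_filter.2 ⟨ha, hza⟩⟩)
      · exact hcol y (mem_erase.2 ⟨e, mem_filter.2 ⟨hy, hzy⟩⟩)
    · obtain ⟨v, hv, hmax⟩ := exists_max_image _ d e
      rw [mem_erase] at hv
      obtain ⟨u, hu, hvu, -⟩ := hr v hv.2 hv.1
      have huS : u ∉ S.filter (A v) := fun h => Finset.disjoint_right.1 hST hu (mem_filter.1 h).1
      have h1 := hd v (insert u (S.filter (A v))) fun y hy => by
        rcases mem_insert.1 hy with rfl | hy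
        exacts [hvu, (mem_filter.1 hy).2]
      rw [card_insert_of_notMem huS] at h1
      obtain ⟨col, hcol⟩ := free_colour (B := S.filter (A v)) c (by omega)
      have hvS : v ∉ S := Finset.disjoint_right.1 hST hv.2
      have h2 := col_insert hs hi hS hvS fun y hy hvy => hcol y (mem_filter.2 ⟨hy, hvy⟩)
      have := ih (T.erase v) (insert v S) _ (by rw [card_erase_of_mem hv.2]; omega)
        (by
          rw [Finset.disjoint_insert_left]
          exact ⟨notMem_erase _ _, hST.mono_right (erase_subset _ _)⟩)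
        (mem_erase.2 ⟨hv.1.symm, hz⟩) (mem_insert_of_mem ha) (mem_insert_of_mem hb)
        (by
          have n1 : a ≠ v := fun e => hvS (e ▸ ha)
          have n2 : b ≠ v := fun e => hvS (e ▸ hb)
          rw [Function.update_of_ne n1, Function.update_of_ne n2]
          exact hc) h2
        (fun x hx hxz => by
          rw [mem_erase] at hx
          obtain ⟨u', hu', g1, g2⟩ := hr x hx.2 hxz
          have := hmax x (mem_erase.2 ⟨hxz, hx.2⟩)
          exact ⟨u', mem_erase.2 ⟨fun e => by rw [e] at g2; omega, hu'⟩, g1, g2⟩)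
      rwa [insert_union, ← union_insert, insert_erase hv.2] at this

def IsPath (A : V → V → Prop) (U : Finset V) (p : ℕ → V) (r : ℕ) : Prop :=
  (∀ i ≤ r, p i ∈ U) ∧ (∀ i ≤ r, ∀ j ≤ r, p i = p j → i = j) ∧ ∀ i < r, A (p i) (p (i + 1))

lemma exists_idx {U : Finset V} {p : ℕ → V} {r : ℕ} (h : IsPath A U p r) :
    ∃ idx : V → ℕ, ∀ i ≤ r, idx (p i) = i := by
  refine ⟨fun v => if hv : ∃ i ≤ r, p i = v then hv.choose else 0, fun i hi => ?_⟩
  have hv : ∃ j ≤ r, p j = p i := ⟨i, hi, rfl⟩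
  simp only [dif_pos hv]
  exact h.2.1 _ hv.choose_spec.1 _ hi hv.choose_spec.2

lemma max_path (hi : ∀ x, ¬ A x x) {U : Finset V} {v1 v2 v3 : V} (h1 : v1 ∈ U) (h2 : v2 ∈ U)
    (h3 : v3 ∈ U) (a1 : A v1 v2) (a2 : A v2 v3) (hne : v1 ≠ v3) :
    ∃ p r, 2 ≤ r ∧ p 0 = v1 ∧ p 1 = v2 ∧ p 2 = v3 ∧ IsPath A U p r ∧
      ∀ y ∈ U, A (p r) y → ∃ i ≤ r, p i = y := by
  set P : ℕ → Prop := fun r => ∃ p : ℕ → V, p 0 = v1 ∧ p 1 = v2 ∧ p 2 = v3 ∧ IsPath A U p r
    with hP
  have hb : ∀ r, P r → r < U.card := by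
    rintro r ⟨p, -, -, -, hp⟩
    have : (range (r + 1)).card ≤ U.card := card_le_card_of_injOn p
      (fun i hi => hp.1 i (by simpa [Nat.lt_succ_iff] using hi))
      (fun i hi j hj e => hp.2.1 i (by simpa [Nat.lt_succ_iff] using hi) j
        (by simpa [Nat.lt_succ_iff] using hj) e)
    simpa using this
  have n12 : v1 ≠ v2 := fun e => hi v2 (e ▸ a1)
  have n23 : v2 ≠ v3 := fun e => hi v3 (e ▸ a2)
  have hP2 : P 2 := by
    refine ⟨fun i => if i = 0 then v1 else if i = 1 then v2 else v3, by simp, by simp, by simp,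
      fun i hi => ?_, fun i hi j hj => ?_, fun i hi => ?_⟩
    · interval_cases i <;> simp [*]
    · interval_cases i <;> interval_cases j <;> simp [*, n12.symm, n23.symm, hne.symm]
    · interval_cases i <;> simp [*]
  have g1 : P (Nat.findGreatest P U.card) := Nat.findGreatest_spec (hb 2 hP2).le hP2
  have g2 : 2 ≤ Nat.findGreatest P U.card := Nat.le_findGreatest (hb 2 hP2).le hP2
  set r := Nat.findGreatest P U.card with hr
  have g3 : ¬ P (r + 1) := Nat.findGreatest_is_greatest (Nat.lt_succ_self r) (hb r g1)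
  obtain ⟨p, p0, p1, p2, hp⟩ := g1
  refine ⟨p, r, g2, p0, p1, p2, hp, fun y hy hA => ?_⟩
  by_contra hn
  push Not at hn
  have hu : ∀ i ≤ r, Function.update p (r + 1) y i = p i := fun i hi =>
    Function.update_of_ne (by omega) _ _
  refine g3 ⟨Function.update p (r + 1) y, by rw [hu 0 (by omega), p0], by rw [hu 1 (by omega), p1],
    by rw [hu 2 g2, p2], fun i hi => ?_, fun i hi j hj e => ?_, fun i hi => ?_⟩
  · by_cases e : i = r + 1
    · rw [e, Function.update_self]; exact hy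
    · rw [hu i (by omega)]; exact hp.1 i (by omega)
  · by_cases e1 : i = r + 1 <;> by_cases e2 : j = r + 1
    · omega
    · rw [e1, Function.update_self, hu j (by omega)] at e
      exact absurd e.symm (hn j (by omega))
    · rw [e2, Function.update_self, hu i (by omega)] at e
      exact absurd e (hn i (by omega))
    · rw [hu i (by omega), hu j (by omega)] at e
      exact hp.2.1 i (by omega) j (by omega) e
  · by_cases e : i = r
    · rw [e, Function.update_self, hu r le_rfl]; exact hA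
    · rw [hu i (by omega), hu (i + 1) (by omega)]; exact hp.2.2 i (by omega)

theorem brooks_aux (hk : 3 ≤ k) (hs : ∀ x y, A x y → A y x) (hi : ∀ x, ¬ A x x)
    (hd : ∀ (v : V) (B : Finset V), (∀ y ∈ B, A v y) → B.card ≤ k)
    (hK : ∀ B : Finset V, B.card = k + 1 → ∃ x ∈ B, ∃ y ∈ B, x ≠ y ∧ ¬ A x y) (U : Finset V) :
    ∃ c : V → Fin k, Col A U c := by
  induction hn : U.card using Nat.strong_induction_on generalizing U with
  | _ n ih =>
  have c0 : Fin k := ⟨0, by omega⟩
  rcases U.eq_empty_or_nonempty with e | ⟨v2, hv2⟩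
  · exact ⟨fun _ => c0, by simp [Col, e]⟩
  by_cases hlow : ∃ v ∈ U, (U.filter (A v)).card < k
  · obtain ⟨v, hv, hlt⟩ := hlow
    have := card_erase_add_one hv
    obtain ⟨c, hc⟩ := ih _ (by omega) (U.erase v) rfl
    obtain ⟨col, hcol⟩ := free_colour c hlt
    refine ⟨Function.update c v col, ?_⟩
    rw [← insert_erase hv]
    exact col_insert hs hi hc (notMem_erase _ _) fun y hy hvy =>
      hcol y (mem_filter.2 ⟨mem_of_mem_erase hy, hvy⟩)
  push Not at hlow
  have hN : (U.filter (A v2)).card = k :=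
    le_antisymm (hd v2 _ fun y hy => (mem_filter.1 hy).2) (hlow v2 hv2)
  obtain ⟨v1, h1, v3, h3, hne, hnA⟩ := hK (insert v2 (U.filter (A v2)))
    (by rw [card_insert_of_notMem (fun h => hi v2 (mem_filter.1 h).2), hN])
  have h1' : v1 ∈ U.filter (A v2) := by
    rcases mem_insert.1 h1 with e | e
    · rcases mem_insert.1 h3 with e' | e'
      · exact absurd (e.trans e'.symm) hne
      · exact absurd (e ▸ (mem_filter.1 e').2) hnA
    · exact e
  have h3' : v3 ∈ U.filter (A v2) := by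
    rcases mem_insert.1 h3 with e | e
    · exact absurd (e ▸ hs _ _ (mem_filter.1 h1').2) hnA
    · exact e
  rw [mem_filter] at h1' h3'
  obtain ⟨p, r, hr, p0, p1, p2, hp, hmax⟩ :=
    max_path hi h1'.1 hv2 h3'.1 (hs _ _ h1'.2) h3'.2 hne
  obtain ⟨idx, hidx⟩ := exists_idx hp
  have hinj : ∀ i ≤ r, ∀ j ≤ r, i ≠ j → p i ≠ p j := fun i h1 j h2 h3 e => h3 (hp.2.1 i h1 j h2 e)
  by_cases hall : ∀ y ∈ U, ∃ i ≤ r, p i = y
  · obtain ⟨y, hy, hy'⟩ := exists_mem_notMem_of_card_lt_card
      (s := {v1, v3}) (t := U.filter (A v2)) (by rw [card_pair hne]; omega)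
    rw [mem_filter] at hy
    simp only [mem_insert, mem_singleton, not_or] at hy'
    obtain ⟨j, hj, rfl⟩ := hall y hy.1
    have j0 : j ≠ 0 := fun e => hy'.1 (by rw [e, p0])
    have j1 : j ≠ 1 := fun e => hi v2 (by have := hy.2; rwa [e, p1] at this)
    have j2 : j ≠ 2 := fun e => hy'.2 (by rw [e, p2])
    have hT : ∀ i ≤ r, i ≠ 0 → i ≠ 2 → p i ∈ U \ {v1, v3} := fun i g1 g2 g3 => by
      simp only [mem_sdiff, mem_insert, mem_singleton, not_or]
      exact ⟨hp.1 i g1, p0 ▸ hinj i g1 0 (by omega) g2, p2 ▸ hinj i g1 2 hr g3⟩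
    have := greedy hs hi hd
      (fun v => if idx v = 1 then 0 else if idx v ≤ j then j - idx v + 1 else idx v - j + 1)
      hne h1'.2 h3'.2 _ (U \ {v1, v3}) {v1, v3} (fun _ => c0) rfl disjoint_sdiff
      (p1 ▸ hT 1 (by omega) (by omega) (by omega)) (by simp) (by simp) rfl
      (fun x hx y hy hxy => by
        simp only [mem_insert, mem_singleton] at hx hy
        rcases hx with rfl | rfl <;> rcases hy with rfl | rfl
        exacts [absurd hxy (hi _), absurd hxy hnA, absurd (hs _ _ hxy) hnA, absurd hxy (hi _)])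
      (fun v hv hvz => by
        simp only [mem_sdiff, mem_insert, mem_singleton, not_or] at hv
        obtain ⟨i, hi', rfl⟩ := hall v hv.1
        have i0 : i ≠ 0 := fun e => hv.2.1 (by rw [e, p0])
        have i1 : i ≠ 1 := fun e => hvz (by rw [e, p1])
        have i2 : i ≠ 2 := fun e => hv.2.2 (by rw [e, p2])
        rcases lt_trichotomy i j with h | h | h
        · refine ⟨p (i + 1), hT _ (by omega) (by omega) (by omega), hp.2.2 i (by omega), ?_⟩
          simp only [hidx i hi', hidx (i + 1) (by omega)]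
          split_ifs <;> omega
        · refine ⟨p 1, hT _ (by omega) (by omega) (by omega), ?_, ?_⟩
          · rw [h, p1]; exact hs _ _ hy.2
          · simp only [hidx i hi', hidx 1 (by omega)]
            split_ifs <;> omega
        · obtain ⟨i', rfl⟩ : ∃ i', i = i' + 1 := ⟨i - 1, by omega⟩
          refine ⟨p i', hT _ (by omega) (by omega) (by omega), hs _ _ (hp.2.2 i' (by omega)), ?_⟩
          simp only [hidx _ hi', hidx i' (by omega)]
          split_ifs <;> omega)
    rwa [union_sdiff_of_subset (by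
      intro x hx
      simp only [mem_insert, mem_singleton] at hx
      rcases hx with rfl | rfl
      exacts [h1'.1, h3'.1])] at this
  push Not at hall
  obtain ⟨y0, hy0, hy0'⟩ := hall
  have hex : ∃ j, j ≤ r ∧ A (p r) (p j) := by
    obtain ⟨r', rfl⟩ : ∃ r', r = r' + 1 := ⟨r - 1, by omega⟩
    exact ⟨r', by omega, hs _ _ (hp.2.2 r' (by omega))⟩
  set j := Nat.find hex with hj
  have hj1 : j ≤ r ∧ A (p r) (p j) := Nat.find_spec hex
  have hj2 : ∀ i ≤ r, A (p r) (p i) → j ≤ i := fun i h1 h2 => Nat.find_min' hex ⟨h1, h2⟩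
  set C := (Icc j r).image p with hC
  have hCm : ∀ x, x ∈ C ↔ ∃ i, j ≤ i ∧ i ≤ r ∧ p i = x := fun x => by
    simp [hC, and_assoc]
  have hCU : C ⊆ U := fun x hx => by
    obtain ⟨i, -, g, rfl⟩ := (hCm x).1 hx
    exact hp.1 i g
  have hrC : p r ∈ C := (hCm _).2 ⟨r, hj1.1, le_rfl, rfl⟩
  have hc1 := card_sdiff_add_card_eq_card hCU
  have hc2 := card_pos.2 ⟨_, hrC⟩
  have hc3 : 0 < (U \ C).card := card_pos.2 ⟨y0, mem_sdiff.2 ⟨hy0, fun h => by
    obtain ⟨i, -, g, e⟩ := (hCm _).1 h
    exact hy0' i g e⟩⟩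
  obtain ⟨c, hc⟩ := ih _ (by omega) (U \ C) rfl
  set Q : ℕ → Prop := fun l => j ≤ l ∧ ∃ u ∈ U \ C, A (p l) u with hQ
  by_cases hq : ∃ l ≤ r, Q l
  swap
  · push Not at hq
    obtain ⟨c2, hc2⟩ := ih _ (by omega) C rfl
    have hno : ∀ x ∈ C, ∀ u ∈ U, u ∉ C → ¬ A x u := fun x hx u hu hu' hA => by
      obtain ⟨i, g1, g2, rfl⟩ := (hCm x).1 hx
      exact hq i g2 ⟨g1, u, mem_sdiff.2 ⟨hu, hu'⟩, hA⟩
    refine ⟨fun x => if x ∈ C then c2 x else c x, fun x hx y hy hxy => ?_⟩
    by_cases g1 : x ∈ C <;> by_cases g2 : y ∈ C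
    · simpa [g1, g2] using hc2 x g1 y g2 hxy
    · exact absurd hxy (hno x g1 y hy g2)
    · exact absurd (hs _ _ hxy) (hno y g2 x hx g1)
    · simpa [g1, g2] using hc x (mem_sdiff.2 ⟨hx, g1⟩) y (mem_sdiff.2 ⟨hy, g2⟩) hxy
  obtain ⟨l0, hl0, hq0⟩ := hq
  have g1 : Q (Nat.findGreatest Q r) := Nat.findGreatest_spec hl0 hq0
  have g2 : Nat.findGreatest Q r ≤ r := Nat.findGreatest_le r
  set l := Nat.findGreatest Q r with hl
  obtain ⟨hjl, u, hu, hA⟩ := g1
  have hlr : l ≠ r := fun e => by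
    rw [e] at hA
    obtain ⟨i, g3, rfl⟩ := hmax u (mem_sdiff.1 hu).1 hA
    exact (mem_sdiff.1 hu).2 ((hCm _).2 ⟨i, hj2 i g3 hA, g3, rfl⟩)
  have g3 : ¬ Q (l + 1) := Nat.findGreatest_is_greatest (Nat.lt_succ_self l) (by omega)
  have hl1 : p (l + 1) ∈ C := (hCm _).2 ⟨l + 1, by omega, by omega, rfl⟩
  have hl2 : p (l + 1) ∉ U \ C := fun h => (mem_sdiff.1 h).2 hl1
  have hul : u ≠ p (l + 1) := fun e => hl2 (e ▸ hu)
  have hT : ∀ i, j ≤ i → i ≤ r → i ≠ l + 1 → p i ∈ C.erase (p (l + 1)) := fun i g1 g2 g3 =>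
    mem_erase.2 ⟨hinj i g2 _ (by omega) g3, (hCm _).2 ⟨i, g1, g2, rfl⟩⟩
  have := greedy hs hi hd
    (fun v => if idx v ≤ l then l - idx v else r - idx v + 1 + (l - j))
    hul hA (hp.2.2 l (by omega)) _ (C.erase (p (l + 1))) (insert (p (l + 1)) (U \ C))
    (Function.update c (p (l + 1)) (c u)) rfl
    (by
      rw [Finset.disjoint_insert_left]
      exact ⟨notMem_erase _ _, sdiff_disjoint.mono_right (erase_subset _ _)⟩)
    (hT l hjl g2 (by omega)) (mem_insert_of_mem hu) (mem_insert_self _ _)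
    (by rw [Function.update_of_ne hul, Function.update_self])
    (col_insert hs hi hc hl2 fun y hy hA' => absurd ⟨by omega, y, hy, hA'⟩ g3)
    (fun v hv hvz => by
      rw [mem_erase] at hv
      obtain ⟨i, a1, a2, rfl⟩ := (hCm v).1 hv.2
      have i0 : i ≠ l + 1 := fun e => hv.1 (by rw [e])
      have i1 : i ≠ l := fun e => hvz (by rw [e])
      by_cases e : i = r
      · refine ⟨p j, hT j le_rfl hj1.1 (by omega), e ▸ hj1.2, ?_⟩
        simp only [hidx i a2, hidx j hj1.1]
        split_ifs <;> omega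
      · refine ⟨p (i + 1), hT _ (by omega) (by omega) (by omega), hp.2.2 i (by omega), ?_⟩
        simp only [hidx i a2, hidx (i + 1) (by omega)]
        split_ifs <;> omega)
  rwa [insert_union, ← union_insert, insert_erase hl1, sdiff_union_of_subset hCU] at this

end

end Pool.Agent.Lib.MP_bb98d0_co
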