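import Pool.Agent.Lib.MP_bb98d0_co.Sum

/-!
Contraction of closed neighbourhoods with many twins.
-/

namespace Pool.Agent.Lib.MP_bb98d0_co
open Finset Classical

noncomputable section

variable {X : Type*} [Fintype X]

def Net.NoK (N : Net X) : Prop :=
  ∀ v ∈ N.O, (∀ y, 0 < N.w v y → y ∈ N.O) →
    ∃ x y, x ≠ y ∧ (x = v ∨ 0 < N.w v x) ∧ (y = v ∨ 0 < N.w v y) ∧ N.w x y = 0

omit [Fintype X] in
lemma even_sum_symm (w : X → X → ℕ) (hw : ∀ x y, w x y = w y x) (h0 : ∀ x, w x x = 0)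
    (D : Finset X) : Even (∑ x ∈ D, ∑ y ∈ D, w x y) := by
  induction D using Finset.induction_on with
  | empty => simp
  | insert a D ha ih =>
    simp only [Finset.sum_insert ha, Finset.sum_add_distrib, h0, zero_add]
    rw [Finset.sum_congr rfl fun x _ => hw x a, ← add_assoc]
    exact (Even.add_self _).add ih

def cw (w : X → X → ℕ) (D : Finset X) (v : X) (x y : X) : ℕ :=
  if x ∈ D then (if y ∈ D then 0 else if x = v then ∑ d ∈ D, w d y else 0)
  else (if y ∈ D then (if y = v then ∑ d ∈ D, w x d else 0) else w x y)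

lemma cw_row {w : X → X → ℕ} {D : Finset X} {v x : X} (hv : v ∈ D) (hx : x ∉ D) :
    ∑ y, cw w D v x y = ∑ y, w x y := by
  rw [← Finset.sum_add_sum_compl D, ← Finset.sum_add_sum_compl D (w x)]
  congr 1
  · rw [Finset.sum_congr rfl (g := fun y => if y = v then ∑ d ∈ D, w x d else 0)
      fun y hy => by simp [cw, hx, hy]]
    simp [hv]
  · exact Finset.sum_congr rfl fun y hy => by simp [cw, hx, mem_compl.1 hy]

def Net.contract (N : Net X) (D : Finset X) (v : X) (μ : ℕ) (hv : v ∈ D)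
    (hμ : ∑ d ∈ D, ∑ y ∈ Dᶜ, N.w d y = 2 * μ) : Net X where
  t := N.t
  e := N.e
  w := cw N.w D v
  O := N.O \ D
  mu x := if x = v then μ else if x ∈ D then 0 else N.mu x
  ht := N.ht
  he := N.he
  symm x y := by
    unfold cw
    by_cases hx : x ∈ D <;> by_cases hy : y ∈ D <;> simp only [hx, hy, if_true, if_false]
    · rw [Finset.sum_congr rfl fun d _ => N.symm d y]
    · rw [Finset.sum_congr rfl fun d _ => N.symm x d]
    · exact N.symm x y
  diag x := by
    unfold cw
    by_cases hx : x ∈ D <;> simp [hx, N.diag]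
  simple x hx y hy := by
    rw [mem_sdiff] at hx hy
    simpa [cw, hx.2, hy.2] using N.simple x hx.1 y hy.1
  degO x hx := by
    rw [mem_sdiff] at hx
    rw [cw_row hv hx.2]; exact N.degO x hx.1
  degS x hx := by
    by_cases hxD : x ∈ D
    · by_cases hxv : x = v
      · rw [if_pos hxv, ← hμ, ← Finset.sum_add_sum_compl D, Finset.sum_comm (s := D),
          Finset.sum_eq_zero fun y hy => by simp [cw, hxD, hy], zero_add]
        exact Finset.sum_congr rfl fun y hy => by simp [cw, hv, hxv, mem_compl.1 hy]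
      · simp [cw, hxD, hxv]
    · have hxv : x ≠ v := fun e => hxD (e ▸ hv)
      rw [cw_row hv hxD, if_neg hxv, if_neg hxD]
      exact N.degS x fun h => hx (mem_sdiff.2 ⟨h, hxD⟩)

lemma Dv_contract {w : X → X → ℕ} {D : Finset X} {v : X}
    (hv : v ∈ D) (s : X → Bool) :
    Dv w (fun x => if x ∈ D then s v else s x)
      = Dv (cw w D v) s - ∑ x ∈ D, ∑ y ∈ D, (w x y : ℤ) := by
  unfold Dv
  rw [← Finset.sum_add_sum_compl D, ← Finset.sum_add_sum_compl D]
  have h1 : ∑ x ∈ Dᶜ, ∑ y, (w x y : ℤ) * sg (if x ∈ D then s v else s x)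
      (if y ∈ D then s v else s y) = ∑ x ∈ Dᶜ, ∑ y, (cw w D v x y : ℤ) * sg (s x) (s y) := by
    refine Finset.sum_congr rfl fun x hx => ?_
    have hx' := mem_compl.1 hx
    rw [← Finset.sum_add_sum_compl D, ← Finset.sum_add_sum_compl D]
    congr 1
    · rw [Finset.sum_congr rfl (g := fun y => (w x y : ℤ) * sg (s x) (s v))
        fun y hy => by simp [hx', hy],
        Finset.sum_congr rfl (f := fun y => (cw w D v x y : ℤ) * sg (s x) (s y))
        (g := fun y => if y = v then (∑ d ∈ D, (w x d : ℤ)) * sg (s x) (s v) else 0)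
        fun y hy => by by_cases e : y = v <;> simp [cw, hx', hy, hv, e]]
      simp [hv, Finset.sum_mul]
    · exact Finset.sum_congr rfl fun y hy => by simp [cw, hx', mem_compl.1 hy]
  have h2 : ∑ x ∈ D, ∑ y, (cw w D v x y : ℤ) * sg (s x) (s y)
      = ∑ x ∈ D, ∑ y ∈ Dᶜ, (w x y : ℤ) * sg (s v) (s y) := by
    rw [Finset.sum_congr rfl
      (g := fun x => if x = v then ∑ y ∈ Dᶜ, ∑ d ∈ D, (w d y : ℤ) * sg (s v) (s y) else 0)]
    · rw [Finset.sum_comm (s := D)]; simp [hv]
    · intro x hx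
      rw [← Finset.sum_add_sum_compl D, Finset.sum_eq_zero fun y hy => by simp [cw, hx, hy],
        zero_add]
      by_cases e : x = v
      · rw [if_pos e]
        exact Finset.sum_congr rfl fun y hy => by
          simp [cw, hv, e, mem_compl.1 hy, Finset.sum_mul]
      · rw [if_neg e]
        exact Finset.sum_eq_zero fun y hy => by simp [cw, hx, e]
  have h3 : ∑ x ∈ D, ∑ y, (w x y : ℤ) * sg (if x ∈ D then s v else s x)
      (if y ∈ D then s v else s y) = ∑ x ∈ D, ∑ y ∈ Dᶜ, (w x y : ℤ) * sg (s v) (s y)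
        - ∑ x ∈ D, ∑ y ∈ D, (w x y : ℤ) := by
    rw [← Finset.sum_sub_distrib]
    refine Finset.sum_congr rfl fun x hx => ?_
    rw [← Finset.sum_add_sum_compl D, add_comm, sub_eq_add_neg, ← Finset.sum_neg_distrib]
    congr 1
    · exact Finset.sum_congr rfl fun y hy => by simp [hx, mem_compl.1 hy]
    · exact Finset.sum_congr rfl fun y hy => by simp [hx, hy, sg]
  rw [h1, h2, h3]
  ring

theorem Net.main (N : Net X) (hN : N.NoK) : ∃ s, ∑ x, N.cost x ≤ (Dv N.w s : ℚ) := by
  induction hn : N.O.card using Nat.strong_induction_on generalizing N with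
  | _ n ih =>
  by_cases hT : N.TwinB
  · exact N.core hT
  unfold Net.TwinB at hT
  push Not at hT
  obtain ⟨v, hvO, hall, hcard⟩ := hT
  set D : Finset X := univ.filter fun y => y = v ∨ 0 < N.w v y with hDdef
  have hmem : ∀ y, y ∈ D ↔ (y = v ∨ 0 < N.w v y) := fun y => by simp [hDdef]
  have hv : v ∈ D := (hmem v).2 (Or.inl rfl)
  have hD : D ⊆ N.O := fun y hy => by
    rcases (hmem y).1 hy with h | h
    exacts [h ▸ hvO, hall y h]
  have htw : ∀ z ∈ N.Tw v, ∀ y, (y = z ∨ 0 < N.w z y) ↔ y ∈ D := fun z hz y => by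
    rw [hmem]; exact (mem_filter.1 hz).2 y
  have hrow : ∀ z, z ∈ D → (∀ y, (y = z ∨ 0 < N.w z y) ↔ y ∈ D) → ∀ y,
      N.w z y = if y ∈ D.erase z then 1 else 0 := by
    intro z hz h y
    by_cases hy : y ∈ D.erase z
    · rw [if_pos hy]
      rw [mem_erase] at hy
      have := ((h y).2 hy.2).resolve_left hy.1
      have := N.simple z (hD hz) y (hD hy.2)
      omega
    · rw [if_neg hy]
      by_contra hw
      have h1 := (h y).1 (Or.inr (Nat.pos_of_ne_zero hw))
      refine hy (mem_erase.2 ⟨fun e => hw ?_, h1⟩)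
      rw [e, N.diag]
  have hDcard : D.card + N.e = 2 * N.t + 1 := by
    have h1 := N.degO v hvO
    rw [Finset.sum_congr rfl fun y _ => hrow v hv (fun y => (hmem y).symm) y] at h1
    simp only [Finset.sum_ite_mem, univ_inter, Finset.sum_const, smul_eq_mul, mul_one] at h1
    have := card_erase_add_one hv
    omega
  obtain ⟨k, hk⟩ : ∃ k, k + N.e = 2 * N.t := ⟨2 * N.t - N.e, by have := N.he; have := N.ht; omega⟩
  have hk1 : D.card = k + 1 := by omega
  have hdeg : ∀ x ∈ D, ∑ y ∈ D, N.w x y + ∑ y ∈ Dᶜ, N.w x y = k := fun x hx => by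
    have := N.degO x (hD hx)
    rw [Finset.sum_add_sum_compl]; omega
  have hsum : ∑ x ∈ D, ∑ y ∈ D, N.w x y + ∑ x ∈ D, ∑ y ∈ Dᶜ, N.w x y = (k + 1) * k := by
    rw [← Finset.sum_add_distrib, Finset.sum_congr rfl hdeg, Finset.sum_const, hk1, smul_eq_mul]
  obtain ⟨m, hm⟩ := even_sum_symm N.w N.symm N.diag D
  obtain ⟨p, hp⟩ : Even ((k + 1) * k) := by rw [mul_comm]; exact Nat.even_mul_succ_self k
  have hμ : ∑ d ∈ D, ∑ y ∈ Dᶜ, N.w d y = 2 * (p - m) := by omega
  have hμ0 : p - m ≠ 0 := by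
    obtain ⟨x, y, hne, hx, hy, hw⟩ := hN v hvO hall
    rw [← hmem] at hx hy
    have h1 : ∑ y ∈ Dᶜ, N.w x y ≤ ∑ d ∈ D, ∑ y ∈ Dᶜ, N.w d y :=
      Finset.single_le_sum (f := fun d => ∑ y ∈ Dᶜ, N.w d y) (fun _ _ => Nat.zero_le _) hx
    have hy' : y ∈ D.erase x := mem_erase.2 ⟨hne.symm, hy⟩
    have h2 : ∑ z ∈ (D.erase x).erase y, N.w x z ≤ ((D.erase x).erase y).card := by
      rw [Finset.card_eq_sum_ones]
      exact Finset.sum_le_sum fun z hz =>
        N.simple x (hD hx) z (hD (mem_of_mem_erase (mem_of_mem_erase hz)))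
    have h3 := hdeg x hx
    rw [← Finset.add_sum_erase _ _ hx, ← Finset.add_sum_erase _ _ hy', N.diag, hw] at h3
    have := card_erase_add_one hy'
    have := card_erase_add_one hx
    omega
  set μ := p - m with hμdef
  set N' := N.contract D v μ hv hμ with hN'
  have hN'K : N'.NoK := by
    intro u hu hall'
    have hu' : u ∈ N.O \ D := hu
    rw [mem_sdiff] at hu'
    have hz : ∀ y ∈ D, N.w u y = 0 := by
      have h1 : N'.w u v = 0 := by
        by_contra hw
        have : v ∈ N.O \ D := hall' v (Nat.pos_of_ne_zero hw)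
        exact (mem_sdiff.1 this).2 hv
      have h2 : N'.w u v = ∑ d ∈ D, N.w u d := by
        show cw N.w D v u v = _
        simp [cw, hu'.2, hv]
      rw [h2] at h1
      exact Finset.sum_eq_zero_iff.1 h1
    have hoff : ∀ a b, a ∉ D → b ∉ D → N'.w a b = N.w a b := fun a b ha hb => by
      show cw N.w D v a b = _
      simp [cw, ha, hb]
    have hnb : ∀ y, (y = u ∨ 0 < N.w u y) → y ∉ D := fun y hy hyD => by
      rcases hy with h | h
      · exact hu'.2 (h ▸ hyD)
      · have := hz y hyD; omega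
    obtain ⟨x, y, hne, hx, hy, hw⟩ := hN u hu'.1 fun y hy => by
      have : y ∈ N.O \ D := hall' y (by rw [hoff u y hu'.2 (hnb y (Or.inr hy))]; exact hy)
      exact (mem_sdiff.1 this).1
    refine ⟨x, y, hne, ?_, ?_, ?_⟩
    · rw [hoff u x hu'.2 (hnb x hx)]; exact hx
    · rw [hoff u y hu'.2 (hnb y hy)]; exact hy
    · rw [hoff x y (hnb x hx) (hnb y hy)]; exact hw
  have hlt : N'.O.card < n := by
    have h1 : N'.O.card + D.card = N.O.card := card_sdiff_add_card_eq_card hD
    omega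
  obtain ⟨s', hs'⟩ := ih _ hlt N' hN'K rfl
  obtain ⟨L, hL, hLc⟩ := exists_subset_card_eq (s := N.Tw v) (n := N.t) (by omega)
  have hLD : ∀ z ∈ L, z ∈ D := fun z hz => (htw z (hL hz) z).1 (Or.inl rfl)
  set s1 : X → Bool := fun x => if x ∈ D then s' v else s' x with hs1
  refine ⟨flip L s1, ?_⟩
  have e1 : Dv N.w s1 = Dv N'.w s' - ∑ x ∈ D, ∑ y ∈ D, (N.w x y : ℤ) := Dv_contract hv s'
  have e2 : ∑ x ∈ L, MP_bb98d0_co.hv N.w s1 x = N.t * (-k) := by
    rw [← hLc, ← nsmul_eq_mul, ← Finset.sum_const]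
    refine Finset.sum_congr rfl fun z hz => ?_
    have h1 := N.degO z (hD (hLD z hz))
    have h2 : (k : ℤ) = ∑ y, (N.w z y : ℤ) := by exact_mod_cast (by omega)
    rw [h2, ← Finset.sum_neg_distrib]
    refine Finset.sum_congr rfl fun y _ => ?_
    by_cases hy : y ∈ D
    · simp [hs1, hy, hLD z hz, sg]
    · rw [hrow z (hLD z hz) (htw z (hL hz)) y, if_neg fun h => hy (mem_of_mem_erase h)]; simp
  have e3 : ∑ x ∈ L, ∑ y ∈ L, (N.w x y : ℤ) * sg (s1 x) (s1 y) = N.t * (1 - N.t) := by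
    nth_rewrite 1 [← hLc]
    rw [← nsmul_eq_mul, ← Finset.sum_const]
    refine Finset.sum_congr rfl fun z hz => ?_
    rw [← Finset.add_sum_erase _ _ hz, N.diag,
      Finset.sum_congr rfl (g := fun _ => (-1 : ℤ)) fun y hy => by
        rw [mem_erase] at hy
        rw [hrow z (hLD z hz) (htw z (hL hz)) y, if_pos (mem_erase.2 ⟨hy.1, hLD y hy.2⟩)]
        simp [hs1, hLD z hz, hLD y hy.2, sg]]
    have h1 : ((L.erase z).card : ℤ) + 1 = N.t := by
      rw [← hLc]; exact_mod_cast card_erase_add_one hz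
    simp only [Finset.sum_const, nsmul_eq_mul]
    push_cast
    linarith
  have e4 : ∑ x ∈ D, ∑ y ∈ D, (N.w x y : ℤ) = (k + 1) * k - 2 * μ := by
    have : ∑ x ∈ D, ∑ y ∈ D, (N.w x y : ℤ) + 2 * μ = (k + 1) * k := by
      rw [hμ] at hsum; exact_mod_cast hsum
    linarith
  have e5 : Dv N.w (flip L s1) = Dv N'.w s' + 2 * N.t + 2 * μ := by
    rw [Dv_flip _ N.symm, e1, e2, e3, e4]
    have h1 : (k : ℤ) = 2 * N.t - N.e := by omega
    have h2 : N.e = 0 ∨ N.e = 1 := by have := N.he; omega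
    rw [h1]
    rcases h2 with h2 | h2 <;> rw [h2] <;> push_cast <;> ring
  have e6 : ∑ x, N.cost x = ∑ x, N'.cost x + 2 * N.t + 2 * μ := by
    rw [← Finset.sum_add_sum_compl D, ← Finset.sum_add_sum_compl D]
    have a1 : ∑ x ∈ Dᶜ, N'.cost x = ∑ x ∈ Dᶜ, N.cost x := by
      refine Finset.sum_congr rfl fun x hx => ?_
      have hx' := mem_compl.1 hx
      have hxv : x ≠ v := fun e => hx' (e ▸ hv)
      simp [Net.cost, hN', Net.contract, hx', hxv]
    have a2 : ∑ x ∈ D, N'.cost x = 8 / 3 - 2 * μ := by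
      rw [Finset.sum_congr rfl (g := fun x => if x = v then (8 / 3 - 2 * μ : ℚ) else 0)]
      · simp [hv]
      · intro x hx
        by_cases e : x = v <;> simp [Net.cost, hN', Net.contract, hx, e, hv, hμ0]
    have a3 : ∑ x ∈ D, N.cost x = 2 * N.t + 8 / 3 := by
      rw [Finset.sum_congr rfl (g := fun _ => (2 * N.t + 8 / 3) / (2 * N.t + 1 - N.e : ℚ))
        fun x hx => by simp [Net.cost, hD hx], Finset.sum_const, nsmul_eq_mul]
      have b1 : (D.card : ℚ) = 2 * N.t + 1 - N.e := by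
        have : (D.card : ℚ) + N.e = 2 * N.t + 1 := by exact_mod_cast hDcard
        linarith
      have b2 : (0 : ℚ) < D.card := by exact_mod_cast (by omega : 0 < D.card)
      rw [← b1]; field_simp
    rw [a1, a2, a3]; ring
  rw [e5, e6]
  push_cast
  linarith

end

end Pool.Agent.Lib.MP_bb98d0_co
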