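import Pool.Agent.Lib.MP_bb98d0_co.Rates

/-!
Structure of cores.
-/

namespace Pool.Agent.Lib.MP_bb98d0_co
open Finset Classical

noncomputable section

variable {X : Type*} [Fintype X]

namespace St

def RR (c : St X) (u0 : X) : Finset X := univ.filter fun u => c.Deep u ∧ c.Nc u = c.Nc u0
def QQ (c : St X) (u0 : X) : Finset X := (c.Nc u0).filter c.T
def oo (c : St X) (q : X) : ℕ := ∑ x ∈ (c.Nc q).filter (fun x => c.W x ∧ c.Out x q), c.w q x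
def Inq (c : St X) (u0 q : X) : Finset X :=
  (c.Nc q).filter fun x => x ∉ c.RR u0 ∧ ¬ (c.W x ∧ c.Out x q)
def Inn (c : St X) (u0 : X) : Finset X := (c.Ns u0).filter fun x => x ∈ c.O ∧ x ∉ c.RR u0
def YY (c : St X) (u0 : X) : Finset X :=
  univ.filter fun y => c.T y ∧ y ∉ c.RR u0 ∧ ∃ q ∈ c.QQ u0, c.C q y
def contr (c : St X) (q : X) : ℚ := if c.Deep q then 0 else c.val q - 1

variable {c : St X} {u0 : X}

lemma mem_RR {u : X} : u ∈ c.RR u0 ↔ c.Deep u ∧ c.Nc u = c.Nc u0 := by simp [RR]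
lemma mem_QQ {q : X} : q ∈ c.QQ u0 ↔ c.C u0 q ∧ c.T q := by simp [QQ]
lemma mem_Inq {q x : X} :
    x ∈ c.Inq u0 q ↔ c.C q x ∧ x ∉ c.RR u0 ∧ ¬ (c.W x ∧ c.Out x q) := by
  simp only [Inq, mem_filter, mem_Nc]
lemma mem_Inn {x : X} : x ∈ c.Inn u0 ↔ c.S u0 x ∧ x ∈ c.O ∧ x ∉ c.RR u0 := by
  simp only [Inn, mem_filter, mem_Ns]
lemma mem_YY {y : X} : y ∈ c.YY u0 ↔ c.T y ∧ y ∉ c.RR u0 ∧ ∃ q ∈ c.QQ u0, c.C q y := by
  simp only [YY, mem_filter, mem_univ, true_and]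

lemma self_RR (h0 : c.Deep u0) : u0 ∈ c.RR u0 := mem_RR.2 ⟨h0, rfl⟩

lemma RR_T {u : X} (hu : u ∈ c.RR u0) : c.T u := (mem_RR.1 hu).1.1

lemma RR_C {u q : X} (hu : u ∈ c.RR u0) (hq : c.C u0 q) : c.C q u := by
  have := mem_Nc.2 hq
  rw [← (mem_RR.1 hu).2] at this
  exact (mem_Nc.1 this).symm

lemma D_RR (h0 : c.Deep u0) {q : X} (hq : c.C u0 q) : c.D q = c.RR u0 := by
  ext y; rw [D_eq h0.2.1 (mem_Nc.2 hq), mem_RR]

lemma RR_of_full (h0 : c.Deep u0) {y : X} (hy : c.T y) (e : c.Nc y = c.Nc u0) : y ∈ c.RR u0 :=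
  mem_RR.2 ⟨⟨hy, e ▸ h0.2.1, e ▸ h0.2.2⟩, e⟩

lemma Opt2.QQ_card (h : c.Opt2) (h0 : c.Deep u0) :
    (c.QQ u0).card + ((c.Nc u0).filter c.H).card = c.t := by
  rw [← h0.2.1.1, ← Finset.card_filter_add_card_filter_not (s := c.Nc u0) c.T]
  congr 2
  ext x
  rw [mem_filter, mem_filter]
  exact and_congr_right fun hx =>
    ⟨fun hH hT => hT.not_H hH, fun hT => (h.comp_T_or_H h0.2.1 hx).resolve_left hT⟩

lemma Opt2.QQ_ex (h : c.Opt2) (h0 : c.Deep u0) : ∃ q, q ∈ c.QQ u0 := by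
  have := h.QQ_card h0; have := h0.2.2; have := c.ht
  exact card_pos.1 (by omega)

lemma Opt2.RR_clique (h : c.Opt2) (h0 : c.Deep u0) :
    ∀ u ∈ c.RR u0, ∀ v ∈ c.RR u0, u ≠ v → c.S u v := by
  obtain ⟨q, hq⟩ := h.QQ_ex h0
  rw [mem_QQ] at hq
  intro u hu v hv hne
  exact h.F1 hq.2.1 hq.2.2.2.2 (RR_T hu).low (RR_T hv).low (RR_C hu hq.1) (RR_C hv hq.1) hne

lemma Opt2.Inn_card (h : c.Opt2) (h0 : c.Deep u0) :
    (c.Inn u0).card + (c.RR u0).card ≤ c.t := by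
  have h1 : c.Inn u0 ∪ (c.RR u0).erase u0 ⊆ c.Ns u0 := by
    intro x hx
    rcases mem_union.1 hx with hx | hx
    · exact mem_Ns.2 (mem_Inn.1 hx).1
    · rw [mem_erase] at hx
      exact mem_Ns.2 (h.RR_clique h0 u0 (self_RR h0) x hx.2 hx.1.symm)
  have h2 := card_le_sm h1
  rw [card_union_of_disjoint (Finset.disjoint_left.2 fun x hx hx' =>
    (mem_Inn.1 hx).2.2 (mem_of_mem_erase hx')), card_erase_of_mem (self_RR h0)] at h2
  have := h0.1.2.2.2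
  have := card_pos.2 ⟨u0, self_RR h0⟩
  omega

lemma Opt2.inside (h : c.Opt2) (h0 : c.Deep u0) {q x : X} (hq : q ∈ c.QQ u0)
    (hx : x ∈ c.Inq u0 q) : x ∈ c.O ∧ ∀ u ∈ c.RR u0, c.S u x := by
  rw [mem_QQ] at hq
  obtain ⟨h1, h2, h3⟩ := mem_Inq.1 hx
  have hne : ∀ u ∈ c.RR u0, x ≠ u := fun u hu e => h2 (e ▸ hu)
  rcases h.low_or_pay h1 with hl | hp
  · exact ⟨h.low_ord hq.2 hl h0.1.low h1 hq.1.symm (hne _ (self_RR h0)), fun u hu =>
      (h.F1 hq.2.1 hq.2.2.2.2 hl (RR_T hu).low h1 (RR_C hu hq.1) (hne u hu)).symm⟩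
  · by_cases hH : c.H x
    · exact ⟨hH.1, fun u hu => (h.Hadj hH hq.2 (RR_T hu) h1 (RR_C hu hq.1)).symm⟩
    · have h4 : ¬ c.Out x q := fun ho => h3 ⟨⟨hp, hH⟩, ho⟩
      unfold Out at h4
      push Not at h4
      rw [D_RR h0 hq.1] at h4
      exact ⟨(h4 u0 (self_RR h0)).1, fun u hu => (h1.toS (RR_C hu hq.1) (h4 u hu).2).symm⟩

lemma Opt2.Inq_sub (h : c.Opt2) (h0 : c.Deep u0) {q : X} (hq : q ∈ c.QQ u0) :
    c.Inq u0 q ⊆ c.Inn u0 := fun _ hx =>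
  mem_Inn.2 ⟨(h.inside h0 hq hx).2 u0 (self_RR h0), (h.inside h0 hq hx).1, (mem_Inq.1 hx).2.1⟩

lemma Nc_split {q : X} (hq : q ∈ c.QQ u0) {M : Type*} [AddCommMonoid M] (f : X → M) :
    ∑ x ∈ c.Nc q, f x = ∑ x ∈ c.RR u0, f x + ∑ x ∈ c.Inq u0 q, f x
      + ∑ x ∈ (c.Nc q).filter (fun x => c.W x ∧ c.Out x q), f x := by
  rw [mem_QQ] at hq
  rw [← Finset.sum_filter_add_sum_filter_not (c.Nc q) (fun x => c.W x ∧ c.Out x q), add_comm]
  congr 1
  rw [← Finset.sum_filter_add_sum_filter_not _ (fun x => x ∈ c.RR u0)]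
  congr 2
  · ext x
    simp only [mem_filter, mem_Nc]
    exact ⟨fun hh => hh.2, fun hh => ⟨⟨RR_C hh hq.1, fun hW => (RR_T hh).not_W hW.1⟩, hh⟩⟩
  · ext x
    simp only [mem_filter, mem_Nc, mem_Inq]
    tauto

lemma Opt2.split (h : c.Opt2) (h0 : c.Deep u0) {q : X} (hq : q ∈ c.QQ u0) :
    (c.RR u0).card + (c.Inq u0 q).card + c.oo q = c.t := by
  have h1 := Nc_split hq (fun x => c.w q x)
  have hq' := mem_QQ.1 hq
  have h2 : ∑ x ∈ c.RR u0, c.w q x = (c.RR u0).card := by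
    rw [Finset.card_eq_sum_ones]
    exact Finset.sum_congr rfl fun x hx => w_one hq'.2.1 (RR_T hx).1 (RR_C hx hq'.1).pos
  have h3 : ∑ x ∈ c.Inq u0 q, c.w q x = (c.Inq u0 q).card := by
    rw [Finset.card_eq_sum_ones]
    exact Finset.sum_congr rfl fun x hx =>
      w_one hq'.2.1 (h.inside h0 hq hx).1 (mem_Inq.1 hx).1.pos
  rw [h2, h3] at h1
  rw [← hq'.2.2.2.1]
  exact h1.symm

lemma val_split {q : X} (hq : q ∈ c.QQ u0) {ρ : ℚ}
    (hρ : ∀ x, c.W x → c.Out x q → ρ ≤ c.rW x q) :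
    ρ * c.oo q + ∑ x ∈ c.Inq u0 q, c.rate x q ≤ c.val q := by
  have hq' := mem_QQ.1 hq
  unfold val
  rw [Nc_split hq]
  have h1 : 0 ≤ ∑ x ∈ c.RR u0, (c.w q x : ℚ) * c.rate x q :=
    Finset.sum_nonneg fun x _ => mul_nonneg (Nat.cast_nonneg _) (rate_nonneg x q)
  have h2 : ∑ x ∈ c.Inq u0 q, c.rate x q ≤ ∑ x ∈ c.Inq u0 q, (c.w q x : ℚ) * c.rate x q := by
    refine Finset.sum_le_sum fun x hx => ?_
    have h1 : (1 : ℚ) ≤ c.w q x := by exact_mod_cast (mem_Inq.1 hx).1.pos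
    have := rate_nonneg (c := c) x q
    nlinarith
  have h3 : ρ * c.oo q ≤ ∑ x ∈ (c.Nc q).filter (fun x => c.W x ∧ c.Out x q),
      (c.w q x : ℚ) * c.rate x q := by
    unfold oo
    push_cast
    rw [Finset.mul_sum]
    refine Finset.sum_le_sum fun x hx => ?_
    rw [mem_filter] at hx
    rw [rate_W hq'.2 hx.2.1, mul_comm]
    exact mul_le_mul_of_nonneg_left (hρ x hx.2.1 hx.2.2) (Nat.cast_nonneg _)
  linarith

lemma oo_zero {q : X} : c.oo q = 0 ↔ ∀ x, c.C q x → ¬ (c.W x ∧ c.Out x q) := by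
  unfold oo
  rw [Finset.sum_eq_zero_iff]
  constructor
  · intro h x hx hW
    have := h x (by simp [hx, hW])
    have := hx.pos
    omega
  · intro h x hx
    rw [mem_filter, mem_Nc] at hx
    exact absurd hx.2 (h x hx.1)

lemma Opt2.twin_Nc (h : c.Opt2) (h0 : c.Deep u0) {q u : X} (hq : q ∈ c.QQ u0) (ho : c.oo q = 0)
    (hu : u ∈ c.RR u0) : c.Nc q = insert u (c.Ns u) := by
  have hq' := mem_QQ.1 hq
  have h1 := h.split h0 hq
  have h2 : c.RR u0 ∪ c.Inq u0 q ⊆ insert u (c.Ns u) := by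
    intro x hx
    rcases mem_union.1 hx with hx | hx
    · by_cases e : x = u
      · rw [e]; exact mem_insert_self _ _
      · exact mem_insert_of_mem (mem_Ns.2 (h.RR_clique h0 u hu x hx (Ne.symm e)))
    · exact mem_insert_of_mem (mem_Ns.2 ((h.inside h0 hq hx).2 u hu))
  have h3 : (c.RR u0 ∪ c.Inq u0 q).card = c.t := by
    rw [card_union_of_disjoint (Finset.disjoint_left.2 fun x hx hx' => (mem_Inq.1 hx').2.1 hx)]
    omega
  have h4 : (insert u (c.Ns u)).card ≤ c.t := by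
    have := card_insert_le u (c.Ns u)
    have := card_le_sm (c := c) (x := u) (Finset.Subset.refl _)
    have := (RR_T hu).2.2.2
    omega
  rw [← eq_of_subset_of_card_le h2 (by omega)]
  refine Nc_eq ?_ (by rw [h3, hq'.2.2.2.1])
  intro x hx
  rcases mem_union.1 hx with hx | hx
  exacts [mem_Nc.2 (RR_C hx hq'.1), mem_Nc.2 (mem_Inq.1 hx).1]

lemma Opt2.twin_O (h : c.Opt2) (h0 : c.Deep u0) {q : X} (hq : q ∈ c.QQ u0) (ho : c.oo q = 0) :
    c.Nc q ⊆ c.O := by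
  intro x hx
  by_cases hR : x ∈ c.RR u0
  · exact (RR_T hR).1
  · exact (h.inside h0 hq (mem_Inq.2 ⟨mem_Nc.1 hx, hR, oo_zero.1 ho x (mem_Nc.1 hx)⟩)).1

lemma Good.twin_card (G : c.Good) (h0 : c.Deep u0) {A : Finset X} (hA : ∀ q ∈ A, q ∈ c.QQ u0 ∧
    c.oo q = 0) (hne : A.Nonempty) : A.card + (c.RR u0).card + 1 ≤ c.t := by
  obtain ⟨q0, hq0⟩ := hne
  have h := G.opt
  have hL := h.twin_Nc h0 (hA q0 hq0).1 (hA q0 hq0).2 (self_RR h0)
  refine G.TW (K := c.Nc u0) (L := insert u0 (c.Ns u0)) (fun z hz => ?_) (fun z hz => ?_)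
    (fun x hx => (h0.2.1.2 x hx).1) ?_ hq0 (mem_insert_self _ _) h0.1
  · have hz' := mem_QQ.1 (hA z hz).1
    exact ⟨hz'.2, (h0.2.1.eq_insert (mem_Nc.2 hz'.1)).symm,
      h.twin_Nc h0 (hA z hz).1 (hA z hz).2 (self_RR h0)⟩
  · exact ⟨RR_T hz, by rw [← hL, h.twin_Nc h0 (hA q0 hq0).1 (hA q0 hq0).2 hz], (mem_RR.1 hz).2⟩
  · rw [← hL]; exact h.twin_O h0 (hA q0 hq0).1 (hA q0 hq0).2

lemma Good.RR_le (G : c.Good) (h0 : c.Deep u0) : (c.RR u0).card + 1 ≤ c.t := by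
  by_contra hn
  obtain ⟨q, hq⟩ := G.opt.QQ_ex h0
  have h1 := G.opt.split h0 hq
  have := G.twin_card h0 (A := {q}) (by simp [hq]; omega) (by simp)
  omega

lemma card_Nc_ord {x : X} (hx : x ∈ c.O) (h : c.Nc x ⊆ c.O) : (c.Nc x).card = c.cr x := by
  unfold cr
  rw [Finset.card_eq_sum_ones]
  exact Finset.sum_congr rfl fun y hy => (w_one hx (h hy) (mem_Nc.1 hy).pos).symm

lemma Good.bigy (G : c.Good) {K : Finset X} (hK : c.Comp K) {q y q2 : X} (hq : q ∈ K)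
    (hqT : c.T q) (hy : c.T y) (hc : c.C q y) (hq2 : q2 ∈ K) (hne : q2 ≠ q) (hc2 : c.C y q2)
    (hn : c.Nc y ≠ K) : c.New q y ∧ ∀ L, c.Comp L → y ∉ L := by
  have hno : ¬ c.New y q := by
    intro hN
    apply hn
    have h1 : c.Nc y ⊆ K := by
      intro x hx
      rw [mem_Nc] at hx
      by_cases e : x = q
      · rw [e]; exact hq
      by_cases e2 : q2 = x
      · rw [← e2]; exact hq2
      exact hK.mem_of_S hq2 (hc2.toS hx ((hN q2 hc2 hne).2.2 x hx e e2))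
    refine eq_of_subset_of_card_le h1 ?_
    rw [card_Nc_ord hy.1 (fun x hx => (hK.2 x (h1 hx)).1), hK.1, hy.2.2.1]
  exact ⟨(G.kap1 q y K hqT hy hc hK hq).resolve_right hno,
    fun L hL hyL => hno (G.kap2 y q L K hy hqT hc.symm hL hyL hK hq)⟩

lemma Good.big_core (G : c.Good) (h0 : c.Deep u0) {q y q2 : X} (hq : q ∈ c.QQ u0)
    (hy : c.T y) (hyR : y ∉ c.RR u0) (hc : c.C q y) (hq2 : c.C u0 q2) (hne : q2 ≠ q)
    (hc2 : c.C y q2) : c.New q y ∧ (∀ L, c.Comp L → y ∉ L) ∧ c.oo q = 0 := by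
  have hq' := mem_QQ.1 hq
  obtain ⟨h1, h2⟩ := G.bigy h0.2.1 (mem_Nc.2 hq'.1) hq'.2 hy hc (mem_Nc.2 hq2) hne hc2
    (fun e => hyR (RR_of_full h0 hy e))
  refine ⟨h1, h2, oo_zero.2 fun x hx hW => ?_⟩
  obtain ⟨u, hu, hn⟩ := hW.2
  rw [D_RR h0 hq'.1] at hu
  have hxy : x ≠ y := fun e => hy.not_W (e ▸ hW.1)
  refine hn ⟨(h1 x hx hxy).1, (h1 x hx hxy).2.2 u (RR_C hu hq'.1) (fun e => hyR (e ▸ hu)) ?_⟩
  exact fun e => (RR_T hu).not_W (e ▸ hW.1)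

lemma YY_Inq {q y : X} (hy : y ∈ c.YY u0) (hc : c.C q y) : y ∈ c.Inq u0 q :=
  mem_Inq.2 ⟨hc, (mem_YY.1 hy).2.1, fun hW => (mem_YY.1 hy).1.not_W hW.1⟩

lemma Opt2.YY_sub (h : c.Opt2) (h0 : c.Deep u0) : c.YY u0 ⊆ c.Inn u0 := by
  intro y hy
  obtain ⟨q, hq, hc⟩ := (mem_YY.1 hy).2.2
  exact h.Inq_sub h0 hq (YY_Inq hy hc)

lemma Opt2.twin_Inn (h : c.Opt2) (h0 : c.Deep u0) {q x : X} (hq : q ∈ c.QQ u0) (ho : c.oo q = 0)
    (hx : x ∈ c.Inn u0) : c.C q x := by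
  rw [← mem_Nc, h.twin_Nc h0 hq ho (self_RR h0)]
  exact mem_insert_of_mem (mem_Ns.2 (mem_Inn.1 hx).1)

lemma Good.YY_one (G : c.Good) (h0 : c.Deep u0) (h2 : 2 ≤ (c.YY u0).card) {y : X}
    (hy : y ∈ c.YY u0) : ((c.QQ u0).filter fun q => c.C q y).card ≤ 1 := by
  have h := G.opt
  rw [card_le_one]
  intro q hq q2 hq2
  by_contra hne
  rw [mem_filter] at hq hq2
  obtain ⟨hyT, hyR, -⟩ := mem_YY.1 hy
  obtain ⟨n1, n2, n3⟩ := G.big_core h0 hq.1 hyT hyR hq.2 (mem_QQ.1 hq2.1).1 (Ne.symm hne)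
    hq2.2.symm
  obtain ⟨-, -, n4⟩ := G.big_core h0 hq2.1 hyT hyR hq2.2 (mem_QQ.1 hq.1).1 hne hq.2.symm
  obtain ⟨y', hy', hyy⟩ := exists_mem_ne (s := c.YY u0) (by omega) y
  obtain ⟨hyT', hyR', -⟩ := mem_YY.1 hy'
  have c1 := h.twin_Inn h0 hq.1 n3 (h.YY_sub h0 hy')
  have c2 := h.twin_Inn h0 hq2.1 n4 (h.YY_sub h0 hy')
  obtain ⟨m1, -, -⟩ := G.big_core h0 hq.1 hyT' hyR' c1 (mem_QQ.1 hq2.1).1 (Ne.symm hne) c2.symm
  have hqT := (mem_QQ.1 hq.1).2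
  have hO := h.twin_O h0 hq.1 n3
  refine n2 (c.Nc q) (h.comp_of_clique (by rw [card_Nc_ord hqT.1 hO, hqT.2.2.1])
    (fun x hx => hO hx) (fun x hx => (mem_Nc.1 hx).r) ?_) (mem_Nc.2 hq.2)
  intro x hx x' hx' hxx
  rw [mem_Nc] at hx hx'
  by_cases e1 : x ≠ y ∧ x' ≠ y
  · exact hx.toS hx' ((n1 x hx e1.1).2.2 x' hx' e1.2 hxx)
  by_cases e2 : x ≠ y' ∧ x' ≠ y'
  · exact hx.toS hx' ((m1 x hx e2.1).2.2 x' hx' e2.2 hxx)
  have hT : c.T x ∧ c.T x' := by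
    by_cases a1 : x = y
    · by_cases a2 : x' = y'
      · rw [a1, a2]; exact ⟨hyT, hyT'⟩
      · exact absurd ⟨by rw [a1]; exact hyy.symm, a2⟩ e2
    · have a2 : x' = y := by tauto
      by_cases a3 : x = y'
      · rw [a2, a3]; exact ⟨hyT', hyT⟩
      · exact absurd ⟨a3, by rw [a2]; exact hyy.symm⟩ e2
  exact h.F1 hqT.1 hqT.2.2.2 hT.1.low hT.2.low hx hx' hxx

lemma Good.sum_oo (G : c.Good) (h0 : c.Deep u0) (h2 : 2 ≤ (c.YY u0).card) :
    (c.QQ u0).card * (c.YY u0).card ≤ ∑ q ∈ c.QQ u0, c.oo q + (c.YY u0).card := by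
  have h := G.opt
  have h1 : ∀ q ∈ c.QQ u0, (c.YY u0).card ≤ c.oo q + ((c.YY u0).filter fun y => c.C q y).card := by
    intro q hq
    have a1 := h.split h0 hq
    have a2 := h.Inn_card h0
    have a3 : c.Inq u0 q ⊆ (c.Inn u0 \ c.YY u0) ∪ (c.YY u0).filter fun y => c.C q y := by
      intro x hx
      by_cases hY : x ∈ c.YY u0
      · exact mem_union_right _ (mem_filter.2 ⟨hY, (mem_Inq.1 hx).1⟩)
      · exact mem_union_left _ (mem_sdiff.2 ⟨h.Inq_sub h0 hq hx, hY⟩)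
    have a4 := (card_le_card a3).trans (card_union_le _ _)
    have a5 := card_sdiff_add_card_eq_card (h.YY_sub h0)
    omega
  have h3 : ∑ q ∈ c.QQ u0, ((c.YY u0).filter fun y => c.C q y).card ≤ (c.YY u0).card := by
    have : ∑ q ∈ c.QQ u0, ((c.YY u0).filter fun y => c.C q y).card
        = ∑ y ∈ c.YY u0, ((c.QQ u0).filter fun q => c.C q y).card := by
      simp only [card_filter]
      exact Finset.sum_comm
    rw [this, Finset.card_eq_sum_ones (c.YY u0)]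
    exact Finset.sum_le_sum fun y hy => G.YY_one h0 h2 hy
  have h4 := Finset.sum_le_sum h1
  rw [Finset.sum_const, smul_eq_mul, Finset.sum_add_distrib] at h4
  omega

lemma Opt2.deep_oo (h : c.Opt2) {q : X} (hq : c.Deep q) : c.oo q = 0 :=
  oo_zero.2 fun _ hx hW => by
    rcases h.comp_T_or_H hq.2.1 (mem_Nc.2 hx) with h1 | h1
    exacts [h1.not_W hW.1, hW.1.2 h1]

lemma Opt2.contr_ge (h : c.Opt2) {q : X} (hq : q ∈ c.QQ u0) :
    rb c.t * c.oo q - 1 ≤ c.contr q := by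
  unfold contr
  split_ifs with hd
  · rw [h.deep_oo hd]; simp
  · have h1 := val_split hq (ρ := rb c.t) (fun x _ ho => rW_out ho)
    have h2 : 0 ≤ ∑ x ∈ c.Inq u0 q, c.rate x q := Finset.sum_nonneg fun x _ => rate_nonneg x q
    linarith

lemma sum_RR_ge {x : X} (hx : c.C u0 x) (hH : c.H x) :
    ((c.RR u0).card : ℚ) * (bH c.t / c.nT x - 1) ≤ ∑ u ∈ c.RR u0, (c.val u - 1) := by
  rw [← nsmul_eq_mul, ← Finset.sum_const]
  refine Finset.sum_le_sum fun u hu => ?_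
  have := val_ge1 (RR_C hu hx).symm
  rw [rate_H (RR_T hu) hH] at this
  linarith

lemma sum_RR_ge0 : -((c.RR u0).card : ℚ) ≤ ∑ u ∈ c.RR u0, (c.val u - 1) := by
  have : ((c.RR u0).card : ℚ) * (-1) ≤ ∑ u ∈ c.RR u0, (c.val u - 1) := by
    rw [← nsmul_eq_mul, ← Finset.sum_const]
    exact Finset.sum_le_sum fun u _ => by linarith [val_nonneg (c := c) u]
  linarith

lemma Opt2.half_cases (h : c.Opt2) (h0 : c.Deep u0) :
    ((c.QQ u0).card = c.t ∧ ∀ x, c.C u0 x → c.T x) ∨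
      ((c.QQ u0).card + 1 = c.t ∧ ∃ x, c.C u0 x ∧ c.H x) := by
  have h1 := h.QQ_card h0
  have h2 := h0.2.2
  by_cases h3 : ((c.Nc u0).filter c.H).card = 0
  · left
    refine ⟨by omega, fun x hx => (h.comp_T_or_H h0.2.1 (mem_Nc.2 hx)).resolve_right fun hH => ?_⟩
    rw [card_eq_zero] at h3
    have : x ∈ (c.Nc u0).filter c.H := by simp [hx, hH]
    rw [h3] at this
    exact absurd this (by simp)
  · right
    obtain ⟨x, hx⟩ := card_pos.1 (Nat.pos_of_ne_zero h3)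
    exact ⟨by omega, x, by simpa using hx⟩

lemma Opt2.nT_comp (h : c.Opt2) {x : X} (hx : c.H x) (hn : c.nT x = c.t) :
    c.Comp ((c.Nc x).filter c.T) :=
  h.comp_of_clique hn (fun _ hy => (mem_filter.1 hy).2.1) (fun _ hy => (mem_filter.1 hy).2.2.1)
    (h.nT_clique hx)

/-- the core inequality when there are at least two extra tight neighbours -/
lemma Good.core_big (G : c.Good) (h0 : c.Deep u0) (h2 : 2 ≤ (c.YY u0).card) :
    0 ≤ ∑ q ∈ c.QQ u0, c.contr q + ∑ u ∈ c.RR u0, (c.val u - 1) := by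
  have h := G.opt
  have ht := c.ht
  have a1 := G.sum_oo h0 h2
  have a2 : rb c.t * (∑ q ∈ c.QQ u0, c.oo q : ℕ) - (c.QQ u0).card ≤ ∑ q ∈ c.QQ u0, c.contr q := by
    have := Finset.sum_le_sum fun q (hq : q ∈ c.QQ u0) => h.contr_ge hq
    rw [Finset.sum_sub_distrib, ← Finset.mul_sum] at this
    simpa using this
  have a3 : (c.YY u0).card + (c.RR u0).card ≤ c.t := by
    have := card_le_card (h.YY_sub h0); have := h.Inn_card h0; omega
  set y : ℕ := (c.YY u0).card with hy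
  set r : ℕ := (c.RR u0).card with hr
  set o : ℕ := ∑ q ∈ c.QQ u0, c.oo q with ho
  have b1 : ((c.QQ u0).card : ℚ) * y ≤ o + y := by exact_mod_cast a1
  have b2 : (y : ℚ) + r ≤ c.t := by exact_mod_cast a3
  have b3 : (2 : ℚ) ≤ y := by exact_mod_cast h2
  have b4 : (3 : ℚ) ≤ c.t := by exact_mod_cast ht
  have b5 := rb_ge ht
  have b6 := t_rb ht
  have b7 : rb c.t ≤ 3 / 2 := by have := inv_pos' ht; unfold rb; linarith
  have b8 : (0 : ℚ) ≤ r := Nat.cast_nonneg _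
  rcases h.half_cases h0 with ⟨e1, -⟩ | ⟨e1, x, hx, hH⟩
  · have := sum_RR_ge0 (c := c) (u0 := u0)
    rw [e1] at a2 b1
    have c1 : rb c.t * ((c.t - 1) * y) ≤ rb c.t * o :=
      mul_le_mul_of_nonneg_left (by linarith) (by linarith)
    have c2 : rb c.t * ((c.t - 1) * y) = (3 * c.t / 2 - 1 - rb c.t) * y := by
      rw [← b6]; ring
    nlinarith
  · have a4 := sum_RR_ge hx hH
    have e2 : ((c.QQ u0).card : ℚ) = c.t - 1 := by
      have : ((c.QQ u0).card : ℚ) + 1 = c.t := by exact_mod_cast e1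
      linarith
    rw [e2] at a2 b1
    have c1 : rb c.t * ((c.t - 2) * y) ≤ rb c.t * o :=
      mul_le_mul_of_nonneg_left (by linarith) (by linarith)
    have c2 : rb c.t * ((c.t - 2) * y) = (3 * c.t / 2 - 1 - 2 * rb c.t) * y := by
      rw [← b6]; ring
    have hpos := nT_pos h0.1 hx
    have hle := h.nT_le hH h0.1 hx
    by_cases ht4 : 4 ≤ c.t
    · have b9 : (4 : ℚ) ≤ c.t := by exact_mod_cast ht4
      have c3 : 1 / 2 ≤ bH c.t / c.nT x :=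
        (h0_ge ht).trans (div_anti ht hpos (by exact_mod_cast hle))
      have c4 : (r : ℚ) * (1 / 2 - 1) ≤ r * (bH c.t / c.nT x - 1) :=
        mul_le_mul_of_nonneg_left (by linarith) b8
      nlinarith
    · have ht3 : c.t = 3 := by omega
      have hn : c.nT x ≠ c.t := by
        intro hn
        have hA := h.nT_comp hH hn
        obtain ⟨y0, hy0⟩ := card_pos.1 (by omega : 0 < (c.YY u0).card)
        obtain ⟨hT, hR, q, hq, hc⟩ := mem_YY.1 hy0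
        have hm : y0 ∈ (c.Nc x).filter c.T :=
          hA.mem_of_S (x := u0) (by simp [hx.symm, h0.1]) (mem_Inn.1 (h.YY_sub h0 hy0)).1
        exact (G.big_core h0 hq hT hR hc hx (fun e => (mem_QQ.1 hq).2.not_H (e ▸ hH))
          (mem_Nc.1 (mem_filter.1 hm).1).symm).2.1 _ hA hm
      have c3 := div_anti ht (m := 2) hpos (by exact_mod_cast (by omega : c.nT x ≤ 2))
      have hr1 : 0 < r := card_pos.2 ⟨u0, self_RR h0⟩
      have hr2 : (r : ℚ) = 1 := by exact_mod_cast (by omega : r = 1)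
      have hy2 : (y : ℚ) = 2 := by exact_mod_cast (by omega : y = 2)
      rw [← hr, hr2] at a4
      rw [hy2] at c1
      rw [ht3] at c3 a4 c1 a2
      rw [bH3] at c3 a4
      rw [rb3] at c1 a2
      norm_num at c1 a2 c3 a4 ⊢
      linarith

end St

end

end Pool.Agent.Lib.MP_bb98d0_co
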