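import Pool.Agent.Lib.MP_bb98d0_co.Core1

/-!
The core inequality.
-/

namespace Pool.Agent.Lib.MP_bb98d0_co
open Finset Classical

noncomputable section

variable {X : Type*} [Fintype X]

namespace St

def NN (c : St X) (u0 : X) : Finset X :=
  (c.QQ u0).filter fun q => 1 ≤ c.oo q ∧ ∀ y ∈ c.YY u0, ¬ c.C q y
def ZZ (c : St X) (u0 : X) : Finset X :=
  (c.QQ u0).filter fun q => ¬ (1 ≤ c.oo q ∧ ∀ y ∈ c.YY u0, ¬ c.C q y)

variable {c : St X} {u0 : X}

lemma mem_NN {q : X} :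
    q ∈ c.NN u0 ↔ q ∈ c.QQ u0 ∧ 1 ≤ c.oo q ∧ ∀ y ∈ c.YY u0, ¬ c.C q y := mem_filter
lemma mem_ZZ {q : X} :
    q ∈ c.ZZ u0 ↔ q ∈ c.QQ u0 ∧ ¬ (1 ≤ c.oo q ∧ ∀ y ∈ c.YY u0, ¬ c.C q y) := mem_filter

lemma NZ_card : (c.NN u0).card + (c.ZZ u0).card = (c.QQ u0).card :=
  Finset.card_filter_add_card_filter_not _

lemma NZ_sum (f : X → ℚ) : ∑ q ∈ c.QQ u0, f q = ∑ q ∈ c.NN u0, f q + ∑ q ∈ c.ZZ u0, f q :=
  (Finset.sum_filter_add_sum_filter_not _ _ _).symm

lemma Good.ZZ_card (G : c.Good) (h0 : c.Deep u0) (h1 : (c.YY u0).card ≤ 1) :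
    (c.ZZ u0).card + (c.RR u0).card + 1 ≤ c.t := by
  have h := G.opt
  by_cases hall : ∀ q ∈ c.ZZ u0, c.oo q = 0
  · rcases (c.ZZ u0).eq_empty_or_nonempty with e | e
    · rw [e]; simpa using G.RR_le h0
    · exact G.twin_card h0 (fun q hq => ⟨(mem_ZZ.1 hq).1, hall q hq⟩) e
  push Not at hall
  obtain ⟨q0, hq0, ho⟩ := hall
  obtain ⟨hQ, hn⟩ := mem_ZZ.1 hq0
  have : ∃ y ∈ c.YY u0, c.C q0 y := by
    by_contra hh
    push Not at hh
    exact hn ⟨by omega, hh⟩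
  obtain ⟨y, hy, hc⟩ := this
  obtain ⟨hyT, hyR, -⟩ := mem_YY.1 hy
  have huniq : ∀ q, q ∈ c.QQ u0 → c.C q y → q = q0 := by
    intro q hq hc'
    by_contra hne
    exact ho (G.big_core h0 hQ hyT hyR hc (mem_QQ.1 hq).1 hne hc'.symm).2.2
  have hsub : c.ZZ u0 ⊆ {q0} := by
    intro q hq
    obtain ⟨hQ', hn'⟩ := mem_ZZ.1 hq
    rw [mem_singleton]
    by_cases ho' : c.oo q = 0
    · exact huniq q hQ' (h.twin_Inn h0 hQ' ho' (h.YY_sub h0 hy))
    · have : ∃ y ∈ c.YY u0, c.C q y := by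
        by_contra hh
        push Not at hh
        exact hn' ⟨by omega, hh⟩
      obtain ⟨y', hy', hc'⟩ := this
      rw [card_le_one.1 h1 y' hy' y hy] at hc'
      exact huniq q hQ' hc'
  have a1 := card_le_card hsub
  have a2 := h.split h0 hQ
  have a3 := card_pos.2 ⟨y, YY_Inq hy hc⟩
  rw [card_singleton] at a1
  omega

lemma Opt2.NN_inq (h : c.Opt2) (h0 : c.Deep u0) {q x : X} (hq : q ∈ c.NN u0)
    (hx : x ∈ c.Inq u0 q) : c.V x ∨ c.Pay x := by
  obtain ⟨hQ, -, hn⟩ := mem_NN.1 hq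
  obtain ⟨h1, h2, -⟩ := mem_Inq.1 hx
  rcases h.low_or_pay h1 with hl | hp
  · rcases h.T_or_V hl (h.inside h0 hQ hx).1 with hT | hV
    · exact absurd h1 (hn x (mem_YY.2 ⟨hT, h2, q, hQ, h1⟩))
    · exact Or.inl hV
  · exact Or.inr hp

lemma Opt2.NN_contr (h : c.Opt2) {q : X} (ho : 1 ≤ c.oo q) : c.contr q = c.val q - 1 := by
  unfold contr
  rw [if_neg fun hd => by have := h.deep_oo hd; omega]

lemma Opt2.NN_val (h : c.Opt2) (h0 : c.Deep u0) {q : X} (hq : q ∈ c.NN u0) {ρ β : ℚ}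
    (hρ : ∀ x, c.W x → c.Out x q → ρ ≤ c.rW x q) (hβ : ∀ x ∈ c.Inq u0 q, β ≤ c.rate x q)
    (hβρ : β ≤ ρ) {d : ℕ} (hd : d + (c.RR u0).card + 1 = c.t) :
    ρ - 1 + β * d ≤ c.contr q := by
  obtain ⟨hQ, ho, -⟩ := mem_NN.1 hq
  rw [h.NN_contr ho]
  have a1 := val_split hQ hρ
  have a2 : ((c.Inq u0 q).card : ℚ) * β ≤ ∑ x ∈ c.Inq u0 q, c.rate x q := by
    rw [← nsmul_eq_mul, ← Finset.sum_const]
    exact Finset.sum_le_sum hβ
  have a3 := h.split h0 hQ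
  have a4 : (d : ℚ) + 1 = (c.Inq u0 q).card + c.oo q := by exact_mod_cast (by omega)
  have a5 : (1 : ℚ) ≤ c.oo q := by exact_mod_cast ho
  have a6 : (d : ℚ) = (c.Inq u0 q).card + c.oo q - 1 := by linarith
  rw [a6]
  nlinarith

lemma Opt2.NN_bb (h : c.Opt2) (h0 : c.Deep u0) {q : X} (hq : q ∈ c.NN u0) :
    ∀ x ∈ c.Inq u0 q, bb c.t ≤ c.rate x q := by
  intro x hx
  have hT := (mem_QQ.1 (mem_NN.1 hq).1).2
  rcases h.NN_inq h0 hq hx with hV | hp
  · rw [rate_V hT hV]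
  · exact bb_le.trans (h.rate_pay hp hT (mem_Inq.1 hx).1)

lemma Opt2.NN_val' (h : c.Opt2) (h0 : c.Deep u0) {q : X} (hq : q ∈ c.NN u0)
    {d : ℕ} (hd : d + (c.RR u0).card + 1 = c.t) : rb c.t - 1 + bb c.t * d ≤ c.contr q :=
  h.NN_val h0 hq (fun _ _ ho => rW_out ho) (h.NN_bb h0 hq)
    (by have := bb_le (t := c.t); have := rb_ge c.ht; linarith) hd

omit [Fintype X] in
lemma sum_ge_card {A : Finset X} {f : X → ℚ} {τ : ℚ} (h : ∀ x ∈ A, τ ≤ f x) :
    (A.card : ℚ) * τ ≤ ∑ x ∈ A, f x := by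
  rw [← nsmul_eq_mul, ← Finset.sum_const]
  exact Finset.sum_le_sum h

lemma Opt2.N3_core (h : c.Opt2) (h0 : c.Deep u0) {q : X} (hq : q ∈ c.QQ u0) (hn : c.N3 q) :
    (c.RR u0).card + 2 = c.t ∧ ∀ x, c.C u0 x → c.T x := by
  obtain ⟨ht, u, v, x, e, hu, hv, hx, hnx⟩ := hn
  have hq' := mem_QQ.1 hq
  constructor
  · have h1 : c.RR u0 ⊆ {u} := by
      intro y hy
      have := mem_Nc.2 (RR_C hy hq'.1)
      rw [e] at this
      simp only [mem_insert, mem_singleton] at this ⊢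
      rcases this with h1 | h1 | h1
      · exact h1
      · exact absurd (h1 ▸ hv) (RR_T hy).not_V
      · exact absurd (h1 ▸ hx) (RR_T hy).not_H
    have := card_le_card h1
    have := card_pos.2 ⟨u0, self_RR h0⟩
    rw [card_singleton] at *
    omega
  · have hc : c.C q x := mem_Nc.1 (by rw [e]; simp)
    have h1 := h.nT_comp hx (by omega)
    have h2 := h0.2.1.unique h1 (mem_Nc.2 hq'.1) (by simp [hc.symm, hq'.2])
    intro y hy
    have := mem_Nc.2 hy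
    rw [h2] at this
    exact (mem_filter.1 this).2

lemma Opt2.contr_nonneg (h : c.Opt2) (h0 : c.Deep u0) {q : X} (hq : q ∈ c.QQ u0)
    (hn : ¬ ((c.RR u0).card + 2 = c.t ∧ ∀ x, c.C u0 x → c.T x)) : 0 ≤ c.contr q := by
  unfold contr
  split_ifs with hd
  · exact le_rfl
  · rcases h.tier (mem_QQ.1 hq).2 hd with h1 | h1
    · linarith
    · exact absurd (h.N3_core h0 hq h1) hn

lemma Opt2.contr_inv (h : c.Opt2) {q : X} (hq : c.T q) : -(1 / (c.t : ℚ)) ≤ c.contr q := by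
  have := inv_pos' c.ht
  unfold contr
  split_ifs with hd
  · linarith
  · rcases h.tier hq hd with h1 | h1
    · linarith
    · have := h.N3_val hq h1
      rw [h1.1]; norm_num; linarith

lemma Good.half_nT (G : c.Good) (h0 : c.Deep u0) (hr : (c.RR u0).card + 1 = c.t) {x : X}
    (hx : c.C u0 x) (hH : c.H x) : c.nT x + 1 ≤ c.t := by
  have h := G.opt
  have a1 := h.nT_le hH h0.1 hx
  by_contra hn
  have hA := h.nT_comp hH (by omega)
  obtain ⟨q, hq⟩ := h.QQ_ex h0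
  have hq' := mem_QQ.1 hq
  have hN := G.kap2 q u0 _ _ hq'.2 h0.1 hq'.1.symm h0.2.1 (mem_Nc.2 hq'.1) hA
    (by simp [hx.symm, h0.1])
  have := c.ht
  obtain ⟨u, hu, hne⟩ := exists_mem_ne (s := c.RR u0) (by omega) u0
  have huA : u ∈ (c.Nc x).filter c.T := by simp [RR_C hu hx, RR_T hu]
  have ho : c.oo q = 0 := oo_zero.2 fun z hz hW => by
    have e1 : z ≠ u0 := fun e => h0.1.not_W (e ▸ hW.1)
    have e2 : u ≠ z := fun e => (RR_T hu).not_W (e ▸ hW.1)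
    have := hA.mem_of_S huA
      ((RR_C hu hq'.1).toS hz ((hN u (RR_C hu hq'.1) hne).2.2 z hz e1 e2))
    exact (mem_filter.1 this).2.not_W hW.1
  have := G.twin_card h0 (A := {q}) (by simp [hq, ho]) (by simp)
  rw [card_singleton] at this
  omega

lemma Good.core_half (G : c.Good) (h0 : c.Deep u0) (h1 : (c.YY u0).card ≤ 1)
    (e1 : (c.QQ u0).card + 1 = c.t) {x : X} (hx : c.C u0 x) (hH : c.H x) :
    0 ≤ ∑ q ∈ c.QQ u0, c.contr q + ∑ u ∈ c.RR u0, (c.val u - 1) := by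
  have h := G.opt
  have ht := c.ht
  have a1 := G.ZZ_card h0 h1
  have a2 := NZ_card (c := c) (u0 := u0)
  have a3 := sum_RR_ge hx hH
  obtain ⟨d, hd⟩ : ∃ d, d + (c.RR u0).card + 1 = c.t := ⟨c.t - (c.RR u0).card - 1, by omega⟩
  have a4 := sum_ge_card fun q hq => h.NN_val' h0 hq hd
  have a5 : 0 ≤ ∑ q ∈ c.ZZ u0, c.contr q := Finset.sum_nonneg fun q hq =>
    h.contr_nonneg h0 (mem_ZZ.1 hq).1 fun hh => (hh.2 x hx).not_H hH
  rw [NZ_sum]
  have a6 : ((c.RR u0).card : ℚ) ≤ (c.NN u0).card := by exact_mod_cast (by omega)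
  have b1 := rb_ge ht
  have b2 := bb_ge ht
  have b3 : (0 : ℚ) ≤ d := Nat.cast_nonneg _
  have b4 : 0 ≤ rb c.t - 1 + bb c.t * d := by nlinarith
  have b5 := mul_le_mul_of_nonneg_right a6 b4
  have hpos := nT_pos h0.1 hx
  have b6 : 0 ≤ rb c.t - 1 + bb c.t * d + (bH c.t / c.nT x - 1) := by
    rcases Nat.eq_zero_or_pos d with hd0 | hd0
    · have c1 := G.half_nT h0 (by omega) hx hH
      have c2 := div_anti ht (m := c.t - 1) hpos (by
        have : (c.nT x : ℚ) + 1 ≤ c.t := by exact_mod_cast c1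
        linarith)
      have := h1_ge ht
      rw [hd0]; unfold rb; push_cast; linarith
    · have c2 := div_anti ht (m := c.t) hpos (by exact_mod_cast h.nT_le hH h0.1 hx)
      have := h0_bb' ht
      have c3 : (1 : ℚ) ≤ d := by exact_mod_cast hd0
      have : bb c.t * 1 ≤ bb c.t * d := mul_le_mul_of_nonneg_left c3 (by linarith)
      unfold rb; linarith
  have b7 : (0 : ℚ) ≤ (c.RR u0).card := Nat.cast_nonneg _
  nlinarith [mul_nonneg b7 b6]

lemma Good.core_special (G : c.Good) (h0 : c.Deep u0) (h1 : (c.YY u0).card ≤ 1)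
    (e1 : (c.QQ u0).card = c.t) (hr : (c.RR u0).card + 2 = c.t) :
    (c.t : ℚ) - 2 ≤ ∑ q ∈ c.QQ u0, c.contr q := by
  have h := G.opt
  have ht := c.ht
  have a1 := G.ZZ_card h0 h1
  have a2 := NZ_card (c := c) (u0 := u0)
  have hd : 1 + (c.RR u0).card + 1 = c.t := by omega
  have base : ∀ q ∈ c.NN u0, rb c.t - 1 + bb c.t ≤ c.contr q := fun q hq => by
    simpa using h.NN_val' h0 hq hd
  have a4 := sum_ge_card base
  have b1 := t_rb ht
  have b2 := bb_ge' ht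
  have b3 := mul_inv' ht
  have b4 : (3 : ℚ) ≤ c.t := by exact_mod_cast ht
  have b5 : rb c.t = 3 / 2 - 1 / c.t := rfl
  have b6 := bb_lo ht
  rw [NZ_sum]
  rcases (c.ZZ u0).eq_empty_or_nonempty with e | ⟨q0, hq0⟩
  · rw [e] at a2 ⊢
    have : ((c.NN u0).card : ℚ) = c.t := by exact_mod_cast (by simp at a2; omega)
    rw [this] at a4
    have : (c.t : ℚ) * (1 / 2 - 1 / c.t) ≤ c.t * bb c.t :=
      mul_le_mul_of_nonneg_left b2 (by linarith)
    simp only [Finset.sum_empty]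
    nlinarith
  have eZ : c.ZZ u0 = {q0} := by
    symm
    exact eq_of_subset_of_card_le (by simpa using hq0) (by rw [card_singleton]; omega)
  have hN : ((c.NN u0).card : ℚ) = c.t - 1 := by
    rw [eZ, card_singleton] at a2
    have : ((c.NN u0).card : ℚ) + 1 = c.t := by exact_mod_cast (by omega)
    linarith
  rw [eZ, Finset.sum_singleton]
  rw [hN] at a4
  obtain ⟨hQ0, hn0⟩ := mem_ZZ.1 hq0
  have hT0 := (mem_QQ.1 hQ0).2
  by_cases hV : ¬ ∃ q ∈ c.NN u0, ∃ v ∈ c.Inq u0 q, c.V v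
  · push Not at hV
    have base2 : ∀ q ∈ c.NN u0, rb c.t - 1 + 1 / 2 ≤ c.contr q := fun q hq => by
      have := h.NN_val h0 hq (ρ := rb c.t) (β := 1 / 2) (fun _ _ ho => rW_out ho)
        (fun x hx => h.rate_pay ((h.NN_inq h0 hq hx).resolve_left (hV q hq x hx))
          (mem_QQ.1 (mem_NN.1 hq).1).2 (mem_Inq.1 hx).1)
        (by have := rb_ge ht; linarith) hd
      simpa using this
    have a5 := sum_ge_card base2
    rw [hN] at a5
    have := h.contr_inv hT0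
    nlinarith
  push Not at hV
  obtain ⟨q1, hq1, v, hv, hvV⟩ := hV
  have key : (c.t - 1) * (rb c.t - 1 + bb c.t) + (1 / 2 - 1 / c.t) ≥ (c.t : ℚ) - 2 := by
    nlinarith
  by_cases ho : 1 ≤ c.oo q0
  · have := h.contr_ge hQ0
    have a6 : (1 : ℚ) ≤ c.oo q0 := by exact_mod_cast ho
    have := rb_ge ht
    nlinarith
  have ho0 : c.oo q0 = 0 := by omega
  have cv : c.C q0 v := h.twin_Inn h0 hQ0 ho0 (h.Inq_sub h0 (mem_NN.1 hq1).1 hv)
  have hnd : ¬ c.Deep q0 := fun hd => by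
    have := (hd.2.1.2 v (mem_Nc.2 cv)).2.2.1
    have := hvV.2.2.2
    omega
  have ec : c.contr q0 = c.val q0 - 1 := if_neg hnd
  rw [ec]
  have l1 := h.Lo_card hT0
  have l2 : insert v (c.RR u0) ⊆ c.Lo q0 := by
    intro y hy
    rcases mem_insert.1 hy with rfl | hy
    · exact mem_Lo.2 ⟨cv, hvV.low⟩
    · exact mem_Lo.2 ⟨RR_C hy (mem_QQ.1 hQ0).1, (RR_T hy).low⟩
  have l3 := card_le_card l2
  rw [card_insert_of_notMem (fun hh => (RR_T hh).not_V hvV)] at l3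
  have l4 := clique_card (h.Lo_clique hT0) (mem_Lo.2 ⟨cv, hvV.low⟩)
  have l5 := hvV.2.2.2
  have hj : c.jj q0 = 1 := by omega
  obtain ⟨p, hp1, hp2⟩ := jj_pos (c := c) (q := q0) (by omega)
  have l6 := val_ge2 hp1 cv (fun e => hvV.low.not_pay (e ▸ hp2))
  rw [rate_V hT0 hvV] at l6
  by_cases hp : 1 ≤ c.rate p q0
  · nlinarith
  have hH : c.H p := by
    by_contra hH
    rw [rate_W hT0 ⟨hp2, hH⟩] at hp
    exact hp (rW_j1 hj)
  have hn1 : c.nT p ≠ 1 := fun e => by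
    rw [rate_H hT0 hH, e] at hp
    exact hp (by simpa using bH_pos ht)
  have hpos := nT_pos hT0 hp1
  obtain ⟨q2, hq2, hne⟩ := exists_mem_ne (s := (c.Nc p).filter c.T)
    (by unfold nT at hn1 hpos; omega) q0
  have hS := h.nT_clique hH q0 (by simp [hp1.symm, hT0]) q2 hq2 hne.symm
  rw [mem_filter, mem_Nc] at hq2
  have hQ2 : q2 ∈ c.QQ u0 :=
    mem_QQ.2 ⟨mem_Nc.1 (h0.2.1.mem_of_S (mem_Nc.2 (mem_QQ.1 hQ0).1) hS), hq2.2⟩
  have hN2 : q2 ∈ c.NN u0 := by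
    by_contra hh
    have : q2 ∈ c.ZZ u0 := mem_ZZ.2 ⟨hQ2, fun h' => hh (mem_NN.2 ⟨hQ2, h'⟩)⟩
    rw [eZ, mem_singleton] at this
    exact hne this
  have m1 : rb c.t - 1 + bH c.t / c.t ≤ c.contr q2 := by
    rw [h.NN_contr (mem_NN.1 hN2).2.1]
    have n1 := val_split hQ2 (ρ := rb c.t) (fun x _ ho => rW_out ho)
    have n2 : c.rate p q2 ≤ ∑ x ∈ c.Inq u0 q2, c.rate x q2 :=
      Finset.single_le_sum (f := fun x => c.rate x q2) (fun x _ => rate_nonneg x q2)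
        (mem_Inq.2 ⟨hq2.1.symm, fun hh => (RR_T hh).not_H hH, fun hW => hW.1.2 hH⟩)
    have n3 := h.rate_H_ge hH hq2.2 hq2.1.symm
    have n4 : (1 : ℚ) ≤ c.oo q2 := by exact_mod_cast (mem_NN.1 hN2).2.1
    have := rb_ge ht
    nlinarith
  have m2 := sum_ge_card (A := (c.NN u0).erase q2) fun q hq => base q (mem_of_mem_erase hq)
  have m3 : (((c.NN u0).erase q2).card : ℚ) = c.t - 2 := by
    have := card_erase_add_one hN2
    have : (((c.NN u0).erase q2).card : ℚ) + 1 = (c.NN u0).card := by exact_mod_cast this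
    linarith
  rw [m3] at m2
  rw [← Finset.add_sum_erase _ _ hN2]
  have m4 := h.rate_H_ge hH hT0 hp1
  have m5 := special ht
  nlinarith

theorem Good.core (G : c.Good) (h0 : c.Deep u0) :
    0 ≤ ∑ q ∈ c.QQ u0, c.contr q + ∑ u ∈ c.RR u0, (c.val u - 1) := by
  have h := G.opt
  have ht := c.ht
  by_cases h2 : 2 ≤ (c.YY u0).card
  · exact G.core_big h0 h2
  have h1 : (c.YY u0).card ≤ 1 := by omega
  rcases h.half_cases h0 with ⟨e1, hall⟩ | ⟨e1, x, hx, hH⟩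
  swap
  · exact G.core_half h0 h1 e1 hx hH
  have a3 := sum_RR_ge0 (c := c) (u0 := u0)
  by_cases hr : (c.RR u0).card + 2 = c.t
  · have := G.core_special h0 h1 e1 hr
    have : ((c.RR u0).card : ℚ) + 2 = c.t := by exact_mod_cast hr
    linarith
  have a1 := G.ZZ_card h0 h1
  have a2 := NZ_card (c := c) (u0 := u0)
  obtain ⟨d, hd⟩ : ∃ d, d + (c.RR u0).card + 1 = c.t := ⟨c.t - (c.RR u0).card - 1, by omega⟩
  have a5 : 0 ≤ ∑ q ∈ c.ZZ u0, c.contr q := Finset.sum_nonneg fun q hq =>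
    h.contr_nonneg h0 (mem_ZZ.1 hq).1 fun hh => hr hh.1
  have a4 : ∀ q ∈ c.NN u0, 1 - 1 / (c.t : ℚ) ≤ c.contr q := by
    intro q hq
    rcases Nat.eq_zero_or_pos d with hd0 | hd0
    · have hQ := mem_QQ.1 (mem_NN.1 hq).1
      have hA : c.TA q := ⟨by rw [D_RR h0 hQ.1]; omega, fun y hy =>
        hall y (mem_Nc.1 (h0.2.1.mem_of_S (mem_Nc.2 hQ.1) hy))⟩
      have := h.NN_val h0 hq (ρ := ra c.t) (β := bb c.t) (fun _ _ ho => (rW_outA ho hA).ge)
        (h.NN_bb h0 hq)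
        (by have := bb_le (t := c.t); have := rb_ge c.ht; have := rb_le_ra (t := c.t); linarith)
        hd
      rw [hd0] at this
      unfold ra at this
      push_cast at this
      linarith
    · have := h.NN_val' h0 hq hd
      have c3 : (2 : ℚ) ≤ d := by exact_mod_cast (by omega)
      have c4 := bb_ge ht
      unfold rb at this
      nlinarith
  have a6 := sum_ge_card a4
  have a7 : ((c.RR u0).card : ℚ) + 1 ≤ (c.NN u0).card := by exact_mod_cast (by omega)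
  have a8 : ((c.RR u0).card : ℚ) + 1 ≤ c.t := by exact_mod_cast (by omega)
  have b1 := inv_le ht
  have b2 := inv_pos' ht
  have b3 := mul_inv' ht
  have b4 := mul_le_mul_of_nonneg_right a7 (by linarith : 0 ≤ 1 - 1 / (c.t : ℚ))
  have b5 := mul_le_mul_of_nonneg_right a8 b2.le
  rw [NZ_sum]
  nlinarith

end St

end

end Pool.Agent.Lib.MP_bb98d0_co
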