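import Pool.Agent.Lib.MP_bb98d0_co.Graph

/-!
The extremal graph: three copies of a complete graph minus an edge, linked in a triangle.
-/

namespace Pool.Agent.Lib.MP_bb98d0_co
open Finset

noncomputable section

variable {B : Type} [Fintype B] [DecidableEq B] {P Q : B}

def ext (P Q : B) (h : P ≠ Q) : SimpleGraph (Fin 3 × B) where
  Adj x y := (x.1 = y.1 ∧ x.2 ≠ y.2 ∧ ¬ (x.2 = P ∧ y.2 = Q) ∧ ¬ (x.2 = Q ∧ y.2 = P)) ∨
    (y.1 = x.1 + 1 ∧ x.2 = Q ∧ y.2 = P) ∨ (x.1 = y.1 + 1 ∧ x.2 = P ∧ y.2 = Q)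
  symm := ⟨fun x y hxy => by
    rcases hxy with h | h | h
    · exact Or.inl ⟨h.1.symm, h.2.1.symm, fun g => h.2.2.2 ⟨g.2, g.1⟩, fun g => h.2.2.1 ⟨g.2, g.1⟩⟩
    · exact Or.inr (Or.inr ⟨h.1, h.2.2, h.2.1⟩)
    · exact Or.inr (Or.inl ⟨h.1, h.2.2, h.2.1⟩)⟩
  loopless := ⟨fun x hx => by
    rcases hx with g | g | g
    · exact g.2.1 rfl
    · exact h (g.2.2.symm.trans g.2.1)
    · exact h (g.2.1.symm.trans g.2.2)⟩

instance (h : P ≠ Q) : DecidableRel (ext P Q h).Adj := fun x y => by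
  unfold ext; infer_instance

lemma f3a : ∀ i : Fin 3, i ≠ i + 1 := by decide
lemma f3b : ∀ i j : Fin 3, j = i + 1 → i ≠ j + 1 := by decide
lemma f3c : ∀ i j : Fin 3, (i = j + 1) = (j = i + 2) := by decide

omit [Fintype B] in
lemma ext_aw (h : P ≠ Q) (i j : Fin 3) (a b : B) :
    (aw (ext P Q h) (i, a) (j, b) : ℤ) =
      (if j = i then 1 - (if b = a then 1 else 0) - (if a = P then if b = Q then 1 else 0 else 0)
        - (if a = Q then if b = P then 1 else 0 else 0) else 0)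
      + (if j = i + 1 then if a = Q then if b = P then 1 else 0 else 0 else 0)
      + (if j = i + 2 then if a = P then if b = Q then 1 else 0 else 0 else 0) := by
  have h' := h.symm
  unfold aw ext
  simp only [f3c]
  by_cases h1 : a = P <;> by_cases h2 : a = Q <;> by_cases h3 : b = P <;> by_cases h4 : b = Q <;>
    by_cases h5 : b = a <;> fin_cases i <;> fin_cases j <;> simp_all [eq_comm]

lemma ext_regular (h : P ≠ Q) {k : ℕ} (hB : Fintype.card B = k + 1) :
    ∀ x, ∑ y, aw (ext P Q h) x y = k := by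
  rintro ⟨i, a⟩
  have : ∑ y, (aw (ext P Q h) (i, a) y : ℤ) = k := by
    rw [Fintype.sum_prod_type]
    simp only [ext_aw, Finset.sum_add_distrib, Finset.sum_ite_irrel, Finset.sum_const_zero,
      Finset.sum_ite_eq', mem_univ, if_true, Finset.sum_sub_distrib, Finset.sum_const, card_univ,
      hB]
    simp
  exact_mod_cast this

omit [DecidableEq B] in
lemma sum_sg_le (s : B → Bool) {t e : ℕ} (he : e ≤ 1) (hB : Fintype.card B + e = 2 * t + 1) :
    ∑ a, ∑ b, sg (s a) (s b) ≤ e - 1 := by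
  have h1 : ∀ a b, sg (s a) (s b) = - (sg (s a) true * sg (s b) true) := fun a b => by
    cases s a <;> cases s b <;> rfl
  simp only [h1, Finset.sum_neg_distrib, ← Finset.mul_sum, ← Finset.sum_mul]
  have h2 : (2 : ℤ) ∣ ∑ a, sg (s a) true + Fintype.card B := by
    rw [← card_univ, Finset.card_eq_sum_ones]
    push_cast
    rw [← Finset.sum_add_distrib]
    refine Finset.dvd_sum fun a _ => ?_
    cases s a <;> decide
  set z := ∑ a, sg (s a) true
  by_cases h0 : z = 0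
  · rw [h0]; omega
  · have : 0 < z * z := mul_self_pos.2 h0
    omega

lemma ext_Dv (h : P ≠ Q) {t e : ℕ} (he : e ≤ 1) (hB : Fintype.card B + e = 2 * t + 1)
    (s : Fin 3 × B → Bool) : Dv (aw (ext P Q h)) s ≤ 6 * t + 8 := by
  have h1 : Dv (aw (ext P Q h)) s = ∑ i : Fin 3, (∑ a, ∑ b, sg (s (i, a)) (s (i, b))
      + Fintype.card B - sg (s (i, P)) (s (i, Q)) - sg (s (i, Q)) (s (i, P))
      + sg (s (i, Q)) (s (i + 1, P)) + sg (s (i, P)) (s (i + 2, Q))) := by
    unfold Dv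
    simp only [Fintype.sum_prod_type, ext_aw, add_mul, ite_mul, sub_mul, zero_mul, one_mul,
      Finset.sum_add_distrib, Finset.sum_ite_irrel, Finset.sum_const_zero,
      Finset.sum_ite_eq', mem_univ, if_true, Finset.sum_sub_distrib, sg_eq rfl]
    simp
  have h2 : ∀ a0 a1 a2 b0 b1 b2 : Bool, - sg a0 b0 - sg b0 a0 + sg b0 a1 + sg a0 b2
      + (- sg a1 b1 - sg b1 a1 + sg b1 a2 + sg a1 b0)
      + (- sg a2 b2 - sg b2 a2 + sg b2 a0 + sg a2 b1) ≤ 8 := by decide
  have h3 := h2 (s (0, P)) (s (1, P)) (s (2, P)) (s (0, Q)) (s (1, Q)) (s (2, Q))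
  have g0 := sum_sg_le (fun a => s (0, a)) he hB
  have g1 := sum_sg_le (fun a => s (1, a)) he hB
  have g2 := sum_sg_le (fun a => s (2, a)) he hB
  rw [h1, Fin.sum_univ_three]
  have e1 : (0 + 1 : Fin 3) = 1 := rfl
  have e2 : (0 + 2 : Fin 3) = 2 := rfl
  have e3 : (1 + 1 : Fin 3) = 2 := rfl
  have e4 : (1 + 2 : Fin 3) = 0 := rfl
  have e5 : (2 + 1 : Fin 3) = 0 := rfl
  have e6 : (2 + 2 : Fin 3) = 1 := rfl
  rw [e1, e2, e3, e4, e5, e6]
  omega

lemma ext_free (h : P ≠ Q) {k : ℕ} (hk : 3 ≤ k) (hB : Fintype.card B = k + 1) :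
    (ext P Q h).CliqueFree (k + 1) := by
  intro S hS
  have tri : ∀ x y z, (ext P Q h).Adj x y → (ext P Q h).Adj x z → (ext P Q h).Adj y z →
      x.1 = y.1 := by
    rintro ⟨i, a⟩ ⟨j, b⟩ ⟨l, d⟩ h1 h2 h3
    have h' := h.symm
    unfold ext at h1 h2 h3
    simp only at h1 h2 h3 ⊢
    rcases h1 with h1 | h1 | h1
    · exact h1.1
    all_goals
      exfalso
      obtain ⟨rfl, rfl, rfl⟩ := h1
      fin_cases l <;> first | (fin_cases i <;> simp_all) | (fin_cases j <;> simp_all)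
  have same : ∀ x ∈ S, ∀ y ∈ S, x.1 = y.1 := by
    intro x hx y hy
    by_cases e : x = y
    · rw [e]
    obtain ⟨z, hz, hz'⟩ := exists_mem_notMem_of_card_lt_card (s := {x, y}) (t := S)
      (by rw [card_pair e, hS.card_eq]; omega)
    simp only [mem_insert, mem_singleton, not_or] at hz'
    exact tri x y z (hS.isClique hx hy e) (hS.isClique hx hz (Ne.symm hz'.1))
      (hS.isClique hy hz (Ne.symm hz'.2))
  have h1 : S.image Prod.snd = univ := by
    apply eq_univ_of_card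
    rw [card_image_of_injOn, hS.card_eq, hB]
    intro x hx y hy e
    exact Prod.ext (same x hx y hy) e
  obtain ⟨x, hx, ex⟩ := mem_image.1 (h1 ▸ mem_univ P)
  obtain ⟨y, hy, ey⟩ := mem_image.1 (h1 ▸ mem_univ Q)
  have h2 := hS.isClique hx hy (fun e => h (by rw [← ex, ← ey, e]))
  have h3 := same x hx y hy
  rcases h2 with g | g | g
  · exact g.2.2.1 ⟨ex, ey⟩
  · exact f3a _ (h3.trans g.1 ▸ rfl : x.1 = x.1 + 1)
  · exact f3a _ (h3.symm.trans g.1)

theorem upper {k : ℕ} (hk : 3 ≤ k) : ∃ (G : SimpleGraph (Fin (3 * (k + 1))))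
    (_ : DecidableRel G.Adj), G.IsRegularOfDegree k ∧ G.CliqueFree (k + 1) ∧
      ∀ s, Dv (aw G) s ≤ 6 * ((k + 1) / 2 : ℕ) + 8 := by
  have h : (⟨0, by omega⟩ : Fin (k + 1)) ≠ ⟨1, by omega⟩ := by simp
  let φ : Fin (3 * (k + 1)) ≃ Fin 3 × Fin (k + 1) := finProdFinEquiv.symm
  refine ⟨(ext _ _ h).comap φ, inferInstance, fun x => ?_, ?_, fun s => ?_⟩
  · have := ext_regular h (Fintype.card_fin _) (φ x)
    rw [← Equiv.sum_comp φ] at this
    exact (aw_deg _ x).symm.trans this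
  · exact (ext_free h hk (Fintype.card_fin _)).comap
      (SimpleGraph.Embedding.comap φ.toEmbedding _).isContained
  · have := ext_Dv h (t := (k + 1) / 2) (e := k % 2) (by omega)
      (by rw [Fintype.card_fin]; omega) (fun x => s (φ.symm x))
    unfold Dv at this ⊢
    rw [← Equiv.sum_comp φ] at this
    simp only [← Equiv.sum_comp φ, Equiv.symm_apply_apply] at this
    exact this

end

end Pool.Agent.Lib.MP_bb98d0_co
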