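import Pool.Agent.Lib.MP_bb98d0_co.Extremal

/-!
The value of the constant.
-/

namespace Pool.Agent.Lib.MP_bb98d0_co
open Finset

lemma sq_div_four (k : ℕ) :
    4 * ((k + 1) ^ 2 / 4) = k * (k + 1) + 2 * ((k + 1) / 2) := by
  obtain ⟨t, rfl | rfl⟩ := Nat.even_or_odd' k
  · have h1 : (2 * t + 1) ^ 2 = 4 * (t * t + t) + 1 := by ring
    have h2 : 2 * t * (2 * t + 1) = 4 * (t * t) + 2 * t := by ring
    rw [h1, h2]; omega
  · have h1 : (2 * t + 1 + 1) ^ 2 = 4 * (t * t + 2 * t + 1) := by ring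
    have h2 : (2 * t + 1) * (2 * t + 1 + 1) = 4 * (t * t) + 6 * t + 2 := by ring
    rw [h1, h2]; omega

lemma choose_two (k : ℕ) : (((k + 1).choose 2 : ℕ) : ℝ) = k * (k + 1) / 2 := by
  rw [Nat.cast_choose_two]; push_cast; ring

lemma edges_eq {n k : ℕ} {G : SimpleGraph (Fin n)} [DecidableRel G.Adj]
    (hreg : G.IsRegularOfDegree k) : 2 * (G.edgeFinset.card : ℝ) = n * k := by
  have := G.sum_degrees_eq_twice_card_edges
  simp only [hreg.degree_eq, Finset.sum_const, card_univ, Fintype.card_fin, smul_eq_mul] at this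
  exact_mod_cast this.symm

theorem lower_real {n k : ℕ} (hk : 3 ≤ k) {G : SimpleGraph (Fin n)} [DecidableRel G.Adj]
    (hreg : G.IsRegularOfDegree k) (hK : G.CliqueFree (k + 1)) (hne : G.edgeFinset.Nonempty) :
    ((((k + 1) ^ 2 / 4 : ℕ) : ℝ) + 2 / 3) / ((k + 1).choose 2 : ℕ) ≤
      ((univ.sup fun S : Finset (Fin n) => (G.interedges S Sᶜ).card : ℕ) : ℝ)
        / G.edgeFinset.card := by
  obtain ⟨s, hs⟩ := lower hk hreg hK
  have e1 : s = fun x => decide (x ∈ univ.filter fun x => s x = true) := by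
    funext x; simp
  have h1 := Dv_cut G (univ.filter fun x => s x = true)
  rw [← e1] at h1
  have h2 : (G.interedges (univ.filter fun x => s x = true)
      (univ.filter fun x => s x = true)ᶜ).card ≤
      univ.sup fun S : Finset (Fin n) => (G.interedges S Sᶜ).card :=
    Finset.le_sup (f := fun S : Finset (Fin n) => (G.interedges S Sᶜ).card) (mem_univ _)
  set M : ℕ := univ.sup fun S : Finset (Fin n) => (G.interedges S Sᶜ).card
  have h3 : (Dv (aw G) s : ℝ) + 2 * G.edgeFinset.card ≤ 4 * M := by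
    have : Dv (aw G) s + 2 * G.edgeFinset.card ≤ 4 * M := by rw [h1]; omega
    exact_mod_cast this
  have h4 : (n : ℝ) * (2 * ((k + 1) / 2 : ℕ) + 8 / 3) ≤ (k + 1) * Dv (aw G) s := by
    rw [Fintype.card_fin] at hs
    have := (Rat.cast_le (K := ℝ)).2 hs
    push_cast at this
    exact this
  have h5 := edges_eq hreg
  have h6 : 4 * (((k + 1) ^ 2 / 4 : ℕ) : ℝ) = k * (k + 1) + 2 * ((k + 1) / 2 : ℕ) := by
    exact_mod_cast sq_div_four k
  have h7 : (0 : ℝ) < G.edgeFinset.card := by exact_mod_cast card_pos.2 hne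
  have h8 : (3 : ℝ) ≤ k := by exact_mod_cast hk
  rw [choose_two, div_le_div_iff₀ (by positivity) h7]
  have h9 : (G.edgeFinset.card : ℝ) = n * k / 2 := by linarith
  have h10 : (((k + 1) ^ 2 / 4 : ℕ) : ℝ) = (k * (k + 1) + 2 * ((k + 1) / 2 : ℕ)) / 4 := by
    linarith
  rw [h9] at h3 ⊢
  rw [h10]
  have h11 : ((k : ℝ) + 1) * (Dv (aw G) s + 2 * (n * k / 2)) ≤ (k + 1) * (4 * M) :=
    mul_le_mul_of_nonneg_left h3 (by linarith)
  have h12 : (n : ℝ) * (k * (k + 1) + 2 * ((k + 1) / 2 : ℕ) + 8 / 3) ≤ (k + 1) * (4 * M) := by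
    nlinarith
  have h13 := mul_le_mul_of_nonneg_left h12 (by linarith : (0 : ℝ) ≤ k / 8)
  nlinarith

theorem upper_real {k : ℕ} (hk : 3 ≤ k) : ∃ (n : ℕ) (G : SimpleGraph (Fin n))
    (_ : DecidableRel G.Adj), G.IsRegularOfDegree k ∧ G.CliqueFree (k + 1) ∧
      G.edgeFinset.Nonempty ∧
      ((((k + 1) ^ 2 / 4 : ℕ) : ℝ) + 2 / 3) / ((k + 1).choose 2 : ℕ) =
      ((univ.sup fun S : Finset (Fin n) => (G.interedges S Sᶜ).card : ℕ) : ℝ)
        / G.edgeFinset.card := by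
  obtain ⟨G, inst, hreg, hK, hD⟩ := upper hk
  have h5 := edges_eq hreg
  have h8 : (3 : ℝ) ≤ k := by exact_mod_cast hk
  have h7 : (0 : ℝ) < G.edgeFinset.card := by push_cast at h5; nlinarith
  have hne : G.edgeFinset.Nonempty := card_pos.1 (by exact_mod_cast h7)
  refine ⟨_, G, inst, hreg, hK, hne, le_antisymm (lower_real hk hreg hK hne) ?_⟩
  have h1 : (univ.sup fun S : Finset (Fin (3 * (k + 1))) => (G.interedges S Sᶜ).card)
      ≤ 3 * ((k + 1) ^ 2 / 4) + 2 := by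
    refine Finset.sup_le fun S _ => ?_
    have a1 := Dv_cut G S
    have a2 := hD (fun x => decide (x ∈ S))
    have a3 : 2 * G.edgeFinset.card = 3 * (k + 1) * k := by exact_mod_cast h5
    have a4 := sq_div_four k
    have a5 : 3 * (k + 1) * k = 3 * (k * (k + 1)) := by ring
    omega
  have h2 : ((univ.sup fun S : Finset (Fin (3 * (k + 1))) => (G.interedges S Sᶜ).card : ℕ) : ℝ)
      ≤ 3 * ((k + 1) ^ 2 / 4 : ℕ) + 2 := by exact_mod_cast h1
  have h9 : (G.edgeFinset.card : ℝ) = 3 * (k * (k + 1) / 2) := by push_cast at h5; linarith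
  rw [choose_two, div_le_div_iff₀ h7 (by positivity), h9]
  have h3 : (0 : ℝ) ≤ k * (k + 1) / 2 := by positivity
  nlinarith

end Pool.Agent.Lib.MP_bb98d0_co
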