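import Pool.Agent.Lib.MP_bb98d0_co.Opt

/-!
Lexicographically optimal states: existence and the consequences of the tie-breaking rules.
-/

namespace Pool.Agent.Lib.MP_bb98d0_co
open Finset Classical

noncomputable section

variable {X : Type*} [Fintype X]

def Net.Tw (N : Net X) (v : X) : Finset X :=
  univ.filter fun z => ∀ y, (y = z ∨ 0 < N.w z y) ↔ (y = v ∨ 0 < N.w v y)

def Net.TwinB (N : Net X) : Prop :=
  ∀ v ∈ N.O, (∀ y, 0 < N.w v y → y ∈ N.O) → (N.Tw v).card + 1 ≤ N.t

namespace St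

def New (c : St X) (q y : X) : Prop :=
  ∀ x, c.C q x → x ≠ y → x ∈ c.O ∧ c.sm x + 2 = c.t + c.w x y ∧
    ∀ x', c.C q x' → x' ≠ y → x ≠ x' → 0 < c.w x x'

def kap (c : St X) : ℕ := (univ.filter c.Comp).card

def PP (c : St X) : ℕ :=
  ∑ p : X × X, if p.1 ∉ c.O ∧ p.2 ∉ c.O ∧ c.s p.1 = c.s p.2 then c.w p.1 p.2 else 0

structure Good (c : St X) : Prop where
  opt : c.Opt2
  kap1 : ∀ q y K, c.T q → c.T y → c.C q y → c.Comp K → q ∈ K → c.New q y ∨ c.New y q
  kap2 : ∀ q y K L, c.T q → c.T y → c.C q y → c.Comp K → q ∈ K → c.Comp L → y ∈ L → c.New q y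
  sadp : ∀ b x b', c.Sad b → c.C b x → x ∈ c.O → c.S b b' → b' ∈ c.O
  twin : c.toNet.TwinB

variable {c : St X}

lemma Opt2.swap (h : c.Opt2) {q y : X} (hq : c.T q) (hy : c.T y) (hc : c.C q y) :
    (c.fl ({q} ∪ {y})).Opt2 := by
  have hw : c.w q y = 1 := by have := c.simple q hq.1 y hy.1; have := hc.pos; omega
  refine h.flip (β := c.s y) (by simp [hq.2.1, hc.side]) (by simp [hy.2.1]) ?_ ?_
  · intro a ha
    simpa using h.anc hq hy hc a ha
  · have h1 := hq.2.2.1; have h2 := hq.2.2.2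
    have h3 := hy.2.2.1; have h4 := hy.2.2.2
    simp only [Finset.sum_singleton, c.diag, hw]
    omega

lemma Sad.ia_zero (h : c.Opt2) {b : X} (hb : c.Sad b) : c.ia b = 0 := by
  have h1 := h.gm_nonneg hb.2.1
  have h2 := hb.2.2.1; have h3 := hb.2.2.2
  unfold gm at h1
  omega

lemma ia_zero_w {b : X} (hb : c.ia b = 0) {a : X} (ha : a ∈ c.I) : c.w a b = 0 := by
  have : c.w b a ≤ c.ia b :=
    Finset.single_le_sum (f := fun y => c.w b y) (fun _ _ => Nat.zero_le _) ha
  rw [c.symm]; omega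

lemma Opt2.sadflip (h : c.Opt2) {b : X} (hb : c.Sad b) : (c.fl ({b} ∪ ∅)).Opt2 := by
  refine h.flip (β := !(c.s b)) (by simp [hb.2.1]) (by simp) ?_ ?_
  · intro a ha
    simpa using ia_zero_w (hb.ia_zero h) ha
  · have h2 := hb.2.2.1; have h3 := hb.2.2.2
    simp only [Finset.sum_singleton, c.diag, Finset.sum_empty]
    omega

lemma Opt2.comp_of_fl (h : c.Opt2) {S K : Finset X} (hK : (c.fl S).Comp K)
    (hd : ∀ x ∈ K, x ∉ S) : c.Comp K := by
  have hS : ∀ x ∈ K, ∀ y ∈ K, x ≠ y → c.S x y := by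
    intro x hx y hy hne
    have h1 := (hK.2 x hx).2.2.2 y hy hne
    refine ⟨h1.l, h1.r, ?_, h1.pos⟩
    have := h1.side
    rwa [fl_s, flip_not_mem (hd x hx), flip_not_mem (hd y hy)] at this
  refine ⟨hK.1, fun x hx => ⟨(hK.2 x hx).1, (hK.2 x hx).2.1, ?_, hS x hx⟩⟩
  have h1 := h.sm_le (hK.2 x hx).1 (hK.2 x hx).2.1
  have h2 : (K.erase x).card ≤ c.sm x := card_le_sm fun y hy => by
    rw [mem_erase] at hy
    exact mem_Ns.2 (hS x hx y hy.2 hy.1.symm)
  rw [card_erase_of_mem hx] at h2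
  have h3 : K.card = c.t := hK.1
  omega

lemma new_of_comp {q y : X} (hq : c.T q) (hc : c.C q y) {K : Finset X}
    (hK : (c.fl ({q} ∪ {y})).Comp K) (hqK : q ∈ K) : c.New q y := by
  have hmem : ∀ x, c.C q x → x ≠ y → x ∈ K := by
    intro x hx hne
    refine hK.mem_of_S hqK ⟨hx.l, hx.r, ?_, hx.pos⟩
    have h1 : x ∉ ({q} ∪ {y} : Finset X) := by simp [hne, hx.ne.symm]
    have h2 : q ∈ ({q} ∪ {y} : Finset X) := by simp
    rw [fl_s, flip_mem h2, flip_not_mem h1]
    have := hx.side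
    revert this; cases c.s q <;> cases c.s x <;> simp
  intro x hx hne
  have hxK := hmem x hx hne
  have hO : x ∈ c.O := (hK.2 x hxK).1
  refine ⟨hO, ?_, fun x' hx' hne' hxx => ((hK.2 x hxK).2.2.2 x' (hmem x' hx' hne') hxx).pos⟩
  have h1 := fl_sm (c := c) (A := {q}) (B := {y}) (β := c.s y) (by simp [hq.2.1, hc.side])
    (by simp [hc.r]) hx.r (hx.same hc) (by simp [hne])
  have h2 : (c.fl ({q} ∪ {y})).sm x + 1 = c.t := (hK.2 x hxK).2.2.1
  have h3 : c.w x q = 1 := by
    have := c.simple x hO q hq.1; have := hx.symm.pos; omega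
  simp only [Finset.sum_singleton] at h1
  omega

lemma exists_good (N : Net X) (hN : N.TwinB) : ∃ c : St X, c.toNet = N ∧ c.Good := by
  obtain ⟨s0, -, hs0⟩ := Finset.exists_max_image univ (Dv N.w) univ_nonempty
  have hne : (univ.filter fun p : (X → Bool) × Finset X =>
      Dv N.w p.1 = Dv N.w s0 ∧ Free ⟨N, p.2, p.1⟩).Nonempty :=
    ⟨(s0, ∅), by simp [Free]⟩
  obtain ⟨⟨s1, I⟩, hp1, hp2⟩ := Finset.exists_max_image _ (fun p => p.2.card) hne
  simp only [mem_filter, mem_univ, true_and] at hp1 hp2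
  have ho1 : Opt2 ⟨N, I, s1⟩ := by
    refine ⟨fun s' => ?_, hp1.2, fun s' I' h1 h2 => hp2 (s', I') ⟨h1.trans hp1.1, h2⟩⟩
    show Dv N.w s' ≤ Dv N.w s1
    rw [hp1.1]; exact hs0 s' (mem_univ _)
  have hne2 : (univ.filter fun s : X → Bool => Opt2 ⟨N, I, s⟩).Nonempty := ⟨s1, by simp [ho1]⟩
  obtain ⟨s2, hq1, hq2⟩ := Finset.exists_min_image _ (fun s => kap ⟨N, I, s⟩) hne2
  simp only [mem_filter, mem_univ, true_and] at hq1 hq2
  have hne3 : (univ.filter fun s : X → Bool =>
      Opt2 ⟨N, I, s⟩ ∧ kap ⟨N, I, s⟩ = kap ⟨N, I, s2⟩).Nonempty := ⟨s2, by simp [hq1]⟩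
  obtain ⟨s3, hr1, hr2⟩ := Finset.exists_min_image _ (fun s => PP ⟨N, I, s⟩) hne3
  simp only [mem_filter, mem_univ, true_and] at hr1 hr2
  set c : St X := ⟨N, I, s3⟩ with hc
  have hopt : c.Opt2 := hr1.1
  have hk : ∀ S, (c.fl S).Opt2 → c.kap ≤ (c.fl S).kap := fun S hS => by
    rw [hr1.2]; exact hq2 _ hS
  have hP : ∀ S, (c.fl S).Opt2 → (c.fl S).kap = c.kap → c.PP ≤ (c.fl S).PP := fun S hS h2 =>
    hr2 _ ⟨hS, h2.trans hr1.2⟩
  have hflc : ∀ q y : X, c.fl ({y} ∪ {q}) = c.fl ({q} ∪ {y}) := fun q y => by rw [union_comm]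
  refine ⟨c, rfl, hopt, ?_, ?_, ?_, hN⟩
  · intro q y K hq hy hqy hK hqK
    by_contra hn
    push Not at hn
    have h1 := hk _ (hopt.swap hq hy hqy)
    have h2 : univ.filter (c.fl ({q} ∪ {y})).Comp ⊆ (univ.filter c.Comp).erase K := by
      intro L hL
      rw [mem_filter] at hL
      have hq' : q ∉ L := fun h => hn.1 (new_of_comp hq hqy hL.2 h)
      have hy' : y ∉ L := fun h => hn.2 (new_of_comp hy hqy.symm (by rw [hflc]; exact hL.2) h)
      rw [mem_erase, mem_filter]
      refine ⟨fun h => hq' (h ▸ hqK), mem_univ _, hopt.comp_of_fl hL.2 ?_⟩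
      intro x hx hx'
      simp only [mem_union, mem_singleton] at hx'
      rcases hx' with rfl | rfl
      exacts [hq' hx, hy' hx]
    have h3 := card_le_card h2
    have hKm : K ∈ univ.filter c.Comp := by simp [hK]
    rw [card_erase_of_mem hKm] at h3
    have := card_pos.2 ⟨K, hKm⟩
    unfold kap at h1
    omega
  · intro q y K L hq hy hqy hK hqK hL hyL
    by_contra hn
    have h1 := hk _ (hopt.swap hq hy hqy)
    have hKL : L ≠ K := fun h => hqy.side (hK.side hqK (h ▸ hyL))
    have h2 : univ.filter (c.fl ({q} ∪ {y})).Comp ⊆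
        insert (insert y ((c.fl ({q} ∪ {y})).Ns y)) (((univ.filter c.Comp).erase K).erase L) := by
      intro M hM
      rw [mem_filter] at hM
      have hq' : q ∉ M := fun h => hn (new_of_comp hq hqy hM.2 h)
      by_cases hy' : y ∈ M
      · rw [hM.2.eq_insert hy']; exact mem_insert_self _ _
      refine mem_insert_of_mem ?_
      rw [mem_erase, mem_erase, mem_filter]
      refine ⟨fun h => hy' (h ▸ hyL), fun h => hq' (h ▸ hqK), mem_univ _,
        hopt.comp_of_fl hM.2 ?_⟩
      intro x hx hx'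
      simp only [mem_union, mem_singleton] at hx'
      rcases hx' with rfl | rfl
      exacts [hq' hx, hy' hx]
    have h3 := (card_le_card h2).trans (card_insert_le _ _)
    have hKm : K ∈ univ.filter c.Comp := by simp [hK]
    have hLm : L ∈ (univ.filter c.Comp).erase K := by simp [hL, hKL]
    rw [card_erase_of_mem hLm] at h3
    have h4 := card_pos.2 ⟨L, hLm⟩
    rw [card_erase_of_mem hKm] at h3 h4
    unfold kap at h1
    omega
  · intro b x b' hb hbx hx hbb
    by_contra hb'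
    have ho := hopt.sadflip hb
    have h1 := hk _ ho
    have h2 : univ.filter (c.fl ({b} ∪ ∅)).Comp ⊆ univ.filter c.Comp := by
      intro L hL
      rw [mem_filter] at hL ⊢
      refine ⟨mem_univ _, hopt.comp_of_fl hL.2 ?_⟩
      intro z hz hz'
      simp only [union_empty, mem_singleton] at hz'
      exact hb.1 (hz' ▸ (hL.2.2 z hz).1)
    have h3 := hP _ ho (le_antisymm (card_le_card h2) h1)
    have hNc : c.Nc b = {x} := Nc_eq (by simpa using hbx) (by simp [hb.2.2.1])
    have hz : ∀ y, y ∉ c.O → c.s b ≠ c.s y → c.w b y = 0 := by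
      intro y hy hs
      by_contra hw
      have : c.C b y := ⟨hb.2.1, fun h => hy (hopt.2.1.1 h), hs, Nat.pos_of_ne_zero hw⟩
      have := mem_Nc.2 this
      rw [hNc, mem_singleton] at this
      exact hy (this ▸ hx)
    have hbm : b ∈ ({b} ∪ ∅ : Finset X) := by simp
    have h4 : (c.fl ({b} ∪ ∅)).PP < c.PP := by
      unfold PP
      refine Finset.sum_lt_sum ?_ ⟨(b, b'), mem_univ _, ?_⟩
      · rintro ⟨u, v⟩ -
        simp only [fl_O, fl_s, fl_w]
        by_cases hu : u = b
        · subst hu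
          by_cases hv' : v = u
          · subst hv'; simp [c.diag]
          · have hvm : v ∉ ({u} ∪ ∅ : Finset X) := by simp [hv']
            rw [flip_mem hbm, flip_not_mem hvm]
            split_ifs with h5 h6
            · exact le_rfl
            · refine (hz v h5.2.1 ?_).le
              have := h5.2.2
              revert this; cases c.s u <;> cases c.s v <;> simp
            · exact Nat.zero_le _
            · exact le_rfl
        · have hum : u ∉ ({b} ∪ ∅ : Finset X) := by simp [hu]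
          by_cases hv' : v = b
          · subst hv'
            rw [flip_mem hbm, flip_not_mem hum]
            split_ifs with h5 h6
            · exact le_rfl
            · rw [c.symm]
              refine (hz u h5.1 ?_).le
              have := h5.2.2
              revert this; cases c.s u <;> cases c.s v <;> simp
            · exact Nat.zero_le _
            · exact le_rfl
          · have hvm : v ∉ ({b} ∪ ∅ : Finset X) := by simp [hv']
            rw [flip_not_mem hum, flip_not_mem hvm]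
      · have hvm : b' ∉ ({b} ∪ ∅ : Finset X) := by simp [hbb.ne.symm]
        simp only [fl_O, fl_s, fl_w]
        have e1 : ¬ (b ∉ c.O ∧ b' ∉ c.O ∧ (!c.s b) = c.s b') := by rw [hbb.side]; simp
        have e2 : b ∉ c.O ∧ b' ∉ c.O ∧ c.s b = c.s b' := ⟨hb.1, hb', hbb.side⟩
        rw [flip_mem hbm, flip_not_mem hvm, if_neg e1, if_pos e2]
        exact hbb.pos
    omega

end St

end

end Pool.Agent.Lib.MP_bb98d0_co
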