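import Pool.Agent.Lib.MP_bb98d0_co.Contract
import Pool.Agent.Lib.MP_bb98d0_co.Brooks

/-!
The lower bound for graphs.
-/

namespace Pool.Agent.Lib.MP_bb98d0_co
open Finset

noncomputable section

variable {V : Type*} [Fintype V] [DecidableEq V] (G : SimpleGraph V) [DecidableRel G.Adj]

def aw (G : SimpleGraph V) [DecidableRel G.Adj] (x y : V) : ℕ := if G.Adj x y then 1 else 0

omit [Fintype V] [DecidableEq V] in
lemma aw_symm (x y : V) : aw G x y = aw G y x := by simp [aw, G.adj_comm]

omit [Fintype V] [DecidableEq V] in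
lemma aw_pos {x y : V} : 0 < aw G x y ↔ G.Adj x y := by
  unfold aw; split_ifs with h <;> simp [h]

omit [DecidableEq V] in
lemma aw_deg (x : V) : ∑ y, aw G x y = G.degree x := by
  rw [SimpleGraph.degree, SimpleGraph.neighborFinset_eq_filter, card_filter]; rfl

lemma Dv_cut (S : Finset V) :
    Dv (aw G) (fun x => decide (x ∈ S)) + 2 * G.edgeFinset.card
      = 4 * (G.interedges S Sᶜ).card := by
  have h1 : (2 * G.edgeFinset.card : ℤ) = ∑ x, ∑ y, (aw G x y : ℤ) := by
    have := G.sum_degrees_eq_twice_card_edges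
    simp only [← aw_deg] at this
    exact_mod_cast this.symm
  have h2 : ((G.interedges S Sᶜ).card : ℤ)
      = ∑ x, ∑ y, if x ∈ S ∧ y ∉ S then (aw G x y : ℤ) else 0 := by
    rw [← Fintype.sum_prod_type', Finset.card_eq_sum_ones, ← Finset.sum_filter]
    push_cast
    symm
    rw [← Finset.sum_subset (s₁ := G.interedges S Sᶜ)]
    · refine Finset.sum_congr rfl fun p hp => ?_
      rw [SimpleGraph.mem_interedges_iff] at hp
      simp [aw, hp.2.2]
    · intro p hp
      rw [SimpleGraph.mem_interedges_iff] at hp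
      simpa using ⟨hp.1, mem_compl.1 hp.2.1⟩
    · intro p hp hn
      rw [SimpleGraph.mem_interedges_iff] at hn
      simp only [mem_filter, mem_univ, true_and] at hp
      have : ¬ G.Adj p.1 p.2 := fun h => hn ⟨hp.1, by simpa using hp.2, h⟩
      simp [aw, this]
  have h3 : ∑ x, ∑ y, (if x ∈ S ∧ y ∉ S then (aw G x y : ℤ) else 0)
      = ∑ x, ∑ y, (if y ∈ S ∧ x ∉ S then (aw G x y : ℤ) else 0) := by
    rw [Finset.sum_comm]
    exact Finset.sum_congr rfl fun x _ => Finset.sum_congr rfl fun y _ => by rw [aw_symm]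
  have h4 : Dv (aw G) (fun x => decide (x ∈ S)) + ∑ x, ∑ y, (aw G x y : ℤ)
      = 2 * ∑ x, ∑ y, (if x ∈ S ∧ y ∉ S then (aw G x y : ℤ) else 0)
        + 2 * ∑ x, ∑ y, (if y ∈ S ∧ x ∉ S then (aw G x y : ℤ) else 0) := by
    unfold Dv
    simp only [Finset.mul_sum, ← Finset.sum_add_distrib]
    refine Finset.sum_congr rfl fun x _ => Finset.sum_congr rfl fun y _ => ?_
    by_cases hx : x ∈ S <;> by_cases hy : y ∈ S <;> simp [hx, hy, sg] <;> ring
  rw [h1, h4, h2, ← h3]; ring

variable {G}

lemma brooks {k : ℕ} (hk : 3 ≤ k) (hreg : G.IsRegularOfDegree k) (hK : G.CliqueFree (k + 1)) :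
    ∃ c : V → Fin k, ∀ x y, G.Adj x y → c x ≠ c y := by
  obtain ⟨c, hc⟩ := brooks_aux (A := G.Adj) hk (fun _ _ h => h.symm) (fun x => G.irrefl)
    (fun v B hB => by
      rw [← hreg.degree_eq v]
      exact card_le_card fun y hy => by simpa using hB y hy)
    (fun B hB => by
      by_contra hn
      push Not at hn
      exact hK B ⟨fun x hx y hy hne => hn x hx y hy hne, hB⟩) univ
  exact ⟨c, fun x y h => hc x (mem_univ _) y (mem_univ _) h⟩

omit [DecidableEq V] in
lemma sum_aw {k : ℕ} (hreg : G.IsRegularOfDegree k) :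
    ∑ x, ∑ y, (aw G x y : ℤ) = Fintype.card V * k := by
  have : ∀ x, ∑ y, (aw G x y : ℤ) = k := fun x => by
    rw [← hreg.degree_eq x, ← aw_deg]; push_cast; rfl
  simp [this]

lemma lower4 (hreg : G.IsRegularOfDegree 4) (hK : G.CliqueFree 5) :
    ∃ s, 4 * (Fintype.card V : ℤ) ≤ 3 * Dv (aw G) s := by
  obtain ⟨c, hc⟩ := brooks (k := 4) (by norm_num) hreg hK
  have key : ∀ a b : Fin 4, a ≠ b → sg (decide (a = 0 ∨ a = 1)) (decide (b = 0 ∨ b = 1))
      + sg (decide (a = 0 ∨ a = 2)) (decide (b = 0 ∨ b = 2))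
      + sg (decide (a = 0 ∨ a = 3)) (decide (b = 0 ∨ b = 3)) = 1 := by decide
  have h1 : Dv (aw G) (fun x => decide (c x = 0 ∨ c x = 1))
      + Dv (aw G) (fun x => decide (c x = 0 ∨ c x = 2))
      + Dv (aw G) (fun x => decide (c x = 0 ∨ c x = 3)) = ∑ x, ∑ y, (aw G x y : ℤ) := by
    unfold Dv
    simp only [← Finset.sum_add_distrib, ← mul_add]
    refine Finset.sum_congr rfl fun x _ => Finset.sum_congr rfl fun y _ => ?_
    by_cases h : G.Adj x y
    · rw [key _ _ (hc x y h), mul_one]
    · simp [aw, h]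
  rw [sum_aw hreg] at h1
  by_contra hn
  push Not at hn
  have := hn (fun x => decide (c x = 0 ∨ c x = 1))
  have := hn (fun x => decide (c x = 0 ∨ c x = 2))
  have := hn (fun x => decide (c x = 0 ∨ c x = 3))
  push_cast at h1
  omega

lemma lower3 (hreg : G.IsRegularOfDegree 3) (hK : G.CliqueFree 4) :
    ∃ s, 5 * (Fintype.card V : ℤ) ≤ 3 * Dv (aw G) s := by
  obtain ⟨c, hc⟩ := brooks (k := 3) (by norm_num) hreg hK
  have step : ∀ j : Fin 3, ∃ s, ∑ x, ∑ y, (if c x ≠ j ∧ c y ≠ j then (aw G x y : ℤ) else 0)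
      + 2 * ∑ x, (if c x = j then 1 else 0) ≤ Dv (aw G) s := by
    intro j
    set b : V → Bool := fun y => decide (c y = j + 1) with hb
    set s : V → Bool := fun x => if c x = j then decide (0 < hv (aw G) b x) == b x else b x
      with hs
    have hodd : ∀ x, 1 ≤ |hv (aw G) b x| := by
      intro x
      have h1 : ∑ y, (aw G x y : ℤ) = 3 := by
        have := aw_deg G x
        rw [hreg.degree_eq x] at this
        exact_mod_cast this
      have h2 : (2 : ℤ) ∣ hv (aw G) b x + ∑ y, (aw G x y : ℤ) := by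
        unfold hv
        rw [← Finset.sum_add_distrib]
        refine Finset.dvd_sum fun y _ => ?_
        unfold sg
        split_ifs
        · simp
        · exact ⟨aw G x y, by ring⟩
      rw [h1] at h2
      rcases abs_cases (hv (aw G) b x) with h | h <;> omega
    have hx : ∀ x, c x = j → 1 ≤ ∑ y, (aw G x y : ℤ) * sg (s x) (s y) := by
      intro x hx
      have e1 : ∑ y, (aw G x y : ℤ) * sg (s x) (s y) = ∑ y, (aw G x y : ℤ) * sg (s x) (b y) := by
        refine Finset.sum_congr rfl fun y _ => ?_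
        by_cases h : G.Adj x y
        · have : c y ≠ j := hx ▸ (hc x y h).symm
          simp [hs, this]
        · simp [aw, h]
      rw [e1]
      have := hodd x
      by_cases hp : 0 < hv (aw G) b x
      · have e2 : s x = b x := by simp [hs, hx, hp]
        rw [e2]
        rw [abs_of_pos hp] at this
        exact this
      · have e2 : s x = !(b x) := by simp [hs, hx, hp]
        rw [e2]
        simp only [sg_not_left, mul_neg, Finset.sum_neg_distrib]
        rw [abs_of_nonpos (by omega)] at this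
        exact this
    refine ⟨s, ?_⟩
    have e1 : Dv (aw G) s = ∑ x, ∑ y, (if c x ≠ j ∧ c y ≠ j then (aw G x y : ℤ) else 0)
        + ∑ x, ∑ y, (if c x = j then (aw G x y : ℤ) * sg (s x) (s y) else 0)
        + ∑ x, ∑ y, (if c y = j then (aw G x y : ℤ) * sg (s x) (s y) else 0) := by
      unfold Dv
      simp only [← Finset.sum_add_distrib]
      refine Finset.sum_congr rfl fun x _ => Finset.sum_congr rfl fun y _ => ?_
      by_cases h : G.Adj x y
      · have h1 := hc x y h
        by_cases h2 : c x = j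
        · have h3 : c y ≠ j := h2 ▸ h1.symm
          simp [h2, h3]
        · by_cases h3 : c y = j
          · simp [h2, h3]
          · have key : ∀ j a b : Fin 3, a ≠ b → a ≠ j → b ≠ j →
                sg (decide (a = j + 1)) (decide (b = j + 1)) = 1 := by decide
            simp [h2, h3, hs, hb, key j _ _ h1 h2 h3]
      · simp [aw, h]
    have e2 : ∑ x, ∑ y, (if c y = j then (aw G x y : ℤ) * sg (s x) (s y) else 0)
        = ∑ x, ∑ y, (if c x = j then (aw G x y : ℤ) * sg (s x) (s y) else 0) := by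
      rw [Finset.sum_comm]
      exact Finset.sum_congr rfl fun x _ => Finset.sum_congr rfl fun y _ => by
        rw [aw_symm, sg_comm]
    have e3 : ∑ x, (if c x = j then (1 : ℤ) else 0)
        ≤ ∑ x, ∑ y, (if c x = j then (aw G x y : ℤ) * sg (s x) (s y) else 0) := by
      refine Finset.sum_le_sum fun x _ => ?_
      by_cases h : c x = j
      · simpa [h] using hx x h
      · simp [h]
    rw [e1, e2]; linarith
  obtain ⟨s0, h0⟩ := step 0
  obtain ⟨s1, h1⟩ := step 1
  obtain ⟨s2, h2⟩ := step 2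
  have a1 : ∑ x, ∑ y, (if c x ≠ 0 ∧ c y ≠ 0 then (aw G x y : ℤ) else 0)
      + ∑ x, ∑ y, (if c x ≠ 1 ∧ c y ≠ 1 then (aw G x y : ℤ) else 0)
      + ∑ x, ∑ y, (if c x ≠ 2 ∧ c y ≠ 2 then (aw G x y : ℤ) else 0)
      = ∑ x, ∑ y, (aw G x y : ℤ) := by
    simp only [← Finset.sum_add_distrib]
    refine Finset.sum_congr rfl fun x _ => Finset.sum_congr rfl fun y _ => ?_
    by_cases h : G.Adj x y
    · have h1 := hc x y h
      have key : ∀ a b : Fin 3, a ≠ b → (if a ≠ 0 ∧ b ≠ 0 then (1 : ℤ) else 0)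
          + (if a ≠ 1 ∧ b ≠ 1 then (1 : ℤ) else 0) + (if a ≠ 2 ∧ b ≠ 2 then (1 : ℤ) else 0)
          = 1 := by decide
      simpa [aw, h] using key _ _ h1
    · simp [aw, h]
  have a2 : ∑ x, (if c x = 0 then (1 : ℤ) else 0) + ∑ x, (if c x = 1 then (1 : ℤ) else 0)
      + ∑ x, (if c x = 2 then (1 : ℤ) else 0) = Fintype.card V := by
    simp only [← Finset.sum_add_distrib]
    have key : ∀ a : Fin 3, (if a = 0 then (1 : ℤ) else 0) + (if a = 1 then (1 : ℤ) else 0)
        + (if a = 2 then (1 : ℤ) else 0) = 1 := by decide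
    simp [key]
  rw [sum_aw hreg] at a1
  by_contra hn
  push Not at hn
  have := hn s0; have := hn s1; have := hn s2
  push_cast at a1
  omega

theorem lower {k : ℕ} (hk : 3 ≤ k) (hreg : G.IsRegularOfDegree k) (hK : G.CliqueFree (k + 1)) :
    ∃ s, (Fintype.card V : ℚ) * (2 * ((k + 1) / 2 : ℕ) + 8 / 3) ≤ (k + 1) * Dv (aw G) s := by
  by_cases h3 : k = 3
  · subst h3
    obtain ⟨s, hs⟩ := lower3 hreg hK
    have : 5 * (Fintype.card V : ℚ) ≤ 3 * Dv (aw G) s := by exact_mod_cast hs
    exact ⟨s, by norm_num; linarith⟩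
  by_cases h4 : k = 4
  · subst h4
    obtain ⟨s, hs⟩ := lower4 hreg hK
    have : 4 * (Fintype.card V : ℚ) ≤ 3 * Dv (aw G) s := by exact_mod_cast hs
    exact ⟨s, by norm_num; linarith⟩
  let N : Net V :=
    { t := (k + 1) / 2
      e := k % 2
      w := aw G
      O := univ
      mu := fun _ => 0
      ht := by omega
      he := by omega
      symm := aw_symm G
      diag := fun x => by simp [aw]
      simple := fun x _ y _ => by unfold aw; split_ifs <;> simp
      degO := fun x _ => by rw [aw_deg, hreg.degree_eq x]; omega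
      degS := fun x hx => absurd (mem_univ x) hx }
  have hN : N.NoK := by
    intro v _ _
    by_contra hn
    push Not at hn
    refine hK (insert v (G.neighborFinset v)) ⟨fun x hx y hy hne => ?_, ?_⟩
    · have h1 : ∀ z, z ∈ (insert v (G.neighborFinset v) : Finset V) → z = v ∨ 0 < N.w v z :=
        fun z hz => by
          rcases mem_insert.1 hz with h | h
          · exact Or.inl h
          · exact Or.inr ((aw_pos G).2 (by simpa using h))
      exact (aw_pos G).1 (Nat.pos_of_ne_zero (hn x y hne (h1 x hx) (h1 y hy)))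
    · rw [card_insert_of_notMem (by simp), SimpleGraph.card_neighborFinset_eq_degree,
        hreg.degree_eq v]
  obtain ⟨s, hs⟩ := N.main hN
  refine ⟨s, ?_⟩
  have e1 : ∑ x, N.cost x = Fintype.card V * ((2 * ((k + 1) / 2 : ℕ) + 8 / 3) / (k + 1 : ℚ)) := by
    have : (2 * ((k + 1) / 2 : ℕ) + 1 - (k % 2 : ℕ) : ℚ) = k + 1 := by
      have : 2 * ((k + 1) / 2) + 1 = k + 1 + k % 2 := by omega
      have : (2 * ((k + 1) / 2 : ℕ) + 1 : ℚ) = k + 1 + (k % 2 : ℕ) := by exact_mod_cast this
      linarith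
    simp [Net.cost, N, this]
  rw [e1, ← mul_div_assoc, div_le_iff₀ (by positivity)] at hs
  linarith

end

end Pool.Agent.Lib.MP_bb98d0_co
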