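import Mathlib

/-!
Sparse halves of regular graphs: degrees into a set, twice the number of spanned edges,
and the exchange calculus for optimal sets.
-/

namespace Pool.Agent.Lib.MP_bb98d0_co.J
open Finset

variable {V : Type*} [Fintype V] [DecidableEq V] (G : SimpleGraph V) [DecidableRel G.Adj]

def ad (x y : V) : ℤ := if G.Adj x y then 1 else 0
def dg (S : Finset V) (v : V) : ℤ := ∑ u ∈ S, ad G v u
def E2 (S : Finset V) : ℤ := ∑ v ∈ S, dg G S v

variable {G}

omit [Fintype V] [DecidableEq V] in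
lemma ad_comm (x y : V) : ad G x y = ad G y x := by simp [ad, G.adj_comm]
omit [Fintype V] [DecidableEq V] in
lemma ad_self (x : V) : ad G x x = 0 := by simp [ad]
omit [Fintype V] [DecidableEq V] in
lemma ad_adj {x y : V} (h : G.Adj x y) : ad G x y = 1 := by simp [ad, h]
omit [Fintype V] [DecidableEq V] in
lemma ad_nadj {x y : V} (h : ¬ G.Adj x y) : ad G x y = 0 := by simp [ad, h]
omit [Fintype V] [DecidableEq V] in
lemma ad_adj' {x y : V} (h : G.Adj x y) : ad G y x = 1 := ad_adj h.symm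
omit [Fintype V] [DecidableEq V] in
lemma ad_nadj' {x y : V} (h : ¬ G.Adj x y) : ad G y x = 0 := ad_nadj fun g => h g.symm
omit [Fintype V] [DecidableEq V] in
lemma ad_nonneg (x y : V) : 0 ≤ ad G x y := by unfold ad; split_ifs <;> simp
omit [Fintype V] [DecidableEq V] in
lemma ad_le (x y : V) : ad G x y ≤ 1 := by unfold ad; split_ifs <;> simp
omit [Fintype V] [DecidableEq V] in
lemma adj_of_ad {x y : V} (h : ad G x y ≠ 0) : G.Adj x y := by
  by_contra hn; exact h (ad_nadj hn)

omit [Fintype V] [DecidableEq V] in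
lemma dg_card (S : Finset V) (v : V) : dg G S v = ((S.filter fun u => G.Adj v u).card : ℤ) := by
  unfold dg ad
  rw [card_filter]; push_cast; rfl

omit [Fintype V] [DecidableEq V] in
lemma dg_nonneg (S : Finset V) (v : V) : 0 ≤ dg G S v :=
  sum_nonneg fun _ _ => ad_nonneg _ _

omit [Fintype V] [DecidableEq V] in
lemma dg_mono {S T : Finset V} (h : S ⊆ T) (v : V) : dg G S v ≤ dg G T v :=
  sum_le_sum_of_subset_of_nonneg h fun _ _ _ => ad_nonneg _ _

omit [Fintype V] [DecidableEq V] in
lemma dg_le_card (S : Finset V) (v : V) : dg G S v ≤ S.card := by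
  rw [dg_card]; exact_mod_cast card_filter_le _ _

omit [Fintype V] in
lemma dg_insert {S : Finset V} {w : V} (h : w ∉ S) (v : V) :
    dg G (insert w S) v = dg G S v + ad G v w := by
  unfold dg; rw [sum_insert h]; ring

omit [Fintype V] in
lemma dg_erase {S : Finset V} {u : V} (h : u ∈ S) (v : V) :
    dg G (S.erase u) v = dg G S v - ad G v u := by
  unfold dg; rw [← add_sum_erase S _ h]; ring

omit [Fintype V] in
lemma dg_sdiff {S T : Finset V} (h : T ⊆ S) (v : V) :
    dg G (S \ T) v = dg G S v - dg G T v := by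
  unfold dg; rw [← sum_sdiff h]; ring

omit [Fintype V] [DecidableEq V] in
/-- a set all of whose points are neighbours of `v` -/
lemma card_le_dg {S T : Finset V} {v : V} (h : T ⊆ S) (h' : ∀ u ∈ T, G.Adj v u) :
    (T.card : ℤ) ≤ dg G S v := by
  rw [dg_card]
  exact_mod_cast card_le_card fun u hu => mem_filter.2 ⟨h hu, h' u hu⟩

omit [Fintype V] [DecidableEq V] in
/-- if all neighbours of `v` in `S` lie in `T` -/
lemma dg_le_dg {S T : Finset V} {v : V} (h : ∀ u ∈ S, G.Adj v u → u ∈ T) :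
    dg G S v ≤ dg G T v := by
  rw [dg_card, dg_card]
  exact_mod_cast card_le_card fun u hu =>
    mem_filter.2 ⟨h u (mem_filter.1 hu).1 (mem_filter.1 hu).2, (mem_filter.1 hu).2⟩

omit [Fintype V] [DecidableEq V] in
lemma all_adj {S : Finset V} {v : V} (h : (S.card : ℤ) ≤ dg G S v) : ∀ u ∈ S, G.Adj v u := by
  rw [dg_card] at h
  have h1 : S.filter (fun u => G.Adj v u) = S :=
    eq_of_subset_of_card_le (filter_subset _ _) (by exact_mod_cast h)
  intro u hu
  rw [← h1] at hu
  exact (mem_filter.1 hu).2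

omit [Fintype V] [DecidableEq V] in
lemma ex_nadj {S : Finset V} {v : V} (h : dg G S v < S.card) : ∃ u ∈ S, ¬ G.Adj v u := by
  by_contra hn
  push Not at hn
  have := card_le_dg (Subset.refl S) hn
  omega

omit [Fintype V] [DecidableEq V] in
lemma ex_adj {S : Finset V} {v : V} (h : 0 < dg G S v) : ∃ u ∈ S, G.Adj v u := by
  rw [dg_card] at h
  obtain ⟨u, hu⟩ := card_pos.1 (by exact_mod_cast h : 0 < (S.filter fun u => G.Adj v u).card)
  exact ⟨u, (mem_filter.1 hu).1, (mem_filter.1 hu).2⟩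

omit [Fintype V] [DecidableEq V] in
lemma sum_dg_comm (S T : Finset V) : ∑ v ∈ S, dg G T v = ∑ u ∈ T, dg G S u := by
  unfold dg
  rw [sum_comm]
  exact sum_congr rfl fun _ _ => sum_congr rfl fun _ _ => ad_comm _ _

omit [Fintype V] in
lemma E2_insert {S : Finset V} {w : V} (h : w ∉ S) :
    E2 G (insert w S) = E2 G S + 2 * dg G S w := by
  unfold E2
  rw [sum_insert h, dg_insert h, ad_self]
  simp only [dg_insert h, sum_add_distrib]
  have : ∑ v ∈ S, ad G v w = dg G S w := sum_congr rfl fun _ _ => ad_comm _ _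
  rw [this]; ring

omit [Fintype V] in
lemma E2_erase {S : Finset V} {u : V} (h : u ∈ S) :
    E2 G (S.erase u) = E2 G S - 2 * dg G S u := by
  have h1 := E2_insert (G := G) (notMem_erase u S)
  rw [insert_erase h, dg_erase h, ad_self] at h1
  linarith

omit [Fintype V] in
lemma E2_even (S : Finset V) : 2 ∣ E2 G S := by
  induction S using Finset.induction_on with
  | empty => simp [E2]
  | insert w S h ih => rw [E2_insert h]; exact dvd_add ih (dvd_mul_right _ _)

variable (G) in
def Reg (k : ℤ) : Prop := ∀ v, dg G univ v = k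

lemma Reg.compl {k : ℤ} (h : Reg G k) (S : Finset V) (v : V) : dg G Sᶜ v = k - dg G S v := by
  rw [compl_eq_univ_sdiff, dg_sdiff (subset_univ _), h v]

lemma Reg.cut {k : ℤ} (h : Reg G k) (S : Finset V) :
    ∑ w ∈ Sᶜ, dg G S w = k * S.card - E2 G S := by
  rw [sum_dg_comm]
  simp only [h.compl, sum_sub_distrib, sum_const, nsmul_eq_mul, E2]
  ring

lemma Reg.E2_compl {k : ℤ} (h : Reg G k) (S : Finset V) :
    E2 G Sᶜ = E2 G S + k * (Sᶜ.card - S.card) := by
  have h1 := h.cut S
  have h2 : E2 G Sᶜ = ∑ w ∈ Sᶜ, (k - dg G S w) := sum_congr rfl fun _ _ => h.compl _ _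
  rw [h2, sum_sub_distrib, h1, sum_const, nsmul_eq_mul]; ring

variable (G) in
/-- `A` spans the least number of edges among the sets of its size -/
def Opt (h : ℕ) (A : Finset V) : Prop := A.card = h ∧ ∀ A' : Finset V, A'.card = h → E2 G A ≤ E2 G A'

lemma exists_opt {h : ℕ} (hh : h ≤ Fintype.card V) : ∃ A, Opt G h A := by
  obtain ⟨A0, -, hA0⟩ := exists_subset_card_eq (s := (univ : Finset V)) (n := h) (by simpa using hh)
  obtain ⟨A, hA, hmin⟩ := exists_min_image (univ.filter fun A : Finset V => A.card = h) (E2 G)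
    ⟨A0, by simp [hA0]⟩
  exact ⟨A, (mem_filter.1 hA).2, fun A' h' => hmin A' (by simp [h'])⟩

/-- exchange of `u` for `w` -/
def sw (A : Finset V) (u w : V) : Finset V := insert w (A.erase u)

omit [Fintype V] in
lemma mem_sw {A : Finset V} {u w v : V} : v ∈ sw A u w ↔ v = w ∨ (v ≠ u ∧ v ∈ A) := by
  simp [sw]

omit [Fintype V] in
lemma sw_card {A : Finset V} {u w : V} (hu : u ∈ A) (hw : w ∉ A) : (sw A u w).card = A.card := by
  unfold sw
  rw [card_insert_of_notMem (fun h => hw (mem_of_mem_erase h)), card_erase_add_one hu]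

omit [Fintype V] in
lemma dg_sw {A : Finset V} {u w : V} (hu : u ∈ A) (hw : w ∉ A) (v : V) :
    dg G (sw A u w) v = dg G A v - ad G v u + ad G v w := by
  unfold sw
  rw [dg_insert (fun h => hw (mem_of_mem_erase h)), dg_erase hu]

omit [Fintype V] in
lemma E2_sw {A : Finset V} {u w : V} (hu : u ∈ A) (hw : w ∉ A) :
    E2 G (sw A u w) = E2 G A - 2 * dg G A u + 2 * (dg G A w - ad G u w) := by
  unfold sw
  rw [E2_insert (fun h => hw (mem_of_mem_erase h)), E2_erase hu, dg_erase hu, ad_comm w u]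

omit [Fintype V] in
lemma Opt.swap_le {h : ℕ} {A : Finset V} (hA : Opt G h A) {u w : V} (hu : u ∈ A) (hw : w ∉ A) :
    dg G A u + ad G u w ≤ dg G A w := by
  have := hA.2 (sw A u w) (by rw [sw_card hu hw, hA.1])
  rw [E2_sw hu hw] at this
  linarith

omit [Fintype V] [DecidableEq V] in
lemma Opt.of_eq {h : ℕ} {A A' : Finset V} (hA : Opt G h A) (h1 : A'.card = h)
    (h2 : E2 G A' = E2 G A) : Opt G h A' :=
  ⟨h1, fun B hB => h2 ▸ hA.2 B hB⟩

omit [Fintype V] [DecidableEq V] in
lemma Opt.E2_eq {h : ℕ} {A A' : Finset V} (hA : Opt G h A) (hA' : Opt G h A') :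
    E2 G A' = E2 G A := le_antisymm (hA'.2 A hA.1) (hA.2 A' hA'.1)

omit [Fintype V] in
lemma Opt.swap {h : ℕ} {A : Finset V} (hA : Opt G h A) {u w : V} (hu : u ∈ A) (hw : w ∉ A)
    (he : dg G A w = dg G A u + ad G u w) : Opt G h (sw A u w) :=
  hA.of_eq (by rw [sw_card hu hw, hA.1]) (by rw [E2_sw hu hw, he]; ring)

omit [Fintype V] [DecidableEq V] in
/-- counting the points where a nonnegative integer function vanishes -/
lemma card_sub_le {S : Finset V} {f : V → ℤ} (p : V → Prop) [DecidablePred p]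
    (h0 : ∀ v ∈ S, 0 ≤ f v) (h1 : ∀ v ∈ S, ¬ p v → 1 ≤ f v) :
    (S.card : ℤ) - (S.filter p).card ≤ ∑ v ∈ S, f v := by
  rw [card_filter, card_eq_sum_ones]
  push_cast
  rw [← sum_sub_distrib]
  refine sum_le_sum fun v hv => ?_
  split_ifs with hp
  · simpa using h0 v hv
  · simpa using h1 v hv hp

end Pool.Agent.Lib.MP_bb98d0_co.J
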