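import Pool.Agent.Lib.MP_bb98d0_co.J0

/-!
Sparsest halves of a `2t`-regular graph of odd order `2h - 1`: basic exchange lemmas.
-/

namespace Pool.Agent.Lib.MP_bb98d0_co.J
open Finset

variable {V : Type*} [Fintype V] [DecidableEq V] (G : SimpleGraph V) [DecidableRel G.Adj]

structure St (t : ℤ) (h : ℕ) (S : ℤ) (A : Finset V) : Prop where
  reg : Reg G (2 * t)
  n : (Fintype.card V : ℤ) = 2 * h - 1
  opt : Opt G h A
  e : E2 G A = t * h - S

def Mx (t : ℤ) (A : Finset V) : Finset V := A.filter fun v => dg G A v = t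
def Px (t : ℤ) (A : Finset V) : Finset V := A.filter fun v => ¬ dg G A v = t
def Wx (c : ℤ) (A : Finset V) : Finset V := Aᶜ.filter fun v => dg G A v = c

variable {G} {t : ℤ} {h : ℕ} {S : ℤ} {A : Finset V}

omit [Fintype V] [DecidableEq V] in
lemma mem_Mx {v : V} : v ∈ Mx G t A ↔ v ∈ A ∧ dg G A v = t := mem_filter
omit [Fintype V] [DecidableEq V] in
lemma mem_Px {v : V} : v ∈ Px G t A ↔ v ∈ A ∧ dg G A v ≠ t := mem_filter
lemma mem_Wx {v : V} : v ∈ Wx G t A ↔ v ∉ A ∧ dg G A v = t := by simp [Wx]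
omit [Fintype V] [DecidableEq V] in
lemma Mx_sub : Mx G t A ⊆ A := filter_subset _ _
omit [Fintype V] [DecidableEq V] in
lemma Px_sub : Px G t A ⊆ A := filter_subset _ _
lemma Wx_sub : Wx G t A ⊆ Aᶜ := filter_subset _ _

omit [Fintype V] [DecidableEq V] in
lemma sum_MP (f : V → ℤ) : ∑ v ∈ A, f v = ∑ v ∈ Mx G t A, f v + ∑ v ∈ Px G t A, f v :=
  (sum_filter_add_sum_filter_not _ _ _).symm

omit [Fintype V] [DecidableEq V] in
lemma dg_MP (v : V) : dg G A v = dg G (Mx G t A) v + dg G (Px G t A) v := sum_MP _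

omit [Fintype V] in
lemma dg_lt_card {T : Finset V} {v : V} (hv : v ∈ T) : dg G T v ≤ T.card - 1 := by
  have h1 := dg_erase (G := G) hv v
  have h2 := dg_le_card (G := G) (T.erase v) v
  have h3 := card_erase_add_one hv
  rw [ad_self] at h1
  omega

omit [Fintype V] in
lemma nn_mono {T U : Finset V} (hT : T ⊆ U) (v : V) :
    (T.card : ℤ) - dg G T v ≤ U.card - dg G U v := by
  have h1 := dg_sdiff (G := G) hT v
  have h2 := dg_le_card (G := G) (U \ T) v
  have h3 := card_sdiff_add_card_eq_card hT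
  omega

omit [Fintype V] [DecidableEq V] in
lemma card_le_nn {T : Finset V} {u u' : V} (h : ∀ w ∈ T, ¬ (G.Adj u w ∧ G.Adj u' w)) :
    dg G T u + dg G T u' ≤ T.card := by
  unfold dg
  rw [← sum_add_distrib, card_eq_sum_ones]
  push_cast
  refine sum_le_sum fun w hw => ?_
  have := h w hw
  have h1 := ad_le (G := G) u w
  have h2 := ad_le (G := G) u' w
  by_cases h3 : G.Adj u w
  · rw [ad_nadj (fun g => this ⟨h3, g⟩)]; omega
  · rw [ad_nadj h3]; omega

namespace St

lemma cardA (H : St G t h S A) : (A.card : ℤ) = h := by rw [H.opt.1]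

lemma cardB (H : St G t h S A) : (Aᶜ.card : ℤ) = h - 1 := by
  have h1 := card_add_card_compl A
  have := H.n
  have := H.cardA
  omega

lemma dg_mv (H : St G t h S A) {u : V} (hu : u ∈ A) (v : V) :
    dg G (insert u Aᶜ) v = 2 * t - dg G A v + ad G v u := by
  rw [dg_insert (by simpa using hu), H.reg.compl]

lemma E2_mv (H : St G t h S A) {u : V} (hu : u ∈ A) :
    E2 G (insert u Aᶜ) = E2 G A + 2 * (t - dg G A u) := by
  rw [E2_insert (by simpa using hu), H.reg.E2_compl, H.reg.compl, H.cardA, H.cardB]; ring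

lemma card_mv (H : St G t h S A) {u : V} (hu : u ∈ A) : (insert u Aᶜ).card = h := by
  have := H.cardB
  rw [card_insert_of_notMem (by simpa using hu)]; omega

lemma le_t (H : St G t h S A) {u : V} (hu : u ∈ A) : dg G A u ≤ t := by
  have := H.opt.2 _ (H.card_mv hu)
  rw [H.E2_mv hu] at this
  omega

lemma of_eq (H : St G t h S A) {A' : Finset V} (h1 : A'.card = h) (h2 : E2 G A' = E2 G A) :
    St G t h S A' := ⟨H.reg, H.n, H.opt.of_eq h1 h2, h2.trans H.e⟩

lemma mv (H : St G t h S A) {u : V} (hu : u ∈ A) (he : dg G A u = t) :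
    St G t h S (insert u Aᶜ) :=
  H.of_eq (H.card_mv hu) (by rw [H.E2_mv hu, he]; ring)

lemma swap_le (H : St G t h S A) {u w : V} (hu : u ∈ A) (hw : w ∉ A) :
    dg G A u + ad G u w ≤ dg G A w := H.opt.swap_le hu hw

lemma swap (H : St G t h S A) {u w : V} (hu : u ∈ A) (hw : w ∉ A)
    (he : dg G A w = dg G A u + ad G u w) : St G t h S (sw A u w) :=
  H.of_eq (by rw [sw_card hu hw, H.opt.1]) (by rw [E2_sw hu hw, he]; ring)

lemma sumA (H : St G t h S A) : ∑ v ∈ A, (t - dg G A v) = S := by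
  have := H.e
  unfold E2 at this
  rw [sum_sub_distrib, this, sum_const, nsmul_eq_mul, H.cardA]; ring

lemma sumB (H : St G t h S A) : ∑ v ∈ Aᶜ, (dg G A v - t - 1) = S + t + 1 - h := by
  rw [sum_sub_distrib, sum_sub_distrib, H.reg.cut, H.e, sum_const, sum_const, nsmul_eq_mul,
    nsmul_eq_mul, H.cardA, H.cardB]; ring

lemma sumP (H : St G t h S A) : ∑ v ∈ Px G t A, (t - dg G A v) = S := by
  rw [← H.sumA, sum_MP (G := G) (t := t) (A := A)]
  have : ∑ v ∈ Mx G t A, (t - dg G A v) = 0 :=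
    sum_eq_zero fun v hv => by rw [(mem_Mx.1 hv).2]; ring
  rw [this, zero_add]

lemma ltP (H : St G t h S A) {x : V} (hx : x ∈ Px G t A) : dg G A x ≤ t - 1 := by
  have := H.le_t (mem_Px.1 hx).1
  have := (mem_Px.1 hx).2
  omega

lemma cardP (H : St G t h S A) : ((Px G t A).card : ℤ) ≤ S := by
  rw [← H.sumP, card_eq_sum_ones]
  push_cast
  exact sum_le_sum fun v hv => by have := H.ltP hv; omega

lemma cardMP (H : St G t h S A) : ((Mx G t A).card : ℤ) + (Px G t A).card = h := by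
  rw [← H.cardA]
  exact_mod_cast card_filter_add_card_filter_not _

/-- one point of `P` is compared with the number of points of `P` -/
lemma oneP (H : St G t h S A) {x : V} (hx : x ∈ Px G t A) :
    t - dg G A x + ((Px G t A).card - 1) ≤ S := by
  rw [← H.sumP, ← add_sum_erase _ _ hx]
  have h1 := card_erase_add_one hx
  have h2 : (((Px G t A).erase x).card : ℤ) ≤ ∑ v ∈ (Px G t A).erase x, (t - dg G A v) := by
    rw [card_eq_sum_ones]
    push_cast
    exact sum_le_sum fun v hv => by have := H.ltP (mem_of_mem_erase hv); omega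
  omega

lemma exM (H : St G t h S A) (hS : S < h) : ∃ u ∈ A, dg G A u = t := by
  have := H.cardP
  have := H.cardMP
  obtain ⟨u, hu⟩ := card_pos.1 (show 0 < (Mx G t A).card by omega)
  exact ⟨u, mem_Mx.1 hu⟩

lemma geB (H : St G t h S A) (hS : S < h) {w : V} (hw : w ∉ A) : t ≤ dg G A w := by
  obtain ⟨u, hu, he⟩ := H.exM hS
  have := H.swap_le hu hw
  have := ad_nonneg (G := G) u w
  omega

lemma nadj0 (H : St G t h S A) {u w : V} (hu : u ∈ A) (he : dg G A u = t) (hw : w ∉ A)
    (hw' : dg G A w = t) : ¬ G.Adj u w := fun g => by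
  have := H.swap_le hu hw
  rw [ad_adj g] at this
  omega

lemma adjP (H : St G t h S A) {x w : V} (hx : x ∈ A) (hw : w ∉ A) (hw' : dg G A w = t)
    (g : G.Adj w x) : x ∈ Px G t A :=
  mem_Px.2 ⟨hx, fun he => H.nadj0 hx he hw hw' g.symm⟩

lemma dgP (H : St G t h S A) {w : V} (hw : w ∉ A) (hw' : dg G A w = t) :
    dg G (Px G t A) w = t := by
  have h1 : dg G A w ≤ dg G (Px G t A) w := dg_le_dg fun u hu g => H.adjP hu hw hw' g
  have h2 := dg_mono (G := G) (Px_sub (G := G) (t := t) (A := A)) w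
  omega

lemma cardW0 (H : St G t h S A) (hS : S < h) : h - t - 1 - S ≤ (Wx G t A).card := by
  have h1 := H.sumB
  have h2 : - ((Wx G t A).card : ℤ) ≤ ∑ v ∈ Aᶜ, (dg G A v - t - 1) := by
    unfold Wx
    rw [card_filter]
    push_cast
    rw [← sum_neg_distrib]
    refine sum_le_sum fun v hv => ?_
    have := H.geB hS (mem_compl.1 hv)
    split_ifs <;> omega
  omega

/-- the number of non-neighbours in a part of the complement -/
lemma nnB (H : St G t h S A) {T : Finset V} (hT : T ⊆ Aᶜ) (v : V) :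
    (T.card : ℤ) - dg G T v ≤ h - 1 - 2 * t + dg G A v := by
  have := nn_mono (G := G) hT v
  rw [H.cardB, H.reg.compl] at this
  omega

lemma notboth (H : St G t h S A) {u u' w : V} (hu : u ∈ A) (he : dg G A u = t) (hu' : u' ∈ A)
    (he' : dg G A u' = t) (hne : u' ≠ u) (hn : ¬ G.Adj u u') (hw : w ∉ A)
    (hw' : dg G A w = t + 1) : ¬ (G.Adj u w ∧ G.Adj u' w) := fun g => by
  have := (H.mv hu he).swap_le (u := w) (w := u') (by simp [hw]) (by simp [hne, hu'])
  rw [H.dg_mv hu, H.dg_mv hu, ad_adj' g.1, ad_adj' g.2, ad_nadj' hn] at this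
  omega

end St

end Pool.Agent.Lib.MP_bb98d0_co.J
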