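import Pool.Agent.Lib.MP_bb98d0_co.J1

/-!
The case of surplus below `t`.
-/

namespace Pool.Agent.Lib.MP_bb98d0_co.J
open Finset

variable {V : Type*} [Fintype V] [DecidableEq V] {G : SimpleGraph V} [DecidableRel G.Adj]
variable {t : ℤ} {h : ℕ} {S : ℤ} {A : Finset V}

def Goal (t h S : ℤ) : Prop :=
  t * (4 * t + 1) + (2 * h - 1) * t ≤ 2 * S * (4 * t + 1) ∨
    3 * t * (2 * t + 1) + (2 * h - 1) * (t + 4) ≤ 6 * (2 * t + 1) * S

namespace St

lemma geB1 (H : St G t h S A) (hS : S < t) (hh : t < h) {w : V} (hw : w ∉ A) :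
    t + 1 ≤ dg G A w := by
  have h1 := H.geB (by omega) hw
  by_contra hn
  have h2 := H.dgP hw (by omega)
  have h3 := dg_le_card (G := G) (Px G t A) w
  have := H.cardP
  omega

lemma S_ge (H : St G t h S A) (hS : S < t) (hh : t < h) : h - t - 1 ≤ S := by
  have h1 := H.sumB
  have h2 : 0 ≤ ∑ v ∈ Aᶜ, (dg G A v - t - 1) :=
    sum_nonneg fun v hv => by have := H.geB1 hS hh (mem_compl.1 hv); omega
  omega

lemma cardW (H : St G t h S A) (hS : S < t) (hh : t < h) :
    2 * h - 2 - t - S ≤ (Wx G (t + 1) A).card := by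
  have h1 := card_sub_le (S := Aᶜ) (f := fun v => dg G A v - t - 1) (fun v => dg G A v = t + 1)
    (fun v hv => by have := H.geB1 hS hh (mem_compl.1 hv); omega)
    (fun v hv hp => by have := H.geB1 hS hh (mem_compl.1 hv); omega)
  rw [H.sumB, H.cardB] at h1
  unfold Wx
  omega

lemma Mclique (H : St G t h S A) (hS : S < t) (hh : t < h) {u u' : V} (hu : u ∈ A)
    (he : dg G A u = t) (hu' : u' ∈ A) (he' : dg G A u' = t) (hne : u' ≠ u) : G.Adj u u' := by
  by_contra hn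
  have h1 := card_le_nn (G := G) (T := Wx G (t + 1) A) (u := u) (u' := u') fun w hw =>
    H.notboth hu he hu' he' hne hn (mem_Wx.1 hw).1 (mem_Wx.1 hw).2
  have h2 := H.nnB (Wx_sub (G := G) (t := t + 1)) u
  have h3 := H.nnB (Wx_sub (G := G) (t := t + 1)) u'
  have h4 := H.cardW hS hh
  omega

lemma Lz (H : St G t h S A) (hS : S < t) (hh : t < h) {x w u u' : V} (hx : x ∈ A)
    (hx' : dg G A x = t - 1) (hw : w ∉ A) (hw' : dg G A w = t + 1) (hxw : G.Adj x w)
    (hu : u ∈ A) (he : dg G A u = t) (hu' : u' ∈ A) (he' : dg G A u' = t) (hne : u' ≠ u)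
    (hn : ¬ G.Adj x u) (hn' : ¬ G.Adj x u') : ¬ (G.Adj u w ∧ G.Adj u' w) := fun g => by
  have huu := H.Mclique hS hh hu he hu' he' hne
  have H' := H.swap hu hw (by rw [ad_adj g.1]; omega)
  have hxu : x ≠ u := fun e => by rw [e] at hx'; omega
  have hxu' : u' ≠ x := fun e => by rw [e] at he'; omega
  refine hn' (H'.Mclique hS hh (mem_sw.2 (Or.inr ⟨hxu, hx⟩)) ?_ (mem_sw.2 (Or.inr ⟨hne, hu'⟩)) ?_
    hxu')
  · rw [dg_sw hu hw, ad_nadj hn, ad_adj hxw]; omega
  · rw [dg_sw hu hw, ad_adj' huu, ad_adj g.2]; omega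

lemma zcount (H : St G t h S A) (hS : S < t) (hh : t < h) {x : V} (hx : x ∈ A)
    (hx' : dg G A x = t - 1) :
    ((Mx G t A).card - dg G (Mx G t A) x - 1) * (t + 1 - S) ≤ h - t - 1 := by
  set Z := (Mx G t A).filter fun u => ¬ G.Adj x u with hZ
  set Wn := (Wx G (t + 1) A).filter fun w => G.Adj x w with hWn
  have h1 : ((Mx G t A).card : ℤ) - dg G (Mx G t A) x = Z.card := by
    have := card_filter_add_card_filter_not (s := Mx G t A) (fun u => G.Adj x u)
    rw [dg_card, hZ]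
    omega
  have h2 : h - S ≤ (Wn.card : ℤ) := by
    have a1 := H.nnB (Wx_sub (G := G) (t := t + 1)) x
    have a2 := H.cardW hS hh
    rw [← dg_card]
    omega
  have h3 : ∑ w ∈ Wn, dg G Z w ≤ Wn.card := by
    rw [card_eq_sum_ones]
    push_cast
    refine sum_le_sum fun w hw => ?_
    obtain ⟨b1, b2⟩ := mem_filter.1 hw
    obtain ⟨b3, b4⟩ := mem_Wx.1 b1
    rw [dg_card]
    refine Int.ofNat_le.2 (card_le_one.2 fun u hu u' hu' => ?_)
    by_contra hne
    obtain ⟨c1, c2⟩ := mem_filter.1 hu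
    obtain ⟨c3, c4⟩ := mem_filter.1 c1
    obtain ⟨d1, d2⟩ := mem_filter.1 hu'
    obtain ⟨d3, d4⟩ := mem_filter.1 d1
    exact H.Lz hS hh hx hx' b3 b4 b2 (mem_Mx.1 d3).1 (mem_Mx.1 d3).2 (mem_Mx.1 c3).1
      (mem_Mx.1 c3).2 hne d4 c4 ⟨d2.symm, c2.symm⟩
  have h4 : (Z.card : ℤ) * (Wn.card - (h - t - 1)) ≤ ∑ u ∈ Z, dg G Wn u := by
    rw [← nsmul_eq_mul, ← sum_const]
    refine sum_le_sum fun u hu => ?_
    have a1 := H.nnB (T := Wn) ((filter_subset _ _).trans Wx_sub) u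
    have a2 := (mem_Mx.1 (mem_filter.1 hu).1).2
    omega
  rw [sum_dg_comm] at h4
  rw [h1]
  rcases Nat.eq_zero_or_pos Z.card with h0 | h0
  · rw [h0]; push_cast; omega
  · have h5 : (0 : ℤ) ≤ Z.card - 1 := by omega
    nlinarith [mul_le_mul_of_nonneg_left h2 h5]

lemma zle (H : St G t h S A) {x : V} (hx : x ∈ Px G t A) :
    ((Mx G t A).card : ℤ) - dg G (Mx G t A) x ≤ h - 1 - dg G A x := by
  have h1 : Mx G t A ⊆ A.erase x := fun u hu =>
    mem_erase.2 ⟨fun e => (mem_Px.1 hx).2 (e ▸ (mem_Mx.1 hu).2), (mem_Mx.1 hu).1⟩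
  have h2 := nn_mono (G := G) h1 x
  have h3 := card_erase_add_one (mem_Px.1 hx).1
  have := H.cardA
  rw [dg_erase (mem_Px.1 hx).1, ad_self] at h2
  omega

lemma dgPM (H : St G t h S A) (hS : S < t) (hh : t < h) {u : V} (hu : u ∈ Mx G t A) :
    dg G (Px G t A) u = t + 1 - (Mx G t A).card := by
  have h1 := dg_MP (G := G) (t := t) (A := A) u
  have h2 := dg_lt_card (G := G) hu
  have h3 := card_le_dg (G := G) (erase_subset u (Mx G t A)) (v := u) fun v hv =>
    H.Mclique hS hh (mem_Mx.1 hu).1 (mem_Mx.1 hu).2 (mem_Mx.1 (mem_of_mem_erase hv)).1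
      (mem_Mx.1 (mem_of_mem_erase hv)).2 (ne_of_mem_erase hv)
  have h4 := card_erase_add_one hu
  have h5 := (mem_Mx.1 hu).2
  omega

lemma sumz (H : St G t h S A) (hS : S < t) (hh : t < h) :
    ∑ x ∈ Px G t A, (h - t - 1 + ((Mx G t A).card - dg G (Mx G t A) x)) = (h - t - 1) * h := by
  rw [sum_add_distrib, sum_sub_distrib (fun _ => ((Mx G t A).card : ℤ)), sum_dg_comm,
    sum_congr rfl fun u hu => H.dgPM hS hh hu]
  simp only [sum_const, nsmul_eq_mul]
  have h1 : ((Px G t A).card : ℤ) = h - (Mx G t A).card := by have := H.cardMP; omega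
  rw [h1]; ring

lemma zterm (H : St G t h S A) (hh : t < h) {ζ : ℤ} (h1 : 1 ≤ ζ)
    (hz : ∀ x ∈ A, dg G A x = t - 1 → (Mx G t A).card - dg G (Mx G t A) x ≤ ζ) {x : V}
    (hx : x ∈ Px G t A) :
    h - t - 1 + ((Mx G t A).card - dg G (Mx G t A) x) ≤ (h - t - 1 + ζ) * (t - dg G A x) := by
  have a1 := H.ltP hx
  by_cases a2 : dg G A x = t - 1
  · have := hz x (mem_Px.1 hx).1 a2
    rw [a2]; nlinarith
  · have a3 := H.zle hx
    have a4 : 2 ≤ t - dg G A x := by omega
    have a5 : (0 : ℤ) ≤ h - t - 1 := by omega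
    nlinarith [mul_le_mul_of_nonneg_left a4 a5, mul_le_mul_of_nonneg_right h1 (by omega : 0 ≤ t - dg G A x)]

lemma mcount (H : St G t h S A) (hS : S < t) (hh : t < h) {ζ : ℤ} (h1 : 1 ≤ ζ)
    (hz : ∀ x ∈ A, dg G A x = t - 1 → (Mx G t A).card - dg G (Mx G t A) x ≤ ζ) :
    (h - t - 1) * h ≤ (h - t - 1 + ζ) * S := by
  rw [← H.sumz hS hh, ← H.sumP, mul_sum]
  exact sum_le_sum fun x hx => H.zterm hh h1 hz hx

lemma special (H : St G 5 8 4 A) : False := by
  have hS : (4 : ℤ) < 5 := by norm_num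
  have hh : (5 : ℤ) < (8 : ℕ) := by norm_num
  have hz : ∀ x ∈ A, dg G A x = 5 - 1 → (Mx G 5 A).card - dg G (Mx G 5 A) x ≤ 2 := fun x hx hx' => by
    have := H.zcount hS hh hx hx'
    omega
  have h1 := (sum_eq_sum_iff_of_le fun x hx => H.zterm hh (by norm_num) hz hx).1
    (by rw [H.sumz hS hh, ← mul_sum, H.sumP]; norm_num)
  have h2 : ∀ x ∈ Px G 5 A, dg G A x = 4 ∧ (Mx G 5 A).card - dg G (Mx G 5 A) x = 2 := by
    intro x hx
    have a1 := h1 x hx
    have a2 := H.zle hx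
    have a3 := H.ltP hx
    omega
  have h3 : ((Px G 5 A).card : ℤ) = 4 := by
    rw [← H.sumP, card_eq_sum_ones]
    push_cast
    exact sum_congr rfl fun x hx => by rw [(h2 x hx).1]; norm_num
  have h4 : ((Mx G 5 A).card : ℤ) = 4 := by have := H.cardMP; omega
  have h5 := H.cardW hS hh
  set W := Wx G (5 + 1) A with hW
  have key : ∀ x ∈ Px G 5 A, ∀ u ∈ Mx G 5 A, ¬ G.Adj x u →
      (W.card : ℤ) = 5 ∧ dg G W x = 4 ∧ dg G W u = 3 := by
    intro x hx u hu hn
    have a1 := h2 x hx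
    have a2 := card_erase_add_one hu
    obtain ⟨u', hu', hn'⟩ := ex_nadj (G := G) (S := (Mx G 5 A).erase u) (v := x)
      (by rw [dg_erase hu, ad_nadj hn]; omega)
    have hu2 := mem_of_mem_erase hu'
    have a3 := card_le_nn (G := G) (T := W.filter fun w => G.Adj x w) (u := u) (u' := u')
      fun w hw => H.Lz hS hh (mem_Px.1 hx).1 (by omega) (mem_Wx.1 (mem_filter.1 hw).1).1
        (mem_Wx.1 (mem_filter.1 hw).1).2 (mem_filter.1 hw).2 (mem_Mx.1 hu).1 (mem_Mx.1 hu).2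
        (mem_Mx.1 hu2).1 (mem_Mx.1 hu2).2 (ne_of_mem_erase hu') hn hn'
    have a4 := nn_mono (G := G) (filter_subset (fun w => G.Adj x w) W) u
    have a5 := nn_mono (G := G) (filter_subset (fun w => G.Adj x w) W) u'
    rw [← dg_card] at a3 a4 a5
    have a6 := H.nnB (T := W) Wx_sub x
    have a7 := H.nnB (T := W) Wx_sub u
    have a8 := H.nnB (T := W) Wx_sub u'
    have a9 := (mem_Mx.1 hu).2
    have a10 := (mem_Mx.1 hu2).2
    omega
  have h6 : ∀ x ∈ Px G 5 A, (W.card : ℤ) = 5 ∧ dg G W x = 4 := by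
    intro x hx
    have a1 := h2 x hx
    obtain ⟨u, hu, hn⟩ := ex_nadj (G := G) (S := Mx G 5 A) (v := x) (by omega)
    exact ⟨(key x hx u hu hn).1, (key x hx u hu hn).2.1⟩
  have h7 : ∀ u ∈ Mx G 5 A, dg G W u = 3 := by
    intro u hu
    have a1 := H.dgPM hS hh hu
    obtain ⟨x, hx, hn⟩ := ex_nadj (G := G) (S := Px G 5 A) (v := u) (by omega)
    exact (key x hx u hu fun g => hn g.symm).2.2
  have h8 := sum_dg_comm (G := G) A W
  rw [sum_MP (G := G) (t := 5), sum_congr rfl h7, sum_congr rfl fun x hx => (h6 x hx).2,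
    sum_congr rfl fun w (hw : w ∈ W) => (mem_Wx.1 hw).2] at h8
  simp only [sum_const, nsmul_eq_mul] at h8
  obtain ⟨x, hx⟩ := card_pos.1 (show 0 < (Px G 5 A).card by omega)
  have := (h6 x hx).1
  omega

lemma small (H : St G t h S A) (hS : S < t) (hh : t + 3 ≤ h) : Goal t h S := by
  have hh' : t < h := by omega
  have h0 := H.S_ge hS hh'
  have hz := fun x hx hx' => H.zcount hS hh' (x := x) hx hx'
  obtain ⟨q, hq⟩ : ∃ q : ℤ, (h : ℤ) = t + q + 1 := ⟨h - t - 1, by ring⟩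
  have e1 : (h : ℤ) - t - 1 = q := by omega
  by_cases h2 : S = t - 1
  · have h3 := H.mcount hS hh' (ζ := q / 2 + 1) (by omega) fun x hx hx' => by
      have := hz x hx hx'
      rw [h2, e1] at this
      omega
    rw [e1, hq, h2] at h3
    have h4 : 2 * q + 1 ≤ t := by
      by_contra hn
      have a1 : 2 * (q / 2 + 1) ≤ q + 2 := by omega
      have a2 : 0 ≤ t - 1 := by omega
      have a3 : t - 1 ≤ 2 * q - 1 := by omega
      nlinarith [mul_le_mul_of_nonneg_right a1 a2, mul_le_mul_of_nonneg_left a3 (by omega : 0 ≤ q + 2)]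
    have h5 : q + 5 ≤ t := by
      by_contra hn
      have a1 : q = 2 ∨ q = 3 := by omega
      rcases a1 with rfl | rfl
      · have a2 : t = 5 ∨ t = 6 := by omega
        rcases a2 with rfl | rfl
        · have a3 : h = 8 := by omega
          subst a3
          have a4 : S = 4 := by omega
          subst a4
          exact H.special
        · have a3 := E2_even (G := G) A
          rw [H.e, hq, h2] at a3
          omega
      · omega
    left
    rw [hq, h2]
    nlinarith [mul_le_mul_of_nonneg_right h5 (by omega : 0 ≤ t)]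
  by_cases h3 : S = t - 2 ∧ q = 3
  · obtain ⟨h3, rfl⟩ := h3
    have h4 := H.mcount hS hh' (ζ := 2) (by omega) fun x hx hx' => by
      have := hz x hx hx'
      rw [h3, e1] at this
      omega
    rw [e1, hq, h3] at h4
    have h5 : 11 ≤ t := by omega
    right
    rw [hq, h3]
    nlinarith
  have h4 := H.mcount hS hh' (ζ := q / 2) (by omega) fun x hx hx' => by
    have a1 := hz x hx hx'
    rw [e1] at a1
    set z := ((Mx G t A).card : ℤ) - dg G (Mx G t A) x
    by_cases a2 : z ≤ 1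
    · omega
    by_cases a3 : S = t - 2
    · rw [a3] at a1
      omega
    · have a4 : 4 ≤ t + 1 - S := by omega
      have := mul_le_mul_of_nonneg_left a4 (by omega : 0 ≤ z - 1)
      omega
  rw [e1] at h4
  have h5 : 2 * (h : ℤ) ≤ 3 * S := by
    have a1 : 2 * (q + q / 2) ≤ 3 * q := by omega
    have a2 : q * (2 * h) ≤ q * (3 * S) := by
      nlinarith [mul_le_mul_of_nonneg_right a1 (by omega : 0 ≤ S)]
    exact le_of_mul_le_mul_left a2 (by omega)
  right
  rw [hq] at h5 ⊢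
  nlinarith [mul_le_mul_of_nonneg_left h5 (by omega : 0 ≤ 2 * t + 1),
    mul_nonneg (by omega : 0 ≤ q) (by omega : 0 ≤ 6 * t - 4)]

end St

end Pool.Agent.Lib.MP_bb98d0_co.J
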