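import Pool.Agent.Lib.MP_bb98d0_co.J2

/-!
The case of surplus exactly `t` on more than `4t + 1` vertices.
-/

namespace Pool.Agent.Lib.MP_bb98d0_co.J
open Finset

variable {V : Type*} [Fintype V] [DecidableEq V] {G : SimpleGraph V} [DecidableRel G.Adj]
variable {t : ℤ} {h : ℕ} {S : ℤ} {A : Finset V}

omit [Fintype V] in
lemma sat {T X : Finset V} {v z : V} (hT : T ⊆ X) (h1 : ∀ u ∈ T, G.Adj v u) (hz : z ∈ X)
    (hz' : z ∉ T) (h2 : dg G X v ≤ T.card) : ¬ G.Adj v z := fun g => by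
  have := card_le_dg (G := G) (S := X) (T := insert z T) (v := v) (insert_subset hz hT)
    fun u hu => by
      rcases mem_insert.1 hu with rfl | hu
      · exact g
      · exact h1 u hu
  rw [card_insert_of_notMem hz'] at this
  omega

omit [Fintype V] [DecidableEq V] in
lemma dg_zero {T : Finset V} {v : V} (h : ∀ u ∈ T, ¬ G.Adj v u) : dg G T v = 0 :=
  sum_eq_zero fun u hu => ad_nadj (h u hu)

omit [Fintype V] [DecidableEq V] in
lemma nadj_of_zero {T : Finset V} {v : V} (h : dg G T v ≤ 0) : ∀ u ∈ T, ¬ G.Adj v u := by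
  intro u hu g
  have := card_le_dg (G := G) (S := T) (T := {u}) (v := v) (by simpa using hu) (by simpa using g)
  rw [card_singleton] at this
  omega

namespace St

lemma W0adj (H : St G t h S A) {w w' x u : V} (hw : w ∉ A) (e : dg G A w = t) (hw' : w' ∉ A)
    (e' : dg G A w' = t) (hne : w' ≠ w) (hx : x ∈ A) (ex : dg G A x = t - 1) (g : G.Adj w x)
    (g' : G.Adj w' x) (hu : u ∈ A) (eu : dg G A u = t) (hn : ¬ G.Adj x u) : G.Adj w w' := by
  by_contra hc
  have n1 := H.nadj0 hu eu hw e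
  have n2 := H.nadj0 hu eu hw' e'
  have H' := H.swap hu hw (by rw [ad_nadj n1]; omega)
  have hxu : x ≠ u := fun e => by rw [e] at ex; omega
  refine H'.nadj0 (u := x) (w := w') (mem_sw.2 (Or.inr ⟨hxu, hx⟩)) ?_ (by simp [mem_sw, hne, hw'])
    ?_ g'.symm
  · rw [dg_sw hu hw, ad_nadj hn, ad_adj' g]; omega
  · rw [dg_sw hu hw, ad_nadj' n2, ad_nadj' hc]; omega

lemma Pclq (H : St G t h S A) {w w' x y : V} (hw : w ∉ A) (e : dg G A w = t) (hw' : w' ∉ A)
    (e' : dg G A w' = t) (hww : G.Adj w w') (hx : x ∈ A) (ex : dg G A x = t - 1) (hy : y ∈ A)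
    (ey : dg G A y = t - 1) (hne : y ≠ x) (g1 : G.Adj w x) (g2 : G.Adj w' x) (g3 : G.Adj w y)
    (g4 : G.Adj w' y) : G.Adj x y := by
  by_contra hc
  have H' := H.swap hx hw (by rw [ad_adj' g1]; omega)
  refine H'.nadj0 (u := y) (w := w') (mem_sw.2 (Or.inr ⟨hne, hy⟩)) ?_
    (by simp [mem_sw, hww.ne', hw']) ?_ g4.symm
  · rw [dg_sw hx hw, ad_nadj' hc, ad_adj' g3]; omega
  · rw [dg_sw hx hw, ad_adj g2, ad_adj' hww]; omega

lemma W0clique (H : St G t h S A) (hS : S ≤ t + 1) (hb : 2 * t + 2 ≤ h) (ht : 2 ≤ t) {w w' : V}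
    (hw : w ∉ A) (e : dg G A w = t) (hw' : w' ∉ A) (e' : dg G A w' = t) (hne : w' ≠ w) :
    G.Adj w w' := by
  have h1 := H.dgP hw e
  have h2 := H.dgP hw' e'
  have h3 := H.cardP
  have h4 := H.cardMP
  have h5 : ∃ x ∈ Px G t A, dg G A x = t - 1 ∧ G.Adj w x ∧ G.Adj w' x := by
    by_contra hn
    push Not at hn
    by_cases h6 : ((Px G t A).card : ℤ) ≤ t
    · have a1 := all_adj (h6.trans h1.ge)
      have a2 := all_adj (h6.trans h2.ge)
      have a3 : ((Px G t A).card : ℤ) * 2 ≤ S := by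
        rw [← H.sumP, ← nsmul_eq_mul, ← sum_const]
        refine sum_le_sum fun x hx => ?_
        have := H.ltP hx
        have : dg G A x ≠ t - 1 := fun e => hn x hx e (a1 x hx) (a2 x hx)
        omega
      have := dg_le_card (G := G) (Px G t A) w
      omega
    · have := card_le_nn (G := G) (T := Px G t A) (u := w) (u' := w') fun x hx g => by
        have a1 := H.oneP hx
        have a2 := H.ltP hx
        exact hn x hx (by omega) g.1 g.2
      omega
  obtain ⟨x, hx, ex, g, g'⟩ := h5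
  obtain ⟨u, hu, hn⟩ := ex_nadj (G := G) (S := Mx G t A) (v := x) (by
    have := dg_mono (G := G) (Mx_sub (G := G) (t := t) (A := A)) x
    omega)
  exact H.W0adj hw e hw' e' hne (mem_Px.1 hx).1 ex g g' (mem_Mx.1 hu).1 (mem_Mx.1 hu).2 hn

lemma exW0 (H : St G t h t A) (hb : 2 * t + 2 ≤ h) (ht : 2 ≤ t) : ∃ w, w ∉ A ∧ dg G A w = t := by
  have := H.cardW0 (by omega)
  obtain ⟨w, hw⟩ := card_pos.1 (show 0 < (Wx G t A).card by omega)
  exact ⟨w, mem_Wx.1 hw⟩

lemma tP (H : St G t h t A) (hb : 2 * t + 2 ≤ h) (ht : 2 ≤ t) : ((Px G t A).card : ℤ) = t := by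
  obtain ⟨w, hw, e⟩ := H.exW0 hb ht
  have h1 := H.dgP hw e
  have h2 := dg_le_card (G := G) (Px G t A) w
  have h3 := H.cardP
  omega

lemma tdeg (H : St G t h t A) (hb : 2 * t + 2 ≤ h) (ht : 2 ≤ t) {x : V} (hx : x ∈ Px G t A) :
    dg G A x = t - 1 := by
  have := H.tP hb ht
  have := H.oneP hx
  have := H.ltP hx
  omega

lemma tadj (H : St G t h t A) {w x : V} (hw : w ∉ A) (e : dg G A w = t) (hx : x ∈ Px G t A) :
    G.Adj w x := all_adj (H.cardP.trans (H.dgP hw e).ge) x hx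

lemma noMP (H : St G t h t A) (hb : 2 * t + 2 ≤ h) (ht : 2 ≤ t) (h2 : 1 < (Wx G t A).card) :
    ∀ x ∈ Px G t A, ∀ u ∈ Mx G t A, ¬ G.Adj x u := by
  obtain ⟨w, hw, w', hw', hne⟩ := one_lt_card.1 h2
  obtain ⟨hw, e⟩ := mem_Wx.1 hw
  obtain ⟨hw', e'⟩ := mem_Wx.1 hw'
  have hww := H.W0clique (by omega) hb ht hw e hw' e' hne.symm
  intro x hx u hu
  refine sat (T := (Px G t A).erase x) (X := A) ((erase_subset _ _).trans Px_sub) (fun y hy => ?_)
    (mem_Mx.1 hu).1 (fun g => (mem_Px.1 (mem_of_mem_erase g)).2 (mem_Mx.1 hu).2) ?_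
  · have hy' := mem_of_mem_erase hy
    exact H.Pclq hw e hw' e' hww (mem_Px.1 hx).1 (H.tdeg hb ht hx) (mem_Px.1 hy').1
      (H.tdeg hb ht hy') (ne_of_mem_erase hy) (H.tadj hw e hx) (H.tadj hw' e' hx)
      (H.tadj hw e hy') (H.tadj hw' e' hy')
  · have := card_erase_add_one hx
    have := H.tP hb ht
    have := H.tdeg hb ht hx
    omega

lemma eqt2 (H : St G t h t A) (hb : 2 * t + 3 ≤ h) (hb' : h ≤ 3 * t + 1) : False := by
  have ht : 2 ≤ t := by omega
  have two : ∀ {A}, St G t h t A → ∀ x ∈ Px G t A, ∀ u ∈ Mx G t A, ¬ G.Adj x u := fun H =>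
    H.noMP (by omega) ht (by have := H.cardW0 (by omega); omega)
  obtain ⟨w, hw, e⟩ := H.exW0 (by omega) ht
  have dM : ∀ u ∈ Mx G t A, dg G (Mx G t A) u = t := fun u hu => by
    have a1 := dg_MP (G := G) (t := t) (A := A) u
    rw [dg_zero (T := Px G t A) fun x hx g => two H x hx u hu g.symm, (mem_Mx.1 hu).2] at a1
    omega
  obtain ⟨u, hu, eu⟩ := H.exM (by omega)
  have n1 := H.nadj0 hu eu hw e
  have H' := H.swap hu hw (by rw [ad_nadj n1]; omega)
  have hu' : u ∉ sw A u w := by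
    have : u ≠ w := fun g => hw (g ▸ hu)
    simp [mem_sw, this]
  have eu' : dg G (sw A u w) u = t := by rw [dg_sw hu hw, ad_self, ad_nadj n1]; omega
  have clo : ∀ y ∈ A, G.Adj u y → ∀ z ∈ A, G.Adj y z → z ≠ u → G.Adj u z := by
    intro y hy g z hz g' hne
    have a1 := H'.adjP (mem_sw.2 (Or.inr ⟨g.ne', hy⟩)) hu' eu' g
    have a2 : z ∈ sw A u w := mem_sw.2 (Or.inr ⟨hne, hz⟩)
    refine H'.tadj hu' eu' (mem_Px.2 ⟨a2, fun e => ?_⟩)
    exact two H' y a1 z (mem_Mx.2 ⟨a2, e⟩) g'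
  have huM := mem_Mx.2 ⟨hu, eu⟩
  set T := insert u ((Mx G t A).filter fun y => G.Adj u y) with hT
  have t1 : T ⊆ Mx G t A := insert_subset huM (filter_subset _ _)
  have t2 : (T.card : ℤ) = t + 1 := by
    have := dM u huM
    rw [dg_card] at this
    rw [hT, card_insert_of_notMem (by simp)]
    omega
  have t3 := card_sdiff_add_card_eq_card t1
  have t4 := H.tP (by omega) ht
  have t5 := H.cardMP
  obtain ⟨v, hv⟩ := card_pos.1 (show 0 < (Mx G t A \ T).card by omega)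
  have t6 := dg_lt_card (G := G) hv
  obtain ⟨v1, v2⟩ := mem_sdiff.1 hv
  have v3 : v ≠ u := fun g => v2 (g ▸ mem_insert_self _ _)
  have v4 : ¬ G.Adj u v := fun g => v2 (mem_insert_of_mem (mem_filter.2 ⟨v1, g⟩))
  rw [dg_sdiff t1, dM v v1, dg_zero (T := T) fun y hy g => by
    rcases mem_insert.1 hy with rfl | hy
    · exact v4 g.symm
    · exact v4 (clo y (Mx_sub (mem_filter.1 hy).1) (mem_filter.1 hy).2 v (Mx_sub v1) g.symm v3)]
    at t6
  omega

lemma eqt1' (H : St G t h t A) (hb : (h : ℤ) = 2 * t + 2) (ht : 2 ≤ t)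
    (free : ∀ K : Finset V, G.IsClique K → (K.card : ℤ) ≤ 2 * t)
    (two : ∀ x ∈ Px G t A, ∀ u ∈ Mx G t A, ¬ G.Adj x u) : False := by
  have t4 := H.tP (by omega) ht
  have t5 := H.cardMP
  have dM : ∀ u ∈ Mx G t A, dg G (Mx G t A) u = t := fun u hu => by
    have a1 := dg_MP (G := G) (t := t) (A := A) u
    rw [dg_zero (T := Px G t A) fun x hx g => two x hx u hu g.symm, (mem_Mx.1 hu).2] at a1
    omega
  have nn : ∀ u ∈ Mx G t A, ∃ u' ∈ Mx G t A, u' ≠ u ∧ ¬ G.Adj u u' := fun u hu => by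
    have a1 := card_erase_add_one hu
    obtain ⟨u', h1, h2⟩ := ex_nadj (G := G) (S := (Mx G t A).erase u) (v := u)
      (by rw [dg_erase hu, ad_self, dM u hu]; omega)
    exact ⟨u', mem_of_mem_erase h1, ne_of_mem_erase h1, h2⟩
  have Pc : ∀ x ∈ Px G t A, ∀ y ∈ Px G t A, y ≠ x → G.Adj x y := fun x hx y hy hne => by
    have a1 := dg_MP (G := G) (t := t) (A := A) x
    rw [dg_zero (two x hx), H.tdeg (by omega) ht hx] at a1
    have a2 := card_erase_add_one hx
    exact all_adj (S := (Px G t A).erase x) (by rw [dg_erase hx, ad_self]; omega) y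
      (mem_erase.2 ⟨hne, hy⟩)
  have Wc : ∀ w ∈ Wx G t A, ∀ w' ∈ Wx G t A, w' ≠ w → G.Adj w w' := fun w hw w' hw' hne =>
    H.W0clique (by omega) (by omega) ht (mem_Wx.1 hw).1 (mem_Wx.1 hw).2 (mem_Wx.1 hw').1
      (mem_Wx.1 hw').2 hne
  have c1 : ((Wx G t A).card : ℤ) ≤ t := by
    have a1 := free (Px G t A ∪ Wx G t A) fun x hx y hy hne => by
      rcases mem_union.1 (mem_coe.1 hx) with hx | hx <;> rcases mem_union.1 (mem_coe.1 hy) with hy | hy
      · exact Pc x hx y hy hne.symm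
      · exact (H.tadj (mem_Wx.1 hy).1 (mem_Wx.1 hy).2 hx).symm
      · exact H.tadj (mem_Wx.1 hx).1 (mem_Wx.1 hx).2 hy
      · exact Wc x hx y hy hne.symm
    rw [card_union_of_disjoint (disjoint_left.2 fun x hx hx' => (mem_Wx.1 hx').1 (Px_sub hx))] at a1
    omega
  have c2 : 2 * t + 2 ≤ 2 * (Wx G t A).card + (Wx G (t + 1) A).card := by
    have a1 := H.sumB
    have a2 : (Aᶜ.card : ℤ) - 2 * (Wx G t A).card - (Wx G (t + 1) A).card
        ≤ ∑ v ∈ Aᶜ, (dg G A v - t - 1) := by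
      unfold Wx
      rw [card_filter, card_filter, card_eq_sum_ones]
      push_cast
      rw [mul_sum, ← sum_sub_distrib, ← sum_sub_distrib]
      refine sum_le_sum fun v hv => ?_
      have := H.geB (by omega) (mem_compl.1 hv)
      split_ifs <;> omega
    have := H.cardB
    omega
  have claim : ∀ w ∈ Wx G t A, ∀ y ∈ Wx G (t + 1) A, G.Adj w y := by
    intro w hw y hy
    by_contra hc
    obtain ⟨hw, e⟩ := mem_Wx.1 hw
    obtain ⟨hy, ey⟩ := mem_Wx.1 hy
    have a1 := dg_MP (G := G) (t := t) (A := A) y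
    have a2 := dg_le_card (G := G) (Px G t A) y
    have nb : ∀ u ∈ Mx G t A, ∀ u' ∈ Mx G t A, u' ≠ u → ¬ G.Adj u u' →
        ¬ (G.Adj u y ∧ G.Adj u' y) := fun u hu u' hu' hne hn =>
      H.notboth (mem_Mx.1 hu).1 (mem_Mx.1 hu).2 (mem_Mx.1 hu').1 (mem_Mx.1 hu').2 hne hn hy ey
    obtain ⟨x, hx, gx⟩ : ∃ x ∈ Px G t A, G.Adj y x := by
      by_contra hn
      push Not at hn
      rw [dg_zero hn] at a1
      obtain ⟨u0, h0, n0⟩ := ex_nadj (G := G) (S := Mx G t A) (v := y) (by omega)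
      have b1 := card_erase_add_one h0
      have b2 := all_adj (G := G) (S := (Mx G t A).erase u0) (v := y)
        (by rw [dg_erase h0, ad_nadj n0]; omega)
      obtain ⟨u, hu, gu⟩ := ex_adj (G := G) (S := Mx G t A) (v := u0) (by rw [dM u0 h0]; omega)
      obtain ⟨u', hu', hne, hn'⟩ := nn u hu
      exact nb u hu u' hu' hne hn' ⟨(b2 u (mem_erase.2 ⟨gu.ne', hu⟩)).symm,
        (b2 u' (mem_erase.2 ⟨fun g => hn' (g ▸ gu.symm), hu'⟩)).symm⟩
    obtain ⟨u, hu, gu⟩ := ex_adj (G := G) (S := Mx G t A) (v := y) (by omega)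
    obtain ⟨u', hu', hne, hn'⟩ := nn u hu
    have n1 : ¬ G.Adj u' y := fun g => nb u hu u' hu' hne hn' ⟨gu.symm, g⟩
    obtain ⟨huA, eu⟩ := mem_Mx.1 hu
    obtain ⟨huA', eu'⟩ := mem_Mx.1 hu'
    have n2 := H.nadj0 huA eu hw e
    have n3 := H.nadj0 huA' eu' hw e
    have m1 : w ∈ insert u Aᶜ := by simp [hw]
    have m2 : u' ∉ insert u Aᶜ := by simp [hne, huA']
    have H' := (H.mv huA eu).swap m1 m2
      (by rw [H.dg_mv huA, H.dg_mv huA, ad_nadj' hn', ad_nadj' n2, ad_nadj' n3]; omega)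
    have ex := H.tdeg (by omega) ht hx
    have hxA := Px_sub hx
    have hyw : y ≠ w := fun g => by rw [g] at ey; omega
    have hxu : x ≠ u := fun g => by rw [g] at ex; omega
    have hxu' : x ≠ u' := fun g => by rw [g] at ex; omega
    refine H'.nadj0 (u := y) (w := x) (mem_sw.2 (Or.inr ⟨hyw, by simp [hy]⟩)) ?_
      (by simp [mem_sw, hxu, hxu', hxA]) ?_ gx
    · rw [dg_sw m1 m2, H.dg_mv huA, ad_adj gu, ad_nadj' hc, ad_nadj' n1]; omega
    · rw [dg_sw m1 m2, H.dg_mv huA, ad_nadj (two x hx u hu), ad_adj' (H.tadj hw e hx),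
        ad_nadj (two x hx u' hu')]; omega
  obtain ⟨w, hw, e⟩ := H.exW0 (by omega) ht
  have hwW := mem_Wx.2 ⟨hw, e⟩
  have c3 := card_le_dg (G := G) (S := Aᶜ) (T := (Wx G t A).erase w ∪ Wx G (t + 1) A) (v := w)
    (union_subset ((erase_subset _ _).trans Wx_sub) Wx_sub) fun y hy => by
      rcases mem_union.1 hy with hy | hy
      · exact Wc w hwW y (mem_of_mem_erase hy) (ne_of_mem_erase hy)
      · exact claim w hwW y hy
  rw [card_union_of_disjoint (disjoint_left.2 fun x hx hx' => by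
    have := (mem_Wx.1 hx').2
    have := (mem_Wx.1 (mem_of_mem_erase hx)).2
    omega), H.reg.compl, e] at c3
  have c4 := card_erase_add_one hwW
  omega

lemma eqt1 (H : St G t h t A) (hb : (h : ℤ) = 2 * t + 2) (ht : 2 ≤ t)
    (free : ∀ K : Finset V, G.IsClique K → (K.card : ℤ) ≤ 2 * t) : False := by
  refine H.eqt1' hb ht free fun x hx u hu g => ?_
  obtain ⟨huA, eu⟩ := mem_Mx.1 hu
  have H' := H.mv huA eu
  refine H'.eqt1' hb ht free (H'.noMP (by omega) ht ?_)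
  have a1 : (((Mx G t A).erase u).filter fun v => ¬ G.Adj u v) ⊆ Wx G t (insert u Aᶜ) := by
    intro v hv
    obtain ⟨b1, b2⟩ := mem_filter.1 hv
    obtain ⟨b3, b4⟩ := mem_Mx.1 (mem_of_mem_erase b1)
    refine mem_Wx.2 ⟨by simp [ne_of_mem_erase b1, b3], ?_⟩
    rw [H.dg_mv huA, ad_nadj' b2]; omega
  have a2 := card_le_card a1
  have a3 := card_filter_add_card_filter_not (s := (Mx G t A).erase u) (fun v => G.Adj u v)
  have a4 := dg_card (G := G) ((Mx G t A).erase u) u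
  rw [dg_erase hu, ad_self] at a4
  have a5 := card_erase_add_one hu
  have a6 := H.tP (by omega) ht
  have a7 := H.cardMP
  have a8 := dg_MP (G := G) (t := t) (A := A) u
  have a9 := card_le_dg (G := G) (S := Px G t A) (T := {x}) (v := u) (by simpa using hx)
    (by simpa using g.symm)
  rw [card_singleton] at a9
  omega

end St

end Pool.Agent.Lib.MP_bb98d0_co.J
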