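import Pool.Agent.Lib.MP_bb98d0_co.J3

/-!
The case of surplus exactly `t + 1` on at least `4t + 9` vertices.
-/

namespace Pool.Agent.Lib.MP_bb98d0_co.J
open Finset

variable {V : Type*} [Fintype V] [DecidableEq V] {G : SimpleGraph V} [DecidableRel G.Adj]
variable {t : ℤ} {h : ℕ} {S : ℤ} {A : Finset V}

namespace St

lemma three (H : St G t h (t + 1) A) (hb : 2 * t + 5 ≤ h) (ht : 2 ≤ t) :
    ∃ w1 w2 w3, (w1 ∉ A ∧ dg G A w1 = t) ∧ (w2 ∉ A ∧ dg G A w2 = t) ∧ (w3 ∉ A ∧ dg G A w3 = t) ∧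
      G.Adj w1 w2 ∧ G.Adj w1 w3 ∧ G.Adj w2 w3 := by
  have := H.cardW0 (by omega)
  obtain ⟨w1, w2, w3, h1, h2, h3, n1, n2, n3⟩ := two_lt_card_iff.1
    (show 2 < (Wx G t A).card by omega)
  have h1 := mem_Wx.1 h1
  have h2 := mem_Wx.1 h2
  have h3 := mem_Wx.1 h3
  exact ⟨w1, w2, w3, h1, h2, h3,
    H.W0clique le_rfl (by omega) ht h1.1 h1.2 h2.1 h2.2 n1.symm,
    H.W0clique le_rfl (by omega) ht h1.1 h1.2 h3.1 h3.2 n2.symm,
    H.W0clique le_rfl (by omega) ht h2.1 h2.2 h3.1 h3.2 n3.symm⟩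

lemma miss1 (H : St G t h (t + 1) A) {w p p' : V} (hw : w ∉ A) (e : dg G A w = t)
    (hp : p ∈ Px G t A) (hp' : p' ∈ Px G t A) (hne : p' ≠ p) : G.Adj w p ∨ G.Adj w p' := by
  by_contra hn
  push Not at hn
  have a0 : p' ∈ (Px G t A).erase p := mem_erase.2 ⟨hne, hp'⟩
  have a1 := dg_le_card (G := G) (((Px G t A).erase p).erase p') w
  rw [dg_erase a0, dg_erase hp, ad_nadj hn.1, ad_nadj hn.2, H.dgP hw e] at a1
  have := card_erase_add_one a0
  have := card_erase_add_one hp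
  have := H.cardP
  omega

lemma pairs (H : St G t h (t + 1) A) (hb : 2 * t + 5 ≤ h) (ht : 2 ≤ t) {a b c d : V}
    (ha : a ∈ A) (ea : dg G A a = t - 1) (hb' : b ∈ A) (eb : dg G A b = t - 1)
    (hc : c ∈ A) (ec : dg G A c = t - 1) (hd : d ∈ A) (ed : dg G A d = t - 1)
    (ab : b ≠ a) (cd : d ≠ c) (ac : c ≠ a) (ad' : d ≠ a) (bc : c ≠ b) (bd : d ≠ b)
    (n1 : ¬ G.Adj a b) (n2 : ¬ G.Adj c d) : False := by
  obtain ⟨w1, w2, w3, h1, h2, h3, g1, g2, g3⟩ := H.three hb ht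
  have pa : a ∈ Px G t A := mem_Px.2 ⟨ha, by omega⟩
  have pb : b ∈ Px G t A := mem_Px.2 ⟨hb', by omega⟩
  have pc : c ∈ Px G t A := mem_Px.2 ⟨hc, by omega⟩
  have pd : d ∈ Px G t A := mem_Px.2 ⟨hd, by omega⟩
  have one : ∀ w, w ∉ A ∧ dg G A w = t → (G.Adj w a ∧ G.Adj w b) ∨ (G.Adj w c ∧ G.Adj w d) := by
    intro w hw
    have b1 := H.miss1 hw.1 hw.2 pa pc ac
    have b2 := H.miss1 hw.1 hw.2 pa pd ad'
    have b3 := H.miss1 hw.1 hw.2 pb pc bc
    have b4 := H.miss1 hw.1 hw.2 pb pd bd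
    tauto
  have p1 : ∀ w w', w ∉ A ∧ dg G A w = t → w' ∉ A ∧ dg G A w' = t → G.Adj w w' →
      G.Adj w a ∧ G.Adj w b → G.Adj w' a ∧ G.Adj w' b → False := fun w w' hw hw' g x y =>
    n1 (H.Pclq hw.1 hw.2 hw'.1 hw'.2 g ha ea hb' eb ab x.1 y.1 x.2 y.2)
  have p2 : ∀ w w', w ∉ A ∧ dg G A w = t → w' ∉ A ∧ dg G A w' = t → G.Adj w w' →
      G.Adj w c ∧ G.Adj w d → G.Adj w' c ∧ G.Adj w' d → False := fun w w' hw hw' g x y =>
    n2 (H.Pclq hw.1 hw.2 hw'.1 hw'.2 g hc ec hd ed cd x.1 y.1 x.2 y.2)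
  rcases one w1 h1 with x1 | x1 <;> rcases one w2 h2 with x2 | x2 <;> rcases one w3 h3 with x3 | x3
  · exact p1 _ _ h1 h2 g1 x1 x2
  · exact p1 _ _ h1 h2 g1 x1 x2
  · exact p1 _ _ h1 h3 g2 x1 x3
  · exact p2 _ _ h2 h3 g3 x2 x3
  · exact p1 _ _ h2 h3 g3 x2 x3
  · exact p2 _ _ h1 h3 g2 x1 x3
  · exact p2 _ _ h1 h2 g1 x1 x2
  · exact p2 _ _ h1 h2 g1 x1 x2

lemma plus (H : St G t h (t + 1) A) (hb : 2 * t + 5 ≤ h) (ht : 2 ≤ t) :
    ∃ (X : Finset V) (s : V), s ∈ X ∧ dg G X s = t - 1 ∧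
      ∀ u ∈ X, u ≠ s → dg G X u = t ∧ St G t h (t + 1) (X.erase u) := by
  obtain ⟨w, -, -, ⟨hw, e⟩, -⟩ := H.three hb ht
  have h1 : ∀ v ∈ insert w A, dg G (insert w A) v ≤ t := by
    intro v hv
    rw [dg_insert hw]
    rcases mem_insert.1 hv with rfl | hv
    · rw [ad_self]; omega
    · by_cases g : G.Adj v w
      · have := H.ltP (H.adjP hv hw e g.symm)
        rw [ad_adj g]; omega
      · have := H.le_t hv
        rw [ad_nadj g]; omega
  have h0 : E2 G (insert w A) = E2 G A + 2 * t := by rw [E2_insert hw, e]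
  have hc := card_insert_of_notMem hw
  have h2 : ∑ v ∈ insert w A, (t - dg G (insert w A) v) = 1 := by
    rw [sum_sub_distrib, sum_const, nsmul_eq_mul, hc]
    have : ∑ v ∈ insert w A, dg G (insert w A) v = E2 G A + 2 * t := h0
    rw [this, H.e]
    push_cast
    rw [H.cardA]; ring
  obtain ⟨s, hs, hs'⟩ : ∃ s ∈ insert w A, dg G (insert w A) s ≠ t := by
    by_contra hn
    push Not at hn
    rw [sum_eq_zero fun v hv => by rw [hn v hv]; ring] at h2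
    omega
  rw [← add_sum_erase _ _ hs] at h2
  have h3 : ∀ v ∈ (insert w A).erase s, 0 ≤ t - dg G (insert w A) v := fun v hv => by
    have := h1 v (mem_of_mem_erase hv); omega
  have h4 := sum_nonneg h3
  have h5 := h1 s hs
  refine ⟨insert w A, s, hs, by omega, fun u hu hne => ?_⟩
  have h6 := single_le_sum h3 (mem_erase.2 ⟨hne, hu⟩)
  have h7 := h1 u hu
  have h8 : dg G (insert w A) u = t := by omega
  refine ⟨h8, H.of_eq ?_ (by rw [E2_erase hu, h0, h8]; ring)⟩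
  have := card_erase_add_one hu
  have := H.opt.1
  omega

lemma succ (H : St G t h (t + 1) A) (hb : 2 * t + 5 ≤ h) (ht : 3 ≤ t) : False := by
  have ht2 : 2 ≤ t := by omega
  obtain ⟨X, s, hs, es, hX⟩ := H.plus hb ht2
  obtain ⟨u, hu, gu⟩ := ex_adj (G := G) (S := X) (v := s) (by omega)
  obtain ⟨eu, H1⟩ := hX u hu gu.ne'
  have hsA : s ∈ X.erase u := mem_erase.2 ⟨gu.ne, hs⟩
  have es1 : dg G (X.erase u) s = t - 2 := by rw [dg_erase hu, ad_adj gu]; omega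
  have eu1 : dg G (X.erase u) u = t := by rw [dg_erase hu, ad_self]; omega
  have hsP : s ∈ Px G t (X.erase u) := mem_Px.2 ⟨hsA, by omega⟩
  have c1 : ((Px G t (X.erase u)).card : ℤ) ≤ t := by have := H1.oneP hsP; omega
  have allP : ∀ w, w ∉ X.erase u ∧ dg G (X.erase u) w = t → ∀ x ∈ Px G t (X.erase u), G.Adj w x :=
    fun w hw => all_adj (c1.trans (H1.dgP hw.1 hw.2).ge)
  have c2 : ((Px G t (X.erase u)).card : ℤ) = t := by
    have := H1.dgP (notMem_erase u X) eu1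
    have := dg_le_card (G := G) (Px G t (X.erase u)) u
    omega
  have uP := allP u ⟨notMem_erase u X, eu1⟩
  set N := (Px G t (X.erase u)).erase s with hN
  have cN : (N.card : ℤ) = t - 1 := by have := card_erase_add_one hsP; rw [hN]; omega
  have NP : ∀ y ∈ N, y ∈ Px G t (X.erase u) := fun y hy => mem_of_mem_erase hy
  have NA : ∀ y ∈ N, y ∈ X.erase u := fun y hy => Px_sub (NP y hy)
  have dN : ∀ y ∈ N, dg G (X.erase u) y = t - 1 := fun y hy => by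
    rw [dg_erase hu, (hX y (mem_of_mem_erase (NA y hy)) (ne_of_mem_erase hy)).1,
      ad_adj' (uP y (NP y hy))]
  obtain ⟨w1, w2, w3, h1, h2, h3, g1, g2, g3⟩ := H1.three hb ht2
  have Nc : ∀ x ∈ N, ∀ y ∈ N, y ≠ x → G.Adj x y := fun x hx y hy hne =>
    H1.Pclq h1.1 h1.2 h2.1 h2.2 g1 (NA x hx) (dN x hx) (NA y hy) (dN y hy) hne
      (allP _ h1 x (NP x hx)) (allP _ h2 x (NP x hx)) (allP _ h1 y (NP y hy))
      (allP _ h2 y (NP y hy))
  obtain ⟨x0, hx0, n0⟩ := ex_nadj (G := G) (S := N) (v := s) (by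
    have := dg_mono (G := G) (show N ⊆ X.erase u from NA) s
    omega)
  have sN : ∀ x ∈ N.erase x0, G.Adj s x := by
    intro x hx
    have hx' := mem_of_mem_erase hx
    have a0 := NA x0 hx0
    have a1 := allP _ h1 x0 (NP x0 hx0)
    have H' := H1.swap a0 h1.1 (by rw [ad_adj' a1, dN x0 hx0]; omega)
    refine H'.Pclq (w := w2) (w' := w3) (by simp only [mem_sw, g1.ne', h2.1]; simp) ?_
      (by simp only [mem_sw, g2.ne', h3.1]; simp) ?_ g3
      (mem_sw.2 (Or.inr ⟨(ne_of_mem_erase hx0).symm, hsA⟩)) ?_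
      (mem_sw.2 (Or.inr ⟨ne_of_mem_erase hx, NA x hx'⟩)) ?_ (ne_of_mem_erase hx')
      (allP _ h2 s hsP) (allP _ h3 s hsP) (allP _ h2 x (NP x hx')) (allP _ h3 x (NP x hx'))
    · rw [dg_sw a0 h1.1, ad_adj (allP _ h2 x0 (NP x0 hx0)), ad_adj' g1]; omega
    · rw [dg_sw a0 h1.1, ad_adj (allP _ h3 x0 (NP x0 hx0)), ad_adj' g2]; omega
    · rw [dg_sw a0 h1.1, ad_nadj n0, ad_adj' (allP _ h1 s hsP)]; omega
    · rw [dg_sw a0 h1.1, ad_adj' (Nc x0 hx0 x hx' (ne_of_mem_erase hx)),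
        ad_adj' (allP _ h1 x (NP x hx')), dN x hx']; omega
  have c3 := card_erase_add_one hx0
  have sub : N.erase x0 ⊆ X.erase u := fun y hy => NA y (mem_of_mem_erase hy)
  have x0N : ∀ y ∈ N.erase x0, G.Adj x0 y := fun y hy =>
    Nc x0 hx0 y (mem_of_mem_erase hy) (ne_of_mem_erase hy)
  obtain ⟨u0, hu0, g0⟩ := ex_adj (G := G) (S := X.erase u \ N.erase x0) (v := x0) (by
    have := dg_le_card (G := G) (N.erase x0) x0
    rw [dg_sdiff sub, dN x0 hx0]; omega)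
  obtain ⟨hu0, hu0'⟩ := mem_sdiff.1 hu0
  have u0s : u0 ≠ s := fun e => n0 (e ▸ g0.symm)
  have u0P : u0 ∉ Px G t (X.erase u) := fun e =>
    hu0' (mem_erase.2 ⟨g0.ne', mem_erase.2 ⟨u0s, e⟩⟩)
  have u0u : ¬ G.Adj u u0 := fun g => u0P (H1.adjP hu0 (notMem_erase u X) eu1 g)
  have f1 : ∀ z ∈ X.erase u, z ∉ N.erase x0 → ¬ G.Adj s z := fun z hz hz' =>
    sat sub sN hz hz' (by omega)
  have f2 : ∀ z ∈ X.erase u, z ∉ N.erase x0 → z ≠ u0 → ¬ G.Adj x0 z := fun z hz hz' hne =>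
    sat (T := insert u0 (N.erase x0)) (insert_subset hu0 sub) (fun y hy => by
      rcases mem_insert.1 hy with rfl | hy
      · exact g0
      · exact x0N y hy) hz (by simp only [mem_insert, hne, hz']; simp)
      (by rw [card_insert_of_notMem hu0', dN x0 hx0]; omega)
  have f3 : ∀ y ∈ N.erase x0, ¬ G.Adj y u0 := fun y hy => by
    have hy' := mem_of_mem_erase hy
    have := card_erase_add_one (NP y hy')
    refine sat (T := (Px G t (X.erase u)).erase y) ((erase_subset _ _).trans Px_sub)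
      (fun z hz => ?_) hu0 (fun g => u0P (mem_of_mem_erase g)) (by rw [dN y hy']; omega)
    by_cases e : z = s
    · exact e ▸ (sN y hy).symm
    · exact Nc y hy' z (mem_erase.2 ⟨e, mem_of_mem_erase hz⟩) (ne_of_mem_erase hz)
  have hu0X := mem_of_mem_erase hu0
  obtain ⟨e0, H2⟩ := hX u0 hu0X u0s
  have su0 := f1 u0 hu0 hu0'
  have x0X := mem_of_mem_erase (NA x0 hx0)
  have x0s : x0 ≠ s := ne_of_mem_erase hx0
  have x0A : x0 ∈ X.erase u0 := mem_erase.2 ⟨g0.ne, x0X⟩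
  have c4 : 1 < (((X.erase u0).erase x0).filter fun y => G.Adj u0 y).card := by
    have := dg_card (G := G) ((X.erase u0).erase x0) u0
    rw [dg_erase x0A, dg_erase hu0X, ad_self, ad_adj' g0] at this
    omega
  have fy : ∀ y ∈ ((X.erase u0).erase x0).filter fun y => G.Adj u0 y,
      y ∈ X.erase u0 ∧ dg G (X.erase u0) y = t - 1 ∧ y ≠ x0 ∧ y ≠ s ∧ ¬ G.Adj x0 y ∧
        ¬ G.Adj s y := by
    intro y hy
    obtain ⟨a1, a2⟩ := mem_filter.1 hy
    have a3 := mem_of_mem_erase a1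
    have a4 : y ≠ s := fun e => su0 (e ▸ a2.symm)
    have a5 : y ∈ X.erase u := mem_erase.2 ⟨fun e => u0u (e ▸ a2.symm), mem_of_mem_erase a3⟩
    have a6 : y ∉ N.erase x0 := fun e => f3 y e a2.symm
    refine ⟨a3, ?_, ne_of_mem_erase a1, a4, f2 y a5 a6 a2.ne', f1 y a5 a6⟩
    rw [dg_erase hu0X, (hX y (mem_of_mem_erase a3) a4).1, ad_adj' a2]
  obtain ⟨y, hy, y', hy', hne⟩ := one_lt_card.1 c4
  obtain ⟨a1, a2, a3, a4, a5, -⟩ := fy y hy
  obtain ⟨b1, b2, b3, b4, -, b6⟩ := fy y' hy'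
  refine H2.pairs hb ht2 x0A ?_ a1 a2 (mem_erase.2 ⟨u0s.symm, hs⟩) ?_ b1 b2 a3 b4 x0s.symm b3
    a4.symm hne.symm a5 b6
  · rw [dg_erase hu0X, (hX x0 x0X x0s).1, ad_adj g0]
  · rw [dg_erase hu0X, ad_nadj su0]; omega

end St

end Pool.Agent.Lib.MP_bb98d0_co.J
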