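import Pool.Agent.Lib.MP_bb98d0_co.J4
import Pool.Agent.Lib.MP_bb98d0_co.Final

/-!
The upper bound for the sparsest half of a `2t`-regular graph without `K_{2t+1}`.
-/

namespace Pool.Agent.Lib.MP_bb98d0_co.J
open Finset

variable {V : Type*} [Fintype V] [DecidableEq V] {G : SimpleGraph V} [DecidableRel G.Adj]
variable {t : ℤ} {h : ℕ} {S : ℤ} {A : Finset V}

lemma greedy (reg : Reg G (2 * t)) (hn : (Fintype.card V : ℤ) = 2 * t + 3) (j : ℕ)
    (hj : j ≤ Fintype.card V) : ∃ X : Finset V, X.card = j ∧ E2 G X ≤ (j - 1) * (j - 2) := by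
  induction j with
  | zero => exact ⟨∅, rfl, by simp [E2]⟩
  | succ j ih =>
    obtain ⟨X, h1, h2⟩ := ih (by omega)
    have h3 := card_add_card_compl X
    by_cases h4 : ∃ w ∉ X, dg G X w ≤ j - 1
    · obtain ⟨w, hw, h5⟩ := h4
      refine ⟨insert w X, by rw [card_insert_of_notMem hw, h1], ?_⟩
      rw [E2_insert hw]; push_cast; nlinarith
    · push Not at h4
      obtain ⟨w, hw⟩ := card_pos.1 (show 0 < Xᶜ.card by omega)
      have hw := mem_compl.1 hw
      refine ⟨insert w X, by rw [card_insert_of_notMem hw, h1], ?_⟩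
      have h5 : (Xᶜ.card : ℤ) * j ≤ ∑ w ∈ Xᶜ, dg G X w := by
        rw [← nsmul_eq_mul, ← sum_const]
        exact sum_le_sum fun v hv => by have := h4 v (mem_compl.1 hv); omega
      have h6 := dg_le_card (G := G) X w
      have h7 : (Xᶜ.card : ℤ) = 2 * t + 3 - j := by omega
      rw [reg.cut, h7, h1] at h5
      rw [h1] at h6
      rw [E2_insert hw]; push_cast; nlinarith

omit [Fintype V] in
lemma rebal (hA : Opt G h A) (c : ℤ) (d : ℕ) : ∀ X : Finset V, X.card = h + d →
    E2 G A + 2 * c * d ≤ E2 G X ∨ E2 G A ≤ (c - 1) * h := by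
  induction d with
  | zero => intro X hX; left; simpa using hA.2 X hX
  | succ d ih =>
    intro X hX
    by_cases h1 : ∃ v ∈ X, c ≤ dg G X v
    · obtain ⟨v, hv, h2⟩ := h1
      have h3 := card_erase_add_one hv
      rcases ih (X.erase v) (by omega) with h4 | h4
      · rw [E2_erase hv] at h4
        left; push_cast; linarith
      · exact Or.inr h4
    · push Not at h1
      obtain ⟨Y, hY, hY'⟩ := exists_subset_card_eq (s := X) (n := h) (by omega)
      right
      refine (hA.2 Y hY').trans ?_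
      rw [mul_comm, ← hY', ← nsmul_eq_mul, ← sum_const]
      refine sum_le_sum fun v hv => ?_
      have := h1 v (hY hv)
      have := dg_mono (G := G) hY v
      omega

lemma Dv_eq {k : ℤ} (reg : Reg G k) (X : Finset V) :
    Dv (aw G) (fun x => decide (x ∈ X)) = k * Fintype.card V - 2 * E2 G X - 2 * E2 G Xᶜ := by
  have h1 : ∀ x y, (aw G x y : ℤ) = ad G x y := fun x y => by
    unfold aw ad; split_ifs <;> simp
  have h2 : ∀ x, ∑ y, (aw G x y : ℤ) * sg (decide (x ∈ X)) (decide (y ∈ X))
      = if x ∈ X then k - 2 * dg G X x else k - 2 * dg G Xᶜ x := by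
    intro x
    rw [← sum_add_sum_compl X]
    have := reg.compl X x
    split_ifs with hx
    · rw [sum_congr rfl (g := fun y => - ad G x y) fun y hy => by simp [hx, hy, sg, h1],
        sum_congr (s₁ := Xᶜ) rfl (g := fun y => ad G x y) fun y hy => by
          simp [hx, mem_compl.1 hy, sg, h1], sum_neg_distrib]
      unfold dg at this ⊢
      omega
    · rw [sum_congr rfl (g := fun y => ad G x y) fun y hy => by simp [hx, hy, sg, h1],
        sum_congr (s₁ := Xᶜ) rfl (g := fun y => - ad G x y) fun y hy => by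
          simp [hx, mem_compl.1 hy, sg, h1], sum_neg_distrib]
      unfold dg at this ⊢
      omega
  unfold Dv
  simp only [h2]
  rw [← sum_add_sum_compl X, sum_congr rfl fun x hx => if_pos hx,
    sum_congr rfl fun x hx => if_neg (mem_compl.1 hx), sum_sub_distrib, sum_sub_distrib,
    ← mul_sum, ← mul_sum, sum_const, sum_const, nsmul_eq_mul, nsmul_eq_mul,
    ← card_add_card_compl X]
  unfold E2
  push_cast; ring

lemma St.large (H : St G t h S A) (ht : 2 ≤ t) (hb : 3 * t + 2 ≤ h) (X : Finset V)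
    (hX : (Fintype.card V : ℤ) * (6 * t + 8) ≤
      3 * (2 * t + 1) * (2 * t * Fintype.card V - 2 * E2 G X - 2 * E2 G Xᶜ)) : Goal t h S := by
  have hn := H.n
  wlog hc : h ≤ X.card generalizing X
  · have a := card_add_card_compl X
    exact this Xᶜ (by rw [compl_compl]; linarith) (by omega)
  obtain ⟨d, hd⟩ := Nat.exists_eq_add_of_le hc
  have h1 := card_add_card_compl X
  have h2 : (Xᶜ.card : ℤ) = h - 1 - d := by omega
  rcases rebal H.opt t d X hd with h3 | h3
  · right
    rw [H.reg.E2_compl, h2, hd, hn] at hX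
    rw [H.e] at h3
    push_cast at hX
    nlinarith [mul_le_mul_of_nonneg_left h3 (by omega : 0 ≤ 2 * t + 1),
      mul_le_mul_of_nonneg_left hb (by omega : 0 ≤ t)]
  · left
    rw [H.e] at h3
    have h4 : (h : ℤ) ≤ S := by linarith
    nlinarith [mul_le_mul_of_nonneg_left h4 (by omega : 0 ≤ 4 * t + 1),
      mul_le_mul_of_nonneg_left hb (by omega : 0 ≤ t)]

lemma St.goal (H : St G t h S A) (ht : 2 ≤ t)
    (free : ∀ K : Finset V, G.IsClique K → (K.card : ℤ) ≤ 2 * t) (X : Finset V)
    (hX : (Fintype.card V : ℤ) * (6 * t + 8) ≤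
      3 * (2 * t + 1) * (2 * t * Fintype.card V - 2 * E2 G X - 2 * E2 G Xᶜ)) : Goal t h S := by
  have hn := H.n
  have h1 : t + 2 ≤ h := by
    by_contra hc
    have a1 := free univ fun x _ y _ hne => by
      have b1 := card_erase_add_one (mem_univ x)
      rw [card_univ] at b1
      exact all_adj (S := univ.erase x) (by rw [dg_erase (mem_univ x), ad_self, H.reg x]; omega) y
        (mem_erase.2 ⟨hne.symm, mem_univ y⟩)
    rw [card_univ] at a1
    obtain ⟨x, -⟩ := card_pos.1 (show 0 < (univ : Finset V).card by rw [card_univ]; omega)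
    have a2 := dg_lt_card (G := G) (mem_univ x)
    rw [H.reg x, card_univ] at a2
    omega
  by_cases h2 : 3 * t + 2 ≤ h
  · exact H.large ht h2 X hX
  by_cases h3 : S < t
  · by_cases h4 : t + 3 ≤ h
    · exact H.small h3 h4
    · obtain ⟨Y, a1, a2⟩ := greedy H.reg (by omega) h (by omega)
      have a3 := H.opt.2 Y a1
      have a4 : (h : ℤ) = t + 2 := by omega
      rw [H.e] at a3
      rw [a4] at a2 a3
      nlinarith
  by_cases h4 : (h : ℤ) ≤ 2 * t + 1
  · left
    nlinarith [mul_le_mul_of_nonneg_left (not_lt.1 h3) (by omega : 0 ≤ 4 * t + 1),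
      mul_le_mul_of_nonneg_left h4 (by omega : 0 ≤ t)]
  by_cases h5 : S = t
  · subst h5
    by_cases h6 : (h : ℤ) = 2 * S + 2
    · exact (H.eqt1 h6 ht free).elim
    · exact (H.eqt2 (by omega) (by omega)).elim
  by_cases h6 : S = t + 1
  · subst h6
    by_cases h7 : 2 * t + 5 ≤ h
    · exact (H.succ h7 (by omega)).elim
    · left
      nlinarith [mul_le_mul_of_nonneg_left (show (h : ℤ) ≤ 2 * t + 4 by omega) (by omega : 0 ≤ t)]
  · right
    nlinarith [mul_le_mul_of_nonneg_left (show t + 2 ≤ S by omega) (by omega : 0 ≤ 2 * t + 1),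
      mul_le_mul_of_nonneg_left (show (h : ℤ) ≤ 3 * t + 1 by omega) (by omega : 0 ≤ t + 4)]

lemma even_case (reg : Reg G (2 * t)) (ht : 0 ≤ t) (hn : Fintype.card V = 2 * h)
    (hA : Opt G h A) : (2 * t + 1) * E2 G A ≤ 2 * t * t * h := by
  have cA := hA.1
  have cB : Aᶜ.card = h := by have := card_add_card_compl A; omega
  have sA : ∑ v ∈ A, (t - dg G A v) = t * h - E2 G A := by
    rw [sum_sub_distrib, sum_const, nsmul_eq_mul, cA]; unfold E2; ring
  have sB : ∑ v ∈ Aᶜ, (dg G A v - t) = t * h - E2 G A := by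
    rw [sum_sub_distrib, reg.cut, sum_const, nsmul_eq_mul, cA, cB]; ring
  have fin : (h : ℤ) ≤ t * h - E2 G A → (2 * t + 1) * E2 G A ≤ 2 * t * t * h := fun a => by
    nlinarith [mul_le_mul_of_nonneg_left a (by omega : 0 ≤ 2 * t + 1),
      mul_nonneg ht (Int.natCast_nonneg h)]
  by_cases h1 : ∀ u ∈ A, dg G A u ≤ t - 1
  · refine fin ?_
    rw [← sA, ← cA, card_eq_sum_ones]
    push_cast
    exact sum_le_sum fun v hv => by have := h1 v hv; omega
  by_cases h2 : ∀ w ∈ Aᶜ, t + 1 ≤ dg G A w
  · refine fin ?_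
    rw [← sB, ← cB, card_eq_sum_ones]
    push_cast
    exact sum_le_sum fun v hv => by have := h2 v hv; omega
  push Not at h1 h2
  obtain ⟨u0, hu0, e0⟩ := h1
  obtain ⟨w0, hw0, e1⟩ := h2
  have a1 : ∀ u ∈ A, dg G A u ≤ t := fun u hu => by
    have := hA.swap_le hu (mem_compl.1 hw0)
    have := ad_nonneg (G := G) u w0
    omega
  have a2 : ∀ w ∈ Aᶜ, t ≤ dg G A w := fun w hw => by
    have := hA.swap_le hu0 (mem_compl.1 hw)
    have := ad_nonneg (G := G) u0 w
    omega
  have a3 := card_sub_le (S := A) (f := fun v => t - dg G A v) (fun v => dg G A v = t)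
    (fun v hv => by have := a1 v hv; omega) (fun v hv hp => by have := a1 v hv; omega)
  have a4 : ∑ u ∈ Mx G t A, dg G Aᶜ u = (Mx G t A).card * t := by
    rw [← nsmul_eq_mul, ← sum_const]
    exact sum_congr rfl fun u hu => by rw [reg.compl, (mem_Mx.1 hu).2]; ring
  have a5 : ∑ w ∈ Aᶜ, dg G (Mx G t A) w ≤ ∑ w ∈ Aᶜ, (t + 1) * (dg G A w - t) := by
    refine sum_le_sum fun w hw => ?_
    by_cases b : dg G A w = t
    · rw [b, dg_zero fun u hu g => by
        have := hA.swap_le (mem_Mx.1 hu).1 (mem_compl.1 hw)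
        rw [ad_adj' g, (mem_Mx.1 hu).2] at this
        omega]
      simp
    · have b1 := dg_mono (G := G) (Mx_sub (G := G) (t := t) (A := A)) w
      have b2 : 1 ≤ dg G A w - t := by have := a2 w hw; omega
      nlinarith [mul_le_mul_of_nonneg_left b2 ht]
  rw [← mul_sum, sB, ← sum_dg_comm, a4] at a5
  rw [sA, cA] at a3
  unfold Mx at a5
  nlinarith [mul_le_mul_of_nonneg_left a3 ht]

lemma reg_of {k : ℕ} (hreg : G.IsRegularOfDegree k) : Reg G k := fun v => by
  rw [dg_card, ← hreg.degree_eq v, SimpleGraph.degree, SimpleGraph.neighborFinset_eq_filter]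

theorem upper_E2 {t : ℕ} (ht : 2 ≤ t) (hreg : G.IsRegularOfDegree (2 * t))
    (hK : G.CliqueFree (2 * t + 1)) : ∃ A : Finset V, E2 G Aᶜ ≤ E2 G A ∧
      ((4 * t + 1) * E2 G A ≤ 2 * t * t * Fintype.card V ∨
        3 * (2 * t + 1) * E2 G A ≤ (3 * t - 2) * (t + 1) * Fintype.card V) := by
  have reg : Reg G (2 * (t : ℤ)) := by simpa using reg_of hreg
  have ht' : (2 : ℤ) ≤ t := by exact_mod_cast ht
  obtain ⟨h, hn | hn⟩ := Nat.even_or_odd' (Fintype.card V)
  · obtain ⟨A, hA⟩ := exists_opt (G := G) (h := h) (by omega)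
    have h1 := even_case reg (by omega) hn hA
    have cB : Aᶜ.card = h := by have := card_add_card_compl A; have := hA.1; omega
    refine ⟨A, by rw [reg.E2_compl, cB, hA.1]; simp, Or.inl ?_⟩
    have h2 : 0 ≤ E2 G A := sum_nonneg fun v _ => dg_nonneg _ _
    rw [hn]; push_cast; nlinarith
  · obtain ⟨A, hA⟩ := exists_opt (G := G) (h := h + 1) (by omega)
    have H : St G t (h + 1) (t * (h + 1 : ℕ) - E2 G A) A := ⟨reg, by omega, hA, by ring⟩
    obtain ⟨s, hs⟩ := lower (G := G) (by omega) hreg hK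
    have e1 : s = fun x => decide (x ∈ univ.filter fun x => s x = true) := by
      funext x; simp
    have e2 : (2 * t + 1) / 2 = t := by omega
    rw [e1, Dv_eq reg, e2] at hs
    have h1 := H.goal ht' (fun K hK' => by
      by_contra hc
      obtain ⟨L, l1, l2⟩ := exists_subset_card_eq (s := K) (n := 2 * t + 1) (by omega)
      exact hK L ⟨hK'.subset (coe_subset.2 l1), l2⟩) (univ.filter fun x => s x = true) (by
        have : ((Fintype.card V : ℚ)) * (6 * t + 8) ≤ 3 * (2 * t + 1) *
            ((2 * t * Fintype.card V - 2 * E2 G (univ.filter fun x => s x = true)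
              - 2 * E2 G (univ.filter fun x => s x = true)ᶜ : ℤ) : ℚ) := by
          push_cast at hs ⊢
          linarith
        exact_mod_cast this)
    refine ⟨A, by rw [reg.E2_compl, H.cardA, H.cardB]; linarith, ?_⟩
    rw [hn]
    unfold Goal at h1
    push_cast at h1 ⊢
    rcases h1 with h1 | h1
    · left; linarith
    · right; linarith

end Pool.Agent.Lib.MP_bb98d0_co.J
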