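import Pool.Agent.Lib.MP_bb98d0_co.J5

/-!
The second extremal graph: two copies of `K_{2t}`, a vertex joined to one half of each copy,
and a perfect matching between the other halves.
-/

namespace Pool.Agent.Lib.MP_bb98d0_co.J
open Finset

section
variable {V : Type*} [Fintype V] [DecidableEq V] {G : SimpleGraph V} [DecidableRel G.Adj]

lemma two_eIn (S : Finset V) [DecidablePred fun e : Sym2 V => ∀ v ∈ e, v ∈ S] :
    2 * ((G.edgeFinset.filter fun e => ∀ v ∈ e, v ∈ S).card : ℤ) = E2 G S := by
  let H : SimpleGraph V :=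
    { Adj := fun x y => G.Adj x y ∧ x ∈ S ∧ y ∈ S
      symm := ⟨fun x y h => ⟨h.1.symm, h.2.2, h.2.1⟩⟩
      loopless := ⟨fun x h => G.irrefl h.1⟩ }
  have : DecidableRel H.Adj := fun x y => inferInstanceAs (Decidable (G.Adj x y ∧ x ∈ S ∧ y ∈ S))
  have h1 : H.edgeFinset = G.edgeFinset.filter fun e => ∀ v ∈ e, v ∈ S := by
    ext e
    induction e using Sym2.ind with
    | _ x y => simp [H]
  have h2 := H.sum_degrees_eq_twice_card_edges
  rw [h1] at h2
  have h3 : ∀ v, (H.degree v : ℤ) = if v ∈ S then dg G S v else 0 := fun v => by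
    rw [SimpleGraph.degree, SimpleGraph.neighborFinset_eq_filter, dg_card]
    split_ifs with hv
    · congr 2; ext u; simp [H, hv, and_comm]
    · simp [H, hv]
  have h4 : (∑ v, (H.degree v : ℤ)) = 2 * (G.edgeFinset.filter fun e => ∀ v ∈ e, v ∈ S).card := by
    exact_mod_cast h2
  rw [← h4]
  simp only [h3, sum_ite_mem, univ_inter, E2]

lemma E2_ind (S : Finset V) : E2 G S =
    ∑ v, ∑ u, (if v ∈ S then 1 else 0) * (if u ∈ S then 1 else 0) * ad G v u := by
  simp [E2, dg]

end

variable (F : Type) [Fintype F] [DecidableEq F]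

def ex2 : SimpleGraph (Option (Bool × Bool × F)) where
  Adj x y := match x, y with
    | none, none => False
    | none, some y => y.2.1 = false
    | some x, none => x.2.1 = false
    | some x, some y => (x.1 = y.1 ∧ x.2 ≠ y.2) ∨ (x.1 ≠ y.1 ∧ x.2 = y.2 ∧ x.2.1 = true)
  symm := ⟨fun x y h => by
    cases x <;> cases y
    · exact h
    · exact h
    · exact h
    · rcases h with h | h
      · exact Or.inl ⟨h.1.symm, h.2.symm⟩
      · exact Or.inr ⟨h.1.symm, h.2.1.symm, h.2.1 ▸ h.2.2⟩⟩
  loopless := ⟨fun x h => by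
    cases x
    · exact h
    · rcases h with h | h
      · exact h.2 rfl
      · exact h.1 rfl⟩

instance : DecidableRel (ex2 F).Adj := fun x y => by
  cases x <;> cases y <;> unfold ex2 <;> infer_instance

variable {F}

omit [Fintype F] in
lemma ex2_nn : ad (ex2 F) none none = 0 := ad_self _
omit [Fintype F] in
lemma ex2_ns (i b : Bool) (a : F) : ad (ex2 F) none (some (i, b, a)) = if b then 0 else 1 := by
  cases b <;> simp [ad, ex2]
omit [Fintype F] in
lemma ex2_sn (i b : Bool) (a : F) : ad (ex2 F) (some (i, b, a)) none = if b then 0 else 1 := by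
  rw [ad_comm, ex2_ns]
omit [Fintype F] in
lemma ex2_ss (i b : Bool) (a : F) (j c : Bool) (d : F) :
    ad (ex2 F) (some (i, b, a)) (some (j, c, d)) =
      if j = i then (if c = b then 1 - (if d = a then 1 else 0) else 1)
      else (if b then if c then if d = a then 1 else 0 else 0 else 0) := by
  by_cases h : d = a
  · subst h
    cases i <;> cases j <;> cases b <;> cases c <;> simp [ad, ex2]
  · have h' : a ≠ d := fun e => h e.symm
    cases i <;> cases j <;> cases b <;> cases c <;> simp [ad, ex2, h, h']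

lemma ex2_reg : Reg (ex2 F) (2 * Fintype.card F) := by
  intro v
  unfold dg
  rcases v with _ | ⟨i, b, a⟩
  · simp only [Fintype.sum_option, Fintype.sum_prod_type, Fintype.sum_bool, ex2_nn, ex2_ns]
    simp; ring
  · simp only [Fintype.sum_option, Fintype.sum_prod_type, Fintype.sum_bool, ex2_sn, ex2_ss]
    cases i <;> cases b <;> simp <;> ring

lemma ex2_E2 (χ : Option (Bool × Bool × F) → ℤ) (h0 : ∀ v, χ v = 0 ∨ χ v = 1)
    (h1 : 2 * (Fintype.card F : ℤ) + 1 ≤ ∑ v, χ v) :
    2 * (Fintype.card F : ℤ) * Fintype.card F ≤ ∑ v, ∑ u, χ v * χ u * ad (ex2 F) v u := by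
  have sq : ∀ v, χ v * χ v = χ v := fun v => by rcases h0 v with h | h <;> simp [h]
  have m : ∑ a, χ (some (true, true, a)) + ∑ a, χ (some (false, true, a)) - Fintype.card F
      ≤ ∑ a, χ (some (true, true, a)) * χ (some (false, true, a)) := by
    rw [← card_univ, card_eq_sum_ones]
    push_cast
    rw [← sum_add_distrib, ← sum_sub_distrib]
    refine sum_le_sum fun a _ => ?_
    rcases h0 (some (true, true, a)) with h | h <;> rcases h0 (some (false, true, a)) with g | g <;>
      simp [h, g]
  have m0 : 0 ≤ ∑ a, χ (some (true, true, a)) * χ (some (false, true, a)) :=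
    sum_nonneg fun a _ => by
      rcases h0 (some (true, true, a)) with h | h <;>
        rcases h0 (some (false, true, a)) with g | g <;> simp [h, g]
  have m' : ∑ a, χ (some (false, true, a)) * χ (some (true, true, a))
      = ∑ a, χ (some (true, true, a)) * χ (some (false, true, a)) :=
    sum_congr rfl fun a _ => mul_comm _ _
  simp only [Fintype.sum_option, Fintype.sum_prod_type, Fintype.sum_bool, ex2_nn, ex2_ns, ex2_sn,
    ex2_ss] at h1 ⊢
  simp only [if_true, Bool.false_eq_true, Bool.true_eq_false, if_false, mul_zero, mul_one, mul_sub,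
    mul_ite, sum_const_zero, sum_sub_distrib, sum_add_distrib, sum_ite_eq', mem_univ, ← mul_sum,
    ← sum_mul, sq, add_zero, zero_add, m']
  set p := ∑ a, χ (some (true, true, a))
  set q := ∑ a, χ (some (true, false, a))
  set r := ∑ a, χ (some (false, true, a))
  set s := ∑ a, χ (some (false, false, a))
  set z := ∑ a, χ (some (true, true, a)) * χ (some (false, true, a))
  set t : ℤ := ((Fintype.card F : ℕ) : ℤ)
  have k1 : 0 ≤ (p + q - t) * (p + q - t - 1) := by
    rcases le_total (p + q - t) 0 with h | h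
    · exact mul_nonneg_of_nonpos_of_nonpos h (by omega)
    · rcases h.eq_or_lt with h | h
      · rw [← h]; simp
      · exact mul_nonneg h.le (by omega)
  have k2 : 0 ≤ (r + s - t) * (r + s - t - 1) := by
    rcases le_total (r + s - t) 0 with h | h
    · exact mul_nonneg_of_nonpos_of_nonpos h (by omega)
    · rcases h.eq_or_lt with h | h
      · rw [← h]; simp
      · exact mul_nonneg h.le (by omega)
  have t0 : 0 ≤ t := Int.natCast_nonneg _
  rcases h0 none with h | h <;> rw [h] at h1 ⊢
  · nlinarith [mul_le_mul_of_nonneg_left h1 t0]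
  · nlinarith [mul_le_mul_of_nonneg_left h1 t0]

lemma ex2_free (h2 : 2 ≤ Fintype.card F) : (ex2 F).CliqueFree (2 * Fintype.card F + 1) := by
  intro K hK
  have h1 : ∀ v ∈ K, ∀ u, (ex2 F).Adj v u → u ∈ K := by
    intro v hv u g
    by_contra hu
    have a1 := card_erase_add_one hv
    have a2 := hK.card_eq
    exact sat (T := K.erase v) (X := univ) (subset_univ _)
      (fun w hw => hK.isClique hv (mem_of_mem_erase hw) (ne_of_mem_erase hw).symm) (mem_univ u)
      (fun g => hu (mem_of_mem_erase g)) (by rw [ex2_reg v]; omega) g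
  obtain ⟨a, b, hab⟩ := Fintype.exists_pair_of_one_lt_card (α := F) (by omega)
  have h3 : ∃ i c d, some (i, c, d) ∈ K := by
    obtain ⟨v, hv⟩ := card_pos.1 (show 0 < K.card by rw [hK.card_eq]; omega)
    rcases v with _ | ⟨i, c, d⟩
    · exact ⟨true, false, a, h1 _ hv _ rfl⟩
    · exact ⟨i, c, d, hv⟩
  obtain ⟨i, c, d, hv⟩ := h3
  have h4 : ∀ c' d', some (i, c', d') ∈ K := fun c' d' => by
    by_cases e : (c, d) = (c', d')
    · exact e ▸ hv
    · exact h1 _ hv _ (Or.inl ⟨rfl, e⟩)
  have h5 : none ∈ K := h1 _ (h4 false a) _ rfl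
  have := hK.isClique h5 (h4 true a) (by simp)
  exact absurd this (by simp [ex2])

theorem upper2 {t : ℕ} (ht : 2 ≤ t) : ∃ (G : SimpleGraph (Fin (4 * t + 1)))
    (_ : DecidableRel G.Adj), G.IsRegularOfDegree (2 * t) ∧ G.CliqueFree (2 * t + 1) ∧
      ∀ X : Finset (Fin (4 * t + 1)), 2 * t + 1 ≤ X.card → 2 * (t : ℤ) * t ≤ E2 G X := by
  let φ : Fin (4 * t + 1) ≃ Option (Bool × Bool × Fin t) :=
    (Fintype.equivFinOfCardEq (by simp; ring)).symm
  refine ⟨(ex2 (Fin t)).comap φ, inferInstance, fun x => ?_, ?_, fun X hX => ?_⟩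
  · have h1 := ex2_reg (F := Fin t) (φ x)
    unfold dg at h1
    rw [← Equiv.sum_comp φ, Fintype.card_fin] at h1
    have h2 := dg_card (G := (ex2 (Fin t)).comap φ) univ x
    rw [← SimpleGraph.neighborFinset_eq_filter] at h2
    have h3 : (((ex2 (Fin t)).comap φ).degree x : ℤ) = 2 * t := h2.symm.trans h1
    exact_mod_cast h3
  · have := ex2_free (F := Fin t) (by simpa using ht)
    rw [Fintype.card_fin] at this
    exact this.comap (SimpleGraph.Embedding.comap φ.toEmbedding _).isContained
  · have := ex2_E2 (F := Fin t) (fun v => if φ.symm v ∈ X then 1 else 0)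
      (fun v => by split_ifs <;> simp) (by
        rw [← Equiv.sum_comp φ]
        simp only [Equiv.symm_apply_apply, sum_ite_mem, univ_inter, sum_const, Fintype.card_fin]
        simp; exact_mod_cast hX)
    rw [← Equiv.sum_comp φ] at this
    simp only [← Equiv.sum_comp φ, Equiv.symm_apply_apply, Fintype.card_fin] at this
    rw [E2_ind]
    exact this

end Pool.Agent.Lib.MP_bb98d0_co.J
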