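import Pool.Agent.Lib.MP_bb98d0_co.J6

/-!
The judicious bipartition constant for even degree.
-/

namespace Pool.Agent.Lib.MP_bb98d0_co.J
open Finset

lemma edges_t {n t : ℕ} {G : SimpleGraph (Fin n)} [DecidableRel G.Adj]
    (hreg : G.IsRegularOfDegree (2 * t)) : (G.edgeFinset.card : ℝ) = n * t := by
  have := edges_eq hreg
  push_cast at this
  linarith

lemma upper1 {t : ℕ} (ht : 2 ≤ t) : ∃ (G : SimpleGraph (Fin (3 * (2 * t + 1))))
    (_ : DecidableRel G.Adj), G.IsRegularOfDegree (2 * t) ∧ G.CliqueFree (2 * t + 1) ∧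
      ∀ X, (3 * (t : ℤ) - 2) * (t + 1) ≤ max (E2 G X) (E2 G Xᶜ) := by
  obtain ⟨G, inst, hreg, hK, hD⟩ := upper (k := 2 * t) (by omega)
  have reg : Reg G (2 * (t : ℤ)) := by simpa using reg_of hreg
  have key : ∀ X : Finset (Fin (3 * (2 * t + 1))), 3 * t + 2 ≤ X.card →
      (3 * (t : ℤ) - 2) * (t + 1) ≤ E2 G X := fun X hX => by
    have h1 := hD fun x => decide (x ∈ X)
    have e2 : (2 * t + 1) / 2 = t := by omega
    have h2 := card_add_card_compl X
    rw [Fintype.card_fin] at h2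
    rw [Dv_eq reg, e2, reg.E2_compl, Fintype.card_fin] at h1
    have h3 : (Xᶜ.card : ℤ) - X.card ≤ -1 := by omega
    push_cast at h1
    nlinarith [mul_le_mul_of_nonneg_left h3 (Int.natCast_nonneg t)]
  refine ⟨G, inst, hreg, hK, fun X => ?_⟩
  have h2 := card_add_card_compl X
  rw [Fintype.card_fin] at h2
  by_cases h : 3 * t + 2 ≤ X.card
  · exact le_max_of_le_left (key X h)
  · exact le_max_of_le_right (key Xᶜ (by omega))

theorem final {k : ℕ} (hk : Even k) (h4 : 4 ≤ k)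
    (J : ∀ (n : ℕ) (G : SimpleGraph (Fin n)) [DecidableRel G.Adj], ℕ)
    (J1 : ∀ (n : ℕ) (G : SimpleGraph (Fin n)) [DecidableRel G.Adj] (S : Finset (Fin n)),
      2 * (J n G : ℤ) ≤ max (E2 G S) (E2 G Sᶜ))
    (J2 : ∀ (n : ℕ) (G : SimpleGraph (Fin n)) [DecidableRel G.Adj], ∃ S : Finset (Fin n),
      2 * (J n G : ℤ) = max (E2 G S) (E2 G Sᶜ)) :
    IsGreatest {x : ℝ | ∃ (n : ℕ) (G : SimpleGraph (Fin n)) (_ : DecidableRel G.Adj),
        G.IsRegularOfDegree k ∧ G.CliqueFree (k + 1) ∧ G.edgeFinset.Nonempty ∧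
        x = (J n G : ℝ) / (G.edgeFinset.card : ℝ)}
      (max ((k : ℝ) / (4 * k + 2)) ((3 * k - 4) * (k + 2) / (12 * k * (k + 1)))) := by
  obtain ⟨t, rfl⟩ := hk
  rw [← two_mul] at h4 ⊢
  have ht : 2 ≤ t := by omega
  have ht' : (2 : ℝ) ≤ t := by exact_mod_cast ht
  have ea : ((2 * t : ℕ) : ℝ) / (4 * (2 * t : ℕ) + 2) = t / (4 * t + 1) := by
    push_cast; rw [div_eq_div_iff (by positivity) (by positivity)]; ring
  have eb : (3 * ((2 * t : ℕ) : ℝ) - 4) * ((2 * t : ℕ) + 2) / (12 * (2 * t : ℕ) * ((2 * t : ℕ) + 1))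
      = (3 * t - 2) * (t + 1) / (6 * t * (2 * t + 1)) := by
    push_cast; field_simp; ring
  rw [ea, eb]
  have up : ∀ (n : ℕ) (G : SimpleGraph (Fin n)) [DecidableRel G.Adj],
      G.IsRegularOfDegree (2 * t) → G.CliqueFree (2 * t + 1) → G.edgeFinset.Nonempty →
      (J n G : ℝ) / (G.edgeFinset.card : ℝ) ≤
        max ((t : ℝ) / (4 * t + 1)) ((3 * t - 2) * (t + 1) / (6 * t * (2 * t + 1))) := by
    intro n G _ hreg hK hne
    obtain ⟨A, h1, h2⟩ := upper_E2 ht hreg hK
    have h3 := J1 n G A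
    rw [max_eq_left h1] at h3
    have h5 : (0 : ℝ) < G.edgeFinset.card := by exact_mod_cast card_pos.2 hne
    have h6 : 2 * (J n G : ℝ) ≤ E2 G A := by exact_mod_cast h3
    rw [Fintype.card_fin] at h2
    rcases h2 with h2 | h2
    · refine le_max_of_le_left ?_
      have h7 : (4 * (t : ℝ) + 1) * E2 G A ≤ 2 * t * t * n := by exact_mod_cast h2
      rw [div_le_div_iff₀ h5 (by positivity), edges_t hreg]
      nlinarith [mul_le_mul_of_nonneg_left h6 (by positivity : (0 : ℝ) ≤ 4 * t + 1)]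
    · refine le_max_of_le_right ?_
      have h7 : 3 * (2 * (t : ℝ) + 1) * E2 G A ≤ (3 * t - 2) * (t + 1) * n := by exact_mod_cast h2
      rw [div_le_div_iff₀ h5 (by positivity), edges_t hreg]
      nlinarith [mul_le_mul_of_nonneg_left h6 (by positivity : (0 : ℝ) ≤ 3 * t * (2 * t + 1)),
        mul_le_mul_of_nonneg_left h7 (by positivity : (0 : ℝ) ≤ t)]
  refine ⟨?_, ?_⟩
  · rcases le_total ((t : ℝ) / (4 * t + 1)) ((3 * t - 2) * (t + 1) / (6 * t * (2 * t + 1)))
      with hc | hc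
    · obtain ⟨G, inst, hreg, hK, hE⟩ := upper1 ht
      have h5 : (0 : ℝ) < G.edgeFinset.card := by rw [edges_t hreg]; positivity
      have hne : G.edgeFinset.Nonempty := card_pos.1 (by exact_mod_cast h5)
      refine ⟨_, G, inst, hreg, hK, hne, le_antisymm ?_ (up _ G hreg hK hne)⟩
      obtain ⟨S, hS⟩ := J2 _ G
      have h6 := hE S
      rw [← hS] at h6
      have h7 : (3 * (t : ℝ) - 2) * (t + 1) ≤ 2 * J _ G := by exact_mod_cast h6
      rw [max_eq_right hc, div_le_div_iff₀ (by positivity) h5, edges_t hreg]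
      push_cast
      nlinarith [mul_le_mul_of_nonneg_left h7 (by positivity : (0 : ℝ) ≤ 3 * t * (2 * t + 1))]
    · obtain ⟨G, inst, hreg, hK, hE⟩ := upper2 ht
      have h5 : (0 : ℝ) < G.edgeFinset.card := by rw [edges_t hreg]; positivity
      have hne : G.edgeFinset.Nonempty := card_pos.1 (by exact_mod_cast h5)
      refine ⟨_, G, inst, hreg, hK, hne, le_antisymm ?_ (up _ G hreg hK hne)⟩
      obtain ⟨S, hS⟩ := J2 _ G
      have h6 : 2 * (t : ℤ) * t ≤ 2 * J _ G := by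
        have a := card_add_card_compl S
        rw [Fintype.card_fin] at a
        rw [hS]
        by_cases h : 2 * t + 1 ≤ S.card
        · exact le_max_of_le_left (hE S h)
        · exact le_max_of_le_right (hE Sᶜ (by omega))
      have h7 : 2 * (t : ℝ) * t ≤ 2 * J _ G := by exact_mod_cast h6
      rw [max_eq_left hc, div_le_div_iff₀ (by positivity) h5, edges_t hreg]
      push_cast
      nlinarith [mul_le_mul_of_nonneg_left h7 (by positivity : (0 : ℝ) ≤ 4 * t + 1)]
  · rintro x ⟨n, G, inst, h1, h2, h3, rfl⟩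
    exact up n G h1 h2 h3

end Pool.Agent.Lib.MP_bb98d0_co.J
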