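import Pool.Agent.Lib.MP_bb98d0_co.Contract

/-!
Odd degree: states that are optimal for the cut weight penalised by the imbalance.
-/

namespace Pool.Agent.Lib.MP_bb98d0_co
open Finset Classical

noncomputable section

variable {X : Type*} [Fintype X]

def sgn (b : Bool) : ℤ := if b then 1 else -1

lemma sgn_not (b : Bool) : sgn (!b) = - sgn b := by cases b <;> rfl

/-- imbalance of the ordinary atoms -/
def bal (O : Finset X) (s : X → Bool) : ℤ := ∑ x ∈ O, sgn (s x)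

lemma bal_flip (O S : Finset X) (s : X → Bool) :
    bal O (flip S s) = bal O s - 2 * ∑ x ∈ S, (if x ∈ O then sgn (s x) else 0) := by
  have h1 : ∑ x ∈ S, (if x ∈ O then sgn (s x) else 0)
      = ∑ x ∈ O, (if x ∈ S then sgn (s x) else 0) := by
    simp only [Finset.sum_ite_mem, inter_comm]
  rw [h1]
  unfold bal
  rw [Finset.mul_sum, ← Finset.sum_sub_distrib]
  refine Finset.sum_congr rfl fun x _ => ?_
  by_cases hx : x ∈ S
  · rw [flip_mem hx, sgn_not, if_pos hx]; ring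
  · rw [flip_not_mem hx, if_neg hx]; ring

namespace St

def oi (c : St X) (x : X) : ℤ := if x ∈ c.O then 1 else 0

def nY (c : St X) : ℕ := (univ.filter fun x => x ∉ c.O ∧ c.s x = false).card

def FF (c : St X) : ℕ := c.kap + 2 * c.PP + c.nY

def UU (c : St X) : Prop :=
  ∀ (A B : Finset X) (β : Bool), (∀ a ∈ A, c.s a ≠ β) → (∀ b ∈ B, c.s b = β) →
    ∑ a ∈ A, c.oi a ≤ ∑ b ∈ B, c.oi b + 1 → ∑ b ∈ B, c.oi b ≤ ∑ a ∈ A, c.oi a + 1 →
    2 * ∑ a ∈ A, ∑ b ∈ B, (c.w a b : ℤ) ≤ ∑ a ∈ A, c.gm a + ∑ b ∈ B, c.gm b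
      + ∑ a ∈ A, ∑ a' ∈ A, (c.w a a' : ℤ) + ∑ b ∈ B, ∑ b' ∈ B, (c.w b b' : ℤ)

structure OG (c : St X) : Prop where
  hI : c.I = ∅
  he : c.e = 1
  U : c.UU
  kap1 : ∀ q y K, c.T q → c.T y → c.C q y → c.Comp K → q ∈ K → c.New q y ∨ c.New y q
  kap2 : ∀ q y K L, c.T q → c.T y → c.C q y → c.Comp K → q ∈ K → c.Comp L → y ∈ L → c.New q y
  sadp : ∀ b x b', c.Sad b → c.C b x → x ∈ c.O → c.S b b' → b' ∈ c.O
  sadX : ∀ b x, c.Sad b → c.C b x → x ∈ c.O → c.s b = true
  twin : c.toNet.TwinB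

variable {c : St X}

lemma oi_O {x : X} (h : x ∈ c.O) : c.oi x = 1 := if_pos h
lemma oi_N {x : X} (h : x ∉ c.O) : c.oi x = 0 := if_neg h
lemma oi_le (x : X) : c.oi x ≤ 1 := by unfold oi; split_ifs <;> simp
lemma oi_ge (x : X) : 0 ≤ c.oi x := by unfold oi; split_ifs <;> simp

lemma nI (hI : c.I = ∅) (x : X) : x ∉ c.I := by rw [hI]; simp
lemma ia0 (hI : c.I = ∅) (x : X) : c.ia x = 0 := by unfold ia; rw [hI]; simp

lemma hv_gm (hI : c.I = ∅) (x : X) : hv c.w c.s x = c.gm x := by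
  rw [hv_eq (nI hI x) c.s (fun _ _ => rfl), hI]
  unfold gm
  rw [ia0 hI]; simp

lemma Dv_two (hI : c.I = ∅) {A B : Finset X} {β : Bool} (hA : ∀ a ∈ A, c.s a ≠ β)
    (hB : ∀ b ∈ B, c.s b = β) :
    Dv c.w (flip (A ∪ B) c.s) = Dv c.w c.s - 4 * (∑ a ∈ A, c.gm a + ∑ b ∈ B, c.gm b
      + ∑ a ∈ A, ∑ a' ∈ A, (c.w a a' : ℤ) + ∑ b ∈ B, ∑ b' ∈ B, (c.w b b' : ℤ)
      - 2 * ∑ a ∈ A, ∑ b ∈ B, (c.w a b : ℤ)) := by
  have hd : Disjoint A B := Finset.disjoint_left.2 fun x h1 h2 => hA x h1 (hB x h2)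
  rw [Dv_flip _ c.symm, two_sided (fun a ha => ⟨nI hI a, hA a ha⟩)
    (fun b hb => ⟨nI hI b, hB b hb⟩), Finset.sum_union hd]
  simp only [hv_gm hI]
  ring

lemma bal_two {A B : Finset X} {β : Bool} (hA : ∀ a ∈ A, c.s a ≠ β)
    (hB : ∀ b ∈ B, c.s b = β) :
    bal c.O (flip (A ∪ B) c.s) = bal c.O c.s
      + 2 * sgn β * (∑ a ∈ A, c.oi a - ∑ b ∈ B, c.oi b) := by
  have hd : Disjoint A B := Finset.disjoint_left.2 fun x h1 h2 => hA x h1 (hB x h2)
  rw [bal_flip, Finset.sum_union hd]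
  have h1 : ∑ x ∈ A, (if x ∈ c.O then sgn (c.s x) else 0) = - sgn β * ∑ a ∈ A, c.oi a := by
    rw [Finset.mul_sum]
    refine Finset.sum_congr rfl fun x hx => ?_
    have : c.s x = !β := by
      have := hA x hx
      revert this; cases c.s x <;> cases β <;> simp
    unfold oi
    rw [this, sgn_not]
    split_ifs <;> ring
  have h2 : ∑ x ∈ B, (if x ∈ c.O then sgn (c.s x) else 0) = sgn β * ∑ a ∈ B, c.oi a := by
    rw [Finset.mul_sum]
    refine Finset.sum_congr rfl fun x hx => ?_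
    unfold oi
    rw [hB x hx]
    split_ifs <;> ring
  rw [h1, h2]; ring

lemma UU.gm_nonneg (h : c.UU) (x : X) : 0 ≤ c.gm x := by
  have := h ∅ {x} (c.s x) (by simp) (by simp) (by have := oi_ge (c := c) x; simp; omega)
    (by have := oi_le (c := c) x; simpa using this)
  simpa [c.diag] using this

lemma UU.sm_le (h : c.UU) (hI : c.I = ∅) (he : c.e = 1) {x : X} (hO : x ∈ c.O) :
    c.sm x + 1 ≤ c.t := by
  have h1 := h.gm_nonneg x
  have h2 := degO' hO (nI hI x)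
  have h3 := ia0 hI x
  unfold gm at h1
  omega

lemma comp_of_fl' (h : ∀ x ∈ c.O, c.sm x + 1 ≤ c.t) {S K : Finset X} (hK : (c.fl S).Comp K)
    (hd : ∀ x ∈ K, x ∉ S) : c.Comp K := by
  have hS : ∀ x ∈ K, ∀ y ∈ K, x ≠ y → c.S x y := by
    intro x hx y hy hne
    have h1 := (hK.2 x hx).2.2.2 y hy hne
    refine ⟨h1.l, h1.r, ?_, h1.pos⟩
    have := h1.side
    rwa [fl_s, flip_not_mem (hd x hx), flip_not_mem (hd y hy)] at this
  refine ⟨hK.1, fun x hx => ⟨(hK.2 x hx).1, (hK.2 x hx).2.1, ?_, hS x hx⟩⟩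
  have h1 := h x (hK.2 x hx).1
  have h2 : (K.erase x).card ≤ c.sm x := card_le_sm fun y hy => by
    rw [mem_erase] at hy
    exact mem_Ns.2 (hS x hx y hy.2 hy.1.symm)
  rw [card_erase_of_mem hx] at h2
  have h3 : K.card = c.t := hK.1
  omega

lemma kap1_of (h : ∀ x ∈ c.O, c.sm x + 1 ≤ c.t) {q y : X} {K : Finset X} (hq : c.T q) (hy : c.T y)
    (hqy : c.C q y) (hK : c.Comp K) (hqK : q ∈ K) (h1 : c.kap ≤ (c.fl ({q} ∪ {y})).kap) :
    c.New q y ∨ c.New y q := by
  have hflc : c.fl ({y} ∪ {q}) = c.fl ({q} ∪ {y}) := by rw [union_comm]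
  by_contra hn
  push Not at hn
  have h2 : univ.filter (c.fl ({q} ∪ {y})).Comp ⊆ (univ.filter c.Comp).erase K := by
    intro L hL
    rw [mem_filter] at hL
    have hq' : q ∉ L := fun h => hn.1 (new_of_comp hq hqy hL.2 h)
    have hy' : y ∉ L := fun h => hn.2 (new_of_comp hy hqy.symm (by rw [hflc]; exact hL.2) h)
    rw [mem_erase, mem_filter]
    refine ⟨fun h => hq' (h ▸ hqK), mem_univ _, comp_of_fl' h hL.2 ?_⟩
    intro x hx hx'
    simp only [mem_union, mem_singleton] at hx'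
    rcases hx' with rfl | rfl
    exacts [hq' hx, hy' hx]
  have h3 := card_le_card h2
  have hKm : K ∈ univ.filter c.Comp := by simp [hK]
  rw [card_erase_of_mem hKm] at h3
  have := card_pos.2 ⟨K, hKm⟩
  unfold kap at h1
  omega

lemma kap2_of (h : ∀ x ∈ c.O, c.sm x + 1 ≤ c.t) {q y : X} {K L : Finset X} (hq : c.T q)
    (hqy : c.C q y) (hK : c.Comp K) (hqK : q ∈ K) (hL : c.Comp L) (hyL : y ∈ L)
    (h1 : c.kap ≤ (c.fl ({q} ∪ {y})).kap) : c.New q y := by
  by_contra hn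
  have hKL : L ≠ K := fun h => hqy.side (hK.side hqK (h ▸ hyL))
  have h2 : univ.filter (c.fl ({q} ∪ {y})).Comp ⊆
      insert (insert y ((c.fl ({q} ∪ {y})).Ns y)) (((univ.filter c.Comp).erase K).erase L) := by
    intro M hM
    rw [mem_filter] at hM
    have hq' : q ∉ M := fun h => hn (new_of_comp hq hqy hM.2 h)
    by_cases hy' : y ∈ M
    · rw [hM.2.eq_insert hy']; exact mem_insert_self _ _
    refine mem_insert_of_mem ?_
    rw [mem_erase, mem_erase, mem_filter]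
    refine ⟨fun h => hy' (h ▸ hyL), fun h => hq' (h ▸ hqK), mem_univ _,
      comp_of_fl' h hM.2 ?_⟩
    intro x hx hx'
    simp only [mem_union, mem_singleton] at hx'
    rcases hx' with rfl | rfl
    exacts [hq' hx, hy' hx]
  have h3 := (card_le_card h2).trans (card_insert_le _ _)
  have hKm : K ∈ univ.filter c.Comp := by simp [hK]
  have hLm : L ∈ (univ.filter c.Comp).erase K := by simp [hL, hKL]
  rw [card_erase_of_mem hLm] at h3
  have h4 := card_pos.2 ⟨L, hLm⟩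
  rw [card_erase_of_mem hKm] at h3 h4
  unfold kap at h1
  omega

lemma PP_ord {S : Finset X} (hS : ∀ x ∈ S, x ∈ c.O) : (c.fl S).PP = c.PP := by
  unfold PP
  refine Finset.sum_congr rfl fun p _ => ?_
  simp only [fl_O, fl_s, fl_w]
  by_cases h1 : p.1 ∈ c.O
  · simp [h1]
  by_cases h2 : p.2 ∈ c.O
  · simp [h2]
  rw [flip_not_mem fun h => h1 (hS _ h), flip_not_mem fun h => h2 (hS _ h)]

lemma nY_ord {S : Finset X} (hS : ∀ x ∈ S, x ∈ c.O) : (c.fl S).nY = c.nY := by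
  unfold nY
  congr 1
  refine Finset.filter_congr fun x _ => ?_
  simp only [fl_O, fl_s]
  by_cases h1 : x ∈ c.O
  · simp [h1]
  rw [flip_not_mem fun h => h1 (hS _ h)]

lemma kap_sad (h : ∀ x ∈ c.O, c.sm x + 1 ≤ c.t) {b : X} (hb : b ∉ c.O) :
    (c.fl ({b} ∪ ∅)).kap ≤ c.kap := by
  refine card_le_card fun L hL => ?_
  rw [mem_filter] at hL ⊢
  refine ⟨mem_univ _, comp_of_fl' h hL.2 ?_⟩
  intro z hz hz'
  simp only [union_empty, mem_singleton] at hz'
  exact hb (hz' ▸ (hL.2.2 z hz).1)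

lemma PP_term (hI : c.I = ∅) {b x : X} (hb : c.Sad b) (hbx : c.C b x) (hx : x ∈ c.O)
    (p : X × X) :
    (if p.1 ∉ c.O ∧ p.2 ∉ c.O ∧ flip ({b} ∪ ∅) c.s p.1 = flip ({b} ∪ ∅) c.s p.2
      then c.w p.1 p.2 else 0) ≤
    (if p.1 ∉ c.O ∧ p.2 ∉ c.O ∧ c.s p.1 = c.s p.2 then c.w p.1 p.2 else 0) := by
  have hNc : c.Nc b = {x} := Nc_eq (by simpa using hbx) (by simp [hb.2.2.1])
  have hz : ∀ y, y ∉ c.O → c.s b ≠ c.s y → c.w b y = 0 := by
    intro y hy hs
    by_contra hw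
    have : c.C b y := ⟨hb.2.1, nI hI y, hs, Nat.pos_of_ne_zero hw⟩
    have := mem_Nc.2 this
    rw [hNc, mem_singleton] at this
    exact hy (this ▸ hx)
  have hbm : b ∈ ({b} ∪ ∅ : Finset X) := by simp
  obtain ⟨u, v⟩ := p
  by_cases hu : u = b
  · subst hu
    by_cases hv' : v = u
    · subst hv'; simp [c.diag]
    · have hvm : v ∉ ({u} ∪ ∅ : Finset X) := by simp [hv']
      rw [flip_mem hbm, flip_not_mem hvm]
      split_ifs with h5 h6
      · exact le_rfl
      · refine (hz v h5.2.1 ?_).le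
        have := h5.2.2
        revert this; cases c.s u <;> cases c.s v <;> simp
      · exact Nat.zero_le _
      · exact le_rfl
  · have hum : u ∉ ({b} ∪ ∅ : Finset X) := by simp [hu]
    by_cases hv' : v = b
    · subst hv'
      rw [flip_mem hbm, flip_not_mem hum]
      split_ifs with h5 h6
      · exact le_rfl
      · rw [c.symm]
        refine (hz u h5.1 ?_).le
        have := h5.2.2
        revert this; cases c.s u <;> cases c.s v <;> simp
      · exact Nat.zero_le _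
      · exact le_rfl
    · have hvm : v ∉ ({b} ∪ ∅ : Finset X) := by simp [hv']
      rw [flip_not_mem hum, flip_not_mem hvm]

lemma exists_og (N : Net X) (he : N.e = 1) (hN : N.TwinB) :
    ∃ c : St X, c.toNet = N ∧ c.OG ∧ 0 ≤ bal c.O c.s := by
  obtain ⟨s0, -, hs0⟩ := Finset.exists_max_image univ
    (fun s => Dv N.w s - 2 * |bal N.O s|) univ_nonempty
  obtain ⟨s1, hp1, hp2⟩ := Finset.exists_max_image
    (univ.filter fun s => Dv N.w s - 2 * |bal N.O s| = Dv N.w s0 - 2 * |bal N.O s0|)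
    (fun s => |bal N.O s|) ⟨s0, by simp⟩
  simp only [mem_filter, mem_univ, true_and] at hp1 hp2
  have hex : ∃ s, Dv N.w s = Dv N.w s1 ∧ bal N.O s = |bal N.O s1| := by
    rcases abs_cases (bal N.O s1) with h | h
    · exact ⟨s1, rfl, h.1.symm⟩
    · refine ⟨fun x => !(s1 x), ?_, ?_⟩
      · unfold Dv
        simp only [sg_not_left, sg_not_right, neg_neg]
      · rw [h.1]; unfold bal
        simp only [sgn_not, Finset.sum_neg_distrib]
  obtain ⟨s2, hs2⟩ := hex
  obtain ⟨s3, hr1, hr2⟩ := Finset.exists_min_image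
    (univ.filter fun s => Dv N.w s = Dv N.w s1 ∧ bal N.O s = |bal N.O s1|)
    (fun s => FF ⟨N, ∅, s⟩) ⟨s2, by simp [hs2]⟩
  simp only [mem_filter, mem_univ, true_and] at hr1 hr2
  set c : St X := ⟨N, ∅, s3⟩ with hc
  have hI : c.I = ∅ := rfl
  have hD : Dv c.w c.s = Dv N.w s1 := hr1.1
  have hB : bal c.O c.s = |bal N.O s1| := hr1.2
  have hU : c.UU := by
    intro A B β hA hB' f1 f2
    by_contra hn
    have e1 := Dv_two hI hA hB'
    have e2 := bal_two hA hB'
    have e3 := hs0 (flip (A ∪ B) c.s) (mem_univ _)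
    have e4 := hp2 (flip (A ∪ B) c.s)
    have e5 : |bal N.O (flip (A ∪ B) c.s)| ≤ |bal N.O s1| + 2 := by
      have e6 : bal c.O (flip (A ∪ B) c.s) = bal N.O (flip (A ∪ B) c.s) := rfl
      rw [← e6, e2, hB, abs_le]
      have := abs_nonneg (bal N.O s1)
      cases β <;> simp only [sgn] <;> constructor <;> simp <;> omega
    have e7 : Dv c.w (flip (A ∪ B) c.s) = Dv N.w (flip (A ∪ B) c.s) := rfl
    omega
  have hsm : ∀ x ∈ c.O, c.sm x + 1 ≤ c.t := fun x hx => hU.sm_le hI he hx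
  have hF : ∀ (A B : Finset X) (β : Bool), (∀ a ∈ A, c.s a ≠ β) → (∀ b ∈ B, c.s b = β) →
      ∑ a ∈ A, c.oi a = ∑ b ∈ B, c.oi b →
      2 * ∑ a ∈ A, ∑ b ∈ B, (c.w a b : ℤ) = ∑ a ∈ A, c.gm a + ∑ b ∈ B, c.gm b
        + ∑ a ∈ A, ∑ a' ∈ A, (c.w a a' : ℤ) + ∑ b ∈ B, ∑ b' ∈ B, (c.w b b' : ℤ) →
      c.FF ≤ (c.fl (A ∪ B)).FF := by
    intro A B β hA hB' f1 f2
    refine hr2 _ ⟨?_, ?_⟩
    · rw [← hD]
      have := Dv_two hI hA hB'
      rw [← f2, sub_self, mul_zero, sub_zero] at this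
      exact this
    · rw [← hB]
      have := bal_two hA hB'
      rw [f1, sub_self, mul_zero, add_zero] at this
      exact this
  have hsw : ∀ q y, c.T q → c.T y → c.C q y → c.kap ≤ (c.fl ({q} ∪ {y})).kap := by
    intro q y hq hy hqy
    have hS : ∀ x ∈ ({q} ∪ {y} : Finset X), x ∈ c.O := by
      intro x hx
      simp only [mem_union, mem_singleton] at hx
      rcases hx with rfl | rfl
      exacts [hq.1, hy.1]
    have := hF {q} {y} (c.s y) (by simp [hqy.side]) (by simp) (by simp [oi_O hq.1, oi_O hy.1])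
      (by
        have e : c.e = 1 := he
        simp only [Finset.sum_singleton, c.diag, hq.gm_eq, hy.gm_eq, w_one hq.1 hy.1 hqy.pos, e]
        rfl)
    unfold FF at this
    rw [PP_ord hS, nY_ord hS] at this
    omega
  have hsad : ∀ b, c.Sad b → c.FF ≤ (c.fl ({b} ∪ ∅)).FF := by
    intro b hb
    refine hF {b} ∅ (!(c.s b)) (by simp) (by simp) (by simp [oi_N hb.1]) ?_
    have h2 := hb.2.2.1; have h3 := hb.2.2.2; have h4 := ia0 hI b
    simp only [Finset.sum_singleton, c.diag, Finset.sum_empty, gm]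
    omega
  refine ⟨c, rfl, ⟨hI, he, hU, fun q y K hq hy hqy hK hqK =>
    kap1_of hsm hq hy hqy hK hqK (hsw q y hq hy hqy), fun q y K L hq hy hqy hK hqK hL hyL =>
    kap2_of hsm hq hqy hK hqK hL hyL (hsw q y hq hy hqy), ?_, ?_, hN⟩, by rw [hB]; positivity⟩
  · intro b x b' hb hbx hx hbb
    by_contra hb'
    have h1 := hsad b hb
    have h2 := kap_sad hsm hb.1
    have h4 : (c.fl ({b} ∪ ∅)).PP < c.PP := by
      unfold PP
      refine Finset.sum_lt_sum (fun p _ => PP_term hI hb hbx hx p) ⟨(b, b'), mem_univ _, ?_⟩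
      have hbm : b ∈ ({b} ∪ ∅ : Finset X) := by simp
      have hvm : b' ∉ ({b} ∪ ∅ : Finset X) := by simp [hbb.ne.symm]
      simp only [fl_O, fl_s, fl_w]
      have e1 : ¬ (b ∉ c.O ∧ b' ∉ c.O ∧ (!c.s b) = c.s b') := by rw [hbb.side]; simp
      have e2 : b ∉ c.O ∧ b' ∉ c.O ∧ c.s b = c.s b' := ⟨hb.1, hb', hbb.side⟩
      rw [flip_mem hbm, flip_not_mem hvm, if_neg e1, if_pos e2]
      exact hbb.pos
    have h5 : (c.fl ({b} ∪ ∅)).nY ≤ c.nY + 1 := by
      unfold nY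
      refine (card_le_card (t := insert b (univ.filter fun x => x ∉ c.O ∧ c.s x = false))
        fun z hz => ?_).trans (card_insert_le _ _)
      by_cases e : z = b
      · rw [e]; exact mem_insert_self _ _
      · have hm : z ∉ ({b} ∪ ∅ : Finset X) := by simp [e]
        simp only [mem_filter, fl_O, fl_s, flip_not_mem hm] at hz
        exact mem_insert_of_mem (mem_filter.2 hz)
    unfold FF at h1
    omega
  · intro b x hb hbx hx
    by_contra hs
    have hs' : c.s b = false := by simpa using hs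
    have h1 := hsad b hb
    have h2 := kap_sad hsm hb.1
    have h4 : (c.fl ({b} ∪ ∅)).PP ≤ c.PP :=
      Finset.sum_le_sum fun p _ => PP_term hI hb hbx hx p
    have hm : b ∈ univ.filter fun x => x ∉ c.O ∧ c.s x = false := by simp [hb.1, hs']
    have h5 : (c.fl ({b} ∪ ∅)).nY ≤ ((univ.filter fun x => x ∉ c.O ∧ c.s x = false).erase b).card := by
      unfold nY
      refine card_le_card fun z hz => ?_
      by_cases e : z = b
      · have hbm : b ∈ ({b} ∪ ∅ : Finset X) := by simp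
        simp only [mem_filter, fl_O, fl_s, e, flip_mem hbm, hs'] at hz
        simp at hz
      · have hm : z ∉ ({b} ∪ ∅ : Finset X) := by simp [e]
        simp only [mem_filter, fl_O, fl_s, flip_not_mem hm] at hz
        exact mem_erase.2 ⟨e, mem_filter.2 hz⟩
    have h6 := card_erase_add_one hm
    unfold FF at h1
    unfold nY at h1 h5
    omega

end St

end

end Pool.Agent.Lib.MP_bb98d0_co
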