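import Pool.Agent.Lib.MP_bb98d0_co.K0

/-!
Odd degree: local exchange lemmas.
-/

namespace Pool.Agent.Lib.MP_bb98d0_co
open Finset Classical

noncomputable section

variable {X : Type*} [Fintype X]

namespace St

/-- tight atoms joined to `K` across the cut -/
def RK (c : St X) (K : Finset X) : Finset X := univ.filter fun z => c.T z ∧ ∃ q ∈ K, c.C q z

def OK (c : St X) (K : Finset X) : Prop :=
  c.Comp K ∧ (c.RK K).card + 1 = c.t ∧ ∀ q ∈ K, ∀ z ∈ c.RK K, c.C q z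

def OT (c : St X) (q : X) : Prop := ∃ K, c.OK K ∧ q ∈ K

def dS (c : St X) (y : X) : ℕ := ((c.Nc y).filter c.Sad).card
def dO (c : St X) (y : X) : ℕ := ((c.Nc y).filter c.OT).card
def dT (c : St X) (y : X) : ℕ := ((c.Nc y).filter c.T).card

variable {c : St X}

lemma mem_RK {K : Finset X} {z : X} : z ∈ c.RK K ↔ c.T z ∧ ∃ q ∈ K, c.C q z := by simp [RK]

namespace OG

lemma nI (G : c.OG) (x : X) : x ∉ c.I := St.nI G.hI x

lemma deg (G : c.OG) {x : X} (hO : x ∈ c.O) : c.cr x + c.sm x + 1 = 2 * c.t := by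
  have := degO' hO (G.nI x); have := ia0 G.hI x; have := G.he; omega

lemma degS (G : c.OG) {x : X} (hO : x ∉ c.O) : c.cr x + c.sm x = 2 * c.mu x := by
  have := degS' hO (G.nI x); have := ia0 G.hI x; omega

lemma sm_le (G : c.OG) {x : X} (hO : x ∈ c.O) : c.sm x + 1 ≤ c.t := G.U.sm_le G.hI G.he hO

lemma cr_ge (G : c.OG) {x : X} (hO : x ∈ c.O) : c.t ≤ c.cr x := by
  have := G.deg hO; have := G.sm_le hO; omega

lemma sm_le_cr (G : c.OG) (x : X) : c.sm x ≤ c.cr x := by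
  have := G.U.gm_nonneg x; have := ia0 G.hI x; unfold gm at *; omega

lemma gm_eq (G : c.OG) (x : X) : c.gm x = c.cr x - c.sm x := by
  have := ia0 G.hI x; unfold gm; omega

lemma gmT (G : c.OG) {x : X} (h : c.T x) : c.gm x = 1 := by
  rw [h.gm_eq, G.he]; rfl

lemma gmS (G : c.OG) {x : X} (h : c.Sad x) : c.gm x = 0 := by
  rw [G.gm_eq, h.2.2.1, h.2.2.2]; rfl

lemma compT (G : c.OG) {K : Finset X} (hK : c.Comp K) {x : X} (hx : x ∈ K) : c.T x := by
  obtain ⟨h1, h2, h3, -⟩ := hK.2 x hx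
  have := G.deg h1
  exact ⟨h1, h2, by omega, h3⟩

lemma T_or_pay (G : c.OG) {x : X} (hO : x ∈ c.O) : c.T x ∨ c.Pay x := by
  have := G.cr_ge hO; have := G.deg hO
  by_cases h1 : c.cr x = c.t
  · exact Or.inl ⟨hO, G.nI x, h1, by omega⟩
  · exact Or.inr ⟨G.nI x, fun _ => by omega, fun h => absurd hO h⟩

lemma cls (G : c.OG) {q x : X} (hc : c.C q x) : c.T x ∨ c.Sad x ∨ c.Pay x := by
  by_cases hO : x ∈ c.O
  · rcases G.T_or_pay hO with h | h
    exacts [Or.inl h, Or.inr (Or.inr h)]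
  · have h2 := w_le_cr hc.symm
    have h3 := hc.symm.pos
    have := G.degS hO; have := G.sm_le_cr x
    by_cases h1 : c.cr x = 1
    · exact Or.inr (Or.inl ⟨hO, G.nI x, h1, by omega⟩)
    · exact Or.inr (Or.inr ⟨G.nI x, fun h => absurd h hO, fun _ => by omega⟩)

lemma U11 (G : c.OG) {a b : X} (hs : c.s a ≠ c.s b) : 2 * (c.w a b : ℤ) ≤ c.gm a + c.gm b := by
  have h1 := oi_le (c := c) a; have h2 := oi_le (c := c) b
  have h3 := oi_ge (c := c) a; have h4 := oi_ge (c := c) b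
  have := G.U {a} {b} (c.s b) (by simp [hs]) (by simp) (by simp; omega) (by simp; omega)
  simpa [c.diag] using this

lemma U12 (G : c.OG) {a b1 b2 : X} (ha : a ∈ c.O) (hs : c.s a ≠ c.s b1) (hs2 : c.s b2 = c.s b1)
    (hne : b1 ≠ b2) :
    2 * ((c.w a b1 : ℤ) + c.w a b2) ≤ c.gm a + c.gm b1 + c.gm b2 + 2 * c.w b1 b2 := by
  have h1 := oi_le (c := c) b1; have h2 := oi_le (c := c) b2
  have h3 := oi_ge (c := c) b1; have h4 := oi_ge (c := c) b2
  have := G.U {a} {b1, b2} (c.s b1) (by simp [hs]) (by simp [hs2])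
    (by rw [Finset.sum_pair hne, Finset.sum_singleton, oi_O ha]; omega)
    (by rw [Finset.sum_pair hne, Finset.sum_singleton, oi_O ha]; omega)
  simp only [Finset.sum_pair hne, Finset.sum_singleton, c.diag, c.symm b2 b1] at this
  push_cast at this
  linarith

lemma U23 (G : c.OG) {a1 a2 b1 b2 b3 : X} (ha1 : a1 ∈ c.O) (ha2 : a2 ∈ c.O)
    (hb1 : b1 ∈ c.O) (hb2 : b2 ∈ c.O) (hb3 : b3 ∈ c.O) (hs1 : c.s a1 ≠ c.s b1)
    (hs2 : c.s a2 ≠ c.s b1) (hs3 : c.s b2 = c.s b1) (hs4 : c.s b3 = c.s b1)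
    (hna : a1 ≠ a2) (h12 : b1 ≠ b2) (h13 : b1 ≠ b3) (h23 : b2 ≠ b3) :
    2 * ((c.w a1 b1 : ℤ) + c.w a1 b2 + c.w a1 b3 + c.w a2 b1 + c.w a2 b2 + c.w a2 b3) ≤
      c.gm a1 + c.gm a2 + c.gm b1 + c.gm b2 + c.gm b3 + 2 * c.w a1 a2
        + 2 * (c.w b1 b2 + c.w b1 b3 + c.w b2 b3) := by
  have := G.U {a1, a2} {b1, b2, b3} (c.s b1) (by simp [hs1, hs2]) (by simp [hs3, hs4])
    (by rw [Finset.sum_pair hna, sum_three _ h12 h13 h23, oi_O ha1, oi_O ha2, oi_O hb1, oi_O hb2,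
      oi_O hb3]; omega)
    (by rw [Finset.sum_pair hna, sum_three _ h12 h13 h23, oi_O ha1, oi_O ha2, oi_O hb1, oi_O hb2,
      oi_O hb3])
  simp only [Finset.sum_pair hna, sum_three _ h12 h13 h23, c.diag, c.symm b2 b1, c.symm a2 a1,
    c.symm b3 b1, c.symm b3 b2] at this
  push_cast at this
  linarith

lemma L1T (G : c.OG) {b x : X} (hb : c.Sad b) (hx : c.T x) (hc : c.C b x) : False := by
  have := G.U11 hc.side; have := G.gmS hb; have := G.gmT hx; have := hc.pos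
  omega

lemma L1S (G : c.OG) {b x : X} (hb : c.Sad b) (hx : c.Sad x) (hc : c.C b x) : False := by
  have := G.U11 hc.side; have := G.gmS hb; have := G.gmS hx; have := hc.pos
  omega

lemma L2 (G : c.OG) {u z z' : X} (hu : c.T u) (hz : c.T z) (hz' : c.T z') (h1 : c.C u z)
    (h2 : c.C u z') (hne : z ≠ z') : c.S z z' := by
  refine h1.toS h2 ?_
  have := G.U12 hu.1 h1.side (h2.same h1) hne
  have := G.gmT hu; have := G.gmT hz; have := G.gmT hz'; have := h1.pos; have := h2.pos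
  omega

lemma sad_w {b x : X} (hb : c.Sad b) (hc : c.C x b) : c.w x b = 1 := by
  have h1 := w_le_cr hc.symm
  have := hb.2.2.1; have := hc.pos
  rw [c.symm b x] at h1
  omega

lemma sad_indep (G : c.OG) {x b b' : X} (hO : x ∈ c.O) (hb : c.Sad b) (hb' : c.Sad b')
    (h1 : c.C x b) (h2 : c.C x b') : c.w b b' = 0 := by
  by_contra hn
  exact hb'.1 (G.sadp b x b' hb h1.symm hO (h1.toS h2 (Nat.pos_of_ne_zero hn)))

lemma sad_sums (G : c.OG) {x : X} (hO : x ∈ c.O) :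
    ∑ a ∈ (c.Nc x).filter c.Sad, c.gm a = 0 ∧ ∑ a ∈ (c.Nc x).filter c.Sad, c.oi a = 0 ∧
    ∑ a ∈ (c.Nc x).filter c.Sad, ∑ a' ∈ (c.Nc x).filter c.Sad, (c.w a a' : ℤ) = 0 ∧
    ∑ a ∈ (c.Nc x).filter c.Sad, (c.w a x : ℤ) = c.dS x := by
  refine ⟨Finset.sum_eq_zero fun a ha => G.gmS (mem_filter.1 ha).2,
    Finset.sum_eq_zero fun a ha => oi_N (mem_filter.1 ha).2.1,
    Finset.sum_eq_zero fun a ha => Finset.sum_eq_zero fun a' ha' => ?_, ?_⟩
  · rw [mem_filter, mem_Nc] at ha ha'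
    rw [G.sad_indep hO ha.2 ha'.2 ha.1 ha'.1]; rfl
  · unfold dS
    rw [Finset.card_eq_sum_ones]
    push_cast
    refine Finset.sum_congr rfl fun a ha => ?_
    rw [mem_filter, mem_Nc] at ha
    rw [c.symm, sad_w ha.2 ha.1]; rfl

lemma L3 (G : c.OG) {x : X} (hO : x ∈ c.O) : c.dS x + c.t ≤ c.cr x := by
  obtain ⟨h2, h5, h3, h4⟩ := G.sad_sums hO
  have h1 := G.U ((c.Nc x).filter c.Sad) {x} (c.s x)
    (fun a ha => (mem_Nc.1 (mem_filter.1 ha).1).side.symm) (by simp)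
    (by rw [h5, Finset.sum_singleton, oi_O hO]; omega)
    (by rw [h5, Finset.sum_singleton, oi_O hO]; omega)
  simp only [Finset.sum_singleton, c.diag] at h1
  rw [h2, h3, h4, G.gm_eq] at h1
  have := G.deg hO
  omega

/-- the twin bound -/
lemma TW (G : c.OG) {K L A B : Finset X} (hA : ∀ z ∈ A, insert z (c.Ns z) = K ∧ c.Nc z = L)
    (hB : ∀ z ∈ B, insert z (c.Ns z) = L ∧ c.Nc z = K) (hK : K ⊆ c.O) (hL : L ⊆ c.O) {z0 : X}
    (hz0 : z0 ∈ A) : A.card + B.card + 1 ≤ c.t := by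
  have hchar : ∀ z y, (y = z ∨ 0 < c.w z y) ↔ (y ∈ insert z (c.Ns z) ∨ y ∈ c.Nc z) := by
    intro z y
    rw [mem_insert, mem_Ns, mem_Nc]
    constructor
    · rintro (h1 | h1)
      · exact Or.inl (Or.inl h1)
      · by_cases hs : c.s z = c.s y
        · exact Or.inl (Or.inr ⟨G.nI z, G.nI y, hs, h1⟩)
        · exact Or.inr ⟨G.nI z, G.nI y, hs, h1⟩
    · rintro ((h1 | h1) | h1)
      exacts [Or.inl h1, Or.inr h1.pos, Or.inr h1.pos]
  have hAc : ∀ z ∈ A, ∀ y, (y = z ∨ 0 < c.w z y) ↔ (y ∈ K ∨ y ∈ L) := fun z hz y => by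
    rw [hchar, (hA z hz).1, (hA z hz).2]
  have hBc : ∀ z ∈ B, ∀ y, (y = z ∨ 0 < c.w z y) ↔ (y ∈ K ∨ y ∈ L) := fun z hz y => by
    rw [hchar, (hB z hz).1, (hB z hz).2, or_comm]
  have hsub : A ∪ B ⊆ c.toNet.Tw z0 := by
    intro z hz
    simp only [Net.Tw, mem_filter, mem_univ, true_and]
    intro y
    rw [hAc z0 hz0]
    rcases mem_union.1 hz with hz | hz
    exacts [hAc z hz y, hBc z hz y]
  have hd : Disjoint A B := by
    refine Finset.disjoint_left.2 fun z h1 h2 => ?_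
    have e1 : z ∈ K := by rw [← (hA z h1).1]; exact mem_insert_self _ _
    rw [← (hB z h2).2] at e1
    exact (mem_Nc.1 e1).ne rfl
  have h1 := G.twin z0 (hK (by rw [← (hA z0 hz0).1]; exact mem_insert_self _ _)) (fun y hy => by
    rcases (hAc z0 hz0 y).1 (Or.inr hy) with h1 | h1
    exacts [hK h1, hL h1])
  have h2 := card_le_card hsub
  rw [card_union_of_disjoint hd] at h2
  omega

lemma bigy (G : c.OG) {K : Finset X} (hK : c.Comp K) {q y q2 : X} (hq : q ∈ K)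
    (hy : c.T y) (hc : c.C q y) (hq2 : q2 ∈ K) (hne : q2 ≠ q) (hc2 : c.C y q2)
    (hn : c.Nc y ≠ K) : c.New q y ∧ ∀ L, c.Comp L → y ∉ L := by
  have hqT := G.compT hK hq
  have hno : ¬ c.New y q := by
    intro hN
    apply hn
    have h1 : c.Nc y ⊆ K := by
      intro x hx
      rw [mem_Nc] at hx
      by_cases e : x = q
      · rw [e]; exact hq
      by_cases e2 : q2 = x
      · rw [← e2]; exact hq2
      exact hK.mem_of_S hq2 (hc2.toS hx ((hN q2 hc2 hne).2.2 x hx e e2))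
    refine eq_of_subset_of_card_le h1 ?_
    rw [card_Nc_ord hy.1 (fun x hx => (hK.2 x (h1 hx)).1), hK.1, hy.2.2.1]
  exact ⟨(G.kap1 q y K hqT hy hc hK hq).resolve_right hno,
    fun L hL hyL => hno (G.kap2 y q L K hy hqT hc.symm hL hyL hK hq)⟩

end OG

lemma T.ins_eq {u : X} (hu : c.T u) {L : Finset X} (hL : L.card = c.t) (huL : u ∈ L)
    (h : ∀ y ∈ L, y ≠ u → c.S u y) : insert u (c.Ns u) = L := by
  have h1 : c.Ns u = L.erase u := by
    refine St.Ns_eq (fun y hy => ?_) ?_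
    · rw [mem_erase] at hy
      exact mem_Ns.2 (h y hy.2 hy.1)
    · have := card_erase_add_one huL; have := hu.2.2.2
      omega
  rw [h1, insert_erase huL]

lemma OK.T {K : Finset X} {z : X} (hz : z ∈ c.RK K) : c.T z := (mem_RK.1 hz).1

lemma OK.Nc_eq {K : Finset X} (h : c.OK K) {z : X} (hz : z ∈ c.RK K) : c.Nc z = K :=
  St.Nc_eq (fun q hq => mem_Nc.2 (h.2.2 q hq z hz).symm) (by rw [h.1.1, (OK.T hz).2.2.1])

lemma OK.clique (G : c.OG) {K : Finset X} (h : c.OK K) {z z' : X} (hz : z ∈ c.RK K)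
    (hz' : z' ∈ c.RK K) (hne : z ≠ z') : c.S z z' := by
  obtain ⟨q, hq, -⟩ := (mem_RK.1 hz).2
  exact G.L2 (G.compT h.1 hq) (OK.T hz) (OK.T hz') (h.2.2 q hq z hz) (h.2.2 q hq z' hz') hne

lemma OK.extra (G : c.OG) {K : Finset X} (h : c.OK K) {u : X} (hu : u ∈ c.RK K) {N : Finset X}
    (hN : ∀ y ∈ N, y ∉ c.RK K ∧ c.S u y) : N.card ≤ 1 := by
  have h1 : N ∪ (c.RK K).erase u ⊆ c.Ns u := by
    intro y hy
    rcases mem_union.1 hy with hy | hy
    · exact mem_Ns.2 (hN y hy).2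
    · rw [mem_erase] at hy
      exact mem_Ns.2 (h.clique G hu hy.2 hy.1.symm)
  have h2 := card_le_sm h1
  rw [card_union_of_disjoint (Finset.disjoint_left.2 fun y hy hy' =>
    (hN y hy).1 (mem_of_mem_erase hy'))] at h2
  have := card_erase_add_one hu; have := (OK.T hu).2.2.2; have := h.2.1
  omega

lemma OK.near {K : Finset X} (h : c.OK K) {y q : X} (hq : q ∈ K) (hc : c.C y q) :
    (c.RK K).filter (fun u => 0 < c.w y u) ⊆ c.Ns y := by
  intro u hu
  rw [mem_filter] at hu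
  exact mem_Ns.2 (hc.symm.toS (h.2.2 q hq u hu.1) hu.2)

lemma OG.L4 (G : c.OG) {y q : X} (hO : y ∈ c.O) (hy : c.t + 1 ≤ c.cr y) (hq : c.OT q)
    (hc : c.C y q) : c.dS y + c.t + 1 ≤ c.cr y := by
  obtain ⟨K, hK, hqK⟩ := hq
  have hqT := G.compT hK.1 hqK
  have hd := G.deg hO
  obtain ⟨u, hu, hw⟩ : ∃ u ∈ c.RK K, c.w y u = 0 := by
    by_contra hn
    push Not at hn
    have h1 := card_le_sm (hK.near hqK hc)
    rw [Finset.filter_true_of_mem fun u hu => Nat.pos_of_ne_zero (hn u hu)] at h1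
    have := hK.2.1
    omega
  have huT := OK.T hu
  have hne : y ≠ u := fun e => by have := huT.2.2.1; rw [← e] at this; omega
  have cu := hK.2.2 q hqK u hu
  have hqn : q ∉ (c.Nc y).filter c.Sad := fun h => (mem_filter.1 h).2.1 hqT.1
  obtain ⟨h2, h5, h3, h4⟩ := G.sad_sums hO
  have hz : ∀ a ∈ (c.Nc y).filter c.Sad, c.w q a = 0 := by
    intro a ha
    rw [mem_filter, mem_Nc] at ha
    by_contra hn
    exact ha.2.1 (hK.1.2 a (hK.1.mem_of_S hqK (hc.toS ha.1 (Nat.pos_of_ne_zero hn)))).1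
  have z1 : ∑ a ∈ (c.Nc y).filter c.Sad, (c.w q a : ℤ) = 0 :=
    Finset.sum_eq_zero fun a ha => by rw [hz a ha]; rfl
  have z2 : ∑ a ∈ (c.Nc y).filter c.Sad, (c.w a q : ℤ) = 0 :=
    Finset.sum_eq_zero fun a ha => by rw [c.symm, hz a ha]; rfl
  have z3 : 0 ≤ ∑ a ∈ (c.Nc y).filter c.Sad, (c.w a u : ℤ) :=
    Finset.sum_nonneg fun a _ => Int.natCast_nonneg _
  have h1 := G.U (insert q ((c.Nc y).filter c.Sad)) {y, u} (c.s y)
    (fun a ha => by
      rcases mem_insert.1 ha with rfl | ha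
      exacts [hc.side.symm, (mem_Nc.1 (mem_filter.1 ha).1).side.symm])
    (by simp [cu.same hc.symm])
    (by rw [Finset.sum_insert hqn, h5, Finset.sum_pair hne, oi_O hO, oi_O hqT.1, oi_O huT.1]; omega)
    (by rw [Finset.sum_insert hqn, h5, Finset.sum_pair hne, oi_O hO, oi_O hqT.1, oi_O huT.1]; omega)
  simp only [Finset.sum_insert hqn, Finset.sum_pair hne, Finset.sum_add_distrib, c.diag,
    c.symm u y, hw] at h1
  rw [h2, h3, h4, z1, z2, G.gmT hqT, G.gmT huT, G.gm_eq] at h1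
  have := hc.symm.pos; have := cu.pos
  omega

lemma OG.L5 (G : c.OG) {y : X} (hO : y ∈ c.O) (hy : c.cr y = c.t + 1) : c.dO y ≤ 1 := by
  unfold dO
  rw [card_le_one]
  intro q1 hq1 q2 hq2
  by_contra hne
  rw [mem_filter, mem_Nc] at hq1 hq2
  obtain ⟨c1, K1, hK1, m1⟩ := hq1
  obtain ⟨c2, K2, hK2, m2⟩ := hq2
  have T1 := G.compT hK1.1 m1
  have T2 := G.compT hK2.1 m2
  have hd := G.deg hO
  have ht := c.ht
  have gy : c.gm y = 3 := by rw [G.gm_eq]; omega
  have hyT : ∀ u, c.T u → y ≠ u := fun u hu e => by have := hu.2.2.1; rw [← e] at this; omega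
  have key : ∀ u1 ∈ c.RK K1, ∀ u2 ∈ c.RK K2, u1 ≠ u2 → c.w y u1 = 0 → c.w y u2 = 0 →
      2 * ((c.w q1 u2 : ℤ) + c.w q2 u1) + 1 ≤ 2 * c.w q1 q2 + 2 * c.w u1 u2 := by
    intro u1 h1 u2 h2 hn w1 w2
    have d1 := hK1.2.2 q1 m1 u1 h1
    have d2 := hK2.2.2 q2 m2 u2 h2
    have := G.U23 T1.1 T2.1 hO (OK.T h1).1 (OK.T h2).1 c1.side.symm c2.side.symm
      (d1.same c1.symm) (d2.same c2.symm) hne (hyT _ (OK.T h1)) (hyT _ (OK.T h2)) hn
    rw [G.gmT T1, G.gmT T2, G.gmT (OK.T h1), G.gmT (OK.T h2), gy, w1, w2] at this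
    have := c1.symm.pos; have := c2.symm.pos; have := d1.pos; have := d2.pos
    omega
  have split : ∀ K, ((c.RK K).filter fun u => 0 < c.w y u).card
      + ((c.RK K).filter fun u => ¬ 0 < c.w y u).card = (c.RK K).card := fun K =>
    Finset.card_filter_add_card_filter_not _
  by_cases e : K1 = K2
  · subst e
    have a1 : ((c.RK K1).filter fun u => ¬ 0 < c.w y u).card ≤ 1 := by
      rw [card_le_one]
      intro u1 h1 u2 h2
      by_contra hn
      rw [mem_filter] at h1 h2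
      have := key u1 h1.1 u2 h2.1 hn (by omega) (by omega)
      have := (hK1.2.2 q1 m1 u2 h2.1).pos
      have := (hK1.2.2 q2 m2 u1 h1.1).pos
      have := c.simple q1 T1.1 q2 T2.1
      have := c.simple u1 (OK.T h1.1).1 u2 (OK.T h2.1).1
      omega
    have hyR : y ∉ c.RK K1 := fun h => hyT y (OK.T h) rfl
    have hL : (insert y (c.RK K1)).card = c.t := by
      rw [card_insert_of_notMem hyR]; exact hK1.2.1
    have hq : ∀ q ∈ K1, c.C y q → insert q (c.Ns q) = K1 ∧ c.Nc q = insert y (c.RK K1) :=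
      fun q hq hc => ⟨(hK1.1.eq_insert hq).symm, St.Nc_eq (fun z hz => by
        rcases mem_insert.1 hz with rfl | hz
        exacts [mem_Nc.2 hc.symm, mem_Nc.2 (hK1.2.2 q hq z hz)])
        (by rw [hL, (G.compT hK1.1 hq).2.2.1])⟩
    have := G.TW (K := K1) (L := insert y (c.RK K1)) (A := {q1, q2})
      (B := (c.RK K1).filter fun u => 0 < c.w y u) (z0 := q1)
      (fun z hz => by
        simp only [mem_insert, mem_singleton] at hz
        rcases hz with rfl | rfl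
        exacts [hq _ m1 c1, hq _ m2 c2])
      (fun z hz => by
        have hS := mem_Ns.1 (hK1.near m1 c1 hz)
        rw [mem_filter] at hz
        refine ⟨(OK.T hz.1).ins_eq hL (mem_insert_of_mem hz.1) fun v hv hn => ?_,
          hK1.Nc_eq hz.1⟩
        rcases mem_insert.1 hv with rfl | hv
        exacts [hS.symm, hK1.clique G hz.1 hv hn.symm])
      (fun x hx => (hK1.1.2 x hx).1)
      (fun x hx => by
        rcases mem_insert.1 hx with rfl | hx
        exacts [hO, (OK.T hx).1]) (by simp)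
    rw [card_pair hne] at this
    have := split K1; have := hK1.2.1
    omega
  · have w0 : c.w q1 q2 = 0 := by
      by_contra hn
      exact e (hK1.1.unique hK2.1
        (hK1.1.mem_of_S m1 (c1.toS c2 (Nat.pos_of_ne_zero hn))) m2)
    have dj : ∀ u, u ∈ c.RK K1 → u ∈ c.RK K2 → False := fun u h1 h2 =>
      e ((hK1.Nc_eq h1).symm.trans (hK2.Nc_eq h2))
    have adj : ∀ u1 ∈ (c.RK K1).filter (fun u => ¬ 0 < c.w y u),
        ∀ u2 ∈ (c.RK K2).filter (fun u => ¬ 0 < c.w y u), c.S u1 u2 := by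
      intro u1 h1 u2 h2
      rw [mem_filter] at h1 h2
      have := key u1 h1.1 u2 h2.1 (fun e' => dj u1 h1.1 (e' ▸ h2.1)) (by omega) (by omega)
      have d1 := hK1.2.2 q1 m1 u1 h1.1
      have d2 := hK2.2.2 q2 m2 u2 h2.1
      exact ⟨d1.r, d2.r, (d1.same c1.symm).trans (d2.same c2.symm).symm, by omega⟩
    have a1 := card_le_sm (Finset.union_subset (hK1.near m1 c1) (hK2.near m2 c2))
    rw [card_union_of_disjoint (Finset.disjoint_left.2 fun u h1 h2 =>
      dj u (mem_filter.1 h1).1 (mem_filter.1 h2).1)] at a1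
    have s1 := split K1; have s2 := split K2
    have t1 := hK1.2.1; have t2 := hK2.2.1
    obtain ⟨u1, h1⟩ := card_pos.1
      (show 0 < ((c.RK K1).filter fun u => ¬ 0 < c.w y u).card by omega)
    obtain ⟨u2, h2⟩ := card_pos.1
      (show 0 < ((c.RK K2).filter fun u => ¬ 0 < c.w y u).card by omega)
    have b1 := hK1.extra G (mem_filter.1 h1).1 (N := (c.RK K2).filter fun u => ¬ 0 < c.w y u)
      fun v hv => ⟨fun h => dj v h (mem_filter.1 hv).1, adj u1 h1 v hv⟩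
    have b2 := hK2.extra G (mem_filter.1 h2).1 (N := (c.RK K1).filter fun u => ¬ 0 < c.w y u)
      fun v hv => ⟨fun h => dj v (mem_filter.1 hv).1 h, (adj v hv u2 h2).symm⟩
    omega

end St

end

end Pool.Agent.Lib.MP_bb98d0_co
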