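import Pool.Agent.Lib.MP_bb98d0_co.K1

/-!
Odd degree: charges, rates and the atoms that pay.
-/

namespace Pool.Agent.Lib.MP_bb98d0_co
open Finset Classical

noncomputable section

variable {X : Type*} [Fintype X]

def AA (t : ℚ) (b : Bool) : ℚ := if b then 3 * (t + 1) / 2 else 3 * (t - 1) / 2
def rr (t : ℚ) (b : Bool) : ℚ := if b then 1 + 1 / t else 1 - 1 / t

namespace St

def rt (c : St X) (p q : X) : ℚ :=
  if c.Pay p then (if c.Sad q then 2 * c.t - AA c.t (c.s q) else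
    if c.T q then (if c.OT q then 2 - 1 / c.t else rr c.t (c.s p)) else 0) else 0
def vl (c : St X) (q : X) : ℚ := ∑ p ∈ c.Nc q, (c.w q p : ℚ) * c.rt p q
def pd (c : St X) (p : X) : ℚ := ∑ q ∈ c.Nc p, (c.w p q : ℚ) * c.rt p q
def BO (c : St X) (x : X) : ℚ :=
  if x ∈ c.O then AA c.t (c.s x) * (c.cr x - c.t) - 1
  else if c.mu x = 0 then 0 else AA c.t (c.s x) * c.cr x - 2 * c.t
def tau (c : St X) (x : X) : ℚ :=
  if c.T x then (sgn (c.s x) : ℚ) * c.dT x / (c.t * (c.t - 1)) else 0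
def Fv (c : St X) (x : X) : ℚ := c.BO x - c.pd x + c.vl x + c.tau x

variable {c : St X}

lemma sum_C_comm (f : X → X → ℚ) :
    ∑ x, ∑ y ∈ c.Nc x, f x y = ∑ y, ∑ x ∈ c.Nc y, f x y := by
  refine Finset.sum_comm' fun x y => ?_
  simp only [mem_univ, true_and, and_true, mem_Nc]
  exact ⟨C.symm, C.symm⟩

lemma sum_vl_pd : ∑ x, c.vl x = ∑ x, c.pd x := by
  unfold vl pd
  rw [sum_C_comm]
  exact Finset.sum_congr rfl fun x _ => Finset.sum_congr rfl fun y _ => by rw [c.symm]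

lemma sgn_ne {a b : Bool} (h : a ≠ b) : sgn a = - sgn b := by
  cases a <;> cases b <;> simp_all [sgn]

lemma sum_tau : ∑ x, c.tau x = 0 := by
  have h1 : ∀ x, c.tau x = (∑ y ∈ c.Nc x, if c.T x ∧ c.T y then (sgn (c.s x) : ℚ) else 0)
      / (c.t * (c.t - 1)) := by
    intro x
    unfold tau dT
    by_cases h : c.T x
    · simp only [h, true_and, if_true]
      rw [← Finset.sum_filter, Finset.sum_const, nsmul_eq_mul, mul_comm]
    · simp [h]
  have h2 : ∑ x, ∑ y ∈ c.Nc x, (if c.T x ∧ c.T y then (sgn (c.s x) : ℚ) else 0)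
      = - ∑ x, ∑ y ∈ c.Nc x, (if c.T x ∧ c.T y then (sgn (c.s x) : ℚ) else 0) := by
    nth_rewrite 1 [sum_C_comm]
    rw [← Finset.sum_neg_distrib]
    refine Finset.sum_congr rfl fun y _ => ?_
    rw [← Finset.sum_neg_distrib]
    refine Finset.sum_congr rfl fun x hx => ?_
    rw [sgn_ne (mem_Nc.1 hx).side]
    by_cases h : c.T x ∧ c.T y
    · rw [if_pos h, if_pos h.symm]; simp
    · rw [if_neg h, if_neg fun h' => h h'.symm]; simp
  simp only [h1, ← Finset.sum_div]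
  rw [show ∑ x, ∑ y ∈ c.Nc x, (if c.T x ∧ c.T y then (sgn (c.s x) : ℚ) else 0) = 0 by linarith]
  simp

lemma sum_Fv : ∑ x, c.Fv x = ∑ x, c.BO x := by
  unfold Fv
  rw [Finset.sum_add_distrib, Finset.sum_add_distrib, Finset.sum_sub_distrib, sum_vl_pd, sum_tau]
  ring

lemma t3 (c : St X) : (3 : ℚ) ≤ c.t := by exact_mod_cast c.ht

lemma iv (c : St X) : 0 < 1 / (c.t : ℚ) ∧ 1 / (c.t : ℚ) ≤ 1 / 3 ∧ (c.t : ℚ) * (1 / c.t) = 1 := by
  have := c.t3
  refine ⟨by positivity, one_div_le_one_div_of_le (by norm_num) this, by field_simp⟩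

lemma rr_nonneg (b : Bool) : 0 ≤ rr c.t b := by
  have := c.iv; unfold rr; split_ifs <;> linarith

lemma rr_le (b : Bool) : rr c.t b ≤ 2 - 1 / c.t := by
  have := c.iv; unfold rr; split_ifs <;> linarith

lemma rt_nonneg (p q : X) : 0 ≤ c.rt p q := by
  have := c.iv; have := c.t3; have := rr_nonneg (c := c) (c.s p)
  unfold rt AA
  split_ifs <;> linarith

lemma vl_nonneg (q : X) : 0 ≤ c.vl q :=
  Finset.sum_nonneg fun p _ => mul_nonneg (Nat.cast_nonneg _) (rt_nonneg p q)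

lemma pd_zero {p : X} (h : ¬ c.Pay p) : c.pd p = 0 :=
  Finset.sum_eq_zero fun q _ => by rw [rt, if_neg h, mul_zero]

lemma cr_cast (x : X) : (c.cr x : ℚ) = ∑ y ∈ c.Nc x, (c.w x y : ℚ) := by
  unfold cr; push_cast; rfl

lemma rt_T {p q : X} (hp : c.Pay p) (hq : c.T q) : rr c.t (c.s p) ≤ c.rt p q := by
  unfold rt
  rw [if_pos hp, if_neg hq.not_sad, if_pos hq]
  split_ifs
  exacts [rr_le _, le_rfl]

lemma rt_OT {p q : X} (hp : c.Pay p) (hq : c.T q) (ho : c.OT q) : c.rt p q = 2 - 1 / c.t := by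
  unfold rt
  rw [if_pos hp, if_neg hq.not_sad, if_pos hq, if_pos ho]

lemma OG.vl_ge (G : c.OG) {x : X} (hx : c.T x) {ρ : ℚ}
    (h : ∀ p, c.C x p → c.Pay p → ρ ≤ c.rt p x) : ρ * (c.t - c.dT x) ≤ c.vl x := by
  have h1 : (c.t : ℚ) - c.dT x = ∑ p ∈ c.Nc x, ((c.w x p : ℚ) - if c.T p then 1 else 0) := by
    rw [Finset.sum_sub_distrib, ← cr_cast, hx.2.2.1]
    unfold dT
    rw [card_filter]; push_cast; rfl
  rw [h1, Finset.mul_sum]
  refine Finset.sum_le_sum fun p hp => ?_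
  rw [mem_Nc] at hp
  rcases G.cls hp with hT | hS | hP
  · rw [if_pos hT, w_one hx.1 hT.1 hp.pos]
    simpa using rt_nonneg p x
  · exact (G.L1T hS hx hp.symm).elim
  · rw [if_neg fun hT : c.T p => hT.low.not_pay hP, sub_zero, mul_comm]
    exact mul_le_mul_of_nonneg_left (h p hp hP) (Nat.cast_nonneg _)

lemma OG.vl_rr (G : c.OG) {x : X} (hx : c.T x) :
    rr c.t (!(c.s x)) * (c.t - c.dT x) ≤ c.vl x :=
  G.vl_ge hx fun p hc hp => by
    have : (!(c.s x)) = c.s p := by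
      have := hc.side
      revert this; cases c.s x <;> cases c.s p <;> simp
    rw [this]; exact rt_T hp hx

lemma Fv_T {x : X} (hx : c.T x) :
    c.Fv x = -1 + c.vl x + (sgn (c.s x) : ℚ) * c.dT x / (c.t * (c.t - 1)) := by
  unfold Fv BO tau
  rw [if_pos hx.1, if_pos hx, pd_zero hx.low.not_pay, hx.2.2.1]
  ring

lemma dT_le (x : X) : c.dT x ≤ c.cr x := card_le_cr (filter_subset _ _)

/-- a tight atom with a paying neighbour across the cut -/
lemma OG.Fv_tight (G : c.OG) {x : X} (hx : c.T x) (hd : c.dT x + 1 ≤ c.t) : 0 ≤ c.Fv x := by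
  rw [Fv_T hx]
  have h1 := G.vl_rr hx
  obtain ⟨i1, i2, i3⟩ := c.iv
  have t3 := c.t3
  have hd' : (c.dT x : ℚ) + 1 ≤ c.t := by exact_mod_cast hd
  have d0 : (0 : ℚ) ≤ c.dT x := Nat.cast_nonneg _
  have hp : (0 : ℚ) < c.t * (c.t - 1) := by nlinarith
  have k1 : (c.dT x : ℚ) / (c.t * (c.t - 1)) ≤ 1 / c.t := by
    rw [div_le_div_iff₀ hp (by linarith)]; nlinarith
  have k0 : 0 ≤ (c.dT x : ℚ) / (c.t * (c.t - 1)) := by positivity
  cases hs : c.s x
  · rw [hs] at h1
    simp only [rr, sgn, Bool.not_false, if_true, Bool.false_eq_true, if_false] at h1 ⊢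
    push_cast
    rw [neg_mul, one_mul, neg_div]
    nlinarith
  · rw [hs] at h1
    simp only [rr, sgn, Bool.not_true, if_true, Bool.false_eq_true, if_false] at h1 ⊢
    push_cast
    rw [one_mul]
    by_cases h2 : c.dT x + 1 = c.t
    · have e : (c.dT x : ℚ) = c.t - 1 := by
        have : (c.dT x : ℚ) + 1 = c.t := by exact_mod_cast h2
        linarith
      have e2 : (c.dT x : ℚ) / (c.t * (c.t - 1)) = 1 / c.t := by
        rw [e, div_eq_div_iff hp.ne' (by linarith)]; ring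
      rw [e2]; rw [e] at h1
      nlinarith
    · have : (c.dT x : ℚ) + 2 ≤ c.t := by exact_mod_cast (by omega : c.dT x + 2 ≤ c.t)
      nlinarith

lemma OG.Fv_sad (G : c.OG) {b : X} (hb : c.Sad b) : 0 ≤ c.Fv b := by
  have hd := G.degS hb.1
  have h1 := hb.2.2.1; have h2 := hb.2.2.2
  unfold Fv BO tau
  rw [if_neg hb.1, if_neg (by omega), if_neg fun h : c.T b => h.not_sad hb,
    pd_zero hb.low.not_pay]
  have : c.vl b = ∑ p ∈ c.Nc b, (c.w b p : ℚ) * (2 * c.t - AA c.t (c.s b)) := by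
    refine Finset.sum_congr rfl fun p hp => ?_
    rw [mem_Nc] at hp
    rcases G.cls hp with hT | hS | hP
    · exact (G.L1T hb hT hp).elim
    · exact (G.L1S hb hS hp).elim
    · rw [rt, if_pos hP, if_pos hb]
  rw [this, ← Finset.sum_mul, ← cr_cast, h1]
  push_cast
  linarith

lemma OG.Fv_sup (G : c.OG) (h7 : 7 ≤ c.t) {p : X} (hO : p ∉ c.O) : 0 ≤ c.Fv p := by
  have hd := G.degS hO
  have h1 := G.sm_le_cr p
  by_cases hS : c.Sad p
  · exact G.Fv_sad hS
  have hv := vl_nonneg (c := c) p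
  unfold Fv BO tau
  rw [if_neg hO, if_neg fun h : c.T p => hO h.1]
  by_cases h0 : c.mu p = 0
  · rw [if_pos h0, pd_zero fun h => by have := h.2.2 hO; omega]
    linarith
  rw [if_neg h0]
  have h2 : 2 ≤ c.cr p := by
    by_contra hn
    exact hS ⟨hO, G.nI p, by omega, by omega⟩
  have h3 : c.pd p ≤ c.cr p * (AA c.t (c.s p) - c.t) := by
    rw [cr_cast, Finset.sum_mul]
    refine Finset.sum_le_sum fun q hq => mul_le_mul_of_nonneg_left ?_ (Nat.cast_nonneg _)
    have hs := (mem_Nc.1 hq).side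
    have h7' : (7 : ℚ) ≤ c.t := by exact_mod_cast h7
    have := c.iv
    have := rr_le (c := c) (c.s p)
    unfold rt AA
    cases e1 : c.s p <;> cases e2 : c.s q <;> rw [e1, e2] at hs <;> rw [e1] at this <;>
      simp only [ne_eq, not_true_eq_false] at hs <;>
      simp only [Bool.false_eq_true, if_true, if_false] <;> split_ifs <;> linarith
  have h4 : (2 : ℚ) ≤ c.cr p := by exact_mod_cast h2
  have := c.t3
  nlinarith

lemma OG.pd_le (G : c.OG) {y : X} (hO : y ∈ c.O) :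
    c.pd y ≤ rr c.t (c.s y) * c.cr y + (2 * c.t - AA c.t (!(c.s y)) - rr c.t (c.s y)) * c.dS y
      + (2 - 1 / c.t - rr c.t (c.s y)) * c.dO y := by
  by_cases hp : c.Pay y
  swap
  · have := G.T_or_pay hO
    have hT := this.resolve_right hp
    have h1 : c.dS y = 0 := by have := G.L3 hO; have := hT.2.2.1; omega
    rw [pd_zero hp, h1]
    have := rr_nonneg (c := c) (c.s y); have := rr_le (c := c) (c.s y)
    have : (0 : ℚ) ≤ c.cr y := Nat.cast_nonneg _
    have : (0 : ℚ) ≤ c.dO y := Nat.cast_nonneg _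
    push_cast
    nlinarith
  unfold dS dO
  rw [cr_cast, card_filter, card_filter]
  push_cast
  simp only [Finset.mul_sum, ← Finset.sum_add_distrib]
  refine Finset.sum_le_sum fun q hq => ?_
  rw [mem_Nc] at hq
  have hs : (!(c.s y)) = c.s q := by
    have := hq.side
    revert this; cases c.s y <;> cases c.s q <;> simp
  have hOT : c.OT q → c.T q := fun ⟨K, hK, hq⟩ => G.compT hK.1 hq
  rw [hs, rt, if_pos hp]
  by_cases h1 : c.Sad q
  · rw [if_pos h1, if_pos h1, if_neg fun h => (hOT h).not_sad h1, OG.sad_w h1 hq]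
    push_cast; linarith
  rw [if_neg h1, if_neg h1]
  by_cases h2 : c.T q
  · rw [if_pos h2, w_one hO h2.1 hq.pos]
    split_ifs <;> push_cast <;> linarith
  · rw [if_neg h2, if_neg fun h => h2 (hOT h)]
    have := mul_nonneg (rr_nonneg (c := c) (c.s y)) (Nat.cast_nonneg (α := ℚ) (c.w y q))
    linarith

lemma OG.dSO (G : c.OG) (y : X) : c.dS y + c.dO y ≤ c.cr y := by
  unfold dS dO
  rw [← card_union_of_disjoint (Finset.disjoint_left.2 fun q h1 h2 => by
    obtain ⟨K, hK, hq⟩ := (mem_filter.1 h2).2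
    exact (G.compT hK.1 hq).not_sad (mem_filter.1 h1).2)]
  exact card_le_cr (union_subset (filter_subset _ _) (filter_subset _ _))

lemma OG.Fv_loose (G : c.OG) (h7 : 7 ≤ c.t) {y : X} (hO : y ∈ c.O) (hy : ¬ c.T y) :
    0 ≤ c.Fv y := by
  have hp := (G.T_or_pay hO).resolve_left hy
  have h1 := hp.2.1 hO
  have h2 := G.pd_le hO
  have h3 := G.dSO y
  have h4 := G.L3 hO
  have h5 : 1 ≤ c.dO y → c.dS y + c.t + 1 ≤ c.cr y := fun h => by
    obtain ⟨q, hq⟩ := card_pos.1 (show 0 < ((c.Nc y).filter c.OT).card from h)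
    rw [mem_filter, mem_Nc] at hq
    exact G.L4 hO h1 hq.2 hq.1
  have h6 := G.L5 hO
  have hv := vl_nonneg (c := c) y
  obtain ⟨i1, i2, i3⟩ := c.iv
  have h7' : (7 : ℚ) ≤ c.t := by exact_mod_cast h7
  have i4 : 1 / (c.t : ℚ) ≤ 1 / 7 := one_div_le_one_div_of_le (by norm_num) h7'
  unfold Fv BO tau
  rw [if_pos hO, if_neg hy]
  have o0 : (0 : ℚ) ≤ c.dO y := Nat.cast_nonneg _
  have s0 : (0 : ℚ) ≤ c.dS y := Nat.cast_nonneg _
  cases hs : c.s y
  · rw [hs] at h2
    simp only [rr, AA, Bool.not_false, if_true, Bool.false_eq_true, if_false] at h2 ⊢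
    obtain ⟨e, he⟩ : ∃ e, c.cr y = c.t + c.dS y + e := ⟨c.cr y - c.t - c.dS y, by omega⟩
    have he' : (c.cr y : ℚ) = c.t + c.dS y + e := by exact_mod_cast he
    have key : (c.t : ℚ) + c.dO y ≤ e * (3 * (c.t - 1) / 2 - 1 + 1 / c.t) + c.t * c.dS y := by
      have o1 : (c.dO y : ℚ) ≤ c.t + e := by exact_mod_cast (by omega : c.dO y ≤ c.t + e)
      have e0 : (0 : ℚ) ≤ e := Nat.cast_nonneg _
      by_cases a1 : 2 ≤ e
      · have : (2 : ℚ) ≤ e := by exact_mod_cast a1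
        nlinarith
      by_cases a2 : e = 0
      · have b1 : c.dO y = 0 := by omega
        have b2 : (1 : ℚ) ≤ c.dS y := by exact_mod_cast (by omega : 1 ≤ c.dS y)
        rw [a2, b1]; push_cast; nlinarith
      have a3 : e = 1 := by omega
      rw [a3] at o1 ⊢
      push_cast at o1 ⊢
      by_cases a4 : c.dS y = 0
      · have b1 : (c.dO y : ℚ) ≤ 1 := by exact_mod_cast h6 (by omega)
        nlinarith
      · have b2 : (1 : ℚ) ≤ c.dS y := by exact_mod_cast (by omega : 1 ≤ c.dS y)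
        nlinarith
    rw [he'] at h2 ⊢
    nlinarith
  · rw [hs] at h2
    simp only [rr, AA, Bool.not_true, if_true, Bool.false_eq_true, if_false] at h2 ⊢
    have b0 : c.dS y = 0 := by
      unfold dS
      rw [card_eq_zero, filter_eq_empty_iff]
      intro b hb hS
      rw [mem_Nc] at hb
      exact hb.side (hs.trans (G.sadX b y hS hb.symm hO).symm)
    rw [b0] at h2 h3
    push_cast at h2
    by_cases a1 : c.cr y = c.t + 1
    · have b1 : (c.dO y : ℚ) ≤ 1 := by exact_mod_cast h6 a1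
      rw [a1] at h2 ⊢
      push_cast at h2 ⊢
      nlinarith
    · have b1 : (c.dO y : ℚ) ≤ c.cr y := by exact_mod_cast (by omega : c.dO y ≤ c.cr y)
      have b2 : (c.t : ℚ) + 2 ≤ c.cr y := by exact_mod_cast (by omega : c.t + 2 ≤ c.cr y)
      nlinarith

end St

end

end Pool.Agent.Lib.MP_bb98d0_co
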