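import Pool.Agent.Lib.MP_bb98d0_co.K2

/-!
Odd degree: groups of tight atoms.
-/

namespace Pool.Agent.Lib.MP_bb98d0_co
open Finset Classical

noncomputable section

variable {X : Type*} [Fintype X]

omit [Fintype X] in
lemma count_le {S : Finset X} {f : X → ℕ} {m : ℕ} (h : ∀ x ∈ S, f x ≤ m) :
    ∑ x ∈ S, f x + S.card ≤ S.card * m + (S.filter fun x => f x = m).card := by
  rw [card_filter, ← smul_eq_mul, ← Finset.sum_const, Finset.card_eq_sum_ones,
    ← Finset.sum_add_distrib, ← Finset.sum_add_distrib]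
  refine Finset.sum_le_sum fun x hx => ?_
  have := h x hx
  split_ifs <;> omega

namespace St

def Dp (c : St X) (u : X) : Prop := c.T u ∧ ∀ y, c.C u y → c.T y
def GG (c : St X) (u : X) : Finset X := c.Nc u ∪ c.RK (c.Nc u)

variable {c : St X} {u : X}

lemma OG.comp_of (G : c.OG) {q : X} {L : Finset X} (hq : c.T q) (hL : L.card = c.t)
    (h : ∀ x ∈ L, c.T x ∧ c.C q x) : c.Comp L :=
  ⟨hL, fun x hx => ⟨(h x hx).1.1, G.nI x, (h x hx).1.2.2.2, fun y hy hne =>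
    G.L2 hq (h x hx).1 (h y hy).1 (h x hx).2 (h y hy).2 hne⟩⟩

lemma Dp.comp (G : c.OG) (hu : c.Dp u) : c.Comp (c.Nc u) :=
  G.comp_of hu.1 (by rw [card_Nc_ord hu.1.1 fun x hx => (hu.2 x (mem_Nc.1 hx)).1, hu.1.2.2.1])
    fun x hx => ⟨hu.2 x (mem_Nc.1 hx), mem_Nc.1 hx⟩

lemma Dp.ex (G : c.OG) (hu : c.Dp u) : ∃ q, q ∈ c.Nc u :=
  card_pos.1 (by have := (hu.comp G).1; have := c.ht; omega)

lemma Dp.self (G : c.OG) (hu : c.Dp u) : u ∈ c.RK (c.Nc u) := by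
  obtain ⟨q, hq⟩ := hu.ex G
  exact mem_RK.2 ⟨hu.1, q, hq, (mem_Nc.1 hq).symm⟩

lemma Dp.sub (G : c.OG) (hu : c.Dp u) : c.RK (c.Nc u) ⊆ insert u (c.Ns u) := by
  intro z hz
  obtain ⟨hT, q, hq, hc⟩ := mem_RK.1 hz
  rw [mem_Nc] at hq
  by_cases e : u = z
  · rw [e]; exact mem_insert_self _ _
  · exact mem_insert_of_mem (mem_Ns.2 (G.L2 (hu.2 q hq) hu.1 hT hq.symm hc e))

lemma T.ins_le (hu : c.T u) : (insert u (c.Ns u)).card ≤ c.t := by
  have := card_insert_le u (c.Ns u)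
  have := card_le_sm (c := c) (x := u) (Finset.Subset.refl _)
  have := hu.2.2.2
  omega

lemma Dp.R_le (G : c.OG) (hu : c.Dp u) : (c.RK (c.Nc u)).card ≤ c.t :=
  (card_le_card (hu.sub G)).trans hu.1.ins_le

lemma OG.TR (G : c.OG) {K : Finset X} (hK : c.Comp K) {z : X} (hz : z ∈ c.RK K) :
    (c.Nc z).filter c.T = K.filter fun q => c.C z q := by
  obtain ⟨hT, q, hq, hc⟩ := mem_RK.1 hz
  ext y
  simp only [mem_filter, mem_Nc]
  refine ⟨fun h => ⟨?_, h.1⟩, fun h => ⟨h.2, G.compT hK h.1⟩⟩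
  by_cases e : q = y
  · exact e ▸ hq
  · exact hK.mem_of_S hq (G.L2 hT (G.compT hK hq) h.2 hc.symm h.1 e)

lemma TK {K : Finset X} {q : X} (hq : q ∈ K) :
    (c.Nc q).filter c.T = (c.RK K).filter fun z => c.C q z := by
  ext y
  simp only [mem_filter, mem_Nc]
  exact ⟨fun h => ⟨mem_RK.2 ⟨h.2, q, hq, h.1⟩, h.1⟩, fun h => ⟨h.2, OK.T h.1⟩⟩

lemma OG.sum_dT (G : c.OG) {K : Finset X} (hK : c.Comp K) :
    ∑ q ∈ K, c.dT q = ∑ z ∈ c.RK K, c.dT z := by
  unfold dT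
  rw [Finset.sum_congr rfl fun q hq => by rw [TK hq],
    Finset.sum_congr rfl (s₁ := c.RK K) fun z hz => by rw [G.TR hK hz]]
  simp only [card_filter]
  rw [Finset.sum_comm]
  refine Finset.sum_congr rfl fun z _ => Finset.sum_congr rfl fun q _ => ?_
  exact if_congr ⟨C.symm, C.symm⟩ rfl rfl

lemma dT_K {K : Finset X} {q : X} (hq : q ∈ K) : c.dT q ≤ (c.RK K).card := by
  unfold dT; rw [TK hq]; exact card_filter_le _ _

lemma full_K {K : Finset X} {q : X} (hq : q ∈ K) (h : c.dT q = (c.RK K).card) :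
    ∀ z ∈ c.RK K, c.C q z := by
  unfold dT at h
  rw [TK hq] at h
  exact Finset.card_filter_eq_iff.1 h

lemma dT_R {K : Finset X} {z : X} (hz : z ∈ c.RK K) : c.dT z ≤ c.t := by
  have := dT_le (c := c) z; have := (OK.T hz).2.2.1; omega

lemma OG.full_R (G : c.OG) {K : Finset X} (hK : c.Comp K) {z : X} (hz : z ∈ c.RK K) :
    c.dT z = c.t ↔ c.Nc z = K := by
  unfold dT
  constructor
  · intro h
    rw [G.TR hK hz, ← hK.1] at h
    exact St.Nc_eq (fun q hq => mem_Nc.2 (Finset.card_filter_eq_iff.1 h q hq))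
      (by rw [hK.1, (OK.T hz).2.2.1])
  · intro h
    rw [h, Finset.filter_true_of_mem fun q hq => G.compT hK hq, hK.1]

lemma OG.g1 (G : c.OG) {K : Finset X} (hK : c.Comp K) (hr : (c.RK K).card + 1 = c.t)
    (hE : ∑ q ∈ K, c.dT q < c.t * (c.RK K).card) :
    c.t + 2 * ∑ q ∈ K, c.dT q ≤ 2 * (c.t * (c.RK K).card) := by
  by_contra hn
  have ht := c.ht
  have a1 := count_le (S := K) (f := c.dT) (m := (c.RK K).card) fun q hq => dT_K hq
  have a2 := count_le (S := c.RK K) (f := c.dT) (m := c.t) fun z hz => dT_R hz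
  rw [hK.1] at a1
  rw [← G.sum_dT hK, mul_comm] at a2
  obtain ⟨z0, hz0, hd0⟩ : ∃ z0 ∈ c.RK K, c.dT z0 ≠ c.t := by
    by_contra h
    push Not at h
    rw [G.sum_dT hK, Finset.sum_congr rfl h, Finset.sum_const, smul_eq_mul, mul_comm] at hE
    exact lt_irrefl _ hE
  have hT0 := OK.T hz0
  set W := K.filter fun q => c.dT q = (c.RK K).card with hW
  set U := (c.RK K).filter fun z => c.dT z = c.t with hU
  have hfull : ∀ w ∈ W, ∀ z ∈ c.RK K, c.C w z := fun w hw =>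
    full_K (mem_filter.1 hw).1 (mem_filter.1 hw).2
  have hnew : ∀ w ∈ W, c.New w z0 := fun w hw => by
    obtain ⟨q2, hq2, hne⟩ := exists_mem_ne (s := W) (by omega) w
    exact (G.bigy hK (mem_filter.1 hw).1 hT0 (hfull w hw z0 hz0) (mem_filter.1 hq2).1 hne
      (hfull q2 hq2 z0 hz0).symm fun e => hd0 ((G.full_R hK hz0).2 e)).1
  have hO : ∀ w ∈ W, c.Nc w ⊆ c.O := fun w hw x hx => by
    by_cases e : x = z0
    · rw [e]; exact hT0.1
    · exact (hnew w hw x (mem_Nc.1 hx) e).1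
  have hN : ∀ w ∈ W, ∀ v ∈ U, c.Nc w = insert v (c.Ns v) := by
    intro w hw v hv
    have hv' := mem_filter.1 hv
    have hwT := G.compT hK (mem_filter.1 hw).1
    have hne : v ≠ z0 := fun e => hd0 (e ▸ hv'.2)
    have cv := hfull w hw v hv'.1
    refine eq_of_subset_of_card_le (fun x hx => ?_) ?_
    · rw [mem_Nc] at hx
      by_cases e : v = x
      · rw [e]; exact mem_insert_self _ _
      refine mem_insert_of_mem (mem_Ns.2 ?_)
      by_cases e2 : x = z0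
      · rw [e2]; exact G.L2 hwT (OK.T hv'.1) hT0 cv (hfull w hw z0 hz0) hne
      · exact cv.toS hx ((hnew w hw v cv hne).2.2 x hx e2 e)
    · rw [card_Nc_ord hwT.1 (hO w hw), hwT.2.2.1]; exact (OK.T hv'.1).ins_le
  obtain ⟨w0, hw0⟩ := card_pos.1 (show 0 < W.card by omega)
  obtain ⟨v0, hv0⟩ := card_pos.1 (show 0 < U.card by omega)
  have := G.TW (K := K) (L := c.Nc w0) (A := W) (B := U) (z0 := w0)
    (fun z hz => ⟨(hK.eq_insert (mem_filter.1 hz).1).symm, by rw [hN z hz v0 hv0, hN w0 hw0 v0 hv0]⟩)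
    (fun z hz => ⟨(hN w0 hw0 z hz).symm, (G.full_R hK (mem_filter.1 hz).1).1 (mem_filter.1 hz).2⟩)
    (fun x hx => (hK.2 x hx).1) (hO w0 hw0) hw0
  omega

lemma OG.g0 (G : c.OG) {K : Finset X} (hK : c.Comp K) (hr : (c.RK K).card = c.t) :
    c.t + ∑ q ∈ K, c.dT q ≤ c.t * (c.RK K).card := by
  by_contra hn
  have ht := c.ht
  have a1 := count_le (S := K) (f := c.dT) (m := (c.RK K).card) fun q hq => dT_K hq
  rw [hK.1] at a1
  set W := K.filter fun q => c.dT q = (c.RK K).card with hW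
  set U := (c.RK K).filter fun z => c.dT z = c.t with hU
  have hfull : ∀ w ∈ W, ∀ z ∈ c.RK K, c.C w z := fun w hw =>
    full_K (mem_filter.1 hw).1 (mem_filter.1 hw).2
  obtain ⟨w0, hw0⟩ := card_pos.1 (show 0 < W.card by omega)
  have hR : c.Comp (c.RK K) := G.comp_of (G.compT hK (mem_filter.1 hw0).1) hr
    fun x hx => ⟨OK.T hx, hfull w0 hw0 x hx⟩
  have a2 := G.TW (K := K) (L := c.RK K) (A := W) (B := U) (z0 := w0)
    (fun z hz => ⟨(hK.eq_insert (mem_filter.1 hz).1).symm,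
      St.Nc_eq (fun y hy => mem_Nc.2 (hfull z hz y hy))
        (by rw [hr, (G.compT hK (mem_filter.1 hz).1).2.2.1])⟩)
    (fun z hz => ⟨(hR.eq_insert (mem_filter.1 hz).1).symm,
      (G.full_R hK (mem_filter.1 hz).1).1 (mem_filter.1 hz).2⟩)
    (fun x hx => (hK.2 x hx).1) (fun x hx => (OK.T hx).1) hw0
  have a3 : ∀ z ∈ c.RK K, c.dT z ≠ c.t → c.dT z ≤ 1 := by
    intro z hz hd
    unfold dT
    rw [G.TR hK hz, card_le_one]
    intro q hq q2 hq2
    by_contra hne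
    rw [mem_filter] at hq hq2
    exact (G.bigy hK hq.1 (OK.T hz) hq.2.symm hq2.1 (Ne.symm hne) hq2.2
      fun e => hd ((G.full_R hK hz).2 e)).2 _ hR hz
  have a4 : ∑ z ∈ c.RK K, c.dT z ≤ U.card * (c.t - 1) + (c.RK K).card := by
    rw [hU, card_filter, Finset.sum_mul, Finset.card_eq_sum_ones, ← Finset.sum_add_distrib]
    refine Finset.sum_le_sum fun z hz => ?_
    have := a3 z hz
    split_ifs <;> omega
  rw [← G.sum_dT hK] at a4
  rw [hr] at a4 hn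
  obtain ⟨d, hd⟩ : ∃ d, c.t = d + 3 := ⟨c.t - 3, by omega⟩
  have a6 := card_pos.2 ⟨w0, hw0⟩
  have a5 : U.card * (c.t - 1) ≤ (c.t - 2) * (c.t - 1) := Nat.mul_le_mul_right _ (by omega)
  rw [hd] at a4 a5 hn
  have e1 : d + 3 - 1 = d + 2 := by omega
  have e2 : d + 3 - 2 = d + 1 := by omega
  rw [e1] at a4 a5
  rw [e2] at a5
  nlinarith

lemma sum_Fv_T {A : Finset X} {β : Bool} {ρ : ℚ} (hT : ∀ x ∈ A, c.T x) (hs : ∀ x ∈ A, c.s x = β)
    (hv : ∀ x ∈ A, ρ * (c.t - c.dT x) ≤ c.vl x) :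
    -(A.card : ℚ) + ρ * (c.t * A.card - (∑ x ∈ A, c.dT x : ℕ))
      + (sgn β : ℚ) * (∑ x ∈ A, c.dT x : ℕ) / (c.t * (c.t - 1)) ≤ ∑ x ∈ A, c.Fv x := by
  have : -(A.card : ℚ) + ρ * (c.t * A.card - (∑ x ∈ A, c.dT x : ℕ))
      + (sgn β : ℚ) * (∑ x ∈ A, c.dT x : ℕ) / (c.t * (c.t - 1))
      = ∑ x ∈ A, (-1 + ρ * (c.t - c.dT x) + (sgn β : ℚ) * c.dT x / (c.t * (c.t - 1))) := by
    simp only [Finset.sum_add_distrib, ← Finset.mul_sum, ← Finset.sum_div, Finset.sum_sub_distrib,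
      Finset.sum_const, nsmul_eq_mul]
    push_cast
    ring
  rw [this]
  refine Finset.sum_le_sum fun x hx => ?_
  rw [Fv_T (hT x hx), hs x hx]
  have := hv x hx
  linarith

lemma Dp.group (G : c.OG) (hu : c.Dp u) : 0 ≤ ∑ x ∈ c.GG u, c.Fv x := by
  have hK := hu.comp G
  have sK : ∀ q ∈ c.Nc u, c.s q = !(c.s u) := fun q hq => by
    have := (mem_Nc.1 hq).side
    revert this; cases c.s u <;> cases c.s q <;> simp
  have sR : ∀ z ∈ c.RK (c.Nc u), c.s z = c.s u := fun z hz => by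
    obtain ⟨-, q, hq, hc⟩ := mem_RK.1 hz
    exact hc.same (mem_Nc.1 hq).symm
  unfold GG
  rw [Finset.sum_union (Finset.disjoint_left.2 fun x h1 h2 => by
    have := (sK x h1).symm.trans (sR x h2)
    revert this; cases c.s u <;> simp)]
  have b1 := sum_Fv_T (ρ := rr c.t (!(c.s u))) (fun x hx => OK.T hx) sR fun x hx => by
    rw [← sR x hx]; exact G.vl_rr (OK.T hx)
  rw [← G.sum_dT hK] at b1
  have hr := hu.R_le G
  have hE : ∑ q ∈ c.Nc u, c.dT q ≤ c.t * (c.RK (c.Nc u)).card := by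
    rw [← hK.1, ← smul_eq_mul, ← Finset.sum_const]
    exact Finset.sum_le_sum fun q hq => dT_K hq
  obtain ⟨i1, i2, i3⟩ := c.iv
  have t3 := c.t3
  by_cases hO : (c.RK (c.Nc u)).card + 1 = c.t ∧
      ∑ q ∈ c.Nc u, c.dT q = c.t * (c.RK (c.Nc u)).card
  · have a1 := count_le (S := c.Nc u) (f := c.dT) (m := (c.RK (c.Nc u)).card) fun q hq => dT_K hq
    have a2 : ∀ q ∈ c.Nc u, c.dT q = (c.RK (c.Nc u)).card :=
      Finset.card_filter_eq_iff.1 (le_antisymm (card_filter_le _ _) (by rw [hK.1] at a1 ⊢; omega))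
    have hOK : c.OK (c.Nc u) := ⟨hK, hO.1, fun q hq => full_K hq (a2 q hq)⟩
    have b2 := sum_Fv_T (ρ := 2 - 1 / c.t) (fun x hx => G.compT hK hx) sK fun x hx =>
      G.vl_ge (G.compT hK hx) fun p _ hp => (rt_OT hp (G.compT hK hx) ⟨_, hOK, hx⟩).ge
    rw [hK.1, sgn_not] at b2
    rw [hO.2] at b1 b2
    have e : ((c.RK (c.Nc u)).card : ℚ) = c.t - 1 := by
      have : ((c.RK (c.Nc u)).card : ℚ) + 1 = c.t := by exact_mod_cast hO.1
      linarith
    push_cast at b1 b2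
    rw [e] at b1 b2
    rw [neg_mul, neg_div] at b2
    nlinarith
  have b2 := sum_Fv_T (ρ := rr c.t (c.s u)) (fun x hx => G.compT hK hx) sK fun x hx => by
    have := G.vl_rr (G.compT hK hx)
    rwa [sK x hx, Bool.not_not] at this
  rw [hK.1, sgn_not] at b2
  have key : 2 * c.t + 2 * ∑ q ∈ c.Nc u, c.dT q ≤ c.t * c.t + c.t * (c.RK (c.Nc u)).card := by
    by_cases h0 : (c.RK (c.Nc u)).card = c.t
    · have := G.g0 hK h0
      rw [h0] at this ⊢
      omega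
    by_cases h1 : (c.RK (c.Nc u)).card + 1 = c.t
    · have := G.g1 hK h1 (lt_of_le_of_ne hE fun e => hO ⟨h1, e⟩)
      have e : c.t * c.t = c.t * (c.RK (c.Nc u)).card + c.t := by
        nth_rewrite 2 [← h1]; ring
      omega
    · have : c.t * ((c.RK (c.Nc u)).card + 2) ≤ c.t * c.t := Nat.mul_le_mul_left _ (by omega)
      rw [mul_add] at this
      omega
  have k1 : 2 * (c.t : ℚ) + 2 * (∑ q ∈ c.Nc u, c.dT q : ℕ)
      ≤ c.t * c.t + c.t * (c.RK (c.Nc u)).card := by exact_mod_cast key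
  have k2 : ((c.RK (c.Nc u)).card : ℚ) ≤ c.t := by exact_mod_cast hr
  generalize ((∑ q ∈ c.Nc u, c.dT q : ℕ) : ℚ) = E at *
  generalize ((c.RK (c.Nc u)).card : ℚ) = r at *
  push_cast at b2
  rw [neg_mul, neg_div] at b2
  have j1 : 1 / (c.t : ℚ) * (c.t * c.t) = c.t := by field_simp
  have j2 : 1 / (c.t : ℚ) * (c.t * r) = r := by field_simp
  cases hs : c.s u <;> rw [hs] at b1 b2 <;>
    simp only [rr, Bool.not_false, Bool.not_true, if_true, Bool.false_eq_true, if_false] at b1 b2 <;>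
    nlinarith

lemma Dp.cross (G : c.OG) {v x : X} (hu : c.Dp u) (hv : c.Dp v) (h1 : x ∈ c.Nc u)
    (h2 : x ∈ c.RK (c.Nc v)) : c.Nc v = c.RK (c.Nc u) := by
  have h3 : v ∈ c.Nc u := by
    rcases mem_insert.1 (hv.sub G h2) with e | e
    · exact e ▸ h1
    · exact (hu.comp G).mem_of_S h1 (mem_Ns.1 e).symm
  refine eq_of_subset_of_card_le (fun y hy => ?_) (by rw [(hv.comp G).1]; exact hu.R_le G)
  exact mem_RK.2 ⟨hv.2 y (mem_Nc.1 hy), v, h3, mem_Nc.1 hy⟩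

lemma Dp.cross_eq (G : c.OG) {v x : X} (hu : c.Dp u) (hv : c.Dp v) (h1 : x ∈ c.Nc u)
    (h2 : x ∈ c.RK (c.Nc v)) : c.GG u = c.GG v := by
  have e1 := hu.cross G hv h1 h2
  obtain ⟨y, hy⟩ := hv.ex G
  have e2 := hv.cross G hu hy (e1 ▸ hy)
  unfold GG
  rw [← e1, ← e2, union_comm]

lemma Dp.GG_eq (G : c.OG) {v x : X} (hu : c.Dp u) (hv : c.Dp v) (h1 : x ∈ c.GG u)
    (h2 : x ∈ c.GG v) : c.GG u = c.GG v := by
  rcases mem_union.1 h1 with h1 | h1 <;> rcases mem_union.1 h2 with h2 | h2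
  · unfold GG; rw [(hu.comp G).unique (hv.comp G) h1 h2]
  · exact hu.cross_eq G hv h1 h2
  · exact (hv.cross_eq G hu h2 h1).symm
  · obtain ⟨-, q, hq, hc⟩ := mem_RK.1 h2
    have : q ∈ (c.Nc x).filter c.T := mem_filter.2 ⟨mem_Nc.2 hc.symm, hv.2 q (mem_Nc.1 hq)⟩
    rw [G.TR (hu.comp G) h1] at this
    unfold GG; rw [(hu.comp G).unique (hv.comp G) (mem_filter.1 this).1 hq]

theorem OG.sum_BO (G : c.OG) (h7 : 7 ≤ c.t) : 0 ≤ ∑ x, c.BO x := by
  rw [← sum_Fv, ← Finset.sum_add_sum_compl (((univ.filter c.Dp).image c.GG).biUnion id)]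
  refine add_nonneg ?_ (Finset.sum_nonneg fun x hx => ?_)
  · rw [Finset.sum_biUnion]
    · refine Finset.sum_nonneg fun Γ hΓ => ?_
      obtain ⟨v, hv, rfl⟩ := mem_image.1 hΓ
      exact (mem_filter.1 hv).2.group G
    · intro A hA B hB hne
      obtain ⟨v, hv, rfl⟩ := mem_image.1 (mem_coe.1 hA)
      obtain ⟨w, hw, rfl⟩ := mem_image.1 (mem_coe.1 hB)
      exact Finset.disjoint_left.2 fun x h1 h2 =>
        hne ((mem_filter.1 hv).2.GG_eq G (mem_filter.1 hw).2 h1 h2)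
  · by_cases hO : x ∈ c.O
    swap
    · exact G.Fv_sup h7 hO
    by_cases hT : c.T x
    swap
    · exact G.Fv_loose h7 hO hT
    refine G.Fv_tight hT ?_
    by_contra hn
    have h1 := card_le_cr (c := c) (x := x) (Finset.Subset.refl _)
    have h2 : ((c.Nc x).filter c.T).card = (c.Nc x).card := by
      have := hT.2.2.1
      have := card_filter_le (c.Nc x) c.T
      unfold dT at hn
      omega
    have hD : c.Dp x := ⟨hT, fun y hy => Finset.card_filter_eq_iff.1 h2 y (mem_Nc.2 hy)⟩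
    exact mem_compl.1 hx (mem_biUnion.2 ⟨c.GG x, mem_image.2 ⟨x, by simp [hD], rfl⟩,
      mem_union_right _ (hD.self G)⟩)

end St

end

end Pool.Agent.Lib.MP_bb98d0_co
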