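import Pool.Agent.Lib.MP_bb98d0_co.K4
import Pool.Agent.Lib.MP_bb98d0_co.J7

/-!
The judicious bipartition constant for odd degree.
-/

namespace Pool.Agent.Lib.MP_bb98d0_co.J
open Finset

/-- the penalised cut bound for networks without large twin classes -/
def Core (t : ℕ) : Prop := ∀ (n : ℕ) (N : Net (Fin n)), N.e = 1 → N.t = t → N.TwinB →
  ∃ s, ∑ x, N.cost x + 2 * (|bal N.O s| : ℤ) ≤ (Dv N.w s : ℚ)

lemma core7 {t : ℕ} (h : 7 ≤ t) : Core t := fun _ N he ht hN => N.core7 he (ht ▸ h) hN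

variable {n : ℕ} {G : SimpleGraph (Fin n)} [DecidableRel G.Adj]

theorem lowerO {k t : ℕ} (ht : 3 ≤ t) (hk : k + 1 = 2 * t) (core : Core t)
    (hreg : G.IsRegularOfDegree k) (hK : G.CliqueFree (k + 1)) :
    ∃ s, (n : ℤ) * (3 * t + 4) + 6 * t * |bal univ s| ≤ 3 * t * Dv (aw G) s := by
  let N : Net (Fin n) :=
    { t := t
      e := 1
      w := aw G
      O := univ
      mu := fun _ => 0
      ht := ht
      he := le_rfl
      symm := aw_symm G
      diag := fun x => by simp [aw]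
      simple := fun x _ y _ => by unfold aw; split_ifs <;> simp
      degO := fun x _ => by rw [aw_deg, hreg.degree_eq x]; omega
      degS := fun x hx => absurd (mem_univ x) hx }
  have hN : N.NoK := by
    intro v _ _
    by_contra hn
    push Not at hn
    refine hK (insert v (G.neighborFinset v)) ⟨fun x hx y hy hne => ?_, ?_⟩
    · have h1 : ∀ z, z ∈ (insert v (G.neighborFinset v) : Finset (Fin n)) → z = v ∨ 0 < N.w v z :=
        fun z hz => by
          rcases mem_insert.1 hz with h | h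
          · exact Or.inl h
          · exact Or.inr ((aw_pos G).2 (by simpa using h))
      exact (aw_pos G).1 (Nat.pos_of_ne_zero (hn x y hne (h1 x hx) (h1 y hy)))
    · rw [card_insert_of_notMem (by simp), SimpleGraph.card_neighborFinset_eq_degree,
        hreg.degree_eq v]
  obtain ⟨s, hs⟩ := N.mainO t (core n) rfl rfl hN
  refine ⟨s, ?_⟩
  have ht' : (3 : ℚ) ≤ t := by exact_mod_cast ht
  have e1 : ∑ x, N.cost x = n * ((3 * t + 4) / (3 * t : ℚ)) := by
    have : (2 * (t : ℚ) + 8 / 3) / (2 * t) = (3 * t + 4) / (3 * t) := by field_simp; ring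
    simp [Net.cost, N, this]
  rw [e1] at hs
  have h2 := mul_le_mul_of_nonneg_left hs (by positivity : (0 : ℚ) ≤ 3 * t)
  have e2 : 3 * (t : ℚ) * (n * ((3 * t + 4) / (3 * t : ℚ))) = n * (3 * t + 4) := by field_simp
  rw [mul_add, e2] at h2
  have h3 : (n : ℚ) * (3 * t + 4) + 6 * t * (|bal univ s| : ℤ) ≤ 3 * t * (Dv (aw G) s : ℤ) := by
    linarith
  exact_mod_cast h3

theorem upper_odd {k t : ℕ} (ht : 3 ≤ t) (hk : k + 1 = 2 * t) (core : Core t)
    (hreg : G.IsRegularOfDegree k) (hK : G.CliqueFree (k + 1)) :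
    ∃ A : Finset (Fin n), E2 G Aᶜ = E2 G A ∧ 6 * t * E2 G A ≤ (3 * t * (t - 1) - 2) * n := by
  have reg : Reg G (k : ℤ) := reg_of hreg
  have ht' : (3 : ℤ) ≤ t := by exact_mod_cast ht
  have hk' : (k : ℤ) = 2 * t - 1 := by omega
  obtain ⟨h, hn⟩ : ∃ h, n = 2 * h := by
    have h1 := G.sum_degrees_eq_twice_card_edges
    simp only [hreg.degree_eq, sum_const, card_univ, Fintype.card_fin, smul_eq_mul] at h1
    have h2 : Even (n * k) := ⟨_, h1.trans (two_mul _)⟩
    rcases Nat.even_mul.1 h2 with ⟨h, e⟩ | ⟨h, e⟩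
    · exact ⟨h, by omega⟩
    · omega
  obtain ⟨A, hA⟩ := exists_opt (G := G) (h := h) (by rw [Fintype.card_fin]; omega)
  have cc : ∀ X : Finset (Fin n), X.card + Xᶜ.card = 2 * h := fun X => by
    rw [card_add_card_compl, Fintype.card_fin, hn]
  have cB : Aᶜ.card = h := by have := cc A; have := hA.1; omega
  refine ⟨A, by rw [reg.E2_compl, cB, hA.1]; simp, ?_⟩
  obtain ⟨s, hs⟩ := lowerO ht hk core hreg hK
  have key : ∀ X : Finset (Fin n), h ≤ X.card →
      (n : ℤ) * (3 * t + 4) + 6 * t * (X.card - Xᶜ.card) ≤ 3 * t * (k * n - 2 * E2 G X - 2 * E2 G Xᶜ) →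
      6 * t * E2 G A ≤ (3 * t * (t - 1) - 2) * n := by
    intro X h1 h2
    obtain ⟨d, hd⟩ : ∃ d, X.card = h + d := ⟨X.card - h, by omega⟩
    have h3 : (Xᶜ.card : ℤ) = h - d := by have := cc X; omega
    have hn' : (n : ℤ) = 2 * h := by omega
    have h0 : (0 : ℤ) ≤ h := Int.natCast_nonneg _
    rcases rebal hA (t - 1) d X hd with h4 | h4
    · rw [reg.E2_compl, h3, hd, hk'] at h2
      push_cast at h2
      nlinarith [mul_le_mul_of_nonneg_left h4 (by omega : (0 : ℤ) ≤ t)]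
    · rw [hn']
      nlinarith [mul_le_mul_of_nonneg_left h4 (by omega : (0 : ℤ) ≤ t),
        mul_nonneg h0 (by omega : (0 : ℤ) ≤ t - 3)]
  set X := univ.filter fun x => s x = true with hX
  have e1 : s = fun x => decide (x ∈ X) := by
    funext x; cases hx : s x <;> simp [hX, hx]
  have e2 : bal univ s = X.card - Xᶜ.card := by
    unfold bal
    rw [← sum_add_sum_compl X, sum_congr rfl (g := fun _ => (1 : ℤ)) fun x hx => by
      simp [sgn, (mem_filter.1 hx).2], sum_congr (s₁ := Xᶜ) rfl (g := fun _ => (-1 : ℤ))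
      fun x hx => by
        have : s x = false := by simpa [hX] using hx
        simp [sgn, this]]
    simp [sub_eq_add_neg]
  have e3 : Dv (aw G) s = k * n - 2 * E2 G X - 2 * E2 G Xᶜ := by
    rw [e1, Dv_eq reg, Fintype.card_fin]
  rw [e2, e3] at hs
  have t0 : (0 : ℤ) ≤ 6 * t := by omega
  by_cases hc : h ≤ X.card
  · refine key X hc ?_
    linarith [mul_le_mul_of_nonneg_left (le_abs_self ((X.card : ℤ) - Xᶜ.card)) t0]
  · refine key Xᶜ (by have := cc X; omega) ?_
    rw [compl_compl]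
    linarith [mul_le_mul_of_nonneg_left (neg_le_abs ((X.card : ℤ) - Xᶜ.card)) t0]

theorem finalO {k t : ℕ} (ht : 3 ≤ t) (hk : k + 1 = 2 * t) (core : Core t)
    (J : ∀ (n : ℕ) (G : SimpleGraph (Fin n)) [DecidableRel G.Adj], ℕ)
    (J1 : ∀ (n : ℕ) (G : SimpleGraph (Fin n)) [DecidableRel G.Adj] (S : Finset (Fin n)),
      2 * (J n G : ℤ) ≤ max (E2 G S) (E2 G Sᶜ))
    (J2 : ∀ (n : ℕ) (G : SimpleGraph (Fin n)) [DecidableRel G.Adj], ∃ S : Finset (Fin n),
      2 * (J n G : ℤ) = max (E2 G S) (E2 G Sᶜ)) :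
    IsGreatest {x : ℝ | ∃ (n : ℕ) (G : SimpleGraph (Fin n)) (_ : DecidableRel G.Adj),
        G.IsRegularOfDegree k ∧ G.CliqueFree (k + 1) ∧ G.edgeFinset.Nonempty ∧
        x = (J n G : ℝ) / (G.edgeFinset.card : ℝ)}
      (((k : ℝ) - 1) / (4 * k) - 2 / (3 * k * (k + 1))) := by
  have ht' : (3 : ℝ) ≤ t := by exact_mod_cast ht
  have hk' : (k : ℝ) = 2 * t - 1 := by
    have : (k : ℝ) + 1 = 2 * t := by exact_mod_cast hk
    linarith
  have k0 : (0 : ℝ) < k := by linarith
  have ea : ((k : ℝ) - 1) / (4 * k) - 2 / (3 * k * (k + 1))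
      = (3 * t * (t - 1) - 2) / (6 * t * k) := by
    have : (k : ℝ) + 1 = 2 * t := by linarith
    rw [this]
    nth_rewrite 1 [hk']
    field_simp; ring
  rw [ea]
  have up : ∀ (n : ℕ) (G : SimpleGraph (Fin n)) [DecidableRel G.Adj],
      G.IsRegularOfDegree k → G.CliqueFree (k + 1) → G.edgeFinset.Nonempty →
      (J n G : ℝ) / (G.edgeFinset.card : ℝ) ≤ (3 * t * (t - 1) - 2) / (6 * t * k) := by
    intro n G _ hreg hK hne
    obtain ⟨A, h1, h2⟩ := upper_odd ht hk core hreg hK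
    have h3 := J1 n G A
    rw [h1, max_self] at h3
    have h5 : (0 : ℝ) < G.edgeFinset.card := by exact_mod_cast card_pos.2 hne
    have h6 : 2 * (J n G : ℝ) ≤ E2 G A := by exact_mod_cast h3
    have h7 : 6 * (t : ℝ) * E2 G A ≤ (3 * t * (t - 1) - 2) * n := by exact_mod_cast h2
    have h8 := edges_eq hreg
    rw [div_le_div_iff₀ h5 (by positivity)]
    have h9 : (G.edgeFinset.card : ℝ) = n * k / 2 := by linarith
    rw [h9]
    nlinarith [mul_le_mul_of_nonneg_left h6 (by positivity : (0 : ℝ) ≤ 3 * t * k),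
      mul_le_mul_of_nonneg_left h7 k0.le]
  refine ⟨?_, ?_⟩
  · obtain ⟨G, inst, hreg, hK, hD⟩ := upper (k := k) (by omega)
    have h8 := edges_eq hreg
    have h9 : (G.edgeFinset.card : ℝ) = 3 * t * k := by
      push_cast at h8
      rw [show (k : ℝ) + 1 = 2 * t by linarith] at h8
      linarith
    have h5 : (0 : ℝ) < G.edgeFinset.card := by rw [h9]; positivity
    have hne : G.edgeFinset.Nonempty := card_pos.1 (by exact_mod_cast h5)
    refine ⟨_, G, inst, hreg, hK, hne, le_antisymm ?_ (up _ G hreg hK hne)⟩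
    obtain ⟨S, hS⟩ := J2 _ G
    have h1 := hD fun x => decide (x ∈ S)
    have e2 : (k + 1) / 2 = t := by omega
    rw [Dv_eq (reg_of hreg), e2, Fintype.card_fin] at h1
    have h2 := le_max_left (E2 G S) (E2 G Sᶜ)
    have h3 := le_max_right (E2 G S) (E2 G Sᶜ)
    have h4 : (k : ℤ) * (3 * (k + 1) : ℕ) ≤ 6 * t + 8 + 8 * J _ G := by linarith
    have h6 : (k : ℝ) * (3 * (k + 1)) ≤ 6 * t + 8 + 8 * J _ G := by exact_mod_cast h4
    rw [div_le_div_iff₀ (by positivity) h5, h9]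
    have h7 : 3 * (t : ℝ) * (t - 1) - 2 ≤ 2 * J _ G := by rw [hk'] at h6; nlinarith
    nlinarith [mul_le_mul_of_nonneg_left h7 (by positivity : (0 : ℝ) ≤ 3 * t * k)]
  · rintro x ⟨n, G, inst, h1, h2, h3, rfl⟩
    exact up n G h1 h2 h3

end Pool.Agent.Lib.MP_bb98d0_co.J
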