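import Pool.Agent.Lib.MP_bb98d0_co.Good

/-!
Classes of atoms in an optimal state and the local exchange lemmas.
-/

namespace Pool.Agent.Lib.MP_bb98d0_co
open Finset Classical

noncomputable section

variable {X : Type*} [Fintype X]

namespace St

def V (c : St X) (x : X) : Prop := x ∈ c.O ∧ x ∉ c.I ∧ c.cr x = c.t ∧ c.sm x + 2 ≤ c.t
def H (c : St X) (x : X) : Prop := x ∈ c.O ∧ x ∉ c.I ∧ c.cr x = c.t + 1 ∧ c.sm x + 1 = c.t
def Low (c : St X) (x : X) : Prop :=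
  x ∉ c.I ∧ (x ∈ c.O → c.cr x = c.t) ∧ (x ∉ c.O → c.cr x = 1)
def Pay (c : St X) (x : X) : Prop :=
  x ∉ c.I ∧ (x ∈ c.O → c.t + 1 ≤ c.cr x) ∧ (x ∉ c.O → 2 ≤ c.cr x)
def W (c : St X) (x : X) : Prop := c.Pay x ∧ ¬ c.H x

variable {c : St X}

lemma T.low {x : X} (h : c.T x) : c.Low x := ⟨h.2.1, fun _ => h.2.2.1, fun h' => absurd h.1 h'⟩
lemma V.low {x : X} (h : c.V x) : c.Low x := ⟨h.2.1, fun _ => h.2.2.1, fun h' => absurd h.1 h'⟩
lemma Sad.low {x : X} (h : c.Sad x) : c.Low x :=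
  ⟨h.2.1, fun h' => absurd h' h.1, fun _ => h.2.2.1⟩
lemma H.pay {x : X} (h : c.H x) : c.Pay x :=
  ⟨h.2.1, fun _ => h.2.2.1.ge, fun h' => absurd h.1 h'⟩
lemma Low.not_pay {x : X} (h : c.Low x) (h' : c.Pay x) : False := by
  by_cases hO : x ∈ c.O
  · have := h.2.1 hO; have := h'.2.1 hO; omega
  · have := h.2.2 hO; have := h'.2.2 hO; omega
lemma T.not_V {x : X} (h : c.T x) (h' : c.V x) : False := by
  have := h.2.2.2; have := h'.2.2.2; omega
lemma T.not_H {x : X} (h : c.T x) (h' : c.H x) : False := h.low.not_pay h'.pay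
lemma T.not_W {x : X} (h : c.T x) (h' : c.W x) : False := h.low.not_pay h'.1
lemma V.not_H {x : X} (h : c.V x) (h' : c.H x) : False := h.low.not_pay h'.pay
lemma V.not_W {x : X} (h : c.V x) (h' : c.W x) : False := h.low.not_pay h'.1
lemma T.not_sad {x : X} (h : c.T x) (h' : c.Sad x) : False := h'.1 h.1

lemma w_le_cr {x y : X} (h : c.C x y) : c.w x y ≤ c.cr x :=
  Finset.single_le_sum (f := fun y => c.w x y) (fun _ _ => Nat.zero_le _) (mem_Nc.2 h)
lemma w_le_sm {x y : X} (h : c.S x y) : c.w x y ≤ c.sm x :=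
  Finset.single_le_sum (f := fun y => c.w x y) (fun _ _ => Nat.zero_le _) (mem_Ns.2 h)

lemma w_one {x y : X} (hx : x ∈ c.O) (hy : y ∈ c.O) (h : 0 < c.w x y) : c.w x y = 1 := by
  have := c.simple x hx y hy; omega

lemma Low.w_one {x y : X} (hx : x ∈ c.O) (hy : c.Low y) (h : c.C x y) : c.w x y = 1 := by
  by_cases hO : y ∈ c.O
  · exact St.w_one hx hO h.pos
  · have h1 := w_le_cr h.symm
    have h2 := hy.2.2 hO
    have := h.pos
    rw [c.symm y x] at h1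
    omega

lemma Opt2.low_or_pay (h : c.Opt2) {q x : X} (hc : c.C q x) : c.Low x ∨ c.Pay x := by
  by_cases hO : x ∈ c.O
  · have := h.cr_ge hO hc.r
    by_cases h1 : c.cr x = c.t
    · exact Or.inl ⟨hc.r, fun _ => h1, fun h' => absurd hO h'⟩
    · exact Or.inr ⟨hc.r, fun _ => by omega, fun h' => absurd hO h'⟩
  · have h2 := w_le_cr hc.symm
    have h3 := hc.symm.pos
    by_cases h1 : c.cr x = 1
    · exact Or.inl ⟨hc.r, fun h' => absurd h' hO, fun _ => h1⟩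
    · exact Or.inr ⟨hc.r, fun h' => absurd h' hO, fun _ => by omega⟩

lemma Opt2.T_or_V (h : c.Opt2) {x : X} (hx : c.Low x) (hO : x ∈ c.O) : c.T x ∨ c.V x := by
  have := h.sm_le hO hx.1
  by_cases h1 : c.sm x + 1 = c.t
  · exact Or.inl ⟨hO, hx.1, hx.2.1 hO, h1⟩
  · exact Or.inr ⟨hO, hx.1, hx.2.1 hO, by omega⟩

lemma gm_ord {x : X} (hO : x ∈ c.O) (hx : x ∉ c.I) :
    c.gm x = 2 * c.cr x - 2 * c.t + c.e := by
  have := degO' hO hx; unfold gm; omega
lemma gp_ord {x : X} (hO : x ∈ c.O) (hx : x ∉ c.I) :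
    c.gp x = 2 * c.t - c.e - 2 * c.sm x := by
  have := degO' hO hx; unfold gp; omega
lemma gm_sup {x : X} (hO : x ∉ c.O) (hx : x ∉ c.I) : c.gm x = 2 * c.cr x - 2 * c.mu x := by
  have := degS' hO hx; unfold gm; omega
lemma gp_sup {x : X} (hO : x ∉ c.O) (hx : x ∉ c.I) : c.gp x = 2 * c.mu x - 2 * c.sm x := by
  have := degS' hO hx; unfold gp; omega

lemma Low.gm_le {x : X} (h : c.Low x) : c.gm x ≤ c.e := by
  by_cases hO : x ∈ c.O
  · rw [gm_ord hO h.1, h.2.1 hO]; omega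
  · have h1 := gm_sup hO h.1
    have h2 := degS' hO h.1
    have h3 := h.2.2 hO
    omega

lemma T.gp_eq {x : X} (h : c.T x) : c.gp x = 2 - c.e := by
  have := gp_ord h.1 h.2.1; have := h.2.2.2; omega
lemma T.gm_eq {x : X} (h : c.T x) : c.gm x = c.e := by
  have := gm_ord h.1 h.2.1; have := h.2.2.1; omega
lemma Sad.gp_eq (h : c.Opt2) {b : X} (hb : c.Sad b) : c.gp b = 0 := by
  have := hb.ia_zero h; have := hb.2.2.1; have := hb.2.2.2; unfold gp; omega

lemma Opt2.low_sm (h : c.Opt2) {x : X} (hx : c.Low x) : c.sm x + 1 ≤ c.t := by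
  by_cases hO : x ∈ c.O
  · exact h.sm_le hO hx.1
  · have h1 := h.gm_nonneg hx.1
    have h3 := hx.2.2 hO
    have := c.ht
    unfold gm at h1
    omega

lemma Opt2.low_sup (h : c.Opt2) {x : X} (hx : c.Low x) (hO : x ∉ c.O) :
    c.sm x + c.ia x = 1 := by
  have h1 := h.gm_nonneg hx.1
  have h2 := degS' hO hx.1
  have h3 := hx.2.2 hO
  unfold gm at h1
  omega

lemma H.i_zero {x : X} (h : c.H x) : c.ia x + c.e = 0 := by
  have := degO' h.1 h.2.1; have := h.2.2.1; have := h.2.2.2; omega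

/-! ### explicit shapes of the flip inequality -/

lemma Opt2.U11 (h : c.Opt2) {a b : X} (ha : a ∉ c.I) (hb : b ∉ c.I) (hs : c.s a ≠ c.s b) :
    2 * (c.w a b : ℤ) ≤ c.gp a + c.gm b := by
  have := h.U (A := {a}) (B := {b}) (β := c.s b) (by simp [ha, hs]) (by simp [hb])
  simpa [c.diag] using this

lemma Opt2.U12 (h : c.Opt2) {a b1 b2 : X} (ha : a ∉ c.I) (hb1 : b1 ∉ c.I) (hb2 : b2 ∉ c.I)
    (hs : c.s a ≠ c.s b1) (hs2 : c.s b2 = c.s b1) (hne : b1 ≠ b2) :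
    2 * ((c.w a b1 : ℤ) + c.w a b2) ≤ c.gp a + c.gm b1 + c.gm b2 + 2 * c.w b1 b2 := by
  have := h.U (A := {a}) (B := {b1, b2}) (β := c.s b1) (by simp [ha, hs])
    (by simp [hb1, hb2, hs2])
  simp only [Finset.sum_pair hne, Finset.sum_singleton, c.diag, c.symm b2 b1] at this
  push_cast at this
  linarith

lemma Opt2.U22 (h : c.Opt2) {a1 a2 b1 b2 : X} (ha1 : a1 ∉ c.I) (ha2 : a2 ∉ c.I) (hb1 : b1 ∉ c.I)
    (hb2 : b2 ∉ c.I) (hs1 : c.s a1 ≠ c.s b1) (hs2 : c.s a2 ≠ c.s b1) (hs3 : c.s b2 = c.s b1)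
    (hna : a1 ≠ a2) (hnb : b1 ≠ b2) :
    2 * ((c.w a1 b1 : ℤ) + c.w a1 b2 + c.w a2 b1 + c.w a2 b2) ≤
      c.gp a1 + c.gp a2 + c.gm b1 + c.gm b2 + 2 * c.w a1 a2 + 2 * c.w b1 b2 := by
  have := h.U (A := {a1, a2}) (B := {b1, b2}) (β := c.s b1) (by simp [ha1, ha2, hs1, hs2])
    (by simp [hb1, hb2, hs3])
  simp only [Finset.sum_pair hna, Finset.sum_pair hnb, c.diag, c.symm b2 b1, c.symm a2 a1]
    at this
  push_cast at this
  linarith

omit [Fintype X] in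
lemma sum_three {M : Type*} [AddCommMonoid M] {a b d : X} (f : X → M) (h1 : a ≠ b) (h2 : a ≠ d)
    (h3 : b ≠ d) : ∑ x ∈ ({a, b, d} : Finset X), f x = f a + f b + f d := by
  rw [Finset.sum_insert (by simp [h1, h2]), Finset.sum_pair h3, add_assoc]

omit [Fintype X] in
lemma sum_four {M : Type*} [AddCommMonoid M] {a b d g : X} (f : X → M) (h1 : a ≠ b) (h2 : a ≠ d)
    (h3 : a ≠ g) (h4 : b ≠ d) (h5 : b ≠ g) (h6 : d ≠ g) :
    ∑ x ∈ ({a, b, d, g} : Finset X), f x = f a + f b + f d + f g := by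
  rw [Finset.sum_insert (by simp [h1, h2, h3]), sum_three f h4 h5 h6]
  simp only [add_assoc]

lemma Opt2.U23 (h : c.Opt2) {a1 a2 b1 b2 b3 : X} (ha1 : a1 ∉ c.I) (ha2 : a2 ∉ c.I)
    (hb1 : b1 ∉ c.I) (hb2 : b2 ∉ c.I) (hb3 : b3 ∉ c.I) (hs1 : c.s a1 ≠ c.s b1)
    (hs2 : c.s a2 ≠ c.s b1) (hs3 : c.s b2 = c.s b1) (hs4 : c.s b3 = c.s b1)
    (hna : a1 ≠ a2) (h12 : b1 ≠ b2) (h13 : b1 ≠ b3) (h23 : b2 ≠ b3) :
    2 * ((c.w a1 b1 : ℤ) + c.w a1 b2 + c.w a1 b3 + c.w a2 b1 + c.w a2 b2 + c.w a2 b3) ≤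
      c.gp a1 + c.gp a2 + c.gm b1 + c.gm b2 + c.gm b3 + 2 * c.w a1 a2
        + 2 * (c.w b1 b2 + c.w b1 b3 + c.w b2 b3) := by
  have := h.U (A := {a1, a2}) (B := {b1, b2, b3}) (β := c.s b1) (by simp [ha1, ha2, hs1, hs2])
    (by simp [hb1, hb2, hb3, hs3, hs4])
  simp only [Finset.sum_pair hna, sum_three _ h12 h13 h23, c.diag, c.symm b2 b1, c.symm a2 a1,
    c.symm b3 b1, c.symm b3 b2] at this
  push_cast at this
  linarith

/-! ### exchange lemmas -/

/-- low cross neighbours of a tight or half vertex are pairwise adjacent -/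
lemma Opt2.F1 (h : c.Opt2) {u z z' : X} (hO : u ∈ c.O) (hu : c.sm u + 1 = c.t) (hz : c.Low z)
    (hz' : c.Low z') (h1 : c.C u z) (h2 : c.C u z') (hne : z ≠ z') : c.S z z' := by
  refine h1.toS h2 ?_
  have := h.U12 h1.l h1.r h2.r h1.side (h2.same h1) hne
  have := gp_ord hO h1.l
  have := hz.gm_le; have := hz'.gm_le; have := h1.pos; have := h2.pos; have := c.he
  omega

lemma Opt2.low_gp0 (h : c.Opt2) {a x : X} (ha : c.gp a = 0) (hx : c.Low x) (hc : c.C a x) :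
    False := by
  have := h.U11 hc.l hc.r hc.side
  have := hx.gm_le; have := hc.pos; have := c.he
  omega

lemma Opt2.low_sad (h : c.Opt2) {b x : X} (hb : c.Sad b) (hx : c.Low x) (hc : c.C b x) :
    False := h.low_gp0 (hb.gp_eq h) hx hc

lemma Opt2.strict (h : c.Opt2) {A B : Finset X} {β : Bool} (hA : ∀ a ∈ A, a ∉ c.I ∧ c.s a ≠ β)
    (hB : ∀ b ∈ B, b ∉ c.I ∧ c.s b = β)
    (bal : ∀ a ∈ c.I, ∑ y ∈ A, c.w a y = ∑ y ∈ B, c.w a y)
    (neu : 2 * ∑ a ∈ A, ∑ b ∈ B, (c.w a b : ℤ) = ∑ a ∈ A, ((c.cr a : ℤ) - c.sm a)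
      + ∑ b ∈ B, ((c.cr b : ℤ) - c.sm b)
      + ∑ a ∈ A, ∑ a' ∈ A, (c.w a a' : ℤ) + ∑ b ∈ B, ∑ b' ∈ B, (c.w b b' : ℤ))
    {x : X} (hO : x ∈ c.O) (hx : x ∉ c.I) (hs : c.s x = β) (hxB : x ∉ B)
    (hi : c.ia x + c.e = 0) :
    c.t + 1 + ∑ y ∈ A, c.w x y ≤ c.cr x + ∑ y ∈ B, c.w x y := by
  have h1 := (h.flip hA hB bal neu).cr_gt (x := x) hO hx hi
  have h2 := fl_cr hA hB hx hs hxB
  simp only [fl_t] at h1
  omega

lemma Opt2.Hadj (h : c.Opt2) {x q u : X} (hx : c.H x) (hq : c.T q) (hu : c.T u) (h1 : c.C q x)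
    (h2 : c.C q u) : c.S x u := by
  refine h1.toS h2 ?_
  have hw : c.w q u = 1 := w_one hq.1 hu.1 h2.pos
  have hne : x ≠ u := fun e => hu.not_H (e ▸ hx)
  have := h.strict (A := {q}) (B := {u}) (β := c.s u) (by simp [h2.l, h2.side]) (by simp [h2.r])
    (fun a ha => by simpa using h.anc hq hu h2 a ha)
    (by
      have h1 := hq.2.2.1; have h2 := hq.2.2.2
      have h3 := hu.2.2.1; have h4 := hu.2.2.2
      simp only [Finset.sum_singleton, c.diag, hw]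
      omega) hx.1 hx.2.1 (h1.same h2) (by simp [hne]) hx.i_zero
  simp only [Finset.sum_singleton] at this
  have := hx.2.2.1; have := h1.symm.pos
  omega

lemma Opt2.Hsad (h : c.Opt2) {x b : X} (hx : c.H x) (hb : c.Sad b) (h1 : c.C b x) : False := by
  have := h.strict (A := {b}) (B := ∅) (β := c.s x) (by simp [h1.l, h1.side]) (by simp)
    (fun a ha => by simpa using ia_zero_w (hb.ia_zero h) ha)
    (by
      have h2 := hb.2.2.1; have h3 := hb.2.2.2
      simp only [Finset.sum_singleton, c.diag, Finset.sum_empty]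
      omega) hx.1 hx.2.1 rfl (by simp) hx.i_zero
  simp only [Finset.sum_singleton, Finset.sum_empty] at this
  have := hx.2.2.1; have := h1.symm.pos
  omega

/-- atoms that survive at most one lowering move -/
def Sl (c : St X) (x : X) : Prop :=
  c.gm x ≤ 3 ∨ (x ∈ c.O ∧ c.ia x + c.e = 0 ∧ c.cr x ≤ c.t + 2)

lemma Opt2.swap_swap (h : c.Opt2) {x q u q' u' : X} (hx : c.Sl x) (hq : c.T q) (hu : c.T u)
    (hq' : c.T q') (hu' : c.T u') (h1 : c.C q u) (h2 : c.C q' u') (h3 : c.C q x) (h4 : c.C q' x)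
    (h5 : c.w x u = 0) (h6 : c.w x u' = 0) (hqq : q ≠ q') (huu : u ≠ u') (hxu : x ≠ u)
    (hxu' : x ≠ u') (hw : c.w q q' + c.w u u' = c.w q u' + c.w q' u) : False := by
  have w1 : c.w q u = 1 := w_one hq.1 hu.1 h1.pos
  have w2 : c.w q' u' = 1 := w_one hq'.1 hu'.1 h2.pos
  have p3 := h3.pos; have p4 := h4.pos
  rcases hx with hx | hx
  · have := h.U23 h1.l h2.l h3.r h1.r h2.r h3.side h4.side (h1.same h3) (h2.same h4) hqq hxu hxu'
      huu
    have := hq.gp_eq; have := hq'.gp_eq; have := hu.gm_eq; have := hu'.gm_eq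
    omega
  · have := h.strict (A := {q, q'}) (B := {u, u'}) (β := c.s x)
      (by simp [h3.l, h4.l, h3.side, h4.side]) (by simp [h1.r, h2.r, h1.same h3, h2.same h4])
      (fun a ha => by
        rw [Finset.sum_pair hqq, Finset.sum_pair huu, h.anc hq hu h1 a ha, h.anc hq' hu' h2 a ha])
      (by
        have := hq.2.2.1; have := hq.2.2.2; have := hu.2.2.1; have := hu.2.2.2
        have := hq'.2.2.1; have := hq'.2.2.2; have := hu'.2.2.1; have := hu'.2.2.2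
        simp only [Finset.sum_pair hqq, Finset.sum_pair huu, c.diag, w1, w2, c.symm q' q,
          c.symm u' u]
        omega) hx.1 h3.r rfl (by simp [hxu, hxu']) hx.2.1
    rw [Finset.sum_pair hqq, Finset.sum_pair huu, c.symm x q, c.symm x q'] at this
    have := hx.2.2
    omega

lemma Opt2.swap_sad (h : c.Opt2) {x q u b : X} (hx : c.Sl x) (hq : c.T q) (hu : c.T u)
    (hb : c.Sad b) (h1 : c.C q u) (h3 : c.C q x) (h4 : c.C b x)
    (h5 : c.w x u = 0) (hxu : x ≠ u) (hw : c.w q b = 0) : False := by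
  have w1 : c.w q u = 1 := w_one hq.1 hu.1 h1.pos
  have p3 := h3.pos; have p4 := h4.pos
  have hqb : q ≠ b := fun e => hb.1 (e ▸ hq.1)
  have hbu : c.w b u = 0 := by
    by_contra hn
    exact h.low_sad hb hu.low ⟨h4.l, h1.r, by rw [← h3.same h1]; exact h4.side,
      Nat.pos_of_ne_zero hn⟩
  rcases hx with hx | hx
  · have := h.U22 h1.l h4.l h3.r h1.r h3.side h4.side (h1.same h3) hqb hxu
    have := hq.gp_eq; have := hb.gp_eq h; have := hu.gm_eq
    omega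
  · have := h.strict (A := {q, b}) (B := {u}) (β := c.s x)
      (by simp [h3.l, h4.l, h3.side, h4.side]) (by simp [h1.r, h1.same h3])
      (fun a ha => by
        rw [Finset.sum_pair hqb, Finset.sum_singleton, h.anc hq hu h1 a ha,
          ia_zero_w (hb.ia_zero h) ha, add_zero])
      (by
        have := hq.2.2.1; have := hq.2.2.2; have := hu.2.2.1; have := hu.2.2.2
        have := hb.2.2.1; have := hb.2.2.2
        simp only [Finset.sum_pair hqb, Finset.sum_singleton, c.diag, w1, hw, hbu, c.symm b q]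
        omega) hx.1 h3.r rfl (by simp [hxu]) hx.2.1
    rw [Finset.sum_pair hqb, Finset.sum_singleton, c.symm x q, c.symm x b] at this
    have := hx.2.2
    omega

lemma Good.sad_indep (G : c.Good) {x b b' : X} (hO : x ∈ c.O) (hb : c.Sad b) (hb' : c.Sad b')
    (h1 : c.C x b) (h2 : c.C x b') : c.w b b' = 0 := by
  by_contra hn
  exact hb'.1 (G.sadp b x b' hb h1.symm hO (h1.toS h2 (Nat.pos_of_ne_zero hn)))

lemma Good.sad_card (G : c.Good) {x : X} (hO : x ∈ c.O) (hx : x ∉ c.I) :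
    ((c.Nc x).filter c.Sad).card + c.t ≤ c.cr x := by
  have h1 := G.opt.U (A := (c.Nc x).filter c.Sad) (B := {x}) (β := c.s x)
    (fun a ha => by
      rw [mem_filter, mem_Nc] at ha
      exact ⟨ha.1.r, ha.1.side.symm⟩) (by simp [hx])
  have h2 : ∑ a ∈ (c.Nc x).filter c.Sad, c.gp a = 0 :=
    Finset.sum_eq_zero fun a ha => (mem_filter.1 ha).2.gp_eq G.opt
  have h3 : ∑ a ∈ (c.Nc x).filter c.Sad, ∑ a' ∈ (c.Nc x).filter c.Sad, (c.w a a' : ℤ) = 0 :=
    Finset.sum_eq_zero fun a ha => Finset.sum_eq_zero fun a' ha' => by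
      rw [mem_filter, mem_Nc] at ha ha'
      rw [G.sad_indep hO ha.2 ha'.2 ha.1 ha'.1]; rfl
  have h4 : ∑ a ∈ (c.Nc x).filter c.Sad, ∑ b ∈ ({x} : Finset X), (c.w a b : ℤ)
      = ((c.Nc x).filter c.Sad).card := by
    rw [Finset.card_eq_sum_ones]
    push_cast
    refine Finset.sum_congr rfl fun a ha => ?_
    rw [mem_filter, mem_Nc] at ha
    rw [Finset.sum_singleton, c.symm, ha.2.low.w_one hO ha.1]; rfl
  rw [h2, h3, h4] at h1
  simp only [Finset.sum_singleton, c.diag, gm_ord hO hx] at h1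
  have := c.he
  omega

lemma Good.sad_sad (G : c.Good) {x b b' : X} (hO : x ∈ c.O) (hx : c.Sl x) (hb : c.Sad b)
    (hb' : c.Sad b') (h1 : c.C x b) (h2 : c.C x b') : b = b' := by
  by_contra hne
  have h := G.opt
  have hw := G.sad_indep hO hb hb' h1 h2
  rcases hx with hx | hx
  · have h3 := G.sad_card hO h1.l
    have h4 : ({b, b'} : Finset X) ⊆ (c.Nc x).filter c.Sad := by
      intro y hy
      simp only [mem_insert, mem_singleton] at hy
      rcases hy with rfl | rfl <;> simp [*]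
    have h5 := card_le_card h4
    rw [card_pair hne] at h5
    have := gm_ord hO h1.l
    omega
  · have := h.strict (A := {b, b'}) (B := ∅) (β := c.s x)
      (by simp [h1.r, h2.r, h1.side.symm, h2.side.symm]) (by simp)
      (fun a ha => by
        rw [Finset.sum_pair hne, ia_zero_w (hb.ia_zero h) ha, ia_zero_w (hb'.ia_zero h) ha]
        rfl)
      (by
        have := hb.2.2.1; have := hb.2.2.2; have := hb'.2.2.1; have := hb'.2.2.2
        simp only [Finset.sum_pair hne, Finset.sum_empty, c.diag, hw, c.symm b' b]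
        omega) hx.1 h1.l rfl (by simp) hx.2.1
    rw [Finset.sum_pair hne, Finset.sum_empty] at this
    have := hx.2.2; have := h1.pos; have := h2.pos
    omega

lemma Opt2.F4 (h : c.Opt2) {x z z' y : X} (hx : c.gm x ≤ 2 + c.e) (hz : c.T z) (hz' : c.T z')
    (hy : c.Low y) (h1 : c.C z x) (h2 : c.C z' x) (h3 : c.C z y) (h4 : c.C z' y) (hne : z ≠ z')
    (hxy : x ≠ y) (hw : c.w z z' = 0) : 0 < c.w x y := by
  have := h.U22 h1.l h2.l h1.r h3.r h1.side h2.side (h3.same h1) hne hxy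
  have := hz.gp_eq; have := hz'.gp_eq; have := hy.gm_le
  have := h1.pos; have := h2.pos; have := h3.pos; have := h4.pos; have := c.he
  omega

lemma Opt2.F5 (h : c.Opt2) {x z z' u v : X} (hx : c.gm x ≤ 2 + c.e) (hz : c.T z) (hz' : c.T z')
    (hu : c.Low u) (hv : c.Low v) (h1 : c.C z x) (h2 : c.C z' x) (h3 : c.C z u) (h4 : c.C z' v)
    (hne : z ≠ z') (hxu : x ≠ u) (hxv : x ≠ v) (huv : u ≠ v) (hw : c.w z z' = 0) :
    0 < c.w x u ∨ 0 < c.w x v ∨ 0 < c.w u v := by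
  have := h.U23 h1.l h2.l h1.r h3.r h4.r h1.side h2.side (h3.same h1) (h4.same h2) hne hxu hxv huv
  have := hz.gp_eq; have := hz'.gp_eq; have := hu.gm_le; have := hv.gm_le
  have := h1.pos; have := h2.pos; have := h3.pos; have := h4.pos; have := c.he
  omega

lemma Opt2.Fsad (h : c.Opt2) {x b z u : X} (hx : c.gm x ≤ 2 + c.e) (hb : c.Sad b) (hz : c.T z)
    (hu : c.Low u) (h1 : c.C b x) (h2 : c.C z x) (h3 : c.C z u) (hxu : x ≠ u)
    (hw : c.w b z = 0) : 0 < c.w x u := by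
  have hbz : b ≠ z := fun e => hb.1 (e ▸ hz.1)
  have := h.U22 h1.l h2.l h1.r h3.r h1.side h2.side (h3.same h2) hbz hxu
  have := hz.gp_eq; have := hb.gp_eq h; have := hu.gm_le
  have := h1.pos; have := h2.pos; have := h3.pos; have := c.he
  omega

lemma Opt2.Fout (h : c.Opt2) {x u q z z' : X} (hx : c.gp x ≤ 4 - c.e) (hu : c.T u) (hq : c.T q)
    (hz : c.T z) (hz' : c.T z') (h1 : c.C x q) (h2 : c.C x z) (h3 : c.C x z') (h4 : c.C u q)
    (hxu : x ≠ u) (hw : c.w x u = 0) (hqz : q ≠ z) (hqz' : q ≠ z') (hne : z ≠ z')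
    (e1 : c.w q z ≤ c.w u z) (e2 : c.w q z' ≤ c.w u z') : c.S z z' := by
  refine h2.toS h3 ?_
  have := h.U23 h1.l h4.l h1.r h2.r h3.r h1.side h4.side (h2.same h1) (h3.same h1) hxu hqz hqz'
    hne
  have := hu.gp_eq; have := hq.gm_eq; have := hz.gm_eq; have := hz'.gm_eq
  have := h1.pos; have := h2.pos; have := h3.pos; have := h4.pos; have := c.he
  omega

/-- the twin bound in terms of the state -/
lemma Good.TW (G : c.Good) {K L A B : Finset X} (hA : ∀ z ∈ A, c.T z ∧ insert z (c.Ns z) = K ∧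
    c.Nc z = L) (hB : ∀ z ∈ B, c.T z ∧ insert z (c.Ns z) = L ∧ c.Nc z = K) (hK : K ⊆ c.O)
    (hL : L ⊆ c.O) {z0 p : X} (hz0 : z0 ∈ A) (hp : p ∈ L) (hpT : c.T p) :
    A.card + B.card + 1 ≤ c.t := by
  have h := G.opt
  have hchar : ∀ z, z ∉ c.I → ∀ y, (y = z ∨ 0 < c.w z y) ↔
      (y ∈ insert z (c.Ns z) ∨ y ∈ c.Nc z ∨ (y ∈ c.I ∧ 0 < c.w y z)) := by
    intro z hz y
    rw [mem_insert, mem_Ns, mem_Nc, c.symm y z]
    constructor
    · rintro (h1 | h1)
      · exact Or.inl (Or.inl h1)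
      · by_cases hy : y ∈ c.I
        · exact Or.inr (Or.inr ⟨hy, h1⟩)
        · by_cases hs : c.s z = c.s y
          · exact Or.inl (Or.inr ⟨hz, hy, hs, h1⟩)
          · exact Or.inr (Or.inl ⟨hz, hy, hs, h1⟩)
    · rintro ((h1 | h1) | h1 | h1)
      exacts [Or.inl h1, Or.inr h1.pos, Or.inr h1.pos, Or.inr h1.2]
  have hAc : ∀ z ∈ A, ∀ y, (y = z ∨ 0 < c.w z y) ↔
      (y ∈ K ∨ y ∈ L ∨ (y ∈ c.I ∧ 0 < c.w y p)) := by
    intro z hz y
    obtain ⟨h1, h2, h3⟩ := hA z hz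
    rw [hchar z h1.2.1, h2, h3]
    have hc : c.C z p := mem_Nc.1 (h3 ▸ hp)
    refine or_congr Iff.rfl (or_congr Iff.rfl (and_congr_right fun hy => ?_))
    rw [h.anc h1 hpT hc y hy]
  have hBc : ∀ z ∈ B, ∀ y, (y = z ∨ 0 < c.w z y) ↔
      (y ∈ K ∨ y ∈ L ∨ (y ∈ c.I ∧ 0 < c.w y p)) := by
    intro z hz y
    obtain ⟨h1, h2, h3⟩ := hB z hz
    obtain ⟨g1, g2, g3⟩ := hA z0 hz0
    rw [hchar z h1.2.1, h2, h3, or_left_comm]
    have hc : c.C z0 p := mem_Nc.1 (g3 ▸ hp)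
    have hc2 : c.C z0 z := mem_Nc.1 (by rw [g3, ← h2]; exact mem_insert_self _ _)
    refine or_congr Iff.rfl (or_congr Iff.rfl (and_congr_right fun hy => ?_))
    rw [← h.anc g1 h1 hc2 y hy, h.anc g1 hpT hc y hy]
  have hsub : A ∪ B ⊆ c.toNet.Tw z0 := by
    intro z hz
    simp only [Net.Tw, mem_filter, mem_univ, true_and]
    intro y
    rw [hAc z0 hz0]
    rcases mem_union.1 hz with hz | hz
    exacts [hAc z hz y, hBc z hz y]
  have hd : Disjoint A B := by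
    refine Finset.disjoint_left.2 fun z h1 h2 => ?_
    have e1 : z ∈ K := by rw [← (hA z h1).2.1]; exact mem_insert_self _ _
    rw [← (hB z h2).2.2] at e1
    exact (mem_Nc.1 e1).ne rfl
  have h1 := G.twin z0 (hA z0 hz0).1.1 (fun y hy => by
    rcases (hAc z0 hz0 y).1 (Or.inr hy) with h1 | h1 | h1
    exacts [hK h1, hL h1, h.2.1.1 h1.1])
  have h2 := card_le_card hsub
  rw [card_union_of_disjoint hd] at h2
  omega

end St

end

end Pool.Agent.Lib.MP_bb98d0_co
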