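import Pool.Agent.Lib.MP_bb98d0_co.K5

/-!
Odd degree, small cases: globally optimal states with a finer tie breaking rule.
-/

namespace Pool.Agent.Lib.MP_bb98d0_co
open Finset Classical

noncomputable section

variable {X : Type*} [Fintype X]

def pr (w : X → X → ℕ) : List X → ℤ
  | [] => 0
  | a :: l => (l.map fun b => (w a b : ℤ)).sum + pr w l

omit [Fintype X] in
lemma pr_eq (w : X → X → ℕ) (hw : ∀ x y, w x y = w y x) (h0 : ∀ x, w x x = 0) (l : List X)
    (hl : l.Nodup) : ∑ a ∈ l.toFinset, ∑ b ∈ l.toFinset, (w a b : ℤ) = 2 * pr w l := by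
  induction l with
  | nil => simp [pr]
  | cons a l ih =>
    rw [List.nodup_cons] at hl
    have ha : a ∉ l.toFinset := by simpa using hl.1
    rw [List.toFinset_cons]
    simp only [Finset.sum_insert ha, Finset.sum_add_distrib, h0, ih hl.2, pr]
    simp only [fun x => hw x a]
    rw [List.sum_toFinset _ hl.2]
    push_cast
    ring

namespace St

def nS (c : St X) (β : Bool) : ℕ :=
  (univ.filter fun x => x ∉ c.O ∧ c.mu x ≠ 0 ∧ c.s x = β).card

def GV (c : St X) (A B : Finset X) : ℤ :=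
  ∑ a ∈ A, c.gm a + ∑ b ∈ B, c.gm b + ∑ a ∈ A, ∑ a' ∈ A, (c.w a a' : ℤ)
    + ∑ b ∈ B, ∑ b' ∈ B, (c.w b b' : ℤ) - 2 * ∑ a ∈ A, ∑ b ∈ B, (c.w a b : ℤ)

def GW (c : St X) (A B : List X) : ℤ :=
  (A.map c.gm).sum + (B.map c.gm).sum + 2 * pr c.w A + 2 * pr c.w B
    - 2 * (A.map fun a => (B.map fun b => (c.w a b : ℤ)).sum).sum

def Ph (c : St X) : ℕ := 2 * c.PP + c.nS false

structure OH (c : St X) : Prop extends OG c where
  hb : 0 ≤ bal c.O c.s
  tie : ∀ (A B : Finset X) (β : Bool), (∀ a ∈ A, c.s a ≠ β) → (∀ b ∈ B, c.s b = β) →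
    ∑ a ∈ A, c.oi a = ∑ b ∈ B, c.oi b → c.GV A B = 0 → c.Ph ≤ (c.fl (A ∪ B)).Ph
  mir : ∀ (A B : Finset X), (∀ a ∈ A, c.s a ≠ false) → (∀ b ∈ B, c.s b = false) →
    ∑ a ∈ A, c.oi a = ∑ b ∈ B, c.oi b + 2 → c.GV A B ≤ 0 → bal c.O c.s = 0 ∨
      (bal c.O c.s = 2 ∧ c.Ph ≤ 2 * (c.fl (A ∪ B)).PP + (c.fl (A ∪ B)).nS true)
  zero : bal c.O c.s = 0 → c.nS false ≤ c.nS true

variable {c : St X}

lemma GV_list {A B : List X} (hA : A.Nodup) (hB : B.Nodup) :
    c.GV A.toFinset B.toFinset = c.GW A B := by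
  unfold GV GW
  rw [pr_eq _ c.symm c.diag A hA, pr_eq _ c.symm c.diag B hB, List.sum_toFinset _ hA,
    List.sum_toFinset _ hB, List.sum_toFinset _ hA]
  simp only [List.sum_toFinset _ hB]

lemma OG.UL (G : c.OG) (A B : List X) (β : Bool) (hA : A.Nodup) (hB : B.Nodup)
    (sA : ∀ a ∈ A, c.s a ≠ β) (sB : ∀ b ∈ B, c.s b = β)
    (f1 : (A.map c.oi).sum ≤ (B.map c.oi).sum + 1) (f2 : (B.map c.oi).sum ≤ (A.map c.oi).sum + 1) :
    0 ≤ c.GW A B := by
  rw [← GV_list hA hB]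
  have := G.U A.toFinset B.toFinset β (by simpa using sA) (by simpa using sB)
    (by rw [List.sum_toFinset _ hA, List.sum_toFinset _ hB]; exact f1)
    (by rw [List.sum_toFinset _ hA, List.sum_toFinset _ hB]; exact f2)
  unfold GV
  linarith

lemma bal_even (he : c.e = 1) : Even (bal c.O c.s) := by
  have h1 : Even c.O.card := by
    obtain ⟨m, hm⟩ := even_sum_symm c.w c.symm c.diag univ
    rw [← Finset.sum_add_sum_compl c.O] at hm
    have a1 : ∑ x ∈ c.O, ∑ y, c.w x y + c.O.card = c.O.card * (2 * c.t) := by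
      rw [Finset.card_eq_sum_ones, ← Finset.sum_add_distrib, Finset.sum_mul]
      exact Finset.sum_congr rfl fun x hx => by have := c.degO x hx; omega
    have a2 : ∑ x ∈ c.Oᶜ, ∑ y, c.w x y = 2 * ∑ x ∈ c.Oᶜ, c.mu x := by
      rw [Finset.mul_sum]
      exact Finset.sum_congr rfl fun x hx => c.degS x (mem_compl.1 hx)
    have a3 : c.O.card * (2 * c.t) = 2 * (c.O.card * c.t) := by ring
    exact Nat.even_iff.2 (by omega)
  have h2 : bal c.O c.s = c.O.card - 2 * ∑ x ∈ c.O, (if c.s x then 0 else 1 : ℤ) := by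
    unfold bal
    rw [Finset.card_eq_sum_ones, Finset.mul_sum]
    push_cast
    rw [← Finset.sum_sub_distrib]
    exact Finset.sum_congr rfl fun x _ => by cases c.s x <;> simp [sgn]
  rw [h2]
  exact (Int.even_coe_nat _ |>.2 h1).sub (even_two_mul _)

lemma PP_same {S : Finset X} (hS : ∀ x ∈ S, x ∉ c.O → ∀ y, 0 < c.w x y → y ∈ c.O) :
    (c.fl S).PP = c.PP := by
  unfold PP
  refine Finset.sum_congr rfl fun p _ => ?_
  simp only [fl_O, fl_s, fl_w]
  by_cases h1 : p.1 ∈ c.O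
  · simp [h1]
  by_cases h2 : p.2 ∈ c.O
  · simp [h2]
  by_cases h3 : c.w p.1 p.2 = 0
  · simp [h3]
  rw [flip_not_mem fun h => h2 (hS _ h h1 _ (Nat.pos_of_ne_zero h3)),
    flip_not_mem fun h => h1 (hS _ h h2 _ (by rw [c.symm]; exact Nat.pos_of_ne_zero h3))]

lemma nS_ord {S : Finset X} (hS : ∀ x ∈ S, x ∈ c.O) (β : Bool) : (c.fl S).nS β = c.nS β := by
  unfold nS
  congr 1
  refine Finset.filter_congr fun x _ => ?_
  simp only [fl_O, fl_s]
  by_cases h1 : x ∈ c.O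
  · simp [h1]
  rw [flip_not_mem fun h => h1 (hS _ h)]
  rfl

lemma nS_le (S : Finset X) (β : Bool) : (c.fl S).nS β ≤ c.nS β + (S \ c.O).card := by
  unfold nS
  refine (card_le_card fun z hz => ?_).trans (card_union_le _ _)
  by_cases e : z ∈ S
  · exact mem_union_right _ (mem_sdiff.2 ⟨e, (mem_filter.1 hz).2.1⟩)
  · simp only [mem_filter, fl_O, fl_s, flip_not_mem e] at hz
    exact mem_union_left _ (mem_filter.2 hz)

lemma nS_lt {S : Finset X} {p : X} (hp : p ∈ S) (h1 : p ∉ c.O) (h2 : c.mu p ≠ 0)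
    (h3 : ∀ x ∈ S, x ∉ c.O → c.s x = false) : (c.fl S).nS false < c.nS false := by
  have hm : p ∈ univ.filter fun x => x ∉ c.O ∧ c.mu x ≠ 0 ∧ c.s x = false := by
    simp [h1, h2, h3 p hp h1]
  have h6 := card_erase_add_one hm
  have h5 : (c.fl S).nS false ≤
      ((univ.filter fun x => x ∉ c.O ∧ c.mu x ≠ 0 ∧ c.s x = false).erase p).card := by
    unfold nS
    refine card_le_card fun z hz => ?_
    by_cases e : z ∈ S
    · simp only [mem_filter, fl_O, fl_s, flip_mem e] at hz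
      have := hz.2.2.2
      rw [h3 z e hz.2.1] at this
      simp at this
    · simp only [mem_filter, fl_O, fl_s, flip_not_mem e] at hz
      exact mem_erase.2 ⟨fun h => e (h ▸ hp), mem_filter.2 hz⟩
  unfold nS at h5 ⊢
  omega

lemma exists_oh (N : Net X) (he : N.e = 1) (hN : N.TwinB) : ∃ c : St X, c.toNet = N ∧ c.OH := by
  obtain ⟨s0, -, hs0⟩ := Finset.exists_max_image univ
    (fun s => Dv N.w s - 2 * |bal N.O s|) univ_nonempty
  obtain ⟨s1, hp1, hp2⟩ := Finset.exists_max_image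
    (univ.filter fun s => Dv N.w s - 2 * |bal N.O s| = Dv N.w s0 - 2 * |bal N.O s0|)
    (fun s => |bal N.O s|) ⟨s0, by simp⟩
  simp only [mem_filter, mem_univ, true_and] at hp1 hp2
  have cD : ∀ s : X → Bool, Dv N.w (fun x => !(s x)) = Dv N.w s := fun s => by
    unfold Dv
    simp only [sg_not_left, sg_not_right, neg_neg]
  have cB : ∀ s : X → Bool, bal N.O (fun x => !(s x)) = - bal N.O s := fun s => by
    unfold bal
    simp only [sgn_not, Finset.sum_neg_distrib]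
  have cP : ∀ s : X → Bool, Ph ⟨N, ∅, fun x => !(s x)⟩
      = 2 * PP ⟨N, ∅, s⟩ + nS ⟨N, ∅, s⟩ true := fun s => by
    unfold Ph PP nS
    simp only [Bool.not_inj_iff, Bool.not_eq_false']
  have hex : ∃ s, Dv N.w s = Dv N.w s1 ∧ bal N.O s = |bal N.O s1| := by
    rcases abs_cases (bal N.O s1) with h | h
    · exact ⟨s1, rfl, h.1.symm⟩
    · exact ⟨fun x => !(s1 x), cD s1, by rw [h.1, cB]⟩
  obtain ⟨s2, hs2⟩ := hex
  obtain ⟨s4, hq1, hq2⟩ := Finset.exists_min_image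
    (univ.filter fun s => Dv N.w s = Dv N.w s1 ∧ bal N.O s = |bal N.O s1|)
    (fun s => Ph ⟨N, ∅, s⟩) ⟨s2, by simp [hs2]⟩
  obtain ⟨s3, hr1, hr2⟩ := Finset.exists_min_image
    (univ.filter fun s => (Dv N.w s = Dv N.w s1 ∧ bal N.O s = |bal N.O s1|) ∧
      Ph ⟨N, ∅, s⟩ = Ph ⟨N, ∅, s4⟩)
    (fun s => kap ⟨N, ∅, s⟩) ⟨s4, by simpa using hq1⟩
  simp only [mem_filter, mem_univ, true_and] at hr1 hr2 hq1 hq2
  set c : St X := ⟨N, ∅, s3⟩ with hc
  have hI : c.I = ∅ := rfl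
  have hD : Dv c.w c.s = Dv N.w s1 := hr1.1.1
  have hB : bal c.O c.s = |bal N.O s1| := hr1.1.2
  have hU : c.UU := by
    intro A B β hA hB' f1 f2
    by_contra hn
    have e1 := Dv_two hI hA hB'
    have e2 := bal_two hA hB'
    have e3 := hs0 (flip (A ∪ B) c.s) (mem_univ _)
    have e4 := hp2 (flip (A ∪ B) c.s)
    have e5 : |bal N.O (flip (A ∪ B) c.s)| ≤ |bal N.O s1| + 2 := by
      have e6 : bal c.O (flip (A ∪ B) c.s) = bal N.O (flip (A ∪ B) c.s) := rfl
      rw [← e6, e2, hB, abs_le]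
      have := abs_nonneg (bal N.O s1)
      cases β <;> simp only [sgn] <;> constructor <;> simp <;> omega
    have e7 : Dv c.w (flip (A ∪ B) c.s) = Dv N.w (flip (A ∪ B) c.s) := rfl
    omega
  have hsm : ∀ x ∈ c.O, c.sm x + 1 ≤ c.t := fun x hx => hU.sm_le hI he hx
  have hT : ∀ (A B : Finset X) (β : Bool), (∀ a ∈ A, c.s a ≠ β) → (∀ b ∈ B, c.s b = β) →
      ∑ a ∈ A, c.oi a = ∑ b ∈ B, c.oi b → c.GV A B = 0 →
      Dv N.w (flip (A ∪ B) c.s) = Dv N.w s1 ∧ bal N.O (flip (A ∪ B) c.s) = |bal N.O s1| := by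
    intro A B β hA hB' f1 f2
    constructor
    · rw [← hD]
      have := Dv_two hI hA hB'
      unfold GV at f2
      rw [f2, mul_zero, sub_zero] at this
      exact this
    · rw [← hB]
      have := bal_two hA hB'
      rw [f1, sub_self, mul_zero, add_zero] at this
      exact this
  have hP : c.Ph = Ph ⟨N, ∅, s4⟩ := hr1.2
  have hF : ∀ (A B : Finset X) (β : Bool), (∀ a ∈ A, c.s a ≠ β) → (∀ b ∈ B, c.s b = β) →
      ∑ a ∈ A, c.oi a = ∑ b ∈ B, c.oi b → c.GV A B = 0 → c.Ph ≤ (c.fl (A ∪ B)).Ph := by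
    intro A B β hA hB' f1 f2
    rw [hP]
    exact hq2 _ (hT A B β hA hB' f1 f2)
  have hsw : ∀ q y, c.T q → c.T y → c.C q y → c.kap ≤ (c.fl ({q} ∪ {y})).kap := by
    intro q y hq hy hqy
    have hS : ∀ x ∈ ({q} ∪ {y} : Finset X), x ∈ c.O := by
      intro x hx
      simp only [mem_union, mem_singleton] at hx
      rcases hx with rfl | rfl
      exacts [hq.1, hy.1]
    refine hr2 _ ⟨hT {q} {y} (c.s y) (by simp [hqy.side]) (by simp)
      (by simp [oi_O hq.1, oi_O hy.1]) ?_, ?_⟩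
    · have e : c.e = 1 := he
      simp only [GV, Finset.sum_singleton, c.diag, hq.gm_eq, hy.gm_eq, w_one hq.1 hy.1 hqy.pos, e]
      rfl
    · rw [← hP]
      show (c.fl ({q} ∪ {y})).Ph = _
      unfold Ph
      rw [PP_ord hS, nS_ord hS]
  have hsad : ∀ b, c.Sad b → c.Ph ≤ (c.fl ({b} ∪ ∅)).Ph := by
    intro b hb
    refine hF {b} ∅ (!(c.s b)) (by simp) (by simp) (by simp [oi_N hb.1]) ?_
    have h2 := hb.2.2.1; have h3 := hb.2.2.2; have h4 := ia0 hI b
    simp only [GV, Finset.sum_singleton, c.diag, Finset.sum_empty, gm]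
    omega
  refine ⟨c, rfl, ⟨hI, he, hU, fun q y K hq hy hqy hK hqK =>
    kap1_of hsm hq hy hqy hK hqK (hsw q y hq hy hqy), fun q y K L hq hy hqy hK hqK hL hyL =>
    kap2_of hsm hq hqy hK hqK hL hyL (hsw q y hq hy hqy), ?_, ?_, hN⟩, by rw [hB]; positivity,
    hF, ?_, ?_⟩
  · intro b x b' hb hbx hx hbb
    by_contra hb'
    have h1 := hsad b hb
    have h4 : (c.fl ({b} ∪ ∅)).PP < c.PP := by
      unfold PP
      refine Finset.sum_lt_sum (fun p _ => PP_term hI hb hbx hx p) ⟨(b, b'), mem_univ _, ?_⟩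
      have hbm : b ∈ ({b} ∪ ∅ : Finset X) := by simp
      have hvm : b' ∉ ({b} ∪ ∅ : Finset X) := by simp [hbb.ne.symm]
      simp only [fl_O, fl_s, fl_w]
      have e1 : ¬ (b ∉ c.O ∧ b' ∉ c.O ∧ (!c.s b) = c.s b') := by rw [hbb.side]; simp
      have e2 : b ∉ c.O ∧ b' ∉ c.O ∧ c.s b = c.s b' := ⟨hb.1, hb', hbb.side⟩
      rw [flip_mem hbm, flip_not_mem hvm, if_neg e1, if_pos e2]
      exact hbb.pos
    have h5 := nS_le (c := c) ({b} ∪ ∅) false
    have h6 : (({b} ∪ ∅ : Finset X) \ c.O).card ≤ 1 := by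
      simpa using card_le_card (sdiff_subset (s := ({b} : Finset X)) (t := c.O))
    unfold Ph at h1
    omega
  · intro b x hb hbx hx
    by_contra hs
    have hs' : c.s b = false := by simpa using hs
    have h1 := hsad b hb
    have h4 : (c.fl ({b} ∪ ∅)).PP ≤ c.PP :=
      Finset.sum_le_sum fun p _ => PP_term hI hb hbx hx p
    have h5 := nS_lt (c := c) (S := {b} ∪ ∅) (p := b) (by simp) hb.1 (by
      have := degS' hb.1 hb.2.1; have := hb.2.2.1; omega) (by simp [hs'])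
    unfold Ph at h1
    omega
  · intro A B hA hB' f1 f2
    have e1 := Dv_two hI hA hB'
    have e2 := bal_two hA hB'
    have e3 := hs0 (flip (A ∪ B) c.s) (mem_univ _)
    have e7 : Dv c.w (flip (A ∪ B) c.s) = Dv N.w (flip (A ∪ B) c.s) := rfl
    have e6 : bal c.O (flip (A ∪ B) c.s) = bal N.O (flip (A ∪ B) c.s) := rfl
    obtain ⟨m, hm⟩ := bal_even (c := c) he
    have e8 : bal N.O (flip (A ∪ B) c.s) = bal c.O c.s - 4 := by
      rw [← e6, e2, f1]; simp [sgn]; ring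
    have e9 := abs_nonneg (bal N.O s1)
    unfold GV at f2
    by_cases h0 : bal c.O c.s = 0
    · exact Or.inl h0
    right
    have h2 : bal c.O c.s = 2 := by
      by_contra h2
      rw [e8, abs_of_nonneg (by omega)] at e3
      omega
    refine ⟨h2, ?_⟩
    have h3 : Dv N.w (flip (A ∪ B) c.s) = Dv N.w s1 := by
      rw [e8, h2] at e3
      norm_num at e3
      omega
    have := hq2 (fun x => !(flip (A ∪ B) c.s x)) ⟨by rw [cD, h3], by rw [cB, e8]; omega⟩
    rw [cP, ← hP] at this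
    exact this
  · intro h0
    have := hq2 (fun x => !(c.s x)) ⟨by rw [cD]; exact hD, by
      rw [cB, ← hB]; show - bal c.O c.s = _; omega⟩
    rw [cP, ← hP] at this
    unfold Ph at this
    exact Nat.le_of_add_le_add_left this

end St

end

end Pool.Agent.Lib.MP_bb98d0_co
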