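import Pool.Agent.Lib.MP_bb98d0_co.M0

/-!
Odd degree, small cases: exchange lemmas for every `t`.
-/

namespace Pool.Agent.Lib.MP_bb98d0_co
open Finset Classical

noncomputable section

variable {X : Type*} [Fintype X]

namespace St

def Poor (c : St X) (p : X) : Prop := p ∉ c.O ∧ c.cr p = 2 ∧ c.sm p = 0
def DU (c : St X) (K : Finset X) : Finset X := univ.filter fun u => c.T u ∧ c.Nc u = K
/-- `y` is joined to `q` and misses the deep atom `u` next to `q` -/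
def Rd (c : St X) (y q u : X) : Prop := c.Dp u ∧ c.C u q ∧ c.C y q ∧ y ≠ u ∧ c.w y u = 0
def Jn (c : St X) (p : X) : Finset X := (c.Nc p).filter fun y => c.T y ∧ c.dT y + 1 = c.t

variable {c : St X}

lemma mem_DU {K : Finset X} {u : X} : u ∈ c.DU K ↔ c.T u ∧ c.Nc u = K := by simp [DU]

lemma OG.C_of (G : c.OG) {x y : X} (hs : c.s x ≠ c.s y) (hw : 0 < c.w x y) : c.C x y :=
  ⟨G.nI x, G.nI y, hs, hw⟩
lemma OG.S_of (G : c.OG) {x y : X} (hs : c.s x = c.s y) (hw : 0 < c.w x y) : c.S x y :=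
  ⟨G.nI x, G.nI y, hs, hw⟩

lemma OG.dp (G : c.OG) {K : Finset X} (hK : c.Comp K) {u : X} (hu : u ∈ c.DU K) : c.Dp u :=
  ⟨(mem_DU.1 hu).1, fun y hy => G.compT hK ((mem_DU.1 hu).2 ▸ mem_Nc.2 hy)⟩

lemma DU_C {K : Finset X} {u q : X} (hu : u ∈ c.DU K) (hq : q ∈ K) : c.C u q :=
  mem_Nc.1 ((mem_DU.1 hu).2 ▸ hq)

lemma Dp.mem {u : X} (hu : c.Dp u) : u ∈ c.DU (c.Nc u) := mem_DU.2 ⟨hu.1, rfl⟩

lemma Dp.canc (G : c.OG) {u q a : X} (hu : c.Dp u) (hq : c.C u q) (hs : c.s a = c.s q)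
    (hne : a ≠ q) : c.w q a = c.w a u := by
  have hK := hu.comp G
  by_cases h : a ∈ c.Nc u
  · have ha := mem_Nc.1 h
    rw [w_one (hu.2 q hq).1 (hu.2 a ha).1 ((hK.2 q (mem_Nc.2 hq)).2.2.2 a h hne.symm).pos,
      w_one (hu.2 a ha).1 hu.1.1 ha.symm.pos]
  · have h1 : c.w q a = 0 := by
      by_contra hn
      exact h (hK.mem_of_S (mem_Nc.2 hq) (G.S_of hs.symm (Nat.pos_of_ne_zero hn)))
    have h2 : c.w a u = 0 := by
      by_contra hn
      exact h (mem_Nc.2 (G.C_of (by rw [hs]; exact hq.side.symm) (Nat.pos_of_ne_zero hn)).symm)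
    rw [h1, h2]

lemma OG.gm1 (G : c.OG) {y : X} (hO : y ∈ c.O) {j : ℕ} (hy : c.cr y = c.t + j) :
    c.gm y = 2 * j + 1 := by
  have := G.deg hO; rw [G.gm_eq]; omega

lemma Poor.gm (G : c.OG) {p : X} (hp : c.Poor p) : c.gm p = 2 := by
  rw [G.gm_eq, hp.2.1, hp.2.2]; rfl

lemma Poor.w0 (G : c.OG) {p y : X} (hp : c.Poor p) (hs : c.s p = c.s y) : c.w y p = 0 := by
  by_contra hn
  have := w_le_sm (G.S_of hs.symm (Nat.pos_of_ne_zero hn)).symm
  have := hp.2.2; have := c.symm y p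
  omega

lemma OG.w_T (G : c.OG) {p q : X} (hp : c.gm p ≤ 2) (hq : c.T q) (h : c.C p q) : c.w p q = 1 := by
  have := G.U11 h.side; have := G.gmT hq; have := h.pos
  omega

lemma Poor.pay (G : c.OG) {p : X} (hp : c.Poor p) : c.Pay p :=
  ⟨G.nI p, fun h => absurd h hp.1, fun _ => hp.2.1.ge⟩

lemma Poor.mu (G : c.OG) {p : X} (hp : c.Poor p) : c.mu p ≠ 0 := by
  have := G.degS hp.1; have := hp.2.1; omega

lemma Poor.nb (G : c.OG) {p y : X} (hp : c.Poor p) (h : 0 < c.w p y) : c.C p y := by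
  refine G.C_of (fun hs => ?_) h
  have := hp.w0 G hs; have := c.symm y p
  omega

lemma OH.lemP (G : c.OH) {q y p : X} (hq : c.T q) (hy : c.T y) (h1 : c.C q y) (hp : c.Poor p)
    (h2 : c.C q p) (hs : c.s p = false) (h3 : ∀ x, c.C p x → x ∈ c.O) : False := by
  have hne : y ≠ p := fun e => hp.1 (e ▸ hy.1)
  have sy : c.s y = false := (h1.same h2).trans hs
  have h4 := G.tie {q} {y, p} false (by simp [← hs, h2.side]) (by simp [hs, sy])
    (by simp [Finset.sum_pair hne, oi_O hq.1, oi_O hy.1, oi_N hp.1]) (by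
      have := G.w_T (hp.gm G.toOG).le hq h2.symm
      simp only [GV, Finset.sum_pair hne, Finset.sum_singleton, c.diag, G.gmT hq, G.gmT hy,
        hp.gm G.toOG, c.symm p y, hp.w0 G.toOG (hs.trans sy.symm), w_one hq.1 hy.1 h1.pos,
        c.symm q p, this]
      rfl)
  have hm : ∀ x ∈ ({q} ∪ {y, p} : Finset X), x ∉ c.O → x = p := by
    intro x hx hO
    simp only [mem_union, mem_insert, mem_singleton] at hx
    rcases hx with rfl | rfl | rfl
    exacts [absurd hq.1 hO, absurd hy.1 hO, rfl]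
  have h5 := PP_same (c := c) (S := {q} ∪ {y, p}) fun x hx hO z hz => by
    rw [hm x hx hO] at hz
    exact h3 z (hp.nb G.toOG hz)
  have h6 := nS_lt (c := c) (S := {q} ∪ {y, p}) (p := p) (by simp) hp.1 (hp.mu G.toOG)
    fun x hx hO => by rw [hm x hx hO]; exact hs
  unfold Ph at h4
  omega

lemma OG.poor_sad (G : c.OG) {p b q : X} (hp : c.Poor p) (hb : c.Sad b) (hq : c.T q)
    (h1 : c.C p b) (h2 : c.C p q) : c.S q b := by
  have hne : b ≠ q := fun e => hb.1 (e ▸ hq.1)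
  have := G.UL [b, q] [p] (c.s p) (by simp [hne]) (by simp) (by simp [h1.side.symm, h2.side.symm])
    (by simp) (by simp [oi_O hq.1, oi_N hb.1, oi_N hp.1]) (by simp [oi_O hq.1, oi_N hb.1, oi_N hp.1])
  simp only [GW, pr, List.map_cons, List.map_nil, List.sum_cons, List.sum_nil, G.gmT hq, G.gmS hb,
    hp.gm G] at this
  have := h1.symm.pos; have := h2.symm.pos; have := c.symm q b
  exact h2.toS h1 (by omega)

namespace Rd
variable {y q u : X}

lemma T (h : c.Rd y q u) : c.T q := h.1.2 q h.2.1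
lemma su (h : c.Rd y q u) : c.s u = c.s y := h.2.1.symm.same h.2.2.1.symm
lemma cn (G : c.OG) (h : c.Rd y q u) {a : X} (ha : c.C y a) (hne : a ≠ q) : c.w q a = c.w a u :=
  h.1.canc G h.2.1 (ha.same h.2.2.1) hne

lemma adj (G : c.OG) (h : c.Rd y q u) (hO : y ∈ c.O) (hy : c.cr y = c.t + 1) {a b : X}
    (ha : c.T a) (hb : c.T b) (ca : c.C y a) (cb : c.C y b) (n1 : a ≠ q) (n2 : b ≠ q)
    (n3 : a ≠ b) : c.S a b := by
  have := G.UL [q, a, b] [y, u] (c.s y) (by simp [n1.symm, n2.symm, n3]) (by simp [h.2.2.2.1])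
    (by simp [ca.side.symm, cb.side.symm, h.2.2.1.side.symm]) (by simp [h.su])
    (by simp [oi_O hO, oi_O ha.1, oi_O hb.1, oi_O h.T.1, oi_O h.1.1.1])
    (by simp [oi_O hO, oi_O ha.1, oi_O hb.1, oi_O h.T.1, oi_O h.1.1.1])
  simp only [GW, pr, List.map_cons, List.map_nil, List.sum_cons, List.sum_nil, G.gmT ha, G.gmT hb,
    G.gmT h.T, G.gmT h.1.1, G.gm1 hO hy, h.2.2.2.2, h.cn G ca n1, h.cn G cb n2] at this
  have := ca.symm.pos; have := cb.symm.pos; have := h.2.2.1.symm.pos; have := h.2.1.symm.pos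
  exact ca.toS cb (by omega)

lemma nopt (G : c.OG) (h : c.Rd y q u) (hO : y ∈ c.O) (hy : c.cr y = c.t + 1) {a b p : X}
    (ha : c.T a) (hb : c.T b) (ca : c.C y a) (cb : c.C y b) (n1 : a ≠ q) (n2 : b ≠ q)
    (n3 : a ≠ b) (hp : c.Poor p) (pa : c.C p a) (pb : c.C p b) : False := by
  have sp : c.s p = c.s y := pa.symm.same ca.symm
  have m1 : y ≠ p := fun e => hp.1 (e ▸ hO)
  have m2 : u ≠ p := fun e => hp.1 (e ▸ h.1.1.1)
  have := G.UL [q, a, b] [y, u, p] (c.s y) (by simp [n1.symm, n2.symm, n3])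
    (by simp [h.2.2.2.1, m1, m2])
    (by simp [ca.side.symm, cb.side.symm, h.2.2.1.side.symm]) (by simp [h.su, sp])
    (by simp [oi_O hO, oi_O ha.1, oi_O hb.1, oi_O h.T.1, oi_O h.1.1.1, oi_N hp.1])
    (by simp [oi_O hO, oi_O ha.1, oi_O hb.1, oi_O h.T.1, oi_O h.1.1.1, oi_N hp.1])
  simp only [GW, pr, List.map_cons, List.map_nil, List.sum_cons, List.sum_nil, G.gmT ha, G.gmT hb,
    G.gmT h.T, G.gmT h.1.1, G.gm1 hO hy, h.2.2.2.2, h.cn G ca n1, h.cn G cb n2, hp.gm G,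
    hp.w0 G sp, hp.w0 G (sp.trans h.su.symm)] at this
  have := ca.symm.pos; have := cb.symm.pos; have := h.2.2.1.symm.pos; have := h.2.1.symm.pos
  have := pa.symm.pos; have := pb.symm.pos; have := c.simple a ha.1 b hb.1
  omega

lemma nosad (G : c.OG) (h : c.Rd y q u) (hO : y ∈ c.O) (hy : c.cr y = c.t + 1) {b : X}
    (hb : c.Sad b) (cb : c.C y b) : False := by
  have n2 : b ≠ q := fun e => hb.1 (e ▸ h.T.1)
  have := G.UL [q, b] [y, u] (c.s y) (by simp [n2.symm]) (by simp [h.2.2.2.1])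
    (by simp [cb.side.symm, h.2.2.1.side.symm]) (by simp [h.su])
    (by simp [oi_O hO, oi_N hb.1, oi_O h.T.1, oi_O h.1.1.1])
    (by simp [oi_O hO, oi_N hb.1, oi_O h.T.1, oi_O h.1.1.1])
  simp only [GW, pr, List.map_cons, List.map_nil, List.sum_cons, List.sum_nil, G.gmS hb,
    G.gmT h.T, G.gmT h.1.1, G.gm1 hO hy, h.2.2.2.2, h.cn G cb n2] at this
  have := cb.symm.pos; have := h.2.2.1.symm.pos; have := h.2.1.symm.pos
  omega

lemma sup (G : c.OG) (h : c.Rd y q u) (hO : y ∉ c.O) (hy : c.gm y ≤ 2) {a : X}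
    (ha : c.T a) (ca : c.C y a) : a = q := by
  by_contra n1
  have := G.UL [q, a] [y, u] (c.s y) (by simp [Ne.symm n1]) (by simp [h.2.2.2.1])
    (by simp [ca.side.symm, h.2.2.1.side.symm]) (by simp [h.su])
    (by simp [oi_N hO, oi_O ha.1, oi_O h.T.1, oi_O h.1.1.1])
    (by simp [oi_N hO, oi_O ha.1, oi_O h.T.1, oi_O h.1.1.1])
  simp only [GW, pr, List.map_cons, List.map_nil, List.sum_cons, List.sum_nil, G.gmT ha,
    G.gmT h.T, G.gmT h.1.1, h.2.2.2.2, h.cn G ca n1] at this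
  have := ca.symm.pos; have := h.2.2.1.symm.pos; have := h.2.1.symm.pos
  omega

end Rd

/-- a pair of red links that can be used at the same time -/
def Val (c : St X) (y q u q' u' : X) : Prop :=
  c.Rd y q u ∧ c.Rd y q' u' ∧ q ≠ q' ∧ u ≠ u' ∧ c.w q q' + c.w u u' ≤ c.w q u' + c.w q' u

lemma Val.adj (G : c.OG) {y q u q' u' : X} (h : c.Val y q u q' u') (hO : y ∈ c.O)
    (hy : c.cr y = c.t + 2) {a b : X} (ha : c.T a) (hb : c.T b) (ca : c.C y a) (cb : c.C y b)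
    (n1 : a ≠ q) (n2 : b ≠ q) (n3 : a ≠ q') (n4 : b ≠ q') (n5 : a ≠ b) : c.S a b := by
  obtain ⟨h, h', m1, m2, m3⟩ := h
  have := G.UL [q, q', a, b] [y, u, u'] (c.s y)
    (by simp [n1.symm, n2.symm, n3.symm, n4.symm, n5, m1]) (by simp [h.2.2.2.1, h'.2.2.2.1, m2])
    (by simp [ca.side.symm, cb.side.symm, h.2.2.1.side.symm, h'.2.2.1.side.symm])
    (by simp [h.su, h'.su])
    (by simp [oi_O hO, oi_O ha.1, oi_O hb.1, oi_O h.T.1, oi_O h.1.1.1, oi_O h'.T.1, oi_O h'.1.1.1])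
    (by simp [oi_O hO, oi_O ha.1, oi_O hb.1, oi_O h.T.1, oi_O h.1.1.1, oi_O h'.T.1, oi_O h'.1.1.1])
  simp only [GW, pr, List.map_cons, List.map_nil, List.sum_cons, List.sum_nil, G.gmT ha, G.gmT hb,
    G.gmT h.T, G.gmT h.1.1, G.gmT h'.T, G.gmT h'.1.1, G.gm1 hO hy, h.2.2.2.2, h'.2.2.2.2,
    h.cn G ca n1, h.cn G cb n2, h'.cn G ca n3, h'.cn G cb n4] at this
  have := ca.symm.pos; have := cb.symm.pos; have := h.2.2.1.symm.pos; have := h.2.1.symm.pos
  have := h'.2.2.1.symm.pos; have := h'.2.1.symm.pos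
  exact ca.toS cb (by omega)

lemma Val.nosad (G : c.OG) {y q u q' u' : X} (h : c.Val y q u q' u') (hO : y ∈ c.O)
    (hy : c.cr y = c.t + 2) {b : X} (hb : c.Sad b) (cb : c.C y b) : False := by
  obtain ⟨h, h', m1, m2, m3⟩ := h
  have n2 : b ≠ q := fun e => hb.1 (e ▸ h.T.1)
  have n4 : b ≠ q' := fun e => hb.1 (e ▸ h'.T.1)
  have := G.UL [q, q', b] [y, u, u'] (c.s y)
    (by simp [n2.symm, n4.symm, m1]) (by simp [h.2.2.2.1, h'.2.2.2.1, m2])
    (by simp [cb.side.symm, h.2.2.1.side.symm, h'.2.2.1.side.symm])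
    (by simp [h.su, h'.su])
    (by simp [oi_O hO, oi_N hb.1, oi_O h.T.1, oi_O h.1.1.1, oi_O h'.T.1, oi_O h'.1.1.1])
    (by simp [oi_O hO, oi_N hb.1, oi_O h.T.1, oi_O h.1.1.1, oi_O h'.T.1, oi_O h'.1.1.1])
  simp only [GW, pr, List.map_cons, List.map_nil, List.sum_cons, List.sum_nil, G.gmS hb,
    G.gmT h.T, G.gmT h.1.1, G.gmT h'.T, G.gmT h'.1.1, G.gm1 hO hy, h.2.2.2.2, h'.2.2.2.2,
    h.cn G cb n2, h'.cn G cb n4] at this
  have := cb.symm.pos; have := h.2.2.1.symm.pos; have := h.2.1.symm.pos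
  have := h'.2.2.1.symm.pos; have := h'.2.1.symm.pos
  omega

lemma DU_sub {K : Finset X} (hK : c.Comp K) : c.DU K ⊆ c.RK K := fun u hu => by
  obtain ⟨q, hq⟩ := card_pos.1 (by have := hK.1; have := c.ht; omega : 0 < K.card)
  exact mem_RK.2 ⟨(mem_DU.1 hu).1, q, hq, (DU_C hu hq).symm⟩

lemma OG.R_le (G : c.OG) {K : Finset X} (hK : c.Comp K) {u : X} (hu : u ∈ c.DU K) :
    (c.RK K).card ≤ c.t := by
  have := (G.dp hK hu).R_le G
  rwa [(mem_DU.1 hu).2] at this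

lemma OG.twu (G : c.OG) {K W : Finset X} (hK : c.Comp K) {u q0 : X} (hu : u ∈ c.DU K)
    (hW : ∀ q ∈ W, q ∈ K ∧ ∀ y, c.C q y → y ∈ c.O ∧ ∀ v ∈ c.DU K, y ≠ v → 0 < c.w y v)
    (h0 : q0 ∈ W) : W.card + (c.DU K).card + 1 ≤ c.t := by
  have hN : ∀ w ∈ W, ∀ v ∈ c.DU K, c.Nc w = insert v (c.Ns v) := by
    intro w hw v hv
    have hwT := G.compT hK (hW w hw).1
    refine eq_of_subset_of_card_le (fun x hx => ?_) ?_
    · rw [mem_Nc] at hx
      by_cases e : x = v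
      · rw [e]; exact mem_insert_self _ _
      exact mem_insert_of_mem (mem_Ns.2
        (hx.toS (DU_C hv (hW w hw).1).symm (((hW w hw).2 x hx).2 v hv e)).symm)
    · rw [card_Nc_ord hwT.1 fun x hx => ((hW w hw).2 x (mem_Nc.1 hx)).1, hwT.2.2.1]
      exact (mem_DU.1 hv).1.ins_le
  exact G.TW (K := K) (L := c.Nc q0) (A := W) (B := c.DU K) (z0 := q0)
    (fun z hz => ⟨(hK.eq_insert (hW z hz).1).symm, by rw [hN z hz u hu, hN q0 h0 u hu]⟩)
    (fun z hz => ⟨(hN q0 h0 z hz).symm, (mem_DU.1 hz).2⟩)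
    (fun x hx => (hK.2 x hx).1) (fun x hx => ((hW q0 h0).2 x (mem_Nc.1 hx)).1) h0

lemma OG.tw0 (G : c.OG) {K L : Finset X} (hK : c.Comp K) (hL : L ⊆ c.O)
    (h : ∀ q ∈ K, c.Nc q = L) : False := by
  obtain ⟨q, hq⟩ := card_pos.1 (by have := hK.1; have := c.ht; omega : 0 < K.card)
  have := G.TW (K := K) (L := L) (A := K) (B := ∅) (z0 := q)
    (fun z hz => ⟨(hK.eq_insert hz).symm, h z hz⟩) (by simp) (fun x hx => (hK.2 x hx).1) hL hq
  have := hK.1
  omega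

lemma OG.ds_le (G : c.OG) {K : Finset X} (hK : c.Comp K) : (c.DU K).card + 1 ≤ c.t := by
  by_contra hn
  refine G.tw0 hK (L := c.DU K) (fun x hx => (mem_DU.1 hx).1.1) fun q hq => ?_
  exact St.Nc_eq (fun u hu => mem_Nc.2 (DU_C hu hq).symm)
    (by have := (G.compT hK hq).2.2.1; omega)

lemma OG.alpha (G : c.OG) {K : Finset X} (hK : c.Comp K) {u z : X} (hu : u ∈ c.DU K)
    (hz : z ∈ c.RK K) (hn : z ∉ c.DU K) (h2 : 2 ≤ c.dT z) :
    c.dT z + (c.DU K).card + 1 ≤ c.t := by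
  unfold dT at h2 ⊢
  rw [G.TR hK hz] at h2 ⊢
  obtain ⟨q0, h0⟩ := card_pos.1 (by omega : 0 < (K.filter fun q => c.C z q).card)
  refine G.twu hK hu (fun q hq => ?_) h0
  obtain ⟨q2, hq2, hne⟩ := exists_mem_ne (by omega : 1 < (K.filter fun q => c.C z q).card) q
  rw [mem_filter] at hq hq2
  have hN := (G.bigy hK hq.1 (OK.T hz) hq.2.symm hq2.1 hne hq2.2
    fun e => hn (mem_DU.2 ⟨OK.T hz, e⟩)).1
  refine ⟨hq.1, fun y hy => ?_⟩
  by_cases e : y = z
  · rw [e]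
    exact ⟨(OK.T hz).1, fun v hv hne => (G.L2 (G.compT hK hq.1) (OK.T hz) (mem_DU.1 hv).1
      hq.2.symm (DU_C hv hq.1).symm hne).pos⟩
  · exact ⟨(hN y hy e).1, fun v hv hne =>
      (hN y hy e).2.2 v (DU_C hv hq.1).symm (fun e => hn (e ▸ hv)) hne⟩

lemma OG.jcl (G : c.OG) {p y y' : X} (hO : p ∈ c.O) (hp : c.cr p = c.t + 1) (hy : y ∈ c.Jn p)
    (hy' : y' ∈ c.Jn p) (hne : y ≠ y') : c.S y y' := by
  simp only [Jn, mem_filter, mem_Nc] at hy hy'
  obtain ⟨cy, ty, dy⟩ := hy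
  obtain ⟨cy', ty', dy'⟩ := hy'
  refine cy.toS cy' (Nat.pos_of_ne_zero fun w0 => ?_)
  have hd := G.deg hO
  have ht := c.ht
  have nz : ∀ z, c.T z → c.C y z → c.C y' z → False := fun z hz h1 h2 => by
    have := (G.L2 hz ty ty' h1.symm h2.symm hne).pos; omega
  have key : ∀ z ∈ ((c.Nc y).filter c.T).filter (fun z => ¬ 0 < c.w p z),
      ∀ z' ∈ ((c.Nc y').filter c.T).filter (fun z => ¬ 0 < c.w p z), c.S z z' := by
    intro z hz z' hz'
    simp only [mem_filter, mem_Nc] at hz hz'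
    obtain ⟨⟨cz, tz⟩, wz⟩ := hz
    obtain ⟨⟨cz', tz'⟩, wz'⟩ := hz'
    have n1 : p ≠ z := fun e => by have := tz.2.2.1; rw [← e] at this; omega
    have n2 : p ≠ z' := fun e => by have := tz'.2.2.1; rw [← e] at this; omega
    have n3 : z ≠ z' := fun e => nz z tz cz (e ▸ cz')
    have sy : c.s y' = c.s y := cy'.same cy
    have := G.UL [p, z, z'] [y, y'] (c.s y) (by simp [n1, n2, n3]) (by simp [hne])
      (by simp [cy.side, cz.side.symm, ← sy, cz'.side.symm, sy ▸ cz.side.symm, cy'.side])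
      (by simp [sy])
      (by simp [oi_O hO, oi_O ty.1, oi_O ty'.1, oi_O tz.1, oi_O tz'.1])
      (by simp [oi_O hO, oi_O ty.1, oi_O ty'.1, oi_O tz.1, oi_O tz'.1])
    simp only [GW, pr, List.map_cons, List.map_nil, List.sum_cons, List.sum_nil, G.gmT ty,
      G.gmT ty', G.gmT tz, G.gmT tz', G.gm1 hO hp, w0] at this
    have := cy.pos; have := cy'.pos; have := cz.symm.pos; have := cz'.symm.pos
    exact G.S_of ((cz.same cy.symm).trans (cy'.symm.same cz')) (by omega)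
  have near : ∀ v, c.C p v → ((c.Nc v).filter c.T).filter (fun z => 0 < c.w p z) ⊆ c.Ns p := by
    intro v hv z hz
    simp only [mem_filter, mem_Nc] at hz
    exact mem_Ns.2 (hv.symm.toS hz.1.1 hz.2)
  have a1 := card_le_sm (Finset.union_subset (near y cy) (near y' cy'))
  rw [card_union_of_disjoint (Finset.disjoint_left.2 fun z h1 h2 => by
    simp only [mem_filter, mem_Nc] at h1 h2
    exact nz z h1.1.2 h1.1.1 h2.1.1)] at a1
  have s1 := Finset.card_filter_add_card_filter_not (s := (c.Nc y).filter c.T)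
    fun z => 0 < c.w p z
  have s2 := Finset.card_filter_add_card_filter_not (s := (c.Nc y').filter c.T)
    fun z => 0 < c.w p z
  have one : ∀ v z (N : Finset X), c.T v → c.dT v + 1 = c.t → z ∈ (c.Nc v).filter c.T →
      (∀ x ∈ N, c.S z x ∧ ¬ c.C v x) → N.card ≤ 1 := by
    intro v z N tv dv hz hN
    have hz' := mem_filter.1 hz
    have b1 : N ∪ ((c.Nc v).filter c.T).erase z ⊆ c.Ns z := by
      intro x hx
      rcases mem_union.1 hx with hx | hx
      · exact mem_Ns.2 (hN x hx).1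
      · rw [mem_erase, mem_filter, mem_Nc] at hx
        exact mem_Ns.2 (G.L2 tv hz'.2 hx.2.2 (mem_Nc.1 hz'.1) hx.2.1 hx.1.symm)
    have b2 := card_le_sm b1
    rw [card_union_of_disjoint (Finset.disjoint_left.2 fun x h1 h2 =>
      (hN x h1).2 (mem_Nc.1 (mem_filter.1 (mem_of_mem_erase h2)).1))] at b2
    have := card_erase_add_one hz; have := hz'.2.2.2.2
    unfold dT at dv
    omega
  unfold dT at dy dy'
  obtain ⟨z, hz⟩ := card_pos.1
    (show 0 < (((c.Nc y).filter c.T).filter fun z => ¬ 0 < c.w p z).card by omega)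
  obtain ⟨z', hz'⟩ := card_pos.1
    (show 0 < (((c.Nc y').filter c.T).filter fun z => ¬ 0 < c.w p z).card by omega)
  have b1 := one y z _ ty dy (mem_filter.1 hz).1 fun x hx => ⟨key z hz x hx, fun h => by
    simp only [mem_filter, mem_Nc] at hx
    exact nz x hx.1.2 h hx.1.1⟩
  have b2 := one y' z' _ ty' dy' (mem_filter.1 hz').1 fun x hx => ⟨(key x hx z' hz').symm,
    fun h => by
      simp only [mem_filter, mem_Nc] at hx
      exact nz x hx.1.2 hx.1.1 h⟩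
  omega

lemma clq_le {A : Finset X} (hT : ∀ x ∈ A, c.T x) (h : ∀ x ∈ A, ∀ y ∈ A, x ≠ y → c.S x y) :
    A.card ≤ c.t := by
  rcases A.eq_empty_or_nonempty with e | ⟨x, hx⟩
  · simp [e]
  have := card_le_sm (c := c) (x := x) (A := A.erase x) fun y hy => by
    rw [mem_erase] at hy
    exact mem_Ns.2 (h x hx y hy.2 hy.1.symm)
  have := card_erase_add_one hx; have := (hT x hx).2.2.2
  omega

lemma clq_comp {A : Finset X} (hT : ∀ x ∈ A, c.T x) (h : ∀ x ∈ A, ∀ y ∈ A, x ≠ y → c.S x y)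
    (hc : c.t ≤ A.card) : c.Comp A :=
  ⟨le_antisymm (clq_le hT h) hc, fun x hx => ⟨(hT x hx).1, (hT x hx).2.1, (hT x hx).2.2.2, h x hx⟩⟩

/-- a tight atom outside all components whose only tight neighbour across the cut is `y` -/
def Gd (c : St X) (z : X) : Prop :=
  c.T z ∧ c.dT z = 1 ∧ (∀ x, c.C z x → x ∈ c.O) ∧ ∀ L, c.Comp L → z ∉ L

lemma OG.fj (G : c.OG) {p y : X} (hO : p ∈ c.O) (hp : c.cr p = c.t + 1)
    (hJ : c.t ≤ (c.Jn p).card) (hy : y ∈ c.Jn p) : ∃ z, c.C y z ∧ c.Gd z := by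
  have hm : ∀ v ∈ c.Jn p, c.C p v ∧ c.T v ∧ c.dT v + 1 = c.t := fun v hv => by
    simpa only [Jn, mem_filter, mem_Nc] using hv
  have hK : c.Comp (c.Jn p) := clq_comp (fun x hx => (hm x hx).2.1)
    (fun x hx v hv hne => G.jcl hO hp hx hv hne) hJ
  obtain ⟨cy, ty, dy⟩ := hm y hy
  have hd := G.deg hO
  have ht := c.ht
  obtain ⟨z', hz', w0⟩ : ∃ z' ∈ (c.Nc y).filter c.T, c.w p z' = 0 := by
    by_contra hn
    push Not at hn
    have := card_le_sm (c := c) (x := p) (A := (c.Nc y).filter c.T) fun z hz =>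
      mem_Ns.2 (cy.symm.toS (mem_Nc.1 (mem_filter.1 hz).1) (Nat.pos_of_ne_zero (hn z hz)))
    unfold dT at dy
    omega
  by_contra hn
  push Not at hn
  have hdp : ((c.Nc y).filter c.T).erase z' ⊆ c.DU (c.Jn p) := by
    intro z hz
    rw [mem_erase, mem_filter, mem_Nc] at hz
    obtain ⟨n1, cz, tz⟩ := hz
    have pT : ∀ x, c.T x → p ≠ x := fun x hx e => by have := hx.2.2.1; rw [← e] at this; omega
    have h1 : ¬ c.New y z := fun h => by
      have := (h p cy.symm (pT z tz)).2.2 z' (mem_Nc.1 (mem_filter.1 hz').1) n1.symm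
        (pT z' (mem_filter.1 hz').2)
      omega
    have h2 := (G.kap1 y z _ ty tz cz hK hy).resolve_left h1
    have h3 : ∀ x, c.C z x → x ∈ c.O := fun x hx => by
      by_cases e : x = y
      exacts [e ▸ ty.1, (h2 x hx e).1]
    refine mem_DU.2 ⟨tz, ?_⟩
    by_cases h4 : ∃ x, c.C z x ∧ x ≠ y ∧ 0 < c.w x y
    · obtain ⟨x, h5, h6, h7⟩ := h4
      have h8 := hK.mem_of_S hy (h5.toS cz.symm h7).symm
      refine eq_of_subset_of_card_le (fun v hv => ?_) ?_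
      · rw [mem_Nc] at hv
        by_cases e : v = y
        · exact e ▸ hy
        by_cases e2 : x = v
        · exact e2 ▸ h8
        exact hK.mem_of_S h8 (h5.toS hv ((h2 x h5 h6).2.2 v hv e e2))
      · rw [card_Nc_ord tz.1 fun x hx => h3 x (mem_Nc.1 hx), hK.1, tz.2.2.1]
    · push Not at h4
      refine (hn z cz ⟨tz, ?_, h3, fun L hL hzL => h1 (G.kap2 y z _ L ty tz cz hK hy hL hzL)⟩).elim
      refine card_eq_one.2 ⟨y, eq_singleton_iff_unique_mem.2 ⟨by simp [cz.symm, ty], ?_⟩⟩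
      intro x hx
      rw [mem_filter, mem_Nc] at hx
      by_contra e
      have := (h2 x hx.1 e).2.1; have := h4 x hx.1 e; have := hx.2.2.2.2
      omega
  have b1 := card_le_card hdp
  have b2 := card_erase_add_one hz'
  have b3 := G.ds_le hK
  unfold dT at dy
  obtain ⟨u, hu⟩ := card_pos.1 (by omega : 0 < (c.DU (c.Jn p)).card)
  have b4 := G.R_le hK hu
  have b5 := G.sum_dT hK
  rw [Finset.sum_congr rfl (g := fun _ => c.t - 1) fun v hv => by have := (hm v hv).2.2; omega,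
    ← Finset.sum_sdiff (DU_sub hK), Finset.sum_congr (s₁ := c.DU (c.Jn p)) rfl (g := fun _ => c.t)
    fun v hv => (G.full_R hK (DU_sub hK hv)).2 (mem_DU.1 hv).2] at b5
  simp only [Finset.sum_const, smul_eq_mul, hK.1] at b5
  have b6 := card_sdiff_add_card_eq_card (DU_sub hK)
  have b7 : ∑ v ∈ c.RK (c.Jn p) \ c.DU (c.Jn p), c.dT v = (c.RK (c.Jn p) \ c.DU (c.Jn p)).card := by
    rw [Finset.card_eq_sum_ones]
    refine Finset.sum_congr rfl fun v hv => ?_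
    rw [mem_sdiff] at hv
    have := G.alpha hK hu hv.1 hv.2
    obtain ⟨-, q, hq, hc⟩ := mem_RK.1 hv.1
    have : 0 < c.dT v := card_pos.2 ⟨q, by simp [hc.symm, G.compT hK hq]⟩
    omega
  rw [b7] at b5
  obtain ⟨d, hd⟩ : ∃ d, c.t = d + 3 := ⟨c.t - 3, by omega⟩
  by_cases e : (c.DU (c.Jn p)).card + 1 = c.t
  · have e2 : (c.DU (c.Jn p)).card = c.t - 1 := by omega
    rw [e2, mul_comm] at b5
    have e3 : c.DU (c.Jn p) = c.RK (c.Jn p) := eq_of_subset_of_card_le (DU_sub hK) (by omega)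
    have hOK : c.OK (c.Jn p) := ⟨hK, by omega, fun q hq z hz => (DU_C (e3 ▸ hz) hq).symm⟩
    have := G.L5 hO hp
    have : (c.Jn p).card ≤ c.dO p := card_le_card fun v hv =>
      mem_filter.2 ⟨mem_Nc.2 (hm v hv).1, _, hOK, hv⟩
    omega
  · have e2 : (c.DU (c.Jn p)).card = d + 1 := by omega
    rw [e2, hd] at b5
    have e3 : d + 3 - 1 = d + 2 := by omega
    rw [e3] at b5
    nlinarith

end St

end

end Pool.Agent.Lib.MP_bb98d0_co
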