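import Pool.Agent.Lib.MP_bb98d0_co.M1

/-!
Odd degree, small cases: bookkeeping of transfers, deep neighbours, valid pairs.
-/

namespace Pool.Agent.Lib.MP_bb98d0_co
open Finset Classical

noncomputable section

variable {X : Type*} [Fintype X]

namespace St

def net (c : St X) (r : X → X → ℚ) (x : X) : ℚ := ∑ y ∈ c.Nc x, (c.w x y : ℚ) * (r y x - r x y)
def np (c : St X) (x : X) : ℕ := ∑ y ∈ (c.Nc x).filter c.Pay, c.w x y
def nt (c : St X) (x : X) : ℕ := ∑ y ∈ (c.Nc x).filter c.T, c.w x y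
def DN (c : St X) (q : X) : Finset X := (c.Nc q).filter c.Dp
def KK (c : St X) (q : X) : Finset X := insert q (c.Ns q)

variable {c : St X}

lemma sum_net (r : X → X → ℚ) : ∑ x, c.net r x = 0 := by
  unfold net
  simp only [mul_sub, Finset.sum_sub_distrib]
  rw [sum_C_comm, sub_eq_zero]
  exact Finset.sum_congr rfl fun x _ => Finset.sum_congr rfl fun y _ => by rw [c.symm]

lemma OG.split3 (G : c.OG) {M : Type*} [AddCommMonoid M] (x : X) (f : X → M) :
    ∑ y ∈ c.Nc x, f y = ∑ y ∈ (c.Nc x).filter c.T, f y + ∑ y ∈ (c.Nc x).filter c.Sad, f y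
      + ∑ y ∈ (c.Nc x).filter c.Pay, f y := by
  simp only [Finset.sum_filter, ← Finset.sum_add_distrib]
  refine Finset.sum_congr rfl fun y hy => ?_
  rcases G.cls (mem_Nc.1 hy) with h | h | h
  · rw [if_pos h, if_neg h.not_sad, if_neg h.low.not_pay, add_zero, add_zero]
  · rw [if_neg fun h' : c.T y => h'.not_sad h, if_pos h, if_neg h.low.not_pay, add_zero, zero_add]
  · rw [if_neg fun h' : c.T y => h'.low.not_pay h, if_neg fun h' : c.Sad y => h'.low.not_pay h,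
      if_pos h, add_zero, zero_add]

lemma OG.cr_split (G : c.OG) (x : X) : c.cr x = c.nt x + c.dS x + c.np x := by
  unfold cr nt np dS
  rw [G.split3, Finset.card_eq_sum_ones]
  congr 2
  exact Finset.sum_congr rfl fun y hy => by
    rw [mem_filter, mem_Nc] at hy
    exact OG.sad_w hy.2 hy.1

lemma nt_O {x : X} (hO : x ∈ c.O) : c.nt x = c.dT x := by
  unfold nt dT
  rw [Finset.card_eq_sum_ones]
  exact Finset.sum_congr rfl fun y hy => by
    rw [mem_filter, mem_Nc] at hy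
    exact w_one hO hy.2.1 hy.1.pos

lemma OG.dS_T (G : c.OG) {x : X} (hx : c.T x) : c.dS x = 0 := by
  have := G.L3 hx.1; have := hx.2.2.1; omega

lemma OG.np_T (G : c.OG) {x : X} (hx : c.T x) : c.dT x + c.np x = c.t := by
  have := G.cr_split x; have := nt_O hx.1; have := G.dS_T hx; have := hx.2.2.1; omega

/-- lower bound for the balance of an atom from bounds on each kind of link -/
lemma OG.net_ge (G : c.OG) {r : X → X → ℚ} {x : X} {f : X → ℚ} {a b : ℚ}
    (h1 : ∀ y, c.C x y → c.T y → f y ≤ r y x - r x y)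
    (h2 : ∀ y, c.C x y → c.Sad y → a ≤ r y x - r x y)
    (h3 : ∀ y, c.C x y → c.Pay y → b ≤ r y x - r x y) :
    ∑ y ∈ (c.Nc x).filter c.T, (c.w x y : ℚ) * f y + a * c.dS x + b * c.np x ≤ c.net r x := by
  unfold net np dS
  rw [G.split3, Finset.card_eq_sum_ones]
  push_cast
  rw [Finset.mul_sum, Finset.mul_sum]
  refine add_le_add (add_le_add (Finset.sum_le_sum fun y hy => ?_)
    (Finset.sum_le_sum fun y hy => ?_)) (Finset.sum_le_sum fun y hy => ?_) <;>
    rw [mem_filter, mem_Nc] at hy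
  · exact mul_le_mul_of_nonneg_left (h1 y hy.1 hy.2) (Nat.cast_nonneg _)
  · rw [OG.sad_w hy.2 hy.1]; simpa using h2 y hy.1 hy.2
  · rw [mul_comm]; exact mul_le_mul_of_nonneg_left (h3 y hy.1 hy.2) (Nat.cast_nonneg _)

lemma sum_nt (x : X) (ρ : ℚ) : ∑ y ∈ (c.Nc x).filter c.T, (c.w x y : ℚ) * ρ = ρ * c.nt x := by
  unfold nt; push_cast; rw [← Finset.sum_mul, mul_comm]

lemma sum_wO {x : X} (hO : x ∈ c.O) (f : X → ℚ) :
    ∑ y ∈ (c.Nc x).filter c.T, (c.w x y : ℚ) * f y = ∑ y ∈ (c.Nc x).filter c.T, f y :=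
  Finset.sum_congr rfl fun y hy => by
    rw [mem_filter, mem_Nc] at hy
    rw [w_one hO hy.2.1 hy.1.pos]; simp

/-- the part of the balance of a tight atom that comes from paying atoms -/
lemma OG.net_T (G : c.OG) {r : X → X → ℚ} {x : X} (hx : c.T x) :
    c.net r x = ∑ y ∈ (c.Nc x).filter c.T, (r y x - r x y)
      + ∑ y ∈ (c.Nc x).filter c.Pay, (c.w x y : ℚ) * (r y x - r x y) := by
  unfold net
  rw [G.split3, sum_wO hx.1, card_eq_zero.1 (G.dS_T hx), Finset.sum_empty, add_zero]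

lemma pay_ge {x : X} {f : X → ℚ} {b : ℚ} (h : ∀ y, c.C x y → c.Pay y → b ≤ f y) :
    b * c.np x ≤ ∑ y ∈ (c.Nc x).filter c.Pay, (c.w x y : ℚ) * f y := by
  unfold np
  push_cast
  rw [Finset.mul_sum]
  refine Finset.sum_le_sum fun y hy => ?_
  rw [mem_filter, mem_Nc] at hy
  rw [mul_comm]; exact mul_le_mul_of_nonneg_left (h y hy.1 hy.2) (Nat.cast_nonneg _)

lemma pay_ge2 {x y0 : X} {f : X → ℚ} {b ρ : ℚ} (h : ∀ y, c.C x y → c.Pay y → b ≤ f y)
    (h0 : c.C x y0) (h1 : c.Pay y0) (h2 : ρ ≤ f y0) :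
    b * c.np x + (ρ - b) ≤ ∑ y ∈ (c.Nc x).filter c.Pay, (c.w x y : ℚ) * f y := by
  have hm : y0 ∈ (c.Nc x).filter c.Pay := by simp [h0, h1]
  have a1 : b * c.np x = ∑ y ∈ (c.Nc x).filter c.Pay, (c.w x y : ℚ) * b := by
    unfold np; push_cast; rw [← Finset.sum_mul, mul_comm]
  have a2 := Finset.single_le_sum (f := fun y => (c.w x y : ℚ) * (f y - b))
    (s := (c.Nc x).filter c.Pay) (fun y hy => by
      rw [mem_filter, mem_Nc] at hy
      exact mul_nonneg (Nat.cast_nonneg _) (sub_nonneg.2 (h y hy.1 hy.2))) hm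
  have a3 : (1 : ℚ) ≤ c.w x y0 := by exact_mod_cast h0.pos
  have a4 := h y0 h0 h1
  simp only [mul_sub, Finset.sum_sub_distrib] at a2
  nlinarith

omit [Fintype X] in
lemma sum_le_one {A : Finset X} {f : X → ℚ} {q : X} {a b : ℚ} (hq : q ∈ A) (h1 : f q ≤ a)
    (h2 : ∀ x ∈ A, x ≠ q → f x ≤ b) : ∑ x ∈ A, f x ≤ a + b * (A.card - 1) := by
  rw [← Finset.add_sum_erase _ _ hq]
  have := Finset.sum_le_card_nsmul (A.erase q) f b fun x hx =>
    h2 x (mem_of_mem_erase hx) (ne_of_mem_erase hx)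
  have e : ((A.erase q).card : ℚ) = A.card - 1 := by
    rw [← card_erase_add_one hq]; push_cast; ring
  rw [nsmul_eq_mul, e] at this
  linarith

omit [Fintype X] in
lemma sum_le_all {A : Finset X} {f : X → ℚ} {b : ℚ} (h2 : ∀ x ∈ A, f x ≤ b) :
    ∑ x ∈ A, f x ≤ b * A.card := by
  have := Finset.sum_le_card_nsmul A f b h2
  rwa [nsmul_eq_mul, mul_comm] at this

omit [Fintype X] in
lemma sum_le_two {A : Finset X} {f : X → ℚ} {q q' : X} {a a' b : ℚ} (hq : q ∈ A) (hq' : q' ∈ A)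
    (hne : q' ≠ q) (h1 : f q ≤ a) (h1' : f q' ≤ a')
    (h2 : ∀ x ∈ A, x ≠ q → x ≠ q' → f x ≤ b) : ∑ x ∈ A, f x ≤ a + a' + b * (A.card - 2) := by
  rw [← Finset.add_sum_erase _ _ hq]
  have := sum_le_one (A := A.erase q) (f := f) (mem_erase.2 ⟨hne, hq'⟩) h1' fun x hx h =>
    h2 x (mem_of_mem_erase hx) (ne_of_mem_erase hx) h
  have e : ((A.erase q).card : ℚ) = A.card - 1 := by
    rw [← card_erase_add_one hq]; push_cast; ring
  rw [e] at this
  linarith

lemma mem_DN {q u : X} : u ∈ c.DN q ↔ c.C q u ∧ c.Dp u := by simp [DN]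

lemma OG.DN_eq (G : c.OG) {K : Finset X} (hK : c.Comp K) {q : X} (hq : q ∈ K) :
    c.DN q = c.DU K := by
  ext u
  rw [mem_DN]
  exact ⟨fun h => mem_DU.2 ⟨h.2.1, (h.2.comp G).unique hK (mem_Nc.2 h.1.symm) hq⟩,
    fun h => ⟨(DU_C h hq).symm, G.dp hK h⟩⟩

lemma Comp.KK {K : Finset X} (hK : c.Comp K) {q : X} (hq : q ∈ K) : c.KK q = K :=
  (hK.eq_insert hq).symm

lemma mem_KK (q : X) : q ∈ c.KK q := mem_insert_self _ _

lemma OG.comp_KK (G : c.OG) {q u : X} (hu : u ∈ c.DN q) : c.Comp (c.KK q) := by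
  rw [mem_DN] at hu
  rw [(hu.2.comp G).KK (mem_Nc.2 hu.1.symm)]
  exact hu.2.comp G

lemma OG.comp_pos (G : c.OG) {q : X} (h : 0 < (c.DN q).card) : c.Comp (c.KK q) := by
  obtain ⟨u, hu⟩ := card_pos.1 h
  exact G.comp_KK hu

lemma OG.R_eq (G : c.OG) {K : Finset X} (hK : c.Comp K) (h : (c.DU K).card + 1 = c.t) :
    c.RK K = c.DU K := by
  refine Subset.antisymm (fun z hz => ?_) (DU_sub hK)
  by_contra hn
  obtain ⟨tz, q, hq, hc⟩ := mem_RK.1 hz
  have ht := c.ht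
  obtain ⟨u, hu⟩ := card_pos.1 (by omega : 0 < (c.DU K).card)
  have tq := G.compT hK hq
  have e : c.Nc q = insert z (c.DU K) := St.Nc_eq (fun y hy => by
    rcases mem_insert.1 hy with rfl | hy
    exacts [mem_Nc.2 hc, mem_Nc.2 (DU_C hy hq).symm])
    (by rw [card_insert_of_notMem hn, tq.2.2.1]; omega)
  have := G.twu (W := {q}) hK hu (fun x hx => by
    rw [mem_singleton.1 hx]
    refine ⟨hq, fun y hy => ?_⟩
    have ty : c.T y := by
      rcases mem_insert.1 (e ▸ mem_Nc.2 hy) with rfl | h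
      exacts [tz, (mem_DU.1 h).1]
    exact ⟨ty.1, fun v hv hne => (G.L2 tq ty (mem_DU.1 hv).1 hy (DU_C hv hq).symm hne).pos⟩)
    (mem_singleton_self q)
  rw [card_singleton] at this
  omega

lemma OG.ok_of (G : c.OG) {K : Finset X} (hK : c.Comp K) (h : (c.DU K).card + 1 = c.t) :
    c.OK K :=
  ⟨hK, by rw [G.R_eq hK h, h], fun q hq z hz => (DU_C (G.R_eq hK h ▸ hz) hq).symm⟩

lemma OG.ot_of (G : c.OG) {q : X} (h : (c.DN q).card + 1 = c.t) : c.OT q := by
  have hK := G.comp_pos (q := q) (by have := c.ht; omega)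
  exact ⟨_, G.ok_of hK (by rw [← G.DN_eq hK (mem_KK q), h]), mem_KK q⟩

lemma OG.rd_of (G : c.OG) {y q u : X} (hy : ¬ c.T y) (hc : c.C y q) (hu : u ∈ c.DN q)
    (h0 : c.w y u = 0) : c.Rd y q u :=
  have _ := G
  ⟨(mem_DN.1 hu).2, (mem_DN.1 hu).1.symm, hc, fun e => hy (e ▸ (mem_DN.1 hu).2.1), h0⟩

lemma miss {y q : X} (hc : c.C y q) :
    (c.DN q).card ≤ c.sm y + ((c.DN q).filter fun u => c.w y u = 0).card := by
  have a1 := card_le_sm (c := c) (x := y) (A := (c.DN q).filter fun u => ¬ c.w y u = 0)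
    fun u hu => by
      rw [mem_filter, mem_DN] at hu
      exact mem_Ns.2 (hc.symm.toS hu.1.1 (Nat.pos_of_ne_zero hu.2))
  have := Finset.card_filter_add_card_filter_not (s := c.DN q) fun u => c.w y u = 0
  omega

lemma Rd.mem {y q u : X} (h : c.Rd y q u) : u ∈ c.DN q := mem_DN.2 ⟨h.2.1.symm, h.1⟩
lemma Rd.comp (G : c.OG) {y q u : X} (h : c.Rd y q u) : c.Comp (c.KK q) := G.comp_KK h.mem
lemma Rd.Nc (G : c.OG) {y q u : X} (h : c.Rd y q u) : c.Nc u = c.KK q :=
  ((h.1.comp G).KK (mem_Nc.2 h.2.1)).symm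

lemma val_diff (G : c.OG) {y q u q' u' : X} (h : c.Rd y q u) (h' : c.Rd y q' u')
    (hn : q' ∉ c.KK q) (h0 : c.w u u' = 0) : c.Val y q u q' u' := by
  refine ⟨h, h', fun e => hn (e ▸ mem_KK q), fun e => hn ?_, ?_⟩
  · rw [← h.Nc G, e]; exact mem_Nc.2 h'.2.1
  · have : c.w q q' = 0 := by
      by_contra h1
      exact hn (mem_insert_of_mem (mem_Ns.2 (h.2.2.1.toS h'.2.2.1 (Nat.pos_of_ne_zero h1))))
    omega

lemma val_same (G : c.OG) {y q u q' u' : X} (h : c.Rd y q u) (h' : c.Rd y q' u')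
    (hm : q' ∈ c.KK q) (n1 : q ≠ q') (n2 : u ≠ u') : c.Val y q u q' u' := by
  refine ⟨h, h', n1, n2, ?_⟩
  have e : c.KK q' = c.KK q := (h.comp G).KK hm
  have := c.simple q h.T.1 q' h'.T.1; have := c.simple u h.1.1.1 u' h'.1.1.1
  have := (mem_Nc.1 (show q ∈ c.Nc u' by rw [h'.Nc G, e]; exact mem_KK q)).symm.pos
  have := (mem_Nc.1 (show q' ∈ c.Nc u by rw [h.Nc G]; exact hm)).symm.pos
  omega

/-- a link to a component with `t - 1` deep atoms and a link to another component with two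
missed deep atoms -/
lemma OG.val_O (G : c.OG) {y q q' : X} (hO : y ∈ c.O) (hy : c.cr y = c.t + 2) (hc : c.C y q)
    (hc' : c.C y q') (hne : q ≠ q') (h : (c.DN q).card + 1 = c.t)
    (h' : 2 ≤ ((c.DN q').filter fun u => c.w y u = 0).card) : ∃ u u', c.Val y q u q' u' := by
  have hT : ¬ c.T y := fun h => by have := h.2.2.1; omega
  have hd := G.deg hO
  have a1 := miss hc
  obtain ⟨u, hu⟩ := card_pos.1 (by omega : 0 < ((c.DN q).filter fun u => c.w y u = 0).card)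
  rw [mem_filter] at hu
  have r := G.rd_of hT hc hu.1 hu.2
  by_cases hm : q' ∈ c.KK q
  · obtain ⟨u', hu', n⟩ := exists_mem_ne (by omega :
      1 < ((c.DN q').filter fun u => c.w y u = 0).card) u
    rw [mem_filter] at hu'
    exact ⟨u, u', val_same G r (G.rd_of hT hc' hu'.1 hu'.2) hm hne n.symm⟩
  have hK := r.comp G
  have e := G.DN_eq hK (mem_KK q)
  have hOK := G.ok_of hK (by rw [← e, h])
  by_contra hn
  push Not at hn
  have := hOK.extra G (DU_sub hK (e ▸ hu.1)) (N := (c.DN q').filter fun u => c.w y u = 0)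
    fun v hv => by
      rw [mem_filter] at hv
      have r' := G.rd_of hT hc' hv.1 hv.2
      refine ⟨fun h => hm ?_, G.S_of (r.su.trans r'.su.symm) (Nat.pos_of_ne_zero fun h0 =>
        hn u v (val_diff G r r' hm h0))⟩
      rw [← hOK.Nc_eq h]; exact mem_Nc.2 r'.2.1
  omega

lemma OG.val_OO (G : c.OG) {y q q' : X} (hO : y ∈ c.O) (hy : c.cr y = c.t + 2) (hc : c.C y q)
    (hc' : c.C y q') (hne : q ≠ q') (h : (c.DN q).card + 1 = c.t)
    (h' : (c.DN q').card + 1 = c.t) : ∃ u u', c.Val y q u q' u' :=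
  G.val_O hO hy hc hc' hne h (by have := miss hc'; have := G.deg hO; omega)

/-- an ordinary paying atom is not joined to all of a component with `t - 1` deep atoms -/
lemma OG.notall (G : c.OG) {y : X} {K : Finset X} (hO : y ∈ c.O) (hT : ¬ c.T y) (hK : c.Comp K)
    (h : (c.DU K).card + 1 = c.t) (ha : ∀ q ∈ K, c.C y q) : False := by
  have hn : y ∉ c.DU K := fun h => hT (mem_DU.1 h).1
  refine G.tw0 hK (L := insert y (c.DU K)) (fun x hx => ?_) fun q hq => St.Nc_eq (fun x hx => ?_) ?_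
  · rcases mem_insert.1 hx with rfl | hx
    exacts [hO, (mem_DU.1 hx).1.1]
  · rcases mem_insert.1 hx with rfl | hx
    exacts [mem_Nc.2 (ha q hq).symm, mem_Nc.2 (DU_C hx hq).symm]
  · rw [card_insert_of_notMem hn, (G.compT hK hq).2.2.1]; omega

/-- summation over the groups of the deep atoms on the small side -/
lemma OG.sum_groups (G : c.OG) (F : X → ℚ)
    (h1 : ∀ u, c.Dp u → c.s u = false → 0 ≤ ∑ x ∈ c.GG u, F x)
    (h2 : ∀ x, (∀ u, c.Dp u → c.s u = false → x ∉ c.GG u) → 0 ≤ F x) : 0 ≤ ∑ x, F x := by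
  rw [← Finset.sum_add_sum_compl
    (((univ.filter fun u => c.Dp u ∧ c.s u = false).image c.GG).biUnion id)]
  refine add_nonneg ?_ (Finset.sum_nonneg fun x hx => h2 x fun u hu hs hm => ?_)
  · rw [Finset.sum_biUnion]
    · refine Finset.sum_nonneg fun Γ hΓ => ?_
      obtain ⟨v, hv, rfl⟩ := mem_image.1 hΓ
      exact h1 v (mem_filter.1 hv).2.1 (mem_filter.1 hv).2.2
    · intro A hA B hB hne
      obtain ⟨v, hv, rfl⟩ := mem_image.1 (mem_coe.1 hA)
      obtain ⟨w, hw, rfl⟩ := mem_image.1 (mem_coe.1 hB)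
      exact Finset.disjoint_left.2 fun x h1 h2 =>
        hne ((mem_filter.1 hv).2.1.GG_eq G (mem_filter.1 hw).2.1 h1 h2)
  · exact mem_compl.1 hx (mem_biUnion.2 ⟨c.GG u, mem_image.2 ⟨u, by simp [hu, hs], rfl⟩, hm⟩)

lemma C.sY {x y : X} (h : c.C x y) (hs : c.s x = true) : c.s y = false := by
  have := h.side; revert this; rw [hs]; cases c.s y <;> simp
lemma C.sX {x y : X} (h : c.C x y) (hs : c.s x = false) : c.s y = true := by
  have := h.side; revert this; rw [hs]; cases c.s y <;> simp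

end St

end

end Pool.Agent.Lib.MP_bb98d0_co
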