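import Pool.Agent.Lib.MP_bb98d0_co.M2

/-!
Degrees 7, 9, 11: rates and the atoms that pay.
-/

namespace Pool.Agent.Lib.MP_bb98d0_co
open Finset Classical

noncomputable section

variable {X : Type*} [Fintype X]

def et (t : ℕ) : ℚ := if t = 4 then 3 / 16 else if t = 5 then 11 / 25 else 3 / 5
def r2 (t : ℕ) : ℚ := if t = 4 then 23 / 20 else 7 / 5
def r1 (t : ℕ) : ℚ := if t = 4 then 49 / 48 else if t = 5 then 21 / 25 else 19 / 25
def r0 (t : ℕ) : ℚ := if t = 4 then 13 / 16 else r1 t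
def xJ (t : ℕ) : ℚ := if t = 4 then 23 / 16 else 2 - et t
def rO (t : ℕ) : ℚ := 2 - 2 / t
def pP (t : ℕ) : ℚ := 3 * (t + 1) / 2 + 1 / t
def pQ (t : ℕ) : ℚ := 3 * (t - 1) / 2 - 1 / t

def Mid (t : ℕ) : Prop := t = 4 ∨ t = 5 ∨ t = 6

lemma Mid.num {t : ℕ} (h : Mid t) :
    (t = 4 ∧ (t : ℚ) = 4 ∧ et t = 3 / 16 ∧ r2 t = 23 / 20 ∧ r1 t = 49 / 48 ∧ r0 t = 13 / 16 ∧
      xJ t = 23 / 16 ∧ rO t = 3 / 2 ∧ pP t = 31 / 4 ∧ pQ t = 17 / 4) ∨
    (t = 5 ∧ (t : ℚ) = 5 ∧ et t = 11 / 25 ∧ r2 t = 7 / 5 ∧ r1 t = 21 / 25 ∧ r0 t = 21 / 25 ∧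
      xJ t = 39 / 25 ∧ rO t = 8 / 5 ∧ pP t = 46 / 5 ∧ pQ t = 29 / 5) ∨
    (t = 6 ∧ (t : ℚ) = 6 ∧ et t = 3 / 5 ∧ r2 t = 7 / 5 ∧ r1 t = 19 / 25 ∧ r0 t = 19 / 25 ∧
      xJ t = 7 / 5 ∧ rO t = 5 / 3 ∧ pP t = 32 / 3 ∧ pQ t = 22 / 3) := by
  rcases h with rfl | rfl | rfl <;> norm_num [et, r2, r1, r0, xJ, rO, pP, pQ]

lemma Mid.ord {t : ℕ} (h : Mid t) : 0 < et t ∧ et t ≤ r0 t ∧ r0 t ≤ r1 t ∧ r1 t ≤ rO t ∧
    et t ≤ pQ t - t ∧ pQ t - t ≤ rO t ∧ 1 ≤ r2 t ∧ r2 t ≤ xJ t ∧ xJ t ≤ 2 - et t ∧ 2 ≤ pP t - t ∧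
    pP t + pQ t = 3 * t ∧ 2 ≤ xJ t + et t * (t - 1) := by
  rcases h with rfl | rfl | rfl <;> norm_num [et, r2, r1, r0, xJ, rO, pP, pQ]

namespace St

def Red (c : St X) (p q : X) : Prop := p ∉ c.O ∨ ∃ u ∈ c.DN q, c.w p u = 0
def All (c : St X) (p q : X) : Prop := p ∈ c.O ∧ ∀ x ∈ c.KK q, c.C p x

def yr (c : St X) (p q : X) : ℚ :=
  if (c.DN q).card + 1 = c.t then rO c.t
  else if (c.DN q).card + 2 = c.t ∧ c.Red p q then (if c.All p q then r0 c.t else r1 c.t)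
  else et c.t

def xr (c : St X) (p y : X) : ℚ :=
  if p ∉ c.O then pP c.t - c.t
  else if c.T y ∧ c.dT y + 1 = c.t then
    (if c.OT y then 2 else if c.cr p = c.t + 1 ∧ c.t ≤ (c.Jn p).card then xJ c.t else 2 - et c.t)
  else r2 c.t

def ru (c : St X) (p q : X) : ℚ :=
  if c.Pay p then (if c.s p = true then c.xr p q else if c.Sad q then pQ c.t - c.t
    else if c.T q then c.yr p q else 0)
  else if c.s p = true ∧ c.T p ∧ c.T q ∧ c.DN p = ∅ then et c.t * (c.t - c.dT p) / c.dT p else 0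

def BS (c : St X) (x : X) : ℚ := c.BO x + (sgn (c.s x) : ℚ) * c.cr x / c.t
def Fu (c : St X) (x : X) : ℚ := c.BS x + c.net c.ru x

variable {c : St X}

lemma sum_Fu : ∑ x, c.Fu x = ∑ x, c.BO x := by
  unfold Fu BS
  simp only [Finset.sum_add_distrib, ← Finset.sum_div, sum_net, sum_sgn_cr]
  simp

lemma BS_XO {x : X} (hO : x ∈ c.O) (hs : c.s x = true) : c.BS x = pP c.t * (c.cr x - c.t) := by
  have := c.t3
  simp only [BS, BO, if_pos hO, hs, AA, sgn, pP, if_true]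
  push_cast; field_simp; ring

lemma BS_YO {x : X} (hO : x ∈ c.O) (hs : c.s x = false) :
    c.BS x = pQ c.t * (c.cr x - c.t) - 2 := by
  have := c.t3
  simp only [BS, BO, if_pos hO, hs, AA, sgn, pQ, Bool.false_eq_true, if_false]
  push_cast; field_simp; ring

lemma BS_XS {x : X} (hO : x ∉ c.O) (h : c.mu x ≠ 0) (hs : c.s x = true) :
    c.BS x = pP c.t * c.cr x - 2 * c.t := by
  simp only [BS, BO, if_neg hO, if_neg h, hs, AA, sgn, pP, if_true]
  push_cast; ring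

lemma BS_YS {x : X} (hO : x ∉ c.O) (h : c.mu x ≠ 0) (hs : c.s x = false) :
    c.BS x = pQ c.t * c.cr x - 2 * c.t := by
  simp only [BS, BO, if_neg hO, if_neg h, hs, AA, sgn, pQ, Bool.false_eq_true, if_false]
  push_cast; ring

lemma yr_bd (h : Mid c.t) (p q : X) : et c.t ≤ c.yr p q ∧ c.yr p q ≤ rO c.t := by
  have := h.ord
  unfold yr
  split_ifs <;> constructor <;> linarith

lemma yr_1 (h : Mid c.t) {p q : X} (h1 : (c.DN q).card + 1 ≠ c.t) : c.yr p q ≤ r1 c.t := by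
  have := h.ord
  unfold yr
  rw [if_neg h1]
  split_ifs <;> linarith

lemma yr_0 (h : Mid c.t) {p q : X} (h1 : (c.DN q).card + 1 ≠ c.t)
    (h2 : c.All p q ∨ ¬ ((c.DN q).card + 2 = c.t ∧ c.Red p q)) : c.yr p q ≤ r0 c.t := by
  have := h.ord
  unfold yr
  rw [if_neg h1]
  split_ifs with a b
  exacts [le_rfl, (h2.elim b fun h => h a).elim, by linarith]

lemma xr_bd (h : Mid c.t) (p q : X) : r2 c.t ≤ c.xr p q := by
  have := h.ord
  unfold xr
  split_ifs <;> linarith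

lemma ru_nonneg (h : Mid c.t) (p q : X) : 0 ≤ c.ru p q := by
  have := h.ord; have := yr_bd h p q; have := xr_bd h p q
  unfold ru
  split_ifs with a b d e f
  any_goals linarith
  have : (c.dT p : ℚ) ≤ c.t := by
    have := dT_le (c := c) p; have := f.2.1.2.2.1
    exact_mod_cast (by omega : c.dT p ≤ c.t)
  exact div_nonneg (mul_nonneg (by linarith) (by linarith)) (Nat.cast_nonneg _)

lemma ru_X {p q : X} (hp : c.Pay p) (hs : c.s p = true) : c.ru p q = c.xr p q := by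
  rw [ru, if_pos hp, if_pos hs]
lemma ru_YT {p q : X} (hp : c.Pay p) (hs : c.s p = false) (hq : c.T q) : c.ru p q = c.yr p q := by
  rw [ru, if_pos hp, if_neg (by simp [hs]), if_neg hq.not_sad, if_pos hq]
lemma ru_YS {p q : X} (hp : c.Pay p) (hs : c.s p = false) (hq : c.Sad q) :
    c.ru p q = pQ c.t - c.t := by
  rw [ru, if_pos hp, if_neg (by simp [hs]), if_pos hq]
lemma ru_YP {p q : X} (hp : c.Pay p) (hs : c.s p = false) (hq : c.Pay q) : c.ru p q = 0 := by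
  rw [ru, if_pos hp, if_neg (by simp [hs]), if_neg fun h : c.Sad q => h.low.not_pay hq,
    if_neg fun h : c.T q => h.low.not_pay hq]
lemma ru_N {p q : X} (hp : c.Low p) (h : ¬ (c.s p = true ∧ c.T p ∧ c.T q ∧ c.DN p = ∅)) :
    c.ru p q = 0 := by
  rw [ru, if_neg hp.not_pay, if_neg h]

lemma OG.netY (G : c.OG) (h : Mid c.t) {y : X} (hp : c.Pay y) (hs : c.s y = false) :
    r2 c.t * c.np y - (pQ c.t - c.t) * c.dS y
      - ∑ q ∈ (c.Nc y).filter c.T, (c.w y q : ℚ) * c.yr y q ≤ c.net c.ru y := by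
  have := G.net_ge (r := c.ru) (x := y) (f := fun q => - c.yr y q) (a := -(pQ c.t - c.t))
    (b := r2 c.t)
    (fun q _ hq => by rw [ru_YT hp hs hq]; have := ru_nonneg h q y; linarith)
    (fun q _ hq => by rw [ru_YS hp hs hq]; have := ru_nonneg h q y; linarith)
    (fun q hc hq => by rw [ru_YP hp hs hq, ru_X hq (hc.sX hs), sub_zero]; exact xr_bd h q y)
  simp only [mul_neg, Finset.sum_neg_distrib] at this
  linarith

lemma OG.Fu_X (G : c.OG) (h : Mid c.t) {p : X} (hp : c.Pay p) (hs : c.s p = true) :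
    0 ≤ c.Fu p := by
  have o := h.ord
  have a1 : - ∑ q ∈ c.Nc p, (c.w p q : ℚ) * c.xr p q ≤ c.net c.ru p := by
    rw [← Finset.sum_neg_distrib]
    refine Finset.sum_le_sum fun q _ => ?_
    rw [ru_X hp hs, ← mul_neg]
    exact mul_le_mul_of_nonneg_left (by have := ru_nonneg h q p; linarith) (Nat.cast_nonneg _)
  unfold Fu
  by_cases hO : p ∈ c.O
  swap
  · have a2 : (2 : ℚ) ≤ c.cr p := by exact_mod_cast hp.2.2 hO
    have := G.degS hO; have := hp.2.2 hO; have := c.t3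
    simp only [xr, if_pos hO, ← Finset.sum_mul, ← cr_cast] at a1
    rw [BS_XS hO (by omega) hs]
    nlinarith
  rw [BS_XO hO hs]
  have a3 := hp.2.1 hO
  by_cases h1 : c.cr p = c.t + 1
  swap
  · have a2 : ∑ q ∈ c.Nc p, (c.w p q : ℚ) * c.xr p q ≤ c.cr p * 2 := by
      rw [cr_cast, Finset.sum_mul]
      refine Finset.sum_le_sum fun q _ => mul_le_mul_of_nonneg_left ?_ (Nat.cast_nonneg _)
      unfold xr
      rw [if_neg (not_not.2 hO)]
      split_ifs <;> linarith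
    have a4 : (c.t : ℚ) + 2 ≤ c.cr p := by exact_mod_cast (by omega : c.t + 2 ≤ c.cr p)
    rcases h.num with e | e | e <;> obtain ⟨-, e1, -, -, -, -, -, -, e2, -⟩ := e <;>
      rw [e1] at a4 ⊢ <;> rw [e2] <;> linarith
  have key : ∀ ρ : ℚ, (∀ q ∈ c.Jn p, c.xr p q ≤ ρ) →
      ∑ q ∈ c.Nc p, (c.w p q : ℚ) * c.xr p q
        ≤ r2 c.t * (c.t + 1) + (ρ - r2 c.t) * (c.Jn p).card := by
    intro ρ hρ
    have e : (c.t : ℚ) + 1 = c.cr p := by rw [h1]; push_cast; rfl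
    unfold Jn
    rw [e, cr_cast, card_filter]
    push_cast
    rw [Finset.mul_sum, Finset.mul_sum, ← Finset.sum_add_distrib]
    refine Finset.sum_le_sum fun q hq => ?_
    by_cases hj : c.T q ∧ c.dT q + 1 = c.t
    · rw [if_pos hj, w_one hO hj.1.1 (mem_Nc.1 hq).pos]
      have := hρ q (mem_filter.2 ⟨hq, hj⟩)
      push_cast; linarith
    · rw [if_neg hj, xr, if_neg (not_not.2 hO), if_neg hj]; linarith
  have hm : ∀ v ∈ c.Jn p, c.C p v ∧ c.T v ∧ c.dT v + 1 = c.t := fun v hv => by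
    simpa only [Jn, mem_filter, mem_Nc] using hv
  have hle := clq_le (fun x hx => (hm x hx).2.1) fun x hx v hv hne => G.jcl hO h1 hx hv hne
  have j0 : (0 : ℚ) ≤ (c.Jn p).card := Nat.cast_nonneg _
  rw [h1]
  push_cast
  by_cases h2 : ∃ v ∈ c.Jn p, c.OT v
  · obtain ⟨v, hv, K, hK, hvK⟩ := h2
    have b1 : (c.Jn p).card ≤ c.dO p := card_le_card fun x hx => by
      refine mem_filter.2 ⟨mem_Nc.2 (hm x hx).1, K, hK, ?_⟩
      by_cases e : v = x
      exacts [e ▸ hvK, hK.1.mem_of_S hvK (G.jcl hO h1 hv hx e)]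
    have b2 : ((c.Jn p).card : ℚ) ≤ 1 := by exact_mod_cast b1.trans (G.L5 hO h1)
    have b3 := key 2 fun q _ => by
      unfold xr
      rw [if_neg (not_not.2 hO)]
      split_ifs <;> linarith
    rcases h.num with e | e | e <;> obtain ⟨-, e1, -, e3, -, -, -, -, e2, -⟩ := e <;>
      rw [e1, e3] at b3 <;> rw [e1, e2] <;> linarith
  push Not at h2
  by_cases h3 : c.t ≤ (c.Jn p).card
  · have b2 : ((c.Jn p).card : ℚ) ≤ c.t := by exact_mod_cast hle
    have b3 := key (xJ c.t) fun q hq => by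
      rw [xr, if_neg (not_not.2 hO), if_pos (hm q hq).2, if_neg (h2 q hq), if_pos ⟨h1, h3⟩]
    rcases h.num with e | e | e <;> obtain ⟨-, e1, -, e3, -, -, e4, -, e2, -⟩ := e <;>
      rw [e1, e3, e4] at b3 <;> rw [e1] at b2 <;> rw [e1, e2] <;> linarith
  · have b2 : ((c.Jn p).card : ℚ) + 1 ≤ c.t := by exact_mod_cast (by omega : (c.Jn p).card + 1 ≤ c.t)
    have b3 := key (2 - et c.t) fun q hq => by
      rw [xr, if_neg (not_not.2 hO), if_pos (hm q hq).2, if_neg (h2 q hq), if_neg fun h => h3 h.2]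
    rcases h.num with e | e | e <;> obtain ⟨-, e1, e4, e3, -, -, -, -, e2, -⟩ := e <;>
      rw [e1, e3, e4] at b3 <;> rw [e1] at b2 <;> rw [e1, e2] <;> linarith

lemma OG.Fu_sad (G : c.OG) (h : Mid c.t) {b : X} (hb : c.Sad b) : 0 ≤ c.Fu b := by
  have o := h.ord
  have hd := G.degS hb.1
  have h1 := hb.2.2.1; have h2 := hb.2.2.2
  have key : ∀ ρ : ℚ, (∀ p, c.C b p → c.Pay p → c.ru p b = ρ) → c.net c.ru b = ρ := by
    intro ρ hρ
    have : c.net c.ru b = ∑ p ∈ c.Nc b, (c.w b p : ℚ) * ρ := by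
      refine Finset.sum_congr rfl fun p hp => ?_
      rw [mem_Nc] at hp
      rcases G.cls hp with hT | hS | hP
      · exact (G.L1T hb hT hp).elim
      · exact (G.L1S hb hS hp).elim
      · rw [hρ p hp hP, ru_N hb.low fun h => h.2.1.not_sad hb, sub_zero]
    rw [this, ← Finset.sum_mul, ← cr_cast, h1]; simp
  unfold Fu
  cases hs : c.s b
  · rw [BS_YS hb.1 (by omega) hs, h1, key (pP c.t - c.t) fun p hc hp => by
      rw [ru_X hp (hc.sX hs), xr, if_pos fun hO => by have := G.sadX b p hb hc hO; simp_all]]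
    push_cast; linarith
  · rw [BS_XS hb.1 (by omega) hs, h1, key _ fun p hc hp => ru_YS hp (hc.sY hs) hb]
    push_cast; linarith

lemma OH.np_poor (G : c.OH) {y q u : X} (hp : c.Poor y) (hs : c.s y = false) (hc : c.C y q)
    (hu : u ∈ c.DN q) : 1 ≤ c.np y := by
  have hK := G.comp_KK hu
  have tq := G.compT hK (mem_KK q)
  by_contra hn
  refine G.lemP tq (mem_DN.1 hu).2.1 (mem_DN.1 hu).1 hp hc.symm hs fun x hx => ?_
  rcases G.cls hx with hT | hS | hP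
  · exact hT.1
  · exact (hK.2 x (hK.mem_of_S (mem_KK q) (G.poor_sad hp hS tq hx hc))).1
  · have := Finset.single_le_sum (f := fun z => c.w y z) (fun _ _ => Nat.zero_le _)
      (show x ∈ (c.Nc y).filter c.Pay by simp [hx, hP])
    have := hx.pos
    unfold np at hn
    omega

lemma OG.poor_of (G : c.OG) {y q : X} (hO : y ∉ c.O) (h2 : c.cr y = 2) (hc : c.C y q)
    (hq : c.T q) : c.Poor y := by
  have := G.U11 hc.side; have := G.gmT hq; have := hc.pos; have := G.gm_eq y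
  have := G.degS hO
  exact ⟨hO, h2, by omega⟩

lemma sum_yr_le {y : X} {ρ : ℚ} (h : ∀ q, c.C y q → c.T q → c.yr y q ≤ ρ) :
    ∑ q ∈ (c.Nc y).filter c.T, (c.w y q : ℚ) * c.yr y q ≤ ρ * c.nt y := by
  rw [← sum_nt]
  refine Finset.sum_le_sum fun q hq => ?_
  rw [mem_filter, mem_Nc] at hq
  exact mul_le_mul_of_nonneg_left (h q hq.1 hq.2) (Nat.cast_nonneg _)

lemma OH.Fu_YS (G : c.OH) (h : Mid c.t) {y : X} (hO : y ∉ c.O) (hp : c.Pay y)
    (hs : c.s y = false) : 0 ≤ c.Fu y := by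
  have a1 := G.netY h hp hs
  have a2 := G.cr_split y
  have a3 := hp.2.2 hO
  have a4 := G.degS hO
  have a5 := sum_yr_le (y := y) fun q _ _ => (yr_bd h y q).2
  have n1 : (0 : ℚ) ≤ c.nt y := Nat.cast_nonneg _
  have n2 : (0 : ℚ) ≤ c.dS y := Nat.cast_nonneg _
  have n3 : (0 : ℚ) ≤ c.np y := Nat.cast_nonneg _
  have a6 : (c.cr y : ℚ) = c.nt y + c.dS y + c.np y := by exact_mod_cast a2
  unfold Fu
  rw [BS_YS hO (by omega) hs]
  by_cases h3 : 3 ≤ c.cr y
  · have : (3 : ℚ) ≤ c.cr y := by exact_mod_cast h3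
    rcases h.num with e | e | e <;> obtain ⟨-, e1, -, e3, -, -, -, e4, -, e2⟩ := e <;>
      rw [e1, e2, e3] at a1 <;> rw [e4] at a5 <;> rw [e1, e2] <;> linarith
  have h2 : (c.cr y : ℚ) = 2 := by exact_mod_cast (by omega : c.cr y = 2)
  by_cases h4 : ∃ q, c.C y q ∧ c.T q ∧ 0 < (c.DN q).card
  · obtain ⟨q, hc, hq, h5⟩ := h4
    obtain ⟨u, hu⟩ := card_pos.1 h5
    have : (1 : ℚ) ≤ c.np y := by
      exact_mod_cast G.np_poor (G.poor_of hO (by omega) hc hq) hs hc hu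
    rcases h.num with e | e | e <;> obtain ⟨-, e1, -, e3, -, -, -, e4, -, e2⟩ := e <;>
      rw [e1, e2, e3] at a1 <;> rw [e4] at a5 <;> rw [e1, e2] <;> linarith
  · push Not at h4
    have a7 := sum_yr_le (y := y) (ρ := et c.t) fun q hc hq => by
      have := h4 q hc hq; have := c.ht
      rw [yr, if_neg (by omega), if_neg fun h => by omega]
    rcases h.num with e | e | e <;> obtain ⟨-, e1, e4, e3, -, -, -, -, -, e2⟩ := e <;>
      rw [e1, e2, e3] at a1 <;> rw [e4] at a7 <;> rw [e1, e2] <;> linarith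

lemma OG.big_rd (G : c.OG) {y q : X} (hO : y ∈ c.O) (h1 : c.t + 1 ≤ c.cr y) (hc : c.C y q)
    (hb : c.yr y q ≠ et c.t) : ∃ u, c.Rd y q u := by
  have hT : ¬ c.T y := fun h => by have := h.2.2.1; omega
  by_cases e : (c.DN q).card + 1 = c.t
  · have := miss hc; have := G.deg hO
    obtain ⟨u, hu⟩ := card_pos.1 (by omega : 0 < ((c.DN q).filter fun u => c.w y u = 0).card)
    exact ⟨u, G.rd_of hT hc (mem_filter.1 hu).1 (mem_filter.1 hu).2⟩
  · rw [yr, if_neg e] at hb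
    have e2 : (c.DN q).card + 2 = c.t ∧ c.Red y q := by
      by_contra hn
      exact hb (if_neg hn)
    obtain ⟨u, hu, h0⟩ := e2.2.resolve_left (not_not.2 hO)
    exact ⟨u, G.rd_of hT hc hu h0⟩

/-- two red links of an atom of surplus one with a third tight neighbour -/
lemma OG.two_rd (G : c.OG) {y q u q' u' : X} (hO : y ∈ c.O) (h1 : c.cr y = c.t + 1)
    (r : c.Rd y q u) (r' : c.Rd y q' u') (hne : q' ≠ q) (h3 : 3 ≤ c.dT y) :
    (c.Nc y).filter c.T ⊆ c.KK q := by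
  have key : ∀ a, c.C y a → c.T a → a ≠ q → a ≠ q' → a ∈ c.KK q ∧ a ∈ c.KK q' :=
    fun a ca ta n1 n2 => ⟨mem_insert_of_mem (mem_Ns.2
      (r'.adj G hO h1 r.T ta r.2.2.1 ca hne.symm n2 n1.symm)), mem_insert_of_mem (mem_Ns.2
      (r.adj G hO h1 r'.T ta r'.2.2.1 ca hne n1 n2.symm))⟩
  obtain ⟨a, ha, n⟩ : ∃ a ∈ (c.Nc y).filter c.T, a ∉ ({q, q'} : Finset X) :=
    exists_mem_notMem_of_card_lt_card (by
      have := card_le_two (a := q) (b := q'); unfold dT at h3; omega)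
  simp only [mem_filter, mem_Nc, mem_insert, mem_singleton, not_or] at ha n
  have e := (r.comp G).unique (r'.comp G) (key a ha.1 ha.2 n.1 n.2).1 (key a ha.1 ha.2 n.1 n.2).2
  intro x hx
  rw [mem_filter, mem_Nc] at hx
  by_cases e1 : x = q
  · exact e1 ▸ mem_KK x
  by_cases e2 : x = q'
  · rw [e, e2]; exact mem_KK q'
  exact (key x hx.1 hx.2 e1 e2).1

lemma OG.Fu_Y1 (G : c.OG) (h : Mid c.t) {y : X} (hO : y ∈ c.O) (h1 : c.cr y = c.t + 1)
    (hs : c.s y = false) : 0 ≤ c.Fu y := by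
  have a1 := G.netY h ⟨G.nI y, fun _ => h1.ge, fun h => absurd hO h⟩ hs
  have a2 := G.cr_split y
  have a3 := G.L3 hO
  rw [sum_wO hO] at a1
  rw [nt_O hO] at a2
  have n1 : (0 : ℚ) ≤ c.dT y := Nat.cast_nonneg _
  have n2 : (0 : ℚ) ≤ c.dS y := Nat.cast_nonneg _
  have n3 : (0 : ℚ) ≤ c.np y := Nat.cast_nonneg _
  have a6 : (c.t : ℚ) + 1 = c.dT y + c.dS y + c.np y := by exact_mod_cast h1 ▸ a2
  have eA : (((c.Nc y).filter c.T).card : ℚ) = c.dT y := rfl
  unfold Fu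
  rw [BS_YO hO hs, h1]
  push_cast
  by_cases b0 : ∀ q ∈ (c.Nc y).filter c.T, c.yr y q = et c.t
  · have b1 := sum_le_all fun q hq => (b0 q hq).le
    have : (c.dS y : ℚ) ≤ 1 := by exact_mod_cast (by omega : c.dS y ≤ 1)
    rw [eA] at b1
    rcases h.num with e | e | e <;> obtain ⟨-, e1, e4, e3, -, -, -, -, -, e2⟩ := e <;>
      rw [e1, e2, e3] at a1 <;> rw [e4] at b1 <;> rw [e1] at a6 <;> rw [e1, e2] <;> linarith
  push Not at b0
  obtain ⟨q, hq, hb⟩ := b0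
  obtain ⟨u, r⟩ := G.big_rd hO h1.ge (mem_Nc.1 (mem_filter.1 hq).1) hb
  have s0 : c.dS y = 0 := card_eq_zero.2 (filter_eq_empty_iff.2 fun b hb hS =>
    r.nosad G hO h1 hS (mem_Nc.1 hb))
  rw [s0] at a1 a2 a6
  push_cast at a1 a6
  by_cases b1 : ∀ x ∈ (c.Nc y).filter c.T, x ≠ q → c.yr y x = et c.t
  · have b2 := sum_le_one hq (yr_bd h y q).2 fun x hx hn => (b1 x hx hn).le
    rw [eA] at b2
    rcases h.num with e | e | e <;> obtain ⟨-, e1, e4, e3, -, -, -, e5, -, e2⟩ := e <;>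
      rw [e3] at a1 <;> rw [e4, e5] at b2 <;> rw [e1] at a6 <;> rw [e1, e2] <;> linarith
  push Not at b1
  obtain ⟨q', hq', hne, hb'⟩ := b1
  obtain ⟨u', r'⟩ := G.big_rd hO h1.ge (mem_Nc.1 (mem_filter.1 hq').1) hb'
  by_cases h3 : 3 ≤ c.dT y
  swap
  · have b2 := sum_le_all (A := (c.Nc y).filter c.T) fun x _ => (yr_bd h y x).2
    have : (c.dT y : ℚ) ≤ 2 := by exact_mod_cast (by omega : c.dT y ≤ 2)
    rw [eA] at b2
    rcases h.num with e | e | e <;> obtain ⟨-, e1, -, e3, -, -, -, e5, -, e2⟩ := e <;>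
      rw [e3] at a1 <;> rw [e5] at b2 <;> rw [e1] at a6 <;> rw [e1, e2] <;> linarith
  have hsub := G.two_rd hO h1 r r' hne h3
  have hK := r.comp G
  have nO : ∀ x ∈ (c.Nc y).filter c.T, (c.DN x).card + 1 ≠ c.t := by
    intro x hx e
    rw [G.DN_eq hK (hsub hx)] at e
    have : c.dT y ≤ c.dO y := card_le_card fun z hz =>
      mem_filter.2 ⟨(mem_filter.1 hz).1, _, G.ok_of hK e, hsub hz⟩
    have := G.L5 hO h1
    omega
  have b3 := (card_le_card hsub).trans hK.1.le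
  by_cases h4 : c.dT y = c.t
  · have e0 := eq_of_subset_of_card_le hsub (by rw [hK.1]; exact h4.ge)
    have b2 := sum_le_all (A := (c.Nc y).filter c.T) fun x hx => yr_0 (p := y) h (nO x hx)
      (Or.inl ⟨hO, fun z hz => by
        rw [hK.KK (hsub hx), ← e0] at hz
        exact mem_Nc.1 (mem_filter.1 hz).1⟩)
    rw [eA, h4] at b2
    rw [h4] at a6
    rcases h.num with e | e | e <;> obtain ⟨-, e1, -, e3, -, e5, -, -, -, e2⟩ := e <;>
      rw [e3] at a1 <;> rw [e5, e1] at b2 <;> rw [e1, e2] <;> linarith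
  · have b2 := sum_le_all (A := (c.Nc y).filter c.T) fun x hx => yr_1 (p := y) h (nO x hx)
    have : (c.dT y : ℚ) + 1 ≤ c.t := by
      exact_mod_cast (by unfold dT at *; omega : c.dT y + 1 ≤ c.t)
    rw [eA] at b2
    rcases h.num with e | e | e <;> obtain ⟨-, e1, -, e3, e5, -, -, -, -, e2⟩ := e <;>
      rw [e3] at a1 <;> rw [e5] at b2 <;> rw [e1] at a6 this <;> rw [e1, e2] <;> linarith

/-- the tight neighbours outside a valid pair form a component -/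
lemma Val.rest (G : c.OG) {y q u q' u' : X} (v : c.Val y q u q' u') (hO : y ∈ c.O)
    (h1 : c.cr y = c.t + 2) (h0 : c.np y = 0) :
    c.dS y = 0 ∧ c.Comp ((((c.Nc y).filter c.T).erase q).erase q') := by
  have s0 : c.dS y = 0 := card_eq_zero.2 (filter_eq_empty_iff.2 fun b hb hS =>
    v.nosad G hO h1 hS (mem_Nc.1 hb))
  have a2 := G.cr_split y
  rw [nt_O hO] at a2
  have m1 : q ∈ (c.Nc y).filter c.T := by simp [v.1.2.2.1, v.1.T]
  have m2 : q' ∈ ((c.Nc y).filter c.T).erase q := by simp [v.2.1.2.2.1, v.2.1.T, v.2.2.1.symm]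
  refine ⟨s0, clq_comp (fun x hx => ?_) (fun a ha b hb hne => ?_) ?_⟩
  · exact (mem_filter.1 (mem_of_mem_erase (mem_of_mem_erase hx))).2
  · simp only [mem_erase, mem_filter, mem_Nc] at ha hb
    exact v.adj G hO h1 ha.2.2.2 hb.2.2.2 ha.2.2.1 hb.2.2.1 ha.2.1 hb.2.1 ha.1 hb.1 hne
  · have := card_erase_add_one m1; have := card_erase_add_one m2
    unfold dT at a2
    omega

lemma OG.Fu_Y2 (G : c.OG) (h : Mid c.t) {y : X} (hO : y ∈ c.O) (h1 : c.cr y = c.t + 2)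
    (hs : c.s y = false) : 0 ≤ c.Fu y := by
  have a1 := G.netY h ⟨G.nI y, fun _ => by omega, fun h => absurd hO h⟩ hs
  have a2 := G.cr_split y
  have hT : ¬ c.T y := fun h => by have := h.2.2.1; omega
  rw [sum_wO hO] at a1
  rw [nt_O hO] at a2
  have n1 : (0 : ℚ) ≤ c.dT y := Nat.cast_nonneg _
  have n2 : (0 : ℚ) ≤ c.dS y := Nat.cast_nonneg _
  have a6 : (c.t : ℚ) + 2 = c.dT y + c.dS y + c.np y := by exact_mod_cast h1 ▸ a2
  have eA : (((c.Nc y).filter c.T).card : ℚ) = c.dT y := rfl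
  unfold Fu
  rw [BS_YO hO hs, h1]
  push_cast
  by_cases h0 : c.np y = 0
  swap
  · have b2 := sum_le_all (A := (c.Nc y).filter c.T) fun x _ => (yr_bd h y x).2
    have : (1 : ℚ) ≤ c.np y := by exact_mod_cast (by omega : 1 ≤ c.np y)
    rw [eA] at b2
    rcases h.num with e | e | e <;> obtain ⟨-, e1, -, e3, -, -, -, e5, -, e2⟩ := e <;>
      rw [e1, e2, e3] at a1 <;> rw [e5] at b2 <;> rw [e1] at a6 <;> rw [e1, e2] <;> linarith
  rw [h0] at a1 a6
  push_cast at a1 a6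
  by_cases hv : ∃ q u q' u', c.Val y q u q' u'
  · obtain ⟨q, u, q', u', v⟩ := hv
    obtain ⟨s0, hK⟩ := v.rest G hO h1 h0
    have ha : ∀ z ∈ (((c.Nc y).filter c.T).erase q).erase q', c.C y z := fun z hz =>
      mem_Nc.1 (mem_filter.1 (mem_of_mem_erase (mem_of_mem_erase hz))).1
    have b2 := sum_le_two (A := (c.Nc y).filter c.T) (q := q) (q' := q')
      (by simp [v.1.2.2.1, v.1.T]) (by simp [v.2.1.2.2.1, v.2.1.T]) v.2.2.1.symm
      (yr_bd h y q).2 (yr_bd h y q').2 fun x hx m1 m2 => by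
        have hxK := mem_erase.2 ⟨m2, mem_erase.2 ⟨m1, hx⟩⟩
        exact yr_0 (p := y) h (fun e => G.notall hO hT hK (by rwa [← G.DN_eq hK hxK]) ha)
          (Or.inl ⟨hO, by rwa [hK.KK hxK]⟩)
    rw [eA] at b2
    rw [s0] at a1 a6
    rcases h.num with e | e | e <;> obtain ⟨-, e1, -, -, -, e4, -, e5, -, e2⟩ := e <;>
      rw [e4, e5] at b2 <;> rw [e1] at a6 <;> rw [e1, e2] <;> push_cast at a1 a6 <;> linarith
  push Not at hv
  by_cases b0 : ∀ q ∈ (c.Nc y).filter c.T, (c.DN q).card + 1 ≠ c.t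
  · have b2 := sum_le_all (A := (c.Nc y).filter c.T) fun x hx => yr_1 (p := y) h (b0 x hx)
    rw [eA] at b2
    rcases h.num with e | e | e <;> obtain ⟨-, e1, -, -, e5, -, -, -, -, e2⟩ := e <;>
      rw [e1, e2] at a1 <;> rw [e5] at b2 <;> rw [e1] at a6 <;> rw [e1, e2] <;> linarith
  push Not at b0
  obtain ⟨q, hq, hb⟩ := b0
  have cq := mem_Nc.1 (mem_filter.1 hq).1
  have nO : ∀ x ∈ (c.Nc y).filter c.T, x ≠ q → (c.DN x).card + 1 ≠ c.t := fun x hx n e => by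
    obtain ⟨u, u', v⟩ := G.val_OO hO h1 cq (mem_Nc.1 (mem_filter.1 hx).1) n.symm hb e
    exact hv _ _ _ _ v
  have b2 := sum_le_one hq (yr_bd h y q).2 fun x hx n => yr_1 (p := y) h (nO x hx n)
  rw [eA] at b2
  by_cases h4 : c.t = 4 ∧ c.dS y = 0
  swap
  · rcases h.num with e | e | e <;> obtain ⟨e0, e1, -, -, e4, -, -, e5, -, e2⟩ := e <;>
      rw [e1, e2] at a1 <;> rw [e4, e5] at b2 <;> rw [e1] at a6 <;> rw [e1, e2]
    · have : (1 : ℚ) ≤ c.dS y := by exact_mod_cast (by omega : 1 ≤ c.dS y)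
      linarith
    · linarith
    · linarith
  obtain ⟨x, hx, n, hr⟩ : ∃ x ∈ (c.Nc y).filter c.T, x ≠ q ∧ c.yr y x ≤ r0 c.t := by
    by_contra hn
    push Not at hn
    have d2 : ∀ x ∈ ((c.Nc y).filter c.T).erase q, (c.DN x).card = 2 ∧
        ∃ v ∈ c.DN x, 0 < c.w y v := by
      intro x hx
      rw [mem_erase] at hx
      have e : (c.DN x).card + 2 = c.t := by
        by_contra e
        exact absurd (yr_0 (p := y) h (nO x hx.2 hx.1) (Or.inr fun h => e h.1))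
          (not_le.2 (hn x hx.2 hx.1))
      refine ⟨by omega, ?_⟩
      by_contra hv2
      push Not at hv2
      obtain ⟨u, u', v⟩ := G.val_O hO h1 cq (mem_Nc.1 (mem_filter.1 hx.2).1) hx.1.symm hb
        (by rw [filter_true_of_mem fun v hv => by have := hv2 v hv; omega]; omega)
      exact hv _ _ _ _ v
    have c1 := card_erase_add_one hq
    unfold dT at a2
    obtain ⟨a, ha⟩ := card_pos.1 (by omega : 0 < (((c.Nc y).filter c.T).erase q).card)
    obtain ⟨-, v, hv1, hv2⟩ := d2 a ha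
    have c2 : ((c.Nc y).filter c.T).erase q ⊆ c.Nc v := fun b hb => by
      obtain ⟨-, v', hv1', hv2'⟩ := d2 b hb
      have sv : ∀ z ∈ ((c.Nc y).filter c.T).erase q, ∀ v ∈ c.DN z, 0 < c.w y v → v ∈ c.Ns y :=
        fun z hz v h1 h2 => mem_Ns.2
          ((mem_Nc.1 (mem_filter.1 (mem_of_mem_erase hz)).1).symm.toS (mem_DN.1 h1).1 h2)
      have := card_le_sm (c := c) (x := y) (Finset.Subset.refl _)
      have := G.deg hO
      rw [card_le_one.1 (by omega) v (sv a ha v hv1 hv2) v' (sv b hb v' hv1' hv2')]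
      exact mem_Nc.2 (mem_DN.1 hv1').1.symm
    have := card_le_cr c2; have := (mem_DN.1 hv1).2.1.2.2.1
    omega
  have b3 := sum_le_two hq hx n (yr_bd h y q).2 hr fun x hx n _ => yr_1 (p := y) h (nO x hx n)
  rw [eA] at b3
  rw [h4.2] at a1 a6
  rcases h.num with e | e | e <;> obtain ⟨e0, e1, -, -, e4, e3, -, e5, -, e2⟩ := e
  · rw [e3, e4, e5] at b3
    rw [e1] at a6
    rw [e1, e2]
    push_cast at a1 a6
    linarith
  · omega
  · omega

lemma OH.Fu_Y (G : c.OH) (h : Mid c.t) {y : X} (hp : c.Pay y) (hs : c.s y = false) :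
    0 ≤ c.Fu y := by
  by_cases hO : y ∈ c.O
  swap
  · exact G.Fu_YS h hO hp hs
  have a0 := hp.2.1 hO
  by_cases h1 : c.cr y = c.t + 1
  · exact G.Fu_Y1 h hO h1 hs
  by_cases h2 : c.cr y = c.t + 2
  · exact G.Fu_Y2 h hO h2 hs
  have a1 := G.netY h hp hs
  have a5 := sum_yr_le (y := y) fun q _ _ => (yr_bd h y q).2
  have n1 : (0 : ℚ) ≤ c.nt y := Nat.cast_nonneg _
  have n2 : (0 : ℚ) ≤ c.dS y := Nat.cast_nonneg _
  have n3 : (0 : ℚ) ≤ c.np y := Nat.cast_nonneg _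
  have a6 : (c.cr y : ℚ) = c.nt y + c.dS y + c.np y := by exact_mod_cast G.cr_split y
  have a7 : (c.t : ℚ) + 3 ≤ c.cr y := by exact_mod_cast (by omega : c.t + 3 ≤ c.cr y)
  unfold Fu
  rw [BS_YO hO hs]
  rcases h.num with e | e | e <;> obtain ⟨-, e1, -, e3, -, -, -, e4, -, e2⟩ := e <;>
    rw [e1, e2, e3] at a1 <;> rw [e4] at a5 <;> rw [e1] at a7 <;> rw [e1, e2] <;> linarith

end St

end

end Pool.Agent.Lib.MP_bb98d0_co
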