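import Pool.Agent.Lib.MP_bb98d0_co.M3

/-!
Degrees 7, 9, 11: tight atoms and groups.
-/

namespace Pool.Agent.Lib.MP_bb98d0_co
open Finset Classical

noncomputable section

variable {X : Type*} [Fintype X]

namespace St

variable {c : St X}

lemma OG.np_cast (G : c.OG) {x : X} (hx : c.T x) : (c.np x : ℚ) = c.t - c.dT x := by
  have : (c.dT x : ℚ) + c.np x = c.t := by exact_mod_cast G.np_T hx
  linarith

lemma BS_TX {x : X} (hx : c.T x) (hs : c.s x = true) : c.BS x = 0 := by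
  rw [BS_XO hx.1 hs, hx.2.2.1]; ring
lemma BS_TY {x : X} (hx : c.T x) (hs : c.s x = false) : c.BS x = -2 := by
  rw [BS_YO hx.1 hs, hx.2.2.1]; ring

lemma ru_TP {x y : X} (hx : c.T x) (hy : c.Pay y) : c.ru x y = 0 :=
  ru_N hx.low fun h => h.2.2.1.low.not_pay hy
lemma ru_TY {x y : X} (hx : c.T x) (hs : c.s x = false) : c.ru x y = 0 :=
  ru_N hx.low fun h => by simp [hs] at h

lemma OG.Fu_TX (G : c.OG) (h : Mid c.t) {q : X} (hq : c.T q) (hs : c.s q = true)
    (h0 : c.DN q = ∅) : 0 ≤ c.Fu q := by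
  unfold Fu
  rw [BS_TX hq hs, G.net_T hq]
  have a1 := pay_ge (x := q) (f := fun y => c.ru y q - c.ru q y) (b := et c.t) fun y hc hy => by
    rw [ru_YT hy (hc.sY hs) hq, ru_TP hq hy, sub_zero]; exact (yr_bd h y q).1
  rw [Finset.sum_congr rfl (g := fun _ => - (et c.t * (c.t - c.dT q) / c.dT q)) fun y hy => by
    rw [mem_filter, mem_Nc] at hy
    rw [ru_TY hy.2 (hy.1.sY hs), ru, if_neg hq.low.not_pay, if_pos ⟨hs, hq, hy.2, h0⟩, zero_sub]]
  rw [Finset.sum_const, nsmul_eq_mul]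
  rw [G.np_cast hq] at a1
  have e : (((c.Nc q).filter c.T).card : ℚ) = c.dT q := rfl
  rw [e]
  by_cases d0 : (c.dT q : ℚ) = 0
  · rw [d0] at a1 ⊢
    have := h.ord.1; have := c.t3
    nlinarith
  · rw [mul_neg, mul_div_cancel₀ _ d0]; linarith

lemma OG.dp_iff (G : c.OG) {z : X} (hz : c.T z) : c.Dp z ↔ c.dT z = c.t := by
  have a := G.np_T hz
  constructor
  · intro h
    have : c.np z = 0 := Finset.sum_eq_zero fun y hy => by
      rw [mem_filter, mem_Nc] at hy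
      exact ((h.2 y hy.1).low.not_pay hy.2).elim
    omega
  · intro h
    have h1 := card_le_cr (c := c) (x := z) (Finset.Subset.refl _)
    have h2 : ((c.Nc z).filter c.T).card = (c.Nc z).card := by
      have := hz.2.2.1
      have := card_filter_le (c.Nc z) c.T
      unfold dT at h
      omega
    exact ⟨hz, fun y hy => Finset.card_filter_eq_iff.1 h2 y (mem_Nc.2 hy)⟩

lemma dT_pos {y z : X} (hc : c.C z y) (hy : c.T y) : 1 ≤ c.dT z :=
  card_pos.2 ⟨y, by simp [hc, hy]⟩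

lemma OG.ex_pay (G : c.OG) {y : X} (hy : c.T y) (h : c.dT y < c.t) : ∃ p, c.C y p ∧ c.Pay p := by
  by_contra hn
  push Not at hn
  have : c.np y = 0 := Finset.sum_eq_zero fun p hp => by
    rw [mem_filter, mem_Nc] at hp
    exact (hn p hp.1 hp.2).elim
  have := G.np_T hy
  omega

/-- the tight neighbours that are not deep have few tight neighbours -/
lemma OG.few (G : c.OG) {y z : X} (hy : c.T y) (hn : (c.DN y).card + 2 ≤ c.t) (hc : c.C y z)
    (hz : c.T z) (hd : ¬ c.Dp z) : c.dT z + (c.DN y).card + 1 ≤ c.t := by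
  have a1 := G.np_T hz
  have a2 := (G.dp_iff hz).not.1 hd
  rcases (c.DN y).eq_empty_or_nonempty with e | ⟨u, hu⟩
  · rw [e, card_empty]; omega
  have hK := G.comp_KK hu
  have e := G.DN_eq hK (mem_KK y)
  have _ := hy
  by_cases h2 : 2 ≤ c.dT z
  · rw [e]
    exact G.alpha hK (e ▸ hu) (mem_RK.2 ⟨hz, y, mem_KK y, hc⟩) (fun h => hd (G.dp hK h)) h2
  · omega

lemma OG.Fu_TY (G : c.OG) (h : Mid c.t) {y : X} (hy : c.T y) (hs : c.s y = false)
    (hd : ¬ c.Dp y) (h0 : ∀ z, c.C y z → c.T z → c.DN z = ∅) : 0 ≤ c.Fu y := by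
  have o := h.ord
  unfold Fu
  rw [BS_TY hy hs, G.net_T hy]
  simp only [ru_TY hy hs, sub_zero]
  have a1 := G.np_T hy
  have a2 := (G.dp_iff hy).not.1 hd
  have a3 : 0 ≤ ∑ z ∈ (c.Nc y).filter c.T, c.ru z y := Finset.sum_nonneg fun z _ => ru_nonneg h z y
  have a4 : ∀ z, c.C y z → c.T z → c.ru z y = et c.t * (c.t - c.dT z) / c.dT z := fun z hc hz => by
    rw [ru, if_neg hz.low.not_pay, if_pos ⟨hc.sX hs, hz, hy, h0 z hc hz⟩]
  have a5 : ∀ p, c.C y p → c.Pay p → r2 c.t ≤ c.ru p y := fun p hc hp => by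
    rw [ru_X hp (hc.sX hs)]; exact xr_bd h p y
  by_cases h1 : c.dT y + 1 = c.t
  swap
  · have := pay_ge a5
    have : (2 : ℚ) ≤ c.np y := by exact_mod_cast (by omega : 2 ≤ c.np y)
    nlinarith
  obtain ⟨p, hc, hp⟩ := G.ex_pay hy (by omega)
  have a6 := pay_ge2 a5 hc hp le_rfl
  rw [(by omega : c.np y = 1), ru_X hp (hc.sX hs), xr] at a6
  push_cast at a6
  split_ifs at a6 with b1 b2 b3 b4
  · linarith
  · obtain ⟨z, hz, tz, dz, -, nz⟩ := G.fj b1 b4.1 b4.2 (mem_filter.2 ⟨mem_Nc.2 hc.symm, b2⟩)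
    have := Finset.single_le_sum (f := fun z => c.ru z y) (s := (c.Nc y).filter c.T)
      (fun z _ => ru_nonneg h z y) (show z ∈ _ by simp [hz, tz])
    simp only [a4 z hz tz, dz] at this
    push_cast at this
    linarith
  · have hsub : c.DN y ⊆ (c.Nc y).filter c.T := fun u hu => by
      simp [(mem_DN.1 hu).1, (mem_DN.1 hu).2.1]
    have c1 := card_sdiff_add_card_eq_card hsub
    have c2 : (c.DN y).card + 1 ≠ c.t := fun e => b3 (G.ot_of e)
    have c3 := card_le_card hsub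
    set m := ((c.Nc y).filter c.T \ c.DN y).card with hm
    have c4 : 0 < m := by unfold dT at h1; omega
    have c5 : (0 : ℚ) < m := by exact_mod_cast c4
    have c6 := Finset.card_nsmul_le_sum ((c.Nc y).filter c.T \ c.DN y) (fun z => c.ru z y)
      (et c.t / m) fun z hz => by
        simp only [mem_sdiff, mem_filter, mem_Nc, mem_DN, not_and] at hz
        have d1 := G.few hy (by unfold dT at h1; omega) hz.1.1 hz.1.2 (hz.2 hz.1.1)
        have d2 : (1 : ℚ) ≤ c.dT z := by exact_mod_cast dT_pos hz.1.1.symm hy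
        have d3 : (c.dT z : ℚ) ≤ m := by
          exact_mod_cast (by unfold dT at h1 d1 ⊢; omega : c.dT z ≤ m)
        have d4 : (c.dT z : ℚ) + 1 ≤ c.t := by exact_mod_cast (by omega : c.dT z + 1 ≤ c.t)
        rw [a4 z hz.1.1 hz.1.2, div_le_div_iff₀ c5 (by linarith)]
        have := mul_le_mul_of_nonneg_left d3 o.1.le
        have := mul_nonneg (mul_nonneg o.1.le c5.le) (by linarith : (0 : ℚ) ≤ c.t - c.dT z - 1)
        nlinarith
    have c7 := Finset.sum_le_sum_of_subset_of_nonneg (f := fun z => c.ru z y)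
      (sdiff_subset (s := (c.Nc y).filter c.T) (t := c.DN y)) fun z _ _ => ru_nonneg h z y
    rw [nsmul_eq_mul, ← hm, mul_div_cancel₀ _ c5.ne'] at c6
    linarith
  · exact (b2 ⟨hy, h1⟩).elim
  · linarith

lemma OG.Fu_K (G : c.OG) {q : X} (hq : c.T q) (hs : c.s q = true) (h0 : c.DN q ≠ ∅) :
    c.Fu q = ∑ y ∈ (c.Nc q).filter c.Pay, (c.w q y : ℚ) * c.yr y q := by
  unfold Fu
  rw [BS_TX hq hs, G.net_T hq, Finset.sum_eq_zero fun y hy => by
    rw [mem_filter, mem_Nc] at hy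
    rw [ru_TY hy.2 (hy.1.sY hs), ru_N hq.low fun h => h0 h.2.2.2, sub_zero]]
  simp only [zero_add]
  refine Finset.sum_congr rfl fun y hy => ?_
  rw [mem_filter, mem_Nc] at hy
  rw [ru_YT hy.2 (hy.1.sY hs) hq, ru_TP hq hy.2, sub_zero]

lemma OG.Fu_R (G : c.OG) (h : Mid c.t) {z : X} (hz : c.T z) (hs : c.s z = false) :
    r2 c.t * (c.t - c.dT z) - 2 ≤ c.Fu z := by
  unfold Fu
  rw [BS_TY hz hs, G.net_T hz]
  simp only [ru_TY hz hs, sub_zero]
  have a3 : 0 ≤ ∑ y ∈ (c.Nc z).filter c.T, c.ru y z := Finset.sum_nonneg fun y _ => ru_nonneg h y z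
  have a5 := pay_ge (x := z) (f := fun p => c.ru p z) fun p hc hp => by
    rw [ru_X hp (hc.sX hs)]; exact xr_bd h p z
  rw [G.np_cast hz] at a5
  linarith

lemma OG.sum_dK (G : c.OG) {K : Finset X} (hK : c.Comp K) :
    ∑ q ∈ K, c.dT q = c.t * (c.DU K).card + ∑ z ∈ c.RK K \ c.DU K, c.dT z := by
  rw [G.sum_dT hK, ← Finset.sum_sdiff (DU_sub hK), Finset.sum_congr (s₁ := c.DU K) rfl
    (g := fun _ => c.t) fun v hv => (G.full_R hK (DU_sub hK hv)).2 (mem_DU.1 hv).2]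
  simp [mul_comm, add_comm]

/-- all but one atom of a component have a red link -/
lemma OG.red_ex (G : c.OG) {K : Finset X} (hK : c.Comp K) {u : X} (hu : u ∈ c.DU K) :
    (K.filter fun q => ¬ ∃ y, c.C q y ∧ c.Pay y ∧ c.Red y q).card + (c.DU K).card + 1 ≤ c.t := by
  rcases (K.filter fun q => ¬ ∃ y, c.C q y ∧ c.Pay y ∧ c.Red y q).eq_empty_or_nonempty with
    e | ⟨q0, h0⟩
  · rw [e, card_empty, zero_add]; exact G.ds_le hK
  refine G.twu hK hu (fun q hq => ?_) h0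
  rw [mem_filter] at hq
  have tq := G.compT hK hq.1
  refine ⟨hq.1, fun y hy => ?_⟩
  rcases G.cls hy with hT | hS | hP
  · exact ⟨hT.1, fun v hv hne => (G.L2 tq hT (mem_DU.1 hv).1 hy (DU_C hv hq.1).symm hne).pos⟩
  · exact (G.L1T hS tq hy.symm).elim
  · have : ¬ c.Red y q := fun h => hq.2 ⟨y, hy, hP, h⟩
    unfold Red at this
    push Not at this
    exact ⟨this.1, fun v hv _ => Nat.pos_of_ne_zero (this.2 v (by rw [G.DN_eq hK hq.1]; exact hv))⟩

lemma OG.Fu_group (G : c.OG) (h : Mid c.t) {u : X} (hu : c.Dp u) (hs : c.s u = false) :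
    0 ≤ ∑ x ∈ c.GG u, c.Fu x := by
  have o := h.ord
  have hK := hu.comp G
  have hm := hu.mem
  have sK : ∀ q ∈ c.Nc u, c.s q = true := fun q hq => (mem_Nc.1 hq).sX hs
  have sR : ∀ z ∈ c.RK (c.Nc u), c.s z = false := fun z hz => by
    obtain ⟨-, q, hq, hc⟩ := mem_RK.1 hz
    exact hc.sY (sK q hq)
  unfold GG
  rw [Finset.sum_union (Finset.disjoint_left.2 fun x h1 h2 => by
    have := (sK x h1).symm.trans (sR x h2)
    simp at this)]
  generalize c.Nc u = K at hK hm sK sR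
  have eK : ∀ q ∈ K, c.Fu q = ∑ y ∈ (c.Nc q).filter c.Pay, (c.w q y : ℚ) * c.yr y q :=
    fun q hq => G.Fu_K (G.compT hK hq) (sK q hq) (by rw [G.DN_eq hK hq]; exact ne_empty_of_mem hm)
  have b1 : ∑ z ∈ c.RK K \ c.DU K, (r2 c.t * (c.t - c.dT z) - 2) - 2 * (c.DU K).card
      ≤ ∑ z ∈ c.RK K, c.Fu z := by
    rw [← Finset.sum_sdiff (DU_sub hK)]
    have := Finset.card_nsmul_le_sum (c.DU K) c.Fu (-2) fun z hz => by
      have := G.Fu_R h (mem_DU.1 hz).1 (sR z (DU_sub hK hz))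
      rwa [(G.full_R hK (DU_sub hK hz)).2 (mem_DU.1 hz).2, sub_self, mul_zero, zero_sub] at this
    have := Finset.sum_le_sum (s := c.RK K \ c.DU K) fun z hz =>
      G.Fu_R h (OK.T (mem_sdiff.1 hz).1) (sR z (mem_sdiff.1 hz).1)
    rw [nsmul_eq_mul] at *
    linarith
  have b2 : ∑ q ∈ K, (c.np q : ℚ) = c.t * c.t - c.t * (c.DU K).card
      - ∑ z ∈ c.RK K \ c.DU K, (c.dT z : ℚ) := by
    have e : ∑ q ∈ K, (c.dT q : ℚ) = c.t * (c.DU K).card + ∑ z ∈ c.RK K \ c.DU K, (c.dT z : ℚ) := by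
      exact_mod_cast G.sum_dK hK
    rw [Finset.sum_congr rfl fun q hq => G.np_cast (G.compT hK hq), Finset.sum_sub_distrib, e,
      Finset.sum_const, nsmul_eq_mul, hK.1]
    ring
  have s1 := G.ds_le hK
  have s0 := card_pos.2 ⟨u, hm⟩
  have b3 : ∀ z ∈ c.RK K \ c.DU K, 2 ≤ c.dT z → c.dT z + (c.DU K).card + 1 ≤ c.t := fun z hz =>
    G.alpha hK hm (mem_sdiff.1 hz).1 (mem_sdiff.1 hz).2
  by_cases h1 : (c.DU K).card + 1 = c.t
  · have b4 := Finset.sum_le_sum (s := K) fun q hq => (pay_ge (x := q) (f := fun y => c.yr y q)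
      (b := rO c.t) fun y _ _ => by rw [yr, if_pos (by rw [G.DN_eq hK hq, h1])]).trans
      (eK q hq).ge
    rw [← Finset.mul_sum, b2] at b4
    rw [G.R_eq hK h1, sdiff_self] at b1
    rw [G.R_eq hK h1, sdiff_self] at b4
    rw [G.R_eq hK h1]
    have e : ((c.DU K).card : ℚ) = c.t - 1 := by
      have : ((c.DU K).card : ℚ) + 1 = c.t := by exact_mod_cast h1
      linarith
    simp only [bot_eq_empty, Finset.sum_empty, e] at b1 b4
    rcases h.num with e | e | e <;> obtain ⟨-, e1, -, -, -, -, -, e5, -, -⟩ := e <;>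
      rw [e1, e5] at b4 <;> rw [e1] at b1 <;> linarith
  have base : ∀ q ∈ K, et c.t * c.np q ≤ c.Fu q := fun q hq =>
    (pay_ge fun y _ _ => (yr_bd h y q).1).trans (eK q hq).ge
  by_cases h2 : (c.DU K).card + 2 = c.t
  swap
  · have b4 := Finset.sum_le_sum base
    rw [← Finset.mul_sum, b2] at b4
    have c1 := card_sdiff_add_card_eq_card (DU_sub hK)
    have c2 := G.R_le hK hm
    have c3 : ∑ z ∈ c.RK K \ c.DU K, (c.dT z : ℚ)
        ≤ (c.t - 1 - (c.DU K).card) * (c.RK K \ c.DU K).card := sum_le_all fun z hz => by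
      have := b3 z hz
      have : (c.dT z : ℚ) + (c.DU K).card + 1 ≤ c.t := by
        exact_mod_cast (by omega : c.dT z + (c.DU K).card + 1 ≤ c.t)
      linarith
    have c4 : ((c.RK K \ c.DU K).card : ℚ) + (c.DU K).card ≤ c.t := by
      exact_mod_cast (by omega : (c.RK K \ c.DU K).card + (c.DU K).card ≤ c.t)
    have c5 : (0 : ℚ) ≤ (c.RK K \ c.DU K).card := Nat.cast_nonneg _
    simp only [mul_sub, Finset.sum_sub_distrib, ← Finset.mul_sum, Finset.sum_const,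
      nsmul_eq_mul] at b1
    have c6 : (c.DU K).card + 3 ≤ c.t := by omega
    generalize (c.DU K).card = s at *
    generalize ∑ z ∈ c.RK K \ c.DU K, (c.dT z : ℚ) = D at *
    generalize ((c.RK K \ c.DU K).card : ℚ) = n at *
    rcases h.num with e | e | e <;> obtain ⟨e0, e1, e2, e3, -⟩ := e <;>
      rw [e1, e2] at b4 <;> rw [e1, e3] at b1 <;> rw [e1] at c3 c4 <;> rw [e0] at c6 <;>
      have c7 : s ≤ 3 := (by omega) <;> interval_cases s <;>
      first | omega | (push_cast at b1 b4 c3 c4; linarith)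
  have e : ((c.DU K).card : ℚ) = c.t - 2 := by
    have : ((c.DU K).card : ℚ) + 2 = c.t := by exact_mod_cast h2
    linarith
  have c1 : ∑ z ∈ c.RK K \ c.DU K, et c.t * c.dT z
      ≤ ∑ z ∈ c.RK K \ c.DU K, (r2 c.t * (c.t - c.dT z) - 2) := Finset.sum_le_sum fun z hz => by
    have := b3 z hz
    have : (c.dT z : ℚ) ≤ 1 := by exact_mod_cast (by omega : c.dT z ≤ 1)
    rcases h.num with e | e | e <;> obtain ⟨-, e1, e2, e3, -⟩ := e <;> rw [e1, e2, e3] <;> linarith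
  rw [← Finset.mul_sum] at c1
  have ext : ∀ q ∈ K, ∀ y, c.C q y → c.Pay y →
      et c.t * c.np q + (c.yr y q - et c.t) ≤ c.Fu q := fun q hq y hc hy =>
    (pay_ge2 (fun y _ _ => (yr_bd h y q).1) hc hy le_rfl).trans (eK q hq).ge
  rw [e] at b1 b2
  by_cases h3 : ∃ q ∈ K, ∃ y, c.Pay y ∧ c.Red y q ∧ c.All y q
  · obtain ⟨q0, hq0, y, hy, hr, ha⟩ := h3
    have b4 := Finset.sum_le_sum (s := K) (f := fun q => et c.t * c.np q + (r0 c.t - et c.t))
      (g := c.Fu) fun q hq => by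
        have ha' : c.All y q := ⟨ha.1, by rw [hK.KK hq, ← hK.KK hq0]; exact ha.2⟩
        have := ext q hq y (ha'.2 q (mem_KK q)).symm hy
        rwa [yr, if_neg (by rw [G.DN_eq hK hq]; exact h1), if_pos ⟨by rw [G.DN_eq hK hq, h2], by
          unfold Red at hr ⊢; rwa [G.DN_eq hK hq, ← G.DN_eq hK hq0]⟩, if_pos ha'] at this
    rw [Finset.sum_add_distrib, ← Finset.mul_sum, b2, Finset.sum_const, nsmul_eq_mul, hK.1] at b4
    rcases h.num with e | e | e <;> obtain ⟨-, e1, e2, -, -, e3, -⟩ := e <;>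
      rw [e1, e2, e3] at b4 <;> rw [e1] at b1 c1 <;> rw [e2] at c1 <;> linarith
  · have b4 := Finset.sum_le_sum (s := K) (f := fun q => et c.t * c.np q +
      (r1 c.t - et c.t) * (1 - if ¬ ∃ y, c.C q y ∧ c.Pay y ∧ c.Red y q then 1 else 0))
      (g := c.Fu) fun q hq => by
        split_ifs with h4
        · obtain ⟨y, hc, hy, hr⟩ := h4
          have := ext q hq y hc hy
          rw [yr, if_neg (by rw [G.DN_eq hK hq]; exact h1), if_pos ⟨by rw [G.DN_eq hK hq, h2], hr⟩,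
            if_neg fun ha => h3 ⟨q, hq, y, hy, hr, ha⟩] at this
          linarith
        · have := base q hq
          linarith
    have c2 := G.red_ex hK hm
    have c3 : ((K.filter fun q => ¬ ∃ y, c.C q y ∧ c.Pay y ∧ c.Red y q).card : ℚ) ≤ 1 := by
      exact_mod_cast (by omega :
        (K.filter fun q => ¬ ∃ y, c.C q y ∧ c.Pay y ∧ c.Red y q).card ≤ 1)
    rw [card_filter] at c3
    push_cast at c3
    rw [Finset.sum_add_distrib, ← Finset.mul_sum, ← Finset.mul_sum, b2, Finset.sum_sub_distrib,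
      Finset.sum_const, nsmul_eq_mul, hK.1] at b4
    rcases h.num with e | e | e <;> obtain ⟨-, e1, e2, -, e3, -⟩ := e <;>
      rw [e1, e2, e3] at b4 <;> rw [e1] at b1 c1 <;> rw [e2] at c1 <;> linarith

lemma Fu_zero {x : X} (G : c.OG) (hO : x ∉ c.O) (h : c.mu x = 0) (r : X → X → ℚ) :
    c.cr x = 0 ∧ c.net r x = 0 := by
  have := G.degS hO
  have h1 : c.cr x = 0 := by omega
  refine ⟨h1, Finset.sum_eq_zero fun y hy => ?_⟩
  have := w_le_cr (mem_Nc.1 hy); have := (mem_Nc.1 hy).pos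
  omega

lemma OG.kinds (G : c.OG) (x : X) : c.T x ∨ c.Sad x ∨ c.Pay x ∨ (x ∉ c.O ∧ c.mu x = 0) := by
  by_cases hO : x ∈ c.O
  · rcases G.T_or_pay hO with h | h
    exacts [Or.inl h, Or.inr (Or.inr (Or.inl h))]
  have := G.degS hO; have := G.sm_le_cr x
  by_cases h0 : c.mu x = 0
  · exact Or.inr (Or.inr (Or.inr ⟨hO, h0⟩))
  by_cases h1 : c.cr x = 1
  · exact Or.inr (Or.inl ⟨hO, G.nI x, h1, by omega⟩)
  · exact Or.inr (Or.inr (Or.inl ⟨G.nI x, fun h => absurd h hO, fun _ => by omega⟩))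

theorem OH.sum_BO (G : c.OH) (h : Mid c.t) : 0 ≤ ∑ x, c.BO x := by
  rw [← sum_Fu]
  refine G.sum_groups _ (fun u hu hs => G.Fu_group h hu hs) fun x hx => ?_
  rcases G.kinds x with hT | hS | hP | ⟨hO, h0⟩
  · cases hs : c.s x
    · refine G.Fu_TY h hT hs (fun hd => hx x hd hs (mem_union_right _ (hd.self G.toOG)))
        fun z hc hz => eq_empty_of_forall_notMem fun u hu => ?_
      rw [mem_DN] at hu
      exact hx u hu.2 (hu.1.sY (hc.sX hs)) (mem_union_right _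
        (mem_RK.2 ⟨hT, z, mem_Nc.2 hu.1.symm, hc.symm⟩))
    · refine G.Fu_TX h hT hs (eq_empty_of_forall_notMem fun u hu => ?_)
      rw [mem_DN] at hu
      exact hx u hu.2 (hu.1.sY hs) (mem_union_left _ (mem_Nc.2 hu.1.symm))
  · exact G.Fu_sad h hS
  · cases hs : c.s x
    exacts [G.Fu_Y h hP hs, G.Fu_X h hP hs]
  · obtain ⟨h1, h2⟩ := Fu_zero G.toOG hO h0 c.ru
    simp [Fu, BS, BO, hO, h0, h1, h2]

end St

lemma J.coreMid {t : ℕ} (h : Mid t) : J.Core t := fun _ N he ht hN => by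
  obtain ⟨c, rfl, G⟩ := St.exists_oh N he hN
  exact ⟨c.s, G.cost_le G.hb (G.sum_BO (ht ▸ h))⟩

end

end Pool.Agent.Lib.MP_bb98d0_co
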