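import Pool.Agent.Lib.MP_bb98d0_co.M4

/-!
Degree 5: quasi deep atoms and composite exchanges.
-/

namespace Pool.Agent.Lib.MP_bb98d0_co
open Finset Classical

noncomputable section

variable {X : Type*} [Fintype X]

namespace St

def QD (c : St X) (y q : X) : Prop :=
  y ∈ c.O ∧ c.cr y = 4 ∧ (∃ u, c.Rd y q u) ∧ c.Comp ((c.Nc y).erase q)
def QK (c : St X) (y : X) (K : Finset X) : Prop := ∃ q, c.QD y q ∧ (c.Nc y).erase q = K
def QO (c : St X) (y : X) : Prop := ∃ q, c.QD y q ∧ (c.DN q).card = 2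
def Gad (c : St X) (K : Finset X) : Prop :=
  ∃ u y a z, u ∈ c.DU K ∧ c.QO y ∧ c.QK y K ∧ a ∈ K ∧ c.C a z ∧ z ≠ y ∧ z ∈ c.O ∧ 0 < c.w z u
def nu (c : St X) (y : X) : ℚ :=
  if c.QO y then 2 else if ∃ q, c.QD y q ∧ c.Gad (c.KK q) then 1 / 2 else 0
def TwoQ (c : St X) (K : Finset X) : Prop := ∃ y y', y ≠ y' ∧ c.QK y K ∧ c.QK y' K ∧ c.QO y
def PT (c : St X) (p : X) : Prop := c.Poor p ∧ ∀ x, c.C p x → c.T x
def RG (c : St X) (y q : X) : Prop :=
  (c.DN q).card = 1 ∧ (∃ z, c.QK z (c.KK q)) ∧ ¬ c.Red y q ∧ ¬ c.QK y (c.KK q)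

variable {c : St X}

lemma nu_bd (y : X) : 0 ≤ c.nu y ∧ c.nu y ≤ 2 := by
  unfold nu; split_ifs <;> norm_num

lemma OG.sm1 (G : c.OG) (ht : c.t = 3) {y a b : X} (hO : y ∈ c.O) (h4 : 4 ≤ c.cr y)
    (h1 : c.S y a) (h2 : c.S y b) : a = b := by
  have := card_le_sm (c := c) (x := y) (Finset.Subset.refl _)
  have := G.deg hO
  exact card_le_one.1 (by omega) a (mem_Ns.2 h1) b (mem_Ns.2 h2)

lemma T.sm2 (ht : c.t = 3) {y a b d : X} (hy : c.T y) (h1 : c.S y a) (h2 : c.S y b)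
    (h3 : c.S y d) (n1 : a ≠ b) (n2 : a ≠ d) : b = d := by
  by_contra n3
  have := card_le_sm (c := c) (x := y) (A := {a, b, d}) (by simp [insert_subset_iff, h1, h2, h3])
  rw [card_eq_three.2 ⟨a, b, d, n1, n2, n3, rfl⟩] at this
  have := hy.2.2.2
  omega

lemma T.Nc3 (ht : c.t = 3) {q a b d : X} (hq : c.T q) (h1 : c.C q a) (h2 : c.C q b)
    (h3 : c.C q d) (n1 : a ≠ b) (n2 : a ≠ d) (n3 : b ≠ d) : c.Nc q = {a, b, d} :=
  St.Nc_eq (by simp [insert_subset_iff, h1, h2, h3])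
    (by rw [card_eq_three.2 ⟨a, b, d, n1, n2, n3, rfl⟩, hq.2.2.1, ht])

lemma T.three (ht : c.t = 3) {q a b : X} (hq : c.T q) (h1 : c.C q a) (h2 : c.C q b)
    (ha : a ∈ c.O) (hb : b ∈ c.O) (n1 : a ≠ b) :
    ∃ d, c.C q d ∧ a ≠ d ∧ b ≠ d ∧ ∀ r, c.net r q = (r a q - r q a) + (r b q - r q b)
      + (r d q - r q d) := by
  have e1 := w_one hq.1 ha h1.pos
  have e2 := w_one hq.1 hb h2.pos
  have e3 := hq.2.2.1
  obtain ⟨d, hd, n⟩ : ∃ d ∈ c.Nc q, d ∉ ({a, b} : Finset X) := by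
    by_contra hn
    push Not at hn
    have := Finset.sum_le_sum_of_subset (f := c.w q) hn
    rw [Finset.sum_pair n1] at this
    unfold cr at e3
    omega
  simp only [mem_insert, mem_singleton, not_or] at n
  have e := hq.Nc3 ht h1 h2 (mem_Nc.1 hd) n1 (Ne.symm n.1) (Ne.symm n.2)
  refine ⟨d, mem_Nc.1 hd, Ne.symm n.1, Ne.symm n.2, fun r => ?_⟩
  unfold cr at e3
  unfold net
  rw [e, sum_three _ n1 (Ne.symm n.1) (Ne.symm n.2)] at e3 ⊢
  rw [e1, e2, (by omega : c.w q d = 1)]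
  simp

lemma Comp.two (ht : c.t = 3) {K : Finset X} (hK : c.Comp K) (a : X) : ∃ b ∈ K, b ≠ a :=
  exists_mem_ne (by rw [hK.1, ht]; omega) a

namespace QD
variable {y q : X}

lemma nT (ht : c.t = 3) (h : c.QD y q) : ¬ c.T y := fun h' => by
  have := h'.2.2.1; have := h.2.1; omega
lemma cr (ht : c.t = 3) (h : c.QD y q) : c.cr y = c.t + 1 := by have := h.2.1; omega
lemma C (_ : c.QD y q) {a : X} (ha : a ∈ (c.Nc y).erase q) : c.C y a :=
  mem_Nc.1 (mem_of_mem_erase ha)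
lemma Cq (h : c.QD y q) : c.C y q := by obtain ⟨u, r⟩ := h.2.2.1; exact r.2.2.1
lemma Tq (h : c.QD y q) : c.T q := by obtain ⟨u, r⟩ := h.2.2.1; exact r.T

lemma w0 (G : c.OG) (h : c.QD y q) {a : X} (ha : a ∈ (c.Nc y).erase q) : c.w q a = 0 := by
  by_contra hn
  have := h.2.2.2.mem_of_S ha (h.Cq.toS (h.C ha) (Nat.pos_of_ne_zero hn)).symm
  have _ := G
  simp at this

lemma nord (G : c.OG) (ht : c.t = 3) (h : c.QD y q) {a u : X} (ha : a ∈ (c.Nc y).erase q)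
    (r : c.Rd y a u) : False := by
  obtain ⟨b, hb, n⟩ := h.2.2.2.two ht a
  have := (r.adj G h.1 (h.cr ht) h.Tq (G.compT h.2.2.2 hb) h.Cq (h.C hb)
    (ne_of_mem_erase ha).symm n (ne_of_mem_erase hb).symm).pos
  have := h.w0 G hb
  omega

lemma uniq (G : c.OG) (ht : c.t = 3) (h : c.QD y q) {q' : X} (h' : c.QD y q') : q' = q := by
  by_contra n
  obtain ⟨u, r⟩ := h'.2.2.1
  exact h.nord G ht (mem_erase.2 ⟨n, mem_Nc.2 h'.Cq⟩) r

lemma canc (G : c.OG) (h : c.QD y q) {a b : X} (ha : a ∈ (c.Nc y).erase q) (hb : c.T b)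
    (hs : c.s b = c.s a) (n1 : b ≠ q) (n2 : b ≠ a) : c.w a b = c.w b y := by
  by_cases e : b ∈ (c.Nc y).erase q
  · rw [w_one (h.2.2.2.2 a ha).1 hb.1 ((h.2.2.2.2 a ha).2.2.2 b e n2.symm).pos,
      w_one hb.1 h.1 (h.C e).symm.pos]
  · have h1 : c.w a b = 0 := by
      by_contra hn
      exact e (h.2.2.2.mem_of_S ha (G.S_of hs.symm (Nat.pos_of_ne_zero hn)))
    have h2 : c.w b y = 0 := by
      by_contra hn
      exact e (mem_erase.2 ⟨n1, mem_Nc.2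
        (G.C_of (by rw [hs]; exact (h.C ha).side.symm) (Nat.pos_of_ne_zero hn)).symm⟩)
    rw [h1, h2]

lemma full (G : c.OG) (ht : c.t = 3) (h : c.QD y q) {a u : X} (ha : a ∈ (c.Nc y).erase q)
    (hu : u ∈ c.DN a) : c.S y u :=
  (h.C ha).symm.toS (mem_DN.1 hu).1 (Nat.pos_of_ne_zero fun h0 =>
    h.nord G ht ha (G.rd_of (h.nT ht) (h.C ha) hu h0))

lemma qt (G : c.OG) (ht : c.t = 3) (h : c.QD y q) {a u z : X} (r : c.Rd y q u)
    (ha : a ∈ (c.Nc y).erase q) (hz : c.T z) (hc : c.C a z) (h0 : c.w y z = 0) : c.S u z := by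
  have n1 := ne_of_mem_erase ha
  have ca := h.C ha
  have w1 := h.w0 G ha
  have w2 := r.cn G ca n1
  have n2 : u ≠ z := fun e => by have := hc.pos; rw [← e] at this; omega
  have n3 : y ≠ z := fun e => h.nT ht (e ▸ hz)
  have sz : c.s z = c.s y := hc.same ca.symm
  have ta := G.compT h.2.2.2 ha
  have := G.UL [q, a] [u, y, z] (c.s y) (by simp [n1.symm]) (by simp [r.2.2.2.1.symm, n2, n3])
    (by simp [ca.side.symm, r.2.2.1.side.symm]) (by simp [r.su, sz])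
    (by simp [oi_O h.1, oi_O ta.1, oi_O hz.1, oi_O r.T.1, oi_O r.1.1.1])
    (by simp [oi_O h.1, oi_O ta.1, oi_O hz.1, oi_O r.T.1, oi_O r.1.1.1])
  simp only [GW, pr, List.map_cons, List.map_nil, List.sum_cons, List.sum_nil, G.gmT ta, G.gmT hz,
    G.gmT r.T, G.gmT r.1.1, G.gm1 h.1 (h.cr ht), c.symm u y, r.2.2.2.2, h0, w1] at this
  have := ca.symm.pos; have := hc.pos; have := r.2.2.1.symm.pos; have := r.2.1.symm.pos
  exact G.S_of (r.su.trans sz.symm) (by omega)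

lemma nopoor (G : c.OH) (ht : c.t = 3) (h : c.QD y q) {a p : X} (ha : a ∈ (c.Nc y).erase q)
    (hp : c.Poor p) (hc : c.C a p) (hs : c.s p = false) (h3 : ∀ x, c.C p x → x ∈ c.O) : False := by
  obtain ⟨u, r⟩ := h.2.2.1
  have n1 := ne_of_mem_erase ha
  have ca := h.C ha
  have w1 := h.w0 G.toOG ha
  have w2 := r.cn G.toOG ca n1
  have n2 : u ≠ p := fun e => hp.1 (e ▸ r.1.1.1)
  have n3 : y ≠ p := fun e => hp.1 (e ▸ h.1)
  have sz : c.s p = c.s y := hc.same ca.symm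
  have ta := G.compT h.2.2.2 ha
  have d1 : [q, a].Nodup := by simp [n1.symm]
  have d2 : [u, y, p].Nodup := by simp [r.2.2.2.1.symm, n2, n3]
  have s1 : ∀ x ∈ [q, a], c.s x ≠ c.s y := by simp [ca.side.symm, r.2.2.1.side.symm]
  have s2 : ∀ x ∈ [u, y, p], c.s x = c.s y := by simp [r.su, sz]
  have g1 := G.UL [q, a] [u, y, p] (c.s y) d1 d2 s1 s2
    (by simp [oi_O h.1, oi_O ta.1, oi_N hp.1, oi_O r.T.1, oi_O r.1.1.1])
    (by simp [oi_O h.1, oi_O ta.1, oi_N hp.1, oi_O r.T.1, oi_O r.1.1.1])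
  have h4 := G.tie [q, a].toFinset [u, y, p].toFinset (c.s y) (by simpa using s1)
    (by simpa using s2) (by
      rw [List.sum_toFinset _ d1, List.sum_toFinset _ d2]
      simp [oi_O h.1, oi_O ta.1, oi_N hp.1, oi_O r.T.1, oi_O r.1.1.1]) (by
      rw [GV_list d1 d2]
      simp only [GW, pr, List.map_cons, List.map_nil, List.sum_cons, List.sum_nil, G.gmT ta,
        hp.gm G.toOG, G.gmT r.T, G.gmT r.1.1, G.gm1 h.1 (h.cr ht), c.symm u y, r.2.2.2.2, w1,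
        hp.w0 G.toOG sz, hp.w0 G.toOG (sz.trans r.su.symm)] at g1 ⊢
      have := ca.symm.pos; have := hc.pos; have := r.2.2.1.symm.pos; have := r.2.1.symm.pos
      omega)
  have hm : ∀ x ∈ [q, a].toFinset ∪ [u, y, p].toFinset, x ∉ c.O → x = p := by
    intro x hx hO
    simp only [List.toFinset_cons, List.toFinset_nil, mem_union, mem_insert, notMem_empty,
      or_false] at hx
    rcases hx with (rfl | rfl) | rfl | rfl | rfl
    exacts [absurd r.T.1 hO, absurd ta.1 hO, absurd r.1.1.1 hO, absurd h.1 hO, rfl]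
  have h5 := PP_same (c := c) (S := [q, a].toFinset ∪ [u, y, p].toFinset) fun x hx hO z hz => by
    rw [hm x hx hO] at hz
    exact h3 z (hp.nb G.toOG hz)
  have h6 := nS_lt (c := c) (S := [q, a].toFinset ∪ [u, y, p].toFinset) (p := p) (by simp) hp.1
    (hp.mu G.toOG) fun x hx hO => by rw [hm x hx hO]; exact hs
  unfold Ph at h4
  omega

/-- exchange through a quasi deep atom -/
lemma comp2 (G : c.OG) (ht : c.t = 3) (h : c.QD y q) {a u x a1 a2 : X} (r : c.Rd y q u)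
    (ha : a ∈ (c.Nc y).erase q) (hO : x ∈ c.O) (hx : c.cr x = 4) (hc : c.C x a) (hne : x ≠ y)
    (w3 : c.w y x = 0) (w4 : c.w x u = 0) (nr : ∀ q u, ¬ c.Rd x q u) (t1 : c.T a1) (t2 : c.T a2)
    (c1 : c.C x a1) (c2 : c.C x a2) (m1 : a1 ≠ a) (m2 : a2 ≠ a) (m3 : a1 ≠ a2) :
    c.S a1 a2 ∧ ∀ p, c.Poor p → c.C p a1 → c.C p a2 → False := by
  have n1 := ne_of_mem_erase ha
  have ca := h.C ha
  have w1 := h.w0 G ha
  have w2 := r.cn G ca n1
  have xT : ¬ c.T x := fun h' => by have := h'.2.2.1; omega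
  have n2 : u ≠ x := fun e => xT (e ▸ r.1.1)
  have sz : c.s x = c.s y := hc.symm.same ca.symm
  have ta := G.compT h.2.2.2 ha
  have k1 : a1 ≠ q := fun e => nr q u (G.rd_of xT (e ▸ c1) r.mem w4)
  have k2 : a2 ≠ q := fun e => nr q u (G.rd_of xT (e ▸ c2) r.mem w4)
  have l1 := r.1.canc G r.2.1 ((c1.same hc).trans (ca.same r.2.2.1)) k1
  have l2 := r.1.canc G r.2.1 ((c2.same hc).trans (ca.same r.2.2.1)) k2
  have l3 := h.canc G ha t1 (c1.same hc) k1 m1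
  have l4 := h.canc G ha t2 (c2.same hc) k2 m2
  have gx := G.gm1 (j := 1) hO (by omega)
  have d1 : [q, a, a1, a2].Nodup := by simp [n1.symm, k1.symm, k2.symm, m1.symm, m2.symm, m3]
  have s1 : ∀ z ∈ [q, a, a1, a2], c.s z ≠ c.s y := by
    simp [ca.side.symm, r.2.2.1.side.symm, sz ▸ c1.side.symm, sz ▸ c2.side.symm]
  have := ca.symm.pos; have := hc.symm.pos; have := r.2.2.1.symm.pos; have := r.2.1.symm.pos
  have := c1.symm.pos; have := c2.symm.pos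
  constructor
  · have := G.UL [q, a, a1, a2] [u, y, x] (c.s y) d1 (by simp [r.2.2.2.1.symm, n2, hne.symm]) s1
      (by simp [r.su, sz])
      (by simp [oi_O h.1, oi_O ta.1, oi_O hO, oi_O r.T.1, oi_O r.1.1.1, oi_O t1.1, oi_O t2.1])
      (by simp [oi_O h.1, oi_O ta.1, oi_O hO, oi_O r.T.1, oi_O r.1.1.1, oi_O t1.1, oi_O t2.1])
    simp only [GW, pr, List.map_cons, List.map_nil, List.sum_cons, List.sum_nil, G.gmT ta, gx,
      G.gmT r.T, G.gmT r.1.1, G.gm1 h.1 (h.cr ht), c.symm u y, r.2.2.2.2, w1, w3, c.symm u x, w4,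
      G.gmT t1, G.gmT t2, l1, l2, l3, l4] at this
    exact c1.toS c2 (by omega)
  · intro p hp p1 p2
    have sp : c.s p = c.s y := (p1.symm.same c1.symm).trans sz
    have j1 : u ≠ p := fun e => hp.1 (e ▸ r.1.1.1)
    have j2 : y ≠ p := fun e => hp.1 (e ▸ h.1)
    have j3 : x ≠ p := fun e => hp.1 (e ▸ hO)
    have := G.UL [q, a, a1, a2] [u, y, x, p] (c.s y) d1
      (by simp [r.2.2.2.1.symm, n2, hne.symm, j1, j2, j3]) s1 (by simp [r.su, sz, sp])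
      (by simp [oi_O h.1, oi_O ta.1, oi_O hO, oi_O r.T.1, oi_O r.1.1.1, oi_O t1.1, oi_O t2.1,
        oi_N hp.1])
      (by simp [oi_O h.1, oi_O ta.1, oi_O hO, oi_O r.T.1, oi_O r.1.1.1, oi_O t1.1, oi_O t2.1,
        oi_N hp.1])
    simp only [GW, pr, List.map_cons, List.map_nil, List.sum_cons, List.sum_nil, G.gmT ta, gx,
      G.gmT r.T, G.gmT r.1.1, G.gm1 h.1 (h.cr ht), c.symm u y, r.2.2.2.2, w1, w3, c.symm u x, w4,
      G.gmT t1, G.gmT t2, l1, l2, l3, l4, hp.gm G, hp.w0 G sp, hp.w0 G (sp.trans r.su.symm),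
      hp.w0 G (sp.trans sz.symm)] at this
    have := p1.symm.pos; have := p2.symm.pos; have := c.simple a1 t1.1 a2 t2.1
    omega

end QD

lemma OG.k2t (G : c.OG) (ht : c.t = 3) {q u v v' : X} (hu : u ∈ c.DN q) (tv : c.T v)
    (tv' : c.T v') (h1 : c.S u v) (h2 : c.S u v') (h3 : c.S v v') : c.New q u := by
  have hK := G.comp_KK hu
  have tu := (mem_DN.1 hu).2.1
  refine G.kap2 q u _ {u, v, v'} (G.compT hK (mem_KK q)) tu (mem_DN.1 hu).1 hK (mem_KK q)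
    (clq_comp (by simp [tu, tv, tv']) (by simp [h1, h2, h3, h1.symm, h2.symm, h3.symm]) ?_)
    (by simp)
  rw [card_eq_three.2 ⟨u, v, v', h1.ne, h2.ne, h3.ne, rfl⟩, ht]

lemma OG.DN_adj (G : c.OG) {q u v : X} (hu : u ∈ c.DN q) (hv : v ∈ c.DN q) (n : u ≠ v) :
    c.S u v :=
  G.L2 (G.compT (G.comp_KK hu) (mem_KK q)) (mem_DN.1 hu).2.1 (mem_DN.1 hv).2.1
    (mem_DN.1 hu).1 (mem_DN.1 hv).1 n

lemma QD.qtO (G : c.OG) (ht : c.t = 3) {y q a z : X} (h : c.QD y q) (h2 : (c.DN q).card = 2)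
    (ha : a ∈ (c.Nc y).erase q) (hz : c.T z) (hc : c.C a z) (h0 : c.w y z = 0)
    (hm : ∀ v ∈ c.DN q, c.w y v = 0) : False := by
  obtain ⟨u, v, n, e⟩ := card_eq_two.1 h2
  have hu : u ∈ c.DN q := by simp [e]
  have hv : v ∈ c.DN q := by simp [e]
  have r := G.rd_of (h.nT ht) h.Cq hu (hm u hu)
  have r' := G.rd_of (h.nT ht) h.Cq hv (hm v hv)
  have := ((G.k2t ht hu r'.1.1 hz (G.DN_adj hu hv n) (h.qt G ht r ha hz hc h0)
    (h.qt G ht r' ha hz hc h0)) y h.Cq.symm r.2.2.2.1).2.2 v r'.2.1.symm n.symm r'.2.2.2.1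
  have := hm v hv
  omega

lemma QK.comp {y : X} {K : Finset X} (h : c.QK y K) : c.Comp K := by
  obtain ⟨q, h, rfl⟩ := h; exact h.2.2.2
lemma QK.C {y a : X} {K : Finset X} (h : c.QK y K) (ha : a ∈ K) : c.C y a := by
  obtain ⟨q, h, rfl⟩ := h; exact h.C ha
lemma QK.O {y : X} {K : Finset X} (h : c.QK y K) : y ∈ c.O := by
  obtain ⟨q, h, rfl⟩ := h; exact h.1
lemma QK.cr {y : X} {K : Finset X} (h : c.QK y K) : c.cr y = 4 := by
  obtain ⟨q, h, rfl⟩ := h; exact h.2.1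
lemma QK.nT (ht : c.t = 3) {y : X} {K : Finset X} (h : c.QK y K) : ¬ c.T y := by
  obtain ⟨q, h, rfl⟩ := h; exact h.nT ht
lemma QK.pay (G : c.OG) (ht : c.t = 3) {y : X} {K : Finset X} (h : c.QK y K) : c.Pay y :=
  (G.T_or_pay h.O).resolve_left (h.nT ht)
lemma QK.full (G : c.OG) (ht : c.t = 3) {y u : X} {K : Finset X} (h : c.QK y K)
    (hu : u ∈ c.DU K) : c.S y u := by
  obtain ⟨a, ha, -⟩ := h.comp.two ht u
  have e := G.DN_eq h.comp ha
  obtain ⟨q, h, rfl⟩ := h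
  exact h.full G ht ha (e ▸ hu)

/-- a quasi deep atom whose neighbour on its side is `v` misses the deep atoms at its red link -/
lemma QD.missall (G : c.OG) (ht : c.t = 3) {y q v : X} (h : c.QD y q) (hv : c.S y v)
    (hn : v ∉ c.DN q) : ∀ u ∈ c.DN q, c.w y u = 0 := fun u hu => by
  by_contra h0
  exact hn (G.sm1 ht h.1 h.2.1.ge hv
    (h.Cq.symm.toS (mem_DN.1 hu).1 (Nat.pos_of_ne_zero h0)) ▸ hu)

lemma QD.notDN {y q : X} (h : c.QD y q) {u : X} (hu : u ∈ c.DU ((c.Nc y).erase q)) : u ∉ c.DN q :=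
  fun h' => by
    have := mem_Nc.2 (mem_DN.1 h').1.symm
    rw [(mem_DU.1 hu).2] at this
    have _ := h
    simp at this

lemma Gad.nb (G : c.OG) (ht : c.t = 3) {K : Finset X} (h : c.Gad K) {u v : X} (hu : u ∈ c.DU K)
    (hv : c.S u v) : v ∈ c.O ∧ ¬ c.T v := by
  obtain ⟨u', y, a, z, hu', ⟨q, hq, h2⟩, hK, ha, hc, n, hO, hw⟩ := h
  have e := G.sm1 ht hK.O hK.cr.ge (hK.full G ht hu) (hK.full G ht hu')
  subst e
  have s1 := hK.full G ht hu
  have s2 : c.S u z := (DU_C hu ha).symm.toS hc (by rwa [c.symm])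
  have zT : ¬ c.T z := fun hz => by
    obtain ⟨q', hq', rfl⟩ := hK
    rw [hq.uniq G ht hq'] at ha hu
    refine hq.qtO G ht h2 ha hz hc ?_ (hq.missall G ht s1 (hq.notDN hu))
    by_contra h0
    exact s2.ne (G.sm1 ht hq.1 hq.2.1.ge s1 (G.S_of (s1.side.trans s2.side)
      (Nat.pos_of_ne_zero h0)))
  by_cases e : y = v
  · exact e ▸ ⟨hK.O, hK.nT ht⟩
  · exact (mem_DU.1 hu).1.sm2 ht s1.symm s2 hv n.symm e ▸ ⟨hO, zT⟩

lemma QD.qtnu (G : c.OG) (ht : c.t = 3) {y q a z : X} (h : c.QD y q)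
    (ha : a ∈ (c.Nc y).erase q) (hz : c.T z) (hc : c.C a z) (h0 : c.w y z = 0)
    (hm : ∀ v ∈ c.DN q, c.w y v = 0) : c.nu y = 0 := by
  rw [nu, if_neg, if_neg]
  · rintro ⟨q', h', g⟩
    rw [h.uniq G ht h'] at g
    obtain ⟨u, r⟩ := h.2.2.1
    exact (g.nb G ht (G.DN_eq (r.comp G) (mem_KK q) ▸ r.mem) (h.qt G ht r ha hz hc h0)).2 hz
  · rintro ⟨q', h', g⟩
    rw [h.uniq G ht h'] at g
    exact h.qtO G ht g ha hz hc h0 hm

/-- three ordinary atoms are never joined to all of a component -/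
lemma OG.all3 (G : c.OG) (ht : c.t = 3) {K : Finset X} (hK : c.Comp K) {a b d : X} (ha : a ∈ c.O)
    (hb : b ∈ c.O) (hd : d ∈ c.O) (n1 : a ≠ b) (n2 : a ≠ d) (n3 : b ≠ d)
    (h1 : ∀ q ∈ K, c.C a q) (h2 : ∀ q ∈ K, c.C b q) (h3 : ∀ q ∈ K, c.C d q) : False :=
  G.tw0 hK (L := {a, b, d}) (by simp [insert_subset_iff, ha, hb, hd]) fun q hq =>
    (G.compT hK hq).Nc3 ht (h1 q hq).symm (h2 q hq).symm (h3 q hq).symm n1 n2 n3

lemma TwoQ.all (G : c.OG) (ht : c.t = 3) {K : Finset X} (h : c.TwoQ K) {y : X} (hO : y ∈ c.O)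
    (hn : ¬ c.QK y K) (ha : ∀ q ∈ K, c.C y q) : False := by
  obtain ⟨z, z', n, h1, h2, -⟩ := h
  exact G.all3 ht h1.comp h1.O h2.O hO n (fun e => hn (e ▸ h1)) (fun e => hn (e ▸ h2))
    (fun q hq => h1.C hq) (fun q hq => h2.C hq) ha

lemma RG.ex {y q : X} (h : c.RG y q) (hc : c.C y q) :
    y ∈ c.O ∧ ∃ u, u ∈ c.DN q ∧ c.S y u := by
  obtain ⟨u, e⟩ := card_eq_one.1 h.1
  have h3 := h.2.2.1
  unfold Red at h3
  push Not at h3
  have hu : u ∈ c.DN q := by simp [e]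
  exact ⟨h3.1, u, hu, hc.symm.toS (mem_DN.1 hu).1 (Nat.pos_of_ne_zero (h3.2 u hu))⟩

lemma RG.uniq (G : c.OG) (ht : c.t = 3) {y q a : X} (h : c.RG y q) (hT : ¬ c.T y) (hc : c.C y q)
    (ha : a ∈ c.KK q) (ca : c.C y a) : a = q := by
  by_contra n
  obtain ⟨hO, u, hu, su⟩ := h.ex hc
  obtain ⟨h1, ⟨z, hz⟩, -, h4⟩ := h
  have hK := hz.comp
  have e := G.DN_eq hK (mem_KK q)
  rw [e] at hu h1
  have sz := hz.full G ht hu
  have := G.twu (W := {a, q}) hK hu (q0 := q) (fun x hx => by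
    have hx' : x ∈ c.KK q ∧ c.C y x := by
      simp only [mem_insert, mem_singleton] at hx
      rcases hx with rfl | rfl
      exacts [⟨ha, ca⟩, ⟨mem_KK x, hc⟩]
    refine ⟨hx'.1, fun v hv => ?_⟩
    have e3 := (G.compT hK hx'.1).Nc3 ht (DU_C hu hx'.1).symm (hz.C hx'.1).symm hx'.2.symm
      sz.ne.symm su.ne.symm (fun e => h4 (e ▸ hz))
    have hv' := mem_Nc.2 hv
    simp only [e3, mem_insert, mem_singleton] at hv'
    have one : ∀ u' ∈ c.DU (c.KK q), u' = u := fun u' hu' => card_le_one.1 h1.le u' hu' u hu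
    rcases hv' with rfl | rfl | rfl
    · exact ⟨(mem_DU.1 hu).1.1, fun u' hu' n => absurd (one u' hu').symm n⟩
    · exact ⟨hz.O, fun u' hu' _ => one u' hu' ▸ sz.pos⟩
    · exact ⟨hO, fun u' hu' _ => one u' hu' ▸ su.pos⟩) (by simp)
  rw [card_pair n] at this
  have _ := hT
  omega

lemma RG.one (G : c.OG) (ht : c.t = 3) {y q a : X} (h : c.RG y q) (h' : c.RG y a)
    (h4 : 4 ≤ c.cr y) (hc : c.C y q) (ca : c.C y a) : a = q := by
  obtain ⟨hO, u, hu, su⟩ := h.ex hc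
  obtain ⟨-, u', hu', su'⟩ := h'.ex ca
  refine h.uniq G ht (fun h' => by have := h'.2.2.1; omega) hc ?_ ca
  rw [G.sm1 ht hO h4 su' su] at hu'
  have hK := G.comp_KK hu
  rw [G.DN_eq hK (mem_KK q)] at hu
  rw [← (mem_DU.1 hu).2]
  exact mem_Nc.2 (mem_DN.1 hu').1.symm

lemma OG.sad2 (G : c.OG) {y b a a' : X} (hO : y ∈ c.O) (hy : c.cr y = c.t + 1) (hb : c.Sad b)
    (cb : c.C y b) (ca : c.C y a) (ca' : c.C y a') (hK : c.Comp (c.KK a))
    (hK' : c.Comp (c.KK a')) : a' ∈ c.KK a := by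
  by_cases n : a = a'
  · exact n ▸ mem_KK a
  have ta := G.compT hK (mem_KK a)
  have ta' := G.compT hK' (mem_KK a')
  have key : ∀ x, c.C y x → c.Comp (c.KK x) → c.w b x = 0 := fun x cx hx => by
    by_contra h0
    exact hb.1 (hx.2 b (hx.mem_of_S (mem_KK x) (cb.toS cx (Nat.pos_of_ne_zero h0)).symm)).1
  have n1 : b ≠ a := fun e => hb.1 (e ▸ ta.1)
  have n2 : b ≠ a' := fun e => hb.1 (e ▸ ta'.1)
  have := G.UL [b, a, a'] [y] (c.s y) (by simp [n, n1, n2]) (by simp)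
    (by simp [ca.side.symm, cb.side.symm, ca'.side.symm]) (by simp)
    (by simp [oi_O hO, oi_O ta.1, oi_O ta'.1, oi_N hb.1])
    (by simp [oi_O hO, oi_O ta.1, oi_O ta'.1, oi_N hb.1])
  simp only [GW, pr, List.map_cons, List.map_nil, List.sum_cons, List.sum_nil, G.gmT ta, G.gmT ta',
    G.gmS hb, G.gm1 hO hy, key a ca hK, key a' ca' hK'] at this
  have := ca.symm.pos; have := cb.symm.pos; have := ca'.symm.pos
  exact mem_insert_of_mem (mem_Ns.2 (ca.toS ca' (by omega)))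

lemma OG.val_O1 (G : c.OG) (ht : c.t = 3) {y q a v : X} (hO : y ∈ c.O) (hy : c.cr y = c.t + 2)
    (hc : c.C y q) (ca : c.C y a) (h2 : (c.DN q).card = 2) (hv : v ∈ c.DN a) (hn : a ∉ c.KK q) :
    ∃ u, c.Val y q u a v := by
  have hT : ¬ c.T y := fun h => by have := h.2.2.1; omega
  have hd := G.deg hO
  have w0 : ∀ x u, c.C y x → u ∈ c.DN x → c.Rd y x u := fun x u cx hu => G.rd_of hT cx hu (by
    by_contra h0
    have := w_le_sm (cx.symm.toS (mem_DN.1 hu).1 (Nat.pos_of_ne_zero h0))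
    omega)
  obtain ⟨u, u', n, e⟩ := card_eq_two.1 h2
  have hu : u ∈ c.DN q := by simp [e]
  have hu' : u' ∈ c.DN q := by simp [e]
  by_contra hv2
  push Not at hv2
  have adj : ∀ x ∈ c.DN q, c.S x v := fun x hx =>
    G.S_of ((w0 q x hc hx).su.trans (w0 a v ca hv).su.symm) (Nat.pos_of_ne_zero fun h0 =>
      hv2 x (val_diff G (w0 q x hc hx) (w0 a v ca hv) hn h0))
  have := (G.k2t ht hu (mem_DN.1 hu').2.1 (mem_DN.1 hv).2.1 (G.DN_adj hu hu' n) (adj u hu)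
    (adj u' hu') y hc.symm (w0 q u hc hu).2.2.2.1).2.1
  omega

/-- a quasi deep atom and a deep atom that both miss `y` -/
lemma TwoQ.pick (G : c.OG) (ht : c.t = 3) {K : Finset X} (h : c.TwoQ K) {y a : X} (hO : y ∈ c.O)
    (h4 : c.cr y = 4) (ha : a ∈ K) (ca : c.C y a) :
    ∃ z q u, c.QD z q ∧ (c.Nc z).erase q = K ∧ c.Rd z q u ∧ c.w z y = 0 ∧ c.w y u = 0 := by
  obtain ⟨z, z', n, h1, h2, q1, hq1, d2⟩ := h
  have sz : c.s y = c.s z := ca.symm.same (h1.C ha).symm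
  have sz' : c.s y = c.s z' := ca.symm.same (h2.C ha).symm
  have nz := h1.nT ht
  have nz' := h2.nT ht
  obtain ⟨q, hq, e⟩ := h1
  obtain ⟨q', hq', e'⟩ := h2
  rw [hq.uniq G ht hq1] at d2
  obtain ⟨u, r⟩ := hq.2.2.1
  obtain ⟨u', r'⟩ := hq'.2.2.1
  have one : ∀ v v', c.s y = c.s v → c.s y = c.s v' → c.w y v ≠ 0 → v ≠ v' → c.w y v' = 0 :=
    fun v v' s1 s2 h1 n => by
      by_contra h2
      exact n (G.sm1 ht hO h4.ge (G.S_of s1 (Nat.pos_of_ne_zero h1))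
        (G.S_of s2 (Nat.pos_of_ne_zero h2)))
  by_cases b1 : c.w y z = 0
  swap
  · exact ⟨z', q', u', hq', e', r', by rw [c.symm]; exact one z z' sz sz' b1 n,
      one z u' sz (sz'.trans r'.su.symm) b1 fun e => nz (e ▸ r'.1.1)⟩
  by_cases b2 : c.w y u = 0
  · exact ⟨z, q, u, hq, e, r, by rwa [c.symm], b2⟩
  have su : c.s y = c.s u := sz.trans r.su.symm
  have b3 : c.w z' y = 0 := by rw [c.symm]; exact one u z' su sz' b2 fun e => nz' (e ▸ r.1.1)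
  by_cases b4 : u = u'
  swap
  · exact ⟨z', q', u', hq', e', r', b3, one u u' su (sz'.trans r'.su.symm) b2 b4⟩
  obtain ⟨v, hv, nv⟩ := exists_mem_ne (by omega : 1 < (c.DN q).card) u
  have sv := G.DN_adj hv r.mem nv
  have b5 : c.w y v = 0 := one u v su (su.trans sv.side.symm) b2 nv.symm
  by_cases b6 : c.w z v = 0
  · exact ⟨z, q, v, hq, e, G.rd_of nz hq.Cq hv b6, by rwa [c.symm], b5⟩
  have hK := r.comp G
  have hv' : v ∈ c.DN q' := by
    have : q' ∈ c.KK q := by rw [← r.Nc G, b4]; exact mem_Nc.2 r'.2.1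
    rw [G.DN_eq hK this, ← G.DN_eq hK (mem_KK q)]; exact hv
  refine ⟨z', q', v, hq', e', G.rd_of nz' hq'.Cq hv' ?_, b3, b5⟩
  by_contra b7
  have s1 : c.S v z := (hq.Cq.symm.toS (mem_DN.1 hv).1 (Nat.pos_of_ne_zero b6)).symm
  have s2 : c.S v z' := (hq'.Cq.symm.toS (mem_DN.1 hv').1 (Nat.pos_of_ne_zero b7)).symm
  exact n ((mem_DN.1 hv).2.1.sm2 ht sv s1 s2 (fun e => nz (e ▸ r.1.1)) fun e => nz' (e ▸ r.1.1))

end St

end

end Pool.Agent.Lib.MP_bb98d0_co
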