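import Pool.Agent.Lib.MP_bb98d0_co.M5

/-!
Degree 5: rates and the atoms that pay.
-/

namespace Pool.Agent.Lib.MP_bb98d0_co
open Finset Classical

noncomputable section

variable {X : Type*} [Fintype X]

namespace St

def jP (c : St X) (q : X) : ℕ := ((c.Nc q).filter c.PT).card

structure Pm (c : St X) where
  pi : ℚ
  ep : ℚ
  ka : ℚ
  nd : X → ℚ
  h0 : 0 ≤ pi ∧ 0 ≤ ep ∧ 4 ≤ ep + 2 * pi
  h2 : ∀ q, c.T q → c.s q = true → pi * c.jP q ≤ nd q * (3 - c.jP q)
  h3 : ∀ q, 0 ≤ nd q ∧ nd q ≤ 4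
  h4 : ∀ q, nd q ≠ 0 → ∃ p q', c.PT p ∧ c.C p q ∧ c.C p q' ∧ c.S q q'
  h5 : ∀ q y a b, 2 < nd q → y ∈ c.O → c.cr y = 4 → c.s y = false → c.C y q → c.C y a → c.C y b →
    c.T a → c.T b → a ≠ q → b ≠ q → a ≠ b → (∀ x, c.C y x → c.T x) →
    c.S a b ∧ ∀ p, c.PT p → c.C p a → c.C p b → False
  h6 : ka = 0 ∨ (ka = 8 ∧ ep = 4 ∧ ∀ q, nd q = 0)

variable {c : St X}

def y3 (P : c.Pm) (p q : X) : ℚ :=
  if c.PT p then - P.pi
  else if c.QK p (c.KK q) then - c.nu p
  else if (c.DN q).card = 2 then 16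
  else if (c.DN q).card = 1 then
    (if c.Red p q then (if c.All p q then 7 else if c.Gad (c.KK q) then 23 / 2 else 10)
      else if ∃ z, c.QK z (c.KK q) then 7 else 1)
  else if c.TwoQ (c.KK q) then 4
  else if ∃ z, c.QK z (c.KK q) ∧ 0 < c.w p z then 2
  else if p ∈ c.O ∨ c.Comp (c.KK q) then max 1 (P.nd q) else P.nd q

def x3 (c : St X) (p y : X) : ℚ :=
  if p ∉ c.O then 38
  else if c.T y ∧ c.dT y + 1 = c.t then (if c.cr p = c.t + 1 ∧ c.t ≤ (c.Jn p).card then 22 else 24)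
  else 14

def r3 (P : c.Pm) (p q : X) : ℚ :=
  if c.Pay p then (if c.s p = true then c.x3 p q else if c.T q then y3 P p q else 0)
  else if c.Sad p then (if c.s p = true then 8 - P.ka else 0)
  else if c.T p ∧ c.T q then
    (if c.s p = true then (if c.Gd p then 2 else 0) else if c.dT p = 1 then 4 else 0)
  else 0

def B3 (P : c.Pm) (x : X) : ℚ :=
  if x ∈ c.O then (if c.s x = true then 80 * ((c.cr x : ℚ) - 3) else 34 * ((c.cr x : ℚ) - 3) - 24)
  else if c.mu x = 0 then 0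
  else if c.s x = true then 80 * c.cr x - 72 - P.ka else 34 * c.cr x - 72 + P.ep

def F3 (P : c.Pm) (x : X) : ℚ := B3 P x + c.net (r3 P) x

variable {P : c.Pm}

lemma Pm.ka_bd (P : c.Pm) : 0 ≤ P.ka ∧ P.ka ≤ 8 := by
  rcases P.h6 with h | h
  · rw [h]; norm_num
  · rw [h.1]; norm_num

lemma max_le4 (P : c.Pm) (q : X) : 1 ≤ max 1 (P.nd q) ∧ P.nd q ≤ max 1 (P.nd q) ∧
    max 1 (P.nd q) ≤ 4 :=
  ⟨le_max_left _ _, le_max_right _ _, max_le (by norm_num) (P.h3 q).2⟩

lemma y3_16 (p q : X) : y3 P p q ≤ 16 := by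
  have := P.h0; have := nu_bd (c := c) p; have := max_le4 P q; have := P.h3 q
  unfold y3
  split_ifs <;> linarith

lemma y3_n2 {p q : X} (h : (c.DN q).card ≠ 2) : y3 P p q ≤ 23 / 2 := by
  have := P.h0; have := nu_bd (c := c) p; have := max_le4 P q; have := P.h3 q
  unfold y3
  rw [if_neg h]
  split_ifs <;> linarith

lemma y3_10 {p q : X} (h : (c.DN q).card ≠ 2) (h' : ¬ c.Gad (c.KK q)) : y3 P p q ≤ 10 := by
  have := P.h0; have := nu_bd (c := c) p; have := max_le4 P q; have := P.h3 q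
  unfold y3
  rw [if_neg h, if_neg h']
  split_ifs <;> linarith

lemma y3_7 {p q : X} (h : (c.DN q).card ≠ 2) (h' : c.All p q ∨ ¬ c.Red p q) : y3 P p q ≤ 7 := by
  have := P.h0; have := nu_bd (c := c) p; have := max_le4 P q; have := P.h3 q
  unfold y3
  rw [if_neg h]
  split_ifs with a1 a2 a3 a4 a5
  any_goals linarith
  all_goals exact (h'.elim a5 fun h => h a4).elim

lemma y3_0 {p q : X} (h : (c.DN q).card = 0) : y3 P p q ≤ 4 := by
  have := P.h0; have := nu_bd (c := c) p; have := max_le4 P q; have := P.h3 q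
  unfold y3
  rw [if_neg (by omega : ¬ (c.DN q).card = 2), if_neg (by omega : ¬ (c.DN q).card = 1)]
  split_ifs <;> linarith

lemma y3_4 {p q : X} (h : (c.DN q).card ≠ 2) (h' : (c.DN q).card = 1 → ¬ c.Red p q)
    (h2 : ¬ c.RG p q) : y3 P p q ≤ 4 ∧ (¬ c.TwoQ (c.KK q) → P.nd q ≤ 2 → y3 P p q ≤ 2) ∧
      (¬ c.TwoQ (c.KK q) → P.nd q ≤ 1 → (∀ z, c.QK z (c.KK q) → c.w p z = 0) → y3 P p q ≤ 1) := by
  have := P.h0; have := nu_bd (c := c) p; have := max_le4 P q; have := P.h3 q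
  unfold y3
  rw [if_neg h]
  split_ifs with a1 a2 a3 a4 a5 a6 a7 a8 a9 a10
  · exact ⟨by linarith, fun _ _ => by linarith, fun _ _ _ => by linarith⟩
  · exact ⟨by linarith, fun _ _ => by linarith, fun _ _ _ => by linarith⟩
  · exact (h' a3 a4).elim
  · exact (h' a3 a4).elim
  · exact (h' a3 a4).elim
  · exact (h2 ⟨a3, a7, a4, a2⟩).elim
  · exact ⟨by linarith, fun _ _ => by linarith, fun _ _ _ => by linarith⟩
  · exact ⟨by linarith, fun h => absurd a8 h, fun h => absurd a8 h⟩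
  · obtain ⟨z, hz, hw⟩ := a9
    exact ⟨by linarith, fun _ _ => by linarith, fun _ _ h => by have := h z hz; omega⟩
  · exact ⟨by linarith, fun _ h => max_le (by norm_num) h, fun _ h _ => max_le le_rfl h⟩
  · exact ⟨by linarith, fun _ h => h, fun _ h _ => h⟩

lemma OG.y3_nc (G : c.OG) {p q : X} (h : ¬ c.Comp (c.KK q)) (hp : ¬ c.PT p) :
    y3 P p q = if p ∈ c.O then max 1 (P.nd q) else P.nd q := by
  have h0 : (c.DN q).card = 0 := by
    by_contra hn
    exact h (G.comp_pos (Nat.pos_of_ne_zero hn))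
  unfold y3
  rw [if_neg hp, if_neg fun a : c.QK p _ => h a.comp, if_neg (by omega : ¬ (c.DN q).card = 2),
    if_neg (by omega : ¬ (c.DN q).card = 1), if_neg fun ⟨_, _, _, a, _⟩ => h a.comp,
    if_neg fun ⟨_, a, _⟩ => h a.comp]
  simp [h]

lemma x3_bd (p q : X) : 14 ≤ c.x3 p q := by unfold x3; split_ifs <;> norm_num

lemma r3_X {p q : X} (hp : c.Pay p) (hs : c.s p = true) : r3 P p q = c.x3 p q := by
  rw [r3, if_pos hp, if_pos hs]
lemma r3_YT {p q : X} (hp : c.Pay p) (hs : c.s p = false) (hq : c.T q) :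
    r3 P p q = y3 P p q := by
  rw [r3, if_pos hp, if_neg (by simp [hs]), if_pos hq]
lemma r3_YN {p q : X} (hp : c.Pay p) (hs : c.s p = false) (hq : ¬ c.T q) : r3 P p q = 0 := by
  rw [r3, if_pos hp, if_neg (by simp [hs]), if_neg hq]
lemma r3_S {p q : X} (hp : c.Sad p) : r3 P p q = if c.s p = true then 8 - P.ka else 0 := by
  rw [r3, if_neg hp.low.not_pay, if_pos hp]
lemma r3_TN {p q : X} (hp : c.T p) (hq : ¬ c.T q) : r3 P p q = 0 := by
  rw [r3, if_neg hp.low.not_pay, if_neg hp.not_sad, if_neg fun h => hq h.2]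
lemma r3_TX {p q : X} (hp : c.T p) (hq : c.T q) (hs : c.s p = true) :
    r3 P p q = if c.Gd p then 2 else 0 := by
  rw [r3, if_neg hp.low.not_pay, if_neg hp.not_sad, if_pos ⟨hp, hq⟩, if_pos hs]
lemma r3_TY {p q : X} (hp : c.T p) (hq : c.T q) (hs : c.s p = false) :
    r3 P p q = if c.dT p = 1 then 4 else 0 := by
  rw [r3, if_neg hp.low.not_pay, if_neg hp.not_sad, if_pos ⟨hp, hq⟩, if_neg (by simp [hs])]

lemma Pay.nT {p : X} (h : c.Pay p) : ¬ c.T p := fun h' => h'.low.not_pay h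

lemma OG.netY3 (G : c.OG) {y : X} (hp : c.Pay y) (hs : c.s y = false) {b : ℚ}
    (hb : ∀ x, c.C y x → c.Pay x → b ≤ c.x3 x y) :
    b * c.np y + (8 - P.ka) * c.dS y
      - ∑ q ∈ (c.Nc y).filter c.T, (c.w y q : ℚ) * y3 P y q ≤ c.net (r3 P) y := by
  have := G.net_ge (r := r3 P) (x := y) (f := fun q => - y3 P y q) (a := 8 - P.ka) (b := b)
    (fun q _ hq => by rw [r3_YT hp hs hq, r3_TN hq hp.nT]; linarith)
    (fun q hc hq => by rw [r3_YN hp hs fun h => h.not_sad hq, r3_S hq, if_pos (hc.sX hs)]; linarith)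
    (fun q hc hq => by rw [r3_YN hp hs hq.nT, r3_X hq (hc.sX hs), sub_zero]; exact hb q hc hq)
  simp only [mul_neg, Finset.sum_neg_distrib] at this
  linarith

lemma OG.F3_X (G : c.OG) (ht : c.t = 3) {p : X} (hp : c.Pay p) (hs : c.s p = true) :
    0 ≤ F3 P p := by
  have a1 : - ∑ q ∈ c.Nc p, (c.w p q : ℚ) * c.x3 p q ≤ c.net (r3 P) p := by
    rw [← Finset.sum_neg_distrib]
    refine Finset.sum_le_sum fun q hq => ?_
    rw [r3_X hp hs, ← mul_neg]
    refine mul_le_mul_of_nonneg_left ?_ (Nat.cast_nonneg _)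
    have sq := (mem_Nc.1 hq).sY hs
    rcases G.cls (mem_Nc.1 hq) with h | h | h
    · rw [r3_TN h hp.nT]; linarith
    · rw [r3_S h, if_neg (by simp [sq])]; linarith
    · rw [r3_YN h sq hp.nT]; linarith
  unfold F3 B3
  by_cases hO : p ∈ c.O
  swap
  · have a2 : (2 : ℚ) ≤ c.cr p := by exact_mod_cast hp.2.2 hO
    have := G.degS hO; have := hp.2.2 hO; have := P.ka_bd
    simp only [x3, if_pos hO, ← Finset.sum_mul, ← cr_cast] at a1
    rw [if_neg hO, if_neg (by omega), if_pos hs]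
    linarith
  rw [if_pos hO, if_pos hs]
  have a3 := hp.2.1 hO
  by_cases h1 : c.cr p = c.t + 1
  swap
  · have a2 : ∑ q ∈ c.Nc p, (c.w p q : ℚ) * c.x3 p q ≤ c.cr p * 24 := by
      rw [cr_cast, Finset.sum_mul]
      refine Finset.sum_le_sum fun q _ => mul_le_mul_of_nonneg_left ?_ (Nat.cast_nonneg _)
      unfold x3
      rw [if_neg (not_not.2 hO)]
      split_ifs <;> linarith
    have a4 : (5 : ℚ) ≤ c.cr p := by exact_mod_cast (by omega : 5 ≤ c.cr p)
    linarith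
  have key : ∀ ρ : ℚ, (∀ q ∈ c.Jn p, c.x3 p q ≤ ρ) →
      ∑ q ∈ c.Nc p, (c.w p q : ℚ) * c.x3 p q ≤ 14 * c.cr p + (ρ - 14) * (c.Jn p).card := by
    intro ρ hρ
    unfold Jn
    rw [cr_cast, card_filter]
    push_cast
    rw [Finset.mul_sum, Finset.mul_sum, ← Finset.sum_add_distrib]
    refine Finset.sum_le_sum fun q hq => ?_
    by_cases hj : c.T q ∧ c.dT q + 1 = c.t
    · rw [if_pos hj, w_one hO hj.1.1 (mem_Nc.1 hq).pos]
      have := hρ q (mem_filter.2 ⟨hq, hj⟩)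
      push_cast; linarith
    · rw [if_neg hj, x3, if_neg (not_not.2 hO), if_neg hj]; linarith
  have hm : ∀ v ∈ c.Jn p, c.C p v ∧ c.T v ∧ c.dT v + 1 = c.t := fun v hv => by
    simpa only [Jn, mem_filter, mem_Nc] using hv
  have hle := clq_le (fun x hx => (hm x hx).2.1) fun x hx v hv hne => G.jcl hO h1 hx hv hne
  have e4 : (c.cr p : ℚ) = 4 := by exact_mod_cast (by omega : c.cr p = 4)
  by_cases h3 : c.t ≤ (c.Jn p).card
  · have b2 : ((c.Jn p).card : ℚ) ≤ 3 := by exact_mod_cast (by omega : (c.Jn p).card ≤ 3)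
    have b3 := key 22 fun q hq => by
      rw [x3, if_neg (not_not.2 hO), if_pos (hm q hq).2, if_pos ⟨h1, h3⟩]
    linarith
  · have b2 : ((c.Jn p).card : ℚ) ≤ 2 := by exact_mod_cast (by omega : (c.Jn p).card ≤ 2)
    have b3 := key 24 fun q hq => by
      rw [x3, if_neg (not_not.2 hO), if_pos (hm q hq).2, if_neg fun h => h3 h.2]
    linarith

lemma OG.F3_sad (G : c.OG) {b : X} (hb : c.Sad b) : 0 ≤ F3 P b := by
  have hd := G.degS hb.1
  have h1 := hb.2.2.1; have h2 := hb.2.2.2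
  have key : ∀ ρ : ℚ, (∀ p, c.C b p → c.Pay p → r3 P p b - r3 P b p = ρ) →
      c.net (r3 P) b = ρ := by
    intro ρ hρ
    have : c.net (r3 P) b = ∑ p ∈ c.Nc b, (c.w b p : ℚ) * ρ := by
      refine Finset.sum_congr rfl fun p hp => ?_
      rw [mem_Nc] at hp
      rcases G.cls hp with hT | hS | hP
      · exact (G.L1T hb hT hp).elim
      · exact (G.L1S hb hS hp).elim
      · rw [hρ p hp hP]
    rw [this, ← Finset.sum_mul, ← cr_cast, h1]; simp
  have := P.h0
  unfold F3 B3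
  rw [if_neg hb.1, if_neg (by omega), h1]
  cases hs : c.s b
  · rw [key 38 fun p hc hp => by
      rw [r3_X hp (hc.sX hs), x3, if_pos fun hO => by have := G.sadX b p hb hc hO; simp_all,
        r3_S hb, if_neg (by simp [hs]), sub_zero]]
    simp only [Bool.false_eq_true, if_false]; push_cast; linarith
  · rw [key (-(8 - P.ka)) fun p hc hp => by
      rw [r3_YN hp (hc.sY hs) fun h => h.not_sad hb, r3_S hb, if_pos hs, zero_sub]]
    simp only [if_true]; push_cast; linarith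

lemma sum_y3_le {y : X} {ρ : ℚ} (h : ∀ q, c.C y q → c.T q → y3 P y q ≤ ρ) :
    ∑ q ∈ (c.Nc y).filter c.T, (c.w y q : ℚ) * y3 P y q ≤ ρ * c.nt y := by
  rw [← sum_nt]
  refine Finset.sum_le_sum fun q hq => ?_
  rw [mem_filter, mem_Nc] at hq
  exact mul_le_mul_of_nonneg_left (h q hq.1 hq.2) (Nat.cast_nonneg _)

lemma le_np {y x : X} (hc : c.C y x) (hp : c.Pay x) : c.w y x ≤ c.np y :=
  Finset.single_le_sum (f := fun z => c.w y z) (fun _ _ => Nat.zero_le _)
    (show x ∈ (c.Nc y).filter c.Pay by simp [hc, hp])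
lemma le_nt {y x : X} (hc : c.C y x) (hp : c.T x) : c.w y x ≤ c.nt y :=
  Finset.single_le_sum (f := fun z => c.w y z) (fun _ _ => Nat.zero_le _)
    (show x ∈ (c.Nc y).filter c.T by simp [hc, hp])
lemma le_dS {y x : X} (hc : c.C y x) (hp : c.Sad x) : 1 ≤ c.dS y :=
  card_pos.2 ⟨x, by simp [hc, hp]⟩

lemma OH.F3_YS (G : c.OH) (ht : c.t = 3) {y : X} (hO : y ∉ c.O) (hp : c.Pay y)
    (hs : c.s y = false) : 0 ≤ F3 P y := by
  have a1 := G.netY3 (P := P) hp hs fun x _ _ => x3_bd x y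
  have a2 := G.cr_split y
  have a3 := hp.2.2 hO
  have a4 := G.degS hO
  have a5 := sum_y3_le (P := P) (y := y) fun q _ _ => y3_16 y q
  have n1 : (0 : ℚ) ≤ c.nt y := Nat.cast_nonneg _
  have n2 : (0 : ℚ) ≤ c.dS y := Nat.cast_nonneg _
  have n3 : (0 : ℚ) ≤ c.np y := Nat.cast_nonneg _
  have a6 : (c.cr y : ℚ) = c.nt y + c.dS y + c.np y := by exact_mod_cast a2
  obtain ⟨p1, p2, p3⟩ := P.h0
  have n4 := mul_nonneg (sub_nonneg.2 P.ka_bd.2) n2
  unfold F3 B3
  rw [if_neg hO, if_neg (by omega), if_neg (by simp [hs])]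
  by_cases h4 : 4 ≤ c.cr y
  · have : (4 : ℚ) ≤ c.cr y := by exact_mod_cast h4
    linarith
  by_cases h3 : c.cr y = 3
  · have e3 : (c.cr y : ℚ) = 3 := by exact_mod_cast h3
    by_cases b1 : ∀ q, c.C y q → c.T q → y3 P y q ≤ 10
    · have := sum_y3_le b1; linarith
    push Not at b1
    obtain ⟨q, hc, hq, hb⟩ := b1
    have := G.U11 hc.side; have := G.gmT hq; have := hc.pos; have := G.gm_eq y
    obtain ⟨u, hu, h0⟩ : ∃ u ∈ c.DN q, c.w y u = 0 := by
      by_cases d2 : (c.DN q).card = 2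
      · have := miss hc
        obtain ⟨u, hu⟩ := card_pos.1 (by omega : 0 < ((c.DN q).filter fun u => c.w y u = 0).card)
        exact ⟨u, mem_filter.1 hu⟩
      have g : c.Gad (c.KK q) := by
        by_contra g
        exact absurd (y3_10 d2 g) (not_le.2 hb)
      have g' := g
      obtain ⟨u, z, -, -, hu, -, hK, -⟩ := g'
      refine ⟨u, G.DN_eq hK.comp (mem_KK q) ▸ hu, ?_⟩
      by_contra h0
      exact hO (g.nb G.toOG ht hu ((DU_C hu (mem_KK q)).symm.toS hc.symm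
        (by rw [c.symm]; exact Nat.pos_of_ne_zero h0))).1
    have r := G.rd_of hp.nT hc hu h0
    have b2 : c.nt y = 1 := by
      unfold nt
      rw [eq_singleton_iff_unique_mem.2 ⟨(show q ∈ (c.Nc y).filter c.T by simp [hc, hq]),
        fun a ha => r.sup G.toOG hO (by omega) (mem_filter.1 ha).2 (mem_Nc.1 (mem_filter.1 ha).1)⟩,
        Finset.sum_singleton]
      omega
    rw [b2] at a5
    push_cast at a5
    linarith
  have h2 : (c.cr y : ℚ) = 2 := by exact_mod_cast (by omega : c.cr y = 2)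
  by_cases b0 : c.PT y
  · have b1 := sum_y3_le (P := P) (y := y) (ρ := - P.pi) fun q _ _ => by rw [y3, if_pos b0]
    have b2 : c.dS y = 0 := card_eq_zero.2 (filter_eq_empty_iff.2 fun b hb hS =>
      (b0.2 b (mem_Nc.1 hb)).not_sad hS)
    have b3 : c.np y = 0 := Finset.sum_eq_zero fun x hx => by
      rw [mem_filter, mem_Nc] at hx
      exact (hx.2.nT (b0.2 x hx.1)).elim
    rw [(by omega : c.nt y = 2)] at b1
    push_cast at b1
    linarith
  by_cases b1 : c.nt y = 0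
  · rw [b1] at a5 a6
    push_cast at a5 a6
    rcases P.h6 with e | e
    · rw [e] at a1; linarith
    · rw [e.2.1]; linarith
  obtain ⟨q, hq⟩ : ((c.Nc y).filter c.T).Nonempty := by
    by_contra hn
    exact b1 (by rw [nt, not_nonempty_iff_eq_empty.1 hn, Finset.sum_empty])
  rw [mem_filter, mem_Nc] at hq
  have po := G.poor_of hO (by omega) hq.1 hq.2
  obtain ⟨x, cx, nx⟩ : ∃ x, c.C y x ∧ ¬ c.T x := by
    by_contra hn
    push Not at hn
    exact b0 ⟨po, hn⟩
  have one : ∀ ρ : ℚ, c.nt y = 1 → (∀ a, c.C y a → c.T a → y3 P y a ≤ ρ) →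
      ∑ q ∈ (c.Nc y).filter c.T, (c.w y q : ℚ) * y3 P y q ≤ ρ := fun ρ h1 h2 => by
    simpa [h1] using sum_y3_le h2
  rcases G.cls cx with hT | hS | hP
  · exact absurd hT nx
  · have := le_dS cx hS
    have b2 := one (if P.ka = 0 then 4 else 0) (by omega) fun a ca ta => by
      rw [G.y3_nc (fun hK => hS.1 (hK.2 x (hK.mem_of_S (mem_KK a)
        (G.poor_sad po hS ta cx ca))).1) b0, if_neg hO]
      rcases P.h6 with e | e
      · rw [if_pos e]; exact (P.h3 a).2
      · rw [if_neg (by rw [e.1]; norm_num), e.2.2]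
    rw [(by omega : c.dS y = 1)] at a1
    push_cast at a1
    rcases P.h6 with e | e
    · rw [if_pos e] at b2; linarith
    · rw [if_neg (by rw [e.1]; norm_num)] at b2; linarith [e.1, e.2.1]
  · have := le_np cx hP; have := cx.pos
    have e1 : c.np y = 1 := by omega
    by_cases b2 : ∀ z, c.C y z → c.Pay z → z ∉ c.O
    · have a7 := G.netY3 (P := P) (b := 38) hp hs fun z cz hz => by rw [x3, if_pos (b2 z cz hz)]
      rw [(by omega : c.nt y = 1)] at a5
      rw [e1] at a7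
      push_cast at a5 a7
      linarith
    push Not at b2
    obtain ⟨z, cz, pz, oz⟩ := b2
    have b3 := one 4 (by omega) fun a ca ta => y3_0 (by
      by_contra hn
      obtain ⟨u, hu⟩ := card_pos.1 (Nat.pos_of_ne_zero hn)
      refine G.lemP ta (mem_DN.1 hu).2.1 (mem_DN.1 hu).1 po ca.symm hs fun v cv => ?_
      rcases G.cls cv with h | h | h
      · exact h.1
      · have := le_dS cv h; omega
      · by_contra nv
        have := Finset.sum_le_sum_of_subset (f := c.w y)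
          (show {z, v} ⊆ (c.Nc y).filter c.Pay by simp [insert_subset_iff, cz, pz, cv, h])
        rw [Finset.sum_pair fun e : z = v => nv (e ▸ oz)] at this
        have := cz.pos; have := cv.pos
        unfold np at e1
        omega)
    rw [e1] at a1
    push_cast at a1
    linarith

lemma OG.nord (G : c.OG) (ht : c.t = 3) {y q : X} (hO : y ∈ c.O) (h4 : 4 ≤ c.cr y)
    (hc : c.C y q) (h : ∀ u, ¬ c.Rd y q u) : (c.DN q).card ≠ 2 ∧ ¬ c.Red y q := by
  have hT : ¬ c.T y := fun h => by have := h.2.2.1; omega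
  refine ⟨fun e => ?_, fun r => ?_⟩
  · have := miss hc; have := G.deg hO
    obtain ⟨u, hu⟩ := card_pos.1 (by omega : 0 < ((c.DN q).filter fun u => c.w y u = 0).card)
    exact h u (G.rd_of hT hc (mem_filter.1 hu).1 (mem_filter.1 hu).2)
  · obtain ⟨u, hu, h0⟩ := r.resolve_left (not_not.2 hO)
    exact h u (G.rd_of hT hc hu h0)

lemma OG.allT (G : c.OG) {y : X} (h1 : c.dS y = 0) (h2 : c.np y = 0) {x : X} (hx : c.C y x) :
    c.T x := by
  rcases G.cls hx with h | h | h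
  · exact h
  · have := le_dS hx h; omega
  · have := le_np hx h; have := hx.pos; omega

lemma not_PT {y : X} (hO : y ∈ c.O) : ¬ c.PT y := fun h => h.1.1 hO

/-- surplus one, a red link -/
lemma OG.Y1_red (G : c.OG) (ht : c.t = 3) {y q u : X} (hO : y ∈ c.O) (h1 : c.cr y = c.t + 1)
    (r : c.Rd y q u) : ∑ x ∈ (c.Nc y).filter c.T, y3 P y x ≤ 10 + 14 * c.np y := by
  have hT : ¬ c.T y := fun h => by have := h.2.2.1; omega
  have s0 : c.dS y = 0 := card_eq_zero.2 (filter_eq_empty_iff.2 fun b hb hS =>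
    r.nosad G hO h1 hS (mem_Nc.1 hb))
  have a2 := G.cr_split y
  rw [nt_O hO] at a2
  have hq : q ∈ (c.Nc y).filter c.T := by simp [r.2.2.1, r.T]
  have eA : ((c.Nc y).filter c.T).card = c.dT y := rfl
  by_cases h0 : c.np y = 0
  · have al := fun x => G.allT (x := x) s0 h0
    have e : (c.Nc y).filter c.T = c.Nc y := filter_true_of_mem fun x hx => al x (mem_Nc.1 hx)
    rw [e] at hq eA
    have c1 := card_erase_add_one hq
    have hK : c.Comp ((c.Nc y).erase q) := clq_comp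
      (fun x hx => al x (mem_Nc.1 (mem_of_mem_erase hx))) (fun a ha b hb n => by
        simp only [mem_erase, mem_Nc] at ha hb
        exact r.adj G hO h1 (al a ha.2) (al b hb.2) ha.2 hb.2 ha.1 hb.1 n) (by omega)
    have qd : c.QD y q := ⟨hO, by omega, ⟨u, r⟩, hK⟩
    rw [e, h0]
    have b1 := sum_le_one (f := y3 P y) (b := - c.nu y) hq le_rfl fun x hx n => by
      rw [y3, if_neg (not_PT hO), if_pos ⟨q, qd, (hK.KK (mem_erase.2 ⟨n, hx⟩)).symm⟩]
    rw [eA, (by omega : c.dT y = 4)] at b1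
    have := nu_bd (c := c) y
    push_cast at b1 ⊢
    by_cases d2 : (c.DN q).card = 2
    · have := y3_16 (P := P) y q
      rw [nu, if_pos ⟨q, qd, d2⟩] at b1; linarith
    by_cases g : c.Gad (c.KK q)
    · have := y3_n2 (P := P) (p := y) d2
      have : 1 / 2 ≤ c.nu y := by
        unfold nu
        split_ifs with a b
        exacts [by norm_num, le_rfl, (b ⟨q, qd, g⟩).elim]
      linarith
    · have := y3_10 (P := P) (p := y) d2 g
      linarith
  by_cases h2 : c.np y = 1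
  swap
  · have b1 := sum_le_all (A := (c.Nc y).filter c.T) fun x _ => y3_16 (P := P) y x
    have : (c.dT y : ℚ) ≤ 2 := by exact_mod_cast (by omega : c.dT y ≤ 2)
    have : (2 : ℚ) ≤ c.np y := by exact_mod_cast (by omega : 2 ≤ c.np y)
    rw [eA] at b1
    linarith
  rw [h2]
  have d3 : c.dT y = 3 := by omega
  by_cases b1 : ∃ q' u', q' ≠ q ∧ c.Rd y q' u'
  · obtain ⟨q', u', n, r'⟩ := b1
    have hsub := G.two_rd hO h1 r r' n d3.ge
    have hK := r.comp G
    have e0 := eq_of_subset_of_card_le hsub (by rw [hK.1, eA]; omega)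
    have ha : ∀ z ∈ c.KK q, c.C y z := fun z hz => by
      rw [← e0] at hz; exact mem_Nc.1 (mem_filter.1 hz).1
    have b2 := sum_le_all (A := (c.Nc y).filter c.T) fun x hx => y3_7 (P := P) (p := y)
      (fun e => G.notall hO hT hK (by rw [← G.DN_eq hK (hsub hx), e, ht]) ha)
      (Or.inl ⟨hO, by rwa [hK.KK (hsub hx)]⟩)
    rw [eA, d3] at b2
    push_cast at b2 ⊢
    linarith
  push Not at b1
  have b2 := sum_le_one (f := y3 P y) (b := 4) hq (y3_16 y q) fun x hx n => by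
    rw [mem_filter, mem_Nc] at hx
    obtain ⟨k1, k2⟩ := G.nord ht hO (by omega) hx.1 fun u => b1 x u n
    refine (y3_4 k1 (fun _ => k2) fun g => ?_).1
    obtain ⟨a, ha, na⟩ : ∃ a ∈ (c.Nc y).filter c.T, a ∉ ({q, x} : Finset X) :=
      exists_mem_notMem_of_card_lt_card (by have := card_le_two (a := q) (b := x); omega)
    simp only [mem_filter, mem_Nc, mem_insert, mem_singleton, not_or] at ha na
    exact na.2 (g.uniq G ht hT hx.1 (mem_insert_of_mem (mem_Ns.2
      (r.adj G hO h1 hx.2 ha.2 hx.1 ha.1 n na.1 (Ne.symm na.2)))) ha.1)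
  rw [eA, d3] at b2
  push_cast at b2 ⊢
  linarith

/-- surplus one, no red link, the neighbours other than `q` are a component -/
lemma OG.Y1_rest (G : c.OG) (ht : c.t = 3) {y q : X} (hO : y ∈ c.O) (h1 : c.cr y = 4)
    (nr : ∀ q u, ¬ c.Rd y q u) (hc : c.C y q) (al : ∀ x, c.C y x → c.T x)
    (h : ∀ a b, c.C y a → c.C y b → a ≠ q → b ≠ q → a ≠ b →
      c.S a b ∧ ∀ p, c.PT p → c.C p a → c.C p b → False) {x : X} (hx : c.C y x) (n : x ≠ q) :
    y3 P y x ≤ 2 ∧ ((∀ z, c.QK z (c.KK x) → c.w y z = 0) → y3 P y x ≤ 1) := by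
  have c1 := card_erase_add_one (mem_Nc.2 hc)
  have c2 := card_Nc_ord hO fun x hx => (al x (mem_Nc.1 hx)).1
  have hK : c.Comp ((c.Nc y).erase q) := clq_comp
    (fun x hx => al x (mem_Nc.1 (mem_of_mem_erase hx))) (fun a ha b hb n => by
      simp only [mem_erase, mem_Nc] at ha hb
      exact (h a b ha.2 hb.2 ha.1 hb.1 n).1) (by omega)
  have hm := mem_erase.2 ⟨n, mem_Nc.2 hx⟩
  have e := hK.KK hm
  obtain ⟨k1, k2⟩ := G.nord ht hO h1.ge hx (nr x)
  obtain ⟨b, hb, nb⟩ := hK.two ht x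
  have k3 := y3_4 (P := P) k1 (fun _ => k2) fun g => nb (g.uniq G ht
    (fun h => by have := h.2.2.1; omega) hx (e ▸ hb) (mem_Nc.1 (mem_of_mem_erase hb)))
  have k4 : ¬ c.TwoQ (c.KK x) := fun g => g.all G ht hO
    (fun ⟨q', d, _⟩ => d.2.2.1.elim (nr q')) fun z hz => mem_Nc.1 (mem_of_mem_erase (e ▸ hz))
  have k5 : P.nd x = 0 := by
    by_contra hn
    obtain ⟨p, x', h1, h2, h3, h4⟩ := P.h4 x hn
    have := hK.mem_of_S hm h4
    rw [mem_erase, mem_Nc] at this
    exact (h x x' hx this.2 n this.1 h4.ne).2 p h1 h2 h3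
  exact ⟨k3.2.1 k4 (by rw [k5]; norm_num), k3.2.2 k4 (by rw [k5]; norm_num)⟩

lemma OG.F3_Y1 (G : c.OG) (ht : c.t = 3) {y : X} (hO : y ∈ c.O) (h1 : c.cr y = c.t + 1)
    (hs : c.s y = false) : 0 ≤ F3 P y := by
  have a1 := G.netY3 (P := P) ⟨G.nI y, fun _ => h1.ge, fun h => absurd hO h⟩ hs
    fun x _ _ => x3_bd x y
  have a2 := G.cr_split y
  have a3 := G.L3 hO
  have hT : ¬ c.T y := fun h => by have := h.2.2.1; omega
  rw [sum_wO hO] at a1
  rw [nt_O hO] at a2
  have n2 : (0 : ℚ) ≤ c.dS y := Nat.cast_nonneg _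
  have n3 : (0 : ℚ) ≤ c.np y := Nat.cast_nonneg _
  have n4 := mul_nonneg (sub_nonneg.2 P.ka_bd.2) n2
  have eA : ((c.Nc y).filter c.T).card = c.dT y := rfl
  have h4 : c.cr y = 4 := by omega
  unfold F3 B3
  rw [if_pos hO, if_neg (by simp [hs]), h4]
  push_cast
  by_cases b0 : ∃ q u, c.Rd y q u
  · obtain ⟨q, u, r⟩ := b0
    have := G.Y1_red (P := P) ht hO h1 r
    linarith
  push Not at b0
  have nq : ∀ K, ¬ c.QK y K := fun K ⟨q', d, _⟩ => d.2.2.1.elim (b0 q')
  have k1 := fun x (hx : c.C y x) => G.nord ht hO h4.ge hx (b0 x)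
  have k2 := fun x (hx : c.C y x) => y3_4 (P := P) (k1 x hx).1 fun _ => (k1 x hx).2
  have k7 := fun x (hx : c.C y x) => y3_7 (P := P) (k1 x hx).1 (Or.inr (k1 x hx).2)
  by_cases b1 : c.dT y = 4
  · have al := fun x => G.allT (y := y) (x := x) (by omega) (by omega)
    have fin : ∀ q (a b : ℚ), c.C y q → y3 P y q ≤ a → (∀ x, c.C y x → x ≠ q → y3 P y x ≤ b) →
        ∑ x ∈ (c.Nc y).filter c.T, y3 P y x ≤ a + b * 3 := fun q a b cq h1 h2 => by
      have := sum_le_one (A := (c.Nc y).filter c.T) (q := q) (by simp [cq, al q cq]) h1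
        fun x hx n => h2 x (mem_Nc.1 (mem_filter.1 hx).1) n
      rw [eA, b1] at this
      push_cast at this
      linarith
    by_cases c1 : ∃ q, c.C y q ∧ c.RG y q
    · obtain ⟨q, cq, g⟩ := c1
      obtain ⟨-, v, hv, sv⟩ := g.ex cq
      have far : ∀ z, c.s y = c.s z → z ≠ v → c.w y z = 0 := fun z sz n => by
        by_contra h0
        exact n (G.sm1 ht hO h4.ge (G.S_of sz (Nat.pos_of_ne_zero h0)) sv)
      obtain ⟨z, hz⟩ := g.2.1
      have sz : c.s y = c.s z := cq.symm.same (hz.C (mem_KK q)).symm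
      have nz := hz.nT ht
      have ne : y ≠ z := fun e => g.2.2.2 (e ▸ hz)
      have hv' := G.DN_eq hz.comp (mem_KK q) ▸ hv
      obtain ⟨q0, d, e⟩ := hz
      obtain ⟨u, r⟩ := d.2.2.1
      have := fin q 7 1 cq (k7 q cq) fun x cx n => (G.Y1_rest ht hO h4 b0 cq al
        (fun a b ca cb n1 n2 n3 => (d.comp2 G ht r (e ▸ mem_KK q) hO h4 cq ne
          (by rw [c.symm]; exact far z sz fun e => nz (e ▸ (mem_DN.1 hv).2.1))
          (far u (sz.trans r.su.symm) fun e' => d.notDN (e ▸ hv') (e' ▸ r.mem)) b0 (al a ca)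
          (al b cb) ca cb n1 n2 n3).imp_right fun h p hp => h p hp.1) cx n).2 fun z' hz' =>
        far z' (cx.symm.same (hz'.C (mem_KK x)).symm) fun e => hz'.nT ht (e ▸ (mem_DN.1 hv).2.1)
      linarith
    push Not at c1
    by_cases c2 : ∃ q, c.C y q ∧ c.TwoQ (c.KK q)
    · obtain ⟨q, cq, g⟩ := c2
      obtain ⟨z, q0, u, d, e, r, w1, w2⟩ := g.pick G ht hO h4 (mem_KK q) cq
      have := fin q 4 2 cq (k2 q cq (c1 q cq)).1 fun x cx n => (G.Y1_rest ht hO h4 b0 cq al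
        (fun a b ca cb n1 n2 n3 => (d.comp2 G ht r (e ▸ mem_KK q) hO h4 cq
          (fun e' => b0 q0 u (e' ▸ r)) w1 w2 b0 (al a ca) (al b cb) ca cb n1 n2 n3).imp_right
          fun h p hp => h p hp.1) cx n).1
      linarith
    push Not at c2
    by_cases c3 : ∃ q, c.C y q ∧ 2 < P.nd q
    · obtain ⟨q, cq, g⟩ := c3
      have := fin q 4 2 cq (k2 q cq (c1 q cq)).1 fun x cx n => (G.Y1_rest ht hO h4 b0 cq al
        (fun a b ca cb n1 n2 n3 => P.h5 q y a b g hO h4 hs cq ca cb (al a ca) (al b cb) n1 n2 n3 al)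
        cx n).1
      linarith
    push Not at c3
    have := sum_le_all (A := (c.Nc y).filter c.T) (b := 2) fun x hx =>
      have cx := mem_Nc.1 (mem_filter.1 hx).1
      (k2 x cx (c1 x cx)).2.1 (c2 x cx) (c3 x cx)
    rw [eA, b1] at this
    push_cast at this
    linarith
  have d3 : (c.dT y : ℚ) ≤ 3 := by exact_mod_cast (by omega : c.dT y ≤ 3)
  have b15 : ∑ x ∈ (c.Nc y).filter c.T, y3 P y x ≤ 15 := by
    by_cases c1 : ∃ q ∈ (c.Nc y).filter c.T, c.RG y q
    · obtain ⟨q, hq, g⟩ := c1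
      have cq := mem_Nc.1 (mem_filter.1 hq).1
      have := sum_le_one hq (k7 q cq) fun x hx n =>
        have cx := mem_Nc.1 (mem_filter.1 hx).1
        (k2 x cx fun g' => n (g.one G ht g' h4.ge cq cx)).1
      rw [eA] at this
      linarith
    · push Not at c1
      have := sum_le_all (A := (c.Nc y).filter c.T) fun x hx =>
        (k2 x (mem_Nc.1 (mem_filter.1 hx).1) (c1 x hx)).1
      rw [eA] at this
      linarith
  by_cases b2 : c.np y = 0
  swap
  · have : (1 : ℚ) ≤ c.np y := by exact_mod_cast (by omega : 1 ≤ c.np y)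
    linarith
  have e1 : c.dS y = 1 := by omega
  rcases P.h6 with e | e
  · rw [e, e1] at a1
    push_cast at a1
    linarith
  obtain ⟨b, hb⟩ := card_pos.1 (show 0 < ((c.Nc y).filter c.Sad).card from e1.ge)
  rw [mem_filter, mem_Nc] at hb
  have k3 : ∀ x, ¬ c.Comp (c.KK x) → y3 P y x ≤ 1 := fun x hx => by
    rw [G.y3_nc hx (not_PT hO), if_pos hO, e.2.2]; norm_num
  by_cases c1 : ∃ q ∈ (c.Nc y).filter c.T, c.RG y q
  · obtain ⟨q, hq, g⟩ := c1
    have cq := mem_Nc.1 (mem_filter.1 hq).1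
    have := sum_le_one hq (k7 q cq) fun x hx n =>
      have cx := mem_Nc.1 (mem_filter.1 hx).1
      k3 x fun hK => n (g.uniq G ht hT cq
        (G.sad2 hO h1 hb.2 hb.1 cq cx (g.2.1.elim fun _ h => h.comp) hK) cx)
    rw [eA] at this
    linarith
  push Not at c1
  by_cases c2 : ∃ q ∈ (c.Nc y).filter c.T, ¬ c.TwoQ (c.KK q)
  · obtain ⟨q, hq, g⟩ := c2
    have := sum_le_one hq ((k2 q (mem_Nc.1 (mem_filter.1 hq).1) (c1 q hq)).2.1 g
      (by rw [e.2.2]; norm_num)) fun x hx _ => (k2 x (mem_Nc.1 (mem_filter.1 hx).1) (c1 x hx)).1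
    rw [eA] at this
    linarith
  push Not at c2
  obtain ⟨q, hq⟩ := card_pos.1 (by omega : 0 < ((c.Nc y).filter c.T).card)
  have cp : ∀ x ∈ (c.Nc y).filter c.T, c.Comp (c.KK x) := fun x hx => by
    obtain ⟨_, _, _, h, _⟩ := c2 x hx
    exact h.comp
  have e0 := eq_of_subset_of_card_le (s := (c.Nc y).filter c.T) (t := c.KK q) (fun x hx =>
    G.sad2 hO h1 hb.2 hb.1 (mem_Nc.1 (mem_filter.1 hq).1) (mem_Nc.1 (mem_filter.1 hx).1) (cp q hq)
      (cp x hx)) (by rw [(cp q hq).1]; omega)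
  exact ((c2 q hq).all G ht hO (nq _) fun z hz => mem_Nc.1 (mem_filter.1 (e0 ▸ hz)).1).elim

end St

end

end Pool.Agent.Lib.MP_bb98d0_co
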