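import Pool.Agent.Lib.MP_bb98d0_co.M6

/-!
Degree 5: atoms of surplus two, tight atoms.
-/

namespace Pool.Agent.Lib.MP_bb98d0_co
open Finset Classical

noncomputable section

variable {X : Type*} [Fintype X]

omit [Fintype X] in
lemma sum_le_split {A : Finset X} {f : X → ℚ} (p : X → Prop) [DecidablePred p] {a b : ℚ}
    (h1 : ∀ x ∈ A, p x → f x ≤ a) (h2 : ∀ x ∈ A, ¬ p x → f x ≤ b) :
    ∑ x ∈ A, f x ≤ b * A.card + (a - b) * (A.filter p).card := by
  rw [card_filter, Finset.card_eq_sum_ones]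
  push_cast
  rw [Finset.mul_sum, Finset.mul_sum, ← Finset.sum_add_distrib]
  refine Finset.sum_le_sum fun x hx => ?_
  split_ifs with h
  · linarith [h1 x hx h]
  · linarith [h2 x hx h]

namespace St

variable {c : St X} {P : c.Pm}

lemma OG.rd5 (G : c.OG) (ht : c.t = 3) {y x u : X} (hO : y ∈ c.O) (h1 : c.cr y = c.t + 2)
    (cx : c.C y x) (hu : u ∈ c.DN x) : c.Rd y x u :=
  G.rd_of (fun h => by have := h.2.2.1; omega) cx hu (by
    by_contra h0
    have := w_le_sm (cx.symm.toS (mem_DN.1 hu).1 (Nat.pos_of_ne_zero h0))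
    have := G.deg hO
    omega)

lemma OG.Y2_val (G : c.OG) (ht : c.t = 3) {y q u q' u' : X} (hO : y ∈ c.O)
    (h1 : c.cr y = c.t + 2) (h0 : c.np y = 0) (v : c.Val y q u q' u') :
    ∑ x ∈ (c.Nc y).filter c.T, y3 P y x ≤ 44 := by
  obtain ⟨s0, hK⟩ := v.rest G hO h1 h0
  have hT : ¬ c.T y := fun h => by have := h.2.2.1; omega
  have a2 := G.cr_split y
  rw [nt_O hO] at a2
  have eA : ((c.Nc y).filter c.T).card = 5 := by unfold dT at a2; omega
  have mk : ∀ x ∈ (c.Nc y).filter c.T, x ≠ q → x ≠ q' →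
      x ∈ (((c.Nc y).filter c.T).erase q).erase q' := fun x hx m1 m2 =>
    mem_erase.2 ⟨m2, mem_erase.2 ⟨m1, hx⟩⟩
  have hq : q ∉ (((c.Nc y).filter c.T).erase q).erase q' := by simp
  have hq' : q' ∉ (((c.Nc y).filter c.T).erase q).erase q' := by simp
  have ha : ∀ z ∈ (((c.Nc y).filter c.T).erase q).erase q', c.C y z := fun z hz =>
    mem_Nc.1 (mem_filter.1 (mem_of_mem_erase (mem_of_mem_erase hz))).1
  generalize (((c.Nc y).filter c.T).erase q).erase q' = K at hK mk hq hq' ha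
  have m1 : q ∈ (c.Nc y).filter c.T := by simp [v.1.2.2.1, v.1.T]
  have m2 : q' ∈ (c.Nc y).filter c.T := by simp [v.2.1.2.2.1, v.2.1.T]
  rcases (c.DU K).eq_empty_or_nonempty with e | ⟨z, hz⟩
  · have := sum_le_two m1 m2 v.2.2.1.symm (y3_16 (P := P) y q) (y3_16 y q') fun x hx n1 n2 =>
      y3_0 (by rw [G.DN_eq hK (mk x hx n1 n2), e, card_empty])
    rw [eA] at this
    push_cast at this
    linarith
  have key : ∀ a b, a ∈ (c.Nc y).filter c.T → b ∈ (c.Nc y).filter c.T → a ∉ K → b ∉ K → a ≠ b →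
      (c.DN a).card ≠ 2 := fun a b ma mb na nb n d2 => by
    rw [mem_filter, mem_Nc] at ma mb
    obtain ⟨x, hx, -⟩ := hK.two ht a
    obtain ⟨x', hx', n'⟩ := hK.two ht x
    have hc := G.comp_pos (q := a) (by omega)
    obtain ⟨w, v'⟩ := G.val_O1 ht hO h1 ma.1 (ha x hx) d2 (G.DN_eq hK hx ▸ hz) fun h =>
      na (hc.unique hK h hx ▸ mem_KK a)
    exact nb (hK.mem_of_S hx' (v'.adj G hO h1 (G.compT hK hx') mb.2 (ha x' hx') mb.1
      (fun e => na (e ▸ hx')) n.symm n' (fun e => nb (e ▸ hx)) fun e => nb (e ▸ hx')))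
  have := sum_le_two m1 m2 v.2.2.1.symm (y3_n2 (P := P) (p := y) (key q q' m1 m2 hq hq' v.2.2.1))
    (y3_n2 (key q' q m2 m1 hq' hq v.2.2.1.symm)) fun x hx n1 n2 =>
      y3_7 (fun e => G.notall hO hT hK (by rw [← G.DN_eq hK (mk x hx n1 n2), e, ht]) ha)
        (Or.inl ⟨hO, by rwa [hK.KK (mk x hx n1 n2)]⟩)
  rw [eA] at this
  push_cast at this
  linarith

lemma OG.Y2_nov (G : c.OG) (ht : c.t = 3) {y : X} (hO : y ∈ c.O) (h1 : c.cr y = c.t + 2)
    (hv : ∀ q u q' u', ¬ c.Val y q u q' u') : ∑ x ∈ (c.Nc y).filter c.T, y3 P y x ≤ 44 := by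
  have d5 : ((c.Nc y).filter c.T).card ≤ 5 := by have := dT_le (c := c) y; unfold dT at this; omega
  have d5' : (((c.Nc y).filter c.T).card : ℚ) ≤ 5 := by exact_mod_cast d5
  have hC : ∀ x ∈ (c.Nc y).filter c.T, c.C y x := fun x hx => mem_Nc.1 (mem_filter.1 hx).1
  have hm : ∀ x, c.C y x → c.T x → x ∈ (c.Nc y).filter c.T := fun x h1 h2 => by simp [h1, h2]
  generalize (c.Nc y).filter c.T = A at d5 d5' hC hm
  by_cases b0 : ∃ q ∈ A, (c.DN q).card = 2
  · obtain ⟨q, hq, d2⟩ := b0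
    have := sum_le_one hq (y3_16 (P := P) y q) fun x hx n => y3_0 (by
      by_contra hn
      obtain ⟨v, hv'⟩ := card_pos.1 (Nat.pos_of_ne_zero hn)
      by_cases e : x ∈ c.KK q
      · have hK := G.comp_pos (q := q) (by omega)
        obtain ⟨_, _, h⟩ := G.val_OO hO h1 (hC q hq) (hC x hx) n.symm (by omega)
          (by rw [G.DN_eq hK e, ← G.DN_eq hK (mem_KK q)]; omega)
        exact hv _ _ _ _ h
      · obtain ⟨_, h⟩ := G.val_O1 ht hO h1 (hC q hq) (hC x hx) d2 hv' e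
        exact hv _ _ _ _ h)
    linarith
  push Not at b0
  by_cases b1 : ∃ q, c.Comp (c.KK q) ∧ c.All y q
  · obtain ⟨q, hK, hA⟩ := b1
    have h3 : (3 : ℚ) ≤ (A.filter fun x => x ∈ c.KK q).card := by
      have : c.KK q ⊆ A.filter fun x => x ∈ c.KK q := fun x hx =>
        mem_filter.2 ⟨hm x (hA.2 x hx) (G.compT hK hx), hx⟩
      have := card_le_card this
      rw [hK.1, ht] at this
      exact_mod_cast this
    have := sum_le_split (A := A) (f := y3 P y) (fun x => x ∈ c.KK q)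
      (fun x hx h => y3_7 (b0 x hx) (Or.inl ⟨hO, by rw [hK.KK h]; exact hA.2⟩))
      fun x hx _ => y3_n2 (b0 x hx)
    linarith
  push Not at b1
  have two : ∀ q, c.Comp (c.KK q) → (A.filter fun x => x ∈ c.KK q).card ≤ 2 := fun q hK => by
    by_contra hn
    have e := eq_of_subset_of_card_le (s := A.filter fun x => x ∈ c.KK q) (t := c.KK q)
      (fun x hx => (mem_filter.1 hx).2) (by rw [hK.1]; omega)
    exact b1 q hK ⟨hO, fun x hx => hC x (mem_filter.1 (e ▸ hx)).1⟩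
  have adj : ∀ q ∈ A, ∀ x ∈ A, x ∉ c.KK q → ∀ u ∈ c.DN q, ∀ v ∈ c.DN x, c.S u v :=
    fun q hq x hx n u hu v hv' =>
      have r := G.rd5 ht hO h1 (hC q hq) hu
      have r' := G.rd5 ht hO h1 (hC x hx) hv'
      G.S_of (r.su.trans r'.su.symm) (Nat.pos_of_ne_zero fun h0 =>
        hv _ _ _ _ (val_diff G r r' n h0))
  by_cases b2 : ∃ q ∈ A, c.Gad (c.KK q)
  · obtain ⟨q, hq, g⟩ := b2
    have g' := g
    obtain ⟨u, z, -, -, hu, -, hK, -⟩ := g'
    have h2 : ((A.filter fun x => x ∈ c.KK q).card : ℚ) ≤ 2 := by exact_mod_cast two q hK.comp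
    have := sum_le_split (A := A) (f := y3 P y) (fun x => x ∈ c.KK q)
      (fun x hx _ => y3_n2 (b0 x hx)) fun x hx n => y3_0 (by
        by_contra hn
        obtain ⟨v, hv'⟩ := card_pos.1 (Nat.pos_of_ne_zero hn)
        exact (g.nb G ht hu (adj q hq x hx n u (G.DN_eq hK.comp (mem_KK q) ▸ hu) v hv')).2
          (mem_DN.1 hv').2.1)
    linarith
  push Not at b2
  by_cases b3 : ∃ q ∈ A, (c.DN q).card = 0
  · obtain ⟨q, hq, d0⟩ := b3
    have := sum_le_one hq (y3_0 (P := P) (p := y) d0) fun x hx _ => y3_10 (b0 x hx) (b2 x hx)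
    linarith
  push Not at b3
  by_cases b4 : A.card ≤ 4
  · have := sum_le_all (A := A) fun x hx => y3_10 (P := P) (p := y) (b0 x hx) (b2 x hx)
    have : (A.card : ℚ) ≤ 4 := by exact_mod_cast b4
    linarith
  exfalso
  have ex := fun x hx => card_pos.1 (Nat.pos_of_ne_zero (b3 x hx))
  obtain ⟨q1, h1'⟩ := card_pos.1 (by omega : 0 < A.card)
  obtain ⟨u1, k1⟩ := ex q1 h1'
  have t1 := two q1 (G.comp_KK k1)
  obtain ⟨q2, h2', n2⟩ := exists_mem_notMem_of_card_lt_card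
    (show (A.filter fun x => x ∈ c.KK q1).card < A.card by omega)
  obtain ⟨u2, k2⟩ := ex q2 h2'
  have t2 := two q2 (G.comp_KK k2)
  obtain ⟨q3, h3', n3⟩ := exists_mem_notMem_of_card_lt_card
    (show ((A.filter fun x => x ∈ c.KK q1) ∪ A.filter fun x => x ∈ c.KK q2).card < A.card by
      have := card_union_le (A.filter fun x => x ∈ c.KK q1) (A.filter fun x => x ∈ c.KK q2)
      omega)
  obtain ⟨u3, k3⟩ := ex q3 h3'
  simp only [mem_union, mem_filter, h2', h3', true_and, not_or] at n2 n3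
  have r := G.rd5 ht hO h1 (hC q1 h1') k1
  have := (G.k2t ht k1 (mem_DN.1 k2).2.1 (mem_DN.1 k3).2.1 (adj q1 h1' q2 h2' n2 u1 k1 u2 k2)
    (adj q1 h1' q3 h3' n3.1 u1 k1 u3 k3) (adj q2 h2' q3 h3' n3.2 u2 k2 u3 k3) y
    (hC q1 h1').symm r.2.2.2.1).2.1
  have := G.deg hO; have := r.2.2.2.2
  omega

lemma OG.F3_Y2 (G : c.OG) (ht : c.t = 3) {y : X} (hO : y ∈ c.O) (h1 : c.cr y = c.t + 2)
    (hs : c.s y = false) : 0 ≤ F3 P y := by
  have a1 := G.netY3 (P := P) ⟨G.nI y, fun _ => by omega, fun h => absurd hO h⟩ hs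
    fun x _ _ => x3_bd x y
  have a2 := G.cr_split y
  rw [sum_wO hO] at a1
  rw [nt_O hO] at a2
  have n2 : (0 : ℚ) ≤ c.dS y := Nat.cast_nonneg _
  have n4 := mul_nonneg (sub_nonneg.2 P.ka_bd.2) n2
  have eA : ((c.Nc y).filter c.T).card = c.dT y := rfl
  unfold F3 B3
  rw [if_pos hO, if_neg (by simp [hs]), (by omega : c.cr y = 5)]
  push_cast
  by_cases h0 : c.np y = 0
  · have : ∑ x ∈ (c.Nc y).filter c.T, y3 P y x ≤ 44 := by
      by_cases hv : ∃ q u q' u', c.Val y q u q' u'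
      · obtain ⟨q, u, q', u', v⟩ := hv
        exact G.Y2_val ht hO h1 h0 v
      · push Not at hv
        exact G.Y2_nov ht hO h1 hv
    rw [h0] at a1
    push_cast at a1
    linarith
  have p1 : (1 : ℚ) ≤ c.np y := by exact_mod_cast (by omega : 1 ≤ c.np y)
  by_cases h3 : c.dT y ≤ 3
  · have := sum_le_all (A := (c.Nc y).filter c.T) fun x _ => y3_16 (P := P) y x
    have : (c.dT y : ℚ) ≤ 3 := by exact_mod_cast h3
    rw [eA] at *
    linarith
  have b2 := sum_le_split (A := (c.Nc y).filter c.T) (f := y3 P y) (fun x => (c.DN x).card = 2)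
    (fun x _ _ => y3_16 y x) fun x _ h => y3_n2 h
  have b3 : (((c.Nc y).filter c.T).filter fun x => (c.DN x).card = 2).card ≤ 2 := by
    by_contra hn
    obtain ⟨q1, q2, q3, m1, m2, m3, n1, n2, n3⟩ := two_lt_card_iff.1 (not_le.1 hn)
    obtain ⟨a, ha, na⟩ : ∃ a ∈ (c.Nc y).filter c.T, a ∉ ({q1, q2, q3} : Finset X) :=
      exists_mem_notMem_of_card_lt_card (by
        have := card_le_three (a := q1) (b := q2) (c := q3); omega)
    simp only [mem_filter, mem_Nc, mem_insert, mem_singleton, not_or] at m1 m2 m3 ha na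
    have key : ∀ q q' q'', (c.C y q ∧ c.T q) ∧ (c.DN q).card = 2 →
        (c.C y q' ∧ c.T q') ∧ (c.DN q').card = 2 → c.C y q'' ∧ c.T q'' → q ≠ q' → q'' ≠ q →
        q'' ≠ q' → a ≠ q → a ≠ q' → a ≠ q'' → c.S a q'' := fun q q' q'' m m' m'' n k1 k2 k3 k4 k5 => by
      obtain ⟨_, _, v⟩ := G.val_OO hO h1 m.1.1 m'.1.1 n (by omega) (by omega)
      exact v.adj G hO h1 ha.2 m''.2 ha.1 m''.1 k3 k1 k4 k2 k5
    exact n3 (ha.2.sm2 ht (key q2 q3 q1 m2 m3 m1.1 n3 n1 n2 na.2.1 na.2.2 na.1)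
      (key q1 q3 q2 m1 m3 m2.1 n2 n1.symm n3 na.1 na.2.2 na.2.1)
      (key q1 q2 q3 m1 m2 m3.1 n1 n2.symm n3.symm na.1 na.2.1 na.2.2) n1 n2)
  have b4 : ((((c.Nc y).filter c.T).filter fun x => (c.DN x).card = 2).card : ℚ) ≤ 2 := by
    exact_mod_cast b3
  have : (c.dT y : ℚ) ≤ 4 := by exact_mod_cast (by omega : c.dT y ≤ 4)
  rw [eA] at b2
  linarith

lemma OH.F3_Y (G : c.OH) (ht : c.t = 3) {y : X} (hp : c.Pay y) (hs : c.s y = false) :
    0 ≤ F3 P y := by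
  by_cases hO : y ∈ c.O
  swap
  · exact G.F3_YS ht hO hp hs
  have := hp.2.1 hO; have := G.deg hO
  by_cases h1 : c.cr y = c.t + 1
  exacts [G.F3_Y1 ht hO h1 hs, G.F3_Y2 ht hO (by omega) hs]

lemma F3_TX {q : X} (ht : c.t = 3) (hq : c.T q) (hs : c.s q = true) :
    F3 P q = c.net (r3 P) q := by
  rw [F3, B3, if_pos hq.1, if_pos hs, hq.2.2.1, ht]; simp

lemma OG.F3_TY (G : c.OG) (ht : c.t = 3) {y : X} (hy : c.T y) (hs : c.s y = false) :
    -24 ≤ F3 P y ∧ (¬ c.Dp y → 0 ≤ F3 P y) := by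
  have a1 := G.np_T hy
  have a2 := G.dp_iff hy
  have a5 : ∀ p, c.C y p → c.Pay p → r3 P p y - r3 P y p = c.x3 p y := fun p hc hp => by
    rw [r3_X hp (hc.sX hs), r3_TN hy hp.nT, sub_zero]
  have a6 := pay_ge (x := y) fun p hc hp => (x3_bd p y).trans (a5 p hc hp).ge
  have a4 : ∀ z ∈ (c.Nc y).filter c.T, r3 P z y - r3 P y z =
      (if c.Gd z then 2 else 0) - if c.dT y = 1 then 4 else 0 := fun z hz => by
    rw [mem_filter, mem_Nc] at hz
    rw [r3_TX hz.2 hy (hz.1.sX hs), r3_TY hy hz.2 hs]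
  have a3 : ∀ z, (0 : ℚ) ≤ if c.Gd z then 2 else 0 := fun z => by split_ifs <;> norm_num
  have a7 := Finset.sum_nonneg (s := (c.Nc y).filter c.T) fun z _ => a3 z
  have eA : ((c.Nc y).filter c.T).card = c.dT y := rfl
  rw [F3, B3, if_pos hy.1, if_neg (by simp [hs]), G.net_T hy, Finset.sum_congr rfl a4,
    Finset.sum_sub_distrib, Finset.sum_const, eA, hy.2.2.1, ht]
  have n3 : (0 : ℚ) ≤ c.np y := Nat.cast_nonneg _
  by_cases h1 : c.dT y = 1
  · rw [if_pos h1, h1]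
    rw [(by omega : c.np y = 2)] at a6
    simp only [one_smul]
    push_cast at a6 ⊢
    exact ⟨by linarith, fun _ => by linarith⟩
  rw [if_neg h1, smul_zero]
  push_cast
  refine ⟨by linarith, fun hd => ?_⟩
  by_cases h2 : c.dT y + 1 = c.t
  swap
  · rw [(by have := a2.not.1 hd; omega : c.np y = 3)] at a6
    push_cast at a6
    linarith
  obtain ⟨p, hc, hp⟩ := G.ex_pay hy (by omega)
  have a8 := pay_ge2 (x := y) (fun p hc hp => (x3_bd p y).trans (a5 p hc hp).ge) hc hp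
    (a5 p hc hp).ge
  rw [(by omega : c.np y = 1), x3] at a8
  push_cast at a8
  split_ifs at a8 with b1 b2 b4
  · obtain ⟨z, hz, gz⟩ := G.fj b1 b4.1 b4.2 (mem_filter.2 ⟨mem_Nc.2 hc.symm, b2⟩)
    have := Finset.single_le_sum (s := (c.Nc y).filter c.T) (fun z _ => a3 z)
      (show z ∈ _ by simp [hz, gz.1])
    rw [if_pos gz] at this
    linarith
  · linarith
  · exact (b2 ⟨hy, h2⟩).elim
  · linarith

/-- two kinds of links at a tight atom -/
lemma net_two {q : X} (hq : c.T q) {r : X → X → ℚ} (p : X → Prop) {ν ρ : ℚ}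
    (h1 : ∀ x, c.C q x → p x → c.w q x = 1 ∧ -ν ≤ r x q - r q x)
    (h2 : ∀ x, c.C q x → ¬ p x → ρ ≤ r x q - r q x) :
    ρ * c.t - (ν + ρ) * ((c.Nc q).filter p).card ≤ c.net r q := by
  rw [← hq.2.2.1, cr_cast, card_filter]
  push_cast
  rw [Finset.mul_sum, Finset.mul_sum, ← Finset.sum_sub_distrib]
  refine Finset.sum_le_sum fun x hx => ?_
  rw [mem_Nc] at hx
  split_ifs with h
  · rw [(h1 x hx h).1]; push_cast; linarith [(h1 x hx h).2]
  · rw [mul_zero, sub_zero, mul_comm]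
    exact mul_le_mul_of_nonneg_left (h2 x hx h) (Nat.cast_nonneg _)

lemma OG.link (G : c.OG) {q x : X} (hq : c.T q) (hs : c.s q = true) (hc : c.C q x) :
    (c.Pay x ∧ r3 P x q - r3 P q x = y3 P x q) ∨ (c.T x ∧ r3 P x q - r3 P q x =
      (if c.dT x = 1 then 4 else 0) - if c.Gd q then 2 else 0) := by
  rcases G.cls hc with h | h | h
  · exact Or.inr ⟨h, by rw [r3_TY h hq (hc.sY hs), r3_TX hq h hs]⟩
  · exact (G.L1T h hq hc.symm).elim
  · exact Or.inl ⟨h, by rw [r3_YT h (hc.sY hs) hq, r3_TN hq h.nT, sub_zero]⟩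

lemma OG.nu0 (G : c.OG) (ht : c.t = 3) {q y z : X} (h0 : c.DN q = ∅) (hy : c.QK y (c.KK q))
    (hz : c.T z) (hc : c.C q z) (h2 : c.dT z ≠ 1) : c.nu y = 0 := by
  have hK := hy.comp
  have tq := G.compT hK (mem_KK q)
  have nd : ∀ x, c.C q x → ¬ c.Dp x := fun x h1 h2 => by
    have := mem_DN.2 ⟨h1, h2⟩
    simp [h0] at this
  have h3 := dT_pos hc.symm tq
  unfold dT at h2 h3
  rw [G.TR hK (mem_RK.2 ⟨hz, q, mem_KK q, hc⟩)] at h2 h3
  obtain ⟨q2, m2, n2⟩ := exists_mem_ne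
    (by omega : 1 < ((c.KK q).filter fun x => c.C z x).card) q
  rw [mem_filter] at m2
  have hN := (G.bigy hK (mem_KK q) hz hc m2.1 n2 m2.2 fun e =>
    nd z hc (G.dp hK (mem_DU.2 ⟨hz, e⟩))).1
  have cy := (hy.C (mem_KK q)).symm
  have n : y ≠ z := fun e => hy.nT ht (e ▸ hz)
  obtain ⟨d, cd, n1, n3, -⟩ := tq.three ht cy hc hy.O hz.1 n
  obtain ⟨-, k1, k2⟩ := hN y cy n
  have := G.deg hy.O; have := hy.cr
  obtain ⟨q0, h, e⟩ := hy
  exact h.qtnu G ht (e ▸ mem_KK q) hz hc (by omega) (h.missall G ht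
    (cy.toS cd (k2 d cd n3.symm n1)) fun m => nd d cd (mem_DN.1 m).2)

lemma y3_ge {p q : X} (h0 : c.DN q = ∅) (h1 : ¬ c.PT p) (h2 : ¬ c.QK p (c.KK q)) :
    (c.TwoQ (c.KK q) → y3 P p q = 4) ∧ (p ∈ c.O ∨ c.Comp (c.KK q) → 1 ≤ y3 P p q) ∧
      ((∀ z, ¬ c.QK z (c.KK q)) → P.nd q ≤ y3 P p q) := by
  have := max_le4 P q
  rw [y3, if_neg h1, if_neg h2, h0, card_empty, if_neg (by omega), if_neg (by omega)]
  refine ⟨fun h => if_pos h, fun h => ?_, fun h => ?_⟩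
  · rw [if_pos h]
    split_ifs <;> linarith
  · rw [if_neg fun ⟨z, _, _, a, _⟩ => h z a, if_neg fun ⟨z, a, _⟩ => h z a]
    split_ifs <;> linarith

lemma OH.F3_T0 (G : c.OH) (ht : c.t = 3) {q : X} (hq : c.T q) (hs : c.s q = true)
    (h0 : c.DN q = ∅) : 0 ≤ F3 P q := by
  rw [F3_TX ht hq hs]
  have t3 : (c.t : ℚ) = 3 := by rw [ht]; rfl
  have i4 : ∀ x, (0 : ℚ) ≤ if c.dT x = 1 then 4 else 0 := fun x => by split_ifs <;> norm_num
  by_cases g : c.Gd q
  · have nK : ¬ c.Comp (c.KK q) := fun h => g.2.2.2 _ h (mem_KK q)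
    have := net_two (r := r3 P) (ν := 2) (ρ := 1) hq c.T (fun x hx tx => by
      refine ⟨w_one hq.1 tx.1 hx.pos, ?_⟩
      rcases G.link (P := P) hq hs hx with h | h
      · exact absurd tx h.1.nT
      · rw [h.2, if_pos g]; linarith [i4 x]) fun x hx tx => by
      rcases G.link (P := P) hq hs hx with h | h
      · rw [h.2]
        exact (y3_ge h0 (not_PT (g.2.2.1 x hx)) fun a => nK a.comp).2.1 (Or.inl (g.2.2.1 x hx))
      · exact absurd h.1 tx
    have e : ((c.Nc q).filter c.T).card = 1 := g.2.1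
    rw [e, t3] at this
    push_cast at this
    linarith
  have lk : ∀ x, c.C q x → (c.Pay x ∧ r3 P x q - r3 P q x = y3 P x q) ∨
      (c.T x ∧ r3 P x q - r3 P q x = if c.dT x = 1 then 4 else 0) := fun x hx => by
    simpa only [if_neg g, sub_zero] using G.link (P := P) hq hs hx
  have nn : ∀ (ρ : ℚ), ρ = 0 → (∀ x, c.C q x → c.Pay x → ρ ≤ y3 P x q) → 0 ≤ c.net (r3 P) q :=
    fun ρ e h => Finset.sum_nonneg fun x hx => mul_nonneg (Nat.cast_nonneg _) (by
      rcases lk x (mem_Nc.1 hx) with a | a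
      · rw [a.2, ← e]; exact h x (mem_Nc.1 hx) a.1
      · rw [a.2]; exact i4 x)
  by_cases hQ : ∃ y, c.QK y (c.KK q)
  swap
  · push Not at hQ
    by_cases j0 : ∃ p, c.C q p ∧ c.PT p
    swap
    · push Not at j0
      exact nn 0 rfl fun x hx _ => (P.h3 q).1.trans ((y3_ge h0 (j0 x hx) (hQ x)).2.2 hQ)
    obtain ⟨p, cp, pp⟩ := j0
    have := net_two (r := r3 P) (ν := P.pi) (ρ := P.nd q) hq c.PT (fun x hx px => by
      refine ⟨by rw [c.symm]; exact G.w_T (px.1.gm G.toOG).le hq hx.symm, ?_⟩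
      rcases lk x hx with h | h
      · rw [h.2, y3, if_pos px]
      · exact absurd h.1.1 px.1.1) fun x hx px => by
      rcases lk x hx with h | h
      · rw [h.2]; exact (y3_ge h0 px (hQ x)).2.2 hQ
      · exact (G.lemP hq h.1 hx pp.1 cp (cp.sY hs) fun v hv => (pp.2 v hv).1).elim
    have h2 := P.h2 q hq hs
    unfold jP at h2
    rw [t3] at this
    linarith
  obtain ⟨y, hy⟩ := hQ
  have hK := hy.comp
  have np : ∀ x, c.C q x → ¬ c.PT x := fun x hx px => by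
    obtain ⟨q0, h, e⟩ := hy
    exact h.nopoor G ht (e ▸ mem_KK q) px.1 hx (hx.sY hs) fun v hv => (px.2 v hv).1
  by_cases b1 : ∃ z, c.C q z ∧ c.T z ∧ c.dT z ≠ 1
  · obtain ⟨z, cz, tz, dz⟩ := b1
    refine nn 0 rfl fun x hx _ => ?_
    by_cases e : c.QK x (c.KK q)
    · rw [y3, if_neg (np x hx), if_pos e, G.nu0 ht h0 e tz cz dz, neg_zero]
    · linarith [(y3_ge (P := P) h0 (np x hx) e).2.1 (Or.inr hK)]
  push Not at b1
  have key : ∀ ν ρ : ℚ, ρ ≤ 4 → (∀ x, c.QK x (c.KK q) → c.nu x ≤ ν) →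
      (∀ x, c.C q x → ¬ c.QK x (c.KK q) → ρ ≤ y3 P x q) →
      ρ * 3 - (ν + ρ) * ((c.Nc q).filter fun x => c.QK x (c.KK q)).card ≤ c.net (r3 P) q :=
    fun ν ρ k1 k2 k3 => t3 ▸ net_two hq (fun x => c.QK x (c.KK q)) (fun x hx e => by
      refine ⟨w_one hq.1 e.O hx.pos, ?_⟩
      rcases lk x hx with h | h
      · rw [h.2, y3, if_neg (np x hx), if_pos e]; linarith [k2 x e]
      · exact absurd h.1 (e.nT ht)) fun x hx e => by
      rcases lk x hx with h | h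
      · rw [h.2]; exact k3 x hx e
      · rw [h.2, if_pos (b1 x hx h.1)]; exact k1
  have m2 : ((c.Nc q).filter fun x => c.QK x (c.KK q)).card ≤ 2 := by
    by_contra hn
    obtain ⟨a, b, d, m1, m2, m3, n1, n2, n3⟩ := two_lt_card_iff.1 (not_le.1 hn)
    rw [mem_filter] at m1 m2 m3
    exact G.all3 ht hK m1.2.O m2.2.O m3.2.O n1 n2 n3 (fun _ h => m1.2.C h) (fun _ h => m2.2.C h)
      fun _ h => m3.2.C h
  have m2' : (((c.Nc q).filter fun x => c.QK x (c.KK q)).card : ℚ) ≤ 2 := by exact_mod_cast m2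
  by_cases b2 : c.TwoQ (c.KK q)
  · have := key 2 4 le_rfl (fun x _ => (nu_bd x).2) fun x hx e =>
      ((y3_ge h0 (np x hx) e).1 b2).ge
    linarith
  have k1 := fun x hx e => (y3_ge (P := P) h0 (np x hx) e).2.1 (Or.inr hK)
  by_cases b3 : ((c.Nc q).filter fun x => c.QK x (c.KK q)).card ≤ 1
  · have := key 2 1 (by norm_num) (fun x _ => (nu_bd x).2) k1
    have : (((c.Nc q).filter fun x => c.QK x (c.KK q)).card : ℚ) ≤ 1 := by exact_mod_cast b3
    linarith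
  have := key (1 / 2) 1 (by norm_num) (fun x e => by
    obtain ⟨x', m, n⟩ := exists_mem_ne (not_le.1 b3) x
    rw [nu, if_neg fun a => b2 ⟨x, x', n.symm, e, (mem_filter.1 m).2, a⟩]
    split_ifs <;> norm_num) k1
  linarith

end St

end

end Pool.Agent.Lib.MP_bb98d0_co
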