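import Pool.Agent.Lib.MP_bb98d0_co.M7

/-!
Degree 5: groups and the three regimes.
-/

namespace Pool.Agent.Lib.MP_bb98d0_co
open Finset Classical

noncomputable section

variable {X : Type*} [Fintype X]

omit [Fintype X] in
lemma sum_ge_24 {K : Finset X} {F : X → ℚ} (p : X → Prop) (ρ : ℚ) (h3 : K.card = 3)
    (h1 : ∀ q ∈ K, ∀ q' ∈ K, ¬ p q → ¬ p q' → q = q') (a1 : ∀ q ∈ K, p q → ρ ≤ F q) (a2 : 8 ≤ ρ)
    (a3 : ∀ q ∈ K, ¬ p q → 24 ≤ F q + 2 * ρ) : 24 ≤ ∑ q ∈ K, F q := by
  by_cases h : ∃ q ∈ K, ¬ p q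
  · obtain ⟨q, hq, n⟩ := h
    have := St.sum_le_one (f := fun x => - F x) (b := -ρ) hq le_rfl fun x hx m => neg_le_neg
      (a1 x hx (by
        by_contra n'
        exact m (h1 x hx q hq n' n)))
    rw [Finset.sum_neg_distrib, h3] at this
    push_cast at this
    linarith [a3 q hq n]
  · push Not at h
    have := St.sum_le_all (A := K) (f := fun x => - F x) (b := -ρ) fun x hx =>
      neg_le_neg (a1 x hx (h x hx))
    rw [Finset.sum_neg_distrib, h3] at this
    push_cast at this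
    linarith

namespace St

variable {c : St X} {P : c.Pm}

lemma OH.K_sum (G : c.OH) (ht : c.t = 3) {K : Finset X} (hK : c.Comp K) {u : X} (hu : u ∈ c.DU K)
    (sK : ∀ q ∈ K, c.s q = true) : 24 * ((c.DU K).card : ℚ) ≤ ∑ q ∈ K, F3 P q := by
  have tK := fun q hq => G.compT hK (x := q) hq
  have tu := (mem_DU.1 hu).1
  have t3 : (c.t : ℚ) = 3 := by rw [ht]; rfl
  rw [Finset.sum_congr rfl fun q hq => F3_TX (P := P) ht (tK q hq) (sK q hq)]
  have lk : ∀ q ∈ K, ∀ x, c.C q x → (c.Pay x ∧ r3 P x q - r3 P q x = y3 P x q) ∨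
      (c.T x ∧ r3 P x q - r3 P q x = if c.dT x = 1 then 4 else 0) := fun q hq x hx => by
    simpa only [if_neg fun g : c.Gd q => g.2.2.2 K hK hq, sub_zero] using
      G.link (P := P) (tK q hq) (sK q hq) hx
  have i4 : ∀ x, (0 : ℚ) ≤ if c.dT x = 1 then 4 else 0 := fun x => by split_ifs <;> norm_num
  have np : ∀ q ∈ K, ∀ x, c.C q x → ¬ c.PT x := fun q hq x hx px =>
    G.lemP (tK q hq) tu (DU_C hu hq).symm px.1 hx (hx.sY (sK q hq)) fun v hv => (px.2 v hv).1
  have s1 := G.ds_le hK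
  have s0 := card_pos.2 ⟨u, hu⟩
  have k3 : K.card = 3 := hK.1.trans ht
  by_cases h2 : (c.DU K).card = 2
  · have := Finset.card_nsmul_le_sum K (c.net (r3 P)) 16 fun q hq => by
      have := net_two (r := r3 P) (ν := 0) (ρ := 16) (tK q hq) c.T (fun x hx tx => by
        refine ⟨w_one (tK q hq).1 tx.1 hx.pos, ?_⟩
        rcases lk q hq x hx with h | h
        · exact absurd tx h.1.nT
        · rw [h.2, neg_zero]; exact i4 x) fun x hx tx => by
        rcases lk q hq x hx with h | h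
        · rw [h.2, y3, if_neg (np q hq x hx), hK.KK hq, if_neg fun a : c.QK x K =>
            G.notall a.O tx hK (by omega) fun _ h => a.C h, G.DN_eq hK hq, if_pos h2]
        · exact absurd h.1 tx
      have b1 := dT_K (c := c) hq
      rw [G.R_eq hK (by omega), h2] at b1
      have b2 : (((c.Nc q).filter c.T).card : ℚ) ≤ 2 := by exact_mod_cast b1
      rw [t3] at this
      linarith
    rw [k3] at this
    rw [h2]
    norm_num at this ⊢
    exact this
  have h1 : (c.DU K).card = 1 := by omega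
  have one : ∀ q ∈ K, ∀ z, c.C q z → c.T z → z ≠ u → c.dT z = 1 := fun q hq z hc hz n => by
    have := dT_pos hc.symm (tK q hq)
    have := G.alpha hK hu (mem_RK.2 ⟨hz, q, hq, hc⟩) fun h => n (card_le_one.1 h1.le z h u hu)
    omega
  have yv : ∀ q ∈ K, ∀ x, c.C q x → ¬ c.QK x K → y3 P x q =
      if c.Red x q then (if c.All x q then 7 else if c.Gad K then 23 / 2 else 10)
      else if ∃ z, c.QK z K then 7 else 1 := fun q hq x hx n => by
    rw [y3, if_neg (np q hq x hx), hK.KK hq, if_neg n, G.DN_eq hK hq, if_neg h2, if_pos h1]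
  have re : ∀ q ∈ K, ∀ q' ∈ K, (¬ ∃ y, c.C q y ∧ c.Pay y ∧ c.Red y q) →
      (¬ ∃ y, c.C q' y ∧ c.Pay y ∧ c.Red y q') → q = q' := fun q hq q' hq' n n' => by
    have a := G.red_ex hK hu
    rw [h1, ht] at a
    exact card_le_one.1 (Nat.le_of_add_le_add_right (b := 2) a) q (mem_filter.2 ⟨hq, n⟩) q'
      (mem_filter.2 ⟨hq', n'⟩)
  rw [h1, Nat.cast_one, mul_one]
  by_cases hQ : ∃ y, c.QK y K
  · obtain ⟨y, hy⟩ := hQ
    have sy := hy.full G.toOG ht hu
    have nb := nu_bd (c := c) y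
    have thr : ∀ q ∈ K, ∃ d, c.C q d ∧ u ≠ d ∧ y ≠ d ∧ ¬ c.QK d K ∧
        (∀ x, c.C q x → c.Pay x → c.Red x q → x = d) ∧
        c.net (r3 P) q = - c.nu y + (r3 P d q - r3 P q d) := fun q hq => by
      have cu := (DU_C hu hq).symm
      have cy := (hy.C hq).symm
      obtain ⟨d, cd, n1, n2, e⟩ := (tK q hq).three ht cu cy tu.1 hy.O sy.ne.symm
      refine ⟨d, cd, n1, n2, fun a => G.all3 ht hK tu.1 hy.O a.O sy.ne.symm n1 n2
        (fun _ h => DU_C hu h) (fun _ h => hy.C h) fun _ h => a.C h, fun x hx px rx => ?_, ?_⟩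
      · have := mem_Nc.2 hx
        rw [(tK q hq).Nc3 ht cu cy cd sy.ne.symm n1 n2] at this
        simp only [mem_insert, mem_singleton] at this
        rcases this with rfl | rfl | rfl
        · exact absurd tu px.nT
        · obtain ⟨v, hv, w0⟩ := rx.resolve_left (not_not.2 hy.O)
          have := (hy.full G.toOG ht (G.DN_eq hK hq ▸ hv)).pos
          omega
        · rfl
      · rw [e]
        rcases lk q hq u cu with h | h
        · exact absurd tu h.1.nT
        rw [h.2, if_neg (by rw [(G.full_R hK (DU_sub hK hu)).2 (mem_DU.1 hu).2]; omega)]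
        rcases lk q hq y cy with h | h
        · rw [h.2, y3, if_neg (not_PT hy.O), hK.KK hq, if_pos hy, zero_add]
        · exact absurd h.1 (hy.nT ht)
    have R10 : (10 : ℚ) ≤ if c.Gad K then 23 / 2 else 10 := by split_ifs <;> norm_num
    refine sum_ge_24 _ ((if c.Gad K then 23 / 2 else 10) - c.nu y) k3 re
      (fun q hq ⟨x, hx, px, rx⟩ => ?_) (by linarith) fun q hq n => ?_
    · obtain ⟨d, cd, n1, n2, n3, e1, e2⟩ := thr q hq
      obtain rfl := e1 x hx px rx
      rw [e2]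
      rcases lk q hq x hx with h | h
      · rw [h.2, yv q hq x hx n3, if_pos rx, if_neg fun a : c.All x q =>
          G.all3 ht hK tu.1 hy.O a.1 sy.ne.symm n1 n2 (fun _ h => DU_C hu h) (fun _ h => hy.C h)
            (hK.KK hq ▸ a.2)]
        linarith
      · exact absurd h.1 px.nT
    · obtain ⟨d, cd, n1, n2, n3, -, e2⟩ := thr q hq
      rw [e2]
      rcases lk q hq d cd with h | h
      · have nr : ¬ c.Red d q := fun r => n ⟨d, cd, h.1, r⟩
        rw [h.2, yv q hq d cd n3, if_neg nr, if_pos ⟨y, hy⟩]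
        by_cases o : c.QO y
        · unfold Red at nr
          push Not at nr
          rw [if_pos ⟨u, y, q, d, hu, o, hy, hq, cd, n2.symm, nr.1,
            Nat.pos_of_ne_zero (nr.2 u (G.DN_eq hK hq ▸ hu))⟩]
          linarith
        · have : c.nu y ≤ 1 / 2 := by
            rw [nu, if_neg o]
            split_ifs <;> norm_num
          linarith
      · rw [h.2, if_pos (one q hq d cd h.1 n1.symm)]
        have : c.nu y = 0 := by
          obtain ⟨q0, h0, e⟩ := hy
          refine h0.qtnu G.toOG ht (e ▸ hq) h.1 cd ?_ (h0.missall G.toOG ht sy (h0.notDN (e ▸ hu)))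
          by_contra w0
          exact n1 (G.sm1 ht h0.1 h0.2.1.ge sy ((h0.C (e ▸ hq)).symm.toS cd
            (Nat.pos_of_ne_zero w0)))
        linarith
  push Not at hQ
  have y1 : ∀ q ∈ K, ∀ x, c.C q x → c.Pay x → 1 ≤ r3 P x q - r3 P q x := fun q hq x hx px => by
    rcases lk q hq x hx with h | h
    · rw [h.2, yv q hq x hx (hQ x)]
      split_ifs <;> norm_num
    · exact absurd h.1 px.nT
  have tp : ∀ q ∈ K, 2 - (c.np q : ℚ) ≤ ∑ z ∈ (c.Nc q).filter c.T, (r3 P z q - r3 P q z) :=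
    fun q hq => by
      have := sum_le_one (A := (c.Nc q).filter c.T) (f := fun z => - (r3 P z q - r3 P q z))
        (q := u) (a := 0) (b := -1) (by simp [(DU_C hu hq).symm, tu]) (by
          rcases lk q hq u (DU_C hu hq).symm with h | h
          · exact absurd tu h.1.nT
          · rw [h.2]; linarith [i4 u]) fun z hz n => by
          rw [mem_filter, mem_Nc] at hz
          rcases lk q hq z hz.1 with h | h
          · exact absurd hz.2 h.1.nT
          · rw [h.2, if_pos (one q hq z hz.1 hz.2 n)]; norm_num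
      have e := G.np_cast (tK q hq)
      rw [Finset.sum_neg_distrib] at this
      unfold dT at e
      linarith
  have ext : ∀ q ∈ K, ∀ x, c.C q x → c.Pay x → 1 + y3 P x q ≤ c.net (r3 P) q :=
    fun q hq x hx px => by
      have := pay_ge2 (y1 q hq) hx px (((lk q hq x hx).resolve_right fun h => px.nT h.1).2.ge)
      rw [G.net_T (tK q hq)]
      linarith [tp q hq]
  by_cases h3 : ∃ q ∈ K, ∃ y, c.Pay y ∧ c.Red y q ∧ c.All y q
  · obtain ⟨q0, hq0, y, hy, hr, ha⟩ := h3
    refine sum_ge_24 (fun _ => True) 8 k3 (by simp) (fun q hq _ => ?_) le_rfl (by simp)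
    have ha' : c.All y q := ⟨ha.1, by rw [hK.KK hq, ← hK.KK hq0]; exact ha.2⟩
    have cy := (ha'.2 q (mem_KK q)).symm
    have := ext q hq y cy hy
    rw [yv q hq y cy (hQ y), if_pos (by
      unfold Red at hr ⊢; rwa [G.DN_eq hK hq, ← G.DN_eq hK hq0]), if_pos ha'] at this
    linarith
  refine sum_ge_24 _ 11 k3 re (fun q hq ⟨x, hx, px, rx⟩ => ?_) (by norm_num) fun q hq _ => ?_
  · have := ext q hq x hx px
    rw [yv q hq x hx (hQ x), if_pos rx, if_neg fun a => h3 ⟨q, hq, x, px, rx, a⟩] at this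
    split_ifs at this <;> linarith
  · have := pay_ge (y1 q hq)
    rw [G.net_T (tK q hq)]
    linarith [tp q hq]

lemma OH.F3_group (G : c.OH) (ht : c.t = 3) {u : X} (hu : c.Dp u) (hs : c.s u = false) :
    0 ≤ ∑ x ∈ c.GG u, F3 P x := by
  have hK := hu.comp G.toOG
  have hm := hu.mem
  have sK : ∀ q ∈ c.Nc u, c.s q = true := fun q hq => (mem_Nc.1 hq).sX hs
  have sR : ∀ z ∈ c.RK (c.Nc u), c.s z = false := fun z hz => by
    obtain ⟨-, q, hq, hc⟩ := mem_RK.1 hz
    exact hc.sY (sK q hq)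
  unfold GG
  rw [Finset.sum_union (Finset.disjoint_left.2 fun x h1 h2 => by
    have := (sK x h1).symm.trans (sR x h2)
    simp at this)]
  generalize c.Nc u = K at hK hm sK sR
  have b0 := G.K_sum (P := P) ht hK hm sK
  rw [← Finset.sum_sdiff (DU_sub hK)]
  have b1 := Finset.card_nsmul_le_sum (c.DU K) (F3 P) (-24) fun z hz =>
    (G.F3_TY ht (mem_DU.1 hz).1 (sR z (DU_sub hK hz))).1
  have b2 := Finset.sum_nonneg (s := c.RK K \ c.DU K) (f := F3 P) fun z hz => by
    rw [mem_sdiff] at hz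
    obtain ⟨tz, q, hq, hc⟩ := mem_RK.1 hz.1
    exact (G.F3_TY ht tz (sR z hz.1)).2 fun d => hz.2 (G.DN_eq hK hq ▸ mem_DN.2 ⟨hc, d⟩)
  rw [nsmul_eq_mul] at b1
  linarith

theorem OH.sum_B3 (G : c.OH) (ht : c.t = 3) (P : c.Pm) : 0 ≤ ∑ x, B3 P x := by
  have e : ∑ x, F3 P x = ∑ x, B3 P x := by
    simp only [F3, Finset.sum_add_distrib, sum_net, add_zero]
  rw [← e]
  refine G.sum_groups _ (fun u hu hs => G.F3_group ht hu hs) fun x hx => ?_
  rcases G.kinds x with hT | hS | hP | ⟨hO, h0⟩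
  · cases hs : c.s x
    · exact (G.F3_TY ht hT hs).2 fun hd => hx x hd hs (mem_union_right _ (hd.self G.toOG))
    · refine G.F3_T0 ht hT hs (eq_empty_of_forall_notMem fun u hu => ?_)
      rw [mem_DN] at hu
      exact hx u hu.2 (hu.1.sY hs) (mem_union_left _ (mem_Nc.2 hu.1.symm))
  · exact G.F3_sad hS
  · cases hs : c.s x
    exacts [G.F3_Y ht hP hs, G.F3_X ht hP hs]
  · simp [F3, B3, hO, h0, (Fu_zero G.toOG hO h0 (r3 P)).2]

end St

end

end Pool.Agent.Lib.MP_bb98d0_co
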