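import Pool.Agent.Lib.MP_bb98d0_co.M8

/-!
Degree 5: choice of the parameters and the penalised cut bound.
-/

namespace Pool.Agent.Lib.MP_bb98d0_co
open Finset Classical

noncomputable section

variable {X : Type*} [Fintype X]

def Net.costK (N : Net X) (κ : ℚ) (x : X) : ℚ :=
  if x ∈ N.O then (2 * N.t + κ) / (2 * N.t + 1 - N.e)
  else if N.mu x = 0 then 0 else κ - 2 * N.mu x

namespace St

def Big (c : St X) (m : ℕ) : Prop := 4 ≤ bal c.O c.s ∨ c.nS true + m + 1 ≤ c.nS false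

def b6 (c : St X) (x : X) : ℤ :=
  if x ∈ c.O then (if c.s x = true then 14 * c.cr x - 40 else 5 * c.cr x - 21)
  else if c.mu x = 0 then 0 else if c.s x = true then 14 * c.cr x - 12 else 5 * c.cr x - 12

variable {c : St X}

lemma OH.mirL (G : c.OH) {m : ℕ} (hB : c.Big m) (A B : List X) (W : Finset X) (dA : A.Nodup)
    (dB : B.Nodup) (sA : ∀ a ∈ A, c.s a = true) (sB : ∀ b ∈ B, c.s b = false)
    (f : (A.map c.oi).sum = (B.map c.oi).sum + 2) (oA : ∀ a ∈ A, a ∈ c.O) (hW : W.card ≤ m)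
    (oB : ∀ b ∈ B, b ∈ c.O ∨ (b ∈ W ∧ c.PT b)) : 0 < c.GW A B := by
  by_contra hn
  have key : ∀ x ∈ A.toFinset ∪ B.toFinset, x ∉ c.O → x ∈ W ∧ c.PT x := fun x hx hO => by
    rcases mem_union.1 hx with h | h
    · exact absurd (oA x (List.mem_toFinset.1 h)) hO
    · exact (oB x (List.mem_toFinset.1 h)).resolve_left hO
  have h1 := PP_same (c := c) (S := A.toFinset ∪ B.toFinset) fun x hx hO z hz =>
    ((key x hx hO).2.2 z ((key x hx hO).2.1.nb G.toOG hz)).1
  have h2 := nS_le (c := c) (A.toFinset ∪ B.toFinset) true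
  have h3 : ((A.toFinset ∪ B.toFinset) \ c.O).card ≤ W.card := card_le_card fun x hx =>
    (key x (mem_sdiff.1 hx).1 (mem_sdiff.1 hx).2).1
  have h4 := G.zero
  unfold Big at hB
  rcases G.mir A.toFinset B.toFinset (fun a ha => by simp [sA a (List.mem_toFinset.1 ha)])
    (fun b hb => sB b (List.mem_toFinset.1 hb))
    (by rw [List.sum_toFinset _ dA, List.sum_toFinset _ dB]; exact f)
    (by rw [GV_list dA dB]; omega) with h | h
  · omega
  · unfold Ph at h
    omega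

lemma PT.two (G : c.OG) {p q : X} (hp : c.PT p) (hc : c.C p q) : ∃ q', q' ≠ q ∧ c.C p q' := by
  by_contra hn
  push Not at hn
  have h1 := G.w_T (hp.1.gm G).le (hp.2 q hc) hc
  have h2 := hp.1.2.1
  have := Finset.sum_le_sum_of_subset (f := c.w p) (show c.Nc p ⊆ {q} from fun x hx => by
    by_contra e
    exact hn x (by simpa using e) (mem_Nc.1 hx))
  rw [Finset.sum_singleton] at this
  unfold cr at h2
  omega

lemma OH.pt_adj (G : c.OH) {m : ℕ} (hB : c.Big (m + 1)) {p q q' : X} (hp : c.PT p)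
    (hs : c.s q = true) (h1 : c.C p q) (h2 : c.C p q') (n : q ≠ q') : c.S q q' := by
  have t1 := hp.2 q h1
  have t2 := hp.2 q' h2
  have := G.mirL hB [q, q'] [p] {p} (by simp [n]) (by simp) (by simp [hs, h2.same h1])
    (by simp [h1.symm.sY hs]) (by simp [oi_O t1.1, oi_O t2.1, oi_N hp.1.1]) (by simp [t1.1, t2.1])
    (by simp) (by simp [hp])
  simp only [GW, pr, List.map_cons, List.map_nil, List.sum_cons, List.sum_nil, G.gmT t1, G.gmT t2,
    hp.1.gm G.toOG] at this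
  have := h1.symm.pos; have := h2.symm.pos
  exact h1.toS h2 (by omega)

lemma OH.nodouble (G : c.OH) (hB : c.Big 2) {p p' q q' : X} (hp : c.PT p) (hp' : c.PT p')
    (hs : c.s q = true) (h1 : c.C p q) (h2 : c.C p q') (h3 : c.C p' q) (h4 : c.C p' q')
    (n : q ≠ q') : p = p' := by
  by_contra n'
  have t1 := hp.2 q h1
  have t2 := hp.2 q' h2
  have := G.mirL hB [q, q'] [p, p'] {p, p'} (by simp [n]) (by simp [n'])
    (by simp [hs, h2.same h1]) (by simp [h1.symm.sY hs, h3.symm.sY hs])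
    (by simp [oi_O t1.1, oi_O t2.1, oi_N hp.1.1, oi_N hp'.1.1]) (by simp [t1.1, t2.1])
    card_le_two (by simp [hp, hp'])
  simp only [GW, pr, List.map_cons, List.map_nil, List.sum_cons, List.sum_nil, G.gmT t1, G.gmT t2,
    hp.1.gm G.toOG, hp'.1.gm G.toOG, hp'.1.w0 G.toOG (h3.symm.same h1.symm)] at this
  have := h1.symm.pos; have := h2.symm.pos; have := h3.symm.pos; have := h4.symm.pos
  have := c.simple q t1.1 q' t2.1
  omega

lemma OH.jP_le (G : c.OH) (ht : c.t = 3) (hB : c.Big 2) {q : X} (hq : c.T q)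
    (hs : c.s q = true) : c.jP q ≤ 2 := by
  by_contra hn
  obtain ⟨p1, p2, p3, m1, m2, m3, n1, n2, n3⟩ := two_lt_card_iff.1 (not_le.1 hn)
  rw [mem_filter, mem_Nc] at m1 m2 m3
  obtain ⟨q1, k1, c1⟩ := m1.2.two G.toOG m1.1.symm
  obtain ⟨q2, k2, c2⟩ := m2.2.two G.toOG m2.1.symm
  obtain ⟨q3, k3, c3⟩ := m3.2.two G.toOG m3.1.symm
  have := hq.sm2 ht (G.pt_adj hB m1.2 hs m1.1.symm c1 k1.symm)
    (G.pt_adj hB m2.2 hs m2.1.symm c2 k2.symm) (G.pt_adj hB m3.2 hs m3.1.symm c3 k3.symm)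
    (fun e => n1 (G.nodouble hB m1.2 m2.2 hs m1.1.symm c1 m2.1.symm (e ▸ c2) k1.symm))
    fun e => n2 (G.nodouble hB m1.2 m3.2 hs m1.1.symm c1 m3.1.symm (e ▸ c3) k1.symm)
  exact n3 (G.nodouble hB m2.2 m3.2 hs m2.1.symm c2 m3.1.symm (this ▸ c3) k2.symm)

lemma OH.h3 (G : c.OH) (ht : c.t = 3) (hB : c.Big 2) {q y a b : X} (hq : c.T q) (h2 : c.jP q = 2)
    (hO : y ∈ c.O) (h4 : c.cr y = 4) (hs : c.s y = false) (cq : c.C y q) (ca : c.C y a)
    (cb : c.C y b) (n1 : a ≠ q) (n2 : b ≠ q) (n3 : a ≠ b) (al : ∀ x, c.C y x → c.T x) :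
    c.S a b ∧ ∀ p, c.PT p → c.C p a → c.C p b → False := by
  have sq := cq.sX hs
  have gy := G.gm1 (j := 1) hO (by omega)
  obtain ⟨p1, p2, n, e⟩ := card_eq_two.1 h2
  have m1 : p1 ∈ (c.Nc q).filter c.PT := by simp [e]
  have m2 : p2 ∈ (c.Nc q).filter c.PT := by simp [e]
  rw [mem_filter, mem_Nc] at m1 m2
  obtain ⟨q1, k1, c1⟩ := m1.2.two G.toOG m1.1.symm
  obtain ⟨q2, k2, c2⟩ := m2.2.two G.toOG m2.1.symm
  have s1 := m1.1.sY sq
  have s2 := m2.1.sY sq
  have j1 : y ≠ p1 := fun e => m1.2.1.1 (e ▸ hO)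
  have j2 : y ≠ p2 := fun e => m2.2.1.1 (e ▸ hO)
  have cov : ∀ x, c.C y x → c.w q x ≤ c.w x p1 + c.w x p2 := fun x hx => by
    have := c.simple q hq.1 x (al x hx).1
    by_cases h0 : c.w q x = 0
    · omega
    by_cases e : q1 = x
    · have := (e ▸ c1).symm.pos; omega
    have := hq.sm2 ht (G.pt_adj hB m1.2 sq m1.1.symm c1 k1.symm)
      (G.pt_adj hB m2.2 sq m2.1.symm c2 k2.symm) (cq.toS hx (Nat.pos_of_ne_zero h0))
      (fun e => n (G.nodouble hB m1.2 m2.2 sq m1.1.symm c1 m2.1.symm (e ▸ c2) k1.symm)) e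
    have := (this ▸ c2).symm.pos
    omega
  have adj : ∀ a b, c.C y a → c.C y b → a ≠ q → b ≠ q → a ≠ b → c.S a b :=
    fun a b ca cb n1 n2 n3 => by
      have ta := al a ca
      have tb := al b cb
      have := G.mirL hB [q, a, b] [y, p1, p2] {p1, p2} (by simp [n1.symm, n2.symm, n3])
        (by simp [n, j1, j2]) (by simp [sq, ca.sX hs, cb.sX hs]) (by simp [hs, s1, s2])
        (by simp [oi_O hq.1, oi_O ta.1, oi_O tb.1, oi_O hO, oi_N m1.2.1.1, oi_N m2.2.1.1])
        (by simp [hq.1, ta.1, tb.1]) card_le_two (by simp [hO, m1.2, m2.2])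
      simp only [GW, pr, List.map_cons, List.map_nil, List.sum_cons, List.sum_nil, G.gmT hq,
        G.gmT ta, G.gmT tb, gy, m1.2.1.gm G.toOG, m2.2.1.gm G.toOG,
        m1.2.1.w0 G.toOG (s1.trans hs.symm), m2.2.1.w0 G.toOG (s2.trans hs.symm),
        m2.2.1.w0 G.toOG (s2.trans s1.symm)] at this
      have := cq.symm.pos; have := ca.symm.pos; have := cb.symm.pos; have := m1.1.pos
      have := m2.1.pos; have := cov a ca; have := cov b cb
      exact ca.toS cb (by omega)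
  refine ⟨adj a b ca cb n1 n2 n3, fun p hp pa pb => ?_⟩
  obtain ⟨d, hd, nd⟩ : ∃ d ∈ c.Nc y, d ∉ ({q, a, b} : Finset X) :=
    exists_mem_notMem_of_card_lt_card (by
      have := card_le_three (a := q) (b := a) (c := b)
      have := card_Nc_ord hO fun x hx => (al x (mem_Nc.1 hx)).1
      omega)
  simp only [mem_Nc, mem_insert, mem_singleton, not_or] at hd nd
  have w0 : ∀ a b, c.C y a → c.C y b → a ≠ q → b ≠ q → a ≠ b → d ≠ a → d ≠ b → c.w q a = 0 :=
    fun a b ca cb n1 n2 n3 n4 n5 => by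
      by_contra h0
      exact n5 ((al a ca).sm2 ht (cq.toS ca (Nat.pos_of_ne_zero h0)).symm
        (adj a d ca hd n1 nd.1 n4.symm) (adj a b ca cb n1 n2 n3) (Ne.symm nd.1) n2.symm)
  have ta := al a ca
  have tb := al b cb
  have sp := pa.symm.sY (ca.sX hs)
  have j3 : y ≠ p := fun e => hp.1.1 (e ▸ hO)
  have := G.mirL hB [q, a, b] [y, p] {p} (by simp [n1.symm, n2.symm, n3])
    (by simp [j3]) (by simp [sq, ca.sX hs, cb.sX hs]) (by simp [hs, sp])
    (by simp [oi_O hq.1, oi_O ta.1, oi_O tb.1, oi_O hO, oi_N hp.1.1])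
    (by simp [hq.1, ta.1, tb.1]) (by simp) (by simp [hO, hp])
  simp only [GW, pr, List.map_cons, List.map_nil, List.sum_cons, List.sum_nil, G.gmT hq,
    G.gmT ta, G.gmT tb, gy, hp.1.gm G.toOG, hp.1.w0 G.toOG (sp.trans hs.symm),
    w0 a b ca cb n1 n2 n3 nd.2.1 nd.2.2, w0 b a cb ca n2 n1 n3.symm nd.2.2 nd.2.1] at this
  have := cq.symm.pos; have := ca.symm.pos; have := cb.symm.pos; have := pa.symm.pos
  have := pb.symm.pos; have := c.simple a ta.1 b tb.1
  omega

lemma OH.ex_pt (G : c.OH) {m : ℕ} (hB : c.Big (m + 1)) {q : X} (hs : c.s q = true)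
    (h : 0 < c.jP q) : ∃ p q', c.PT p ∧ c.C p q ∧ c.C p q' ∧ c.S q q' := by
  obtain ⟨p, hp⟩ := card_pos.1 h
  rw [mem_filter, mem_Nc] at hp
  obtain ⟨q', n, h⟩ := hp.2.two G.toOG hp.1.symm
  exact ⟨p, q', hp.2, hp.1.symm, h, G.pt_adj hB hp.2 hs hp.1.symm h n.symm⟩

lemma OH.ex_pm (G : c.OH) (ht : c.t = 3) :
    ∃ P : c.Pm, P.ep * c.nS false ≤ P.ka * c.nS true + 4 := by
  by_cases hB : c.Big 2
  · refine ⟨⟨2, 0, 0, fun q => if c.T q ∧ c.s q = true then
      (if c.jP q = 1 then 1 else if c.jP q = 2 then 4 else 0) else 0, by norm_num,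
      fun q hq hs => ?_, fun q => ?_, fun q h => ?_,
      fun q y a b h hO h4 hs cq ca cb _ _ n1 n2 n3 al => ?_, Or.inl rfl⟩, by norm_num⟩
    · have := G.jP_le ht hB hq hs
      rw [if_pos ⟨hq, hs⟩]
      generalize c.jP q = j at *
      interval_cases j <;> norm_num
    · split_ifs <;> norm_num
    · split_ifs at h with a b d
      exacts [G.ex_pt hB a.2 (by omega), G.ex_pt hB a.2 (by omega), absurd rfl h, absurd rfl h]
    · split_ifs at h with a b d
      · norm_num at h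
      · exact G.h3 ht hB a.1 d hO h4 hs cq ca cb n1 n2 n3 al
      · norm_num at h
      · norm_num at h
  by_cases h1 : c.nS false ≤ 2 * c.nS true + 1
  · refine ⟨⟨0, 4, 8, fun _ => 0, by norm_num, fun q _ _ => by simp, fun q => by norm_num,
      fun q h => absurd rfl h, fun q y a b h => by norm_num at h, Or.inr ⟨rfl, rfl, fun _ => rfl⟩⟩,
      ?_⟩
    have : (c.nS false : ℚ) ≤ 2 * c.nS true + 1 := by exact_mod_cast h1
    show (4 : ℚ) * _ ≤ 8 * _ + 4
    linarith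
  have h2 : c.nS false = 2 := by unfold Big at hB; omega
  have hB' : c.Big (0 + 1) := Or.inr (by unfold Big at hB; omega)
  refine ⟨⟨1, 2, 0, fun q => if c.s q = true ∧ 0 < c.jP q then 2 else 0, by norm_num,
    fun q hq hs => ?_, fun q => ?_, fun q h => ?_, fun q y a b h => ?_, Or.inl rfl⟩,
    by rw [h2]; norm_num⟩
  · have : c.jP q ≤ c.nS false := card_le_card fun p hp => by
      rw [mem_filter, mem_Nc] at hp
      exact mem_filter.2 ⟨mem_univ _, hp.2.1.1, hp.2.1.mu G.toOG, hp.1.sY hs⟩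
    rw [h2] at this
    generalize c.jP q = j at *
    interval_cases j <;> norm_num [hs]
  · split_ifs <;> norm_num
  · split_ifs at h with a
    exacts [G.ex_pt hB' a.1 a.2, absurd rfl h]
  · split_ifs at h <;> norm_num at h

lemma OH.sum_b6 (G : c.OH) (ht : c.t = 3) : 0 ≤ ∑ x, c.b6 x := by
  obtain ⟨P, hP⟩ := G.ex_pm ht
  have h1 := G.sum_B3 ht P
  have h2 : ∀ x, B3 P x = 6 * (c.b6 x : ℚ) - 4 * ((sgn (c.s x) : ℚ) * c.cr x)
      - P.ka * (if x ∉ c.O ∧ c.mu x ≠ 0 ∧ c.s x = true then 1 else 0)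
      + P.ep * (if x ∉ c.O ∧ c.mu x ≠ 0 ∧ c.s x = false then 1 else 0) := fun x => by
    unfold B3 b6
    by_cases hO : x ∈ c.O
    · cases hs : c.s x <;> simp [hO, sgn] <;> ring
    by_cases m0 : c.mu x = 0
    · have := G.degS hO
      simp [hO, m0, (by omega : c.cr x = 0)]
    · cases hs : c.s x <;> simp [hO, m0, sgn] <;> ring
  simp only [h2, Finset.sum_add_distrib, Finset.sum_sub_distrib, ← Finset.mul_sum, sum_sgn_cr,
    Finset.sum_boole] at h1
  unfold nS at hP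
  have h3 : (-1 : ℚ) < (∑ x, c.b6 x : ℤ) := by push_cast; linarith
  have : -1 < ∑ x, c.b6 x := by exact_mod_cast h3
  omega

theorem OH.cost5 (G : c.OH) (ht : c.t = 3) :
    ∑ x, c.toNet.costK (48 / 19) x + 2 * (|bal c.O c.s| : ℤ) ≤ (Dv c.w c.s : ℚ) := by
  have h1 : ∀ x, (c.gm x : ℚ) + 18 / 19 * ((sgn (c.s x) : ℚ) * c.cr x) = c.toNet.costK (48 / 19) x
      + 2 * (if x ∈ c.O then (sgn (c.s x) : ℚ) else 0) + 4 / 19 * (c.b6 x : ℚ) := by
    intro x
    unfold Net.costK b6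
    rw [G.gm_eq]
    by_cases hO : x ∈ c.O
    · rw [if_pos hO, if_pos hO, if_pos hO, G.he, ht]
      have hd : (c.sm x : ℚ) = 5 - c.cr x := by
        have : (c.cr x : ℚ) + c.sm x = 5 := by
          exact_mod_cast (by have := G.deg hO; omega : c.cr x + c.sm x = 5)
        linarith
      push_cast
      rw [hd]
      cases c.s x <;> simp only [sgn, if_true, Bool.false_eq_true, if_false] <;> push_cast <;> ring
    · rw [if_neg hO, if_neg hO, if_neg hO]
      have hd := G.degS hO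
      by_cases m0 : c.mu x = 0
      · rw [if_pos m0, if_pos m0, (by omega : c.cr x = 0), (by omega : c.sm x = 0)]
        simp
      · rw [if_neg m0, if_neg m0]
        have hd : (c.sm x : ℚ) = 2 * c.mu x - c.cr x := by
          have : (c.cr x : ℚ) + c.sm x = 2 * c.mu x := by exact_mod_cast hd
          linarith
        push_cast
        rw [hd]
        cases c.s x <;> simp only [sgn, if_true, Bool.false_eq_true, if_false] <;>
          push_cast <;> ring
  have h2 : (Dv c.w c.s : ℚ) = ∑ x, (c.gm x : ℚ) := by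
    have : Dv c.w c.s = ∑ x, c.gm x := Finset.sum_congr rfl fun x _ => hv_gm G.hI x
    rw [this]; push_cast; rfl
  have h3 : ((bal c.O c.s : ℤ) : ℚ) = ∑ x, if x ∈ c.O then (sgn (c.s x) : ℚ) else 0 := by
    unfold bal
    simp only [Finset.sum_ite_mem, univ_inter]
    push_cast; rfl
  have h4 := Finset.sum_congr (s₁ := univ) rfl fun x _ => h1 x
  simp only [Finset.sum_add_distrib, ← Finset.mul_sum] at h4
  rw [sum_sgn_cr, ← h2, ← h3] at h4
  rw [abs_of_nonneg G.hb]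
  have : (0 : ℚ) ≤ ∑ x, (c.b6 x : ℚ) := by exact_mod_cast G.sum_b6 ht
  linarith

end St

end

end Pool.Agent.Lib.MP_bb98d0_co
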