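import Pool.Agent.Lib.MP_bb98d0_co.M9

/-!
Degree 5: contraction with a general cost and the upper bound.
-/

namespace Pool.Agent.Lib.MP_bb98d0_co
open Finset Classical

noncomputable section

variable {X : Type*} [Fintype X]

theorem Net.mainK (κ : ℚ) (t0 : ℕ) (core : ∀ N : Net X, N.e = 1 → N.t = t0 → N.TwinB →
      ∃ s, ∑ x, N.costK κ x + 2 * (|bal N.O s| : ℤ) ≤ (Dv N.w s : ℚ))
    (N : Net X) (he : N.e = 1) (ht0 : N.t = t0) (hN : N.NoK) :
    ∃ s, ∑ x, N.costK κ x + 2 * (|bal N.O s| : ℤ) ≤ (Dv N.w s : ℚ) := by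
  induction hn : N.O.card using Nat.strong_induction_on generalizing N with
  | _ n ih =>
  by_cases hT : N.TwinB
  · exact core N he ht0 hT
  unfold Net.TwinB at hT
  push Not at hT
  obtain ⟨v, hvO, hall, hcard⟩ := hT
  set D : Finset X := univ.filter fun y => y = v ∨ 0 < N.w v y with hDdef
  have hmem : ∀ y, y ∈ D ↔ (y = v ∨ 0 < N.w v y) := fun y => by simp [hDdef]
  have hv : v ∈ D := (hmem v).2 (Or.inl rfl)
  have hD : D ⊆ N.O := fun y hy => by
    rcases (hmem y).1 hy with h | h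
    exacts [h ▸ hvO, hall y h]
  have htw : ∀ z ∈ N.Tw v, ∀ y, (y = z ∨ 0 < N.w z y) ↔ y ∈ D := fun z hz y => by
    rw [hmem]; exact (mem_filter.1 hz).2 y
  have hrow : ∀ z, z ∈ D → (∀ y, (y = z ∨ 0 < N.w z y) ↔ y ∈ D) → ∀ y,
      N.w z y = if y ∈ D.erase z then 1 else 0 := by
    intro z hz h y
    by_cases hy : y ∈ D.erase z
    · rw [if_pos hy]
      rw [mem_erase] at hy
      have := ((h y).2 hy.2).resolve_left hy.1
      have := N.simple z (hD hz) y (hD hy.2)
      omega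
    · rw [if_neg hy]
      by_contra hw
      have h1 := (h y).1 (Or.inr (Nat.pos_of_ne_zero hw))
      refine hy (mem_erase.2 ⟨fun e => hw ?_, h1⟩)
      rw [e, N.diag]
  have hDcard : D.card + N.e = 2 * N.t + 1 := by
    have h1 := N.degO v hvO
    rw [Finset.sum_congr rfl fun y _ => hrow v hv (fun y => (hmem y).symm) y] at h1
    simp only [Finset.sum_ite_mem, univ_inter, Finset.sum_const, smul_eq_mul, mul_one] at h1
    have := card_erase_add_one hv
    omega
  obtain ⟨k, hk⟩ : ∃ k, k + N.e = 2 * N.t := ⟨2 * N.t - N.e, by have := N.he; have := N.ht; omega⟩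
  have hk1 : D.card = k + 1 := by omega
  have hdeg : ∀ x ∈ D, ∑ y ∈ D, N.w x y + ∑ y ∈ Dᶜ, N.w x y = k := fun x hx => by
    have := N.degO x (hD hx)
    rw [Finset.sum_add_sum_compl]; omega
  have hsum : ∑ x ∈ D, ∑ y ∈ D, N.w x y + ∑ x ∈ D, ∑ y ∈ Dᶜ, N.w x y = (k + 1) * k := by
    rw [← Finset.sum_add_distrib, Finset.sum_congr rfl hdeg, Finset.sum_const, hk1, smul_eq_mul]
  obtain ⟨m, hm⟩ := even_sum_symm N.w N.symm N.diag D
  obtain ⟨p, hp⟩ : Even ((k + 1) * k) := by rw [mul_comm]; exact Nat.even_mul_succ_self k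
  have hμ : ∑ d ∈ D, ∑ y ∈ Dᶜ, N.w d y = 2 * (p - m) := by omega
  have hμ0 : p - m ≠ 0 := by
    obtain ⟨x, y, hne, hx, hy, hw⟩ := hN v hvO hall
    rw [← hmem] at hx hy
    have h1 : ∑ y ∈ Dᶜ, N.w x y ≤ ∑ d ∈ D, ∑ y ∈ Dᶜ, N.w d y :=
      Finset.single_le_sum (f := fun d => ∑ y ∈ Dᶜ, N.w d y) (fun _ _ => Nat.zero_le _) hx
    have hy' : y ∈ D.erase x := mem_erase.2 ⟨hne.symm, hy⟩
    have h2 : ∑ z ∈ (D.erase x).erase y, N.w x z ≤ ((D.erase x).erase y).card := by
      rw [Finset.card_eq_sum_ones]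
      exact Finset.sum_le_sum fun z hz =>
        N.simple x (hD hx) z (hD (mem_of_mem_erase (mem_of_mem_erase hz)))
    have h3 := hdeg x hx
    rw [← Finset.add_sum_erase _ _ hx, ← Finset.add_sum_erase _ _ hy', N.diag, hw] at h3
    have := card_erase_add_one hy'
    have := card_erase_add_one hx
    omega
  set μ := p - m with hμdef
  set N' := N.contract D v μ hv hμ with hN'
  have hN'K : N'.NoK := by
    intro u hu hall'
    have hu' : u ∈ N.O \ D := hu
    rw [mem_sdiff] at hu'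
    have hz : ∀ y ∈ D, N.w u y = 0 := by
      have h1 : N'.w u v = 0 := by
        by_contra hw
        have : v ∈ N.O \ D := hall' v (Nat.pos_of_ne_zero hw)
        exact (mem_sdiff.1 this).2 hv
      have h2 : N'.w u v = ∑ d ∈ D, N.w u d := by
        show cw N.w D v u v = _
        simp [cw, hu'.2, hv]
      rw [h2] at h1
      exact Finset.sum_eq_zero_iff.1 h1
    have hoff : ∀ a b, a ∉ D → b ∉ D → N'.w a b = N.w a b := fun a b ha hb => by
      show cw N.w D v a b = _
      simp [cw, ha, hb]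
    have hnb : ∀ y, (y = u ∨ 0 < N.w u y) → y ∉ D := fun y hy hyD => by
      rcases hy with h | h
      · exact hu'.2 (h ▸ hyD)
      · have := hz y hyD; omega
    obtain ⟨x, y, hne, hx, hy, hw⟩ := hN u hu'.1 fun y hy => by
      have : y ∈ N.O \ D := hall' y (by rw [hoff u y hu'.2 (hnb y (Or.inr hy))]; exact hy)
      exact (mem_sdiff.1 this).1
    refine ⟨x, y, hne, ?_, ?_, ?_⟩
    · rw [hoff u x hu'.2 (hnb x hx)]; exact hx
    · rw [hoff u y hu'.2 (hnb y hy)]; exact hy
    · rw [hoff x y (hnb x hx) (hnb y hy)]; exact hw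
  have hlt : N'.O.card < n := by
    have h1 : N'.O.card + D.card = N.O.card := card_sdiff_add_card_eq_card hD
    omega
  obtain ⟨s', hs'⟩ := ih _ hlt N' he ht0 hN'K rfl
  obtain ⟨L, hL, hLc⟩ := exists_subset_card_eq (s := N.Tw v) (n := N.t) (by omega)
  have hLD : ∀ z ∈ L, z ∈ D := fun z hz => (htw z (hL hz) z).1 (Or.inl rfl)
  set s1 : X → Bool := fun x => if x ∈ D then s' v else s' x with hs1
  refine ⟨flip L s1, ?_⟩
  have e1 : Dv N.w s1 = Dv N'.w s' - ∑ x ∈ D, ∑ y ∈ D, (N.w x y : ℤ) := Dv_contract hv s'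
  have e2 : ∑ x ∈ L, MP_bb98d0_co.hv N.w s1 x = N.t * (-k) := by
    rw [← hLc, ← nsmul_eq_mul, ← Finset.sum_const]
    refine Finset.sum_congr rfl fun z hz => ?_
    have h1 := N.degO z (hD (hLD z hz))
    have h2 : (k : ℤ) = ∑ y, (N.w z y : ℤ) := by exact_mod_cast (by omega)
    rw [h2, ← Finset.sum_neg_distrib]
    refine Finset.sum_congr rfl fun y _ => ?_
    by_cases hy : y ∈ D
    · simp [hs1, hy, hLD z hz, sg]
    · rw [hrow z (hLD z hz) (htw z (hL hz)) y, if_neg fun h => hy (mem_of_mem_erase h)]; simp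
  have e3 : ∑ x ∈ L, ∑ y ∈ L, (N.w x y : ℤ) * sg (s1 x) (s1 y) = N.t * (1 - N.t) := by
    nth_rewrite 1 [← hLc]
    rw [← nsmul_eq_mul, ← Finset.sum_const]
    refine Finset.sum_congr rfl fun z hz => ?_
    rw [← Finset.add_sum_erase _ _ hz, N.diag,
      Finset.sum_congr rfl (g := fun _ => (-1 : ℤ)) fun y hy => by
        rw [mem_erase] at hy
        rw [hrow z (hLD z hz) (htw z (hL hz)) y, if_pos (mem_erase.2 ⟨hy.1, hLD y hy.2⟩)]
        simp [hs1, hLD z hz, hLD y hy.2, sg]]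
    have h1 : ((L.erase z).card : ℤ) + 1 = N.t := by
      rw [← hLc]; exact_mod_cast card_erase_add_one hz
    simp only [Finset.sum_const, nsmul_eq_mul]
    push_cast
    linarith
  have e4 : ∑ x ∈ D, ∑ y ∈ D, (N.w x y : ℤ) = (k + 1) * k - 2 * μ := by
    have : ∑ x ∈ D, ∑ y ∈ D, (N.w x y : ℤ) + 2 * μ = (k + 1) * k := by
      rw [hμ] at hsum; exact_mod_cast hsum
    linarith
  have e5 : Dv N.w (flip L s1) = Dv N'.w s' + 2 * N.t + 2 * μ := by
    rw [Dv_flip _ N.symm, e1, e2, e3, e4]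
    have h1 : (k : ℤ) = 2 * N.t - N.e := by omega
    have h2 : N.e = 0 ∨ N.e = 1 := by have := N.he; omega
    rw [h1]
    rcases h2 with h2 | h2 <;> rw [h2] <;> push_cast <;> ring
  have e6 : ∑ x, N.costK κ x = ∑ x, N'.costK κ x + 2 * N.t + 2 * μ := by
    rw [← Finset.sum_add_sum_compl D, ← Finset.sum_add_sum_compl D]
    have a1 : ∑ x ∈ Dᶜ, N'.costK κ x = ∑ x ∈ Dᶜ, N.costK κ x := by
      refine Finset.sum_congr rfl fun x hx => ?_
      have hx' := mem_compl.1 hx
      have hxv : x ≠ v := fun e => hx' (e ▸ hv)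
      simp [Net.costK, hN', Net.contract, hx', hxv]
    have a2 : ∑ x ∈ D, N'.costK κ x = κ - 2 * μ := by
      rw [Finset.sum_congr rfl (g := fun x => if x = v then (κ - 2 * μ : ℚ) else 0)]
      · simp [hv]
      · intro x hx
        by_cases e : x = v <;> simp [Net.costK, hN', Net.contract, hx, e, hv, hμ0]
    have a3 : ∑ x ∈ D, N.costK κ x = 2 * N.t + κ := by
      rw [Finset.sum_congr rfl (g := fun _ => (2 * N.t + κ) / (2 * N.t + 1 - N.e : ℚ))
        fun x hx => by simp [Net.costK, hD hx], Finset.sum_const, nsmul_eq_mul]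
      have b1 : (D.card : ℚ) = 2 * N.t + 1 - N.e := by
        have : (D.card : ℚ) + N.e = 2 * N.t + 1 := by exact_mod_cast hDcard
        linarith
      have b2 : (0 : ℚ) < D.card := by exact_mod_cast (by omega : 0 < D.card)
      rw [← b1]; field_simp
    rw [a1, a2, a3]; ring
  have e7 : bal N.O (flip L s1) = bal N'.O s' := by
    rw [bal_flip, Finset.sum_congr rfl (g := fun _ => sgn (s' v)) fun x hx => by
      simp [hs1, hLD x hx, hD (hLD x hx)]]
    unfold bal
    rw [← Finset.sum_sdiff hD, Finset.sum_congr rfl (s₁ := D) (g := fun _ => sgn (s' v))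
      fun x hx => by simp [hs1, hx],
      Finset.sum_congr rfl (s₁ := N.O \ D) (g := fun x => sgn (s' x))
      fun x hx => by simp [hs1, (mem_sdiff.1 hx).2]]
    simp only [Finset.sum_const, nsmul_eq_mul, hLc]
    have b1 : (D.card : ℤ) = 2 * N.t := by omega
    rw [b1]
    show _ = ∑ x ∈ N.O \ D, sgn (s' x)
    ring
  rw [e5, e6, e7]
  push_cast at hs' ⊢
  linarith

theorem Net.main5 (N : Net X) (he : N.e = 1) (ht : N.t = 3) (hN : N.NoK) :
    ∃ s, ∑ x, N.costK (48 / 19) x + 2 * (|bal N.O s| : ℤ) ≤ (Dv N.w s : ℚ) :=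
  Net.mainK _ 3 (fun N he ht hN => by
    obtain ⟨c, rfl, G⟩ := St.exists_oh N he hN
    exact ⟨c.s, G.cost5 ht⟩) N he ht hN

end

namespace J

variable {n : ℕ} {G : SimpleGraph (Fin n)} [DecidableRel G.Adj]

theorem lower5 (hreg : G.IsRegularOfDegree 5) (hK : G.CliqueFree (5 + 1)) :
    ∃ s, (n : ℤ) * 27 + 38 * |bal univ s| ≤ 19 * Dv (aw G) s := by
  let N : Net (Fin n) :=
    { t := 3
      e := 1
      w := aw G
      O := univ
      mu := fun _ => 0
      ht := le_rfl
      he := le_rfl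
      symm := aw_symm G
      diag := fun x => by simp [aw]
      simple := fun x _ y _ => by unfold aw; split_ifs <;> simp
      degO := fun x _ => by rw [aw_deg, hreg.degree_eq x]
      degS := fun x hx => absurd (mem_univ x) hx }
  have hN : N.NoK := by
    intro v _ _
    by_contra hn
    push Not at hn
    refine hK (insert v (G.neighborFinset v)) ⟨fun x hx y hy hne => ?_, ?_⟩
    · have h1 : ∀ z, z ∈ (insert v (G.neighborFinset v) : Finset (Fin n)) → z = v ∨ 0 < N.w v z :=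
        fun z hz => by
          rcases mem_insert.1 hz with h | h
          · exact Or.inl h
          · exact Or.inr ((aw_pos G).2 (by simpa using h))
      exact (aw_pos G).1 (Nat.pos_of_ne_zero (hn x y hne (h1 x hx) (h1 y hy)))
    · rw [card_insert_of_notMem (by simp), SimpleGraph.card_neighborFinset_eq_degree,
        hreg.degree_eq v]
  obtain ⟨s, hs⟩ := N.main5 rfl rfl hN
  refine ⟨s, ?_⟩
  have e1 : ∑ x, N.costK (48 / 19) x = n * (27 / 19 : ℚ) := by
    simp [Net.costK, N]; norm_num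
  rw [e1] at hs
  have h3 : (n : ℚ) * 27 + 38 * (|bal univ s| : ℤ) ≤ 19 * (Dv (aw G) s : ℤ) := by
    linarith
  exact_mod_cast h3

lemma half {k : ℕ} (hk : Odd k) (hreg : G.IsRegularOfDegree k) :
    ∃ h A, n = 2 * h ∧ Opt G h A ∧ E2 G Aᶜ = E2 G A := by
  obtain ⟨h, hn⟩ : ∃ h, n = 2 * h := by
    have h1 := G.sum_degrees_eq_twice_card_edges
    simp only [hreg.degree_eq, sum_const, card_univ, Fintype.card_fin, smul_eq_mul] at h1
    have h2 : Even (n * k) := ⟨_, h1.trans (two_mul _)⟩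
    rcases Nat.even_mul.1 h2 with ⟨h, e⟩ | h
    · exact ⟨h, by omega⟩
    · exact absurd h (Nat.not_even_iff_odd.2 hk)
  obtain ⟨A, hA⟩ := exists_opt (G := G) (h := h) (by rw [Fintype.card_fin]; omega)
  have cB : Aᶜ.card = h := by
    have := card_add_card_compl A; have := hA.1; rw [Fintype.card_fin] at *; omega
  exact ⟨h, A, hn, hA, by rw [(reg_of hreg).E2_compl, cB, hA.1]; simp⟩

theorem upper5 (hreg : G.IsRegularOfDegree 5) (hK : G.CliqueFree (5 + 1)) :
    ∃ A : Finset (Fin n), E2 G Aᶜ = E2 G A ∧ 19 * E2 G A ≤ 17 * n := by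
  have reg : Reg G 5 := reg_of hreg
  obtain ⟨h, A, hn, hA, e⟩ := half (by decide) hreg
  have cc : ∀ X : Finset (Fin n), X.card + Xᶜ.card = 2 * h := fun X => by
    rw [card_add_card_compl, Fintype.card_fin, hn]
  refine ⟨A, e, ?_⟩
  obtain ⟨s, hs⟩ := lower5 hreg hK
  have key : ∀ X : Finset (Fin n), h ≤ X.card →
      (n : ℤ) * 27 + 38 * (X.card - Xᶜ.card) ≤ 19 * (5 * n - 2 * E2 G X - 2 * E2 G Xᶜ) →
      19 * E2 G A ≤ 17 * n := by
    intro X h1 h2
    obtain ⟨d, hd⟩ : ∃ d, X.card = h + d := ⟨X.card - h, by omega⟩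
    have h3 := cc X
    rw [reg.E2_compl] at h2
    rcases rebal hA 2 d X hd with h4 | h4 <;> omega
  set X := univ.filter fun x => s x = true with hX
  have e1 : s = fun x => decide (x ∈ X) := by
    funext x; cases hx : s x <;> simp [hX, hx]
  have e2 : bal univ s = X.card - Xᶜ.card := by
    unfold bal
    rw [← sum_add_sum_compl X, sum_congr rfl (g := fun _ => (1 : ℤ)) fun x hx => by
      simp [sgn, (mem_filter.1 hx).2], sum_congr (s₁ := Xᶜ) rfl (g := fun _ => (-1 : ℤ))
      fun x hx => by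
        have : s x = false := by simpa [hX] using hx
        simp [sgn, this]]
    simp [sub_eq_add_neg]
  have e3 : Dv (aw G) s = 5 * n - 2 * E2 G X - 2 * E2 G Xᶜ := by
    rw [e1, Dv_eq reg, Fintype.card_fin]
  rw [e2, e3] at hs
  by_cases hc : h ≤ X.card
  · exact key X hc (by linarith [le_abs_self ((X.card : ℤ) - Xᶜ.card)])
  · refine key Xᶜ (by have := cc X; omega) ?_
    rw [compl_compl]
    linarith [neg_le_abs ((X.card : ℤ) - Xᶜ.card)]

end J

end Pool.Agent.Lib.MP_bb98d0_co
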