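import Pool.Agent.Lib.MP_bb98d0_co.N0

/-!
Degrees 3 and 5: the extremal graphs and the cubic upper bound.
-/

namespace Pool.Agent.Lib.MP_bb98d0_co.J
open Finset

/-- the graph with a given list of edges -/
def lg {n : ℕ} (L : List (Fin n × Fin n)) (h : ∀ e ∈ L, e.1 < e.2) : SimpleGraph (Fin n) where
  Adj x y := (x, y) ∈ L ∨ (y, x) ∈ L
  symm := ⟨fun _ _ h => h.symm⟩
  loopless := ⟨fun x hx => by rcases hx with g | g <;> exact lt_irrefl _ (h _ g)⟩

instance {n : ℕ} (L : List (Fin n × Fin n)) (h : ∀ e ∈ L, e.1 < e.2) :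
    DecidableRel (lg L h).Adj := fun x y => by unfold lg; infer_instance

lemma lg_Dv {n : ℕ} (L : List (Fin n × Fin n)) (h : ∀ e ∈ L, e.1 < e.2) (hL : L.Nodup)
    (s : Fin n → Bool) : Dv (aw (lg L h)) s = 2 * (L.map fun e => sg (s e.1) (s e.2)).sum := by
  have h1 : ∀ x y, (aw (lg L h) x y : ℤ) * sg (s x) (s y)
      = (if (x, y) ∈ L.toFinset then sg (s x) (s y) else 0)
        + (if (y, x) ∈ L.toFinset then sg (s y) (s x) else 0) := fun x y => by
    by_cases a : (x, y) ∈ L <;> by_cases b : (y, x) ∈ L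
    · exact absurd (h _ a) (lt_asymm (h _ b))
    all_goals simp [aw, lg, a, b, sg_comm (s y)]
  have h2 : ∑ x, ∑ y, (if (x, y) ∈ L.toFinset then sg (s x) (s y) else 0)
      = (L.map fun e => sg (s e.1) (s e.2)).sum := by
    rw [← List.sum_toFinset _ hL, ← Fintype.sum_prod_type' (f := fun x y =>
      if (x, y) ∈ L.toFinset then sg (s x) (s y) else 0)]
    simp only [Prod.mk.eta, Finset.sum_ite_mem, univ_inter]
  unfold Dv
  simp only [h1, Finset.sum_add_distrib]
  rw [Finset.sum_comm (f := fun x y => if (y, x) ∈ L.toFinset then sg (s y) (s x) else 0), h2]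
  ring

lemma free_of {n k : ℕ} {G : SimpleGraph (Fin n)} [DecidableRel G.Adj]
    (hreg : G.IsRegularOfDegree k)
    (h : ∀ v, ∃ x, G.Adj v x ∧ ∃ y, G.Adj v y ∧ x ≠ y ∧ ¬ G.Adj x y) : G.CliqueFree (k + 1) := by
  intro S hS
  obtain ⟨v, hv⟩ := card_pos.1 (by rw [hS.card_eq]; omega : 0 < S.card)
  obtain ⟨x, hx, y, hy, n1, n2⟩ := h v
  have e : S.erase v = G.neighborFinset v := eq_of_subset_of_card_le (fun z hz => by
    rw [mem_erase] at hz
    simpa using hS.isClique hv hz.2 hz.1.symm) (by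
    rw [SimpleGraph.card_neighborFinset_eq_degree, hreg.degree_eq, card_erase_of_mem hv,
      hS.card_eq]; omega)
  have m : ∀ z, G.Adj v z → z ∈ S := fun z hz => mem_of_mem_erase (by rw [e]; simpa using hz)
  exact n2 (hS.isClique (m x hx) (m y hy) n1)

def L5 : List (Fin 38 × Fin 38) :=
  [(0, 2), (0, 3), (0, 4), (0, 5), (1, 2), (1, 3), (1, 4), (1, 5), (2, 3), (2, 4), (2, 5), (3, 4),
   (3, 5), (4, 5), (6, 8), (6, 9), (6, 10), (6, 11), (7, 8), (7, 9), (7, 10), (7, 11), (8, 9),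
   (8, 10), (8, 11), (9, 10), (9, 11), (10, 11), (12, 14), (12, 15), (12, 16), (12, 17), (13, 14),
   (13, 15), (13, 16), (13, 17), (14, 15), (14, 16), (14, 17), (15, 16), (15, 17), (16, 17),
   (18, 20), (18, 21), (18, 22), (18, 23), (19, 20), (19, 21), (19, 22), (19, 23), (20, 21),
   (20, 22), (20, 23), (21, 22), (21, 23), (22, 23), (24, 26), (24, 27), (24, 28), (24, 29),
   (25, 26), (25, 27), (25, 28), (25, 29), (26, 27), (26, 28), (26, 29), (27, 28), (27, 29),
   (28, 29), (30, 32), (30, 33), (30, 34), (30, 35), (31, 32), (31, 33), (31, 34), (31, 35),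
   (32, 33), (32, 34), (32, 35), (33, 34), (33, 35), (34, 35), (36, 37), (0, 36), (1, 37),
   (6, 36), (7, 37), (12, 36), (13, 18), (19, 36), (24, 37), (25, 30), (31, 37)]

def L3 : List (Fin 10 × Fin 10) :=
  [(0, 1), (1, 2), (2, 3), (3, 4), (0, 4), (0, 5), (1, 6), (2, 7), (3, 8), (4, 9), (5, 7), (7, 9),
   (6, 9), (6, 8), (5, 8)]

lemma L5_lt : ∀ e ∈ L5, e.1 < e.2 := by decide +kernel
lemma L3_lt : ∀ e ∈ L3, e.1 < e.2 := by decide +kernel

lemma reg5 : (lg L5 L5_lt).IsRegularOfDegree 5 := by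
  have : ∀ v, (univ.filter fun y => (lg L5 L5_lt).Adj v y).card = 5 := by decide +kernel
  intro v
  rw [SimpleGraph.degree, SimpleGraph.neighborFinset_eq_filter, this]

lemma reg3 : (lg L3 L3_lt).IsRegularOfDegree 3 := by
  have : ∀ v, (univ.filter fun y => (lg L3 L3_lt).Adj v y).card = 3 := by decide +kernel
  intro v
  rw [SimpleGraph.degree, SimpleGraph.neighborFinset_eq_filter, this]

lemma blk : ∀ a b c d e f : Bool,
    sg a c + sg a d + sg a e + sg a f + sg b c + sg b d + sg b e +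
    sg b f + sg c d + sg c e + sg c f + sg d e + sg d f + sg e f ≤ 3 - sg a b := by
  decide +kernel

lemma Dv5 (s : Fin 38 → Bool) : Dv (aw (lg L5 L5_lt)) s ≤ 58 := by
  have h1 : ∀ u v a b c d : Bool,
      sg u v + sg a u + sg b v + sg c u + sg d v - sg a b - sg c d ≤ 5 := by decide +kernel
  have h2 : ∀ u a b c d : Bool, sg a u + sg b c + sg d u - sg a b - sg c d ≤ 3 := by decide +kernel
  rw [lg_Dv _ _ (by decide +kernel)]
  simp only [L5, List.map_cons, List.map_nil, List.sum_cons, List.sum_nil]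
  linarith [blk (s 0) (s 1) (s 2) (s 3) (s 4) (s 5), blk (s 6) (s 7) (s 8) (s 9) (s 10) (s 11),
    blk (s 12) (s 13) (s 14) (s 15) (s 16) (s 17), blk (s 18) (s 19) (s 20) (s 21) (s 22) (s 23),
    blk (s 24) (s 25) (s 26) (s 27) (s 28) (s 29), blk (s 30) (s 31) (s 32) (s 33) (s 34) (s 35),
    h1 (s 36) (s 37) (s 0) (s 1) (s 6) (s 7), h2 (s 36) (s 12) (s 13) (s 18) (s 19),
    h2 (s 37) (s 24) (s 25) (s 30) (s 31)]

lemma Dv3 (s : Fin 10 → Bool) : Dv (aw (lg L3 L3_lt)) s ≤ 18 := by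
  have h1 : ∀ a0 a1 a2 a3 a4 a5 a6 a7 a8 a9 : Bool,
      sg a0 a1 + sg a1 a2 + sg a2 a3 + sg a3 a4 + sg a0 a4 + sg a0 a5 + sg a1 a6 + sg a2 a7 +
      sg a3 a8 + sg a4 a9 + sg a5 a7 + sg a7 a9 + sg a6 a9 + sg a6 a8 + sg a5 a8 ≤ 9 := by
    decide +kernel
  rw [lg_Dv _ _ (by decide +kernel)]
  simp only [L3, List.map_cons, List.map_nil, List.sum_cons, List.sum_nil]
  linarith [h1 (s 0) (s 1) (s 2) (s 3) (s 4) (s 5) (s 6) (s 7) (s 8) (s 9)]

variable {n : ℕ} {G : SimpleGraph (Fin n)} [DecidableRel G.Adj]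

lemma two_ind {P S : Finset (Fin n)} (hd : Disjoint P S) (h1 : ∀ v ∈ P, dg G P v = 0)
    (h2 : ∀ v ∈ S, dg G S v = 0) (h3 : ∀ v ∈ S, dg G P v ≤ 1) : E2 G (P ∪ S) ≤ 2 * S.card := by
  have e : ∀ v, dg G (P ∪ S) v = dg G P v + dg G S v := fun v => sum_union hd
  have := sum_le_card_nsmul S _ 1 h3
  unfold E2
  simp only [e, sum_union hd, sum_add_distrib]
  rw [sum_eq_zero h1, sum_eq_zero h2, sum_dg_comm P S]
  simp only [nsmul_eq_mul, mul_one] at this
  linarith

lemma three_ind {h : ℕ} {A : Finset (Fin n)} (reg : Reg G 3) (hn : n = 2 * h) (hA : Opt G h A)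
    (col : Fin n → Fin 3) (hc : ∀ x y, G.Adj x y → col x ≠ col y) (i j k : Fin 3)
    (hp : ∀ a : Fin 3, a = i ∨ a = j ∨ a = k) (n1 : i ≠ j) (n2 : i ≠ k) (n3 : j ≠ k)
    (l1 : (univ.filter fun x => col x = j).card ≤ (univ.filter fun x => col x = i).card)
    (l2 : (univ.filter fun x => col x = k).card ≤ (univ.filter fun x => col x = j).card) :
    5 * E2 G A ≤ 2 * n := by
  have z : ∀ a, ∀ S ⊆ univ.filter fun x => col x = a, ∀ v ∈ S, dg G S v = 0 := fun a S hS v hv =>
    sum_eq_zero fun u hu => ad_nadj fun g =>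
      hc v u g ((mem_filter.1 (hS hv)).2.trans (mem_filter.1 (hS hu)).2.symm)
  have dj : ∀ a b, a ≠ b → Disjoint (univ.filter fun x => col x = a)
      (univ.filter fun x => col x = b) := fun a b n => disjoint_left.2 fun x h1 h2 =>
    n ((mem_filter.1 h1).2.symm.trans (mem_filter.1 h2).2)
  have hu : ∀ f : Fin n → ℤ, ∑ x, f x = ∑ x ∈ univ.filter (fun x => col x = i), f x
      + ∑ x ∈ univ.filter (fun x => col x = j), f x
      + ∑ x ∈ univ.filter (fun x => col x = k), f x := fun f => by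
    simp only [sum_filter, ← sum_add_distrib]
    refine sum_congr rfl fun x _ => ?_
    rcases hp (col x) with e | e | e <;> simp [e, n1, n2, n3, n1.symm, n2.symm, n3.symm]
  have zi := z i _ (Subset.refl _)
  have zj := z j _ (Subset.refl _)
  have zk := z k
  have d1 := dj i k n2
  have d2 := dj j k n3
  generalize (univ.filter fun x => col x = i) = P at *
  generalize (univ.filter fun x => col x = j) = Q at *
  generalize (univ.filter fun x => col x = k) = R at *
  have c0 : (n : ℤ) = P.card + Q.card + R.card := by simpa using hu fun _ => 1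
  have key : ∀ X : Finset (Fin n), h ≤ X.card → E2 G A + 2 * X.card ≤ E2 G X + 2 * h ∨
      E2 G A ≤ 0 := fun X hX => by
    obtain ⟨d, hd⟩ : ∃ d, X.card = h + d := ⟨X.card - h, by omega⟩
    rcases rebal hA 1 d X hd with h4 | h4 <;> omega
  by_cases b1 : 2 * n ≤ 5 * P.card
  · have e1 := reg.E2_compl P
    have e2 : E2 G P = 0 := sum_eq_zero zi
    have e3 := card_add_card_compl P
    have e4 : 0 ≤ E2 G Pᶜ := sum_nonneg fun v _ => dg_nonneg _ _
    rw [Fintype.card_fin] at e3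
    rcases key Pᶜ (by omega) with h4 | h4 <;> omega
  have s1 := filter_subset (fun v => dg G P v ≤ 1) R
  have s2 := filter_subset (fun v => ¬ dg G P v ≤ 1) R
  have s3 := card_filter_add_card_filter_not (s := R) fun v => dg G P v ≤ 1
  have e1 := two_ind (d1.mono_right s1) zi (zk _ s1) fun v hv => (mem_filter.1 hv).2
  have e2 := two_ind (d2.mono_right s2) zj (zk _ s2) fun v hv => by
    have a := hu (ad G v)
    have b : ∑ x, ad G v x = 3 := reg v
    have := zk R (Subset.refl _) v (s2 hv)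
    have := (mem_filter.1 hv).2
    unfold dg at *
    omega
  have c1 := card_union_of_disjoint (d1.mono_right s1)
  have c2 := card_union_of_disjoint (d2.mono_right s2)
  by_cases b2 : h ≤ (P ∪ R.filter fun v => dg G P v ≤ 1).card
  · rcases key _ b2 with h4 | h4 <;> omega
  · rcases key (Q ∪ R.filter fun v => ¬ dg G P v ≤ 1) (by omega) with h4 | h4 <;> omega

theorem upper3 (hreg : G.IsRegularOfDegree 3) (hK : G.CliqueFree (3 + 1)) :
    ∃ A : Finset (Fin n), E2 G Aᶜ = E2 G A ∧ 5 * E2 G A ≤ 2 * n := by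
  obtain ⟨h, A, hn, hA, e⟩ := half (by decide) hreg
  obtain ⟨col, hc⟩ := brooks le_rfl hreg hK
  have key := three_ind (reg_of hreg) hn hA col hc
  refine ⟨A, e, ?_⟩
  have k1 := key 0 1 2 (by decide) (by decide) (by decide) (by decide)
  have k2 := key 0 2 1 (by decide) (by decide) (by decide) (by decide)
  have k3 := key 1 0 2 (by decide) (by decide) (by decide) (by decide)
  have k4 := key 1 2 0 (by decide) (by decide) (by decide) (by decide)
  have k5 := key 2 0 1 (by decide) (by decide) (by decide) (by decide)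
  have k6 := key 2 1 0 (by decide) (by decide) (by decide) (by decide)
  omega

theorem finalG {k a b n0 D : ℕ} (hk : 0 < k) (hb : 0 < b) (hn0 : 0 < n0)
    (up : ∀ (n : ℕ) (G : SimpleGraph (Fin n)) [DecidableRel G.Adj], G.IsRegularOfDegree k →
      G.CliqueFree (k + 1) → ∃ A : Finset (Fin n), E2 G Aᶜ = E2 G A ∧ b * E2 G A ≤ a * n)
    (G0 : SimpleGraph (Fin n0)) [inst : DecidableRel G0.Adj] (r0 : G0.IsRegularOfDegree k)
    (f0 : G0.CliqueFree (k + 1)) (d0 : ∀ s, Dv (aw G0) s ≤ D)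
    (num : ∀ j : ℕ, k * n0 ≤ D + 8 * j → a * n0 ≤ 2 * b * j)
    (J : ∀ (n : ℕ) (G : SimpleGraph (Fin n)) [DecidableRel G.Adj], ℕ)
    (J1 : ∀ (n : ℕ) (G : SimpleGraph (Fin n)) [DecidableRel G.Adj] (S : Finset (Fin n)),
      2 * (J n G : ℤ) ≤ max (E2 G S) (E2 G Sᶜ))
    (J2 : ∀ (n : ℕ) (G : SimpleGraph (Fin n)) [DecidableRel G.Adj], ∃ S : Finset (Fin n),
      2 * (J n G : ℤ) = max (E2 G S) (E2 G Sᶜ)) :
    IsGreatest {x : ℝ | ∃ (n : ℕ) (G : SimpleGraph (Fin n)) (_ : DecidableRel G.Adj),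
        G.IsRegularOfDegree k ∧ G.CliqueFree (k + 1) ∧ G.edgeFinset.Nonempty ∧
        x = (J n G : ℝ) / (G.edgeFinset.card : ℝ)} ((a : ℝ) / (b * k)) := by
  have k0 : (0 : ℝ) < k := by exact_mod_cast hk
  have b0 : (0 : ℝ) < b := by exact_mod_cast hb
  have up' : ∀ (n : ℕ) (G : SimpleGraph (Fin n)) [DecidableRel G.Adj],
      G.IsRegularOfDegree k → G.CliqueFree (k + 1) → G.edgeFinset.Nonempty →
      (J n G : ℝ) / (G.edgeFinset.card : ℝ) ≤ a / (b * k) := by
    intro n G _ hreg hK hne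
    obtain ⟨A, h1, h2⟩ := up n G hreg hK
    have h3 := J1 n G A
    rw [h1, max_self] at h3
    have h5 : (0 : ℝ) < G.edgeFinset.card := by exact_mod_cast card_pos.2 hne
    have h6 : 2 * (J n G : ℝ) ≤ E2 G A := by exact_mod_cast h3
    have h7 : (b : ℝ) * E2 G A ≤ a * n := by exact_mod_cast h2
    have h9 : (G.edgeFinset.card : ℝ) = n * k / 2 := by linarith [edges_eq hreg]
    rw [div_le_div_iff₀ h5 (by positivity), h9]
    nlinarith [mul_le_mul_of_nonneg_left h6 (by positivity : (0 : ℝ) ≤ b * k),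
      mul_le_mul_of_nonneg_left h7 k0.le]
  refine ⟨?_, ?_⟩
  · have h9 : (G0.edgeFinset.card : ℝ) = n0 * k / 2 := by linarith [edges_eq r0]
    have h5 : (0 : ℝ) < G0.edgeFinset.card := by rw [h9]; positivity
    have hne : G0.edgeFinset.Nonempty := card_pos.1 (by exact_mod_cast h5)
    refine ⟨_, G0, inst, r0, f0, hne, le_antisymm ?_ (up' _ G0 r0 f0 hne)⟩
    obtain ⟨S, hS⟩ := J2 _ G0
    have h1 := d0 fun x => decide (x ∈ S)
    rw [Dv_eq (reg_of r0), Fintype.card_fin] at h1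
    have h2 := le_max_left (E2 G0 S) (E2 G0 Sᶜ)
    have h3 := le_max_right (E2 G0 S) (E2 G0 Sᶜ)
    have h4 : (k : ℤ) * n0 ≤ D + 8 * J _ G0 := by linarith
    have h6 : (a : ℝ) * n0 ≤ 2 * b * J _ G0 := by
      exact_mod_cast num _ (by exact_mod_cast h4)
    rw [div_le_div_iff₀ (by positivity) h5, h9]
    nlinarith [mul_le_mul_of_nonneg_left h6 k0.le]
  · rintro x ⟨n, G, inst, h1, h2, h3, rfl⟩
    exact up' n G h1 h2 h3

lemma free5 : (lg L5 L5_lt).CliqueFree (5 + 1) := free_of reg5 (by decide +kernel)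
lemma free3 : (lg L3 L3_lt).CliqueFree (3 + 1) := free_of reg3 (by decide +kernel)

end Pool.Agent.Lib.MP_bb98d0_co.J
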