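import Mathlib

/-!
Weighted networks with ordinary atoms (degree `k = 2t - e`) and super atoms (even degree),
states (a cut and a set of anchors) and the elementary flip calculus.
-/

namespace Pool.Agent.Lib.MP_bb98d0_co
open Finset Classical

noncomputable section

structure Net (X : Type*) [Fintype X] where
  t : ℕ
  e : ℕ
  w : X → X → ℕ
  O : Finset X
  mu : X → ℕ
  ht : 3 ≤ t
  he : e ≤ 1
  symm : ∀ x y, w x y = w y x
  diag : ∀ x, w x x = 0
  simple : ∀ x ∈ O, ∀ y ∈ O, w x y ≤ 1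
  degO : ∀ x ∈ O, ∑ y, w x y + e = 2 * t
  degS : ∀ x, x ∉ O → ∑ y, w x y = 2 * mu x

def sg (a b : Bool) : ℤ := if a = b then -1 else 1

lemma sg_comm (a b : Bool) : sg a b = sg b a := by cases a <;> cases b <;> rfl
lemma sg_not_left (a b : Bool) : sg (!a) b = - sg a b := by cases a <;> cases b <;> rfl
lemma sg_not_right (a b : Bool) : sg a (!b) = - sg a b := by cases a <;> cases b <;> rfl
lemma sg_eq {a b : Bool} (h : a = b) : sg a b = -1 := by simp [sg, h]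
lemma sg_ne {a b : Bool} (h : a ≠ b) : sg a b = 1 := by simp [sg, h]

variable {X : Type*} [Fintype X]

/-- twice (cut weight minus uncut weight) -/
def Dv (w : X → X → ℕ) (s : X → Bool) : ℤ := ∑ x, ∑ y, (w x y : ℤ) * sg (s x) (s y)

def hv (w : X → X → ℕ) (s : X → Bool) (x : X) : ℤ := ∑ y, (w x y : ℤ) * sg (s x) (s y)

def flip (S : Finset X) (s : X → Bool) : X → Bool := fun x => if x ∈ S then !(s x) else s x

omit [Fintype X] in
lemma flip_mem {S : Finset X} {s : X → Bool} {x : X} (h : x ∈ S) : flip S s x = !(s x) := by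
  simp [flip, h]
omit [Fintype X] in
lemma flip_not_mem {S : Finset X} {s : X → Bool} {x : X} (h : x ∉ S) : flip S s x = s x := by
  simp [flip, h]

lemma Dv_flip (w : X → X → ℕ) (hw : ∀ x y, w x y = w y x) (S : Finset X) (s : X → Bool) :
    Dv w (flip S s) = Dv w s
      - 4 * (∑ x ∈ S, hv w s x - ∑ x ∈ S, ∑ y ∈ S, (w x y : ℤ) * sg (s x) (s y)) := by
  have key : ∀ x y, (w x y : ℤ) * sg (flip S s x) (flip S s y)
      = (w x y : ℤ) * sg (s x) (s y)
        - 2 * (if x ∈ S then (w x y : ℤ) * sg (s x) (s y) else 0)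
        - 2 * (if y ∈ S then (w x y : ℤ) * sg (s x) (s y) else 0)
        + 4 * (if x ∈ S then (if y ∈ S then (w x y : ℤ) * sg (s x) (s y) else 0) else 0) := by
    intro x y
    by_cases hx : x ∈ S <;> by_cases hy : y ∈ S <;>
      simp [flip, hx, hy, sg_not_left, sg_not_right] <;> ring
  have h1 : ∑ x, ∑ y, (if x ∈ S then (w x y : ℤ) * sg (s x) (s y) else 0)
      = ∑ x ∈ S, hv w s x := by
    simp only [Finset.sum_ite_irrel, Finset.sum_const_zero, Finset.sum_ite_mem, univ_inter, hv]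
  have h2 : ∑ x, ∑ y, (if y ∈ S then (w x y : ℤ) * sg (s x) (s y) else 0)
      = ∑ x ∈ S, hv w s x := by
    rw [Finset.sum_comm, ← h1]
    refine Finset.sum_congr rfl fun x _ => Finset.sum_congr rfl fun y _ => ?_
    rw [hw y x, sg_comm (s y)]
  have h3 : ∑ x, ∑ y, (if x ∈ S then (if y ∈ S then (w x y : ℤ) * sg (s x) (s y) else 0) else 0)
      = ∑ x ∈ S, ∑ y ∈ S, (w x y : ℤ) * sg (s x) (s y) := by
    simp only [Finset.sum_ite_irrel, Finset.sum_const_zero, Finset.sum_ite_mem, univ_inter]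
  unfold Dv
  simp only [key, Finset.sum_add_distrib, Finset.sum_sub_distrib, ← Finset.mul_sum, h1, h2, h3]
  ring

lemma hv_flip (w : X → X → ℕ) (S : Finset X) (s : X → Bool) {x : X} (hx : x ∉ S) :
    hv w (flip S s) x = hv w s x - 2 * ∑ y ∈ S, (w x y : ℤ) * sg (s x) (s y) := by
  have key : ∀ y, (w x y : ℤ) * sg (flip S s x) (flip S s y)
      = (w x y : ℤ) * sg (s x) (s y)
        - 2 * (if y ∈ S then (w x y : ℤ) * sg (s x) (s y) else 0) := by
    intro y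
    by_cases hy : y ∈ S
    · simp [flip, hx, hy, sg_not_right]; ring
    · simp [flip, hx, hy]
  unfold hv
  simp only [key, Finset.sum_sub_distrib, ← Finset.mul_sum, Finset.sum_ite_mem, univ_inter]

structure St (X : Type*) [Fintype X] extends Net X where
  I : Finset X
  s : X → Bool

namespace St
variable (c : St X)

def C (x y : X) : Prop := x ∉ c.I ∧ y ∉ c.I ∧ c.s x ≠ c.s y ∧ 0 < c.w x y
def S (x y : X) : Prop := x ∉ c.I ∧ y ∉ c.I ∧ c.s x = c.s y ∧ 0 < c.w x y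
def Nc (x : X) : Finset X := univ.filter (c.C x)
def Ns (x : X) : Finset X := univ.filter (c.S x)
def cr (x : X) : ℕ := ∑ y ∈ c.Nc x, c.w x y
def sm (x : X) : ℕ := ∑ y ∈ c.Ns x, c.w x y
def ia (x : X) : ℕ := ∑ y ∈ c.I, c.w x y
def gp (x : X) : ℤ := (c.cr x : ℤ) - c.sm x + c.ia x
def gm (x : X) : ℤ := (c.cr x : ℤ) - c.sm x - c.ia x
def T (x : X) : Prop := x ∈ c.O ∧ x ∉ c.I ∧ c.cr x = c.t ∧ c.sm x + 1 = c.t
def Sad (x : X) : Prop := x ∉ c.O ∧ x ∉ c.I ∧ c.cr x = 1 ∧ c.sm x = 1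
def Comp (K : Finset X) : Prop :=
  K.card = c.t ∧ ∀ x ∈ K, x ∈ c.O ∧ x ∉ c.I ∧ c.sm x + 1 = c.t ∧ ∀ y ∈ K, x ≠ y → c.S x y
def fl (A : Finset X) : St X := { c with s := flip A c.s }

variable {c}

@[simp] lemma mem_Nc {x y : X} : y ∈ c.Nc x ↔ c.C x y := by simp [Nc]
@[simp] lemma mem_Ns {x y : X} : y ∈ c.Ns x ↔ c.S x y := by simp [Ns]

lemma C.symm {x y : X} (h : c.C x y) : c.C y x :=
  ⟨h.2.1, h.1, h.2.2.1.symm, by rw [c.symm]; exact h.2.2.2⟩
lemma S.symm {x y : X} (h : c.S x y) : c.S y x :=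
  ⟨h.2.1, h.1, h.2.2.1.symm, by rw [c.symm]; exact h.2.2.2⟩
lemma C.pos {x y : X} (h : c.C x y) : 0 < c.w x y := h.2.2.2
lemma S.pos {x y : X} (h : c.S x y) : 0 < c.w x y := h.2.2.2
lemma C.side {x y : X} (h : c.C x y) : c.s x ≠ c.s y := h.2.2.1
lemma S.side {x y : X} (h : c.S x y) : c.s x = c.s y := h.2.2.1
lemma C.l {x y : X} (h : c.C x y) : x ∉ c.I := h.1
lemma C.r {x y : X} (h : c.C x y) : y ∉ c.I := h.2.1
lemma S.l {x y : X} (h : c.S x y) : x ∉ c.I := h.1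
lemma S.r {x y : X} (h : c.S x y) : y ∉ c.I := h.2.1
lemma C.ne {x y : X} (h : c.C x y) : x ≠ y := fun e => h.side (by rw [e])
lemma S.ne {x y : X} (h : c.S x y) : x ≠ y := fun e => by
  have := h.pos; rw [e, c.diag] at this; omega
lemma not_C_S {x y : X} (h : c.C x y) (h' : c.S x y) : False := h.side h'.side

lemma side_of_ne {a b d : Bool} (h1 : a ≠ b) (h2 : a ≠ d) : b = d := by
  cases a <;> cases b <;> cases d <;> simp_all

lemma C.same {x y z : X} (h : c.C x y) (h' : c.C x z) : c.s y = c.s z :=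
  side_of_ne h.side h'.side

lemma C.toS {x y z : X} (h : c.C x y) (h' : c.C x z) (hw : 0 < c.w y z) : c.S y z :=
  ⟨h.r, h'.r, h.same h', hw⟩

lemma cr_eq {x : X} (hx : x ∉ c.I) :
    c.cr x = ∑ y, if y ∉ c.I ∧ c.s x ≠ c.s y then c.w x y else 0 := by
  unfold cr Nc
  rw [Finset.sum_filter]
  refine Finset.sum_congr rfl fun y _ => ?_
  by_cases h : y ∉ c.I ∧ c.s x ≠ c.s y
  · by_cases hw : 0 < c.w x y
    · have : c.C x y := ⟨hx, h.1, h.2, hw⟩
      rw [if_pos this, if_pos h]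
    · have : ¬ c.C x y := fun hc => hw hc.pos
      rw [if_neg this, if_pos h]; omega
  · have : ¬ c.C x y := fun hc => h ⟨hc.r, hc.side⟩
    rw [if_neg this, if_neg h]

lemma sm_eq {x : X} (hx : x ∉ c.I) :
    c.sm x = ∑ y, if y ∉ c.I ∧ c.s x = c.s y then c.w x y else 0 := by
  unfold sm Ns
  rw [Finset.sum_filter]
  refine Finset.sum_congr rfl fun y _ => ?_
  by_cases h : y ∉ c.I ∧ c.s x = c.s y
  · by_cases hw : 0 < c.w x y
    · have : c.S x y := ⟨hx, h.1, h.2, hw⟩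
      rw [if_pos this, if_pos h]
    · have : ¬ c.S x y := fun hc => hw hc.pos
      rw [if_neg this, if_pos h]; omega
  · have : ¬ c.S x y := fun hc => h ⟨hc.r, hc.side⟩
    rw [if_neg this, if_neg h]

lemma ia_eq (x : X) : c.ia x = ∑ y, if y ∈ c.I then c.w x y else 0 := by
  simp only [Finset.sum_ite_mem, univ_inter, ia]

lemma deg_split {x : X} (hx : x ∉ c.I) : c.cr x + c.sm x + c.ia x = ∑ y, c.w x y := by
  rw [cr_eq hx, sm_eq hx, ia_eq, ← Finset.sum_add_distrib, ← Finset.sum_add_distrib]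
  refine Finset.sum_congr rfl fun y _ => ?_
  by_cases h1 : y ∈ c.I <;> by_cases h2 : c.s x = c.s y <;> simp [h1, h2]

lemma degO' {x : X} (hO : x ∈ c.O) (hx : x ∉ c.I) :
    c.cr x + c.sm x + c.ia x + c.e = 2 * c.t := by
  rw [deg_split hx]; exact c.degO x hO

lemma degS' {x : X} (hO : x ∉ c.O) (hx : x ∉ c.I) :
    c.cr x + c.sm x + c.ia x = 2 * c.mu x := by
  rw [deg_split hx]; exact c.degS x hO

/-- local field at a live atom for any orientation of the anchors -/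
lemma hv_eq {x : X} (hx : x ∉ c.I) (s1 : X → Bool) (h1 : ∀ y, y ∉ c.I → s1 y = c.s y) :
    hv c.w s1 x = (c.cr x : ℤ) - c.sm x + ∑ a ∈ c.I, (c.w x a : ℤ) * sg (c.s x) (s1 a) := by
  have h3 : ∑ a ∈ c.I, (c.w x a : ℤ) * sg (c.s x) (s1 a)
      = ∑ a, if a ∈ c.I then (c.w x a : ℤ) * sg (c.s x) (s1 a) else 0 := by
    simp only [Finset.sum_ite_mem, univ_inter]
  rw [cr_eq hx, sm_eq hx, h3, hv]
  push_cast
  rw [← Finset.sum_sub_distrib, ← Finset.sum_add_distrib]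
  refine Finset.sum_congr rfl fun y _ => ?_
  rw [h1 x hx]
  by_cases h1' : y ∈ c.I
  · simp [h1']
  · rw [h1 y h1']
    by_cases h2 : c.s x = c.s y <;> simp [h1', h2, sg]

lemma card_le_cr {x : X} {A : Finset X} (h : A ⊆ c.Nc x) : A.card ≤ c.cr x := by
  calc A.card = ∑ _y ∈ A, 1 := by simp
    _ ≤ ∑ y ∈ A, c.w x y := Finset.sum_le_sum fun y hy => (mem_Nc.1 (h hy)).pos
    _ ≤ c.cr x := Finset.sum_le_sum_of_subset h

lemma card_le_sm {x : X} {A : Finset X} (h : A ⊆ c.Ns x) : A.card ≤ c.sm x := by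
  calc A.card = ∑ _y ∈ A, 1 := by simp
    _ ≤ ∑ y ∈ A, c.w x y := Finset.sum_le_sum fun y hy => (mem_Ns.1 (h hy)).pos
    _ ≤ c.sm x := Finset.sum_le_sum_of_subset h

lemma Nc_eq {x : X} {A : Finset X} (h : A ⊆ c.Nc x) (h2 : c.cr x ≤ A.card) : c.Nc x = A :=
  (Finset.eq_of_subset_of_card_le h ((card_le_cr (Finset.Subset.refl _)).trans h2)).symm

lemma Ns_eq {x : X} {A : Finset X} (h : A ⊆ c.Ns x) (h2 : c.sm x ≤ A.card) : c.Ns x = A :=
  (Finset.eq_of_subset_of_card_le h ((card_le_sm (Finset.Subset.refl _)).trans h2)).symm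

lemma Comp.Ns_eq {K : Finset X} (hK : c.Comp K) {x : X} (hx : x ∈ K) : c.Ns x = K.erase x := by
  apply St.Ns_eq
  · intro y hy
    rw [mem_erase] at hy
    exact mem_Ns.2 ((hK.2 x hx).2.2.2 y hy.2 hy.1.symm)
  · rw [card_erase_of_mem hx, hK.1]
    have := (hK.2 x hx).2.2.1
    omega

lemma Comp.mem_of_S {K : Finset X} (hK : c.Comp K) {x y : X} (hx : x ∈ K) (h : c.S x y) :
    y ∈ K := by
  have := mem_Ns.2 h
  rw [hK.Ns_eq hx] at this
  exact mem_of_mem_erase this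

lemma Comp.eq_insert {K : Finset X} (hK : c.Comp K) {x : X} (hx : x ∈ K) :
    K = insert x (c.Ns x) := by
  rw [hK.Ns_eq hx, insert_erase hx]

lemma Comp.unique {K L : Finset X} (hK : c.Comp K) (hL : c.Comp L) {x : X} (hx : x ∈ K)
    (hx' : x ∈ L) : K = L := by
  rw [hK.eq_insert hx, hL.eq_insert hx']

lemma Comp.side {K : Finset X} (hK : c.Comp K) {x y : X} (hx : x ∈ K) (hy : y ∈ K) :
    c.s x = c.s y := by
  by_cases h : x = y
  · rw [h]
  · exact ((hK.2 x hx).2.2.2 y hy h).side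

/-! ### effect of a flip on the local counts -/

@[simp] lemma fl_w (A : Finset X) : (c.fl A).w = c.w := rfl
@[simp] lemma fl_I (A : Finset X) : (c.fl A).I = c.I := rfl
@[simp] lemma fl_O (A : Finset X) : (c.fl A).O = c.O := rfl
@[simp] lemma fl_t (A : Finset X) : (c.fl A).t = c.t := rfl
@[simp] lemma fl_e (A : Finset X) : (c.fl A).e = c.e := rfl
@[simp] lemma fl_s (A : Finset X) : (c.fl A).s = flip A c.s := rfl
@[simp] lemma fl_ia (A : Finset X) (x : X) : (c.fl A).ia x = c.ia x := rfl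

lemma sum_mem_eq (A : Finset X) (f : X → ℕ) : ∑ y ∈ A, f y = ∑ y, if y ∈ A then f y else 0 := by
  simp only [Finset.sum_ite_mem, univ_inter]

lemma fl_cr {A B : Finset X} {β : Bool} (hA : ∀ a ∈ A, a ∉ c.I ∧ c.s a ≠ β)
    (hB : ∀ b ∈ B, b ∉ c.I ∧ c.s b = β) {x : X} (hx : x ∉ c.I) (hs : c.s x = β) (hxB : x ∉ B) :
    (c.fl (A ∪ B)).cr x + ∑ y ∈ A, c.w x y = c.cr x + ∑ y ∈ B, c.w x y := by
  have hxA : x ∉ A := fun h => (hA x h).2 hs
  have hxS : x ∉ A ∪ B := by simp [hxA, hxB]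
  rw [cr_eq (c := c.fl (A ∪ B)) hx, cr_eq hx, sum_mem_eq A, sum_mem_eq B,
    ← Finset.sum_add_distrib, ← Finset.sum_add_distrib]
  refine Finset.sum_congr rfl fun y _ => ?_
  simp only [fl_w, fl_I, fl_s, flip_not_mem hxS, hs]
  by_cases hyA : y ∈ A
  · have h1 := hA y hyA
    have hyB : y ∉ B := fun h => h1.2 (hB y h).2
    have : flip (A ∪ B) c.s y = β := by
      rw [flip_mem (mem_union_left _ hyA)]
      have := h1.2
      revert this; cases c.s y <;> cases β <;> simp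
    simp [hyA, hyB, this, h1.1, h1.2.symm]
  · by_cases hyB : y ∈ B
    · have h1 := hB y hyB
      have : flip (A ∪ B) c.s y = !β := by
        rw [flip_mem (mem_union_right _ hyB), h1.2]
      simp [hyA, hyB, this, h1.1, h1.2]
    · have : flip (A ∪ B) c.s y = c.s y := flip_not_mem (by simp [hyA, hyB])
      simp [hyA, hyB, this]

lemma fl_sm {A B : Finset X} {β : Bool} (hA : ∀ a ∈ A, a ∉ c.I ∧ c.s a ≠ β)
    (hB : ∀ b ∈ B, b ∉ c.I ∧ c.s b = β) {x : X} (hx : x ∉ c.I) (hs : c.s x = β) (hxB : x ∉ B) :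
    (c.fl (A ∪ B)).sm x + ∑ y ∈ B, c.w x y = c.sm x + ∑ y ∈ A, c.w x y := by
  have h1 := fl_cr hA hB hx hs hxB
  have h2 := deg_split (c := c.fl (A ∪ B)) hx
  have h3 := deg_split hx
  simp only [fl_ia, fl_w] at h2
  omega

end St

end

end Pool.Agent.Lib.MP_bb98d0_co
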