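import Mathlib

/-!
The numerical constants of the discharging argument.
-/

namespace Pool.Agent.Lib.MP_bb98d0_co

def gam (t : ℕ) : ℚ := (3 * (t : ℚ) ^ 2 - 2) / (2 * (2 * t + 1))
def bb (t : ℕ) : ℚ := min ((gam t - 1) / t) (1 / 2)
def bH (t : ℕ) : ℚ := 3 * (t : ℚ) / 2 - 1 - gam t
def ra (t : ℕ) : ℚ := 2 - 1 / (t : ℚ)
def rb (t : ℕ) : ℚ := 3 / 2 - 1 / (t : ℚ)

variable {t : ℕ}

lemma gam3 : gam 3 = 25 / 14 := by norm_num [gam]
lemma gam4 : gam 4 = 23 / 9 := by norm_num [gam]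
lemma gam5 : gam 5 = 73 / 22 := by norm_num [gam]
lemma bb3 : bb 3 = 11 / 42 := by norm_num [bb, gam3, min_def]
lemma bb4 : bb 4 = 7 / 18 := by norm_num [bb, gam4, min_def]
lemma bb5 : bb 5 = 51 / 110 := by norm_num [bb, gam5, min_def]
lemma bH3 : bH 3 = 12 / 7 := by norm_num [bH, gam3]
lemma bH4 : bH 4 = 22 / 9 := by norm_num [bH, gam4]
lemma bH5 : bH 5 = 35 / 11 := by norm_num [bH, gam5]
lemma ra3 : ra 3 = 5 / 3 := by norm_num [ra]
lemma rb3 : rb 3 = 7 / 6 := by norm_num [rb]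

lemma gam_lo (ht : 3 ≤ t) : 3 * (t : ℚ) / 4 - 1 / 2 ≤ gam t := by
  have h : (3 : ℚ) ≤ t := by exact_mod_cast ht
  unfold gam
  rw [le_div_iff₀ (by positivity)]
  nlinarith

lemma gam_hi (ht : 3 ≤ t) : gam t ≤ 3 * (t : ℚ) / 4 - 3 / 8 := by
  have h : (3 : ℚ) ≤ t := by exact_mod_cast ht
  unfold gam
  rw [div_le_iff₀ (by positivity)]
  nlinarith

lemma bb_big (ht : 6 ≤ t) : bb t = 1 / 2 := by
  have h : (6 : ℚ) ≤ t := by exact_mod_cast ht
  unfold bb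
  refine min_eq_right ?_
  rw [le_div_iff₀ (by positivity)]
  have := gam_lo (t := t) (by omega)
  linarith

lemma cases_t (ht : 3 ≤ t) : t = 3 ∨ t = 4 ∨ t = 5 ∨ 6 ≤ t := by omega

lemma inv_le (ht : 3 ≤ t) : 1 / (t : ℚ) ≤ 1 / 3 := by
  have h : (3 : ℚ) ≤ t := by exact_mod_cast ht
  exact one_div_le_one_div_of_le (by norm_num) h

lemma inv_le4 (ht : 4 ≤ t) : 1 / (t : ℚ) ≤ 1 / 4 := by
  have h : (4 : ℚ) ≤ t := by exact_mod_cast ht
  exact one_div_le_one_div_of_le (by norm_num) h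

lemma inv_pos' (ht : 3 ≤ t) : 0 < 1 / (t : ℚ) := by
  have h : (3 : ℚ) ≤ t := by exact_mod_cast ht
  positivity

lemma mul_inv' (ht : 3 ≤ t) : (t : ℚ) * (1 / t) = 1 := by
  have h : (3 : ℚ) ≤ t := by exact_mod_cast ht
  field_simp

lemma bb_le : bb t ≤ 1 / 2 := min_le_right _ _

lemma bb_mul (ht : 3 ≤ t) : (t : ℚ) * bb t ≤ gam t - 1 := by
  have h : (3 : ℚ) ≤ t := by exact_mod_cast ht
  have : bb t ≤ (gam t - 1) / t := min_le_left _ _
  rw [le_div_iff₀ (by positivity)] at this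
  linarith

lemma bb_lo (ht : 3 ≤ t) : ((t : ℚ) - 1) * (1 - 2 * bb t) ≤ 1 := by
  rcases cases_t ht with rfl | rfl | rfl | h
  · norm_num [bb3]
  · norm_num [bb4]
  · norm_num [bb5]
  · rw [bb_big h]; norm_num

lemma bb_ge (ht : 3 ≤ t) : 1 / 4 ≤ bb t := by
  rcases cases_t ht with rfl | rfl | rfl | h
  · norm_num [bb3]
  · norm_num [bb4]
  · norm_num [bb5]
  · rw [bb_big h]; norm_num

lemma bb_ge' (ht : 3 ≤ t) : 1 / 2 - 1 / (t : ℚ) ≤ bb t := by
  rcases cases_t ht with rfl | rfl | rfl | h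
  · norm_num [bb3]
  · norm_num [bb4]
  · norm_num [bb5]
  · rw [bb_big h]; have := inv_pos' ht; linarith

lemma bH_lo (ht : 3 ≤ t) : 3 * (t : ℚ) / 4 - 5 / 8 ≤ bH t := by
  have := gam_hi ht; unfold bH; linarith

lemma bH_pos (ht : 3 ≤ t) : 1 ≤ bH t := by
  have h : (3 : ℚ) ≤ t := by exact_mod_cast ht
  have := bH_lo ht; linarith

lemma h0_ge (ht : 3 ≤ t) : 1 / 2 ≤ bH t / t := by
  have h : (3 : ℚ) ≤ t := by exact_mod_cast ht
  rw [le_div_iff₀ (by positivity)]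
  have := bH_lo ht; linarith

lemma h0_bb (ht : 4 ≤ t) : 1 ≤ bH t / t + bb t := by
  rcases cases_t (t := t) (by omega) with rfl | rfl | rfl | h
  · omega
  · norm_num [bb4, bH4]
  · norm_num [bb5, bH5]
  · rw [bb_big h]; have := h0_ge (t := t) (by omega); linarith

lemma h0_bb' (ht : 3 ≤ t) : 1 / 2 + 1 / (t : ℚ) ≤ bH t / t + bb t := by
  rcases Nat.lt_or_ge t 4 with h | h
  · obtain rfl : t = 3 := by omega
    norm_num [bb3, bH3]
  · have := h0_bb h; have := inv_le ht; linarith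

lemma h1_ge (ht : 3 ≤ t) : 1 / 2 + 1 / (t : ℚ) ≤ bH t / ((t : ℚ) - 1) := by
  have h : (3 : ℚ) ≤ t := by exact_mod_cast ht
  rcases cases_t ht with rfl | rfl | rfl | h6
  · norm_num [bH3]
  · norm_num [bH4]
  · norm_num [bH5]
  · have h6' : (6 : ℚ) ≤ t := by exact_mod_cast h6
    rw [le_div_iff₀ (by linarith)]
    have := bH_lo ht
    have := mul_inv' ht
    have := inv_pos' ht
    nlinarith

lemma special (ht : 3 ≤ t) :
    ((t : ℚ) - 1) * (1 / 2 - bb t) - 1 / t ≤ 2 * (bH t / t) - 1 := by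
  rcases cases_t ht with rfl | rfl | rfl | h
  · norm_num [bb3, bH3]
  · norm_num [bb4, bH4]
  · norm_num [bb5, bH5]
  · rw [bb_big h]; have := h0_ge ht; have := inv_pos' ht; linarith

lemma div_anti (ht : 3 ≤ t) {n : ℕ} {m : ℚ} (h0 : 0 < n) (h : (n : ℚ) ≤ m) :
    bH t / m ≤ bH t / n := by
  have := bH_pos ht
  have h1 : (0 : ℚ) < n := by exact_mod_cast h0
  exact div_le_div_of_nonneg_left (by linarith) h1 h

lemma rb_ge (ht : 3 ≤ t) : 7 / 6 ≤ rb t := by have := inv_le ht; unfold rb; linarith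
lemma rb_le_ra : rb t ≤ ra t := by unfold rb ra; linarith
lemma ra_le (ht : 3 ≤ t) : ra t ≤ 2 := by have := inv_pos' ht; unfold ra; linarith
lemma t_ra (ht : 3 ≤ t) : (t : ℚ) * ra t = 2 * t - 1 := by
  have := mul_inv' ht; unfold ra; linarith [mul_sub (t : ℚ) 2 (1 / t)]
lemma t_rb (ht : 3 ≤ t) : (t : ℚ) * rb t = 3 * t / 2 - 1 := by
  have := mul_inv' ht; unfold rb; linarith [mul_sub (t : ℚ) (3 / 2) (1 / t)]
lemma ra_le_gam (ht : 3 ≤ t) : ra t ≤ gam t := by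
  rcases Nat.lt_or_ge t 4 with h | h
  · obtain rfl : t = 3 := by omega
    norm_num [ra3, gam3]
  · have h4 : (4 : ℚ) ≤ t := by exact_mod_cast h
    have := gam_lo ht; have := ra_le ht; linarith
lemma half_le_gam (ht : 3 ≤ t) : (t : ℚ) / 2 ≤ gam t := by
  have h : (3 : ℚ) ≤ t := by exact_mod_cast ht
  have := gam_lo ht; linarith

open Finset in
/-- two level bound for a finite sum -/
lemma sum_two_level {α : Type*} (A : Finset α) (r : α → ℚ) (p : α → Prop) [DecidablePred p]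
    {m M : ℚ} {a n : ℕ} (hm : 0 ≤ m) (hM : m ≤ M) (ha : A.card ≤ a)
    (hn : (A.filter p).card ≤ n) (h1 : ∀ x ∈ A, r x ≤ M) (h2 : ∀ x ∈ A, ¬ p x → r x ≤ m) :
    ∑ x ∈ A, r x ≤ m * a + (M - m) * n := by
  have h3 : ∑ x ∈ A, r x ≤ ∑ x ∈ A, (m + if p x then M - m else 0) := by
    refine Finset.sum_le_sum fun x hx => ?_
    by_cases hp : p x
    · rw [if_pos hp]; linarith [h1 x hx]
    · rw [if_neg hp]; linarith [h2 x hx hp]
  rw [Finset.sum_add_distrib, ← Finset.sum_filter, Finset.sum_const, Finset.sum_const,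
    nsmul_eq_mul, nsmul_eq_mul] at h3
  have h4 : (A.card : ℚ) ≤ a := by exact_mod_cast ha
  have h5 : ((A.filter p).card : ℚ) ≤ n := by exact_mod_cast hn
  nlinarith

end Pool.Agent.Lib.MP_bb98d0_co
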