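import Pool.Agent.Lib.MP_bb98d0_co.Net

/-!
Optimal states and the local facts they satisfy.
-/

namespace Pool.Agent.Lib.MP_bb98d0_co
open Finset Classical

noncomputable section

variable {X : Type*} [Fintype X]

namespace St

def Free (c : St X) : Prop :=
  c.I ⊆ c.O ∧ (c.e = 0 ∨ c.I = ∅) ∧ (∀ a ∈ c.I, ∀ b ∈ c.I, c.w a b = 0) ∧
    ∀ a ∈ c.I, hv c.w c.s a = 0

def Opt2 (c : St X) : Prop :=
  (∀ s', Dv c.w s' ≤ Dv c.w c.s) ∧ c.Free ∧
    ∀ (s' : X → Bool) (I' : Finset X), Dv c.w s' = Dv c.w c.s →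
      Free { c with s := s', I := I' } → I'.card ≤ c.I.card

variable {c : St X}

lemma Free.orient (h : c.Free) (o : X → Bool) :
    Dv c.w (fun x => if x ∈ c.I then o x else c.s x) = Dv c.w c.s := by
  have e1 : (fun x => if x ∈ c.I then o x else c.s x)
      = flip (c.I.filter fun a => o a ≠ c.s a) c.s := by
    funext x
    by_cases hx : x ∈ c.I
    · by_cases ho : o x = c.s x
      · simp [flip, hx, ho]
      · have : x ∈ c.I.filter fun a => o a ≠ c.s a := by simp [hx, ho]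
        rw [flip_mem this, if_pos hx]
        revert ho; cases o x <;> cases c.s x <;> simp
    · simp [flip, hx]
  rw [e1, Dv_flip _ c.symm]
  have h1 : ∑ x ∈ c.I.filter (fun a => o a ≠ c.s a), hv c.w c.s x = 0 :=
    Finset.sum_eq_zero fun x hx => h.2.2.2 x (mem_filter.1 hx).1
  have h2 : ∑ x ∈ c.I.filter (fun a => o a ≠ c.s a), ∑ y ∈ c.I.filter (fun a => o a ≠ c.s a),
      (c.w x y : ℤ) * sg (c.s x) (c.s y) = 0 :=
    Finset.sum_eq_zero fun x hx => Finset.sum_eq_zero fun y hy => by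
      rw [h.2.2.1 x (mem_filter.1 hx).1 y (mem_filter.1 hy).1]; simp
  rw [h1, h2]; simp

lemma Opt2.Ugen (h : c.Opt2) (S : Finset X) (hS : ∀ x ∈ S, x ∉ c.I) (o : X → Bool) :
    ∑ x ∈ S, ∑ y ∈ S, (c.w x y : ℤ) * sg (c.s x) (c.s y) ≤
      ∑ x ∈ S, ((c.cr x : ℤ) - c.sm x + ∑ a ∈ c.I, (c.w x a : ℤ) * sg (c.s x) (o a)) := by
  set s1 : X → Bool := fun x => if x ∈ c.I then o x else c.s x with hs1
  have h1 : Dv c.w s1 = Dv c.w c.s := h.2.1.orient o
  have h2 := h.1 (flip S s1)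
  rw [Dv_flip _ c.symm, h1] at h2
  have hoff : ∀ y, y ∉ c.I → s1 y = c.s y := fun y hy => by simp [hs1, hy]
  have h3 : ∑ x ∈ S, hv c.w s1 x = ∑ x ∈ S, ((c.cr x : ℤ) - c.sm x
      + ∑ a ∈ c.I, (c.w x a : ℤ) * sg (c.s x) (o a)) := by
    refine Finset.sum_congr rfl fun x hx => ?_
    rw [hv_eq (hS x hx) s1 hoff]
    congr 1
    refine Finset.sum_congr rfl fun a ha => ?_
    simp [hs1, ha]
  have h4 : ∑ x ∈ S, ∑ y ∈ S, (c.w x y : ℤ) * sg (s1 x) (s1 y)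
      = ∑ x ∈ S, ∑ y ∈ S, (c.w x y : ℤ) * sg (c.s x) (c.s y) :=
    Finset.sum_congr rfl fun x hx => Finset.sum_congr rfl fun y hy => by
      rw [hoff x (hS x hx), hoff y (hS y hy)]
  rw [h3, h4] at h2
  linarith

lemma two_sided {A B : Finset X} {β : Bool} (hA : ∀ a ∈ A, a ∉ c.I ∧ c.s a ≠ β)
    (hB : ∀ b ∈ B, b ∉ c.I ∧ c.s b = β) :
    ∑ x ∈ A ∪ B, ∑ y ∈ A ∪ B, (c.w x y : ℤ) * sg (c.s x) (c.s y)
      = 2 * ∑ a ∈ A, ∑ b ∈ B, (c.w a b : ℤ) - ∑ a ∈ A, ∑ a' ∈ A, (c.w a a' : ℤ)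
        - ∑ b ∈ B, ∑ b' ∈ B, (c.w b b' : ℤ) := by
  have hd : Disjoint A B := Finset.disjoint_left.2 fun x h1 h2 => (hA x h1).2 (hB x h2).2
  simp only [Finset.sum_union hd, Finset.sum_add_distrib]
  have h1 : ∑ x ∈ A, ∑ y ∈ A, (c.w x y : ℤ) * sg (c.s x) (c.s y)
      = - ∑ a ∈ A, ∑ a' ∈ A, (c.w a a' : ℤ) := by
    rw [← Finset.sum_neg_distrib]
    refine Finset.sum_congr rfl fun x hx => ?_
    rw [← Finset.sum_neg_distrib]
    refine Finset.sum_congr rfl fun y hy => ?_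
    rw [sg_eq (side_of_ne (hA x hx).2.symm (hA y hy).2.symm)]; ring
  have h2 : ∑ x ∈ B, ∑ y ∈ B, (c.w x y : ℤ) * sg (c.s x) (c.s y)
      = - ∑ a ∈ B, ∑ a' ∈ B, (c.w a a' : ℤ) := by
    rw [← Finset.sum_neg_distrib]
    refine Finset.sum_congr rfl fun x hx => ?_
    rw [← Finset.sum_neg_distrib]
    refine Finset.sum_congr rfl fun y hy => ?_
    rw [sg_eq ((hB x hx).2.trans (hB y hy).2.symm)]; ring
  have h3 : ∑ x ∈ A, ∑ y ∈ B, (c.w x y : ℤ) * sg (c.s x) (c.s y)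
      = ∑ a ∈ A, ∑ b ∈ B, (c.w a b : ℤ) := by
    refine Finset.sum_congr rfl fun x hx => Finset.sum_congr rfl fun y hy => ?_
    rw [sg_ne (by rw [(hB y hy).2]; exact (hA x hx).2)]; ring
  have h4 : ∑ x ∈ B, ∑ y ∈ A, (c.w x y : ℤ) * sg (c.s x) (c.s y)
      = ∑ a ∈ A, ∑ b ∈ B, (c.w a b : ℤ) := by
    rw [Finset.sum_comm]
    refine Finset.sum_congr rfl fun x hx => Finset.sum_congr rfl fun y hy => ?_
    rw [sg_ne (by rw [(hB y hy).2]; exact (hA x hx).2.symm), c.symm]; ring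
  rw [h1, h2, h3, h4]; ring

lemma Opt2.U (h : c.Opt2) {A B : Finset X} {β : Bool} (hA : ∀ a ∈ A, a ∉ c.I ∧ c.s a ≠ β)
    (hB : ∀ b ∈ B, b ∉ c.I ∧ c.s b = β) :
    2 * ∑ a ∈ A, ∑ b ∈ B, (c.w a b : ℤ) ≤ ∑ a ∈ A, c.gp a + ∑ b ∈ B, c.gm b
      + ∑ a ∈ A, ∑ a' ∈ A, (c.w a a' : ℤ) + ∑ b ∈ B, ∑ b' ∈ B, (c.w b b' : ℤ) := by
  have hd : Disjoint A B := Finset.disjoint_left.2 fun x h1 h2 => (hA x h1).2 (hB x h2).2
  have h1 := h.Ugen (A ∪ B) (fun x hx => by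
    rcases mem_union.1 hx with h | h
    exacts [(hA x h).1, (hB x h).1]) (fun _ => β)
  rw [two_sided hA hB, Finset.sum_union hd] at h1
  have h2 : ∑ x ∈ A, ((c.cr x : ℤ) - c.sm x + ∑ a ∈ c.I, (c.w x a : ℤ) * sg (c.s x) β)
      = ∑ a ∈ A, c.gp a := by
    refine Finset.sum_congr rfl fun x hx => ?_
    simp [gp, ia, sg_ne (hA x hx).2]
  have h3 : ∑ x ∈ B, ((c.cr x : ℤ) - c.sm x + ∑ a ∈ c.I, (c.w x a : ℤ) * sg (c.s x) β)
      = ∑ a ∈ B, c.gm a := by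
    refine Finset.sum_congr rfl fun x hx => ?_
    simp [gm, ia, sg_eq (hB x hx).2, sub_eq_add_neg]
  rw [h2, h3] at h1
  linarith

lemma Opt2.gm_nonneg (h : c.Opt2) {x : X} (hx : x ∉ c.I) : 0 ≤ c.gm x := by
  have := h.U (A := ∅) (B := {x}) (β := c.s x) (by simp) (by simp [hx])
  simpa [c.diag] using this

lemma Opt2.cr_ge (h : c.Opt2) {x : X} (hO : x ∈ c.O) (hx : x ∉ c.I) : c.t ≤ c.cr x := by
  have h1 := h.gm_nonneg hx
  have h2 := degO' hO hx
  have h3 := c.he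
  unfold gm at h1
  omega

lemma Opt2.cr_gt (h : c.Opt2) {x : X} (hO : x ∈ c.O) (hx : x ∉ c.I) (hi : c.ia x + c.e = 0) :
    c.t + 1 ≤ c.cr x := by
  by_contra hc
  have h1 := h.cr_ge hO hx
  have h2 := degO' hO hx
  have hz : ∀ a ∈ c.I, c.w x a = 0 := by
    intro a ha
    have : c.w x a ≤ c.ia x := Finset.single_le_sum (f := fun y => c.w x y) (fun _ _ => Nat.zero_le _) ha
    omega
  have h3 : Free { c with s := c.s, I := insert x c.I } := by
    refine ⟨?_, Or.inl (by show c.e = 0; omega), ?_, ?_⟩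
    · intro a ha
      rcases mem_insert.1 ha with rfl | ha
      exacts [hO, h.2.1.1 ha]
    · intro a ha b hb
      show c.w a b = 0
      rcases mem_insert.1 ha with ha' | ha' <;> rcases mem_insert.1 hb with hb' | hb'
      · rw [ha', hb']; exact c.diag _
      · rw [ha']; exact hz _ hb'
      · rw [c.symm, hb']; exact hz _ ha'
      · exact h.2.1.2.2.1 a ha' b hb'
    · intro a ha
      show hv c.w c.s a = 0
      rcases mem_insert.1 ha with rfl | ha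
      · rw [hv_eq hx c.s (fun _ _ => rfl)]
        rw [Finset.sum_eq_zero fun b hb => by rw [hz b hb]; simp]
        omega
      · exact h.2.1.2.2.2 a ha
  have h4 := h.2.2 c.s (insert x c.I) rfl h3
  rw [card_insert_of_notMem hx] at h4
  omega

lemma Opt2.sm_le (h : c.Opt2) {x : X} (hO : x ∈ c.O) (hx : x ∉ c.I) : c.sm x + 1 ≤ c.t := by
  have h1 := h.cr_ge hO hx
  have h2 := degO' hO hx
  by_cases hi : c.ia x + c.e = 0
  · have := h.cr_gt hO hx hi
    omega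
  · omega

lemma Opt2.anc (h : c.Opt2) {q u : X} (hq : c.T q) (hu : c.T u) (hc : c.C q u) :
    ∀ a ∈ c.I, c.w a q = c.w a u := by
  have dq := degO' hq.1 hq.2.1
  have du := degO' hu.1 hu.2.1
  have hq1 := hq.2.2.1; have hq2 := hq.2.2.2
  have hu1 := hu.2.2.1; have hu2 := hu.2.2.2
  have hle : ∀ x, ∀ a ∈ c.I, c.w x a ≤ c.ia x := fun x a ha =>
    Finset.single_le_sum (f := fun y => c.w x y) (fun _ _ => Nat.zero_le _) ha
  by_cases he : c.e = 1
  · intro a ha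
    have := hle q a ha
    have := hle u a ha
    rw [c.symm a q, c.symm a u]
    omega
  have he0 : c.e = 0 := by have := c.he; omega
  have hw : c.w q u = 1 := by have := c.simple q hq.1 u hu.1; have := hc.pos; omega
  have h1 := h.Ugen {q, u} (by simp [hq.2.1, hu.2.1])
    (fun a => if 0 < c.w q a then c.s q else c.s u)
  have hne := hc.ne
  simp only [Finset.sum_pair hne, c.diag, c.symm u q, hw, sg_ne hc.side, sg_ne hc.side.symm]
    at h1
  have h2 : ∑ a ∈ c.I, (c.w q a : ℤ) * sg (c.s q) (if 0 < c.w q a then c.s q else c.s u)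
      = - c.ia q := by
    unfold ia
    push_cast
    rw [← Finset.sum_neg_distrib]
    refine Finset.sum_congr rfl fun a _ => ?_
    by_cases hp : 0 < c.w q a
    · simp [hp, sg]
    · have : c.w q a = 0 := by omega
      simp [this]
  rw [h2] at h1
  -- there is a common anchor
  have h3 : ∃ a ∈ c.I, 0 < c.w q a ∧ 0 < c.w u a := by
    by_contra hn
    push Not at hn
    have h4 : ∑ a ∈ c.I, (c.w u a : ℤ) * sg (c.s u) (if 0 < c.w q a then c.s q else c.s u)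
        = - c.ia u := by
      unfold ia
      push_cast
      rw [← Finset.sum_neg_distrib]
      refine Finset.sum_congr rfl fun a ha => ?_
      by_cases hp : 0 < c.w q a
      · have : c.w u a = 0 := by have := hn a ha hp; omega
        simp [this]
      · simp [hp, sg]
    rw [h4] at h1
    push_cast at h1
    omega
  obtain ⟨a0, ha0, p1, p2⟩ := h3
  have hsingle : ∀ x, c.ia x = 1 → 0 < c.w x a0 → ∀ a ∈ c.I, c.w x a = if a = a0 then 1 else 0 := by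
    intro x hx hp a ha
    by_cases hh : a = a0
    · have := hle x a0 ha0
      rw [if_pos hh, hh]; omega
    · have : ∑ y ∈ ({a, a0} : Finset X), c.w x y ≤ c.ia x :=
        Finset.sum_le_sum_of_subset (by intro y hy; simp at hy; rcases hy with rfl | rfl <;> assumption)
      rw [Finset.sum_pair hh] at this
      rw [if_neg hh]; omega
  intro a ha
  rw [c.symm a q, c.symm a u, hsingle q (by omega) p1 a ha, hsingle u (by omega) p2 a ha]

/-- balanced neutral flips preserve optimality -/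
lemma Opt2.flip (h : c.Opt2) {A B : Finset X} {β : Bool} (hA : ∀ a ∈ A, a ∉ c.I ∧ c.s a ≠ β)
    (hB : ∀ b ∈ B, b ∉ c.I ∧ c.s b = β)
    (bal : ∀ a ∈ c.I, ∑ y ∈ A, c.w a y = ∑ y ∈ B, c.w a y)
    (neu : 2 * ∑ a ∈ A, ∑ b ∈ B, (c.w a b : ℤ) = ∑ a ∈ A, ((c.cr a : ℤ) - c.sm a)
      + ∑ b ∈ B, ((c.cr b : ℤ) - c.sm b)
      + ∑ a ∈ A, ∑ a' ∈ A, (c.w a a' : ℤ) + ∑ b ∈ B, ∑ b' ∈ B, (c.w b b' : ℤ)) :
    (c.fl (A ∪ B)).Opt2 := by
  have hd : Disjoint A B := Finset.disjoint_left.2 fun x h1 h2 => (hA x h1).2 (hB x h2).2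
  have hS : ∀ x ∈ A ∪ B, x ∉ c.I := fun x hx => by
    rcases mem_union.1 hx with h | h
    exacts [(hA x h).1, (hB x h).1]
  have hbal : ∀ a ∈ c.I, ∑ y ∈ A ∪ B, (c.w a y : ℤ) * sg (c.s a) (c.s y) = 0 := by
    intro a ha
    rw [Finset.sum_union hd]
    have e1 : ∑ y ∈ A, (c.w a y : ℤ) * sg (c.s a) (c.s y)
        = - sg (c.s a) β * ∑ y ∈ A, (c.w a y : ℤ) := by
      rw [Finset.mul_sum]
      refine Finset.sum_congr rfl fun y hy => ?_
      have : c.s y = !β := by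
        have := (hA y hy).2
        revert this; cases c.s y <;> cases β <;> simp
      rw [this, sg_not_right]; ring
    have e2 : ∑ y ∈ B, (c.w a y : ℤ) * sg (c.s a) (c.s y)
        = sg (c.s a) β * ∑ y ∈ B, (c.w a y : ℤ) := by
      rw [Finset.mul_sum]
      refine Finset.sum_congr rfl fun y hy => ?_
      rw [(hB y hy).2]; ring
    have e3 : ∑ y ∈ A, (c.w a y : ℤ) = ∑ y ∈ B, (c.w a y : ℤ) := by exact_mod_cast bal a ha
    rw [e1, e2, e3]; ring
  have hD : Dv c.w (MP_bb98d0_co.flip (A ∪ B) c.s) = Dv c.w c.s := by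
    rw [Dv_flip _ c.symm, two_sided hA hB]
    have e1 : ∑ x ∈ A ∪ B, hv c.w c.s x = ∑ x ∈ A ∪ B, ((c.cr x : ℤ) - c.sm x)
        + ∑ x ∈ A ∪ B, ∑ a ∈ c.I, (c.w x a : ℤ) * sg (c.s x) (c.s a) := by
      rw [← Finset.sum_add_distrib]
      exact Finset.sum_congr rfl fun x hx => hv_eq (hS x hx) c.s (fun _ _ => rfl)
    have e2 : ∑ x ∈ A ∪ B, ∑ a ∈ c.I, (c.w x a : ℤ) * sg (c.s x) (c.s a) = 0 := by
      rw [Finset.sum_comm]
      refine Finset.sum_eq_zero fun a ha => ?_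
      rw [← hbal a ha]
      refine Finset.sum_congr rfl fun y _ => ?_
      rw [c.symm, sg_comm]
    rw [e1, e2, Finset.sum_union hd]
    linarith
  refine ⟨fun s' => ?_, ⟨h.2.1.1, h.2.1.2.1, h.2.1.2.2.1, fun a ha => ?_⟩, fun s' I' h1 h2 => ?_⟩
  · show Dv c.w s' ≤ Dv c.w (MP_bb98d0_co.flip (A ∪ B) c.s)
    rw [hD]; exact h.1 s'
  · show hv c.w (MP_bb98d0_co.flip (A ∪ B) c.s) a = 0
    rw [hv_flip _ _ _ (fun hh => hS a hh ha), h.2.1.2.2.2 a ha, hbal a ha]; simp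
  · exact h.2.2 s' I' (h1.trans hD) h2

end St

end

end Pool.Agent.Lib.MP_bb98d0_co
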