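import Pool.Agent.Lib.MP_bb98d0_co.Local
import Pool.Agent.Lib.MP_bb98d0_co.Num

/-!
The discharging rules and the value received by tight vertices that are not deep.
-/

namespace Pool.Agent.Lib.MP_bb98d0_co
open Finset Classical

noncomputable section

variable {X : Type*} [Fintype X]

namespace St

def Deep (c : St X) (u : X) : Prop :=
  c.T u ∧ c.Comp (c.Nc u) ∧ ((c.Nc u).filter c.H).card ≤ 1
def D (c : St X) (q : X) : Finset X := (c.Nc q).filter c.Deep
def Out (c : St X) (x q : X) : Prop := ∃ u ∈ c.D q, ¬ (x ∈ c.O ∧ 0 < c.w x u)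
def TA (c : St X) (q : X) : Prop := (c.D q).card + 1 = c.t ∧ ∀ y, c.S q y → c.T y
def jj (c : St X) (q : X) : ℕ := ∑ y ∈ (c.Nc q).filter c.Pay, c.w q y
def nT (c : St X) (x : X) : ℕ := ((c.Nc x).filter c.T).card
def Hlp (c : St X) (u : X) : Prop :=
  c.t = 3 ∧ ∃ q y1 y2, c.Nc u = {q, y1, y2} ∧ c.T q ∧ c.Pay y1 ∧ c.Pay y2 ∧ c.S y1 y2 ∧
    c.w y1 q = 0 ∧ c.w y2 q = 0
def rW (c : St X) (x q : X) : ℚ :=
  if c.Out x q then (if c.TA q then ra c.t else rb c.t)
  else if c.jj q = 1 then 1 else if c.Hlp q then 7 / 12 else 1 / 2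
def rate (c : St X) (x q : X) : ℚ :=
  if c.Sad q then (c.t : ℚ) / 2
  else if c.T q then
    (if c.V x then bb c.t else if c.H x then bH c.t / c.nT x else if c.W x then c.rW x q else 0)
  else 0
def val (c : St X) (q : X) : ℚ := ∑ x ∈ c.Nc q, (c.w q x : ℚ) * c.rate x q
def paid (c : St X) (x : X) : ℚ := ∑ q ∈ c.Nc x, (c.w x q : ℚ) * c.rate x q
def N3 (c : St X) (q : X) : Prop :=
  c.t = 3 ∧ ∃ u v x, c.Nc q = {u, v, x} ∧ c.T u ∧ c.V v ∧ c.H x ∧ c.nT x = 3

variable {c : St X}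

lemma rW_ge (x q : X) : 1 / 2 ≤ c.rW x q := by
  have := rb_ge c.ht; have := rb_le_ra (t := c.t)
  unfold rW; split_ifs <;> linarith

lemma rW_out {x q : X} (h : c.Out x q) : rb c.t ≤ c.rW x q := by
  have := rb_le_ra (t := c.t)
  unfold rW; rw [if_pos h]; split_ifs <;> linarith

lemma rW_outA {x q : X} (h : c.Out x q) (h' : c.TA q) : c.rW x q = ra c.t := by
  unfold rW; rw [if_pos h, if_pos h']

lemma rW_j1 {x q : X} (h : c.jj q = 1) : 1 ≤ c.rW x q := by
  have := rb_ge c.ht; have := rb_le_ra (t := c.t)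
  unfold rW; split_ifs <;> linarith

lemma rW_hlp {x q : X} (h : c.Hlp q) : 7 / 12 ≤ c.rW x q := by
  have := rb_ge c.ht; have := rb_le_ra (t := c.t)
  unfold rW; split_ifs <;> linarith

lemma rate_nonneg (x q : X) : 0 ≤ c.rate x q := by
  have h1 := rW_ge (c := c) x q
  have h2 := bb_ge c.ht
  have h3 := bH_pos c.ht
  have h4 : 0 ≤ bH c.t / c.nT x := div_nonneg (by linarith) (Nat.cast_nonneg _)
  have h5 : 0 ≤ (c.t : ℚ) / 2 := by positivity
  unfold rate; split_ifs <;> linarith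

lemma rate_sad {x q : X} (h : c.Sad q) : c.rate x q = (c.t : ℚ) / 2 := by
  unfold rate; rw [if_pos h]
lemma rate_V {x q : X} (hq : c.T q) (hx : c.V x) : c.rate x q = bb c.t := by
  unfold rate; rw [if_neg hq.not_sad, if_pos hq, if_pos hx]
lemma rate_H {x q : X} (hq : c.T q) (hx : c.H x) : c.rate x q = bH c.t / c.nT x := by
  unfold rate; rw [if_neg hq.not_sad, if_pos hq, if_neg (fun h => V.not_H h hx), if_pos hx]
lemma rate_W {x q : X} (hq : c.T q) (hx : c.W x) : c.rate x q = c.rW x q := by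
  unfold rate
  rw [if_neg hq.not_sad, if_pos hq, if_neg (fun h => V.not_W h hx), if_neg hx.2, if_pos hx]
lemma rate_zero {x q : X} (h1 : ¬ c.Sad q) (h2 : ¬ c.T q) : c.rate x q = 0 := by
  unfold rate; rw [if_neg h1, if_neg h2]
lemma rate_low {x q : X} (h1 : ¬ c.Sad q) (hx : c.Low x) (hV : ¬ c.V x) : c.rate x q = 0 := by
  unfold rate
  rw [if_neg h1, if_neg hV, if_neg (fun h => hx.not_pay (H.pay h)),
    if_neg (fun h : c.W x => hx.not_pay h.1)]
  simp

/-- a clique on one side has at most `t` elements -/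
lemma clique_card {A : Finset X} (hA : ∀ x ∈ A, ∀ y ∈ A, x ≠ y → c.S x y) {x : X} (hx : x ∈ A) :
    A.card ≤ c.sm x + 1 := by
  have h2 : (A.erase x).card ≤ c.sm x := card_le_sm fun y hy => by
    rw [mem_erase] at hy
    exact mem_Ns.2 (hA x hx y hy.2 hy.1.symm)
  rw [card_erase_of_mem hx] at h2
  omega

lemma Opt2.nT_clique (h : c.Opt2) {x : X} (hx : c.H x) :
    ∀ y ∈ (c.Nc x).filter c.T, ∀ z ∈ (c.Nc x).filter c.T, y ≠ z → c.S y z := by
  intro y hy z hz hne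
  rw [mem_filter, mem_Nc] at hy hz
  exact h.F1 hx.1 hx.2.2.2 hy.2.low hz.2.low hy.1 hz.1 hne

lemma nT_pos {x q : X} (hq : c.T q) (hc : c.C q x) : 0 < c.nT x :=
  card_pos.2 ⟨q, by simp [hq, hc.symm]⟩

lemma Opt2.nT_le (h : c.Opt2) {x q : X} (hx : c.H x) (hq : c.T q) (hc : c.C q x) :
    c.nT x ≤ c.t := by
  have := clique_card (h.nT_clique hx) (x := q) (by simp [hq, hc.symm])
  have := hq.2.2.2
  unfold nT; omega

lemma Opt2.rate_H_ge (h : c.Opt2) {x q : X} (hx : c.H x) (hq : c.T q) (hc : c.C q x) :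
    bH c.t / c.t ≤ c.rate x q := by
  rw [rate_H hq hx]
  exact div_anti c.ht (nT_pos hq hc) (by exact_mod_cast h.nT_le hx hq hc)

lemma Opt2.rate_pay (h : c.Opt2) {x q : X} (hx : c.Pay x) (hq : c.T q) (hc : c.C q x) :
    1 / 2 ≤ c.rate x q := by
  by_cases hH : c.H x
  · exact (h0_ge c.ht).trans (h.rate_H_ge hH hq hc)
  · rw [rate_W hq ⟨hx, hH⟩]; exact rW_ge x q

lemma val_ge_w {q : X} {A : Finset X} (hA : A ⊆ c.Nc q) :
    ∑ x ∈ A, (c.w q x : ℚ) * c.rate x q ≤ c.val q :=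
  Finset.sum_le_sum_of_subset_of_nonneg hA fun x _ _ =>
    mul_nonneg (Nat.cast_nonneg _) (rate_nonneg x q)

lemma val_ge {q : X} {A : Finset X} (hA : A ⊆ c.Nc q) : ∑ x ∈ A, c.rate x q ≤ c.val q := by
  refine le_trans (Finset.sum_le_sum fun x hx => ?_) (val_ge_w hA)
  have h1 : (1 : ℚ) ≤ c.w q x := by exact_mod_cast (mem_Nc.1 (hA hx)).pos
  have := rate_nonneg (c := c) x q
  nlinarith

lemma val_nonneg (q : X) : 0 ≤ c.val q := by
  simpa using val_ge (c := c) (q := q) (A := ∅) (by simp)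

lemma val_ge1 {q x : X} (h : c.C q x) : c.rate x q ≤ c.val q := by
  simpa using val_ge (c := c) (q := q) (A := {x}) (by simpa using h)

lemma val_ge2 {q x y : X} (h : c.C q x) (h' : c.C q y) (hne : x ≠ y) :
    c.rate x q + c.rate y q ≤ c.val q := by
  have := val_ge (c := c) (q := q) (A := {x, y}) (by
    intro z hz
    simp only [mem_insert, mem_singleton] at hz
    rcases hz with rfl | rfl <;> simpa)
  rwa [Finset.sum_pair hne] at this

lemma Opt2.val_jj (h : c.Opt2) {q : X} (hq : c.T q) : (c.jj q : ℚ) / 2 ≤ c.val q := by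
  refine le_trans ?_ (val_ge_w (A := (c.Nc q).filter c.Pay) (filter_subset _ _))
  unfold jj
  push_cast
  rw [Finset.sum_div]
  refine Finset.sum_le_sum fun x hx => ?_
  rw [mem_filter, mem_Nc] at hx
  have := h.rate_pay hx.2 hq hx.1
  have h1 : (0 : ℚ) ≤ c.w q x := Nat.cast_nonneg _
  nlinarith

lemma Opt2.low_ord (h : c.Opt2) {q y y' : X} (hq : c.T q) (hy : c.Low y) (hy' : c.Low y')
    (h1 : c.C q y) (h2 : c.C q y') (hne : y ≠ y') : y ∈ c.O := by
  by_contra hO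
  have h3 := h.F1 hq.1 hq.2.2.2 hy hy' h1 h2 hne
  have h4 := h.low_sup hy hO
  have h5 := w_le_sm h3
  have h6 := h3.pos
  exact h.low_sad ⟨hO, hy.1, hy.2.2 hO, by omega⟩ hq.low h1.symm

/-- the low cross neighbours of a tight vertex -/
def Lo (c : St X) (q : X) : Finset X := (c.Nc q).filter c.Low

lemma mem_Lo {q y : X} : y ∈ c.Lo q ↔ c.C q y ∧ c.Low y := by simp [Lo]

lemma Opt2.Lo_card (h : c.Opt2) {q : X} (hq : c.T q) : (c.Lo q).card + c.jj q = c.t := by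
  have h1 : c.cr q = ∑ y ∈ (c.Nc q).filter c.Pay, c.w q y
      + ∑ y ∈ (c.Nc q).filter (fun y => ¬ c.Pay y), c.w q y :=
    (Finset.sum_filter_add_sum_filter_not _ _ _).symm
  have h2 : (c.Nc q).filter (fun y => ¬ c.Pay y) = c.Lo q := by
    ext y
    rw [mem_filter, mem_Lo, mem_Nc]
    exact and_congr_right fun hc =>
      ⟨fun hn => (h.low_or_pay hc).resolve_right hn, fun hl => hl.not_pay⟩
  have h3 : ∑ y ∈ c.Lo q, c.w q y = (c.Lo q).card := by
    rw [Finset.card_eq_sum_ones]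
    exact Finset.sum_congr rfl fun y hy => (mem_Lo.1 hy).2.w_one hq.1 (mem_Lo.1 hy).1
  rw [h2, h3, hq.2.2.1] at h1
  unfold jj; omega

lemma Opt2.Lo_clique (h : c.Opt2) {q : X} (hq : c.T q) :
    ∀ y ∈ c.Lo q, ∀ z ∈ c.Lo q, y ≠ z → c.S y z := fun _ hy _ hz hne =>
  h.F1 hq.1 hq.2.2.2 (mem_Lo.1 hy).2 (mem_Lo.1 hz).2 (mem_Lo.1 hy).1 (mem_Lo.1 hz).1 hne

lemma Opt2.Lo_ord (h : c.Opt2) {q : X} (hq : c.T q) (hj : c.jj q ≤ 1) :
    ∀ y ∈ c.Lo q, y ∈ c.O := by
  intro y hy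
  have h1 := h.Lo_card hq
  have := c.ht
  obtain ⟨y', hy', hne⟩ := exists_mem_ne (s := c.Lo q) (by omega) y
  exact h.low_ord hq (mem_Lo.1 hy).2 (mem_Lo.1 hy').2 (mem_Lo.1 hy).1 (mem_Lo.1 hy').1 hne.symm

lemma jj_ge {q x : X} (hc : c.C q x) (hx : c.Pay x) : c.w q x ≤ c.jj q :=
  Finset.single_le_sum (f := fun y => c.w q y) (fun _ _ => Nat.zero_le _) (by simp [hc, hx])

lemma jj_ge2 {q x y : X} (hc : c.C q x) (hx : c.Pay x) (hc' : c.C q y) (hy : c.Pay y)
    (hne : x ≠ y) : 2 ≤ c.jj q := by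
  have : ∑ z ∈ ({x, y} : Finset X), c.w q z ≤ c.jj q := Finset.sum_le_sum_of_subset (by
    intro z hz
    simp only [mem_insert, mem_singleton] at hz
    rcases hz with rfl | rfl <;> simp [*])
  rw [Finset.sum_pair hne] at this
  have := hc.pos; have := hc'.pos
  omega

lemma Opt2.j1_low (h : c.Opt2) {q x y : X} (hj : c.jj q = 1) (hc : c.C q x) (hx : c.Pay x)
    (hc' : c.C q y) (hne : y ≠ x) : c.Low y := by
  refine (h.low_or_pay hc').resolve_right fun hy => ?_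
  have := jj_ge2 hc hx hc' hy hne.symm
  omega

lemma jj_pos {q : X} (hj : c.jj q ≠ 0) : ∃ x, c.C q x ∧ c.Pay x := by
  obtain ⟨x, hx, -⟩ := Finset.exists_ne_zero_of_sum_ne_zero hj
  exact ⟨x, by simpa using hx⟩

lemma Opt2.comp_of_clique (h : c.Opt2) {K : Finset X} (hc : K.card = c.t) (hO : ∀ x ∈ K, x ∈ c.O)
    (hI : ∀ x ∈ K, x ∉ c.I) (hS : ∀ x ∈ K, ∀ y ∈ K, x ≠ y → c.S x y) : c.Comp K := by
  refine ⟨hc, fun x hx => ⟨hO x hx, hI x hx, ?_, hS x hx⟩⟩
  have := clique_card hS hx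
  have := h.sm_le (hO x hx) (hI x hx)
  omega

lemma Opt2.comp_T_or_H (h : c.Opt2) {K : Finset X} (hK : c.Comp K) {x : X} (hx : x ∈ K) :
    c.T x ∨ c.H x := by
  obtain ⟨h1, h2, h3, -⟩ := hK.2 x hx
  have := h.cr_ge h1 h2
  have := degO' h1 h2
  by_cases h4 : c.cr x = c.t
  · exact Or.inl ⟨h1, h2, h4, h3⟩
  · exact Or.inr ⟨h1, h2, by omega, h3⟩

lemma Opt2.tier (h : c.Opt2) {q : X} (hq : c.T q) (hd : ¬ c.Deep q) :
    1 ≤ c.val q ∨ c.N3 q := by
  have hcard := h.Lo_card hq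
  have ht := c.ht
  by_cases h2 : 2 ≤ c.jj q
  · left
    have := h.val_jj hq
    have : (2 : ℚ) ≤ c.jj q := by exact_mod_cast h2
    linarith
  have hO := h.Lo_ord hq (by omega)
  by_cases h0 : c.jj q = 0
  · exfalso
    have e1 : c.Nc q = c.Lo q := Nc_eq (filter_subset _ _) (by rw [hq.2.2.1]; omega)
    refine hd ⟨hq, ?_, ?_⟩
    · rw [e1]
      exact h.comp_of_clique (by omega) hO (fun x hx => (mem_Lo.1 hx).2.1) (h.Lo_clique hq)
    · rw [e1, Finset.filter_false_of_mem]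
      · simp
      · exact fun x hx hH => (mem_Lo.1 hx).2.not_pay hH.pay
  have h1 : c.jj q = 1 := by omega
  obtain ⟨p, hp1, hp2⟩ := jj_pos h0
  by_cases hH : ¬ c.H p
  · left
    have := val_ge1 hp1
    rw [rate_W hq ⟨hp2, hH⟩] at this
    exact (rW_j1 h1).trans this
  push Not at hH
  have hpL : p ∉ c.Lo q := fun hh => (mem_Lo.1 hh).2.not_pay hp2
  have e1 : c.Nc q = insert p (c.Lo q) := by
    refine Nc_eq ?_ (by rw [card_insert_of_notMem hpL, hq.2.2.1]; omega)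
    intro y hy
    rcases mem_insert.1 hy with rfl | hy
    exacts [mem_Nc.2 hp1, mem_Nc.2 (mem_Lo.1 hy).1]
  by_cases hall : ∀ y ∈ c.Lo q, c.T y
  · exfalso
    refine hd ⟨hq, ?_, ?_⟩
    · rw [e1]
      refine h.comp_of_clique (by rw [card_insert_of_notMem hpL]; omega) ?_ ?_ ?_
      · intro y hy
        rcases mem_insert.1 hy with rfl | hy
        exacts [hH.1, hO y hy]
      · intro y hy
        rcases mem_insert.1 hy with rfl | hy
        exacts [hH.2.1, (mem_Lo.1 hy).2.1]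
      · intro y hy z hz hne
        rcases mem_insert.1 hy with hy | hy <;> rcases mem_insert.1 hz with hz | hz
        · exact absurd (hy.trans hz.symm) hne
        · rw [hy]; exact h.Hadj hH hq (hall z hz) hp1 (mem_Lo.1 hz).1
        · rw [hz]; exact (h.Hadj hH hq (hall y hy) hp1 (mem_Lo.1 hy).1).symm
        · exact h.Lo_clique hq y hy z hz hne
    · refine (card_le_card (t := {p}) ?_).trans (by simp)
      intro y hy
      rw [mem_filter, e1] at hy
      rcases mem_insert.1 hy.1 with hy' | hy'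
      · simp [hy']
      · exact absurd hy.2.pay (mem_Lo.1 hy').2.not_pay
  push Not at hall
  obtain ⟨v, hv, hvT⟩ := hall
  have hV : c.V v := (h.T_or_V (mem_Lo.1 hv).2 (hO v hv)).resolve_left hvT
  have hpv : p ≠ v := fun e => hpL (e ▸ hv)
  have h3 := val_ge2 hp1 (mem_Lo.1 hv).1 hpv
  rw [rate_V hq hV] at h3
  have h4 := h.rate_H_ge hH hq hp1
  by_cases ht4 : 4 ≤ c.t
  · left; have := h0_bb ht4; linarith
  have ht3 : c.t = 3 := by omega
  obtain ⟨u, hu, huv⟩ := exists_mem_ne (s := c.Lo q) (by omega) v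
  have e2 : c.Lo q = {u, v} := by
    symm
    refine eq_of_subset_of_card_le ?_ (by rw [card_pair huv]; omega)
    intro y hy
    simp only [mem_insert, mem_singleton] at hy
    rcases hy with rfl | rfl <;> assumption
  have hpu : p ≠ u := fun e => hpL (e ▸ hu)
  rcases h.T_or_V (mem_Lo.1 hu).2 (hO u hu) with hT | hV'
  · by_cases hn : c.nT p = 3
    · right
      refine ⟨ht3, u, v, p, ?_, hT, hV, hH, hn⟩
      rw [e1, e2]; ext y; simp only [mem_insert, mem_singleton]; tauto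
    · left
      have h5 := h.nT_le hH hq hp1
      have h6 := div_anti c.ht (m := 2) (nT_pos hq hp1) (by exact_mod_cast (by omega : c.nT p ≤ 2))
      rw [rate_H hq hH] at h3
      rw [ht3, bH3] at h6 h3
      rw [bb3] at h3
      linarith
  · left
    have h5 := val_ge (c := c) (q := q) (A := {p, u, v}) (by rw [e1, e2])
    rw [sum_three _ hpu hpv huv, rate_V hq hV, rate_V hq hV'] at h5
    have := h0_ge c.ht; have := bb_ge c.ht
    linarith

lemma Opt2.N3_val (h : c.Opt2) {q : X} (hq : c.T q) (hn : c.N3 q) : 5 / 6 ≤ c.val q := by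
  obtain ⟨ht, u, v, x, e, -, hv, hx, -⟩ := hn
  have h1 : c.C q x := mem_Nc.1 (by rw [e]; simp)
  have h2 : c.C q v := mem_Nc.1 (by rw [e]; simp)
  have h3 := val_ge2 h1 h2 (fun e => hv.not_H (e ▸ hx))
  have h4 := h.rate_H_ge hx hq h1
  rw [rate_V hq hv] at h3
  rw [ht] at h3 h4
  rw [bb3] at h3
  rw [bH3] at h4
  norm_num at h4
  linarith

lemma Opt2.tier' (h : c.Opt2) {q : X} (hq : c.T q) (hd : ¬ c.Deep q) : 5 / 6 ≤ c.val q := by
  rcases h.tier hq hd with h1 | h1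
  · linarith
  · exact h.N3_val hq h1

lemma mem_D {q u : X} : u ∈ c.D q ↔ c.C q u ∧ c.Deep u := by simp [D]

lemma D_mem {q u : X} (hu : u ∈ c.D q) : q ∈ c.Nc u := mem_Nc.2 (mem_D.1 hu).1.symm

lemma D_eq {u q : X} (hu : c.Comp (c.Nc u)) (hq : q ∈ c.Nc u) {y : X} :
    y ∈ c.D q ↔ c.Deep y ∧ c.Nc y = c.Nc u := by
  rw [mem_D]
  constructor
  · exact fun h => ⟨h.2, h.2.2.1.unique hu (mem_Nc.2 h.1.symm) hq⟩
  · exact fun h => ⟨(mem_Nc.1 (h.2 ▸ hq)).symm, h.1⟩

end St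

end

end Pool.Agent.Lib.MP_bb98d0_co
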