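import Pool.Agent.Lib.MP_bb98d0_co.Core2
import Pool.Agent.Lib.MP_bb98d0_co.Afford3

/-!
Summation of the discharging argument.
-/

namespace Pool.Agent.Lib.MP_bb98d0_co
open Finset Classical

noncomputable section

variable {X : Type*} [Fintype X]

def Net.cost (N : Net X) (x : X) : ℚ :=
  if x ∈ N.O then (2 * N.t + 8 / 3) / (2 * N.t + 1 - N.e)
  else if N.mu x = 0 then 0 else 8 / 3 - 2 * N.mu x

namespace St

def key (c : St X) (q : X) : Finset X :=
  if c.Deep q then c.Nc q else if (c.D q).Nonempty then insert q (c.Ns q)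
  else if c.Hlp q then (c.Nc q).filter c.T else {q}

variable {c : St X}

lemma Hlp.card {u : X} (h : c.Hlp u) : ((c.Nc u).filter c.T).card ≤ 1 := by
  obtain ⟨-, q, y1, y2, e, -, p1, p2, -⟩ := h
  refine (card_le_card (t := {q}) ?_).trans (by simp)
  intro a ha
  rw [mem_filter, e] at ha
  simp only [mem_insert, mem_singleton] at ha ⊢
  rcases ha.1 with h1 | h1 | h1
  · exact h1
  · exact absurd (h1 ▸ p1) ha.2.low.not_pay
  · exact absurd (h1 ▸ p2) ha.2.low.not_pay

lemma Opt2.hlp_val (h : c.Opt2) {u : X} (hu : c.T u) (hh : c.Hlp u) : 1 ≤ c.val u := by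
  obtain ⟨-, q, y1, y2, e, -, p1, p2, hS, -⟩ := hh
  have h1 := jj_ge2 (q := u) (mem_Nc.1 (by rw [e]; simp)) p1 (mem_Nc.1 (by rw [e]; simp)) p2 hS.ne
  have := h.val_jj hu
  have : (2 : ℚ) ≤ c.jj u := by exact_mod_cast h1
  linarith

lemma Good.helper (G : c.Good) {q : X} (hq : c.T q) (hn : c.N3 q) (hD : ¬ (c.D q).Nonempty) :
    ∃ u, c.T u ∧ u ≠ q ∧ c.key u = {q} ∧ 7 / 6 ≤ c.val u := by
  have h := G.opt
  obtain ⟨ht, u, v, x, e, hu, hv, hx, hnx⟩ := hn
  have cu : c.C q u := mem_Nc.1 (by rw [e]; simp)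
  have cv : c.C q v := mem_Nc.1 (by rw [e]; simp)
  have cx : c.C q x := mem_Nc.1 (by rw [e]; simp)
  have hK := h.nT_comp hx (by omega)
  have hqK : q ∈ (c.Nc x).filter c.T := by simp [cx.symm, hq]
  have huv : u ≠ v := fun e => hu.not_V (e ▸ hv)
  have suv := h.F1 hq.1 hq.2.2.2 hu.low hv.low cu cv huv
  have hN : c.New u q := (G.kap1 q u _ hq hu cu hK hqK).resolve_left fun hN => by
    have := (hN v cv huv.symm).2.1
    have := hv.2.2.2
    have := suv.symm.pos
    omega
  have hO : c.Nc u ⊆ c.O := fun y hy => by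
    by_cases e : y = q
    · rw [e]; exact hq.1
    · exact (hN y (mem_Nc.1 hy) e).1
  have hc3 : ((c.Nc u).erase q).card = 2 := by
    rw [card_erase_of_mem (mem_Nc.2 cu.symm), card_Nc_ord hu.1 hO, hu.2.2.1, ht]
  obtain ⟨y1, y2, hne, e2⟩ := card_eq_two.1 hc3
  have e3 : c.Nc u = {q, y1, y2} := by rw [← e2, insert_erase (mem_Nc.2 cu.symm)]
  have m1 : y1 ∈ (c.Nc u).erase q := by rw [e2]; simp
  have m2 : y2 ∈ (c.Nc u).erase q := by rw [e2]; simp
  rw [mem_erase, mem_Nc] at m1 m2
  have s12 : c.S y1 y2 := m1.2.toS m2.2 ((hN y1 m1.2 m1.1).2.2 y2 m2.2 m2.1 hne)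
  have hnot : ¬ (y1 ∈ (c.Nc x).filter c.T ∧ y2 ∈ (c.Nc x).filter c.T) := fun hh => by
    refine hD ⟨u, mem_D.2 ⟨cu, deep_of_full hK (fun z hz => (mem_filter.1 hz).2) hu ?_⟩⟩
    refine eq_of_subset_of_card_le ?_ (by rw [hK.1, card_Nc_ord hu.1 hO, hu.2.2.1])
    intro a ha
    rw [e3] at ha
    simp only [mem_insert, mem_singleton] at ha
    rcases ha with rfl | rfl | rfl
    exacts [hqK, hh.1, hh.2]
  have w1 : c.w y1 q = 0 := by
    rw [c.symm]
    exact comp_w_zero hK hqK (fun hh => hnot ⟨hh, hK.mem_of_S hh s12⟩) m1.2.r (cu.symm.same m1.2)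
  have w2 : c.w y2 q = 0 := by
    rw [c.symm]
    exact comp_w_zero hK hqK (fun hh => hnot ⟨hK.mem_of_S hh s12.symm, hh⟩) m2.2.r
      (cu.symm.same m2.2)
  have hW : ∀ y, c.C u y → y ≠ q → c.w y q = 0 → c.W y := fun y hy hyq hw => by
    refine ⟨(h.low_or_pay hy).resolve_left fun hl => ?_, fun hH => ?_⟩
    · have := (h.F1 hu.1 hu.2.2.2 hl hq.low hy cu.symm hyq).pos
      omega
    · have := (hN y hy hyq).2.1
      have := hH.2.2.2
      omega
  have W1 := hW y1 m1.2 m1.1 w1
  have W2 := hW y2 m2.2 m2.1 w2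
  have hH : c.Hlp u := ⟨ht, q, y1, y2, e3, hq, W1.1, W2.1, s12, w1, w2⟩
  refine ⟨u, hu, cu.ne.symm, ?_, ?_⟩
  · unfold key
    rw [if_neg, if_neg, if_pos hH]
    · symm
      exact eq_of_subset_of_card_le (by simp [cu.symm, hq]) (by simpa using hH.card)
    · rintro ⟨u', hu'⟩
      rw [mem_D] at hu'
      have := (hu'.2.2.1.2 v (hu'.2.2.1.mem_of_S (mem_Nc.2 hu'.1.symm) suv)).2.2.1
      have := hv.2.2.2
      omega
    · intro hd
      have := ((hd.2.1.2 y1 (mem_Nc.2 m1.2)).2.2.2 q (mem_Nc.2 cu.symm) m1.1).pos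
      omega
  · have := val_ge2 m1.2 m2.2 hne
    rw [rate_W hu W1, rate_W hu W2] at this
    have := rW_hlp (x := y1) hH
    have := rW_hlp (x := y2) hH
    linarith

lemma Good.fiber (G : c.Good) (g : Finset X) :
    0 ≤ ∑ q ∈ (univ.filter c.T).filter (fun q => c.key q = g), (c.val q - 1) := by
  have h := G.opt
  have ht := c.ht
  by_cases h1 : ∃ u0, c.Deep u0 ∧ c.Nc u0 = g
  · obtain ⟨u0, h0, rfl⟩ := h1
    have e : (univ.filter c.T).filter (fun q => c.key q = c.Nc u0)
        = (c.QQ u0).filter (fun q => ¬ c.Deep q) ∪ c.RR u0 := by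
      ext q
      simp only [mem_filter, mem_univ, true_and, mem_union, mem_QQ, mem_RR]
      unfold key
      constructor
      · rintro ⟨hT, hk⟩
        split_ifs at hk with k1 k2 k3
        · exact Or.inr ⟨k1, hk⟩
        · exact Or.inl ⟨⟨mem_Nc.1 (hk ▸ mem_insert_self _ _), hT⟩, k1⟩
        · have := k3.card; rw [hk, h0.2.1.1] at this; omega
        · have := h0.2.1.1; rw [← hk, card_singleton] at this; omega
      · rintro (⟨⟨k1, k2⟩, k3⟩ | ⟨k1, k2⟩)
        · refine ⟨k2, ?_⟩
          rw [if_neg k3, if_pos ⟨u0, mem_D.2 ⟨k1.symm, h0⟩⟩]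
          exact (h0.2.1.eq_insert (mem_Nc.2 k1)).symm
        · exact ⟨k1.1, by rw [if_pos k1, k2]⟩
    have hdis : Disjoint ((c.QQ u0).filter (fun q => ¬ c.Deep q)) (c.RR u0) :=
      Finset.disjoint_left.2 fun q h1 h2 => (mem_filter.1 h1).2 (mem_RR.1 h2).1
    rw [e, Finset.sum_union hdis, Finset.sum_filter]
    have := G.core h0
    unfold contr at this
    simpa only [ite_not] using this
  set F := (univ.filter c.T).filter (fun q => c.key q = g) with hF
  have hmem : ∀ q, q ∈ F ↔ c.T q ∧ c.key q = g := fun q => by simp [hF]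
  have hnd : ∀ q ∈ F, ¬ c.Deep q := fun q hq hd => h1 ⟨q, hd, by
    have := ((hmem q).1 hq).2
    unfold key at this
    rwa [if_pos hd] at this⟩
  have hD : ∀ q ∈ F, ¬ (c.D q).Nonempty := fun q hq hd => by
    have := ((hmem q).1 hq).2
    unfold key at this
    rw [if_neg (hnd q hq), if_pos hd] at this
    obtain ⟨u, hu⟩ := hd
    exact h1 ⟨u, (mem_D.1 hu).2, ((mem_D.1 hu).2.2.1.eq_insert (D_mem hu)).trans this⟩
  by_cases h2 : ∀ q ∈ F, 1 ≤ c.val q
  · exact Finset.sum_nonneg fun q hq => by linarith [h2 q hq]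
  push Not at h2
  obtain ⟨q, hq, hv⟩ := h2
  have hT := ((hmem q).1 hq).1
  have hN := (h.tier hT (hnd q hq)).resolve_left (by linarith)
  have hg : g = {q} := by
    have := ((hmem q).1 hq).2
    unfold key at this
    rw [if_neg (hnd q hq), if_neg (hD q hq),
      if_neg (fun hh => by linarith [h.hlp_val hT hh])] at this
    exact this.symm
  obtain ⟨u, hu, hne, hk, hval⟩ := G.helper hT hN (hD q hq)
  have h3 : ∑ a ∈ ({u, q} : Finset X), (c.val a - 1) ≤ ∑ a ∈ F, (c.val a - 1) := by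
    refine Finset.sum_le_sum_of_subset_of_nonneg ?_ fun a ha hn => ?_
    · intro a ha
      simp only [mem_insert, mem_singleton] at ha
      rcases ha with rfl | rfl
      exacts [(hmem _).2 ⟨hu, hk.trans hg.symm⟩, hq]
    · have k1 := ((hmem a).1 ha).2
      unfold key at k1
      rw [if_neg (hnd a ha), if_neg (hD a ha)] at k1
      split_ifs at k1 with k2
      · linarith [h.hlp_val ((hmem a).1 ha).1 k2]
      · rw [hg, singleton_inj] at k1
        exact absurd (by simp [k1]) hn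
  rw [Finset.sum_pair hne] at h3
  have := h.N3_val hT hN
  linarith

lemma Good.sum_T (G : c.Good) : 0 ≤ ∑ q ∈ univ.filter c.T, (c.val q - 1) := by
  rw [← Finset.sum_fiberwise (univ.filter c.T) c.key]
  exact Finset.sum_nonneg fun g _ => G.fiber g

lemma sum_paid_val : ∑ x, c.paid x = ∑ q, c.val q := by
  unfold paid val Nc
  simp only [Finset.sum_filter]
  rw [Finset.sum_comm]
  refine Finset.sum_congr rfl fun q _ => Finset.sum_congr rfl fun x _ => ?_
  by_cases hc : c.C x q
  · rw [if_pos hc, if_pos hc.symm, c.symm]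
  · rw [if_neg hc, if_neg fun h => hc h.symm]

lemma Good.sum_BB (G : c.Good) : 0 ≤ ∑ x ∈ univ.filter (fun x => x ∉ c.I), c.BB x := by
  have h := G.opt
  have h1 : ∀ x, (if c.T x then c.val x - 1 else 0)
      ≤ (if x ∉ c.I then c.BB x else 0) - c.paid x + c.val x := by
    intro x
    by_cases hI : x ∈ c.I
    · have e : c.Nc x = ∅ := by
        ext y; simp only [mem_Nc, Finset.notMem_empty, iff_false]; exact fun hc => hc.l hI
      rw [if_neg (fun hT : c.T x => hT.2.1 hI), if_neg (not_not.2 hI)]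
      simp [paid, val, e]
    rw [if_pos hI]
    by_cases hT : c.T x
    · rw [if_pos hT, h.paid_low hT.low hT.not_V]
      have := degO' hT.1 hI
      have e1 : (c.ia x : ℚ) + c.e = 1 := by
        have := hT.2.2.1; have := hT.2.2.2
        exact_mod_cast (by omega : c.ia x + c.e = 1)
      unfold BB
      rw [if_pos hT.1, hT.2.2.1, e1]
      simp only [sub_self, mul_zero, zero_div, zero_mul]
      linarith
    rw [if_neg hT]
    by_cases hs : c.Sad x
    · rw [h.paid_low hs.low (fun hV => hs.1 hV.1)]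
      have e1 : c.val x = c.t / 2 := by
        unfold val
        rw [Finset.sum_congr rfl fun y _ => by rw [rate_sad hs], ← Finset.sum_mul, ← Nat.cast_sum]
        have := hs.2.2.1
        unfold cr at this
        rw [this]; simp
      have := degS' hs.1 hI
      unfold BB
      rw [if_neg hs.1, if_neg (by have := hs.2.2.1; omega), e1, hs.ia_zero h, hs.2.2.1]
      push_cast
      linarith
    · have := G.afford hI hT hs
      have := val_nonneg (c := c) x
      linarith
  have h2 := Finset.sum_le_sum fun x (_ : x ∈ univ) => h1 x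
  rw [Finset.sum_add_distrib, Finset.sum_sub_distrib, sum_paid_val, ← Finset.sum_filter,
    ← Finset.sum_filter] at h2
  have := G.sum_T
  linarith

lemma Free.Dv_eq (h : c.Free) :
    Dv c.w c.s = ∑ x ∈ univ.filter (fun x => x ∉ c.I), ((c.cr x : ℤ) - c.sm x) := by
  have h1 : Dv c.w c.s = ∑ x ∈ univ.filter (fun x => x ∉ c.I), hv c.w c.s x := by
    rw [Finset.sum_filter]
    refine Finset.sum_congr rfl fun x _ => ?_
    split_ifs with hx
    · exact h.2.2.2 x hx
    · rfl
  have h2 : ∑ x ∈ univ.filter (fun x => x ∉ c.I), ∑ a ∈ c.I,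
      (c.w x a : ℤ) * sg (c.s x) (c.s a) = 0 := by
    rw [Finset.sum_comm]
    refine Finset.sum_eq_zero fun a ha => ?_
    rw [← h.2.2.2 a ha, Finset.sum_filter]
    refine Finset.sum_congr rfl fun x _ => ?_
    split_ifs with hx
    · rw [h.2.2.1 a ha x hx]; simp
    · rw [c.symm, sg_comm]
  rw [h1, Finset.sum_congr rfl fun x hx => hv_eq (mem_filter.1 hx).2 c.s (fun _ _ => rfl),
    Finset.sum_add_distrib, h2, add_zero]

lemma Free.sum_ia (h : c.Free) (he : c.e = 0) :
    ∑ x ∈ univ.filter (fun x => x ∉ c.I), c.ia x = c.I.card * (2 * c.t) := by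
  unfold ia
  rw [Finset.sum_comm, ← smul_eq_mul, ← Finset.sum_const]
  refine Finset.sum_congr rfl fun a ha => ?_
  have := c.degO a (h.1 ha)
  rw [he, add_zero] at this
  rw [← this, Finset.sum_filter]
  refine Finset.sum_congr rfl fun x _ => ?_
  split_ifs with hx
  · rw [h.2.2.1 a ha x hx]
  · rw [c.symm]

theorem Good.cost_le (G : c.Good) : ∑ x, c.toNet.cost x ≤ (Dv c.w c.s : ℚ) := by
  have h := G.opt
  have hF := h.2.1
  have ht : (3 : ℚ) ≤ c.t := by exact_mod_cast c.ht
  have h0 := G.sum_BB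
  set L := univ.filter (fun x => x ∉ c.I) with hL
  set c0 : ℚ := (2 * c.t + 8 / 3) / (2 * c.t + 1) with hc0
  have h1 : ∀ x ∈ L, ((c.cr x : ℚ) - c.sm x) = c.toNet.cost x + c.ia x * (c0 / (2 * c.t))
      + 4 / (3 * c.t) * c.BB x := by
    intro x hx
    have hI : x ∉ c.I := (mem_filter.1 hx).2
    unfold Net.cost BB
    by_cases hO : x ∈ c.O
    · rw [if_pos hO, if_pos hO]
      have hd : (c.sm x : ℚ) = 2 * c.t - c.cr x - c.ia x - c.e := by
        have : (c.cr x : ℚ) + c.sm x + c.ia x + c.e = 2 * c.t := by exact_mod_cast degO' hO hI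
        linarith
      rw [hd]
      by_cases he : c.e = 0
      · rw [he, hc0]; unfold gam; rw [Nat.cast_zero, sub_zero (2 * (c.t : ℚ) + 1)]; field_simp; ring
      · have he1 : c.e = 1 := by have := c.he; omega
        have hi : c.ia x = 0 := by unfold ia; rw [hF.2.1.resolve_left he]; simp
        rw [he1, hi]; push_cast
        rw [show (2 * (c.t : ℚ) + 1 - 1) = 2 * c.t by ring]
        field_simp; ring
    · rw [if_neg hO, if_neg hO]
      have hd := degS' hO hI
      by_cases m0 : c.mu x = 0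
      · rw [if_pos m0, if_pos m0, (by omega : c.cr x = 0), (by omega : c.sm x = 0),
          (by omega : c.ia x = 0)]
        simp
      · rw [if_neg m0, if_neg m0]
        have hd : (c.sm x : ℚ) = 2 * c.mu x - c.cr x - c.ia x := by
          have : (c.cr x : ℚ) + c.sm x + c.ia x = 2 * c.mu x := by exact_mod_cast hd
          linarith
        rw [hd, hc0]; unfold gam; field_simp; ring
  have h2 : ∑ x ∈ L, (c.ia x : ℚ) * (c0 / (2 * c.t)) = ∑ a ∈ c.I, c.toNet.cost a := by
    rcases hF.2.1 with he | he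
    · rw [← Finset.sum_mul, ← Nat.cast_sum, hF.sum_ia he,
        Finset.sum_congr rfl (g := fun _ => c0) fun a ha => by
          unfold Net.cost; rw [if_pos (hF.1 ha), he, hc0]; simp]
      rw [Finset.sum_const, nsmul_eq_mul]
      push_cast; field_simp
    · unfold ia; rw [he]; simp
  have h3 : ∑ x, c.toNet.cost x = ∑ x ∈ L, c.toNet.cost x + ∑ a ∈ c.I, c.toNet.cost a := by
    rw [← Finset.sum_filter_add_sum_filter_not univ (fun x => x ∉ c.I)]
    congr 2
    ext x; simp
  rw [hF.Dv_eq]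
  push_cast
  rw [Finset.sum_congr rfl h1, Finset.sum_add_distrib, Finset.sum_add_distrib, h2, h3,
    ← Finset.mul_sum]
  have : 0 ≤ 4 / (3 * (c.t : ℚ)) * ∑ x ∈ L, c.BB x := mul_nonneg (by positivity) h0
  linarith

end St

theorem Net.core (N : Net X) (hN : N.TwinB) : ∃ s, ∑ x, N.cost x ≤ (Dv N.w s : ℚ) := by
  obtain ⟨c, rfl, G⟩ := St.exists_good N hN
  exact ⟨c.s, G.cost_le⟩

end

end Pool.Agent.Lib.MP_bb98d0_co
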